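import Pool.Agent.Work.MP_9fb703_fq.Interface1

set_option autoImplicit false

/-! # Block BAS: a basis adapted to a primitive vector and a linear form -/

namespace Pool.FQ

open Finset
open Pool.GE

/-- The linear form with the coefficients `c`. -/
def BAS_lin {n : ℕ} (c : Fin n → ℤ) : (Fin n → ℤ) →ₗ[ℤ] ℤ where
  toFun y := ∑ v, c v * y v
  map_add' y z := by
    rw [← Finset.sum_add_distrib]
    exact Finset.sum_congr rfl fun v _ => by rw [Pi.add_apply]; ring
  map_smul' r y := by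
    rw [RingHom.id_apply, smul_eq_mul, Finset.mul_sum]
    exact Finset.sum_congr rfl fun v _ => by rw [Pi.smul_apply, smul_eq_mul]; ring

theorem BAS_lin_apply {n : ℕ} (c y : Fin n → ℤ) : BAS_lin c y = ∑ v, c v * y v := rfl

/-- The matrix of a basis is invertible. -/
theorem BAS_mat {n : ℕ} (b : Module.Basis (Fin n) ℤ (Fin n → ℤ)) :
    ∃ U V : Matrix (Fin n) (Fin n) ℤ, U * V = 1 ∧ V * U = 1 ∧ ∀ v i, U v i = b i v := by
  refine ⟨(Pi.basisFun ℤ (Fin n)).toMatrix b, b.toMatrix (Pi.basisFun ℤ (Fin n)), ?_, ?_, ?_⟩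
  · exact Module.Basis.toMatrix_mul_toMatrix_flip _ _
  · exact Module.Basis.toMatrix_mul_toMatrix_flip _ _
  · intro v i
    rw [Module.Basis.toMatrix_apply, Pi.basisFun_repr]

/-- A nonzero linear form: a vector whose value is positive and divides all values. -/
theorem BAS_gcd {n : ℕ} (l : Fin n → ℤ) (hl : l ≠ 0) :
    ∃ (a : Fin n → ℤ) (D : ℕ), 0 < D ∧ BAS_lin l a = D ∧ ∀ z, (D : ℤ) ∣ BAS_lin l z := by
  obtain ⟨v, hv⟩ := Function.ne_iff.1 hl
  have hv' : BAS_lin l (Pi.single v 1) = l v := by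
    rw [BAS_lin_apply, Finset.sum_eq_single v]
    · rw [Pi.single_eq_same, mul_one]
    · intro w _ hw
      rw [Pi.single_eq_of_ne hw, mul_zero]
    · intro h
      exact absurd (Finset.mem_univ v) h
  set J : Ideal ℤ := LinearMap.range (BAS_lin l) with hJ
  obtain ⟨d, hd⟩ := (IsPrincipalIdealRing.principal J).principal
  have hdiv : ∀ z, d ∣ BAS_lin l z := by
    intro z
    have h1 : BAS_lin l z ∈ J := ⟨z, rfl⟩
    rw [hd] at h1
    exact Ideal.mem_span_singleton.1 h1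
  have hd0 : d ≠ 0 := by
    rintro rfl
    have h1 := hdiv (Pi.single v 1)
    rw [hv', zero_dvd_iff] at h1
    exact hv h1
  have hdm : d ∈ J := by
    rw [hd]
    exact Ideal.mem_span_singleton_self d
  obtain ⟨a', ha'⟩ := hdm
  refine ⟨d.sign • a', d.natAbs, Int.natAbs_pos.2 hd0, ?_, ?_⟩
  · rw [map_smul, ha', smul_eq_mul, Int.sign_mul_self_eq_natAbs]
  · intro z
    rw [Int.natCast_natAbs, abs_dvd]
    exact hdiv z

theorem p_BAS (_hUNI : Stmt_UNI) : Stmt_BAS := by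
  intro k e l he hl hle
  obtain ⟨c, hc⟩ := he
  have hfe : BAS_lin c e = 1 := hc
  have hLe : BAS_lin l e = 0 := hle
  obtain ⟨a, D, hD, ha, hdiv⟩ := BAS_gcd l hl
  set N : Submodule ℤ (Fin (k + 2) → ℤ) := LinearMap.ker (BAS_lin l) with hN
  set N' : Submodule ℤ (Fin (k + 2) → ℤ) := N ⊓ LinearMap.ker (BAS_lin c) with hN'
  have hle' : N' ≤ N := inf_le_left
  have heN : e ∈ N := LinearMap.mem_ker.2 hLe
  obtain ⟨m, ⟨b⟩⟩ := N'.nonempty_basis_of_pid (Pi.basisFun ℤ (Fin (k + 2)))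
  have hli1 : ∀ (r : ℤ), ∀ y ∈ N', r • e + y = 0 → r = 0 := by
    intro r y hy h
    have h1 := congrArg (BAS_lin c) h
    rw [map_add, map_smul, hfe, LinearMap.mem_ker.1 hy.2, map_zero, smul_eq_mul] at h1
    linarith
  have hsp1 : ∀ z ∈ N, ∃ r : ℤ, z + r • e ∈ N' := by
    intro z hz
    refine ⟨- BAS_lin c z, N.add_mem hz (N.smul_mem _ heN), ?_⟩
    rw [SetLike.mem_coe, LinearMap.mem_ker, map_add, map_smul, hfe, smul_eq_mul]
    ring
  set b1 : Module.Basis (Fin (m + 1)) ℤ N :=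
    Module.Basis.mkFinConsOfLE e heN b hle' hli1 hsp1 with hb1
  have hb10 : ((b1 0 : N) : Fin (k + 2) → ℤ) = e := by
    rw [hb1, Module.Basis.coe_mkFinConsOfLE]
    rfl
  have hD0 : (D : ℤ) ≠ 0 := by
    exact_mod_cast hD.ne'
  have hli2 : ∀ (r : ℤ), ∀ y ∈ N, r • a + y = 0 → r = 0 := by
    intro r y hy h
    have h1 := congrArg (BAS_lin l) h
    rw [map_add, map_smul, ha, LinearMap.mem_ker.1 hy, map_zero, smul_eq_mul, add_zero] at h1
    exact (mul_eq_zero.1 h1).resolve_right hD0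
  have hsp2 : ∀ z : Fin (k + 2) → ℤ, ∃ r : ℤ, z + r • a ∈ N := by
    intro z
    obtain ⟨q, hq⟩ := hdiv z
    refine ⟨-q, ?_⟩
    rw [hN, LinearMap.mem_ker, map_add, map_smul, ha, hq, smul_eq_mul]
    ring
  have hcard : m + 1 + 1 = k + 2 :=
    Fin.equiv_iff_eq.1 ⟨(Module.Basis.mkFinCons a b1 hli2 hsp2).indexEquiv
      (Pi.basisFun ℤ (Fin (k + 2)))⟩
  obtain rfl : m = k := by omega
  set b2 : Module.Basis (Fin (m + 2)) ℤ (Fin (m + 2) → ℤ) :=
    Module.Basis.mkFinCons a b1 hli2 hsp2 with hb2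
  have hb20 : b2 0 = a := by
    rw [hb2, Module.Basis.coe_mkFinCons]
    rfl
  have hb2s : ∀ i : Fin (m + 1), b2 i.succ = ((b1 i : N) : Fin (m + 2) → ℤ) := by
    intro i
    rw [hb2, Module.Basis.coe_mkFinCons, Fin.cons_succ]
    rfl
  obtain ⟨U, V, h1, h2, h3⟩ := BAS_mat b2
  refine ⟨U, V, D, hD, ?_, ?_, ?_, ?_, ?_⟩
  · intro i j
    have h4 := congrFun (congrFun h2 i) j
    rw [Matrix.mul_apply, Matrix.one_apply] at h4
    exact h4
  · intro v w
    have h4 := congrFun (congrFun h1 v) w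
    rw [Matrix.mul_apply, Matrix.one_apply] at h4
    exact h4
  · intro v
    rw [h3]
    have h4 : b2 1 = e := by
      rw [← hb10, ← hb2s 0]
      rfl
    rw [h4]
  · have h4 : ∀ v, U v 0 = a v := fun v => by rw [h3, hb20]
    simp only [h4]
    exact ha
  · intro j
    have h4 : ∀ v, U v j.succ.succ = ((b1 j.succ : N) : Fin (m + 2) → ℤ) v := fun v => by
      rw [h3, hb2s]
    simp only [h4]
    exact LinearMap.mem_ker.1 (b1 j.succ).2

end Pool.FQ
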