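import Pool.Agent.Work.MP_9fb703_fq.Interface1

/-! Block BOX of THEOREM FQ (helper16): zeros of a quadratic form modulo a prime in a box. -/

set_option autoImplicit false

namespace Pool.FQ

open Finset

lemma BOX_sumt (n : ℕ) [NeZero n] (b : ZMod n) :
    ∑ x : ZMod n, (ZMod.stdAddChar (x * b) : ℂ) = if b = 0 then (n : ℂ) else 0 := by
  have h := AddChar.sum_mulShift (R := ZMod n) (R' := ℂ) (ψ := ZMod.stdAddChar) b
    (ZMod.isPrimitive_stdAddChar n)
  rw [h]
  split_ifs
  · rw [ZMod.card]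
  · simp

lemma BOX_prod {k n : ℕ} [NeZero n] (f : Fin k → ZMod n) :
    (ZMod.stdAddChar (∑ j, f j) : ℂ) = ∏ j, (ZMod.stdAddChar (f j) : ℂ) := by
  classical
  induction' (Finset.univ : Finset (Fin k)) using Finset.induction_on with a s ha ih
  · simp
  · rw [Finset.sum_insert ha, Finset.prod_insert ha, AddChar.map_add_eq_mul, ih]

/-- completing the sum -/
lemma BOX_complete {k n : ℕ} [NeZero n] (F : (Fin k → ZMod n) → ℂ) (B : Fin k → Finset ℤ) :
    (n : ℂ) ^ k * ∑ z ∈ Fintype.piFinset B, F (fun j => (z j : ZMod n)) =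
      ∑ h : Fin k → ZMod n, (∑ w : Fin k → ZMod n, F w * (ZMod.stdAddChar (∑ j, h j * w j) : ℂ)) *
        ∏ j, ∑ z ∈ B j, (ZMod.stdAddChar (-h j * (z : ZMod n)) : ℂ) := by
  classical
  have h1 : ∀ h : Fin k → ZMod n,
      (∏ j, ∑ z ∈ B j, (ZMod.stdAddChar (-h j * (z : ZMod n)) : ℂ)) =
        ∑ z ∈ Fintype.piFinset B, ∏ j, (ZMod.stdAddChar (-h j * (z j : ZMod n)) : ℂ) := by
    intro h
    rw [Finset.prod_univ_sum]
  simp_rw [h1, Finset.mul_sum, Finset.sum_mul]
  rw [Finset.sum_comm]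
  refine Finset.sum_congr rfl fun z _ => ?_
  rw [Finset.sum_comm]
  have h2 : ∀ w : Fin k → ZMod n, (∑ h : Fin k → ZMod n,
      F w * (ZMod.stdAddChar (∑ j, h j * w j) : ℂ) *
        ∏ j, (ZMod.stdAddChar (-h j * (z j : ZMod n)) : ℂ)) =
      F w * ∏ j, (if w j - (z j : ZMod n) = 0 then (n : ℂ) else 0) := by
    intro w
    have h3 : ∀ j, (if w j - (z j : ZMod n) = 0 then (n : ℂ) else 0) =
        ∑ x : ZMod n, (ZMod.stdAddChar (x * (w j - (z j : ZMod n))) : ℂ) := fun j =>
      (BOX_sumt n _).symm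
    simp_rw [h3]
    rw [Finset.prod_univ_sum, Finset.mul_sum]
    rw [Fintype.piFinset_univ]
    refine Finset.sum_congr rfl fun h _ => ?_
    rw [BOX_prod, mul_assoc, ← Finset.prod_mul_distrib]
    congr 1
    refine Finset.prod_congr rfl fun j _ => ?_
    rw [← AddChar.map_add_eq_mul]
    congr 1
    ring
  rw [Finset.sum_congr rfl fun w _ => h2 w]
  rw [Finset.sum_eq_single (fun j => (z j : ZMod n))]
  · simp only [sub_self, if_true, Finset.prod_const, Finset.card_univ, Fintype.card_fin]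
    ring
  · intro w _ hw
    obtain ⟨j, hj⟩ := Function.ne_iff.1 hw
    have : (∏ j, (if w j - (z j : ZMod n) = 0 then (n : ℂ) else 0)) = 0 :=
      Finset.prod_eq_zero (Finset.mem_univ j) (by rw [if_neg (sub_ne_zero.2 hj)])
    rw [this, mul_zero]
  · intro h; exact absurd (Finset.mem_univ _) h

theorem p_BOX (hGAU : Stmt_GAU) (hINC : Stmt_INC) : Stmt_BOX := by
  classical
  intro k g n _ hdg g' ζ u L hg' hL
  have : NeZero n := ⟨(Fact.out : n.Prime).ne_zero⟩
  have hn : (0 : ℝ) < n := by exact_mod_cast (Fact.out : n.Prime).pos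
  set B : Fin k → Finset ℤ := fun j => Finset.Ico (u j) (u j + L j) with hB
  set F : ZMod n → (Fin k → ZMod n) → ℂ := fun t w =>
    (ZMod.stdAddChar (t * qd g (fun j => (ζ j : ZMod n) + (g' : ZMod n) * w j)) : ℂ) with hF
  have hcast : ∀ z : Fin k → ℤ, ((qd g (fun j => ζ j + g' * z j) : ℤ) : ZMod n) =
      qd g (fun j => (ζ j : ZMod n) + (g' : ZMod n) * ((z j : ℤ) : ZMod n)) := by
    intro z
    simp only [qd]
    push_cast
    rfl
  -- bound for t ≠ 0
  have hS : ∀ t : ZMod n, t ≠ 0 →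
      ‖∑ z ∈ Fintype.piFinset B, F t (fun j => (z j : ZMod n))‖ ≤
        (√(n : ℝ)) ^ k * (2 + Real.log n) ^ k := by
    intro t ht
    have hc := BOX_complete (F t) B
    have hn' : ‖((n : ℂ)) ^ k‖ = (n : ℝ) ^ k := by
      rw [norm_pow]; simp
    have h1 : (n : ℝ) ^ k * ‖∑ z ∈ Fintype.piFinset B, F t (fun j => (z j : ZMod n))‖ ≤
        (n : ℝ) ^ k * ((√(n : ℝ)) ^ k * (2 + Real.log n) ^ k) := by
      rw [← hn', ← norm_mul, hc, hn']
      calc _ ≤ ∑ h : Fin k → ZMod n, (√(n : ℝ)) ^ k *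
              ∏ j, ‖∑ z ∈ B j, (ZMod.stdAddChar (-h j * (z : ZMod n)) : ℂ)‖ := by
            refine (norm_sum_le _ _).trans (Finset.sum_le_sum fun h _ => ?_)
            rw [norm_mul, norm_prod]
            refine mul_le_mul_of_nonneg_right ?_ (Finset.prod_nonneg fun j _ => norm_nonneg _)
            have hG := hGAU k g n hdg g' ζ t h hg' ht
            have e1 : (∑ w : Fin k → ZMod n, F t w * (ZMod.stdAddChar (∑ j, h j * w j) : ℂ)) =
                ∑ z : Fin k → ZMod n, (ZMod.stdAddChar (t * qd g (fun j => (ζ j : ZMod n) +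
                  (g' : ZMod n) * z j) + ∑ j, h j * z j) : ℂ) := by
              refine Finset.sum_congr rfl fun w _ => ?_
              rw [AddChar.map_add_eq_mul]
            rw [e1]
            refine le_of_eq ?_
            have : (√(n : ℝ)) ^ k = √((n : ℝ) ^ k) := by
              rw [Real.sqrt_eq_rpow, Real.sqrt_eq_rpow, ← Real.rpow_natCast, ← Real.rpow_natCast,
                ← Real.rpow_mul hn.le, ← Real.rpow_mul hn.le, mul_comm]
            rw [this, ← hG, Real.sqrt_sq (norm_nonneg _)]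
        _ = (√(n : ℝ)) ^ k * ∏ j, ∑ a : ZMod n,
              ‖∑ z ∈ B j, (ZMod.stdAddChar (-a * (z : ZMod n)) : ℂ)‖ := by
            rw [← Finset.mul_sum, Finset.prod_univ_sum, Fintype.piFinset_univ]
        _ ≤ (√(n : ℝ)) ^ k * ∏ _j : Fin k, ((n : ℝ) * (2 + Real.log n)) := by
            refine mul_le_mul_of_nonneg_left (Finset.prod_le_prod (fun j _ =>
              Finset.sum_nonneg fun _ _ => norm_nonneg _) fun j _ => ?_) (by positivity)
            have h5 := hINC n (u j) (L j) (hL j)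
            have h6 := Equiv.sum_comp (Equiv.neg (ZMod n)) (fun h : ZMod n =>
              ‖∑ z ∈ Finset.Ico (u j) (u j + L j), (ZMod.stdAddChar (h * (z : ZMod n)) : ℂ)‖)
            rw [← h6] at h5
            simpa [hB] using h5
        _ = (n : ℝ) ^ k * ((√(n : ℝ)) ^ k * (2 + Real.log n) ^ k) := by
            rw [Finset.prod_const, Finset.card_univ, Fintype.card_fin, mul_pow]; ring
    exact le_of_mul_le_mul_left h1 (by positivity)
  -- counting
  have hcount : (n : ℂ) * ((((Fintype.piFinset B).filter fun z =>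
      (n : ℤ) ∣ qd g (fun j => ζ j + g' * z j)).card : ℕ) : ℂ) =
      ∑ t : ZMod n, ∑ z ∈ Fintype.piFinset B, F t (fun j => (z j : ZMod n)) := by
    rw [Finset.sum_comm]
    have : ∀ z : Fin k → ℤ, ∑ t : ZMod n, F t (fun j => (z j : ZMod n)) =
        if (n : ℤ) ∣ qd g (fun j => ζ j + g' * z j) then (n : ℂ) else 0 := by
      intro z
      simp only [hF]
      rw [BOX_sumt, ← hcast z]
      congr 1
      exact propext (ZMod.intCast_zmod_eq_zero_iff_dvd _ n)
    rw [Finset.sum_congr rfl fun z _ => this z, ← Finset.sum_filter, Finset.sum_const, nsmul_eq_mul]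
    ring
  have hsplit : ∑ t : ZMod n, ∑ z ∈ Fintype.piFinset B, F t (fun j => (z j : ZMod n)) =
      (∏ j, (L j : ℂ)) + ∑ t ∈ Finset.univ.erase (0 : ZMod n),
        ∑ z ∈ Fintype.piFinset B, F t (fun j => (z j : ZMod n)) := by
    rw [← Finset.add_sum_erase _ _ (Finset.mem_univ (0 : ZMod n))]
    congr 1
    have : ∀ z : Fin k → ℤ, F 0 (fun j => (z j : ZMod n)) = 1 := by
      intro z; simp [hF]
    rw [Finset.sum_congr rfl fun z _ => this z, Finset.sum_const, Fintype.card_piFinset]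
    simp [hB]
  have hdiff : ‖(n : ℂ) * ((((Fintype.piFinset B).filter fun z =>
      (n : ℤ) ∣ qd g (fun j => ζ j + g' * z j)).card : ℕ) : ℂ) - ∏ j, (L j : ℂ)‖ ≤
      n * ((√(n : ℝ)) ^ k * (2 + Real.log n) ^ k) := by
    rw [hcount, hsplit, add_sub_cancel_left]
    refine (norm_sum_le _ _).trans ?_
    refine (Finset.sum_le_sum fun t ht => hS t (Finset.ne_of_mem_erase ht)).trans ?_
    rw [Finset.sum_const, nsmul_eq_mul]
    refine mul_le_mul_of_nonneg_right ?_ ?_
    · have : (Finset.univ.erase (0 : ZMod n)).card ≤ n := by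
        refine (Finset.card_le_univ _).trans ?_
        rw [ZMod.card]
      exact_mod_cast this
    · have : 0 ≤ Real.log n := Real.log_natCast_nonneg n
      positivity
  have hre : ‖(n : ℂ) * ((((Fintype.piFinset B).filter fun z =>
      (n : ℤ) ∣ qd g (fun j => ζ j + g' * z j)).card : ℕ) : ℂ) - ∏ j, (L j : ℂ)‖ =
      |(n : ℝ) * ((((Fintype.piFinset B).filter fun z =>
      (n : ℤ) ∣ qd g (fun j => ζ j + g' * z j)).card : ℕ) : ℝ) - ∏ j, (L j : ℝ)| := by
    rw [← Real.norm_eq_abs, ← Complex.norm_real]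
    congr 1
    push_cast
    rfl
  rw [hre] at hdiff
  have key : |(n : ℝ) * (((((Fintype.piFinset B).filter fun z =>
      (n : ℤ) ∣ qd g (fun j => ζ j + g' * z j)).card : ℕ) : ℝ) - (∏ j, (L j : ℝ)) / n)| ≤
      n * ((√(n : ℝ)) ^ k * (2 + Real.log n) ^ k) := by
    have : (n : ℝ) * (((((Fintype.piFinset B).filter fun z =>
      (n : ℤ) ∣ qd g (fun j => ζ j + g' * z j)).card : ℕ) : ℝ) - (∏ j, (L j : ℝ)) / n) =
      (n : ℝ) * ((((Fintype.piFinset B).filter fun z =>
      (n : ℤ) ∣ qd g (fun j => ζ j + g' * z j)).card : ℕ) : ℝ) - ∏ j, (L j : ℝ) := by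
      field_simp
    rw [this]; exact hdiff
  rw [abs_mul, abs_of_pos hn] at key
  exact le_of_mul_le_mul_left key hn
end Pool.FQ
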