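import Pool.Agent.Work.MP_9fb703_fq.Interface1

set_option autoImplicit false

namespace Pool.FQ

open Finset

theorem BXL_log (k : ℕ) (ε : ℝ) (hε : 0 < ε) : ∃ n₀ : ℕ, ∀ n : ℕ, n₀ ≤ n →
    (2 + Real.log n) ^ k ≤ ε * √(n : ℝ) := by
  have h1 : (fun x : ℝ => Real.log x ^ k) =o[Filter.atTop] (id : ℝ → ℝ) :=
    Real.isLittleO_pow_log_id_atTop
  have h2 := h1.bound (show 0 < ε / 4 ^ k by positivity)
  have h3 : Filter.Tendsto (fun n : ℕ => √(n : ℝ)) Filter.atTop Filter.atTop :=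
    Real.tendsto_sqrt_atTop.comp tendsto_natCast_atTop_atTop
  have h4 := (h3.eventually h2).and (h3.eventually (Filter.eventually_ge_atTop (Real.exp 1)))
  obtain ⟨n₀, h⟩ := Filter.eventually_atTop.1 h4
  refine ⟨n₀, fun n hn => ?_⟩
  obtain ⟨h5, h6⟩ := h n hn
  have h7 : Real.log n = 2 * Real.log √(n : ℝ) := by
    rw [Real.log_sqrt (by positivity)]; ring
  have h8 : 1 ≤ Real.log √(n : ℝ) := by
    rw [← Real.log_exp 1]
    exact Real.log_le_log (Real.exp_pos 1) h6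
  rw [Real.norm_eq_abs, Real.norm_eq_abs, abs_of_nonneg (by positivity), id,
    abs_of_nonneg (Real.sqrt_nonneg _)] at h5
  calc (2 + Real.log n) ^ k ≤ (4 * Real.log √(n : ℝ)) ^ k := by
        refine pow_le_pow_left₀ (by linarith) ?_ _
        rw [h7]; linarith
    _ = 4 ^ k * Real.log √(n : ℝ) ^ k := mul_pow _ _ _
    _ ≤ 4 ^ k * (ε / 4 ^ k * √(n : ℝ)) := mul_le_mul_of_nonneg_left h5 (by positivity)
    _ = ε * √(n : ℝ) := by field_simp

theorem p_BXL (hBOX : Stmt_BOX) : Stmt_BXL := by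
  classical
  intro k g m lam hk hdg hm hlam
  have hm1 : (1 : ℝ) ≤ m := by exact_mod_cast hm
  obtain ⟨μ, hμ⟩ : ∃ μ : ℝ, μ = lam / m := ⟨_, rfl⟩
  have hμ0 : 0 < μ := by rw [hμ]; positivity
  obtain ⟨n₁, hn₁⟩ := BXL_log k (μ ^ k / 4) (by positivity)
  obtain ⟨n₂, hn₂⟩ : ∃ n₂ : ℕ, 4 * k / μ ≤ (n₂ : ℝ) := exists_nat_ge _
  refine ⟨n₁ + n₂ + m + (dg g).natAbs + 1, ?_⟩
  intro n hnp hn ζ u r hr1 hr2
  have hn0 : (1 : ℝ) ≤ n := by exact_mod_cast hnp.out.one_lt.le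
  obtain ⟨x, hx⟩ : ∃ x : ℝ, x = r / m := ⟨_, rfl⟩
  have hxm : x * m = r := by rw [hx]; field_simp
  have hxμ : μ * n ≤ x := by
    rw [hμ, hx, div_mul_eq_mul_div]
    exact div_le_div_of_nonneg_right hr1 (by linarith)
  have hx0 : 0 < x := lt_of_lt_of_le (by positivity) hxμ
  have hx4 : 4 * k ≤ x := by
    refine le_trans ?_ hxμ
    have h1 : (n₂ : ℝ) ≤ n := by exact_mod_cast (show n₂ ≤ n by omega)
    rw [div_le_iff₀ hμ0] at hn₂
    nlinarith
  have hxr : x ≤ r := by nlinarith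
  obtain ⟨L, hL⟩ : ∃ L : ℕ, L = ⌊x⌋₊ := ⟨_, rfl⟩
  have hL1 : (L : ℝ) ≤ x := by rw [hL]; exact Nat.floor_le hx0.le
  have hL2 : x - 1 ≤ L := by rw [hL]; exact (Nat.sub_one_lt_floor x).le
  have hLn : L ≤ n := by
    have : (L : ℝ) ≤ n := by linarith
    exact_mod_cast this
  have hndg : ¬ (n : ℤ) ∣ dg g := by
    intro h1
    have h2 : n ∣ (dg g).natAbs := Int.natCast_dvd.1 h1
    have h3 := Nat.le_of_dvd (Int.natAbs_pos.2 hdg) h2
    omega
  have hnm : ¬ (n : ℤ) ∣ (m : ℤ) := by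
    intro h1
    have h2 : n ∣ m := by exact_mod_cast h1
    have h3 := Nat.le_of_dvd hm h2
    omega
  obtain ⟨a, ha⟩ : ∃ a : Fin k → ℤ, a = fun j => ⌈(u j - ζ j) / m⌉ := ⟨_, rfl⟩
  have hbox := hBOX k g n hndg (m : ℤ) ζ a (fun _ => L) hnm (fun _ => hLn)
  rw [abs_le] at hbox
  have hbox' := hbox.1
  obtain ⟨F, hF⟩ : ∃ F : Finset (Fin k → ℤ), F = (Fintype.piFinset fun j =>
    Finset.Ico (a j) (a j + L)).filter fun z => (n : ℤ) ∣ qd g (fun j => ζ j + (m : ℤ) * z j) :=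
    ⟨_, rfl⟩
  rw [← hF, Finset.prod_const, Finset.card_univ, Fintype.card_fin] at hbox'
  -- the main term
  have hmain : 3 / 4 * x ^ k ≤ (L : ℝ) ^ k := by
    have hx1 : 1 ≤ x := by
      have : (3 : ℝ) ≤ k := by exact_mod_cast hk
      linarith
    have h1 : (x - 1) ^ k ≤ (L : ℝ) ^ k := pow_le_pow_left₀ (by linarith) hL2 _
    have h2 : x - 1 = x * (1 + (-(1 / x))) := by field_simp; ring
    have h3 : 1 + (k : ℝ) * (-(1 / x)) ≤ (1 + (-(1 / x))) ^ k := by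
      refine one_add_mul_le_pow ?_ _
      have : 1 / x ≤ 1 := by rw [div_le_one hx0]; exact hx1
      linarith
    have h4 : (3 : ℝ) / 4 ≤ 1 + (k : ℝ) * (-(1 / x)) := by
      have h5 : (k : ℝ) / x ≤ 1 / 4 := by
        rw [div_le_iff₀ hx0]; linarith
      have h6 : (k : ℝ) * (-(1 / x)) = -(k / x) := by ring
      rw [h6]; linarith
    calc 3 / 4 * x ^ k ≤ (1 + (-(1 / x))) ^ k * x ^ k :=
          mul_le_mul_of_nonneg_right (le_trans h4 h3) (by positivity)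
      _ = (x - 1) ^ k := by rw [h2, mul_pow]; ring
      _ ≤ _ := h1
  have herr : (√(n : ℝ)) ^ k * (2 + Real.log n) ^ k ≤ x ^ k / (4 * n) := by
    obtain ⟨y, hy⟩ : ∃ y : ℝ, y = √(n : ℝ) := ⟨_, rfl⟩
    have hy1 : 1 ≤ y := by rw [hy]; exact Real.one_le_sqrt.2 hn0
    have hyn : (n : ℝ) = y ^ 2 := by rw [hy, Real.sq_sqrt (by linarith)]
    have h1 := hn₁ n (by omega)
    rw [← hy] at h1 ⊢
    rw [le_div_iff₀ (by linarith)]
    obtain ⟨l, rfl⟩ : ∃ l, k = l + 3 := ⟨k - 3, by omega⟩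
    have h2 : y ^ (l + 3) * (2 + Real.log n) ^ (l + 3) ≤ y ^ (l + 3) * (μ ^ (l + 3) / 4 * y) :=
      mul_le_mul_of_nonneg_left h1 (by positivity)
    have h3 : y ^ (l + 6) ≤ y ^ (2 * (l + 3)) := pow_le_pow_right₀ hy1 (by omega)
    have h4 : (μ * n) ^ (l + 3) ≤ x ^ (l + 3) := pow_le_pow_left₀ (by positivity) hxμ _
    calc y ^ (l + 3) * (2 + Real.log n) ^ (l + 3) * (4 * n)
        ≤ y ^ (l + 3) * (μ ^ (l + 3) / 4 * y) * (4 * n) :=
          mul_le_mul_of_nonneg_right h2 (by linarith)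
      _ = μ ^ (l + 3) * y ^ (l + 6) := by rw [hyn]; ring
      _ ≤ μ ^ (l + 3) * y ^ (2 * (l + 3)) := mul_le_mul_of_nonneg_left h3 (by positivity)
      _ = (μ * n) ^ (l + 3) := by rw [hyn, mul_pow, ← pow_mul]
      _ ≤ x ^ (l + 3) := h4
  have hcard : x ^ k / (2 * n) ≤ (F.card : ℝ) := by
    have h1 : 3 / 4 * x ^ k / n ≤ (L : ℝ) ^ k / n := div_le_div_of_nonneg_right hmain (by linarith)
    have h2 : 3 / 4 * x ^ k / n = x ^ k / (2 * n) + x ^ k / (4 * n) := by field_simp; ring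
    linarith
  have hinj : Function.Injective fun z : Fin k → ℤ => fun j => ζ j + (m : ℤ) * z j := by
    intro z z' h
    funext j
    have h1 : ζ j + (m : ℤ) * z j = ζ j + (m : ℤ) * z' j := congrFun h j
    have h2 : (m : ℤ) * z j = (m : ℤ) * z' j := by linarith
    exact mul_left_cancel₀ (by exact_mod_cast (show m ≠ 0 by omega)) h2
  refine ⟨F.image fun z : Fin k → ℤ => fun j => ζ j + (m : ℤ) * z j, ?_, ?_⟩
  · rw [Finset.card_image_of_injective _ hinj, ← hx]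
    exact hcard
  · intro z hz
    obtain ⟨w, hw, rfl⟩ := Finset.mem_image.1 hz
    rw [hF] at hw
    obtain ⟨hw1, hw2⟩ := Finset.mem_filter.1 hw
    refine ⟨fun j => ?_, hw2⟩
    have h1 := Finset.mem_Ico.1 (Fintype.mem_piFinset.1 hw1 j)
    rw [ha] at h1
    obtain ⟨h2, h3⟩ := h1
    have h4 : (u j - ζ j) / m ≤ (w j : ℝ) := Int.ceil_le.1 h2
    have h5 : (w j : ℝ) + 1 ≤ (⌈(u j - ζ j) / m⌉ : ℝ) + L := by
      have : w j + 1 ≤ ⌈(u j - ζ j) / m⌉ + L := h3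
      exact_mod_cast this
    have h6 : (⌈(u j - ζ j) / m⌉ : ℝ) < (u j - ζ j) / m + 1 := Int.ceil_lt_add_one _
    rw [div_le_iff₀ (by linarith)] at h4
    refine ⟨?_, ?_, ?_⟩
    · push_cast
      linarith
    · push_cast
      have h7 : (w j : ℝ) < (u j - ζ j) / m + x := by linarith
      have h8 : (w j : ℝ) * m < ((u j - ζ j) / m + x) * m := mul_lt_mul_of_pos_right h7 (by linarith)
      have h9 : ((u j - ζ j) / m + x) * m = u j - ζ j + r := by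
        rw [add_mul, hxm, div_mul_cancel₀ _ (by linarith)]
      linarith
    · show (m : ℤ) ∣ ζ j + (m : ℤ) * w j - ζ j
      rw [add_sub_cancel_left]
      exact dvd_mul_right _ _

end Pool.FQ
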