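import Pool.Agent.Work.MP_9fb703_fq.Interface1

set_option autoImplicit false

namespace Pool.FQ

open Finset

theorem BXU_cell {M L Q : ℕ} (hL1 : 1 ≤ L) (hLQ : M ≤ Q * L) (a w : ℤ) (h1 : a ≤ w)
    (h2 : w < a + M) : ∃ i : Fin Q, w ∈ Finset.Ico (a + ((i : ℕ) : ℤ) * L) (a + ((i : ℕ) : ℤ) * L + L) := by
  obtain ⟨t, ht⟩ := Int.eq_ofNat_of_zero_le (sub_nonneg.2 h1)
  have h3 : t < M := by
    have : (t : ℤ) < M := by rw [← ht]; linarith
    exact_mod_cast this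
  have h4 : t / L < Q := (Nat.div_lt_iff_lt_mul hL1).2 (lt_of_lt_of_le h3 hLQ)
  refine ⟨⟨t / L, h4⟩, ?_⟩
  have h5 : L * (t / L) + t % L = t := Nat.div_add_mod t L
  have h6 : t % L < L := Nat.mod_lt _ hL1
  have h7 : (L : ℤ) * ((t / L : ℕ) : ℤ) + ((t % L : ℕ) : ℤ) = (t : ℤ) := by exact_mod_cast h5
  have h8 : ((t % L : ℕ) : ℤ) < L := by exact_mod_cast h6
  have h9 : (0 : ℤ) ≤ ((t % L : ℕ) : ℤ) := Int.natCast_nonneg _
  have h10 : w - a = (t : ℤ) := ht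
  rw [Finset.mem_Ico]
  constructor
  · show a + ((t / L : ℕ) : ℤ) * L ≤ w
    nlinarith
  · show w < a + ((t / L : ℕ) : ℤ) * L + L
    nlinarith

theorem p_BXU (hBOX : Stmt_BOX) : Stmt_BXU := by
  classical
  intro k B hB
  obtain ⟨Q, hQ1⟩ : ∃ Q : ℕ, (2 + B) * B ≤ (Q : ℝ) := ⟨⌈(2 + B) * B⌉₊, Nat.le_ceil _⟩
  have hQpos : (1 : ℝ) ≤ Q := by nlinarith
  have hQ1' : 1 ≤ Q := by exact_mod_cast hQpos
  refine ⟨(Q : ℝ) ^ k * (2 + B) ^ k, ?_, ?_⟩
  · have h1 : (1 : ℝ) ≤ (Q : ℝ) ^ k := one_le_pow₀ hQpos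
    have h2 : (1 : ℝ) ≤ (2 + B) ^ k := one_le_pow₀ (by linarith)
    nlinarith
  intro g n hn hdg g' ζ u r hg1 hng hgr hrn S hS
  have hnpos : 0 < n := hn.out.pos
  have hn1 : (1 : ℝ) ≤ n := by exact_mod_cast hnpos
  have hg0 : (1 : ℝ) ≤ g' := by exact_mod_cast hg1
  have hr : 0 < r := by
    by_contra h
    push Not at h
    nlinarith
  obtain ⟨x, hx⟩ : ∃ x : ℝ, x = r / g' := ⟨_, rfl⟩
  have hx0 : 0 < x := by rw [hx]; positivity
  have hrx : r = x * g' := by rw [hx]; field_simp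
  have hBx : 1 ≤ B * x := by
    rw [hx, ← mul_div_assoc, le_div_iff₀ (by linarith)]
    linarith
  have hxn : x ≤ B * n := by nlinarith
  obtain ⟨M, hM0, hM1⟩ : ∃ M : ℕ, (2 * x < M) ∧ (M : ℝ) ≤ 2 * x + 1 :=
    ⟨⌊2 * x⌋₊ + 1, by push_cast; exact Nat.lt_floor_add_one _, by
      push_cast; linarith [Nat.floor_le (show 0 ≤ 2 * x by linarith)]⟩
  have hM2 : (M : ℝ) ≤ (2 + B) * x := by nlinarith
  have hM3 : (M : ℝ) ≤ Q * n := by
    calc (M : ℝ) ≤ (2 + B) * x := hM2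
      _ ≤ (2 + B) * (B * n) := by
          have : 0 ≤ 2 + B := by linarith
          exact mul_le_mul_of_nonneg_left hxn this
      _ = ((2 + B) * B) * n := by ring
      _ ≤ Q * n := mul_le_mul_of_nonneg_right hQ1 (by linarith)
  have hM4 : M ≤ Q * n := by exact_mod_cast hM3
  have hMpos : 0 < M := by
    have : (0 : ℝ) < M := by linarith
    exact_mod_cast this
  obtain ⟨L, hL⟩ : ∃ L : ℕ, L = min n M := ⟨_, rfl⟩
  have hL1 : 1 ≤ L := by rw [hL]; exact le_min hnpos hMpos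
  have hLn : L ≤ n := by rw [hL]; exact min_le_left _ _
  have hLM : L ≤ M := by rw [hL]; exact min_le_right _ _
  have hLQ : M ≤ Q * L := by
    rw [hL]
    rcases le_total n M with h | h
    · rw [min_eq_left h]; exact hM4
    · rw [min_eq_right h]; exact Nat.le_mul_of_pos_left _ hQ1'
  -- the quotients
  have key : ∀ z ∈ S, ∀ j, ∃ w : ℤ, z j = ζ j + (g' : ℤ) * w ∧
      ⌈(u j - ζ j - r) / g'⌉ ≤ w ∧ w < ⌈(u j - ζ j - r) / g'⌉ + M := by
    intro z hz j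
    obtain ⟨⟨h1, w, hw⟩⟩ := And.intro ((hS z hz).1 j) trivial
    have h2 : z j = ζ j + (g' : ℤ) * w := by linarith
    have h3 : (z j : ℝ) = ζ j + g' * w := by rw [h2]; push_cast; ring
    rw [h3, abs_le] at h1
    refine ⟨w, h2, ?_, ?_⟩
    · rw [Int.ceil_le, div_le_iff₀ (by linarith)]
      linarith [h1.1]
    · have h4 : (u j - ζ j - r) / g' ≤ (⌈(u j - ζ j - r) / g'⌉ : ℤ) := Int.le_ceil _
      have h5 : (w : ℝ) ≤ (u j - ζ j - r) / g' + 2 * x := by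
        rw [← sub_le_iff_le_add, le_div_iff₀ (by linarith)]
        nlinarith [h1.2]
      have h6 : (w : ℝ) < ((⌈(u j - ζ j - r) / g'⌉ + M : ℤ) : ℝ) := by
        push_cast
        linarith
      exact_mod_cast h6
  choose! w hw1 hw2 hw3 using key
  obtain ⟨a, ha⟩ : ∃ a : Fin k → ℤ, a = fun j => ⌈(u j - ζ j - r) / g'⌉ := ⟨_, rfl⟩
  have hw2' : ∀ z ∈ S, ∀ j, a j ≤ w z j := fun z hz j => by rw [ha]; exact hw2 z hz j
  have hw3' : ∀ z ∈ S, ∀ j, w z j < a j + M := fun z hz j => by rw [ha]; exact hw3 z hz j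
  obtain ⟨E, hE⟩ : ∃ E : ℝ, E = (√(n : ℝ)) ^ k * (2 + Real.log n) ^ k := ⟨_, rfl⟩
  have hlog : 0 ≤ Real.log n := Real.log_nonneg hn1
  have hE0 : 0 ≤ E := by rw [hE]; positivity
  have hbox := fun i : Fin k → Fin Q => hBOX k g n hdg (g' : ℤ) ζ
    (fun j => a j + ((i j : ℕ) : ℤ) * L) (fun _ => L)
    (fun h => hng (by exact_mod_cast h)) (fun _ => hLn)
  let F : (Fin k → Fin Q) → Finset (Fin k → ℤ) := fun i =>
    (Fintype.piFinset fun j => Finset.Ico (a j + ((i j : ℕ) : ℤ) * L)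
      (a j + ((i j : ℕ) : ℤ) * L + L)).filter fun z =>
      (n : ℤ) ∣ qd g (fun j => ζ j + (g' : ℤ) * z j)
  have hF : ∀ i, ((F i).card : ℝ) ≤ (2 + B) ^ k * (x ^ k / n) + E := by
    intro i
    have h1 := hbox i
    rw [abs_le] at h1
    have h2 : ∏ _j : Fin k, (L : ℝ) ≤ ((2 + B) * x) ^ k := by
      rw [Finset.prod_const, Finset.card_univ, Fintype.card_fin]
      refine pow_le_pow_left₀ (by positivity) ?_ _
      exact le_trans (by exact_mod_cast hLM) hM2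
    have h3 : (∏ _j : Fin k, (L : ℝ)) / n ≤ (2 + B) ^ k * (x ^ k / n) := by
      calc (∏ _j : Fin k, (L : ℝ)) / n ≤ ((2 + B) * x) ^ k / n := by gcongr
        _ = (2 + B) ^ k * (x ^ k / n) := by rw [mul_pow]; ring
    have h4 := h1.2
    have h5 : ((F i).card : ℝ) - (∏ _j : Fin k, (L : ℝ)) / n ≤ E := by rw [hE]; exact h4
    linarith
  have hcard : S.card ≤ ((Finset.univ : Finset (Fin k → Fin Q)).biUnion F).card := by
    refine Finset.card_le_card_of_injOn w ?_ ?_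
    · intro z hz
      have hz' : z ∈ S := hz
      have hc : ∀ j, ∃ i : Fin Q, w z j ∈ Finset.Ico (a j + ((i : ℕ) : ℤ) * L)
          (a j + ((i : ℕ) : ℤ) * L + L) := fun j =>
        BXU_cell hL1 hLQ (a j) (w z j) (hw2' z hz' j) (hw3' z hz' j)
      choose i hi using hc
      refine Finset.mem_coe.2 (Finset.mem_biUnion.2 ⟨i, Finset.mem_univ _, ?_⟩)
      refine Finset.mem_filter.2 ⟨Fintype.mem_piFinset.2 hi, ?_⟩
      have h1 : (fun j => ζ j + (g' : ℤ) * w z j) = z := by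
        funext j
        exact (hw1 z hz' j).symm
      rw [h1]
      exact (hS z hz').2
    · intro z hz z' hz' h
      funext j
      rw [hw1 z hz j, hw1 z' hz' j, h]
  have hsum : ((((Finset.univ : Finset (Fin k → Fin Q)).biUnion F).card : ℕ) : ℝ) ≤
      (Q : ℝ) ^ k * ((2 + B) ^ k * (x ^ k / n) + E) := by
    calc ((((Finset.univ : Finset (Fin k → Fin Q)).biUnion F).card : ℕ) : ℝ)
        ≤ ((∑ i : Fin k → Fin Q, (F i).card : ℕ) : ℝ) := by exact_mod_cast Finset.card_biUnion_le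
      _ = ∑ i : Fin k → Fin Q, ((F i).card : ℝ) := by push_cast; rfl
      _ ≤ ∑ _i : Fin k → Fin Q, ((2 + B) ^ k * (x ^ k / n) + E) :=
          Finset.sum_le_sum fun i _ => hF i
      _ = (Q : ℝ) ^ k * ((2 + B) ^ k * (x ^ k / n) + E) := by
          rw [Finset.sum_const, Finset.card_univ, Fintype.card_fun, Fintype.card_fin,
            Fintype.card_fin, nsmul_eq_mul]
          push_cast
          ring
  have h2 : (1 : ℝ) ≤ (2 + B) ^ k := one_le_pow₀ (by linarith)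
  have hQk : (0 : ℝ) ≤ (Q : ℝ) ^ k := by positivity
  calc (S.card : ℝ) ≤ ((((Finset.univ : Finset (Fin k → Fin Q)).biUnion F).card : ℕ) : ℝ) := by
        exact_mod_cast hcard
    _ ≤ (Q : ℝ) ^ k * ((2 + B) ^ k * (x ^ k / n) + E) := hsum
    _ ≤ (Q : ℝ) ^ k * ((2 + B) ^ k * (x ^ k / n) + (2 + B) ^ k * E) := by
        refine mul_le_mul_of_nonneg_left ?_ hQk
        nlinarith
    _ = (Q : ℝ) ^ k * (2 + B) ^ k * ((r / g') ^ k / n + (√(n : ℝ)) ^ k * (2 + Real.log n) ^ k) := by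
        rw [← hx, ← hE]; ring

end Pool.FQ
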