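import Pool.Agent.Work.MP_9fb703_fq.Interface2

set_option autoImplicit false

/-! # Block CBQ (helper73): pairs `(n, z)` in a cube and a class. -/

namespace Pool.FQ

open Finset
open Pool.HPQ (Fw Lam Kw fl rd cs Ww)

/-- one threshold for all the cubes and classes -/
theorem CBQ_pap (hP : Stmt_PAP) (m s : ℕ) (hm : 1 ≤ m) (hs : 1 ≤ s) (lam c₀ B : ℝ)
    (hlam : 0 < lam) (hc₀ : 0 < c₀) :
    ∃ X₀ : ℕ, ∀ X : ℕ, X₀ ≤ X → ∀ (j : ℤ) (ν : ℤ), c₀ / 2 ≤ lam * j → |lam * j| ≤ B →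
      IsCoprime ν (m : ℤ) → ∃ S : Finset ℕ,
      lam * X / (4 * s * (Nat.totient m : ℝ) * Real.log X) ≤ (S.card : ℝ) ∧
      ∀ n ∈ S, n.Prime ∧ (m : ℤ) ∣ (n : ℤ) - ν ∧ lam * j / (2 * s) * X ≤ n ∧
        (n : ℝ) < lam * (j + 1) / (2 * s) * X := by
  classical
  have hs' : (0 : ℝ) < s := by exact_mod_cast hs
  have hm' : (0 : ℤ) < m := by exact_mod_cast hm
  have key : ∀ p : ℤ × ℤ, ∃ X₀ : ℕ, IsCoprime p.2 (m : ℤ) → c₀ / 2 ≤ lam * p.1 →
      ∀ X : ℕ, X₀ ≤ X → ∃ S : Finset ℕ,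
      lam * X / (4 * s * (Nat.totient m : ℝ) * Real.log X) ≤ (S.card : ℝ) ∧
      ∀ n ∈ S, n.Prime ∧ (m : ℤ) ∣ (n : ℤ) - p.2 ∧ lam * p.1 / (2 * s) * X ≤ n ∧
        (n : ℝ) < lam * (p.1 + 1) / (2 * s) * X := by
    intro p
    by_cases h1 : IsCoprime p.2 (m : ℤ)
    · by_cases h2 : c₀ / 2 ≤ lam * p.1
      · obtain ⟨X₀, -, hX⟩ := hP m p.2 hm h1 (lam * p.1 / (2 * s)) (lam * (p.1 + 1) / (2 * s))
          (div_pos (by linarith) (by positivity))
          (div_lt_div_of_pos_right (by nlinarith) (by positivity))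
        refine ⟨X₀, fun _ _ X hXX => ?_⟩
        obtain ⟨S, hS1, hS2⟩ := hX X hXX
        refine ⟨S, le_trans (le_of_eq ?_) hS1, hS2⟩
        have e1 : lam * ((p.1 : ℝ) + 1) / (2 * s) - lam * p.1 / (2 * s) = lam / (2 * s) := by
          ring
        rw [e1, div_mul_eq_mul_div, div_div]
        congr 1
        ring
      · exact ⟨0, fun _ h => absurd h h2⟩
    · exact ⟨0, fun h => absurd h h1⟩
  choose F hF using key
  set N : ℤ := ⌈B / lam⌉ with hN
  refine ⟨(Finset.Icc (-N) N ×ˢ Finset.Ico (0 : ℤ) m).sup F, ?_⟩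
  intro X hX j ν h1 h2 h3
  have hν : IsCoprime (ν % (m : ℤ)) (m : ℤ) := by
    have h4 : ν % (m : ℤ) + m * (ν / m) = ν := Int.emod_add_mul_ediv ν m
    rw [← h4] at h3
    exact IsCoprime.add_mul_left_left_iff.1 h3
  have hj : j ∈ Finset.Icc (-N) N := by
    have h5 : |(j : ℝ)| ≤ B / lam := by
      rw [abs_mul, abs_of_pos hlam] at h2
      rw [le_div_iff₀ hlam, mul_comm]
      exact h2
    have h6 : |(j : ℝ)| ≤ (N : ℝ) := h5.trans (Int.le_ceil _)
    have h7 : |j| ≤ N := by exact_mod_cast h6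
    exact Finset.mem_Icc.2 (abs_le.1 h7)
  have hmem : ((j, ν % (m : ℤ)) : ℤ × ℤ) ∈ Finset.Icc (-N) N ×ˢ Finset.Ico (0 : ℤ) m :=
    Finset.mem_product.2 ⟨hj, Finset.mem_Ico.2
      ⟨Int.emod_nonneg _ hm'.ne', Int.emod_lt_of_pos _ hm'⟩⟩
  have hle : F (j, ν % (m : ℤ)) ≤ X := (Finset.le_sup hmem).trans hX
  obtain ⟨S, hS1, hS2⟩ := hF (j, ν % (m : ℤ)) hν h1 X hle
  refine ⟨S, hS1, fun n hn => ?_⟩
  obtain ⟨g1, g2, g3⟩ := hS2 n hn
  refine ⟨g1, ?_, g3⟩
  have h8 : (n : ℤ) - ν = ((n : ℤ) - ν % (m : ℤ)) - m * (ν / m) := by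
    have h4 : ν % (m : ℤ) + m * (ν / m) = ν := Int.emod_add_mul_ediv ν m
    linarith
  rw [h8]
  exact dvd_sub g2 (dvd_mul_right _ _)

theorem p_CBQ (hP : Stmt_PAP) (hB : Stmt_BXL) : Stmt_CBQ := by
  classical
  intro k s g c₀ B hk hg hs hc₀ hB1
  have hs' : (1 : ℝ) ≤ s := by exact_mod_cast hs
  have hs0 : (0 : ℝ) < s := by linarith
  refine ⟨1 / (8 * s * 2 ^ k * (B + c₀)), by positivity, ?_⟩
  intro m lam hm hlam hlam2
  have hm' : (1 : ℝ) ≤ m := by exact_mod_cast hm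
  have hm0 : (0 : ℝ) < m := by linarith
  obtain ⟨X₁, hX₁⟩ := CBQ_pap hP m s hm hs lam c₀ B hlam hc₀
  have hl1 : 0 < lam / (2 * (B + c₀)) := by positivity
  obtain ⟨n₀, hn₀⟩ := hB k g m (lam / (2 * (B + c₀))) hk hg hm hl1
  refine ⟨max 3 (max X₁ ⌈4 * s * n₀ / c₀⌉₊), le_max_left _ _, ?_⟩
  intro X hX j ν ζ hj0 hj hν
  have hX3 : 3 ≤ X := (le_max_left _ _).trans hX
  have hX1 : X₁ ≤ X := (le_max_left _ _).trans ((le_max_right _ _).trans hX)
  have hXn : 4 * s * n₀ / c₀ ≤ (X : ℝ) := by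
    refine (Nat.le_ceil _).trans ?_
    exact_mod_cast (le_max_right _ _).trans ((le_max_right _ _).trans hX)
  have hX0 : (0 : ℝ) < X := by
    have : (3 : ℝ) ≤ X := by exact_mod_cast hX3
    linarith
  have hlogX : 0 < Real.log X := Real.log_pos (by
    have : (3 : ℝ) ≤ X := by exact_mod_cast hX3
    linarith)
  have hφ : (0 : ℝ) < Nat.totient m := by exact_mod_cast Nat.totient_pos.2 hm
  obtain ⟨T, hT1, hT2⟩ := hX₁ X hX1 (j 0) ν hj0 (hj 0) hν
  -- the vectors for one prime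
  have hz : ∀ n ∈ T, ∃ S : Finset (Fin k → ℤ),
      (lam * X / (2 * m)) ^ k / (2 * ((B + c₀) * X)) ≤ (S.card : ℝ) ∧
      ∀ z ∈ S, (∀ i : Fin k, lam * j i.succ * X / 2 ≤ z i ∧
        (z i : ℝ) < lam * j i.succ * X / 2 + lam * X / 2 ∧ (m : ℤ) ∣ z i - ζ i) ∧
        (n : ℤ) ∣ qd g z := by
    intro n hn
    obtain ⟨g1, g2, g3, g4⟩ := hT2 n hn
    have : Fact n.Prime := ⟨g1⟩
    have hnpos : (0 : ℝ) < n := by exact_mod_cast g1.pos
    have a1 : c₀ / (4 * s) * X ≤ n := by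
      refine le_trans ?_ g3
      refine mul_le_mul_of_nonneg_right ?_ hX0.le
      rw [div_le_div_iff₀ (by positivity) (by positivity)]
      nlinarith
    have a2 : (n₀ : ℝ) ≤ n := by
      refine le_trans ?_ a1
      rw [div_le_iff₀ hc₀] at hXn
      rw [div_mul_eq_mul_div, le_div_iff₀ (by positivity)]
      linarith
    have a3 : lam * X / 2 ≤ n := by
      refine le_trans ?_ a1
      have : lam * X ≤ c₀ / (2 * s) * X := mul_le_mul_of_nonneg_right hlam2 hX0.le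
      have e : c₀ / (4 * s) * (X : ℝ) = c₀ / (2 * s) * X / 2 := by
        field_simp
        ring
      rw [e]
      linarith
    have a4 : (n : ℝ) ≤ (B + c₀) * X := by
      refine g4.le.trans ?_
      refine mul_le_mul_of_nonneg_right ?_ hX0.le
      rw [div_le_iff₀ (by positivity)]
      have b1 : lam * j 0 ≤ B := (le_abs_self _).trans (hj 0)
      have b2 : lam ≤ c₀ := by
        refine hlam2.trans ?_
        rw [div_le_iff₀ (by positivity)]
        nlinarith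
      nlinarith
    have a5 : lam / (2 * (B + c₀)) * n ≤ lam * X / 2 := by
      have : lam / (2 * (B + c₀)) * n ≤ lam / (2 * (B + c₀)) * ((B + c₀) * X) :=
        mul_le_mul_of_nonneg_left a4 hl1.le
      refine this.trans (le_of_eq ?_)
      have : B + c₀ ≠ 0 := by positivity
      field_simp
    obtain ⟨S, hS1, hS2⟩ := hn₀ n (by exact_mod_cast a2) ζ
      (fun i => lam * j i.succ * X / 2) (lam * X / 2) a5 a3
    refine ⟨S, le_trans ?_ hS1, fun z hz => ⟨fun i => (hS2 z hz).1 i, (hS2 z hz).2⟩⟩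
    have e1 : lam * (X : ℝ) / 2 / m = lam * X / (2 * m) := by
      rw [div_div]
    rw [e1]
    exact div_le_div_of_nonneg_left (by positivity) (by positivity) (by linarith)
  choose! Z hZ1 hZ2 using hz
  refine ⟨T.biUnion fun n => (Z n).image fun z => (n, z), ?_, ?_⟩
  · have hcard : (T.biUnion fun n => (Z n).image fun z => (n, z)).card =
        ∑ n ∈ T, (Z n).card := by
      rw [Finset.card_biUnion]
      · refine Finset.sum_congr rfl fun n _ => ?_
        exact Finset.card_image_of_injective _ fun z z' h => (Prod.mk.inj h).2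
      · intro n _ n' _ hne
        rw [Function.onFun, Finset.disjoint_left]
        intro q hq hq'
        obtain ⟨z, -, rfl⟩ := Finset.mem_image.1 hq
        obtain ⟨z', -, h'⟩ := Finset.mem_image.1 hq'
        exact hne (Prod.mk.inj h').1.symm
    rw [hcard]
    push_cast
    have h1 : (T.card : ℝ) * ((lam * X / (2 * m)) ^ k / (2 * ((B + c₀) * X))) ≤
        ∑ n ∈ T, ((Z n).card : ℝ) := by
      rw [← nsmul_eq_mul]
      exact Finset.card_nsmul_le_sum _ _ _ fun n hn => hZ1 n hn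
    refine le_trans ?_ h1
    have h2 : lam * X / (4 * s * (Nat.totient m : ℝ) * Real.log X) *
        ((lam * X / (2 * m)) ^ k / (2 * ((B + c₀) * X))) ≤
        (T.card : ℝ) * ((lam * X / (2 * m)) ^ k / (2 * ((B + c₀) * X))) :=
      mul_le_mul_of_nonneg_right hT1 (by positivity)
    refine le_trans (le_of_eq ?_) h2
    have hBc : B + c₀ ≠ 0 := by positivity
    rw [div_pow, mul_pow, mul_pow]
    field_simp
    ring
  · intro q hq
    obtain ⟨n, hn, hq⟩ := Finset.mem_biUnion.1 hq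
    obtain ⟨z, hz, rfl⟩ := Finset.mem_image.1 hq
    obtain ⟨g1, g2, g3, g4⟩ := hT2 n hn
    obtain ⟨f1, f2⟩ := hZ2 n hn z hz
    refine ⟨g1, g2, f2, fun i => (f1 i).2.2, ?_, ?_, fun i => ⟨?_, ?_⟩⟩
    · show lam * j 0 ≤ 2 * s * (n : ℝ) / X
      rw [le_div_iff₀ hX0]
      rw [div_mul_eq_mul_div, div_le_iff₀ (by positivity)] at g3
      linarith
    · show 2 * s * (n : ℝ) / X < lam * (j 0 + 1)
      rw [div_lt_iff₀ hX0]
      rw [div_mul_eq_mul_div, lt_div_iff₀ (by positivity)] at g4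
      linarith
    · show lam * j i.succ ≤ 2 * (z i : ℝ) / X
      rw [le_div_iff₀ hX0]
      linarith [(f1 i).1]
    · show 2 * (z i : ℝ) / X < lam * (j i.succ + 1)
      rw [div_lt_iff₀ hX0]
      linarith [(f1 i).2.1]

end Pool.FQ
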