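import Pool.Agent.Work.MP_9fb703_fq.Interface1

/-! # Intersections of a fixed quadric with almost all quadrics: block CHU -/

set_option autoImplicit false

namespace Pool.FQ

open Finset

theorem CHU_card (X : ℕ) : ((range (X + 1)).filter Nat.Prime).card = Nat.primeCounting X := by
  rw [Nat.primeCounting, Nat.primeCounting', Nat.count_eq_card_filter_range]

theorem p_CHU : Stmt_CHU := by
  have h := Chebyshev.eventually_primeCounting_le (ε := 1) one_pos
  rw [Filter.eventually_atTop] at h
  obtain ⟨x0, hx0⟩ := h
  set C : ℝ := max 1 (max (Real.log 4 + 1) (2 * Real.log (max x0 2))) with hC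
  refine ⟨C, le_max_left _ _, ?_⟩
  intro X hX
  have hX2 : (2 : ℝ) ≤ (X : ℝ) := by exact_mod_cast hX
  have hX0 : (0 : ℝ) < (X : ℝ) := by linarith
  have hlog : 0 < Real.log X := Real.log_pos (by linarith)
  rw [CHU_card]
  by_cases hx : x0 ≤ (X : ℝ)
  · have h1 := hx0 (X : ℝ) hx
    rw [Nat.floor_natCast] at h1
    refine h1.trans ?_
    have h2 : Real.log 4 + 1 ≤ C := (le_max_left _ _).trans (le_max_right _ _)
    exact div_le_div_of_nonneg_right (mul_le_mul_of_nonneg_right h2 hX0.le) hlog.le
  · rw [not_le] at hx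
    have h1 : ((Nat.primeCounting X : ℕ) : ℝ) ≤ 2 * X := by
      rw [← CHU_card]
      have h2 : ((range (X + 1)).filter Nat.Prime).card ≤ X + 1 :=
        (Finset.card_filter_le _ _).trans (Finset.card_range _).le
      have h3 : (((range (X + 1)).filter Nat.Prime).card : ℝ) ≤ X + 1 := by exact_mod_cast h2
      linarith
    have h2 : Real.log X ≤ Real.log (max x0 2) :=
      Real.log_le_log hX0 (hx.le.trans (le_max_left _ _))
    have h3 : 2 * Real.log (max x0 2) ≤ C := (le_max_right _ _).trans (le_max_right _ _)
    refine h1.trans ?_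
    rw [le_div_iff₀ hlog]
    calc 2 * (X : ℝ) * Real.log X = (2 * Real.log X) * X := by ring
      _ ≤ C * X := by
        refine mul_le_mul_of_nonneg_right ?_ hX0.le
        linarith

end Pool.FQ
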