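import Pool.Agent.Work.MP_9fb703_fq.Interface1

set_option autoImplicit false

namespace Pool.FQ

open Finset
open Pool.GE

/-- integers in a residue class in an interval -/
theorem RG2_cls {T : Finset ℤ} {d : ℕ} (hd : 1 ≤ d) {w0 : ℤ} {R : ℝ} (hR : 0 ≤ R)
    (h : ∀ w ∈ T, (d : ℤ) ∣ w - w0 ∧ |((w - w0 : ℤ) : ℝ)| ≤ R) :
    (T.card : ℝ) ≤ 2 * (R / d) + 1 := by
  have hd' : (0 : ℝ) < d := by exact_mod_cast hd
  have hdz : (d : ℤ) ≠ 0 := by exact_mod_cast (show d ≠ 0 by omega)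
  have key : T.card ≤ (Finset.Icc (-⌊R / d⌋) ⌊R / d⌋).card := by
    refine Finset.card_le_card_of_injOn (fun w => (w - w0) / (d : ℤ)) ?_ ?_
    · intro w hw
      obtain ⟨⟨e, he⟩, h2⟩ := h w hw
      have h3 : (w - w0) / (d : ℤ) = e := by rw [he, Int.mul_ediv_cancel_left _ hdz]
      rw [he] at h2
      push_cast at h2
      rw [abs_mul, abs_of_pos hd'] at h2
      have h4 : |(e : ℝ)| ≤ R / d := by rw [le_div_iff₀ hd']; linarith
      rw [abs_le] at h4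
      refine Finset.mem_coe.2 (Finset.mem_Icc.2 ?_)
      show -⌊R / d⌋ ≤ (w - w0) / (d : ℤ) ∧ (w - w0) / (d : ℤ) ≤ ⌊R / d⌋
      rw [h3]
      constructor
      · have h5 : -e ≤ ⌊R / d⌋ := Int.le_floor.2 (by push_cast; linarith)
        linarith
      · exact Int.le_floor.2 h4.2
    · intro w hw w' hw' heq
      obtain ⟨⟨e, he⟩, -⟩ := h w hw
      obtain ⟨⟨e', he'⟩, -⟩ := h w' hw'
      have heq' : (w - w0) / (d : ℤ) = (w' - w0) / (d : ℤ) := heq
      rw [he, he', Int.mul_ediv_cancel_left _ hdz, Int.mul_ediv_cancel_left _ hdz] at heq'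
      rw [← heq'] at he'
      linarith
  rw [Int.card_Icc] at key
  have hfl : (0 : ℤ) ≤ ⌊R / d⌋ := Int.floor_nonneg.2 (by positivity)
  have h5 : (((⌊R / d⌋ + 1 - -⌊R / d⌋).toNat : ℕ) : ℤ) = 2 * ⌊R / d⌋ + 1 := by omega
  have h6 : (((⌊R / d⌋ + 1 - -⌊R / d⌋).toNat : ℕ) : ℝ) = 2 * (⌊R / d⌋ : ℝ) + 1 := by
    exact_mod_cast h5
  have h7 : (T.card : ℝ) ≤ (((⌊R / d⌋ + 1 - -⌊R / d⌋).toNat : ℕ) : ℝ) := by exact_mod_cast key
  have h8 : (⌊R / d⌋ : ℝ) ≤ R / d := Int.floor_le _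
  linarith

/-- integers with a quadratic condition modulo a prime -/
theorem RG2_two {T : Finset ℤ} {n : ℕ} (hn : n.Prime) {A B w0 : ℤ} {R : ℝ} (hR : 0 ≤ R)
    (hA : ¬ (n : ℤ) ∣ A) (h0 : |(w0 : ℝ)| ≤ R)
    (h : ∀ w ∈ T, (n : ℤ) ∣ (w - w0) * (B + (w - w0) * A) ∧ |(w : ℝ)| ≤ R) :
    (T.card : ℝ) ≤ 2 * (2 * (2 * R / n) + 1) := by
  classical
  have hp : Prime (n : ℤ) := Nat.prime_iff_prime_int.1 hn
  have h1 : T ⊆ (T.filter fun w => (n : ℤ) ∣ w - w0) ∪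
      (T.filter fun w => (n : ℤ) ∣ B + (w - w0) * A) := by
    intro w hw
    rcases hp.dvd_or_dvd (h w hw).1 with h2 | h2
    · exact Finset.mem_union_left _ (Finset.mem_filter.2 ⟨hw, h2⟩)
    · exact Finset.mem_union_right _ (Finset.mem_filter.2 ⟨hw, h2⟩)
  have habs : ∀ w w' : ℤ, |(w : ℝ)| ≤ R → |(w' : ℝ)| ≤ R → |((w - w' : ℤ) : ℝ)| ≤ 2 * R := by
    intro w w' hw hw'
    rw [abs_le] at hw hw' ⊢
    push_cast
    constructor
    · linarith [hw.1, hw'.2]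
    · linarith [hw.2, hw'.1]
  have h2 : ((T.filter fun w => (n : ℤ) ∣ w - w0).card : ℝ) ≤ 2 * (2 * R / n) + 1 := by
    refine RG2_cls hn.one_lt.le (w0 := w0) (by linarith) fun w hw => ?_
    obtain ⟨hw1, hw2⟩ := Finset.mem_filter.1 hw
    exact ⟨hw2, habs w w0 (h w hw1).2 h0⟩
  have h3 : ((T.filter fun w => (n : ℤ) ∣ B + (w - w0) * A).card : ℝ) ≤ 2 * (2 * R / n) + 1 := by
    rcases (T.filter fun w => (n : ℤ) ∣ B + (w - w0) * A).eq_empty_or_nonempty with h4 | ⟨w1, hw1⟩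
    · rw [h4]
      simp only [Finset.card_empty, Nat.cast_zero]
      positivity
    · obtain ⟨hw1, hw1'⟩ := Finset.mem_filter.1 hw1
      refine RG2_cls hn.one_lt.le (w0 := w1) (by linarith) fun w hw => ?_
      obtain ⟨hw2, hw2'⟩ := Finset.mem_filter.1 hw
      refine ⟨?_, habs w w1 (h w hw2).2 (h w1 hw1).2⟩
      have h5 : (n : ℤ) ∣ (w - w1) * A := by
        have := dvd_sub hw2' hw1'
        have h6 : B + (w - w0) * A - (B + (w1 - w0) * A) = (w - w1) * A := by ring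
        rwa [h6] at this
      rcases hp.dvd_or_dvd h5 with h6 | h6
      · exact h6
      · exact absurd h6 hA
  have h4 : (T.card : ℝ) ≤ ((T.filter fun w => (n : ℤ) ∣ w - w0).card : ℝ) +
      ((T.filter fun w => (n : ℤ) ∣ B + (w - w0) * A).card : ℝ) := by
    have := le_trans (Finset.card_le_card h1) (Finset.card_union_le _ _)
    exact_mod_cast this
  linarith

theorem RG2_qd {k : ℕ} (g : Fin k → Fin k → ℤ) (j₀ : Fin k) (z z' : Fin k → ℤ)
    (h : ∀ j, j ≠ j₀ → z j = z' j) :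
    qd g z = qd g z' + (z j₀ - z' j₀) *
      ((∑ j, g j₀ j * z' j + ∑ j, g j j₀ * z' j) + (z j₀ - z' j₀) * g j₀ j₀) := by
  classical
  obtain ⟨δ, hδ⟩ : ∃ δ, δ = z j₀ - z' j₀ := ⟨_, rfl⟩
  have hz : ∀ j, z j = z' j + if j = j₀ then δ else 0 := by
    intro j
    split_ifs with hj
    · rw [hj, hδ]; ring
    · rw [h j hj, add_zero]
  rw [← hδ]
  have h1 : ∀ i j : Fin k, ((g i j : ℤ) : ℤ) * (z i * z j) = g i j * (z' i * z' j) +
      (if j = j₀ then g i j * z' i * δ else 0) + (if i = j₀ then g i j * z' j * δ else 0) +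
      (if i = j₀ then (if j = j₀ then g i j * (δ * δ) else 0) else 0) := by
    intro i j
    rw [hz i, hz j]
    split_ifs <;> ring
  have h2 : qd g z' = ∑ i, ∑ j, g i j * (z' i * z' j) := rfl
  have h3 : qd g z = ∑ i, ∑ j, ((g i j : ℤ) : ℤ) * (z i * z j) := rfl
  rw [h3, h2]
  simp only [h1, Finset.sum_add_distrib, Finset.sum_ite_eq', Finset.mem_univ, if_true]
  have h4 : ∑ i : Fin k, ∑ j : Fin k, (if i = j₀ then g i j * z' j * δ else 0) =
      ∑ j, g j₀ j * z' j * δ := by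
    rw [Finset.sum_comm]
    simp only [Finset.sum_ite_eq', Finset.mem_univ, if_true]
  have h5 : ∑ i : Fin k, ∑ j : Fin k, (if i = j₀ then (if j = j₀ then g i j * (δ * δ) else 0)
      else 0) = g j₀ j₀ * (δ * δ) := by
    rw [Finset.sum_comm]
    simp only [Finset.sum_ite_eq', Finset.mem_univ, if_true]
  rw [h4, h5, ← Finset.sum_mul, ← Finset.sum_mul]
  ring

theorem RG2_sn {k X : ℕ} {y : Fin (k + 2) → ℤ} (h : ∀ v, y v ∈ Finset.Icc (-(X : ℤ)) X) :
    sn y ≤ X := by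
  refine Finset.sup_le fun v _ => ?_
  have h1 := Finset.mem_Icc.1 (h v)
  omega

theorem p_RG2 (hPTI : Stmt_PTI) (hTUB : Stmt_TUB) : Stmt_RG2 := by
  classical
  intro k c κ s c₁ hk hok hs hc₁
  obtain ⟨C0, hC0, hT⟩ := hTUB k κ
  obtain ⟨j₀, hj₀⟩ := hok.last
  obtain ⟨N2, hN2⟩ : ∃ N2 : ℕ, 2 * (2 * (2 * (C0 * c₁)) + 1) ≤ (N2 : ℝ) :=
    ⟨_, Nat.le_ceil _⟩
  have hs1 : (1 : ℝ) ≤ s := by exact_mod_cast hs
  have hc1 : (1 : ℝ) ≤ c₁ := by exact_mod_cast hc₁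
  obtain ⟨C2, hC2⟩ : ∃ C2 : ℝ, C2 = 4 * (s * C0 * c₁) + 1 := ⟨_, rfl⟩
  have hC2p : 1 ≤ C2 := by
    have : 0 ≤ s * C0 * c₁ := by positivity
    linarith
  have hN2p : (1 : ℝ) ≤ N2 := by
    have : 0 ≤ C0 * c₁ := by positivity
    linarith
  refine ⟨N2 * C2 ^ (k - 1) * C0, c₁ * ((κ.g j₀ j₀).natAbs + 1), ?_, ?_⟩
  · have h1 : (1 : ℝ) ≤ C2 ^ (k - 1) := one_le_pow₀ hC2p
    have h2 : (1 : ℝ) ≤ N2 * C2 ^ (k - 1) := by nlinarith
    nlinarith
  intro X g hX hg Z hZ x hx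
  have hX1 : 1 ≤ X := le_trans (Nat.mul_pos hc₁ (Nat.succ_pos _)) hX
  have hX1' : (1 : ℝ) ≤ X := by exact_mod_cast hX1
  have hg1' : (1 : ℝ) ≤ g := by exact_mod_cast hg
  have hZ0 : 0 < Z := lt_of_lt_of_le (by positivity) hZ
  obtain ⟨Q, hQ⟩ : ∃ Q : ℝ, Q = Z / (X * g) := ⟨_, rfl⟩
  have hQ1 : 1 ≤ Q := by
    rw [hQ, le_div_iff₀ (by positivity)]
    linarith
  -- facts on members of the family
  have hmem : ∀ y ∈ Xf c κ s c₁ X, (∀ v, y v ∈ Finset.Icc (-(X : ℤ)) X) ∧ FF c y = 0 ∧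
      ∃ n : ℕ, n.Prime ∧ X ≤ c₁ * n ∧ pt κ.I y 0 = s * n := by
    intro y hy
    have h1 := (Finset.mem_filter.1 hy).1
    have h2 := Finset.mem_filter.1 h1
    exact ⟨fun v => Fintype.mem_piFinset.1 h2.1 v, h2.2.1, h2.2.2⟩
  have htb : ∀ y ∈ Xf c κ s c₁ X, ∀ i, |((pt κ.I y i : ℤ) : ℝ)| ≤ C0 * X := by
    intro y hy i
    have h1 : ((sn y : ℕ) : ℝ) ≤ X := by exact_mod_cast RG2_sn (hmem y hy).1
    exact le_trans ((hT y y).1 i) (mul_le_mul_of_nonneg_left h1 (by linarith))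
  have heq : ∀ y ∈ Xf c κ s c₁ X, (κ.D : ℤ) * (pt κ.I y 0 * pt κ.I y 1) +
      TT κ (pt κ.I y 0) (zc (pt κ.I y)) = 0 := by
    intro y hy
    have h1 := (hPTI k c κ hok ℤ y).2.2
    simp only [Int.cast_id] at h1
    rw [← h1]
    exact (hmem y hy).2.1
  have hinj : ∀ y ∈ Xf c κ s c₁ X, ∀ y' ∈ Xf c κ s c₁ X, pt κ.I y 0 = pt κ.I y' 0 →
      (∀ j, zc (pt κ.I y) j = zc (pt κ.I y') j) → y = y' := by
    intro y hy y' hy' h0 hz
    have hz' : zc (pt κ.I y) = zc (pt κ.I y') := funext hz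
    have h1 := heq y hy
    have h2 := heq y' hy'
    obtain ⟨n, hn, -, hyn⟩ := (hmem y' hy').2.2
    have h3 : (κ.D : ℤ) * pt κ.I y' 0 ≠ 0 := by
      rw [hyn]
      have := hok.Dpos
      have hn0 := hn.pos
      positivity
    rw [h0, hz'] at h1
    have h4 : ((κ.D : ℤ) * pt κ.I y' 0) * (pt κ.I y 1 - pt κ.I y' 1) = 0 := by
      linear_combination h1 - h2
    have h5 : pt κ.I y 1 = pt κ.I y' 1 := by
      rcases mul_eq_zero.1 h4 with h | h
      · exact absurd h h3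
      · linarith
    have h6 : pt κ.I y = pt κ.I y' := by
      funext i
      refine Fin.cases h0 (fun i => ?_) i
      refine Fin.cases h5 (fun i => ?_) i
      exact hz i
    rw [← (hPTI k c κ hok ℤ y).1, ← (hPTI k c κ hok ℤ y').1, h6]
  obtain ⟨nx, hnx, hXnx, hx0⟩ := (hmem x hx).2.2
  have hnx0 : (1 : ℝ) ≤ nx := by exact_mod_cast hnx.one_lt.le
  obtain ⟨Y, hY⟩ : ∃ Y : Finset (Fin (k + 2) → ℤ), Y = (Xf c κ s c₁ X).filter
    fun y => ¬ Ex κ c₁ X x y ∧ Dv g x y ∧ (De x y : ℝ) ≤ Z := ⟨_, rfl⟩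
  have hYm : ∀ y ∈ Y, y ∈ Xf c κ s c₁ X ∧ ¬ Ex κ c₁ X x y ∧ Dv g x y ∧ (De x y : ℝ) ≤ Z := by
    intro y hy
    rw [hY] at hy
    exact Finset.mem_filter.1 hy
  have hcop : ∀ y ∈ Y, IsCoprime (g : ℤ) (nx : ℤ) := by
    intro y hy
    obtain ⟨h1, h2, h3, h4⟩ := hYm y hy
    have h5 : ¬ nx ∣ g := by
      intro h6
      refine h2 ⟨nx, hnx, hXnx, ?_, ?_⟩
      · rw [hx0]; exact Dvd.intro_left _ rfl
      · intro v w
        exact dvd_trans (by exact_mod_cast h6) (h3 v w)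
    exact Nat.isCoprime_iff_coprime.2 ((hnx.coprime_iff_not_dvd.2 h5).symm)
  -- step 3
  have step3 : ∀ y' ∈ Y, (((Y.filter fun y => pt κ.I y 0 = pt κ.I y' 0 ∧
      ∀ j, j ≠ j₀ → zc (pt κ.I y) j = zc (pt κ.I y') j).card : ℕ) : ℝ) ≤ N2 := by
    intro y' hy'
    obtain ⟨n, hn, hXn, hyn⟩ := (hmem y' (hYm y' hy').1).2.2
    have hn0 : (0 : ℝ) < n := by exact_mod_cast hn.pos
    have hXn' : (X : ℝ) ≤ c₁ * n := by exact_mod_cast hXn
    have hA : ¬ (n : ℤ) ∣ κ.g j₀ j₀ := by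
      intro h1
      have h2 : n ∣ (κ.g j₀ j₀).natAbs := Int.natCast_dvd.1 h1
      have h3 := Nat.le_of_dvd (Int.natAbs_pos.2 hj₀) h2
      have h4 : c₁ * ((κ.g j₀ j₀).natAbs + 1) ≤ c₁ * n := le_trans hX hXn
      have h5 := Nat.le_of_mul_le_mul_left h4 hc₁
      omega
    have hdv : ∀ y ∈ Xf c κ s c₁ X, pt κ.I y 0 = pt κ.I y' 0 →
        (n : ℤ) ∣ qd κ.g (zc (pt κ.I y)) := by
      intro y hy h0
      have h1 := heq y hy
      rw [h0, hyn] at h1
      have h2 : qd κ.g (zc (pt κ.I y)) = (n : ℤ) * (-(s * (κ.D * pt κ.I y 1)) -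
          s * (∑ j, (κ.ll j : ℤ) * zc (pt κ.I y) j) - κ.c0 * (s * (s * n))) := by
        have h3 : TT κ ((s : ℤ) * n) (zc (pt κ.I y)) = qd κ.g (zc (pt κ.I y)) +
          (s : ℤ) * n * (∑ j, (κ.ll j : ℤ) * zc (pt κ.I y) j) + (κ.c0 : ℤ) * ((s : ℤ) * n) ^ 2 := rfl
        rw [h3] at h1
        linear_combination h1
      rw [h2]
      exact dvd_mul_right _ _
    have hcard : (Y.filter fun y => pt κ.I y 0 = pt κ.I y' 0 ∧
        ∀ j, j ≠ j₀ → zc (pt κ.I y) j = zc (pt κ.I y') j).card =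
        ((Y.filter fun y => pt κ.I y 0 = pt κ.I y' 0 ∧
        ∀ j, j ≠ j₀ → zc (pt κ.I y) j = zc (pt κ.I y') j).image fun y => zc (pt κ.I y) j₀).card := by
      rw [Finset.card_image_of_injOn]
      intro y1 h1 y2 h2 h3
      obtain ⟨h4, h5, h6⟩ := Finset.mem_filter.1 (Finset.mem_coe.1 h1)
      obtain ⟨h7, h8, h9⟩ := Finset.mem_filter.1 (Finset.mem_coe.1 h2)
      refine hinj y1 (hYm y1 h4).1 y2 (hYm y2 h7).1 (h5.trans h8.symm) fun j => ?_
      by_cases hj : j = j₀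
      · rw [hj]; exact h3
      · rw [h6 j hj, h9 j hj]
    rw [hcard]
    have hR : 0 ≤ C0 * X := by positivity
    refine le_trans (RG2_two hn (A := κ.g j₀ j₀)
      (B := ∑ j, κ.g j₀ j * zc (pt κ.I y') j + ∑ j, κ.g j j₀ * zc (pt κ.I y') j)
      (w0 := zc (pt κ.I y') j₀) (R := C0 * X) hR hA
      (htb y' (hYm y' hy').1 _) ?_) ?_
    · intro w hw
      obtain ⟨y, hy, rfl⟩ := Finset.mem_image.1 hw
      obtain ⟨h4, h5, h6⟩ := Finset.mem_filter.1 hy
      refine ⟨?_, htb y (hYm y h4).1 _⟩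
      have h7 := hdv y (hYm y h4).1 h5
      have h8 := hdv y' (hYm y' hy').1 rfl
      rw [RG2_qd κ.g j₀ _ _ h6] at h7
      exact (dvd_add_right h8).1 h7
    · refine le_trans ?_ hN2
      have h9 : C0 * X / n ≤ C0 * c₁ := by
        rw [div_le_iff₀ hn0]
        calc C0 * X ≤ C0 * (c₁ * n) := mul_le_mul_of_nonneg_left hXn' (by linarith)
          _ = C0 * c₁ * n := by ring
      have h10 : 2 * (C0 * X) / n = 2 * (C0 * X / n) := by ring
      rw [h10]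
      linarith
  -- step 2
  have step2 : ∀ y' ∈ Y, (((Y.filter fun y => pt κ.I y 0 = pt κ.I y' 0).card : ℕ) : ℝ) ≤
      N2 * (C2 * Q) ^ (k - 1) := by
    intro y' hy'
    obtain ⟨W, hW⟩ : ∃ W, W = Y.filter fun y => pt κ.I y 0 = pt κ.I y' 0 := ⟨_, rfl⟩
    rw [← hW]
    have hWm : ∀ y ∈ W, y ∈ Y ∧ pt κ.I y 0 = pt κ.I y' 0 := by
      intro y hy
      rw [hW] at hy
      exact Finset.mem_filter.1 hy
    let f : (Fin (k + 2) → ℤ) → ({j : Fin k // j ≠ j₀} → ℤ) := fun y j => zc (pt κ.I y) j.1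
    have h1 : W.card ≤ N2 * (W.image f).card := by
      refine Finset.card_le_mul_card_image W N2 fun b hb => ?_
      obtain ⟨y1, hy1, rfl⟩ := Finset.mem_image.1 hb
      obtain ⟨hy1Y, hy10⟩ := hWm y1 hy1
      have h2 := step3 y1 hy1Y
      have h3 : (W.filter fun y => f y = f y1).card ≤ (Y.filter fun y => pt κ.I y 0 = pt κ.I y1 0 ∧
          ∀ j, j ≠ j₀ → zc (pt κ.I y) j = zc (pt κ.I y1) j).card := by
        refine Finset.card_le_card fun y hy => ?_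
        obtain ⟨hy2, hy3⟩ := Finset.mem_filter.1 hy
        obtain ⟨hy4, hy5⟩ := hWm y hy2
        refine Finset.mem_filter.2 ⟨hy4, hy5.trans hy10.symm, fun j hj => ?_⟩
        exact congrFun hy3 ⟨j, hj⟩
      have h4 : (((W.filter fun y => f y = f y1).card : ℕ) : ℝ) ≤ N2 :=
        le_trans (by exact_mod_cast h3) h2
      exact_mod_cast h4
    have h2 : (W.image f) ⊆ Fintype.piFinset fun j : {j : Fin k // j ≠ j₀} =>
        W.image fun y => zc (pt κ.I y) j.1 := by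
      intro b hb
      obtain ⟨y1, hy1, rfl⟩ := Finset.mem_image.1 hb
      exact Fintype.mem_piFinset.2 fun j => Finset.mem_image_of_mem _ hy1
    have h3 : ∀ j : Fin k, ((((W.image fun y => zc (pt κ.I y) j).card : ℕ) : ℝ)) ≤ C2 * Q := by
      intro j
      obtain ⟨T, hTd⟩ : ∃ T, T = W.image fun y => zc (pt κ.I y) j := ⟨_, rfl⟩
      rw [← hTd]
      have hsi : Function.Injective fun w : ℤ => (s : ℤ) * w := by
        intro a b hab
        exact mul_left_cancel₀ (by exact_mod_cast (show s ≠ 0 by omega)) hab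
      rw [← Finset.card_image_of_injective T hsi]
      have hR : 0 ≤ s * (2 * (C0 * Z) * c₁ / X) := by positivity
      have h4 := RG2_cls (T := T.image fun w : ℤ => (s : ℤ) * w) hg
        (w0 := s * zc (pt κ.I y') j) hR ?_
      · refine le_trans h4 ?_
        have h5 : s * (2 * (C0 * Z) * c₁ / X) / g = 2 * (s * C0 * c₁) * Q := by
          rw [hQ]; field_simp
        rw [h5, hC2]
        have h6 : 0 ≤ s * C0 * c₁ := by positivity
        nlinarith
      · intro w hw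
        obtain ⟨w1, hw1, rfl⟩ := Finset.mem_image.1 hw
        rw [hTd] at hw1
        obtain ⟨y, hy, rfl⟩ := Finset.mem_image.1 hw1
        obtain ⟨hyY, hy0⟩ := hWm y hy
        obtain ⟨-, -, a3, a4⟩ := hYm y hyY
        obtain ⟨-, -, b3, b4⟩ := hYm y' hy'
        have e1 : om (pt κ.I x) (pt κ.I y) 0 j.succ.succ =
            pt κ.I x 0 * zc (pt κ.I y) j - pt κ.I x j.succ.succ * pt κ.I y 0 := rfl
        have e2 : om (pt κ.I x) (pt κ.I y') 0 j.succ.succ =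
            pt κ.I x 0 * zc (pt κ.I y') j - pt κ.I x j.succ.succ * pt κ.I y' 0 := rfl
        have e3 : om (pt κ.I x) (pt κ.I y) 0 j.succ.succ -
            om (pt κ.I x) (pt κ.I y') 0 j.succ.succ =
            (nx : ℤ) * (s * zc (pt κ.I y) j - s * zc (pt κ.I y') j) := by
          rw [e1, e2, hy0, hx0]; ring
        constructor
        · have h5 := dvd_sub ((hT x y).2.2 g a3 0 j.succ.succ) ((hT x y').2.2 g b3 0 j.succ.succ)
          rw [e3] at h5
          exact (hcop y hyY).dvd_of_dvd_mul_left h5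
        · have h5 := (hT x y).2.1 0 j.succ.succ
          have h6 := (hT x y').2.1 0 j.succ.succ
          have h7 : |((om (pt κ.I x) (pt κ.I y) 0 j.succ.succ : ℤ) : ℝ) -
              ((om (pt κ.I x) (pt κ.I y') 0 j.succ.succ : ℤ) : ℝ)| ≤ 2 * (C0 * Z) := by
            have h8 : C0 * (De x y : ℝ) ≤ C0 * Z := mul_le_mul_of_nonneg_left a4 (by linarith)
            have h9 : C0 * (De x y' : ℝ) ≤ C0 * Z := mul_le_mul_of_nonneg_left b4 (by linarith)
            rw [abs_le] at h5 h6 ⊢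
            constructor
            · linarith [h5.1, h6.2]
            · linarith [h5.2, h6.1]
          have e4 : ((om (pt κ.I x) (pt κ.I y) 0 j.succ.succ : ℤ) : ℝ) -
              ((om (pt κ.I x) (pt κ.I y') 0 j.succ.succ : ℤ) : ℝ) =
              (nx : ℝ) * ((s * zc (pt κ.I y) j - s * zc (pt κ.I y') j : ℤ) : ℝ) := by
            have := congrArg (Int.cast : ℤ → ℝ) e3
            push_cast at this ⊢
            exact this
          rw [e4, abs_mul, abs_of_pos (by linarith : (0 : ℝ) < nx)] at h7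
          obtain ⟨A, hA⟩ : ∃ A : ℝ, A = |((s * zc (pt κ.I y) j - s * zc (pt κ.I y') j : ℤ) : ℝ)| :=
            ⟨_, rfl⟩
          have hA' : |(((fun w : ℤ => (s : ℤ) * w) (zc (pt κ.I y) j) - s * zc (pt κ.I y') j : ℤ) : ℝ)| =
            A := hA.symm
          rw [hA']
          rw [← hA] at h7
          have hA0 : 0 ≤ A := by rw [hA]; exact abs_nonneg _
          have hXc : (X : ℝ) ≤ c₁ * nx := by exact_mod_cast hXnx
          have h8 : A * X ≤ 2 * (C0 * Z) * c₁ := by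
            calc A * X ≤ A * (c₁ * nx) := mul_le_mul_of_nonneg_left hXc hA0
              _ = (nx * A) * c₁ := by ring
              _ ≤ 2 * (C0 * Z) * c₁ := mul_le_mul_of_nonneg_right h7 (by linarith)
          have h9 : A ≤ 2 * (C0 * Z) * c₁ / X := by
            rw [le_div_iff₀ (by linarith)]
            exact h8
          have h10 : 0 ≤ 2 * (C0 * Z) * c₁ / X := by positivity
          nlinarith
    have h4 : (((W.image f).card : ℕ) : ℝ) ≤ (C2 * Q) ^ (k - 1) := by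
      have h5 : (W.image f).card ≤ ∏ j : {j : Fin k // j ≠ j₀},
          (W.image fun y => zc (pt κ.I y) j.1).card := by
        rw [← Fintype.card_piFinset]
        exact Finset.card_le_card h2
      calc (((W.image f).card : ℕ) : ℝ) ≤ ((∏ j : {j : Fin k // j ≠ j₀},
            (W.image fun y => zc (pt κ.I y) j.1).card : ℕ) : ℝ) := by exact_mod_cast h5
        _ = ∏ j : {j : Fin k // j ≠ j₀}, (((W.image fun y => zc (pt κ.I y) j.1).card : ℕ) : ℝ) := by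
            push_cast; rfl
        _ ≤ ∏ _j : {j : Fin k // j ≠ j₀}, (C2 * Q) :=
            Finset.prod_le_prod (fun _ _ => by positivity) fun j _ => h3 j.1
        _ = (C2 * Q) ^ (k - 1) := by
            rw [Finset.prod_const, Finset.card_univ]
            congr 1
            rw [Fintype.card_subtype_compl]
            simp
    calc ((W.card : ℕ) : ℝ) ≤ ((N2 * (W.image f).card : ℕ) : ℝ) := by exact_mod_cast h1
      _ = N2 * (((W.image f).card : ℕ) : ℝ) := by push_cast; rfl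
      _ ≤ N2 * (C2 * Q) ^ (k - 1) := mul_le_mul_of_nonneg_left h4 (by linarith)
  -- step 1
  have hQp : 0 ≤ N2 * (C2 * Q) ^ (k - 1) := by positivity
  have h1 : Y.card ≤ ⌊N2 * (C2 * Q) ^ (k - 1)⌋₊ * (Y.image fun y => pt κ.I y 0).card := by
    refine Finset.card_le_mul_card_image Y _ fun b hb => ?_
    obtain ⟨y1, hy1, rfl⟩ := Finset.mem_image.1 hb
    exact Nat.le_floor (step2 y1 hy1)
  have h2 : (((Y.image fun y => pt κ.I y 0).card : ℕ) : ℝ) ≤ C0 * X := by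
    have h3 : (Y.image fun y => pt κ.I y 0) ⊆ Finset.Icc 1 ⌊C0 * X⌋ := by
      intro b hb
      obtain ⟨y1, hy1, rfl⟩ := Finset.mem_image.1 hb
      obtain ⟨n, hn, -, hyn⟩ := (hmem y1 (hYm y1 hy1).1).2.2
      rw [Finset.mem_Icc]
      constructor
      · rw [hyn]
        have := hn.pos
        have h4 : 0 < (s : ℤ) * n := by positivity
        linarith
      · exact Int.le_floor.2 (le_trans (le_abs_self _) (htb y1 (hYm y1 hy1).1 0))
    have h4 := Finset.card_le_card h3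
    rw [Int.card_Icc, add_sub_cancel_right] at h4
    have h5 : (0 : ℤ) ≤ ⌊C0 * X⌋ := Int.floor_nonneg.2 (by positivity)
    have h6 : ((⌊C0 * X⌋.toNat : ℕ) : ℝ) = (⌊C0 * X⌋ : ℝ) := by
      have : ((⌊C0 * X⌋.toNat : ℕ) : ℤ) = ⌊C0 * X⌋ := Int.toNat_of_nonneg h5
      exact_mod_cast this
    calc (((Y.image fun y => pt κ.I y 0).card : ℕ) : ℝ) ≤ ((⌊C0 * X⌋.toNat : ℕ) : ℝ) := by
          exact_mod_cast h4
      _ = (⌊C0 * X⌋ : ℝ) := h6
      _ ≤ C0 * X := Int.floor_le _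
  rw [← hY]
  calc ((Y.card : ℕ) : ℝ) ≤ ((⌊N2 * (C2 * Q) ^ (k - 1)⌋₊ *
        (Y.image fun y => pt κ.I y 0).card : ℕ) : ℝ) := by exact_mod_cast h1
    _ = (⌊N2 * (C2 * Q) ^ (k - 1)⌋₊ : ℝ) * (((Y.image fun y => pt κ.I y 0).card : ℕ) : ℝ) := by
        push_cast; rfl
    _ ≤ (N2 * (C2 * Q) ^ (k - 1)) * (C0 * X) := by
        refine mul_le_mul (Nat.floor_le hQp) h2 (by positivity) hQp
    _ = N2 * C2 ^ (k - 1) * C0 * X * (Z / (X * g)) ^ (k - 1) := by
        rw [← hQ, mul_pow]; ring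

end Pool.FQ
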