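import Pool.Agent.Work.MP_9fb703_fq.B_BXL
import Pool.Agent.Work.MP_9fb703_fq.B_RG2

set_option autoImplicit false

namespace Pool.FQ

open Finset
open Pool.GE

theorem p_CN0 (hPTI : Stmt_PTI) (hTUB : Stmt_TUB) (hCHU : Stmt_CHU) (hBXU : Stmt_BXU) :
    Stmt_CN0 := by
  classical
  intro k c κ s c₁ hk hok hs hc₁
  obtain ⟨C0, hC0, hT⟩ := hTUB k κ
  obtain ⟨C1, hC1, hch⟩ := hCHU
  have hc1 : (1 : ℝ) ≤ c₁ := by exact_mod_cast hc₁
  have hs1 : (1 : ℝ) ≤ s := by exact_mod_cast hs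
  obtain ⟨C2, hC2, hbx⟩ := hBXU k (C0 * c₁) (by nlinarith)
  obtain ⟨K, hK⟩ : ∃ K : ℕ, C0 ≤ (K : ℝ) := exists_nat_ge _
  have hK1 : (1 : ℝ) ≤ K := le_trans hC0 hK
  have hK1' : 1 ≤ K := by exact_mod_cast hK1
  obtain ⟨n₁, hn₁⟩ := BXL_log k 1 one_pos
  obtain ⟨M, hM⟩ : ∃ M : ℝ, M = C2 * (C0 ^ k * c₁ + (K : ℝ) ^ (k - 1)) := ⟨_, rfl⟩
  have hM1 : 1 ≤ M := by
    have h1 : (1 : ℝ) ≤ (K : ℝ) ^ (k - 1) := one_le_pow₀ hK1
    have h2 : 0 ≤ C0 ^ k * c₁ := by positivity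
    rw [hM]
    nlinarith
  refine ⟨M * (C1 * K), 3 + n₁ + c₁ * ((dg κ.g).natAbs + 1), ?_, by omega, ?_⟩
  · have h1 : (1 : ℝ) ≤ C1 * K := by nlinarith
    nlinarith
  intro X hX
  have hX3 : 3 ≤ X := by omega
  have hXn : n₁ ≤ X := by omega
  have hXc : c₁ * ((dg κ.g).natAbs + 1) ≤ X := by omega
  have hX3' : (3 : ℝ) ≤ X := by exact_mod_cast hX3
  have hlogX : 0 < Real.log X := Real.log_pos (by linarith)
  -- facts on members of the family
  have hmem : ∀ y ∈ Xg c κ s c₁ X, (∀ v, y v ∈ Finset.Icc (-(X : ℤ)) X) ∧ FF c y = 0 ∧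
      ∃ n : ℕ, n.Prime ∧ X ≤ c₁ * n ∧ pt κ.I y 0 = s * n := by
    intro y hy
    have h2 := Finset.mem_filter.1 hy
    exact ⟨fun v => Fintype.mem_piFinset.1 h2.1 v, h2.2.1, h2.2.2⟩
  have htb : ∀ y ∈ Xg c κ s c₁ X, ∀ i, |((pt κ.I y i : ℤ) : ℝ)| ≤ C0 * X := by
    intro y hy i
    have h1 : ((sn y : ℕ) : ℝ) ≤ X := by exact_mod_cast RG2_sn (hmem y hy).1
    exact le_trans ((hT y y).1 i) (mul_le_mul_of_nonneg_left h1 (by linarith))
  have heq : ∀ y ∈ Xg c κ s c₁ X, (κ.D : ℤ) * (pt κ.I y 0 * pt κ.I y 1) +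
      TT κ (pt κ.I y 0) (zc (pt κ.I y)) = 0 := by
    intro y hy
    have h1 := (hPTI k c κ hok ℤ y).2.2
    simp only [Int.cast_id] at h1
    rw [← h1]
    exact (hmem y hy).2.1
  have hinj : ∀ y ∈ Xg c κ s c₁ X, ∀ y' ∈ Xg c κ s c₁ X, pt κ.I y 0 = pt κ.I y' 0 →
      zc (pt κ.I y) = zc (pt κ.I y') → y = y' := by
    intro y hy y' hy' h0 hz'
    have h1 := heq y hy
    have h2 := heq y' hy'
    obtain ⟨n, hn, -, hyn⟩ := (hmem y' hy').2.2
    have h3 : (κ.D : ℤ) * pt κ.I y' 0 ≠ 0 := by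
      rw [hyn]
      have := hok.Dpos
      have hn0 := hn.pos
      positivity
    rw [h0, hz'] at h1
    have h4 : ((κ.D : ℤ) * pt κ.I y' 0) * (pt κ.I y 1 - pt κ.I y' 1) = 0 := by
      linear_combination h1 - h2
    have h5 : pt κ.I y 1 = pt κ.I y' 1 := by
      rcases mul_eq_zero.1 h4 with h | h
      · exact absurd h h3
      · linarith
    have h6 : pt κ.I y = pt κ.I y' := by
      funext i
      refine Fin.cases h0 (fun i => ?_) i
      refine Fin.cases h5 (fun i => ?_) i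
      exact congrFun hz' i
    rw [← (hPTI k c κ hok ℤ y).1, ← (hPTI k c κ hok ℤ y').1, h6]
  have hnK : ∀ y ∈ Xg c κ s c₁ X, ∀ n : ℕ, pt κ.I y 0 = s * n → n ≤ K * X := by
    intro y hy n hyn
    have h1 := htb y hy 0
    rw [hyn] at h1
    push_cast at h1
    rw [abs_of_nonneg (by positivity)] at h1
    have h2 : (n : ℝ) ≤ K * X := by
      calc (n : ℝ) ≤ s * n := by nlinarith [show (0 : ℝ) ≤ n by positivity]
        _ ≤ C0 * X := h1
        _ ≤ K * X := mul_le_mul_of_nonneg_right hK (by linarith)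
    exact_mod_cast h2
  -- the fibres
  have hfib : ∀ y' ∈ Xg c κ s c₁ X,
      ((((Xg c κ s c₁ X).filter fun y => pt κ.I y 0 = pt κ.I y' 0).card : ℕ) : ℝ) ≤
      M * (X : ℝ) ^ (k - 1) := by
    intro y' hy'
    obtain ⟨n, hn, hXn', hyn⟩ := (hmem y' hy').2.2
    have : Fact n.Prime := ⟨hn⟩
    have hn1 : (1 : ℝ) ≤ n := by exact_mod_cast hn.one_lt.le
    have hXcn : (X : ℝ) ≤ c₁ * n := by exact_mod_cast hXn'
    have hnd : ¬ (n : ℤ) ∣ dg κ.g := by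
      intro h1
      have h2 : n ∣ (dg κ.g).natAbs := Int.natCast_dvd.1 h1
      have h3 := Nat.le_of_dvd (Int.natAbs_pos.2 hok.nons) h2
      have h4 : c₁ * ((dg κ.g).natAbs + 1) ≤ c₁ * n := le_trans hXc hXn'
      have h5 := Nat.le_of_mul_le_mul_left h4 hc₁
      omega
    obtain ⟨W, hW⟩ : ∃ W, W = (Xg c κ s c₁ X).filter fun y => pt κ.I y 0 = pt κ.I y' 0 := ⟨_, rfl⟩
    have hWm : ∀ y ∈ W, y ∈ Xg c κ s c₁ X ∧ pt κ.I y 0 = pt κ.I y' 0 := by
      intro y hy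
      rw [hW] at hy
      exact Finset.mem_filter.1 hy
    rw [← hW]
    have h1 : W.card = (W.image fun y => zc (pt κ.I y)).card := by
      rw [Finset.card_image_of_injOn]
      intro y1 h1 y2 h2 h3
      obtain ⟨h4, h5⟩ := hWm y1 (Finset.mem_coe.1 h1)
      obtain ⟨h6, h7⟩ := hWm y2 (Finset.mem_coe.1 h2)
      exact hinj y1 h4 y2 h6 (h5.trans h7.symm) h3
    have hr1 : 1 ≤ C0 * X := by nlinarith
    have h2 := hbx κ.g n hnd 1 (fun _ => 0) (fun _ => 0) (C0 * X) le_rfl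
      (fun h => hn.one_lt.ne' (Nat.dvd_one.1 h))
      (by push_cast; nlinarith [show (1 : ℝ) ≤ C0 * c₁ by nlinarith])
      (by nlinarith) (W.image fun y => zc (pt κ.I y)) ?_
    · rw [h1]
      refine le_trans h2 ?_
      have h3 : ((C0 * X) / ((1 : ℕ) : ℝ)) ^ k / n ≤ C0 ^ k * c₁ * (X : ℝ) ^ (k - 1) := by
        rw [Nat.cast_one, div_one, div_le_iff₀ (by linarith)]
        obtain ⟨l, rfl⟩ : ∃ l, k = l + 1 := ⟨k - 1, by omega⟩
        have h4 : C0 ^ (l + 1) * (X : ℝ) ^ l * X ≤ C0 ^ (l + 1) * (X : ℝ) ^ l * (c₁ * n) :=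
          mul_le_mul_of_nonneg_left hXcn (by positivity)
        calc (C0 * X) ^ (l + 1) = C0 ^ (l + 1) * (X : ℝ) ^ l * X := by ring
          _ ≤ C0 ^ (l + 1) * (X : ℝ) ^ l * (c₁ * n) := h4
          _ = C0 ^ (l + 1) * c₁ * (X : ℝ) ^ (l + 1 - 1) * n := by
              rw [Nat.add_sub_cancel]; ring
      have h4 : (√(n : ℝ)) ^ k * (2 + Real.log n) ^ k ≤ (K : ℝ) ^ (k - 1) * (X : ℝ) ^ (k - 1) := by
        have hnN : (n : ℝ) ≤ ((K * X : ℕ) : ℝ) := by exact_mod_cast hnK y' hy' n hyn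
        have h5 : √(n : ℝ) ≤ √((K * X : ℕ) : ℝ) := Real.sqrt_le_sqrt hnN
        have h6 : Real.log n ≤ Real.log ((K * X : ℕ) : ℝ) := Real.log_le_log (by linarith) hnN
        have h7 : 0 ≤ Real.log n := Real.log_nonneg hn1
        obtain ⟨y, hy⟩ : ∃ y : ℝ, y = √((K * X : ℕ) : ℝ) := ⟨_, rfl⟩
        have hKX1 : (1 : ℝ) ≤ ((K * X : ℕ) : ℝ) := le_trans hn1 hnN
        have hy1 : 1 ≤ y := by rw [hy]; exact Real.one_le_sqrt.2 hKX1
        have hy2 : y ^ 2 = K * X := by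
          rw [hy, Real.sq_sqrt (by linarith)]; push_cast; rfl
        have h8 := hn₁ (K * X) (le_trans hXn (Nat.le_mul_of_pos_left _ hK1'))
        rw [← hy, one_mul] at h8
        calc (√(n : ℝ)) ^ k * (2 + Real.log n) ^ k
            ≤ y ^ k * (2 + Real.log ((K * X : ℕ) : ℝ)) ^ k := by
              refine mul_le_mul ?_ ?_ (by positivity) (by positivity)
              · rw [hy]; exact pow_le_pow_left₀ (Real.sqrt_nonneg _) h5 _
              · exact pow_le_pow_left₀ (by linarith) (by linarith) _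
          _ ≤ y ^ k * y := mul_le_mul_of_nonneg_left h8 (by positivity)
          _ = y ^ (k + 1) := (pow_succ _ _).symm
          _ ≤ y ^ (2 * (k - 1)) := pow_le_pow_right₀ hy1 (by omega)
          _ = (K * X : ℝ) ^ (k - 1) := by rw [pow_mul, hy2]
          _ = (K : ℝ) ^ (k - 1) * (X : ℝ) ^ (k - 1) := mul_pow _ _ _
      rw [hM]
      calc C2 * (((C0 * X) / ((1 : ℕ) : ℝ)) ^ k / n + (√(n : ℝ)) ^ k * (2 + Real.log n) ^ k)
          ≤ C2 * (C0 ^ k * c₁ * (X : ℝ) ^ (k - 1) + (K : ℝ) ^ (k - 1) * (X : ℝ) ^ (k - 1)) :=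
            mul_le_mul_of_nonneg_left (add_le_add h3 h4) (by linarith)
        _ = C2 * (C0 ^ k * c₁ + (K : ℝ) ^ (k - 1)) * (X : ℝ) ^ (k - 1) := by ring
    · intro z hz
      obtain ⟨y, hy, rfl⟩ := Finset.mem_image.1 hz
      obtain ⟨hy1, hy2⟩ := hWm y hy
      refine ⟨fun j => ⟨?_, by simp⟩, ?_⟩
      · rw [sub_zero]; exact htb y hy1 _
      · have h1 := heq y hy1
        rw [hy2, hyn] at h1
        have h2 : qd κ.g (zc (pt κ.I y)) = (n : ℤ) * (-(s * (κ.D * pt κ.I y 1)) -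
            s * (∑ j, (κ.ll j : ℤ) * zc (pt κ.I y) j) - κ.c0 * (s * (s * n))) := by
          have h3 : TT κ ((s : ℤ) * n) (zc (pt κ.I y)) = qd κ.g (zc (pt κ.I y)) +
            (s : ℤ) * n * (∑ j, (κ.ll j : ℤ) * zc (pt κ.I y) j) +
            (κ.c0 : ℤ) * ((s : ℤ) * n) ^ 2 := rfl
          rw [h3] at h1
          linear_combination h1
        rw [h2]
        exact dvd_mul_right _ _
  -- the sum over the primes
  obtain ⟨Y, hY⟩ : ∃ Y, Y = Xg c κ s c₁ X := ⟨_, rfl⟩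
  rw [← hY] at hfib hmem hnK ⊢
  have hXk : 0 ≤ M * (X : ℝ) ^ (k - 1) := by positivity
  have h1 : Y.card ≤ ⌊M * (X : ℝ) ^ (k - 1)⌋₊ * (Y.image fun y => pt κ.I y 0).card := by
    refine Finset.card_le_mul_card_image Y _ fun b hb => ?_
    obtain ⟨y1, hy1, rfl⟩ := Finset.mem_image.1 hb
    exact Nat.le_floor (hfib y1 hy1)
  have h2 : (((Y.image fun y => pt κ.I y 0).card : ℕ) : ℝ) ≤ C1 * K * X / Real.log X := by
    have h3 : (Y.image fun y => pt κ.I y 0) ⊆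
        ((range (K * X + 1)).filter Nat.Prime).image fun n : ℕ => (s : ℤ) * n := by
      intro b hb
      obtain ⟨y1, hy1, rfl⟩ := Finset.mem_image.1 hb
      obtain ⟨n, hn, -, hyn⟩ := (hmem y1 hy1).2.2
      refine Finset.mem_image.2 ⟨n, Finset.mem_filter.2 ⟨Finset.mem_range.2 ?_, hn⟩, hyn.symm⟩
      have := hnK y1 hy1 n hyn
      omega
    have h4 : (Y.image fun y => pt κ.I y 0).card ≤ ((range (K * X + 1)).filter Nat.Prime).card :=
      le_trans (Finset.card_le_card h3) Finset.card_image_le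
    have hKX : X ≤ K * X := Nat.le_mul_of_pos_left _ hK1'
    have h5 := hch (K * X) (by omega)
    have h6 : Real.log X ≤ Real.log ((K * X : ℕ) : ℝ) :=
      Real.log_le_log (by linarith) (by exact_mod_cast hKX)
    calc (((Y.image fun y => pt κ.I y 0).card : ℕ) : ℝ)
        ≤ ((((range (K * X + 1)).filter Nat.Prime).card : ℕ) : ℝ) := by exact_mod_cast h4
      _ ≤ C1 * ((K * X : ℕ) : ℝ) / Real.log ((K * X : ℕ) : ℝ) := h5
      _ ≤ C1 * ((K * X : ℕ) : ℝ) / Real.log X :=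
          div_le_div_of_nonneg_left (by positivity) hlogX h6
      _ = C1 * K * X / Real.log X := by push_cast; ring
  have h2p : 0 ≤ C1 * K * X / Real.log X := by positivity
  calc ((Y.card : ℕ) : ℝ) ≤ ((⌊M * (X : ℝ) ^ (k - 1)⌋₊ *
        (Y.image fun y => pt κ.I y 0).card : ℕ) : ℝ) := by exact_mod_cast h1
    _ = (⌊M * (X : ℝ) ^ (k - 1)⌋₊ : ℝ) * (((Y.image fun y => pt κ.I y 0).card : ℕ) : ℝ) := by
        push_cast; rfl
    _ ≤ (M * (X : ℝ) ^ (k - 1)) * (C1 * K * X / Real.log X) :=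
        mul_le_mul (Nat.floor_le hXk) h2 (by positivity) hXk
    _ = M * (C1 * K) * (X : ℝ) ^ k / Real.log X := by
        obtain ⟨l, rfl⟩ : ∃ l, k = l + 1 := ⟨k - 1, by omega⟩
        rw [Nat.add_sub_cancel]
        ring

end Pool.FQ
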