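import Pool.Agent.Work.MP_9fb703_fq.Interface2

/-! # THEOREM FQ, block CNQ: zeros of the fixed form modulo `p^e` in a chart -/

set_option autoImplicit false

namespace Pool.FQ

open Finset
open Pool.HPQ (Fw Lam Kw fl rd cs Ww)
open Pool.GE

/-- The Gram matrix. -/
def CNQ_G {R : Type} [CommRing R] {k : ℕ} (c : IQ k → R) :
    Matrix (Fin (k + 2)) (Fin (k + 2)) R := fun v w => DD c (Pi.single v 1) w

theorem CNQ_lin (hQ : Stmt_QAD) {R : Type} [CommRing R] {k : ℕ} (c : IQ k → R)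
    (x : Fin (k + 2) → R) (v : Fin (k + 2)) : DD c x v = (CNQ_G c).mulVec x v := by
  have h := (hQ R k c x (Pi.single v 1) 1).2.2.2.2.1
  have h1 : ∑ w, (Pi.single v 1 : Fin (k + 2) → R) w * DD c x w = DD c x v := by
    rw [Finset.sum_eq_single_of_mem v (mem_univ v)]
    · rw [Pi.single_eq_same, one_mul]
    · intro w _ hw
      rw [Pi.single_eq_of_ne hw, zero_mul]
  rw [h1] at h
  rw [h]
  unfold Matrix.mulVec dotProduct CNQ_G
  refine Finset.sum_congr rfl fun w _ => ?_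
  rw [mul_comm]

theorem CNQ_cast {R : Type} [CommRing R] {k : ℕ} (c : IQ k → ℤ) (v w : Fin (k + 2)) :
    CNQ_G (fun s => (c s : R)) v w = ((CNQ_G c v w : ℤ) : R) := by
  unfold CNQ_G DD dm mv
  push_cast
  refine Finset.sum_congr rfl fun s _ => ?_
  congr 2
  refine Finset.prod_congr rfl fun u _ => ?_
  congr 1
  by_cases hu : u = v
  · subst hu
    rw [Pi.single_eq_same, Pi.single_eq_same, Int.cast_one]
  · rw [Pi.single_eq_of_ne hu, Pi.single_eq_of_ne hu, Int.cast_zero]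

theorem CNQ_det (hQ : Stmt_QAD) {k : ℕ} (c : IQ k → ℤ) (hc : Nsg c) :
    Matrix.det (CNQ_G c) ≠ 0 := by
  intro h0
  have h1 : Matrix.det (CNQ_G (fun s => (c s : ℚ))) = 0 := by
    have h2 : CNQ_G (fun s => (c s : ℚ)) = (CNQ_G c).map (Int.castRingHom ℚ) := by
      ext v w
      rw [CNQ_cast]
      rfl
    rw [h2]
    have h3 := (RingHom.map_det (Int.castRingHom ℚ) (CNQ_G c)).symm
    rw [h0, map_zero] at h3
    exact h3
  obtain ⟨x, hx, hGx⟩ := Matrix.exists_mulVec_eq_zero_iff.2 h1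
  refine hx (hc x fun v => ?_)
  rw [CNQ_lin hQ, hGx]
  rfl

theorem CNQ_adj (hQ : Stmt_QAD) {k : ℕ} (c : IQ k → ℤ) (z : Fin (k + 2) → ℤ) (P : ℤ)
    (h : ∀ v, P ∣ DD c z v) (w : Fin (k + 2)) : P ∣ Matrix.det (CNQ_G c) * z w := by
  have h1 : (CNQ_G c).adjugate.mulVec ((CNQ_G c).mulVec z) w = Matrix.det (CNQ_G c) * z w := by
    rw [Matrix.mulVec_mulVec, Matrix.adjugate_mul, Matrix.smul_mulVec, Matrix.one_mulVec]
    rfl
  rw [← h1]
  unfold Matrix.mulVec dotProduct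
  refine Finset.dvd_sum fun v _ => Dvd.dvd.mul_left ?_ _
  have h2 := h v
  rw [CNQ_lin hQ] at h2
  exact h2

theorem CNQ_split {q : ℤ} (hq : Prime q) (e : ℕ) : ∀ u w : ℤ, q ^ e ∣ u * w →
    ∃ a b : ℕ, a + b = e ∧ q ^ a ∣ u ∧ q ^ b ∣ w := by
  induction e with
  | zero => intro u w _; exact ⟨0, 0, rfl, by simp, by simp⟩
  | succ e ih =>
    intro u w h
    obtain ⟨a, b, hab, ⟨u', rfl⟩, ⟨w', rfl⟩⟩ := ih u w ((pow_dvd_pow q (Nat.le_succ e)).trans h)
    have h1 : q ^ e * q ∣ q ^ e * (u' * w') := by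
      have h2 : q ^ a * u' * (q ^ b * w') = q ^ e * (u' * w') := by rw [← hab, pow_add]; ring
      rw [h2, pow_succ] at h
      exact h
    have h3 : q ∣ u' * w' := (mul_dvd_mul_iff_left (pow_ne_zero _ hq.ne_zero)).1 h1
    rcases hq.dvd_or_dvd h3 with h4 | h4
    · exact ⟨a + 1, b, by omega, by rw [pow_succ]; exact mul_dvd_mul_left _ h4,
        Dvd.intro _ rfl⟩
    · exact ⟨a, b + 1, by omega, Dvd.intro _ rfl, by
        rw [pow_succ]; exact mul_dvd_mul_left _ h4⟩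

/-- The valuation argument. -/
theorem CNQ_val {p : ℕ} (hp : p.Prime) (T e : ℕ) (he : T < e) (u w : ℤ)
    (h : ((p ^ e : ℕ) : ℤ) ∣ u * w) (hw : ¬ ((p ^ (T + 1) : ℕ) : ℤ) ∣ w) :
    ((p ^ (e - T) : ℕ) : ℤ) ∣ u := by
  have hp' : Prime (p : ℤ) := Nat.prime_iff_prime_int.1 hp
  push_cast at h hw ⊢
  have h1 : e = (e - T) + T := by omega
  by_contra hcon
  obtain ⟨a, b, hab, ha, hb⟩ : ∃ a b : ℕ, a + b = e ∧ (p : ℤ) ^ a ∣ u ∧ (p : ℤ) ^ b ∣ w := by
    exact CNQ_split hp' e u w h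
  have h2 : a < e - T := by
    by_contra h3
    exact hcon ((pow_dvd_pow _ (by omega)).trans ha)
  exact hw ((pow_dvd_pow _ (by omega)).trans hb)

theorem CNQ_line (hQ : Stmt_QAD) {k : ℕ} (c : IQ k → ℤ) (z : Fin (k + 2) → ℤ)
    (l : Fin (k + 2)) (u : ℤ) : FF c (fun v => z v + u * (Pi.single l 1 : Fin (k + 2) → ℤ) v) =
      FF c z + u * (DD c z l + u * FF c (Pi.single l 1)) := by
  have h1 := (hQ ℤ k c z (fun v => u * (Pi.single l 1 : Fin (k + 2) → ℤ) v) 1).1
  rw [h1, (hQ ℤ k c (Pi.single l 1) z u).2.1]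
  have h2 : ∑ v, u * (Pi.single l 1 : Fin (k + 2) → ℤ) v * DD c z v = u * DD c z l := by
    rw [Finset.sum_eq_single_of_mem l (mem_univ l)]
    · rw [Pi.single_eq_same, mul_one]
    · intro w _ hw
      rw [Pi.single_eq_of_ne hw, mul_zero, zero_mul]
  rw [h2]
  ring

/-- Two solutions on a line. -/
theorem CNQ_two (hQ : Stmt_QAD) {k : ℕ} (c : IQ k → ℤ) {p : ℕ} (hp : p.Prime) (T e : ℕ)
    (he : T < e) (l : Fin (k + 2)) (z z' : Fin (k + 2) → ℤ) (hzz : ∀ v, v ≠ l → z v = z' v)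
    (hz : ((p ^ e : ℕ) : ℤ) ∣ FF c z) (hz' : ((p ^ e : ℕ) : ℤ) ∣ FF c z')
    (hD : ¬ ((p ^ (T + 1) : ℕ) : ℤ) ∣ DD c z l)
    (hu : ((p ^ (T + 1) : ℕ) : ℤ) ∣ z' l - z l) : ((p ^ (e - T) : ℕ) : ℤ) ∣ z' l - z l := by
  have h1 : z' = fun v => z v + (z' l - z l) * (Pi.single l 1 : Fin (k + 2) → ℤ) v := by
    funext v
    by_cases hv : v = l
    · subst hv
      rw [Pi.single_eq_same]
      ring
    · rw [Pi.single_eq_of_ne hv, mul_zero, add_zero]
      exact (hzz v hv).symm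
  have h2 := CNQ_line hQ c z l (z' l - z l)
  rw [← h1] at h2
  have h3 : ((p ^ e : ℕ) : ℤ) ∣ (z' l - z l) * (DD c z l + (z' l - z l) * FF c (Pi.single l 1)) := by
    have h4 : (z' l - z l) * (DD c z l + (z' l - z l) * FF c (Pi.single l 1)) =
        FF c z' - FF c z := by rw [h2]; ring
    rw [h4]
    exact dvd_sub hz' hz
  refine CNQ_val hp T e he _ _ h3 fun h5 => hD ?_
  exact (dvd_add_left (Dvd.dvd.mul_right hu _)).1 h5

theorem CNQ_prod {k : ℕ} (i l : Fin (k + 2)) (hil : l ≠ i) (A B : ℕ) :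
    ∏ v : Fin (k + 2), (if v = i then 1 else if v = l then A else B) = A * B ^ k := by
  rw [← Finset.mul_prod_erase univ _ (mem_univ i), if_pos rfl, one_mul]
  rw [← Finset.mul_prod_erase (univ.erase i) _ (mem_erase.2 ⟨hil, mem_univ l⟩), if_neg hil,
    if_pos rfl]
  congr 1
  rw [Finset.prod_congr rfl (g := fun _ => B)]
  · rw [Finset.prod_const, Finset.card_erase_of_mem (mem_erase.2 ⟨hil, mem_univ l⟩),
      Finset.card_erase_of_mem (mem_univ i), Finset.card_univ, Fintype.card_fin]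
    rfl
  · intro v hv
    rw [if_neg (mem_erase.1 (mem_erase.1 hv).2).1, if_neg (mem_erase.1 hv).1]

/-- The count for one coordinate. -/
theorem CNQ_one (hQ : Stmt_QAD) {k : ℕ} (c : IQ k → ℤ) {p : ℕ} (hp : p.Prime) (T e : ℕ)
    (he : T < e) (i l : Fin (k + 2)) (hil : l ≠ i) (S : Finset (Fin (k + 2) → ℤ))
    (hS : ∀ z ∈ S, z ∈ cs (p ^ e) (Fin (k + 2)) ∧ z i = 1 ∧ ((p ^ e : ℕ) : ℤ) ∣ FF c z ∧
      ¬ ((p ^ (T + 1) : ℕ) : ℤ) ∣ DD c z l) : S.card ≤ p ^ (2 * T + 1) * (p ^ e) ^ k := by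
  classical
  set X : ℤ := ((p ^ (T + 1) : ℕ) : ℤ) with hX
  set Y : ℤ := ((p ^ T : ℕ) : ℤ) with hY
  set Z : ℤ := ((p ^ (e - T) : ℕ) : ℤ) with hZ
  have hX0 : 0 < X := by rw [hX]; exact_mod_cast pow_pos hp.pos _
  have hY0 : 0 < Y := by rw [hY]; exact_mod_cast pow_pos hp.pos _
  have hZ0 : 0 < Z := by rw [hZ]; exact_mod_cast pow_pos hp.pos _
  have hYZ : Y * Z = ((p ^ e : ℕ) : ℤ) := by
    rw [hY, hZ, ← Nat.cast_mul, ← pow_add]
    congr 2
    omega
  have hXY : X * Y = ((p ^ (2 * T + 1) : ℕ) : ℤ) := by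
    rw [hX, hY, ← Nat.cast_mul, ← pow_add]
    congr 2
    omega
  let f : (Fin (k + 2) → ℤ) → (Fin (k + 2) → ℤ) := fun z v =>
    if v = l then (z l % X) * Y + z l / Z else z v
  have hmem : ∀ z ∈ S, f z ∈ Fintype.piFinset fun v : Fin (k + 2) =>
      if v = i then ({1} : Finset ℤ) else if v = l then Finset.Ico 0 (X * Y)
        else Finset.Ico 0 ((p ^ e : ℕ) : ℤ) := by
    intro z hz
    obtain ⟨h1, h2, h3, h4⟩ := hS z hz
    have h1' : ∀ v, 0 ≤ z v ∧ z v < ((p ^ e : ℕ) : ℤ) := by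
      intro v
      have := (Fintype.mem_piFinset.1 h1) v
      exact Finset.mem_Ico.1 this
    rw [Fintype.mem_piFinset]
    intro v
    show (if v = l then (z l % X) * Y + z l / Z else z v) ∈ _
    by_cases hvi : v = i
    · subst hvi
      rw [if_pos rfl, Finset.mem_singleton, if_neg (Ne.symm hil)]
      exact h2
    · rw [if_neg hvi]
      by_cases hvl : v = l
      · rw [if_pos hvl, if_pos hvl, Finset.mem_Ico]
        have a1 := Int.emod_nonneg (z l) hX0.ne'
        have a2 := Int.emod_lt_of_pos (z l) hX0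
        have a3 : 0 ≤ z l / Z := Int.ediv_nonneg (h1' l).1 hZ0.le
        have a4 : z l / Z < Y := by
          rw [Int.ediv_lt_iff_lt_mul hZ0, hYZ]
          exact (h1' l).2
        constructor
        · positivity
        · nlinarith
      · rw [if_neg hvl, if_neg hvl, Finset.mem_Ico]
        exact h1' v
  have hinj : Set.InjOn f (S : Set (Fin (k + 2) → ℤ)) := by
    intro z hz z' hz' hff
    obtain ⟨h1, h2, h3, h4⟩ := hS z hz
    obtain ⟨h1b, h2b, h3b, h4b⟩ := hS z' hz'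
    have b0 : ∀ v, 0 ≤ z v ∧ z v < ((p ^ e : ℕ) : ℤ) := fun v =>
      Finset.mem_Ico.1 ((Fintype.mem_piFinset.1 h1) v)
    have b0' : ∀ v, 0 ≤ z' v ∧ z' v < ((p ^ e : ℕ) : ℤ) := fun v =>
      Finset.mem_Ico.1 ((Fintype.mem_piFinset.1 h1b) v)
    have b1 : ∀ v, v ≠ l → z v = z' v := by
      intro v hv
      have := congrFun hff v
      simpa only [f, if_neg hv] using this
    have b2 : (z l % X) * Y + z l / Z = (z' l % X) * Y + z' l / Z := by
      have := congrFun hff l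
      simpa only [f, if_pos rfl] using this
    have a3 : 0 ≤ z l / Z := Int.ediv_nonneg (b0 l).1 hZ0.le
    have a4 : z l / Z < Y := by
      rw [Int.ediv_lt_iff_lt_mul hZ0, hYZ]
      exact (b0 l).2
    have a3' : 0 ≤ z' l / Z := Int.ediv_nonneg (b0' l).1 hZ0.le
    have a4' : z' l / Z < Y := by
      rw [Int.ediv_lt_iff_lt_mul hZ0, hYZ]
      exact (b0' l).2
    have b3 : z l % X = z' l % X := by
      have c1 := congrArg (fun n => n / Y) b2
      rw [Int.add_comm, Int.add_mul_ediv_right _ _ hY0.ne', Int.add_comm (z' l % X * Y),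
        Int.add_mul_ediv_right _ _ hY0.ne', Int.ediv_eq_zero_of_lt a3 a4,
        Int.ediv_eq_zero_of_lt a3' a4'] at c1
      simpa using c1
    have b4 : z l / Z = z' l / Z := by
      rw [b3] at b2
      exact add_left_cancel b2
    have b5 : X ∣ z' l - z l := Int.ModEq.dvd b3
    have b6 : Z ∣ z' l - z l := CNQ_two hQ c hp T e he l z z' b1 h3 h3b h4 b5
    have b7 : z l % Z = z' l % Z := (Int.modEq_iff_dvd.2 b6)
    funext v
    by_cases hv : v = l
    · subst hv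
      rw [← Int.emod_add_mul_ediv (z v) Z, ← Int.emod_add_mul_ediv (z' v) Z, b4, b7]
    · exact b1 v hv
  have hcard := Finset.card_le_card_of_injOn f hmem hinj
  refine hcard.trans (le_of_eq ?_)
  rw [Fintype.card_piFinset]
  have h9 : ∀ v : Fin (k + 2), (if v = i then ({1} : Finset ℤ) else if v = l then
      Finset.Ico 0 (X * Y) else Finset.Ico 0 ((p ^ e : ℕ) : ℤ)).card =
      if v = i then 1 else if v = l then p ^ (2 * T + 1) else p ^ e := by
    intro v
    split_ifs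
    · simp
    · rw [hXY, Int.card_Ico, sub_zero, Int.toNat_natCast]
    · rw [Int.card_Ico, sub_zero, Int.toNat_natCast]
  rw [Finset.prod_congr rfl fun v _ => h9 v, CNQ_prod i l hil]

theorem p_CNQ (hQ : Stmt_QAD) : Stmt_CNQ := by
  classical
  intro k c hc p hp
  have hdet := CNQ_det hQ c hc
  set T : ℕ := (Matrix.det (CNQ_G c)).natAbs with hT
  have hTn : ¬ ((p ^ (T + 1) : ℕ) : ℤ) ∣ Matrix.det (CNQ_G c) := by
    intro h
    have h1 : p ^ (T + 1) ∣ T := by
      rw [hT]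
      exact Int.natCast_dvd.1 h
    have h2 : p ^ (T + 1) ≤ T := Nat.le_of_dvd (Int.natAbs_pos.2 hdet) h1
    have h3 : T + 1 < p ^ (T + 1) := Nat.lt_pow_self hp.one_lt
    omega
  refine ⟨(k + 2) * p ^ (2 * T + 1), fun e i => ?_⟩
  set S := (cs (p ^ e) (Fin (k + 2))).filter fun z => z i = 1 ∧ ((p ^ e : ℕ) : ℤ) ∣ FF c z
    with hS
  by_cases he : T < e
  · have hex : ∀ z ∈ S, ∃ l ∈ univ.erase i, ¬ ((p ^ (T + 1) : ℕ) : ℤ) ∣ DD c z l := by
      intro z hz
      rw [hS, Finset.mem_filter] at hz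
      by_contra hcon
      push Not at hcon
      have h1 : ∀ v, ((p ^ (T + 1) : ℕ) : ℤ) ∣ DD c z v := by
        intro v
        by_cases hv : v = i
        · subst hv
          have h2 := (hQ ℤ k c z z 1).2.2.2.2.2
          rw [← Finset.add_sum_erase univ _ (mem_univ v), hz.2.1, one_mul] at h2
          have h3 : DD c z v = 2 * FF c z - ∑ w ∈ univ.erase v, z w * DD c z w := by
            rw [← h2]; ring
          rw [h3]
          refine dvd_sub (Dvd.dvd.mul_left (dvd_trans ?_ hz.2.2) 2)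
            (Finset.dvd_sum fun w hw => Dvd.dvd.mul_left (hcon w hw) _)
          exact Int.natCast_dvd_natCast.2 (pow_dvd_pow p (by omega))
        · exact hcon v (mem_erase.2 ⟨hv, mem_univ v⟩)
      have h4 := CNQ_adj hQ c z _ h1 i
      rw [hz.2.1, mul_one] at h4
      exact hTn h4
    have hsub : S ⊆ (univ.erase i).biUnion fun l =>
        S.filter fun z => ¬ ((p ^ (T + 1) : ℕ) : ℤ) ∣ DD c z l := by
      intro z hz
      obtain ⟨l, hl, h1⟩ := hex z hz
      exact Finset.mem_biUnion.2 ⟨l, hl, Finset.mem_filter.2 ⟨hz, h1⟩⟩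
    refine (Finset.card_le_card hsub).trans (Finset.card_biUnion_le.trans ?_)
    have h2 : ∀ l ∈ univ.erase i, (S.filter fun z =>
        ¬ ((p ^ (T + 1) : ℕ) : ℤ) ∣ DD c z l).card ≤ p ^ (2 * T + 1) * (p ^ e) ^ k := by
      intro l hl
      refine CNQ_one hQ c hp T e he i l (mem_erase.1 hl).1 _ fun z hz => ?_
      rw [Finset.mem_filter, hS, Finset.mem_filter] at hz
      exact ⟨hz.1.1, hz.1.2.1, hz.1.2.2, hz.2⟩
    refine (Finset.sum_le_sum h2).trans ?_
    rw [Finset.sum_const, smul_eq_mul, Finset.card_erase_of_mem (mem_univ i), Finset.card_univ,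
      Fintype.card_fin]
    have h5 : (p ^ e) ^ k = p ^ (k * e) := by rw [← pow_mul, mul_comm]
    rw [h5, ← mul_assoc]
    exact Nat.mul_le_mul_right _ (Nat.mul_le_mul_right _ (by omega))
  · have h1 : S.card ≤ (p ^ e) ^ (k + 2) := by
      refine (Finset.card_filter_le _ _).trans (le_of_eq ?_)
      unfold cs
      rw [Fintype.card_piFinset]
      simp only [Int.card_Ico, sub_zero, Int.toNat_natCast, Finset.prod_const, Finset.card_univ,
        Fintype.card_fin]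
    refine h1.trans ?_
    have h2 : (p ^ e) ^ (k + 2) = p ^ (2 * e) * p ^ (k * e) := by
      rw [← pow_mul, ← pow_add]
      congr 1
      ring
    rw [h2]
    refine Nat.mul_le_mul_right _ ?_
    calc p ^ (2 * e) ≤ p ^ (2 * T + 1) := Nat.pow_le_pow_right hp.pos (by omega)
      _ ≤ (k + 2) * p ^ (2 * T + 1) := Nat.le_mul_of_pos_left _ (by omega)

end Pool.FQ
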