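import Pool.Agent.Work.MP_9fb703_fq.Interface1
import Pool.Agent.Work.MP_a19274_ge.B_CNG

/-! # Intersections of a fixed quadric with almost all quadrics: block CRA -/

set_option autoImplicit false

namespace Pool.FQ

open Finset
open Pool.GE

/-- the bilinear form -/
def CRA_B {R : Type} [CommRing R] {k : ℕ} (a : IQ k → R) (x y : Fin (k + 2) → R) : R :=
  ∑ v, y v * DD a x v

section

variable {R : Type} [CommRing R] {k : ℕ} (a : IQ k → R)

theorem CRA_add (hQ : Stmt_QAD) (x y : Fin (k + 2) → R) :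
    FF a (fun v => x v + y v) = FF a x + FF a y + CRA_B a x y := (hQ R k a x y 0).1

theorem CRA_smul (hQ : Stmt_QAD) (r : R) (x : Fin (k + 2) → R) :
    FF a (fun v => r * x v) = r ^ 2 * FF a x := (hQ R k a x x r).2.1

theorem CRA_comm (hQ : Stmt_QAD) (x y : Fin (k + 2) → R) : CRA_B a x y = CRA_B a y x :=
  (hQ R k a x y 0).2.2.2.2.1

theorem CRA_addr (x y y' : Fin (k + 2) → R) :
    CRA_B a x (fun v => y v + y' v) = CRA_B a x y + CRA_B a x y' := by
  unfold CRA_B
  rw [← Finset.sum_add_distrib]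
  exact Finset.sum_congr rfl fun v _ => add_mul _ _ _

theorem CRA_smulr (r : R) (x y : Fin (k + 2) → R) :
    CRA_B a x (fun v => r * y v) = r * CRA_B a x y := by
  unfold CRA_B
  rw [Finset.mul_sum]
  exact Finset.sum_congr rfl fun v _ => mul_assoc _ _ _

theorem CRA_smull (hQ : Stmt_QAD) (r : R) (x y : Fin (k + 2) → R) :
    CRA_B a (fun v => r * x v) y = r * CRA_B a x y := by
  rw [CRA_comm a hQ, CRA_smulr, CRA_comm a hQ]

theorem CRA_sumr (x : Fin (k + 2) → R) (w : Fin k → Fin (k + 2) → R) (z : Fin k → R)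
    (S : Finset (Fin k)) :
    CRA_B a x (fun v => ∑ j ∈ S, z j * w j v) = ∑ j ∈ S, z j * CRA_B a x (w j) := by
  unfold CRA_B
  simp_rw [Finset.sum_mul, Finset.mul_sum]
  rw [Finset.sum_comm]
  exact Finset.sum_congr rfl fun j _ => Finset.sum_congr rfl fun v _ => mul_assoc _ _ _

theorem CRA_sum (hQ : Stmt_QAD) (w : Fin k → Fin (k + 2) → R) (z : Fin k → R)
    (g : Fin k → Fin k → R) (hgd : ∀ i, g i i = FF a (w i))
    (hgo : ∀ i j, i ≠ j → g i j + g j i = CRA_B a (w i) (w j)) (S : Finset (Fin k)) :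
    FF a (fun v => ∑ j ∈ S, z j * w j v) = ∑ i ∈ S, ∑ j ∈ S, g i j * (z i * z j) := by
  classical
  induction S using Finset.induction_on with
  | empty =>
    simp only [Finset.sum_empty]
    have h := CRA_smul a hQ 0 (fun _ => (0 : R))
    simpa using h
  | insert s S hs ih =>
    have h1 : (fun v => ∑ j ∈ insert s S, z j * w j v) =
        fun v => z s * w s v + ∑ j ∈ S, z j * w j v := by
      funext v
      rw [Finset.sum_insert hs]
    rw [h1, CRA_add a hQ, ih, CRA_smul a hQ, CRA_smull a hQ, CRA_sumr]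
    rw [Finset.sum_insert hs, Finset.sum_insert hs]
    have h2 : ∑ i ∈ S, ∑ j ∈ insert s S, g i j * (z i * z j) =
        ∑ i ∈ S, g i s * (z i * z s) + ∑ i ∈ S, ∑ j ∈ S, g i j * (z i * z j) := by
      rw [← Finset.sum_add_distrib]
      exact Finset.sum_congr rfl fun i _ => Finset.sum_insert hs
    have h3 : z s * ∑ j ∈ S, z j * CRA_B a (w s) (w j) =
        ∑ j ∈ S, g s j * (z s * z j) + ∑ i ∈ S, g i s * (z i * z s) := by
      rw [Finset.mul_sum, ← Finset.sum_add_distrib]
      refine Finset.sum_congr rfl fun j hj => ?_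
      rw [← hgo s j (fun e => hs (e ▸ hj))]
      ring
    rw [h2, h3, hgd s]
    ring

theorem CRA_gen (hQ : Stmt_QAD) (w0 w1 : Fin (k + 2) → R) (w : Fin k → Fin (k + 2) → R)
    (g : Fin k → Fin k → R) (D c0 : R) (ll : Fin k → R) (h1 : FF a w1 = 0)
    (h01 : CRA_B a w1 w0 = D) (h1j : ∀ j, CRA_B a w1 (w j) = 0) (h0 : FF a w0 = c0)
    (hll : ∀ j, CRA_B a w0 (w j) = ll j) (hgd : ∀ i, g i i = FF a (w i))
    (hgo : ∀ i j, i ≠ j → g i j + g j i = CRA_B a (w i) (w j)) (t0 t1 : R) (z : Fin k → R) :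
    FF a (fun v => t0 * w0 v + (t1 * w1 v + ∑ j, z j * w j v)) =
      D * (t0 * t1) + ((∑ i, ∑ j, g i j * (z i * z j)) + t0 * ∑ j, ll j * z j + c0 * t0 ^ 2) := by
  rw [CRA_add a hQ (fun v => t0 * w0 v) (fun v => t1 * w1 v + ∑ j, z j * w j v),
    CRA_add a hQ (fun v => t1 * w1 v) (fun v => ∑ j, z j * w j v), CRA_smul a hQ, CRA_smul a hQ,
    CRA_smull a hQ, CRA_smull a hQ, CRA_addr, CRA_smulr, CRA_sumr, CRA_sumr,
    CRA_sum a hQ w z g hgd hgo, h1, h0, CRA_comm a hQ w0 w1, h01]
  have e1 : ∑ j, z j * CRA_B a w1 (w j) = 0 :=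
    Finset.sum_eq_zero fun j _ => by rw [h1j, mul_zero]
  have e2 : ∑ j, z j * CRA_B a w0 (w j) = ∑ j, ll j * z j :=
    Finset.sum_congr rfl fun j _ => by rw [hll, mul_comm]
  rw [e1, e2]
  ring

end

theorem CRA_cast {k : ℕ} (c : IQ k → ℤ) (x y : Fin (k + 2) → ℤ) (R : Type) [CommRing R] :
    CRA_B (fun s => (c s : R)) (fun v => (x v : R)) (fun v => (y v : R)) =
      ((CRA_B c x y : ℤ) : R) := by
  unfold CRA_B
  rw [Int.cast_sum]
  refine Finset.sum_congr rfl fun v _ => ?_
  rw [Int.cast_mul]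
  congr 1
  exact (CNG_DD (Int.castRingHom R) c x v).symm

theorem CRA_castF {k : ℕ} (c : IQ k → ℤ) (x : Fin (k + 2) → ℤ) (R : Type) [CommRing R] :
    FF (fun s => (c s : R)) (fun v => (x v : R)) = ((FF c x : ℤ) : R) :=
  (CNG_FF (Int.castRingHom R) c x).symm

theorem p_CRA (hQ : Stmt_QAD) : Stmt_CRA := by
  classical
  intro k c M D h1 hD hj
  have hB : ∀ x, CRA_B c x x = 2 * FF c x := fun x => (hQ ℤ k c x x 0).2.2.2.2.2
  let W : Fin k → Fin (k + 2) → ℤ := fun j v => M v j.succ.succ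
  let g : Fin k → Fin k → ℤ := fun i j =>
    if i = j then FF c (W i) else if i < j then CRA_B c (W i) (W j) else 0
  have hgd : ∀ i, g i i = FF c (W i) := fun i => if_pos rfl
  have hgo : ∀ i j, g i j + g j i = CRA_B c (W i) (W j) := by
    intro i j
    rcases lt_trichotomy i j with h | h | h
    · have e1 : g i j = CRA_B c (W i) (W j) := by
        show (if i = j then _ else if i < j then _ else _) = _
        rw [if_neg h.ne, if_pos h]
      have e2 : g j i = 0 := by
        show (if j = i then _ else if j < i then _ else _) = _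
        rw [if_neg h.ne', if_neg h.not_gt]
      rw [e1, e2, add_zero]
    · subst h
      rw [hgd, hB]
      ring
    · have e1 : g j i = CRA_B c (W j) (W i) := by
        show (if j = i then _ else if j < i then _ else _) = _
        rw [if_neg h.ne, if_pos h]
      have e2 : g i j = 0 := by
        show (if i = j then _ else if i < j then _ else _) = _
        rw [if_neg h.ne', if_neg h.not_gt]
      rw [e1, e2, zero_add, CRA_comm c hQ]
  refine ⟨FF c (fun v => M v 0), fun j => CRA_B c (fun v => M v 0) (W j), g, hgd, hgo, ?_⟩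
  intro R _ t
  have hpt : pt M t = fun v => t 0 * (M v 0 : R) + (t 1 * (M v 1 : R) +
      ∑ j : Fin k, zc t j * (W j v : R)) := by
    funext v
    show ∑ i, (M v i : R) * t i = _
    rw [Fin.sum_univ_succ, Fin.sum_univ_succ, mul_comm (M v 0 : R)]
    congr 1
    rw [mul_comm]
    congr 1
    exact Finset.sum_congr rfl fun j _ => mul_comm _ _
  rw [hpt]
  exact CRA_gen (fun s => (c s : R)) hQ (fun v => (M v 0 : R)) (fun v => (M v 1 : R))
    (fun j v => (W j v : R)) (fun i j => (g i j : R)) (D : R)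
    ((FF c (fun v => M v 0) : ℤ) : R) (fun j => ((CRA_B c (fun v => M v 0) (W j) : ℤ) : R))
    (by rw [CRA_castF c (fun v => M v 1), h1, Int.cast_zero])
    (by rw [CRA_cast c (fun v => M v 1) (fun v => M v 0)]; exact congrArg _ hD)
    (fun j => by
      rw [CRA_cast c (fun v => M v 1) (W j)]
      exact (congrArg _ (hj j)).trans Int.cast_zero)
    (CRA_castF c (fun v => M v 0) R)
    (fun j => CRA_cast c (fun v => M v 0) (W j) R)
    (fun i => by
      rw [CRA_castF c (W i)]
      exact congrArg _ (hgd i))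
    (fun i j _ => by
      rw [CRA_cast c (W i) (W j), ← hgo i j, Int.cast_add])
    (t 0) (t 1) (zc t)

end Pool.FQ
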