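import Pool.Agent.Work.MP_9fb703_fq.Interface1

/-! # Block CRD (helper37): coordinates adapted to a primitive isotropic vector -/

set_option autoImplicit false

namespace Pool.FQ

open Finset
open Pool.HPQ (Fw Lam Kw fl rd cs Ww)
open Pool.CB (VV Sol PSN PH lin dl)
open Pool.GE
open Pool.GR (SingPr)

theorem CRD_sum {R : Type} [CommRing R] {k : ℕ} (f : Fin (k + 2) → R) :
    ∑ i, f i = f 0 + (f 1 + ∑ j : Fin k, f j.succ.succ) := by
  rw [Fin.sum_univ_succ, Fin.sum_univ_succ]
  rfl

theorem CRD_cast {R : Type} [CommRing R] {k : ℕ} (c : IQ k → ℤ) (x : Fin (k + 2) → ℤ)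
    (v : Fin (k + 2)) :
    DD (fun s => (c s : R)) (fun v => (x v : R)) v = ((DD c x v : ℤ) : R) := by
  unfold DD dm mv
  push_cast
  rfl

/-- The derivatives are linear. -/
theorem CRD_lin (hQ : Stmt_QAD) {R : Type} [CommRing R] {k : ℕ} (a : IQ k → R) {ι : Type}
    [DecidableEq ι] (s : Finset ι) (t : ι → R) (y : ι → Fin (k + 2) → R) (v : Fin (k + 2)) :
    DD a (fun w => ∑ i ∈ s, t i * y i w) v = ∑ i ∈ s, t i * DD a (y i) v := by
  induction s using Finset.induction_on with
  | empty =>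
    have h := (hQ R k a (fun _ => 0) (fun _ => 0) 0).2.2.2.1 v
    simp only [zero_mul] at h
    simp only [Finset.sum_empty]
    exact h
  | insert i s hi ih =>
    rw [Finset.sum_insert hi]
    have h1 : (fun w => ∑ i ∈ insert i s, t i * y i w) =
        fun w => t i * y i w + ∑ i ∈ s, t i * y i w := by
      funext w
      rw [Finset.sum_insert hi]
    rw [h1, (hQ R k a (fun w => t i * y i w) (fun w => ∑ i ∈ s, t i * y i w) 0).2.2.1 v, ih,
      (hQ R k a (y i) (y i) (t i)).2.2.2.1 v]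

theorem CRD_inv {R : Type} [CommRing R] {n : ℕ} {M I : Fin n → Fin n → ℤ}
    (h : ∀ v w, ∑ i, M v i * I i w = if v = w then 1 else 0) (y : Fin n → R)
    (hy : ∀ j, ∑ v, (M v j : R) * y v = 0) (w : Fin n) : y w = 0 := by
  calc y w = ∑ v, (((if v = w then 1 else 0 : ℤ)) : R) * y v := by
        rw [Finset.sum_eq_single w]
        · simp
        · intro v _ hv
          rw [if_neg hv]
          simp
        · intro h
          exact absurd (mem_univ w) h
    _ = ∑ v, ((∑ i, M v i * I i w : ℤ) : R) * y v := by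
        refine Finset.sum_congr rfl fun v _ => ?_
        rw [h]
    _ = ∑ i, (I i w : R) * ∑ v, (M v i : R) * y v := by
        simp only [Finset.mul_sum, Finset.sum_mul, Int.cast_sum, Int.cast_mul]
        rw [Finset.sum_comm]
        refine Finset.sum_congr rfl fun i _ => Finset.sum_congr rfl fun v _ => ?_
        ring
    _ = 0 := by
        apply Finset.sum_eq_zero
        intro i _
        rw [hy i, mul_zero]

/-- The hypotheses on the basis. -/
structure CRD_H {k : ℕ} (c : IQ k → ℤ) (e : Fin (k + 2) → ℤ)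
    (M I : Fin (k + 2) → Fin (k + 2) → ℤ) (D : ℕ) : Prop where
  Dpos : 0 < D
  inv1 : ∀ i j, ∑ v, I i v * M v j = if i = j then 1 else 0
  inv2 : ∀ v w, ∑ i, M v i * I i w = if v = w then 1 else 0
  Me : ∀ v, M v 1 = e v
  M0 : ∑ v, M v 0 * DD c e v = D
  Mj : ∀ j : Fin k, ∑ v, M v j.succ.succ * DD c e v = 0

/-- The entries of the Gram matrix of the columns. -/
def CRD_b {k : ℕ} (c : IQ k → ℤ) (M : Fin (k + 2) → Fin (k + 2) → ℤ) (i j : Fin (k + 2)) : ℤ :=
  ∑ v, M v i * DD c (fun w => M w j) v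

theorem CRD_symm (hQ : Stmt_QAD) {k : ℕ} (c : IQ k → ℤ) (M : Fin (k + 2) → Fin (k + 2) → ℤ)
    (i j : Fin (k + 2)) : CRD_b c M i j = CRD_b c M j i :=
  (hQ ℤ k c (fun w => M w j) (fun w => M w i) 0).2.2.2.2.1

theorem CRD_nons (hQ : Stmt_QAD) {k : ℕ} {c : IQ k → ℤ} (hN : Nsg c) {e : Fin (k + 2) → ℤ}
    (he : FF c e = 0) {M I : Fin (k + 2) → Fin (k + 2) → ℤ} {D : ℕ} (H : CRD_H c e M I D)
    (g : Fin k → Fin k → ℤ)
    (hg : ∀ i j, g i j + g j i = CRD_b c M j.succ.succ i.succ.succ) : dg g ≠ 0 := by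
  intro h0
  have hMe : (fun w => M w 1) = e := funext H.Me
  have hb01 : CRD_b c M 0 1 = D := by
    unfold CRD_b
    rw [hMe]
    exact H.M0
  have hbj1 : ∀ j : Fin k, CRD_b c M j.succ.succ 1 = 0 := by
    intro j
    unfold CRD_b
    rw [hMe]
    exact H.Mj j
  have hb11 : CRD_b c M 1 1 = 0 := by
    unfold CRD_b
    simp only [hMe]
    rw [Finset.sum_congr rfl fun v _ => by rw [H.Me v],
      (hQ ℤ k c e e 0).2.2.2.2.2, he, mul_zero]
  have hDq : (D : ℚ) ≠ 0 := by
    have := H.Dpos
    positivity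
  have hdet : (Matrix.of fun i j : Fin k => ((g i j + g j i : ℤ) : ℚ)).det = 0 := by
    have h1 : (Matrix.of fun i j : Fin k => ((g i j + g j i : ℤ) : ℚ)) =
        (Int.castRingHom ℚ).mapMatrix (Matrix.of fun i j : Fin k => g i j + g j i) := by
      ext i j
      simp
    rw [h1, ← RingHom.map_det]
    have h2 : (Matrix.of fun i j : Fin k => g i j + g j i).det = 0 := h0
    rw [h2, map_zero]
  obtain ⟨w, hw, hgw⟩ := Matrix.exists_mulVec_eq_zero_iff.2 hdet
  have hgw' : ∀ i, ∑ j, ((g i j + g j i : ℤ) : ℚ) * w j = 0 := fun i => congrFun hgw i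
  set α : ℚ := -(∑ j, (CRD_b c M 0 j.succ.succ : ℚ) * w j) / D with hα
  let t : Fin (k + 2) → ℚ := tt 0 α w
  have ht0 : t 0 = 0 := rfl
  have ht1 : t 1 = α := rfl
  have htj : ∀ j : Fin k, t j.succ.succ = w j := fun j => rfl
  let C : IQ k → ℚ := fun s => (c s : ℚ)
  have hx : ∀ v, DD C (pt M t) v = ∑ i, t i * ((DD c (fun w => M w i) v : ℤ) : ℚ) := by
    intro v
    have h3 : pt M t = fun w => ∑ i ∈ univ, t i * ((M w i : ℤ) : ℚ) := by
      funext w
      unfold pt
      refine Finset.sum_congr rfl fun i _ => ?_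
      ring
    rw [h3, CRD_lin hQ C univ t (fun i w => ((M w i : ℤ) : ℚ)) v]
    refine Finset.sum_congr rfl fun i _ => ?_
    rw [← CRD_cast]
  have hB : ∀ j, ∑ v, (M v j : ℚ) * DD C (pt M t) v = ∑ i, t i * (CRD_b c M j i : ℚ) := by
    intro j
    simp only [hx, Finset.mul_sum]
    rw [Finset.sum_comm]
    refine Finset.sum_congr rfl fun i _ => ?_
    unfold CRD_b
    push_cast
    rw [Finset.mul_sum]
    refine Finset.sum_congr rfl fun v _ => ?_
    ring
  have hy : ∀ j, ∑ v, (M v j : ℚ) * DD C (pt M t) v = 0 := by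
    intro j
    rw [hB j, CRD_sum, ht0, ht1]
    simp only [htj]
    refine Fin.cases ?_ (fun j => ?_) j
    · rw [hb01, hα]
      have h4 : ∑ j : Fin k, w j * (CRD_b c M 0 j.succ.succ : ℚ) =
          ∑ j, (CRD_b c M 0 j.succ.succ : ℚ) * w j :=
        Finset.sum_congr rfl fun j _ => mul_comm _ _
      rw [h4]
      push_cast
      field_simp
      ring
    · refine Fin.cases ?_ (fun i => ?_) j
      · have h5 : ((0 : Fin (k + 1)).succ : Fin (k + 2)) = 1 := rfl
        rw [h5, hb11]
        rw [Finset.sum_eq_zero fun j _ => by rw [CRD_symm hQ c M 1 j.succ.succ, hbj1 j, Int.cast_zero,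
          mul_zero]]
        simp
      · rw [hbj1 i]
        have h6 : ∑ j : Fin k, w j * (CRD_b c M i.succ.succ j.succ.succ : ℚ) = 0 := by
          rw [← hgw' i]
          refine Finset.sum_congr rfl fun j _ => ?_
          rw [CRD_symm hQ, ← hg i j]
          ring
        rw [h6]
        simp
  have hDD : ∀ v, DD C (pt M t) v = 0 := fun v => CRD_inv H.inv2 _ hy v
  have hx0 : pt M t = 0 := hN (pt M t) hDD
  apply hw
  funext j
  have h7 : ∑ v, (I j.succ.succ v : ℚ) * pt M t v = 0 := by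
    apply Finset.sum_eq_zero
    intro v _
    rw [hx0]
    simp
  have h8 : ∑ v, (I j.succ.succ v : ℚ) * pt M t v = w j := by
    unfold pt
    calc ∑ v, (I j.succ.succ v : ℚ) * ∑ i, (M v i : ℚ) * t i
        = ∑ i, ((∑ v, I j.succ.succ v * M v i : ℤ) : ℚ) * t i := by
          simp only [Finset.mul_sum, Finset.sum_mul, Int.cast_sum, Int.cast_mul]
          rw [Finset.sum_comm]
          refine Finset.sum_congr rfl fun i _ => Finset.sum_congr rfl fun v _ => ?_
          ring
      _ = t j.succ.succ := by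
          rw [Finset.sum_eq_single j.succ.succ]
          · rw [H.inv1, if_pos rfl]
            simp
          · intro i _ hi
            rw [H.inv1, if_neg (Ne.symm hi)]
            simp
          · intro h
            exact absurd (mem_univ _) h
      _ = w j := htj j
  rw [← h8, h7]
  rfl

theorem CRD_one (hQ : Stmt_QAD) (hA : Stmt_CRA) {k : ℕ} {c : IQ k → ℤ} (hN : Nsg c)
    {e : Fin (k + 2) → ℤ} (he : FF c e = 0) {M I : Fin (k + 2) → Fin (k + 2) → ℤ} {D : ℕ}
    (H : CRD_H c e M I D) :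
    ∃ κ : Crd k, κ.M = M ∧ κ.I = I ∧ κ.D = D ∧
      (∀ i, κ.g i i = FF c (fun v => M v i.succ.succ)) ∧
      (∀ i j, κ.g i j + κ.g j i = CRD_b c M j.succ.succ i.succ.succ) ∧
      ((∃ j, κ.g j j ≠ 0) → Ok c κ) ∧ dg κ.g ≠ 0 := by
  have hMe : (fun w => M w 1) = e := funext H.Me
  obtain ⟨c0, ll, g, hg1, hg2, hF⟩ := hA k c M (D : ℤ) (by rw [hMe]; exact he)
    (by rw [hMe]; exact H.M0) (by rw [hMe]; exact H.Mj)
  have hdg : dg g ≠ 0 := CRD_nons hQ hN he H g hg2
  refine ⟨⟨M, I, D, c0, ll, g⟩, rfl, rfl, rfl, hg1, hg2, fun hlast => ?_, hdg⟩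
  exact
    { inv1 := H.inv1
      inv2 := H.inv2
      Dpos := H.Dpos
      form := by
        intro R _ t
        have h1 := hF R t
        unfold TT
        rw [h1, Int.cast_natCast]
      nons := hdg
      last := hlast }

/-- The changed basis. -/
theorem CRD_chg {k : ℕ} {c : IQ k → ℤ} {e : Fin (k + 2) → ℤ}
    {M I : Fin (k + 2) → Fin (k + 2) → ℤ} {D : ℕ} (H : CRD_H c e M I D) (i₀ j₀ : Fin k)
    (hij : i₀ ≠ j₀) :
    CRD_H c e (fun v i => M v i + if i = i₀.succ.succ then M v j₀.succ.succ else 0)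
      (fun i w => I i w - if i = j₀.succ.succ then I i₀.succ.succ w else 0) D := by
  have hne : i₀.succ.succ ≠ j₀.succ.succ := by
    intro h
    exact hij (Fin.succ_injective _ (Fin.succ_injective _ h))
  refine ⟨H.Dpos, ?_, ?_, ?_, ?_, ?_⟩
  · intro i j
    have h1 := H.inv1 i j
    have h2 := H.inv1 i j₀.succ.succ
    have h3 := H.inv1 i₀.succ.succ j
    have h4 := H.inv1 i₀.succ.succ j₀.succ.succ
    rw [if_neg hne] at h4
    calc ∑ v, (I i v - if i = j₀.succ.succ then I i₀.succ.succ v else 0) *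
          (M v j + if j = i₀.succ.succ then M v j₀.succ.succ else 0)
        = ∑ v, I i v * M v j + (if j = i₀.succ.succ then ∑ v, I i v * M v j₀.succ.succ else 0) -
          (if i = j₀.succ.succ then ∑ v, I i₀.succ.succ v * M v j else 0) -
          (if i = j₀.succ.succ then (if j = i₀.succ.succ then
            ∑ v, I i₀.succ.succ v * M v j₀.succ.succ else 0) else 0) := by
          split_ifs <;> simp only [← Finset.sum_add_distrib, ← Finset.sum_sub_distrib, add_zero,
            sub_zero] <;> refine Finset.sum_congr rfl fun v _ => ?_ <;> ring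
      _ = if i = j then 1 else 0 := by
          rw [h1, h2, h3, h4]
          by_cases hi : i = j₀.succ.succ
          · by_cases hj : j = i₀.succ.succ
            · subst hi hj
              simp
            · have hj' : i₀.succ.succ ≠ j := fun h => hj h.symm
              simp [hi, hj, hj']
          · by_cases hj : j = i₀.succ.succ
            · simp [hi]
            · simp [hi, hj]
  · intro v w
    have h1 := H.inv2 v w
    have h5 : ∑ i, (M v i + if i = i₀.succ.succ then M v j₀.succ.succ else 0) *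
        (I i w - if i = j₀.succ.succ then I i₀.succ.succ w else 0) =
        ∑ i, M v i * I i w + ∑ i, (if i = i₀.succ.succ then M v j₀.succ.succ * I i w else 0) -
        ∑ i, (if i = j₀.succ.succ then M v i * I i₀.succ.succ w else 0) -
        ∑ i, (if i = i₀.succ.succ then (if i = j₀.succ.succ then
          M v j₀.succ.succ * I i₀.succ.succ w else 0) else 0) := by
      simp only [← Finset.sum_add_distrib, ← Finset.sum_sub_distrib]
      refine Finset.sum_congr rfl fun i _ => ?_
      split_ifs <;> ring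
    rw [h5, h1, Finset.sum_ite_eq' univ i₀.succ.succ, Finset.sum_ite_eq' univ j₀.succ.succ,
      Finset.sum_ite_eq' univ i₀.succ.succ, if_pos (mem_univ _), if_pos (mem_univ _),
      if_pos (mem_univ _), if_neg hne]
    ring
  · intro v
    have h6 : (1 : Fin (k + 2)) ≠ i₀.succ.succ := by
      intro h
      have h7 : (1 : Fin (k + 2)) = (0 : Fin (k + 1)).succ := rfl
      rw [h7] at h
      exact absurd (Fin.succ_injective _ h) (Fin.succ_ne_zero i₀).symm
    show M v 1 + (if (1 : Fin (k + 2)) = i₀.succ.succ then M v j₀.succ.succ else 0) = e v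
    rw [if_neg h6, add_zero]
    exact H.Me v
  · have h6 : (0 : Fin (k + 2)) ≠ i₀.succ.succ := (Fin.succ_ne_zero _).symm
    show ∑ v, (M v 0 + if (0 : Fin (k + 2)) = i₀.succ.succ then M v j₀.succ.succ else 0) *
      DD c e v = D
    simp only [if_neg h6, add_zero]
    exact H.M0
  · intro j
    show ∑ v, (M v j.succ.succ + if j.succ.succ = i₀.succ.succ then M v j₀.succ.succ else 0) *
      DD c e v = 0
    by_cases h : j.succ.succ = i₀.succ.succ
    · simp only [if_pos h, add_mul, Finset.sum_add_distrib, H.Mj, add_zero]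
    · simp only [if_neg h, add_zero, H.Mj]

/-- The Gram matrix. -/
def CRD_G {k : ℕ} (c : IQ k → ℤ) : Matrix (Fin (k + 2)) (Fin (k + 2)) ℤ :=
  Matrix.of fun v w => DD c (Pi.single w 1) v

theorem CRD_Gx (hQ : Stmt_QAD) {R : Type} [CommRing R] {k : ℕ} (c : IQ k → ℤ)
    (x : Fin (k + 2) → R) (v : Fin (k + 2)) :
    DD (fun s => (c s : R)) x v = ∑ w, x w * ((CRD_G c v w : ℤ) : R) := by
  have h1 : x = fun u => ∑ w ∈ univ, x w * (((Pi.single w 1 : Fin (k + 2) → ℤ) u : ℤ) : R) := by
    funext u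
    rw [Finset.sum_eq_single u]
    · rw [Pi.single_eq_same]
      simp
    · intro w _ hw
      rw [Pi.single_eq_of_ne (Ne.symm hw)]
      simp
    · intro h
      exact absurd (mem_univ u) h
  conv_lhs => rw [h1]
  rw [CRD_lin hQ (fun s => (c s : R)) univ x
    (fun w u => (((Pi.single w 1 : Fin (k + 2) → ℤ) u : ℤ) : R)) v]
  refine Finset.sum_congr rfl fun w _ => ?_
  rw [CRD_cast]
  rfl

theorem CRD_detG (hQ : Stmt_QAD) {k : ℕ} {c : IQ k → ℤ} (hN : Nsg c) : (CRD_G c).det ≠ 0 := by
  intro h0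
  have hdet : ((Int.castRingHom ℚ).mapMatrix (CRD_G c)).det = 0 := by
    rw [← RingHom.map_det, h0, map_zero]
  obtain ⟨x, hx, hG⟩ := Matrix.exists_mulVec_eq_zero_iff.2 hdet
  apply hx
  apply hN
  intro v
  rw [CRD_Gx hQ]
  have h1 := congrFun hG v
  have h2 : ∑ w, ((Int.castRingHom ℚ).mapMatrix (CRD_G c)) v w * x w = 0 := h1
  rw [← h2]
  refine Finset.sum_congr rfl fun w _ => ?_
  rw [mul_comm]
  rfl

theorem CRD_dvd (hQ : Stmt_QAD) {k : ℕ} {c : IQ k → ℤ} {e : Fin (k + 2) → ℤ} (he : Prm e)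
    {D : ℤ} (hD : ∀ v, D ∣ DD c e v) : D ∣ (CRD_G c).det := by
  have h1 : ∀ v, DD c e v = ((CRD_G c).mulVec e) v := by
    intro v
    have h2 := CRD_Gx hQ c e v
    simp only [Int.cast_id] at h2
    rw [h2]
    show _ = ∑ w, CRD_G c v w * e w
    exact Finset.sum_congr rfl fun w _ => mul_comm _ _
  have h3 : ∀ v, D ∣ (CRD_G c).det * e v := by
    intro v
    have h4 : ((CRD_G c).adjugate.mulVec ((CRD_G c).mulVec e)) v = (CRD_G c).det * e v := by
      rw [Matrix.mulVec_mulVec, Matrix.adjugate_mul, Matrix.smul_mulVec, Matrix.one_mulVec]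
      rfl
    rw [← h4]
    show D ∣ ∑ w, (CRD_G c).adjugate v w * ((CRD_G c).mulVec e) w
    refine Finset.dvd_sum fun w _ => ?_
    rw [← h1]
    exact Dvd.dvd.mul_left (hD w) _
  obtain ⟨b, hb⟩ := he
  have h5 : (CRD_G c).det = ∑ v, b v * ((CRD_G c).det * e v) := by
    calc (CRD_G c).det = (CRD_G c).det * ∑ v, b v * e v := by rw [hb, mul_one]
      _ = ∑ v, b v * ((CRD_G c).det * e v) := by
          rw [Finset.mul_sum]
          refine Finset.sum_congr rfl fun v _ => ?_
          ring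
  rw [h5]
  exact Finset.dvd_sum fun v _ => Dvd.dvd.mul_left (h3 v) _

theorem p_CRD (hQ : Stmt_QAD) (hB : Stmt_BAS) (hA : Stmt_CRA) : Stmt_CRD := by
  intro k c hk hN
  refine ⟨(CRD_G c).det.natAbs, ?_⟩
  intro e he hF
  have hl : (fun v => DD c e v) ≠ 0 := by
    intro h0
    have h1 : ∀ v, DD (fun s => (c s : ℚ)) (fun v => (e v : ℚ)) v = 0 := by
      intro v
      have h2 : DD c e v = 0 := congrFun h0 v
      rw [CRD_cast, h2, Int.cast_zero]
    have h3 := hN _ h1
    obtain ⟨b, hb⟩ := he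
    have h4 : ∀ v, e v = 0 := by
      intro v
      have h5 : ((e v : ℤ) : ℚ) = 0 := congrFun h3 v
      exact_mod_cast h5
    rw [Finset.sum_eq_zero fun v _ => by rw [h4 v, mul_zero]] at hb
    exact zero_ne_one hb
  have hle : ∑ v, DD c e v * e v = 0 := by
    have h1 := (hQ ℤ k c e e 0).2.2.2.2.2
    rw [hF, mul_zero] at h1
    rw [← h1]
    exact Finset.sum_congr rfl fun v _ => mul_comm _ _
  obtain ⟨M, I, D, hD, hinv1, hinv2, hMe, hM0, hMj⟩ := hB k e (fun v => DD c e v) he hl hle
  have H : CRD_H c e M I D :=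
    { Dpos := hD
      inv1 := hinv1
      inv2 := hinv2
      Me := hMe
      M0 := by
        rw [← hM0]
        exact Finset.sum_congr rfl fun v _ => mul_comm _ _
      Mj := by
        intro j
        rw [← hMj j]
        exact Finset.sum_congr rfl fun v _ => mul_comm _ _ }
  -- every basis with the hypotheses is good
  have key : ∀ (M' I' : Fin (k + 2) → Fin (k + 2) → ℤ) (D' : ℕ), CRD_H c e M' I' D' →
      (∀ v, (D' : ℤ) * I' 0 v = DD c e v) ∧ ∀ p : ℕ, p.Prime → p ∣ D' →
        p ≤ (CRD_G c).det.natAbs := by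
    intro M' I' D' H'
    have h1 : ∀ v, (D' : ℤ) * I' 0 v = DD c e v := by
      intro v
      have h2 : ∀ j, ∑ v, ((M' v j : ℤ) : ℤ) * ((D' : ℤ) * I' 0 v - DD c e v) = 0 := by
        intro j
        have h3 : ∑ v, M' v j * ((D' : ℤ) * I' 0 v - DD c e v) =
            (D' : ℤ) * ∑ v, I' 0 v * M' v j - ∑ v, M' v j * DD c e v := by
          rw [Finset.mul_sum, ← Finset.sum_sub_distrib]
          refine Finset.sum_congr rfl fun v _ => ?_
          ring
        rw [h3, H'.inv1]
        refine Fin.cases ?_ (fun j => ?_) j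
        · rw [H'.M0]
          simp
        · refine Fin.cases ?_ (fun i => ?_) j
          · have h5 : ((0 : Fin (k + 1)).succ : Fin (k + 2)) = 1 := rfl
            rw [h5]
            have h6 : ∑ v, M' v 1 * DD c e v = 0 := by
              rw [← hle]
              refine Finset.sum_congr rfl fun v _ => ?_
              rw [H'.Me v, mul_comm]
            have h8 : (0 : Fin (k + 2)) ≠ 1 := Fin.zero_ne_one
            rw [h6, if_neg h8]
            simp
          · rw [H'.Mj i, if_neg (Fin.succ_ne_zero _).symm]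
            simp
      have h7 : (D' : ℤ) * I' 0 v - DD c e v = 0 :=
        CRD_inv (R := ℤ) H'.inv2 (fun v => (D' : ℤ) * I' 0 v - DD c e v)
          (fun j => by simpa only [Int.cast_id] using h2 j) v
      omega
    refine ⟨h1, fun p hp hpD => ?_⟩
    have h2 : (D' : ℤ) ∣ (CRD_G c).det := CRD_dvd hQ he fun v => ⟨I' 0 v, (h1 v).symm⟩
    have h3 : D' ≤ (CRD_G c).det.natAbs := by
      apply Nat.le_of_dvd (Int.natAbs_pos.2 (CRD_detG hQ hN))
      exact Int.natCast_dvd.1 h2
    exact (Nat.le_of_dvd H'.Dpos hpD).trans h3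
  obtain ⟨κ, h1, h2, h3, h4, h5, h6, h7⟩ := CRD_one hQ hA hN hF H
  by_cases hlast : ∃ j, κ.g j j ≠ 0
  · refine ⟨κ, h6 hlast, ?_, ?_⟩
    · rw [h3, h2]
      exact (key M I D H).1
    · rw [h3]
      exact (key M I D H).2
  · push Not at hlast
    obtain ⟨i₀, j₀, hij⟩ : ∃ i j, κ.g i j + κ.g j i ≠ 0 := by
      by_contra hcon
      push Not at hcon
      apply h7
      unfold dg
      have h8 : (Matrix.of fun i j => κ.g i j + κ.g j i) = (0 : Matrix (Fin k) (Fin k) ℤ) := by
        ext i j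
        exact hcon i j
      rw [h8]
      have : Nonempty (Fin k) := ⟨⟨0, hk⟩⟩
      exact Matrix.det_zero
    have hne : i₀ ≠ j₀ := by
      intro h
      subst h
      rw [hlast i₀] at hij
      exact hij (by simp)
    have H' := CRD_chg H i₀ j₀ hne
    obtain ⟨κ', h1', h2', h3', h4', -, h6', -⟩ := CRD_one hQ hA hN hF H'
    have hlast' : ∃ j, κ'.g j j ≠ 0 := by
      refine ⟨i₀, ?_⟩
      rw [h4']
      simp only [if_pos]
      have h9 := (hQ ℤ k c (fun v => M v i₀.succ.succ) (fun v => M v j₀.succ.succ) 0).1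
      rw [h9, ← h4 i₀, ← h4 j₀, hlast, hlast]
      have h10 := h5 i₀ j₀
      unfold CRD_b at h10
      rw [← h10]
      simpa using hij
    refine ⟨κ', h6' hlast', ?_, ?_⟩
    · rw [h3', h2']
      exact (key _ _ D H').1
    · rw [h3']
      exact (key _ _ D H').2

end Pool.FQ
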