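import Pool.Agent.Work.MP_9fb703_fq.Interface1
import Pool.Agent.Work.MP_a19274_gr.Quad

/-! # THEOREM FQ, block QAD: quadratic forms in several variables -/

set_option autoImplicit false

namespace Pool.FQ

open Finset
open Pool.GE

theorem QAD_mv1 {m : ℕ} {R : Type} [CommRing R] (i : Fin m) (x : Fin m → R) :
    mv (Pi.single i 1 : Fin m → ℕ) x = x i := by
  unfold mv
  rw [Finset.prod_eq_single_of_mem _ (mem_univ i) (fun v _ hv => by
      rw [Pi.single_eq_of_ne hv, pow_zero]), Pi.single_eq_same, pow_one]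

theorem QAD_dm {m : ℕ} {R : Type} [CommRing R] (i j : Fin m) (x : Fin m → R) (v : Fin m) :
    dm (Pi.single i 1 + Pi.single j 1 : Fin m → ℕ) x v =
      (if v = i then x j else 0) + (if v = j then x i else 0) := by
  unfold dm
  by_cases hi : v = i
  · subst hi
    have h1 : (Pi.single v 1 + Pi.single j 1 : Fin m → ℕ) - Pi.single v 1 = Pi.single j 1 := by
      funext w; simp
    rw [h1, QAD_mv1]
    by_cases hj : v = j
    · subst hj
      simp
      ring
    · simp [hj]
  · by_cases hj : v = j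
    · subst hj
      have h1 : (Pi.single i 1 + Pi.single v 1 : Fin m → ℕ) - Pi.single v 1 = Pi.single i 1 := by
        funext w; simp
      rw [h1, QAD_mv1]
      simp [hi]
    · simp [hi, hj]

theorem QAD_key {k : ℕ} (s : IQ k) : ∃ i j : Fin (k + 2),
    (∀ (R : Type) [CommRing R] (x : Fin (k + 2) → R), mv s.1 x = x i * x j) ∧
    (∀ (R : Type) [CommRing R] (x : Fin (k + 2) → R) (v : Fin (k + 2)), dm s.1 x v =
      (if v = i then x j else 0) + (if v = j then x i else 0)) := by
  obtain ⟨q, rfl⟩ := (Pool.GR.Quad_equiv (k + 2)).surjective s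
  refine ⟨q.1.1, q.1.2, fun R _ x => Pool.GR.Quad_mv q x, fun R _ x v => ?_⟩
  exact QAD_dm q.1.1 q.1.2 x v

theorem QAD_pair {k : ℕ} {R : Type} [CommRing R] (i j : Fin (k + 2))
    (x y : Fin (k + 2) → R) :
    ∑ v, y v * ((if v = i then x j else 0) + (if v = j then x i else 0)) =
      y i * x j + y j * x i := by
  simp [mul_add, Finset.sum_add_distrib]

theorem QAD_DD {k : ℕ} {R : Type} [CommRing R] (a : IQ k → R) (x y : Fin (k + 2) → R) :
    ∑ v, y v * DD a x v = ∑ s, a s * ∑ v, y v * dm s.1 x v := by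
  unfold DD
  simp only [Finset.mul_sum]
  rw [Finset.sum_comm]
  refine Finset.sum_congr rfl fun s _ => Finset.sum_congr rfl fun v _ => ?_
  ring

theorem p_QAD : Stmt_QAD := by
  intro R _ k a x y r
  refine ⟨?_, ?_, ?_, ?_, ?_, ?_⟩
  · rw [QAD_DD]
    unfold FF
    rw [← Finset.sum_add_distrib, ← Finset.sum_add_distrib]
    refine Finset.sum_congr rfl fun s _ => ?_
    obtain ⟨i, j, h1, h2⟩ := QAD_key s
    simp only [h1, h2, QAD_pair]
    ring
  · unfold FF
    rw [Finset.mul_sum]
    refine Finset.sum_congr rfl fun s _ => ?_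
    obtain ⟨i, j, h1, h2⟩ := QAD_key s
    simp only [h1]
    ring
  · intro v
    unfold DD
    rw [← Finset.sum_add_distrib]
    refine Finset.sum_congr rfl fun s _ => ?_
    obtain ⟨i, j, h1, h2⟩ := QAD_key s
    simp only [h2]
    split_ifs <;> ring
  · intro v
    unfold DD
    rw [Finset.mul_sum]
    refine Finset.sum_congr rfl fun s _ => ?_
    obtain ⟨i, j, h1, h2⟩ := QAD_key s
    simp only [h2]
    split_ifs <;> ring
  · rw [QAD_DD, QAD_DD]
    refine Finset.sum_congr rfl fun s _ => ?_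
    obtain ⟨i, j, h1, h2⟩ := QAD_key s
    simp only [h2, QAD_pair]
    ring
  · rw [QAD_DD]
    unfold FF
    rw [Finset.mul_sum]
    refine Finset.sum_congr rfl fun s _ => ?_
    obtain ⟨i, j, h1, h2⟩ := QAD_key s
    simp only [h1, h2, QAD_pair]
    ring

end Pool.FQ
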