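import Pool.Agent.Work.MP_9fb703_fq.Interface2
import Pool.Agent.Work.MP_9fb703_fq.B_QAD

/-! # THEOREM FQ, block FNQ: all coordinate systems (helper89) -/

set_option autoImplicit false

namespace Pool.FQ

open Finset
open Pool.HPQ (Fw Lam Kw fl rd cs Ww)
open Pool.CB (VV Sol PSN PH lin dl)
open Pool.GE
open Pool.GR (SingPr)

theorem FNQ_lb {ι : Type*} (S : Finset ι) (g : ι → ℝ) (h : ∀ i ∈ S, 0 < g i) :
    ∃ c : ℝ, 0 < c ∧ ∀ i ∈ S, c ≤ g i := by
  classical
  induction S using Finset.induction_on with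
  | empty => exact ⟨1, one_pos, by simp⟩
  | insert a S ha ih =>
    obtain ⟨c, hc, h1⟩ := ih fun i hi => h i (mem_insert_of_mem hi)
    refine ⟨min c (g a), lt_min hc (h a (mem_insert_self _ _)), fun i hi => ?_⟩
    rcases mem_insert.1 hi with rfl | hi
    · exact min_le_right _ _
    · exact (min_le_left _ _).trans (h1 i hi)

theorem FNQ_FF {R : Type} [CommRing R] {k : ℕ} (a : IQ k → R) (x : Fin (k + 2) → R) :
    FF a (fun v => -x v) = FF a x := by
  have h := (p_QAD R k a x x (-1)).2.1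
  have h1 : (fun v => -1 * x v) = fun v => -x v := funext fun v => by ring
  rw [h1] at h
  rw [h]
  ring

theorem FNQ_pt {R : Type} [CommRing R] {k : ℕ} (M : Fin (k + 2) → Fin (k + 2) → ℤ)
    (x : Fin (k + 2) → R) (v : Fin (k + 2)) : pt M (fun v => -x v) v = -pt M x v := by
  unfold pt
  rw [← Finset.sum_neg_distrib]
  exact Finset.sum_congr rfl fun i _ => by ring

/-- the conclusion for the opposite zeros -/
theorem FNQ_conc {k : ℕ} {c a : IQ k → ℤ} {N P f A : ℕ} {cst : ℝ}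
    {y : Fin (k + 2) → ℝ} {M : (p : ℕ) → [Fact p.Prime] → Fin (k + 2) → ℤ_[p]}
    (H : Conc c a N P f A cst (fun v => -y v) (fun p _ v => -M p v)) :
    Conc c a N P f A cst y M := by
  classical
  obtain ⟨S, hS, h1⟩ := H
  refine ⟨S.image fun x v => -x v, ?_, fun x hx => ?_⟩
  · rw [Finset.card_image_of_injective]
    · exact hS
    · intro x y hxy
      funext v
      have := congrFun hxy v
      simpa using this
  · obtain ⟨z, hz, rfl⟩ := mem_image.1 hx
    obtain ⟨⟨b, hb⟩, h2, h3, h4, ⟨μ, hμ, h5⟩, h6⟩ := h1 z hz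
    refine ⟨⟨fun v => -b v, ?_⟩, ?_, ?_, ?_, ⟨μ, hμ, ?_⟩, ?_⟩
    · rw [← hb]
      exact Finset.sum_congr rfl fun v _ => by ring
    · rw [FNQ_FF, h2]
    · rw [FNQ_FF, h3]
    · intro v
      have := h4 v
      push_cast
      rwa [abs_neg]
    · intro v
      have := h5 v
      push_cast
      rw [← abs_neg]
      have e : -(μ * -(z v : ℝ) - y v) = μ * (z v : ℝ) - -y v := by ring
      rwa [e]
    · intro p _ hp v
      have := h6 p hp v
      push_cast
      rw [← norm_neg]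
      have e : -(-(z v : ℤ_[p]) - M p v) = (z v : ℤ_[p]) - -M p v := by ring
      rwa [e]

/-- the conclusion with smaller parameters -/
theorem FNQ_mono {k : ℕ} {c a : IQ k → ℤ} {N P f A : ℕ} {cst cst' : ℝ}
    {y : Fin (k + 2) → ℝ} {M : (p : ℕ) → [Fact p.Prime] → Fin (k + 2) → ℤ_[p]}
    (h : cst ≤ cst') (hP : N ≤ P) (hf : N ≤ f) (H : Conc c a N P f A cst' y M) :
    Conc c a N N N A cst y M := by
  obtain ⟨S, hS, h1⟩ := H
  refine ⟨S, (mul_le_mul_of_nonneg_right h (Real.log_natCast_nonneg A)).trans hS,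
    fun x hx => ?_⟩
  obtain ⟨h2, h3, h4, h5, h6, h7⟩ := h1 x hx
  refine ⟨h2, h3, h4, h5, h6, fun p hF hp v => ?_⟩
  refine (h7 p (hp.trans hP) v).trans ?_
  have hp1 : (1 : ℝ) ≤ p := by exact_mod_cast (Fact.out : p.Prime).one_lt.le
  exact zpow_le_zpow_right₀ hp1 (by omega)

theorem FNQ_card {α σ : Type*} [DecidableEq α] [Fintype σ] (B : Finset α)
    (p : α → Prop) (u : σ → α → Prop) [DecidablePred p]
    [∀ s, DecidablePred (u s)] (h : ∀ a ∈ B, p a → ∃ s, u s a) :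
    (B.filter p).card ≤ ∑ s, (B.filter (u s)).card := by
  have h1 : B.filter p ⊆ univ.biUnion fun s => B.filter (u s) := by
    intro a ha
    rw [mem_filter] at ha
    obtain ⟨s, h2⟩ := h a ha.1 ha.2
    exact mem_biUnion.2 ⟨s, mem_univ _, mem_filter.2 ⟨ha.1, h2⟩⟩
  exact (card_le_card h1).trans card_biUnion_le

/-- the choice of `P` -/
theorem FNQ_P (N P₁ k : ℕ) (C ε : ℝ) (hC : 0 < C) (hε : 0 < ε) :
    ∃ P : ℕ, N ≤ P ∧ P₁ ≤ P ∧ 1 ≤ P ∧
      ((k : ℝ) + 2) * ((P : ℝ) + 2) * (C / (P : ℝ) ^ 2) ≤ ε / 2 := by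
  obtain ⟨n, hn⟩ := exists_nat_gt (6 * ((k : ℝ) + 2) * C / ε)
  refine ⟨max (max N P₁) (max 1 n), (le_max_left _ _).trans (le_max_left _ _),
    (le_max_right _ _).trans (le_max_left _ _), (le_max_left _ _).trans (le_max_right _ _), ?_⟩
  set P := max (max N P₁) (max 1 n) with hP
  have h1 : (1 : ℝ) ≤ P := by
    exact_mod_cast (le_max_left 1 n).trans (le_max_right (max N P₁) (max 1 n))
  have h2 : (n : ℝ) ≤ P := by
    exact_mod_cast (le_max_right 1 n).trans (le_max_right (max N P₁) (max 1 n))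
  have h3 : 6 * ((k : ℝ) + 2) * C / ε ≤ P := hn.le.trans h2
  have h4 : 6 * ((k : ℝ) + 2) * C ≤ P * ε := by rwa [div_le_iff₀ hε] at h3
  have hk : (0 : ℝ) < (k : ℝ) + 2 := by positivity
  have hP0 : (0 : ℝ) < P := by linarith
  rw [← mul_div_assoc, div_le_iff₀ (by positivity)]
  have h5 : (P : ℝ) + 2 ≤ 3 * P := by linarith
  calc ((k : ℝ) + 2) * ((P : ℝ) + 2) * C ≤ ((k : ℝ) + 2) * (3 * P) * C := by gcongr
    _ = (6 * ((k : ℝ) + 2) * C) * P / 2 := by ring
    _ ≤ (P * ε) * P / 2 := by gcongr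
    _ = ε / 2 * (P : ℝ) ^ 2 := by ring

open Classical in
theorem p_FNQ (hLST : Stmt_LST) (hMNQ : Stmt_MNQ) : Stmt_FNQ := by
  intro k c N ε hk hN hI hN1 hε
  obtain ⟨C, hC, hM⟩ := hMNQ k hk
  obtain ⟨P₁, hL⟩ := hLST k c (by omega) hN hI
  obtain ⟨P, hNP, hP₁, hP1, hPC⟩ := FNQ_P N P₁ k C ε (by linarith) hε
  obtain ⟨n, κ, c₀, V, hn, hc₀, hOk, hD, hgood⟩ := hL P
  have hW := fun i : Fin n => hM c (κ i) P V (max (V + 1) N) N c₀ (ε / (2 * (n + 1))) hN
    (hOk i) hP1 (lt_of_lt_of_le (Nat.lt_succ_self V) (le_max_left _ _)) hN1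
    (fun p hp hpD => (hD i p hp hpD).trans hP₁) hc₀ (by positivity)
  choose cst A₀ hcst hA using hW
  obtain ⟨cs0, hcs0, hcs⟩ := FNQ_lb univ cst fun s _ => hcst s
  refine ⟨cs0, P, univ.sup A₀, hcs0, hNP, fun A hAA => ?_⟩
  have hT := fun i => hA i A ((Finset.le_sup (f := A₀) (mem_univ i)).trans hAA)
  have hcard := FNQ_card (Bx (IQ k) A) (fun a => ¬ WSq c N P A cs0 a)
    (fun i : Fin n => fun a => ¬ WSk c (κ i) N P V (max (V + 1) N) c₀ A (cst i) a) (by
    intro a _ hno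
    by_contra hcon
    push Not at hcon
    apply hno
    intro y hy M hM
    obtain ⟨i, hi, hip⟩ := hgood y hy.1 hy.2.1 M (fun p _ hp => (hM p hp).1)
    have hW := hcon i
    have hf : N ≤ max (V + 1) N := le_max_right _ _
    rcases le_abs.1 hi with h1 | h1
    · exact FNQ_mono (hcs i (mem_univ _)) hNP hf
        (hW y hy h1 M fun p _ hp => ⟨hM p hp, hip p hp⟩)
    · refine FNQ_mono (hcs i (mem_univ _)) hNP hf (FNQ_conc ?_)
      refine hW _ ?_ ?_ _ ?_
      · refine ⟨fun v => ?_, ?_, ?_, ?_⟩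
        · rw [abs_neg]
          exact hy.1 v
        · obtain ⟨v, hv⟩ := hy.2.1
          exact ⟨v, by rwa [abs_neg]⟩
        · rw [FNQ_FF]
          exact hy.2.2.1
        · rw [FNQ_FF]
          exact hy.2.2.2
      · rwa [FNQ_pt]
      · intro p _ hp
        refine ⟨⟨?_, ?_, ?_⟩, ?_⟩
        · obtain ⟨v, hv⟩ := (hM p hp).1
          exact ⟨v, by rwa [norm_neg]⟩
        · rw [FNQ_FF]
          exact (hM p hp).2.1
        · rw [FNQ_FF]
          exact (hM p hp).2.2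
        · rw [FNQ_pt, norm_neg]
          exact hip p hp)
  have hcard' := (Nat.cast_le (α := ℝ)).2 hcard
  rw [Nat.cast_sum] at hcard'
  have hsum := Finset.sum_le_sum fun s (_ : s ∈ (univ : Finset (Fin n))) => hT s
  rw [Finset.sum_const, Finset.card_univ, Fintype.card_fin, nsmul_eq_mul] at hsum
  refine hcard'.trans (hsum.trans ?_)
  have hY : (0 : ℝ) ≤ (2 * (A : ℝ) + 1) ^ Fintype.card (IQ k) := by positivity
  generalize (2 * (A : ℝ) + 1) ^ Fintype.card (IQ k) = Y at hY ⊢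
  rw [← mul_assoc]
  refine mul_le_mul_of_nonneg_right ?_ hY
  have h1 : (n : ℝ) ≤ ((k : ℝ) + 2) * ((P : ℝ) + 2) := by exact_mod_cast hn
  have h2 : (0 : ℝ) ≤ C / (P : ℝ) ^ 2 := by positivity
  have h3 : (n : ℝ) * (C / (P : ℝ) ^ 2) ≤ ε / 2 :=
    (mul_le_mul_of_nonneg_right h1 h2).trans hPC
  have h4 : (n : ℝ) * (ε / (2 * ((n : ℝ) + 1))) ≤ ε / 2 := by
    rw [← mul_div_assoc, div_le_div_iff₀ (by positivity) (by norm_num)]
    nlinarith
  rw [mul_add]
  linarith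

end Pool.FQ
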