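import Pool.Agent.Work.MP_9fb703_fq.Interface1

set_option autoImplicit false

namespace Pool.FQ

open Finset

theorem GAU_qd_add {R : Type} [CommRing R] {k : ℕ} (g : Fin k → Fin k → ℤ) (x y : Fin k → R) :
    qd g (fun i => x i + y i) = qd g x +
      ∑ i, x i * ∑ j, ((g i j : R) + (g j i : R)) * y j + qd g y := by
  have h1 : ∑ i, x i * ∑ j, ((g i j : R) + (g j i : R)) * y j =
      ∑ i, ∑ j, (g i j : R) * (x i * y j) + ∑ i, ∑ j, (g i j : R) * (y i * x j) := by
    have h2 : ∑ i, ∑ j, (g i j : R) * (y i * x j) = ∑ i, ∑ j, (g j i : R) * (y j * x i) :=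
      Finset.sum_comm
    rw [h2, ← Finset.sum_add_distrib]
    refine Finset.sum_congr rfl fun i _ => ?_
    rw [Finset.mul_sum, ← Finset.sum_add_distrib]
    refine Finset.sum_congr rfl fun j _ => ?_
    ring
  rw [h1]
  unfold qd
  rw [← Finset.sum_add_distrib, ← Finset.sum_add_distrib, ← Finset.sum_add_distrib]
  refine Finset.sum_congr rfl fun i _ => ?_
  rw [← Finset.sum_add_distrib, ← Finset.sum_add_distrib, ← Finset.sum_add_distrib]
  refine Finset.sum_congr rfl fun j _ => ?_
  ring

theorem GAU_qd_smul {R : Type} [CommRing R] {k : ℕ} (g : Fin k → Fin k → ℤ) (c : R)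
    (x : Fin k → R) : qd g (fun i => c * x i) = c ^ 2 * qd g x := by
  unfold qd
  rw [Finset.mul_sum]
  refine Finset.sum_congr rfl fun i _ => ?_
  rw [Finset.mul_sum]
  refine Finset.sum_congr rfl fun j _ => ?_
  ring

/-- orthogonality -/
theorem GAU_orth {k n : ℕ} [Fact n.Prime] (b : Fin k → ZMod n) :
    (∑ w : Fin k → ZMod n, (ZMod.stdAddChar (∑ i, w i * b i) : ℂ)) =
      if b = 0 then ((n : ℂ) ^ k) else 0 := by
  classical
  by_cases hb : b = 0
  · rw [if_pos hb, hb]
    simp [ZMod.card]
  · rw [if_neg hb]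
    let f : (Fin k → ZMod n) →+ ZMod n :=
      { toFun := fun w => ∑ i, w i * b i
        map_zero' := by simp
        map_add' := fun x y => by
          rw [← Finset.sum_add_distrib]
          refine Finset.sum_congr rfl fun i _ => ?_
          rw [Pi.add_apply, add_mul] }
    let ψ : AddChar (Fin k → ZMod n) ℂ := (ZMod.stdAddChar (N := n)).compAddMonoidHom f
    have hne : ψ ≠ 1 := by
      obtain ⟨j, hj⟩ : ∃ j, b j ≠ 0 := by
        by_contra hcon
        push Not at hcon
        exact hb (funext hcon)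
      intro h1
      have h2 : ψ (Pi.single j (b j)⁻¹) = 1 := by rw [h1]; rfl
      have h3 : f (Pi.single j (b j)⁻¹) = 1 := by
        show ∑ i, (Pi.single j (b j)⁻¹ : Fin k → ZMod n) i * b i = 1
        rw [Finset.sum_eq_single j]
        · rw [Pi.single_eq_same, inv_mul_cancel₀ hj]
        · intro i _ hi
          rw [Pi.single_eq_of_ne hi, zero_mul]
        · intro h; exact absurd (Finset.mem_univ _) h
      have h4 : ZMod.stdAddChar (N := n) (f (Pi.single j (b j)⁻¹)) = 1 := h2
      rw [h3, ← AddChar.map_zero_eq_one (ZMod.stdAddChar (N := n))] at h4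
      exact one_ne_zero (ZMod.injective_stdAddChar h4)
    exact AddChar.sum_eq_zero_of_ne_one hne

theorem p_GAU : Stmt_GAU := by
  classical
  intro k g n _ hdet g' ζ t h hg' ht
  have hg'' : (g' : ZMod n) ≠ 0 := fun h0 => hg' ((ZMod.intCast_zmod_eq_zero_iff_dvd g' n).1 h0)
  set F : (Fin k → ZMod n) → ZMod n := fun z => t * qd g (fun j => (ζ j : ZMod n) +
      (g' : ZMod n) * z j) + ∑ j, h j * z j with hF
  set L : (Fin k → ZMod n) → Fin k → ZMod n := fun u i =>
    ∑ j, ((g i j : ZMod n) + (g j i : ZMod n)) * u j with hL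
  set b : (Fin k → ZMod n) → Fin k → ZMod n := fun u i => t * (g' : ZMod n) ^ 2 * L u i with hb
  set C : (Fin k → ZMod n) → ZMod n := fun u =>
    t * ((g' : ZMod n) * ∑ i, (ζ i : ZMod n) * L u i + (g' : ZMod n) ^ 2 * qd g u) +
      ∑ j, h j * u j with hC
  have hdiff : ∀ w u, F (w + u) + -F w = C u + ∑ i, w i * b u i := by
    intro w u
    have e1 : qd g (fun j => (ζ j : ZMod n) + (g' : ZMod n) * (w + u) j) =
        qd g (fun j => (ζ j : ZMod n) + (g' : ZMod n) * w j) +
          ∑ i, ((ζ i : ZMod n) + (g' : ZMod n) * w i) *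
            ∑ j, ((g i j : ZMod n) + (g j i : ZMod n)) * ((g' : ZMod n) * u j) +
          (g' : ZMod n) ^ 2 * qd g u := by
      rw [← GAU_qd_smul, ← GAU_qd_add]
      congr 1
      ext j
      rw [Pi.add_apply]
      ring
    have e2 : ∑ i, ((ζ i : ZMod n) + (g' : ZMod n) * w i) *
            ∑ j, ((g i j : ZMod n) + (g j i : ZMod n)) * ((g' : ZMod n) * u j) =
        (g' : ZMod n) * ∑ i, (ζ i : ZMod n) * L u i + (g' : ZMod n) ^ 2 * ∑ i, w i * L u i := by
      rw [Finset.mul_sum, Finset.mul_sum, ← Finset.sum_add_distrib]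
      refine Finset.sum_congr rfl fun i _ => ?_
      have e3 : ∑ j, ((g i j : ZMod n) + (g j i : ZMod n)) * ((g' : ZMod n) * u j) =
          (g' : ZMod n) * L u i := by
        rw [hL, Finset.mul_sum]
        refine Finset.sum_congr rfl fun j _ => ?_
        ring
      rw [e3]
      ring
    have e4 : ∑ j, h j * (w + u) j = ∑ j, h j * w j + ∑ j, h j * u j := by
      rw [← Finset.sum_add_distrib]
      refine Finset.sum_congr rfl fun j _ => ?_
      rw [Pi.add_apply]
      ring
    have e5 : ∑ i, w i * b u i = t * (g' : ZMod n) ^ 2 * ∑ i, w i * L u i := by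
      rw [Finset.mul_sum]
      refine Finset.sum_congr rfl fun i _ => ?_
      rw [hb]
      ring
    rw [e5]
    simp only [hF, hC]
    rw [e1, e2, e4]
    ring
  have hb0 : ∀ u, b u = 0 → u = 0 := by
    intro u hu
    have hL0 : L u = 0 := by
      ext i
      have h1 := congrFun hu i
      rw [hb] at h1
      simp only [Pi.zero_apply] at h1
      rcases mul_eq_zero.1 h1 with h2 | h2
      · exact absurd h2 (mul_ne_zero ht (pow_ne_zero 2 hg''))
      · exact h2
    set A : Matrix (Fin k) (Fin k) (ZMod n) :=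
      (Int.castRingHom (ZMod n)).mapMatrix (Matrix.of fun i j => g i j + g j i) with hA
    have hAdet : A.det ≠ 0 := by
      rw [hA, ← RingHom.map_det]
      intro h0
      exact hdet ((ZMod.intCast_zmod_eq_zero_iff_dvd _ n).1 h0)
    refine Matrix.eq_zero_of_mulVec_eq_zero hAdet ?_
    rw [← hL0]
    ext i
    show ∑ j, A i j * u j = L u i
    refine Finset.sum_congr rfl fun j _ => ?_
    have : A i j = (g i j : ZMod n) + (g j i : ZMod n) := by
      rw [hA]
      simp
    rw [this]
  have key : (∑ z, (ZMod.stdAddChar (F z) : ℂ)) *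
      (starRingEnd ℂ) (∑ z, (ZMod.stdAddChar (F z) : ℂ)) = (n : ℂ) ^ k := by
    rw [map_sum, Finset.mul_sum]
    have e1 : ∀ w : Fin k → ZMod n, (∑ z, (ZMod.stdAddChar (F z) : ℂ)) *
        (starRingEnd ℂ) (ZMod.stdAddChar (F w)) =
        ∑ u, (ZMod.stdAddChar (C u) : ℂ) * ZMod.stdAddChar (∑ i, w i * b u i) := by
      intro w
      rw [Finset.sum_mul, ← Equiv.sum_comp (Equiv.addLeft w)]
      refine Finset.sum_congr rfl fun u _ => ?_
      rw [← AddChar.map_neg_eq_conj, ← AddChar.map_add_eq_mul, ← AddChar.map_add_eq_mul,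
        ← hdiff w u]
      rfl
    rw [Finset.sum_congr rfl (fun w _ => e1 w), Finset.sum_comm]
    have e2 : ∀ u : Fin k → ZMod n,
        ∑ w : Fin k → ZMod n, (ZMod.stdAddChar (C u) : ℂ) * ZMod.stdAddChar (∑ i, w i * b u i) =
        if u = 0 then (n : ℂ) ^ k else 0 := by
      intro u
      rw [← Finset.mul_sum, GAU_orth]
      by_cases hu : u = 0
      · have hbu : b u = 0 := by
          rw [hu]
          ext i
          simp [hb, hL]
        have hCu : C u = 0 := by
          rw [hu]
          simp [hC, hL, qd]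
        rw [if_pos hbu, if_pos hu, hCu, AddChar.map_zero_eq_one, one_mul]
      · rw [if_neg (fun h0 => hu (hb0 u h0)), if_neg hu, mul_zero]
    rw [Finset.sum_congr rfl (fun u _ => e2 u), Finset.sum_ite_eq' Finset.univ (0 : Fin k → ZMod n),
      if_pos (Finset.mem_univ _)]
  rw [Complex.mul_conj, Complex.normSq_eq_norm_sq] at key
  exact_mod_cast key

end Pool.FQ
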