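import Pool.Agent.Work.MP_9fb703_fq.Interface2

/-! # Block GIN (helper94) -/

set_option autoImplicit false

namespace Pool.FQ

open Finset
open Pool.HPQ (Fw Lam Kw fl rd cs Ww)
open Pool.CB (VV Sol PSN PH lin dl)
open Pool.GE
open Pool.GR (SingPr)

theorem GIN_eq (m a b : ℤ) (h : m ∣ a) (e : a = b) : m ∣ b := e ▸ h

theorem GIN_pt {k : ℕ} (M : Fin (k + 2) → Fin (k + 2) → ℤ) (m : ℤ) (t t' : Fin (k + 2) → ℤ)
    (h : ∀ i, m ∣ t i - t' i) (v : Fin (k + 2)) : m ∣ pt M t v - pt M t' v := by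
  unfold pt
  rw [← Finset.sum_sub_distrib]
  refine Finset.dvd_sum fun i _ => ?_
  rw [← mul_sub]
  exact Dvd.dvd.mul_left (h i) _

theorem GIN_tt {k : ℕ} (m x0 x0' x1 : ℤ) (z z' : Fin k → ℤ) (h0 : m ∣ x0 - x0')
    (hz : ∀ j, m ∣ z j - z' j) (i : Fin (k + 2)) : m ∣ tt x0 x1 z i - tt x0' x1 z' i := by
  unfold tt
  refine Fin.cases ?_ (fun i => ?_) i
  · simpa using h0
  · refine Fin.cases ?_ (fun j => ?_) i
    · simp
    · simpa using hz j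

theorem GIN_mul (m a a' b b' : ℤ) (h : m ∣ a - a') (h' : m ∣ b - b') : m ∣ a * b - a' * b' := by
  have : a * b - a' * b' = (a - a') * b + a' * (b - b') := by ring
  rw [this]
  exact dvd_add (Dvd.dvd.mul_right h _) (Dvd.dvd.mul_left h' _)

theorem GIN_TT {k : ℕ} (κ : Crd k) (m x0 x0' : ℤ) (z z' : Fin k → ℤ) (h0 : m ∣ x0 - x0')
    (hz : ∀ j, m ∣ z j - z' j) : m ∣ TT κ x0 z - TT κ x0' z' := by
  unfold TT qd
  have e1 : m ∣ (∑ i, ∑ j, ((κ.g i j : ℤ) : ℤ) * (z i * z j)) -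
      ∑ i, ∑ j, ((κ.g i j : ℤ) : ℤ) * (z' i * z' j) := by
    rw [← Finset.sum_sub_distrib]
    refine Finset.dvd_sum fun i _ => ?_
    rw [← Finset.sum_sub_distrib]
    refine Finset.dvd_sum fun j _ => ?_
    rw [← mul_sub]
    exact Dvd.dvd.mul_left (GIN_mul m _ _ _ _ (hz i) (hz j)) _
  have e2 : m ∣ (∑ j, ((κ.ll j : ℤ) : ℤ) * z j) - ∑ j, ((κ.ll j : ℤ) : ℤ) * z' j := by
    rw [← Finset.sum_sub_distrib]
    refine Finset.dvd_sum fun j _ => ?_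
    rw [← mul_sub]
    exact Dvd.dvd.mul_left (hz j) _
  have e3 := GIN_mul m _ _ _ _ h0 e2
  have e4 : m ∣ x0 ^ 2 - x0' ^ 2 := by
    have : x0 ^ 2 - x0' ^ 2 = (x0 - x0') * (x0 + x0') := by ring
    rw [this]; exact Dvd.dvd.mul_right h0 _
  have e5 : m ∣ ((κ.c0 : ℤ) : ℤ) * x0 ^ 2 - ((κ.c0 : ℤ) : ℤ) * x0' ^ 2 := by
    rw [← mul_sub]; exact Dvd.dvd.mul_left e4 _
  have := dvd_add (dvd_add e1 e3) e5
  refine GIN_eq _ _ _ this ?_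
  simp only [Int.cast_id]
  ring

theorem p_GIN (h1 : Pool.GE.Stmt_CNG) : Stmt_GIN := by
  intro k κ s m₁ W Cf τ a a' n n' z z' hCf ha hn hz ⟨x₁, c1, c2, c3, c4⟩
  have hWm : (W : ℤ) ∣ ((m₁ * W : ℕ) : ℤ) := by
    exact_mod_cast Dvd.intro_left m₁ rfl
  have hsn : ((m₁ * W : ℕ) : ℤ) ∣ s * n - s * n' := by
    rw [← mul_sub]; exact Dvd.dvd.mul_left hn _
  have htt := GIN_tt (k := k) ((m₁ * W : ℕ) : ℤ) (s * n) (s * n') x₁ z z' hsn hz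
  have hpt := GIN_pt κ.M ((m₁ * W : ℕ) : ℤ) _ _ htt
  have hptW : ∀ v, (W : ℤ) ∣ pt κ.M (tt ((s : ℤ) * n) x₁ z) v - pt κ.M (tt ((s : ℤ) * n') x₁ z') v :=
    fun v => hWm.trans (hpt v)
  refine ⟨x₁, ?_, ?_, ?_, ?_⟩
  · have e1 := GIN_TT κ ((m₁ * W : ℕ) : ℤ) (s * n) (s * n') z z' hsn hz
    have e2 : ((m₁ * W : ℕ) : ℤ) ∣ (κ.D : ℤ) * (s * n * x₁) - (κ.D : ℤ) * (s * n' * x₁) := by
      have : (κ.D : ℤ) * (s * n * x₁) - (κ.D : ℤ) * (s * n' * x₁) =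
        (κ.D * x₁) * (s * n - s * n') := by ring
      rw [this]; exact Dvd.dvd.mul_left hsn _
    have e3 := dvd_sub c1 (dvd_add e2 e1)
    exact GIN_eq _ _ _ e3 (by ring)
  · have e := (h1 ℤ (Fin (k + 2)) Unit (fun _ => ()) (fun _ => 2) a a' _ _ (W : ℤ) ha hptW).1
    have e3 := dvd_sub c2 e
    exact GIN_eq _ _ _ e3 (by ring)
  · intro v
    have hC : (Cf : ℤ) ∣ (W : ℤ) := by exact_mod_cast hCf
    have e3 := dvd_sub (c3 v) (hC.trans (hptW v))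
    exact GIN_eq _ _ _ e3 (by ring)
  · intro p hp hpW
    obtain ⟨v, hv⟩ := c4 p hp hpW
    refine ⟨v, fun h => hv ?_⟩
    have hC : (p : ℤ) ∣ (W : ℤ) := by exact_mod_cast hpW
    have e3 := dvd_add h (hC.trans (hptW v))
    exact GIN_eq _ _ _ e3 (by ring)

end Pool.FQ
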