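import Pool.Agent.Work.MP_9fb703_fq.Interface1

/-! # Block GNB: few points have a small linear relation (MP_9fb703, THEOREM FQ) -/

set_option autoImplicit false

namespace Pool.FQ

open Finset
open Pool.HPQ (Fw Lam Kw fl rd cs Ww)
open Pool.CB (VV Sol PSN PH lin dl)
open Pool.GE
open Pool.GR (SingPr)

theorem GNB_sn {τ : Type} [Fintype τ] (x : τ → ℤ) (a : ℕ) :
    sn x ≤ a ↔ ∀ v, (x v).natAbs ≤ a := by
  unfold sn
  simp

/-- The linear form in the new coordinates. -/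
def GNB_l {k : ℕ} (κ : Crd k) (l : Fin (k + 2) → ℤ) (i : Fin (k + 2)) : ℤ :=
  ∑ v, l v * κ.M v i

theorem GNB_split {R : Type} [AddCommMonoid R] {k : ℕ} (f : Fin (k + 2) → R) :
    ∑ i, f i = f 0 + (f 1 + ∑ j : Fin k, f j.succ.succ) := by
  rw [Fin.sum_univ_succ, Fin.sum_univ_succ]
  rfl

theorem GNB_rel (hPTI : Stmt_PTI) {k : ℕ} {c : IQ k → ℤ} {κ : Crd k} (hk : Ok c κ)
    (x l : Fin (k + 2) → ℤ) : ∑ v, l v * x v = ∑ i, GNB_l κ l i * pt κ.I x i := by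
  have h := (hPTI k c κ hk ℤ x).1
  conv_lhs => rw [← h]
  generalize pt κ.I x = t
  unfold pt GNB_l
  simp only [mul_sum, sum_mul]
  rw [sum_comm]
  refine sum_congr rfl fun i _ => sum_congr rfl fun v _ => ?_
  simp only [Int.cast_id]
  ring

theorem GNB_ne {k : ℕ} {c : IQ k → ℤ} {κ : Crd k} (hk : Ok c κ)
    (l : Fin (k + 2) → ℤ) (hl : l ≠ 0) : ∃ i, GNB_l κ l i ≠ 0 := by
  by_contra hcon
  push Not at hcon
  apply hl
  funext w
  have h1 : ∑ v, l v * (∑ i, κ.M v i * κ.I i w) = ∑ i, GNB_l κ l i * κ.I i w := by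
    unfold GNB_l
    simp only [mul_sum, sum_mul]
    rw [sum_comm]
    refine sum_congr rfl fun i _ => sum_congr rfl fun v _ => ?_
    ring
  have h2 : ∑ v, l v * (∑ i, κ.M v i * κ.I i w) = l w := by
    have : ∀ v, l v * (∑ i, κ.M v i * κ.I i w) = if v = w then l v else 0 := by
      intro v
      rw [hk.inv2 v w]
      split_ifs <;> simp
    simp only [this]
    simp
  rw [h2] at h1
  rw [h1]
  simp [hcon]

theorem GNB_key (hPTI : Stmt_PTI) {k : ℕ} {c : IQ k → ℤ} {κ : Crd k} (hk : Ok c κ)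
    (x l : Fin (k + 2) → ℤ) (hx : FF c x = 0) (hl : ∑ v, l v * x v = 0) :
    (-(GNB_l κ l 1)) * qd κ.g (zc (pt κ.I x)) +
      ∑ j, ((κ.D : ℤ) * pt κ.I x 0 * GNB_l κ l j.succ.succ -
        GNB_l κ l 1 * (pt κ.I x 0 * κ.ll j)) * zc (pt κ.I x) j +
      ((κ.D : ℤ) * GNB_l κ l 0 - GNB_l κ l 1 * κ.c0) * (pt κ.I x 0) ^ 2 = 0 := by
  have h2 := (hPTI k c κ hk ℤ x).2.2
  have h1 := GNB_rel hPTI hk x l
  rw [hl, GNB_split] at h1
  have hc : FF (fun s => ((c s : ℤ) : ℤ)) x = FF c x := rfl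
  simp only [Int.cast_id] at h2
  have h2' : (0 : ℤ) = (κ.D : ℤ) * (pt κ.I x 0 * pt κ.I x 1) +
      TT κ (pt κ.I x 0) (zc (pt κ.I x)) := by
    rw [← hx]
    exact h2
  unfold TT at h2'
  simp only [Int.cast_id] at h2'
  have e1 : ∑ j, ((κ.D : ℤ) * pt κ.I x 0 * GNB_l κ l j.succ.succ -
        GNB_l κ l 1 * (pt κ.I x 0 * κ.ll j)) * zc (pt κ.I x) j =
      (κ.D : ℤ) * pt κ.I x 0 * ∑ j : Fin k, GNB_l κ l j.succ.succ * pt κ.I x j.succ.succ -
      GNB_l κ l 1 * (pt κ.I x 0 * ∑ j, κ.ll j * zc (pt κ.I x) j) := by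
    simp only [mul_sum]
    rw [← sum_sub_distrib]
    refine sum_congr rfl fun j _ => ?_
    unfold zc
    ring
  rw [e1]
  linear_combination (-(κ.D : ℤ) * pt κ.I x 0) * h1 + GNB_l κ l 1 * h2'

theorem GNB_dvd (hPTI : Stmt_PTI) {k : ℕ} {c : IQ k → ℤ} {κ : Crd k} (hk : Ok c κ)
    (x : Fin (k + 2) → ℤ) (hx : FF c x = 0) (n : ℤ) (hn : n ∣ pt κ.I x 0) :
    n ∣ qd κ.g (zc (pt κ.I x)) := by
  have h2 := (hPTI k c κ hk ℤ x).2.2
  simp only [Int.cast_id] at h2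
  have h2' : (0 : ℤ) = (κ.D : ℤ) * (pt κ.I x 0 * pt κ.I x 1) +
      TT κ (pt κ.I x 0) (zc (pt κ.I x)) := by
    rw [← hx]
    exact h2
  unfold TT at h2'
  simp only [Int.cast_id] at h2'
  obtain ⟨q, hq⟩ := hn
  refine ⟨-(q * ((κ.D : ℤ) * pt κ.I x 1 + ∑ j, κ.ll j * zc (pt κ.I x) j +
    κ.c0 * pt κ.I x 0)), ?_⟩
  have : qd κ.g (zc (pt κ.I x)) = -(pt κ.I x 0 * ((κ.D : ℤ) * pt κ.I x 1 +
      ∑ j, κ.ll j * zc (pt κ.I x) j + κ.c0 * pt κ.I x 0)) := by
    linear_combination -h2'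
  rw [this]
  conv_lhs => rw [hq]
  conv_rhs => rw [hq]
  ring

theorem GNB_inj (hPTI : Stmt_PTI) {k : ℕ} {c : IQ k → ℤ} {κ : Crd k} (hk : Ok c κ)
    (x y : Fin (k + 2) → ℤ) (hx : FF c x = 0) (hy : FF c y = 0)
    (h0 : pt κ.I x 0 = pt κ.I y 0) (h00 : pt κ.I x 0 ≠ 0)
    (hz : zc (pt κ.I x) = zc (pt κ.I y)) : x = y := by
  have hx2 := (hPTI k c κ hk ℤ x).2.2
  have hy2 := (hPTI k c κ hk ℤ y).2.2
  simp only [Int.cast_id] at hx2 hy2
  have hx3 : (0 : ℤ) = (κ.D : ℤ) * (pt κ.I x 0 * pt κ.I x 1) +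
      TT κ (pt κ.I x 0) (zc (pt κ.I x)) := by
    rw [← hx]
    exact hx2
  have hy3 : (0 : ℤ) = (κ.D : ℤ) * (pt κ.I y 0 * pt κ.I y 1) +
      TT κ (pt κ.I y 0) (zc (pt κ.I y)) := by
    rw [← hy]
    exact hy2
  rw [← h0, ← hz] at hy3
  have hD : (κ.D : ℤ) ≠ 0 := by
    have := hk.Dpos
    exact_mod_cast this.ne'
  have h1 : pt κ.I x 1 = pt κ.I y 1 := by
    have : (κ.D : ℤ) * pt κ.I x 0 * (pt κ.I x 1 - pt κ.I y 1) = 0 := by
      linear_combination hy3 - hx3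
    rcases mul_eq_zero.mp this with h | h
    · exact absurd h (mul_ne_zero hD h00)
    · linarith
  have ht : pt κ.I x = pt κ.I y := by
    funext i
    refine Fin.cases ?_ (fun i => ?_) i
    · exact h0
    · refine Fin.cases ?_ (fun i => ?_) i
      · exact h1
      · exact congrFun hz i
  have e1 := (hPTI k c κ hk ℤ x).1
  have e2 := (hPTI k c κ hk ℤ y).1
  rw [← e1, ← e2, ht]

theorem GNB_zmod (p : ℕ) [Fact p.Prime] (a : ℤ) (ha : a ≠ 0) (h : a.natAbs < p) :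
    (a : ZMod p) ≠ 0 := by
  intro hcon
  rw [ZMod.intCast_zmod_eq_zero_iff_dvd] at hcon
  have := Int.natAbs_dvd_natAbs.mpr hcon
  simp only [Int.natAbs_natCast] at this
  have h2 := Nat.le_of_dvd (Int.natAbs_pos.mpr ha) this
  omega

theorem GNB_qd {k : ℕ} (p : ℕ) (g : Fin k → Fin k → ℤ) (z : Fin k → ℤ) :
    qd g (fun j => (z j : ZMod p)) = ((qd g z : ℤ) : ZMod p) := by
  unfold qd
  push_cast
  simp

open Classical in
theorem GNB_one (hPTI : Stmt_PTI) (hSZQ : Stmt_SZQ) {k : ℕ} {c : IQ k → ℤ} {κ : Crd k}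
    (hk : Ok c κ) (s n p₀ : ℕ) [Fact p₀.Prime] (hs : 1 ≤ s) (hn : n.Prime)
    (l : Fin (k + 2) → ℤ) (hl : l ≠ 0) (hp1 : ∀ i, (GNB_l κ l i).natAbs < p₀)
    (hp2 : ∀ j, (κ.g j j).natAbs < p₀) (hp3 : κ.D < p₀) (hp4 : s < p₀) (hp5 : ¬ p₀ ∣ n)
    (Y : ℝ) (hY : 0 ≤ Y) (A : Finset (Fin (k + 2) → ℤ))
    (hA : ∀ x ∈ A, FF c x = 0 ∧ pt κ.I x 0 = s * n ∧ ∑ v, l v * x v = 0)
    (hB : ∀ (ζ : Fin k → ℤ) (S : Finset (Fin k → ℤ)),
      (∀ z ∈ S, (∃ x ∈ A, z = zc (pt κ.I x)) ∧ ∀ j, (p₀ : ℤ) ∣ z j - ζ j) →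
      (S.card : ℝ) ≤ Y) :
    (A.card : ℝ) ≤ 2 * (p₀ : ℝ) ^ (k - 1) * Y := by
  have hn0 : (n : ℤ) ≠ 0 := by exact_mod_cast hn.pos.ne'
  have hs0 : (s : ℤ) ≠ 0 := by
    have : s ≠ 0 := by omega
    exact_mod_cast this
  rcases A.eq_empty_or_nonempty with hAe | ⟨x₁, hx₁⟩
  · subst hAe
    simp only [card_empty, Nat.cast_zero]
    positivity
  set S : Finset (Fin k → ℤ) := A.image (fun x => zc (pt κ.I x)) with hS
  have hcard : S.card = A.card := by
    rw [hS]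
    refine card_image_of_injOn ?_
    intro x hx y hy hxy
    have hx' := hA x (by simpa using hx)
    have hy' := hA y (by simpa using hy)
    refine GNB_inj hPTI hk x y hx'.1 hy'.1 (by rw [hx'.2.1, hy'.2.1]) ?_ hxy
    rw [hx'.2.1]
    exact mul_ne_zero hs0 hn0
  set red : (Fin k → ℤ) → (Fin k → ZMod p₀) := fun z j => (z j : ZMod p₀) with hred
  -- the image
  set α : ZMod p₀ := ((-(GNB_l κ l 1) : ℤ) : ZMod p₀) with hα
  set lam : Fin k → ZMod p₀ := fun j => (((κ.D : ℤ) * ((s : ℤ) * n) * GNB_l κ l j.succ.succ -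
        GNB_l κ l 1 * (((s : ℤ) * n) * κ.ll j) : ℤ) : ZMod p₀) with hlam
  set β : ZMod p₀ := ((((κ.D : ℤ) * GNB_l κ l 0 - GNB_l κ l 1 * κ.c0) *
    ((s : ℤ) * n) ^ 2 : ℤ) : ZMod p₀) with hβ
  have himg : S.image red ⊆ (univ : Finset (Fin k → ZMod p₀)).filter fun z =>
      α * qd κ.g z + ∑ j, lam j * z j + β = 0 := by
    intro b hb
    rw [mem_image] at hb
    obtain ⟨z, hz, rfl⟩ := hb
    rw [hS, mem_image] at hz
    obtain ⟨x, hx, rfl⟩ := hz
    have hx' := hA x hx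
    rw [mem_filter]
    refine ⟨mem_univ _, ?_⟩
    have hkey := GNB_key hPTI hk x l hx'.1 hx'.2.2
    rw [hx'.2.1] at hkey
    have hkey2 := congrArg (fun u : ℤ => (u : ZMod p₀)) hkey
    simp only [Int.cast_add, Int.cast_mul, Int.cast_sum, Int.cast_zero] at hkey2
    have hq : qd κ.g (red (zc (pt κ.I x))) = ((qd κ.g (zc (pt κ.I x)) : ℤ) : ZMod p₀) :=
      GNB_qd p₀ κ.g _
    rw [hq, hα, hβ]
    simp only [hlam, hred, Int.cast_mul]
    exact hkey2
  have hcond : ((α ≠ 0 ∧ ∃ j, (κ.g j j : ZMod p₀) ≠ 0) ∨ (α = 0 ∧ ∃ j, lam j ≠ 0)) := by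
    by_cases h1 : GNB_l κ l 1 = 0
    · right
      refine ⟨by rw [hα, h1]; simp, ?_⟩
      obtain ⟨i, hi⟩ := GNB_ne hk l hl
      have hex : ∃ j : Fin k, GNB_l κ l j.succ.succ ≠ 0 := by
        by_contra hcon
        push Not at hcon
        have hx' := hA x₁ hx₁
        have hr := GNB_rel hPTI hk x₁ l
        rw [hx'.2.2, GNB_split, h1, hx'.2.1] at hr
        simp only [hcon, zero_mul, sum_const_zero, add_zero] at hr
        have h0 : GNB_l κ l 0 = 0 := by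
          rcases mul_eq_zero.mp hr.symm with h | h
          · exact h
          · exact absurd h (mul_ne_zero hs0 hn0)
        apply hi
        refine Fin.cases ?_ (fun i => ?_) i
        · exact h0
        · refine Fin.cases ?_ (fun i => ?_) i
          · exact h1
          · exact hcon i
      obtain ⟨j, hj⟩ := hex
      refine ⟨j, ?_⟩
      have e : lam j = (κ.D : ZMod p₀) * ((s : ZMod p₀) * (n : ZMod p₀)) *
          ((GNB_l κ l j.succ.succ : ℤ) : ZMod p₀) := by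
        rw [hlam]
        simp only [h1]
        push_cast
        ring
      rw [e]
      have a1 : (κ.D : ZMod p₀) ≠ 0 := by
        have := GNB_zmod p₀ (κ.D : ℤ) (by exact_mod_cast hk.Dpos.ne') (by simpa using hp3)
        simpa using this
      have a2 : (s : ZMod p₀) ≠ 0 := by
        have := GNB_zmod p₀ (s : ℤ) hs0 (by simpa using hp4)
        simpa using this
      have a3 : (n : ZMod p₀) ≠ 0 := by
        intro h
        exact hp5 ((ZMod.natCast_eq_zero_iff n p₀).mp h)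
      have a4 := GNB_zmod p₀ _ hj (hp1 _)
      exact mul_ne_zero (mul_ne_zero a1 (mul_ne_zero a2 a3)) a4
    · left
      refine ⟨?_, ?_⟩
      · rw [hα]
        exact GNB_zmod p₀ _ (neg_ne_zero.mpr h1) (by simpa using hp1 1)
      · obtain ⟨j, hj⟩ := hk.last
        exact ⟨j, GNB_zmod p₀ _ hj (hp2 j)⟩
  have hSZ := hSZQ k p₀ κ.g α β lam hcond
  have hic : (S.image red).card ≤ 2 * p₀ ^ (k - 1) := (card_le_card himg).trans hSZ
  have hsum : S.card = ∑ b ∈ S.image red, (S.filter fun z => red z = b).card :=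
    card_eq_sum_card_image red S
  have hfib : ∀ b ∈ S.image red, ((S.filter fun z => red z = b).card : ℝ) ≤ Y := by
    intro b hb
    rw [mem_image] at hb
    obtain ⟨z₀, hz₀, rfl⟩ := hb
    refine hB z₀ _ fun z hz => ?_
    rw [mem_filter] at hz
    constructor
    · have := hz.1
      rw [hS, mem_image] at this
      obtain ⟨x, hx, hxz⟩ := this
      exact ⟨x, hx, hxz.symm⟩
    · intro j
      have hj := congrFun hz.2 j
      simp only [hred] at hj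
      have := (ZMod.intCast_eq_intCast_iff_dvd_sub _ _ _).mp hj.symm
      exact this
  rw [← hcard, hsum]
  push_cast
  calc ∑ b ∈ S.image red, ((S.filter fun z => red z = b).card : ℝ)
      ≤ ∑ b ∈ S.image red, Y := sum_le_sum hfib
    _ = (S.image red).card * Y := by rw [sum_const, nsmul_eq_mul]
    _ ≤ (2 * (p₀ : ℝ) ^ (k - 1)) * Y := by
        refine mul_le_mul_of_nonneg_right ?_ hY
        exact_mod_cast hic

theorem GNB_asym (K : ℝ) (hK : 0 < K) (m : ℕ) :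
    ∀ᶠ X : ℕ in Filter.atTop, K * Real.log X ^ m ≤ √(X : ℝ) := by
  have h1 := (Real.isLittleO_pow_log_id_atTop (n := 2 * m)).def (c := 1 / K ^ 2) (by positivity)
  have h2' := (tendsto_natCast_atTop_atTop (R := ℝ)).eventually h1
  filter_upwards [h2', Filter.eventually_ge_atTop 1] with X hX hX1
  have hX0 : (0 : ℝ) ≤ X := Nat.cast_nonneg X
  have hL0 : 0 ≤ Real.log (X : ℝ) := Real.log_natCast_nonneg X
  apply Real.le_sqrt_of_sq_le
  simp only [id, Real.norm_eq_abs] at hX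
  rw [abs_of_nonneg (by positivity), abs_of_nonneg hX0] at hX
  have h3 : (K * Real.log (X : ℝ) ^ m) ^ 2 = K ^ 2 * Real.log (X : ℝ) ^ (2 * m) := by
    rw [mul_pow, ← pow_mul, mul_comm m 2]
  rw [h3]
  calc K ^ 2 * Real.log (X : ℝ) ^ (2 * m) ≤ K ^ 2 * (1 / K ^ 2 * X) :=
        mul_le_mul_of_nonneg_left hX (by positivity)
    _ = X := by field_simp

theorem GNB_pow (k : ℕ) (hk : 3 ≤ k) (W X : ℝ) (hW : 0 ≤ W) (hWX : W ≤ X)
    (h3 : W ^ 3 ≤ X ^ 2) : W ^ k ≤ X ^ (k - 1) := by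
  obtain ⟨j, rfl⟩ : ∃ j, k = 3 + j := ⟨k - 3, by omega⟩
  have e : 3 + j - 1 = 2 + j := by omega
  rw [e, pow_add, pow_add]
  exact mul_le_mul h3 (pow_le_pow_left₀ hW hWX j) (by positivity) (by positivity)

theorem GNB_fin (k : ℕ) (hk : 1 ≤ k) (a L p X E F : ℝ) (ha : 1 ≤ a) (hL : 1 ≤ L)
    (hLa : L ≤ a) (hp : a ^ (k + 4) ≤ p) (hX : 0 ≤ X) (hE : 0 ≤ E) (hF : 0 ≤ F) :
    (3 * a) ^ (k + 2) * (E * X / L) * (2 * p ^ (k - 1) * (F * (X ^ (k - 1) / p ^ k))) ≤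
      (2 * 3 ^ (k + 2) * E * F) * X ^ k / L ^ 2 := by
  obtain ⟨j, rfl⟩ : ∃ j, k = j + 1 := ⟨k - 1, by omega⟩
  have e : j + 1 - 1 = j := by omega
  rw [e]
  have ha0 : 0 < a := by linarith
  have hL0 : 0 < L := by linarith
  have hp0 : 0 < p := lt_of_lt_of_le (by positivity) hp
  have h1 : (3 * a) ^ (j + 1 + 2) * (E * X / L) * (2 * p ^ j * (F * (X ^ j / p ^ (j + 1)))) =
      (2 * 3 ^ (j + 1 + 2) * E * F) * X ^ (j + 1) * (a ^ (j + 1 + 2) / (L * p)) := by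
    rw [mul_pow]
    field_simp
    ring
  have h2 : a ^ (j + 1 + 2) / (L * p) ≤ 1 / L ^ 2 := by
    rw [div_le_div_iff₀ (by positivity) (by positivity)]
    have h3 : a ^ (j + 1 + 2) * L ≤ p := by
      calc a ^ (j + 1 + 2) * L ≤ a ^ (j + 1 + 2) * (a * a) := by
            refine mul_le_mul_of_nonneg_left ?_ (by positivity)
            nlinarith
        _ = a ^ (j + 1 + 4) := by ring
        _ ≤ p := hp
    calc a ^ (j + 1 + 2) * L ^ 2 = (a ^ (j + 1 + 2) * L) * L := by ring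
      _ ≤ p * L := mul_le_mul_of_nonneg_right h3 hL0.le
      _ = 1 * (L * p) := by ring
  rw [h1]
  calc (2 * 3 ^ (j + 1 + 2) * E * F) * X ^ (j + 1) * (a ^ (j + 1 + 2) / (L * p))
      ≤ (2 * 3 ^ (j + 1 + 2) * E * F) * X ^ (j + 1) * (1 / L ^ 2) :=
        mul_le_mul_of_nonneg_left h2 (by positivity)
    _ = _ := by ring

theorem GNB_lb {k : ℕ} (κ : Crd k) (a Mx : ℕ) (hMx : ∀ i, ∑ v, (κ.M v i).natAbs ≤ Mx)
    (l : Fin (k + 2) → ℤ) (hl : sn l ≤ a) (i : Fin (k + 2)) :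
    (GNB_l κ l i).natAbs ≤ a * Mx := by
  rw [GNB_sn] at hl
  unfold GNB_l
  calc (∑ v, l v * κ.M v i).natAbs ≤ ∑ v, (l v * κ.M v i).natAbs := Int.natAbs_sum_le _ _
    _ ≤ ∑ v, a * (κ.M v i).natAbs := by
        refine sum_le_sum fun v _ => ?_
        rw [Int.natAbs_mul]
        exact Nat.mul_le_mul_right _ (hl v)
    _ = a * ∑ v, (κ.M v i).natAbs := by rw [mul_sum]
    _ ≤ a * Mx := Nat.mul_le_mul_left _ (hMx i)

open Classical in
theorem GNB_main (hPTI : Stmt_PTI) (hSZQ : Stmt_SZQ) {k : ℕ} {c : IQ k → ℤ} {κ : Crd k}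
    (hk : Ok c κ) (hk3 : 3 ≤ k) (s c₁ : ℕ) (hs : 1 ≤ s) (hc : 1 ≤ c₁)
    (Ct : ℝ) (hCt : 1 ≤ Ct)
    (hT : ∀ x : Fin (k + 2) → ℤ, ∀ i, |((pt κ.I x i : ℤ) : ℝ)| ≤ Ct * sn x)
    (CH : ℝ) (hCH : 1 ≤ CH) (hCHU : ∀ X : ℕ, 2 ≤ X →
      (((range (X + 1)).filter Nat.Prime).card : ℝ) ≤ CH * X / Real.log X)
    (CB : ℝ) (hCB : 1 ≤ CB) (hBX : ∀ (g : Fin k → Fin k → ℤ) (n : ℕ)
      [Fact n.Prime], ¬ (n : ℤ) ∣ dg g → ∀ (g' : ℕ) (ζ : Fin k → ℤ) (u : Fin k → ℝ) (r : ℝ),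
      1 ≤ g' → ¬ n ∣ g' → (g' : ℝ) ≤ (Ct * c₁) * r → r ≤ (Ct * c₁) * n →
      ∀ S : Finset (Fin k → ℤ),
      (∀ z ∈ S, (∀ j, |(z j : ℝ) - u j| ≤ r ∧ (g' : ℤ) ∣ z j - ζ j) ∧ (n : ℤ) ∣ qd g z) →
      (S.card : ℝ) ≤ CB * ((r / g') ^ k / n + (√(n : ℝ)) ^ k * (2 + Real.log n) ^ k))
    (Mx : ℕ) (hMx : ∀ i, ∑ v, (κ.M v i).natAbs ≤ Mx) (hMg : ∀ j, (κ.g j j).natAbs ≤ Mx)
    (hMD : κ.D ≤ Mx) (hMs : s ≤ Mx)
    (X : ℕ) (hX3 : 3 ≤ X) (hXd : c₁ * (dg κ.g).natAbs < X)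
    (hL1 : 1 ≤ Real.log X) (hLC : Real.log Ct ≤ Real.log X) (hLM : (Mx : ℝ) ≤ Real.log X)
    (hE1 : (√Ct * 8 * 2 ^ (k + 4)) ^ 3 * Real.log X ^ (3 * (k + 5)) ≤ √(X : ℝ))
    (hE2 : (2 * c₁ * 2 ^ (k + 4) : ℝ) * Real.log X ^ (k + 4) ≤ √(X : ℝ)) :
    (((Xg c κ s c₁ X).filter fun x => ¬ Gen X x).card : ℝ) ≤
      (2 * 3 ^ (k + 2) * (CH * ⌈Ct⌉₊) * (CB * (Ct ^ k * c₁ + 1))) * (X : ℝ) ^ k /
        Real.log X ^ 2 := by
  set L : ℝ := Real.log X with hL
  set a : ℕ := ⌈L⌉₊ with ha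
  have hX0 : (0 : ℝ) < X := by
    have : 0 < X := by omega
    exact_mod_cast this
  have hX1 : (1 : ℝ) < X := by
    have : 1 < X := by omega
    exact_mod_cast this
  have hLa : L ≤ (a : ℝ) := Nat.le_ceil L
  have haL : (a : ℝ) ≤ 2 * L := by
    have := (Nat.ceil_lt_add_one (by linarith : 0 ≤ L)).le
    linarith
  have ha1 : 1 ≤ a := by
    have : (1 : ℝ) ≤ a := by linarith
    exact_mod_cast this
  have haM : Mx ≤ a := by
    have : (Mx : ℝ) ≤ a := by linarith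
    exact_mod_cast this
  obtain ⟨p₀, hpp, hp1, hp2⟩ := Nat.exists_prime_lt_and_le_two_mul (a ^ (k + 4))
    (pow_ne_zero _ (by omega))
  have : Fact p₀.Prime := ⟨hpp⟩
  have hapow : a ^ 2 ≤ a ^ (k + 4) := Nat.pow_le_pow_right ha1 (by omega)
  have hap : a ≤ a ^ (k + 4) := by
    calc a = a ^ 1 := (pow_one a).symm
      _ ≤ a ^ (k + 4) := Nat.pow_le_pow_right ha1 (by omega)
  -- real bounds for p₀
  have hp2' : (p₀ : ℝ) ≤ 2 * (2 * L) ^ (k + 4) := by
    have h1 : (p₀ : ℝ) ≤ 2 * (a : ℝ) ^ (k + 4) := by exact_mod_cast hp2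
    have h2 : (a : ℝ) ^ (k + 4) ≤ (2 * L) ^ (k + 4) :=
      pow_le_pow_left₀ (Nat.cast_nonneg a) haL _
    linarith
  have hp0 : (0 : ℝ) < p₀ := by exact_mod_cast hpp.pos
  have hsqX : √(X : ℝ) < X := by
    have h := Real.sq_sqrt hX0.le
    have h1 : 1 < √(X : ℝ) := by
      rw [show (1 : ℝ) = √1 by simp]
      exact Real.sqrt_lt_sqrt (by norm_num) hX1
    nlinarith
  have hcp : (c₁ : ℝ) * p₀ < X := by
    have hc0 : (0 : ℝ) ≤ c₁ := Nat.cast_nonneg _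
    calc (c₁ : ℝ) * p₀ ≤ c₁ * (2 * (2 * L) ^ (k + 4)) := mul_le_mul_of_nonneg_left hp2' hc0
      _ = (2 * c₁ * 2 ^ (k + 4) : ℝ) * L ^ (k + 4) := by rw [mul_pow]; ring
      _ ≤ √(X : ℝ) := hE2
      _ < X := hsqX
  -- the sets
  set N1 : ℕ := ⌈Ct⌉₊ * X with hN1
  set LL : Finset (Fin (k + 2) → ℤ) :=
    ((Fintype.piFinset fun _ : Fin (k + 2) => Finset.Icc (-(a : ℤ)) a).filter fun l => l ≠ 0)
    with hLL
  set NN : Finset ℕ := (range (N1 + 1)).filter fun n => n.Prime ∧ X ≤ c₁ * n with hNN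
  set A : (Fin (k + 2) → ℤ) × ℕ → Finset (Fin (k + 2) → ℤ) := fun q =>
    (Xg c κ s c₁ X).filter fun x => pt κ.I x 0 = s * q.2 ∧ ∑ v, q.1 v * x v = 0 with hA
  have hsnX : ∀ x ∈ Xg c κ s c₁ X, sn x ≤ X := by
    intro x hx
    rw [GNB_sn]
    intro v
    unfold Xg at hx
    rw [mem_filter, Fintype.mem_piFinset] at hx
    have := hx.1 v
    rw [mem_Icc] at this
    omega
  have hTX : ∀ x ∈ Xg c κ s c₁ X, ∀ i, |((pt κ.I x i : ℤ) : ℝ)| ≤ Ct * X := by
    intro x hx i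
    refine (hT x i).trans ?_
    have : (sn x : ℝ) ≤ X := by exact_mod_cast hsnX x hx
    exact mul_le_mul_of_nonneg_left this (by linarith)
  have hnle : ∀ x ∈ Xg c κ s c₁ X, ∀ n : ℕ, pt κ.I x 0 = s * n → (n : ℝ) ≤ Ct * X := by
    intro x hx n hn
    have h1 := hTX x hx 0
    rw [hn] at h1
    push_cast at h1
    rw [abs_of_nonneg (by positivity)] at h1
    have h2 : (1 : ℝ) ≤ s := by exact_mod_cast hs
    have h3 : (0 : ℝ) ≤ n := Nat.cast_nonneg n
    nlinarith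
  have hsub : ((Xg c κ s c₁ X).filter fun x => ¬ Gen X x) ⊆ (LL ×ˢ NN).biUnion A := by
    intro x hx
    rw [mem_filter] at hx
    obtain ⟨hxg, hx2⟩ := hx
    unfold Gen at hx2
    push Not at hx2
    obtain ⟨l, hl0, hls, hlx⟩ := hx2
    have hxg' := hxg
    unfold Xg at hxg'
    rw [mem_filter] at hxg'
    obtain ⟨n, hnp, hnX, hn0⟩ := hxg'.2.2
    rw [mem_biUnion]
    refine ⟨(l, n), ?_, ?_⟩
    · rw [mem_product]
      constructor
      · simp only [hLL, mem_filter, Fintype.mem_piFinset, mem_Icc]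
        refine ⟨fun v => ?_, hl0⟩
        have := (GNB_sn l a).mp hls v
        omega
      · simp only [hNN, mem_filter, mem_range]
        refine ⟨?_, hnp, hnX⟩
        have h1 := hnle x hxg n hn0
        have h2 : (n : ℝ) ≤ (N1 : ℝ) := by
          rw [hN1]
          push_cast
          refine h1.trans (mul_le_mul_of_nonneg_right (Nat.le_ceil Ct) hX0.le)
        have h3 : n ≤ N1 := by exact_mod_cast h2
        omega
    · simp only [hA, mem_filter]
      exact ⟨hxg, hn0, hlx⟩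
  -- the size of the classes
  set F : ℝ := CB * (Ct ^ k * c₁ + 1) with hF
  have hF0 : 0 ≤ F := by positivity
  set Y : ℝ := F * ((X : ℝ) ^ (k - 1) / (p₀ : ℝ) ^ k) with hY
  have hY0 : 0 ≤ Y := by positivity
  have hone : ∀ q ∈ LL ×ˢ NN, ((A q).card : ℝ) ≤ 2 * (p₀ : ℝ) ^ (k - 1) * Y := by
    intro q hq
    obtain ⟨l, n⟩ := q
    rw [mem_product] at hq
    obtain ⟨hl, hn⟩ := hq
    simp only [hLL, mem_filter, Fintype.mem_piFinset, mem_Icc] at hl
    simp only [hNN, mem_filter, mem_range] at hn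
    obtain ⟨hl, hl0⟩ := hl
    obtain ⟨hnN, hnp, hnX⟩ := hn
    have : Fact n.Prime := ⟨hnp⟩
    have hsl : sn l ≤ a := by
      rw [GNB_sn]
      intro v
      have := hl v
      omega
    have hlb : ∀ i, (GNB_l κ l i).natAbs < p₀ := by
      intro i
      calc (GNB_l κ l i).natAbs ≤ a * Mx := GNB_lb κ a Mx hMx l hsl i
        _ ≤ a * a := Nat.mul_le_mul_left _ haM
        _ = a ^ 2 := by ring
        _ ≤ a ^ (k + 4) := hapow
        _ < p₀ := hp1
    have hp0n : p₀ < n := by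
      have h1 : (X : ℝ) ≤ c₁ * n := by exact_mod_cast hnX
      have h2 : (c₁ : ℝ) * p₀ < c₁ * n := lt_of_lt_of_le hcp h1
      have h3 : (0 : ℝ) < c₁ := by exact_mod_cast hc
      have h4 : (p₀ : ℝ) < n := lt_of_mul_lt_mul_left h2 h3.le
      exact_mod_cast h4
    have hp5 : ¬ p₀ ∣ n := by
      intro h
      have := (Nat.prime_dvd_prime_iff_eq hpp hnp).mp h
      omega
    have hnp0 : ¬ n ∣ p₀ := by
      intro h
      have := Nat.le_of_dvd hpp.pos h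
      omega
    have hnd : ¬ (n : ℤ) ∣ dg κ.g := by
      intro h
      have h1 := Int.natAbs_dvd_natAbs.mpr h
      simp only [Int.natAbs_natCast] at h1
      have h2 := Nat.le_of_dvd (Int.natAbs_pos.mpr hk.nons) h1
      have h3 : c₁ * n ≤ c₁ * (dg κ.g).natAbs := Nat.mul_le_mul_left _ h2
      omega
    refine GNB_one hPTI hSZQ hk s n p₀ hs hnp l hl0 hlb
      (fun j => lt_of_le_of_lt ((hMg j).trans (haM.trans hap)) hp1)
      (lt_of_le_of_lt (hMD.trans (haM.trans hap)) hp1)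
      (lt_of_le_of_lt (hMs.trans (haM.trans hap)) hp1) hp5 Y hY0 (A (l, n)) ?_ ?_
    · intro x hx
      simp only [hA, mem_filter] at hx
      have hxg' := hx.1
      unfold Xg at hxg'
      rw [mem_filter] at hxg'
      exact ⟨hxg'.2.1, hx.2.1, hx.2.2⟩
    · intro ζ S hS
      rcases (A (l, n)).eq_empty_or_nonempty with hAe | ⟨x₁, hx₁⟩
      · have hSe : S = ∅ := by
          rw [eq_empty_iff_forall_notMem]
          intro z hz
          obtain ⟨⟨x, hx, _⟩, _⟩ := hS z hz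
          rw [hAe] at hx
          simp at hx
        rw [hSe]
        simpa using hY0
      have hn1 : (n : ℝ) ≤ Ct * X := by
        simp only [hA, mem_filter] at hx₁
        exact hnle x₁ hx₁.1 n hx₁.2.1
      have hn2 : (X : ℝ) ≤ c₁ * n := by exact_mod_cast hnX
      have hnpos : (0 : ℝ) < n := by exact_mod_cast hnp.pos
      have hc1 : (1 : ℝ) ≤ c₁ := by exact_mod_cast hc
      have hCt0 : 0 < Ct := by linarith
      have hcard := hBX κ.g n hnd p₀ ζ (fun _ => 0) (Ct * X) hpp.one_le hnp0 ?_ ?_ S ?_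
      · refine hcard.trans ?_
        have t1 : (Ct * X / (p₀ : ℝ)) ^ k / n ≤ Ct ^ k * c₁ * ((X : ℝ) ^ (k - 1) / p₀ ^ k) := by
          rw [div_le_iff₀ hnpos, div_pow, mul_pow]
          have hXk : (X : ℝ) ^ k = X ^ (k - 1) * X := by
            rw [← pow_succ]
            congr 1
            omega
          rw [hXk]
          calc Ct ^ k * ((X : ℝ) ^ (k - 1) * X) / p₀ ^ k
              = (Ct ^ k * ((X : ℝ) ^ (k - 1) / p₀ ^ k)) * X := by ring
            _ ≤ (Ct ^ k * ((X : ℝ) ^ (k - 1) / p₀ ^ k)) * (c₁ * n) :=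
                mul_le_mul_of_nonneg_left hn2 (by positivity)
            _ = Ct ^ k * c₁ * ((X : ℝ) ^ (k - 1) / p₀ ^ k) * n := by ring
        have t2 : (√(n : ℝ)) ^ k * (2 + Real.log n) ^ k ≤ (X : ℝ) ^ (k - 1) / p₀ ^ k := by
          rw [le_div_iff₀ (by positivity), ← mul_pow, ← mul_pow]
          have hlogn : Real.log n ≤ 2 * L := by
            calc Real.log n ≤ Real.log (Ct * X) := Real.log_le_log hnpos hn1
              _ = Real.log Ct + Real.log X := Real.log_mul hCt0.ne' hX0.ne'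
              _ ≤ 2 * L := by
                  rw [← hL]
                  linarith
          have hlog0 : 0 ≤ Real.log (n : ℝ) := Real.log_natCast_nonneg n
          set V : ℝ := √Ct * 8 * 2 ^ (k + 4) * L ^ (k + 5) with hV
          have hW : √(n : ℝ) * (2 + Real.log n) * p₀ ≤ V * √(X : ℝ) := by
            calc √(n : ℝ) * (2 + Real.log n) * p₀
                ≤ √(Ct * X) * (4 * L) * (2 * (2 * L) ^ (k + 4)) := by
                  refine mul_le_mul (mul_le_mul (Real.sqrt_le_sqrt hn1) (by linarith)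
                    (by positivity) (by positivity)) hp2' (by positivity) (by positivity)
              _ = V * √(X : ℝ) := by
                  rw [Real.sqrt_mul hCt0.le, mul_pow, hV]
                  ring
          have hW0 : 0 ≤ √(n : ℝ) * (2 + Real.log n) * p₀ := by positivity
          have hV1 : 1 ≤ V := by
            have h1 : 1 ≤ √Ct := by
              rw [show (1 : ℝ) = √1 by simp]
              exact Real.sqrt_le_sqrt hCt
            have h2 : (1 : ℝ) ≤ 2 ^ (k + 4) := one_le_pow₀ (by norm_num)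
            have h3 : (1 : ℝ) ≤ L ^ (k + 5) := one_le_pow₀ hL1
            have h4 : 1 ≤ √Ct * 8 := by linarith
            have h5 : 1 ≤ √Ct * 8 * 2 ^ (k + 4) := one_le_mul_of_one_le_of_one_le h4 h2
            exact one_le_mul_of_one_le_of_one_le h5 h3
          have hV3 : V ^ 3 ≤ √(X : ℝ) := by
            have : V ^ 3 = (√Ct * 8 * 2 ^ (k + 4)) ^ 3 * L ^ (3 * (k + 5)) := by
              rw [hV, mul_pow, ← pow_mul, mul_comm 3 (k + 5)]
            rw [this]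
            exact hE1
          have hVV : V ≤ V ^ 3 := by
            calc V = V ^ 1 := (pow_one V).symm
              _ ≤ V ^ 3 := pow_le_pow_right₀ hV1 (by norm_num)
          have hsq : √(X : ℝ) * √(X : ℝ) = X := Real.mul_self_sqrt hX0.le
          have hs0 : 0 ≤ √(X : ℝ) := Real.sqrt_nonneg _
          refine GNB_pow k hk3 _ _ hW0 ?_ ?_
          · calc √(n : ℝ) * (2 + Real.log n) * p₀ ≤ V * √(X : ℝ) := hW
              _ ≤ √(X : ℝ) * √(X : ℝ) := mul_le_mul_of_nonneg_right (hVV.trans hV3) hs0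
              _ = X := hsq
          · calc (√(n : ℝ) * (2 + Real.log n) * p₀) ^ 3 ≤ (V * √(X : ℝ)) ^ 3 :=
                  pow_le_pow_left₀ hW0 hW 3
              _ = V ^ 3 * (√(X : ℝ) * (√(X : ℝ) * √(X : ℝ))) := by ring
              _ ≤ √(X : ℝ) * (√(X : ℝ) * (√(X : ℝ) * √(X : ℝ))) :=
                  mul_le_mul_of_nonneg_right hV3 (by positivity)
              _ = (√(X : ℝ) * √(X : ℝ)) * (√(X : ℝ) * √(X : ℝ)) := by ring
              _ = (X : ℝ) ^ 2 := by rw [hsq]; ring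
        calc CB * ((Ct * X / (p₀ : ℝ)) ^ k / n + (√(n : ℝ)) ^ k * (2 + Real.log n) ^ k)
            ≤ CB * (Ct ^ k * c₁ * ((X : ℝ) ^ (k - 1) / p₀ ^ k) +
                (X : ℝ) ^ (k - 1) / p₀ ^ k) :=
              mul_le_mul_of_nonneg_left (add_le_add t1 t2) (by linarith)
          _ = Y := by
              rw [hY, hF]
              ring
      · -- p₀ ≤ Ct c₁ (Ct X)
        have h1 : (p₀ : ℝ) ≤ X := by nlinarith
        have h2 : (1 : ℝ) ≤ Ct * c₁ := one_le_mul_of_one_le_of_one_le hCt hc1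
        have h3 : (X : ℝ) ≤ Ct * X := by nlinarith
        calc (p₀ : ℝ) ≤ Ct * X := h1.trans h3
          _ = 1 * (Ct * X) := (one_mul _).symm
          _ ≤ (Ct * c₁) * (Ct * X) := mul_le_mul_of_nonneg_right h2 (by positivity)
      · calc Ct * (X : ℝ) ≤ Ct * (c₁ * n) := mul_le_mul_of_nonneg_left hn2 hCt0.le
          _ = (Ct * c₁) * n := by ring
      · intro z hz
        obtain ⟨⟨x, hx, hxz⟩, hzd⟩ := hS z hz
        simp only [hA, mem_filter] at hx
        refine ⟨fun j => ⟨?_, hzd j⟩, ?_⟩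
        · rw [sub_zero, hxz]
          exact hTX x hx.1 _
        · rw [hxz]
          have hxg' := hx.1
          unfold Xg at hxg'
          rw [mem_filter] at hxg'
          refine GNB_dvd hPTI hk x hxg'.2.1 n ?_
          rw [hx.2.1]
          exact dvd_mul_left _ _
  -- the number of l and n
  have hLLc : (LL.card : ℝ) ≤ (3 * (a : ℝ)) ^ (k + 2) := by
    have h1 : LL.card ≤ (Fintype.piFinset fun _ : Fin (k + 2) =>
        Finset.Icc (-(a : ℤ)) a).card := card_le_card (filter_subset _ _)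
    rw [Fintype.card_piFinset] at h1
    simp only [Int.card_Icc, prod_const, card_univ, Fintype.card_fin] at h1
    have h2 : ((a : ℤ) + 1 - -(a : ℤ)).toNat ≤ 3 * a := by omega
    have h3 : LL.card ≤ (3 * a) ^ (k + 2) := h1.trans (Nat.pow_le_pow_left h2 _)
    exact_mod_cast h3
  have hc1 : 1 ≤ ⌈Ct⌉₊ := by
    have : (1 : ℝ) ≤ (⌈Ct⌉₊ : ℝ) := hCt.trans (Nat.le_ceil Ct)
    exact_mod_cast this
  have hXN : X ≤ N1 := by
    rw [hN1]
    exact Nat.le_mul_of_pos_left X (by omega)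
  have hNNc : (NN.card : ℝ) ≤ (CH * ⌈Ct⌉₊) * X / L := by
    have h1 : NN.card ≤ ((range (N1 + 1)).filter Nat.Prime).card := by
      refine card_le_card fun n hn => ?_
      simp only [hNN, mem_filter] at hn ⊢
      exact ⟨hn.1, hn.2.1⟩
    have h2 := hCHU N1 (by omega)
    have h3 : (NN.card : ℝ) ≤ (((range (N1 + 1)).filter Nat.Prime).card : ℝ) := by
      exact_mod_cast h1
    have hLN : L ≤ Real.log (N1 : ℝ) := by
      rw [hL]
      refine Real.log_le_log hX0 ?_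
      exact_mod_cast hXN
    calc (NN.card : ℝ) ≤ CH * N1 / Real.log N1 := h3.trans h2
      _ ≤ CH * N1 / L := by
          refine div_le_div_of_nonneg_left (by positivity) (by linarith) hLN
      _ = (CH * ⌈Ct⌉₊) * X / L := by
          rw [hN1]
          push_cast
          ring
  have hcardb : (((Xg c κ s c₁ X).filter fun x => ¬ Gen X x).card : ℝ) ≤
      (LL.card : ℝ) * NN.card * (2 * (p₀ : ℝ) ^ (k - 1) * Y) := by
    have h1 : ((Xg c κ s c₁ X).filter fun x => ¬ Gen X x).card ≤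
        ∑ q ∈ LL ×ˢ NN, (A q).card := (card_le_card hsub).trans card_biUnion_le
    calc (((Xg c κ s c₁ X).filter fun x => ¬ Gen X x).card : ℝ)
        ≤ ((∑ q ∈ LL ×ˢ NN, (A q).card : ℕ) : ℝ) := by exact_mod_cast h1
      _ = ∑ q ∈ LL ×ˢ NN, ((A q).card : ℝ) := by push_cast; rfl
      _ ≤ ∑ q ∈ LL ×ˢ NN, (2 * (p₀ : ℝ) ^ (k - 1) * Y) := sum_le_sum hone
      _ = (LL.card : ℝ) * NN.card * (2 * (p₀ : ℝ) ^ (k - 1) * Y) := by
          rw [sum_const, card_product, nsmul_eq_mul]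
          push_cast
          ring
  refine hcardb.trans ?_
  have hstep : (LL.card : ℝ) * NN.card * (2 * (p₀ : ℝ) ^ (k - 1) * Y) ≤
      (3 * (a : ℝ)) ^ (k + 2) * ((CH * ⌈Ct⌉₊) * X / L) * (2 * (p₀ : ℝ) ^ (k - 1) * Y) := by
    refine mul_le_mul_of_nonneg_right ?_ (by positivity)
    exact mul_le_mul hLLc hNNc (Nat.cast_nonneg _) (by positivity)
  refine hstep.trans ?_
  refine GNB_fin k (by omega) a L p₀ X (CH * ⌈Ct⌉₊) F ?_ hL1 hLa ?_ hX0.le (by positivity) hF0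
  · exact_mod_cast ha1
  · exact_mod_cast hp1.le

/-- Block GNB. -/
theorem p_GNB (hPTI : Stmt_PTI) (hTUB : Stmt_TUB) (hCHU : Stmt_CHU) (hBXU : Stmt_BXU)
    (hSZQ : Stmt_SZQ) : Stmt_GNB := by
  intro k c κ s c₁ hk3 hk hs hc
  obtain ⟨Ct, hCt, hT⟩ := hTUB k κ
  obtain ⟨CH, hCH, hCH'⟩ := hCHU
  have hc1 : (1 : ℝ) ≤ c₁ := by exact_mod_cast hc
  obtain ⟨CB, hCB, hBX⟩ := hBXU k (Ct * c₁) (one_le_mul_of_one_le_of_one_le hCt hc1)
  set Mx : ℕ := (∑ i, ∑ v, (κ.M v i).natAbs) + (∑ j, (κ.g j j).natAbs) + κ.D + s with hMx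
  have h1 : ∀ i, ∑ v, (κ.M v i).natAbs ≤ Mx := by
    intro i
    have := single_le_sum (f := fun i => ∑ v, (κ.M v i).natAbs) (fun _ _ => Nat.zero_le _)
      (mem_univ i)
    omega
  have h2 : ∀ j, (κ.g j j).natAbs ≤ Mx := by
    intro j
    have := single_le_sum (f := fun j => (κ.g j j).natAbs) (fun _ _ => Nat.zero_le _)
      (mem_univ j)
    omega
  have hlog : Filter.Tendsto (fun X : ℕ => Real.log (X : ℝ)) Filter.atTop Filter.atTop :=
    Real.tendsto_log_atTop.comp tendsto_natCast_atTop_atTop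
  have e1 := GNB_asym ((√Ct * 8 * 2 ^ (k + 4)) ^ 3) (by positivity) (3 * (k + 5))
  have e2 := GNB_asym ((2 * c₁ * 2 ^ (k + 4) : ℝ)) (by positivity) (k + 4)
  have e3 := hlog.eventually (Filter.eventually_ge_atTop (max 1 (max (Real.log Ct) Mx)))
  have e4 := Filter.eventually_ge_atTop (c₁ * (dg κ.g).natAbs + 3)
  obtain ⟨X₀, hX₀⟩ := Filter.eventually_atTop.mp (e1.and (e2.and (e3.and e4)))
  refine ⟨max 1 (2 * 3 ^ (k + 2) * (CH * ⌈Ct⌉₊) * (CB * (Ct ^ k * c₁ + 1))), max 3 X₀,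
    le_max_left _ _, le_max_left _ _, fun X hX => ?_⟩
  obtain ⟨a1, a2, a3, a4⟩ := hX₀ X ((le_max_right _ _).trans hX)
  have hX3 : 3 ≤ X := (le_max_left _ _).trans hX
  have b1 : 1 ≤ Real.log (X : ℝ) := (le_max_left _ _).trans a3
  have b2 : Real.log Ct ≤ Real.log (X : ℝ) :=
    (le_max_left _ _).trans ((le_max_right _ _).trans a3)
  have b3 : (Mx : ℝ) ≤ Real.log (X : ℝ) :=
    (le_max_right _ _).trans ((le_max_right _ _).trans a3)
  have hmain := GNB_main hPTI hSZQ hk hk3 s c₁ hs hc Ct hCt (fun x i => (hT x x).1 i) CH hCH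
    hCH' CB hCB hBX Mx h1 h2 (by omega) (by omega) X hX3 (by omega) b1 b2 b3 a1 a2
  refine hmain.trans ?_
  refine div_le_div_of_nonneg_right ?_ (by positivity)
  exact mul_le_mul_of_nonneg_right (le_max_right _ _) (by positivity)

end Pool.FQ
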