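import Pool.Agent.Work.MP_9fb703_fq.Interface2

/-! # THEOREM FQ, block HSQ: many good classes modulo a power of `p` near a nonsingular zero -/

set_option autoImplicit false

namespace Pool.FQ

open Finset
open Pool.HPQ (Fw Lam Kw fl rd cs Ww)
open Pool.CB (VV Sol PSN PH lin dl)
open Pool.GE
open Pool.GR (SingPr)

theorem HSQ_pt_dvd {R : Type} [CommRing R] {k : ℕ} (A : Fin (k + 2) → Fin (k + 2) → ℤ) (m : R)
    (t t' : Fin (k + 2) → R) (h : ∀ i, m ∣ t i - t' i) (v : Fin (k + 2)) :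
    m ∣ pt A t v - pt A t' v := by
  unfold pt
  rw [← Finset.sum_sub_distrib]
  apply Finset.dvd_sum
  intro i _
  rw [← mul_sub]
  exact (h i).mul_left _

theorem HSQ_n (p s : ℕ) [hp : Fact p.Prime] (N : ℕ) (t0 : ℤ) (hs : 1 ≤ s)
    (h : ∀ n : ℕ, ((p ^ n : ℕ) : ℤ) ∣ t0 ↔ p ^ n ∣ s) :
    ∃ n : ℤ, (0 ≤ n ∧ n < ((p ^ N : ℕ) : ℤ)) ∧ IsCoprime n ((p ^ N : ℕ) : ℤ) ∧
      ((p ^ N : ℕ) : ℤ) ∣ s * n - t0 := by
  have hP : (0 : ℤ) < ((p ^ N : ℕ) : ℤ) := by
    have := pow_pos hp.out.pos N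
    exact_mod_cast this
  obtain ⟨r, s', hs', hs0⟩ := Nat.exists_eq_pow_mul_and_not_dvd (n := s) (by omega) p
    hp.out.ne_one
  obtain ⟨t', ht'⟩ := (h r).2 (by rw [hs0]; exact dvd_mul_right _ _)
  have hpr : (0 : ℤ) < ((p ^ r : ℕ) : ℤ) := by
    have := pow_pos hp.out.pos r
    exact_mod_cast this
  have hnt : ¬ (p : ℤ) ∣ t' := by
    intro hd
    have h1 : ((p ^ (r + 1) : ℕ) : ℤ) ∣ t0 := by
      rw [ht', pow_succ]
      push_cast
      exact mul_dvd_mul_left _ hd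
    have h2 := (h (r + 1)).1 h1
    rw [hs0, pow_succ] at h2
    exact hs' (Nat.dvd_of_mul_dvd_mul_left (pow_pos hp.out.pos r) h2)
  have hpi : Prime (p : ℤ) := Nat.prime_iff_prime_int.1 hp.out
  have hc1 : IsCoprime (s' : ℤ) ((p ^ N : ℕ) : ℤ) := by
    rw [Nat.isCoprime_iff_coprime]
    exact ((Nat.Prime.coprime_iff_not_dvd hp.out).2 hs').symm.pow_right N
  have hc2 : IsCoprime t' ((p ^ N : ℕ) : ℤ) := by
    push_cast
    apply IsCoprime.pow_right
    exact ((Prime.coprime_iff_not_dvd hpi).2 hnt).symm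
  obtain ⟨u, v, huv⟩ := hc1
  refine ⟨(u * t') % ((p ^ N : ℕ) : ℤ), ⟨Int.emod_nonneg _ hP.ne', Int.emod_lt_of_pos _ hP⟩,
    ?_, ?_⟩
  · have h3 : IsCoprime (u * t') ((p ^ N : ℕ) : ℤ) :=
      IsCoprime.mul_left ⟨s', v, by rw [← huv]; ring⟩ hc2
    rw [Int.emod_def]
    have h4 := h3.add_mul_left_left (-(u * t' / ((p ^ N : ℕ) : ℤ)))
    have h5 : u * t' - ((p ^ N : ℕ) : ℤ) * (u * t' / ((p ^ N : ℕ) : ℤ)) =
        u * t' + ((p ^ N : ℕ) : ℤ) * -(u * t' / ((p ^ N : ℕ) : ℤ)) := by ring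
    rw [h5]
    exact h4
  · rw [Int.emod_def]
    set q := u * t' / ((p ^ N : ℕ) : ℤ) with hq
    refine ⟨((p ^ r : ℕ) : ℤ) * (-(s' : ℤ) * q - t' * v), ?_⟩
    have h6 : (s : ℤ) = ((p ^ r : ℕ) : ℤ) * s' := by rw [hs0]; push_cast; ring
    rw [h6, ht']
    linear_combination ((p ^ r : ℕ) : ℤ) * t' * huv

theorem HSQ_norm (p : ℕ) [hp : Fact p.Prime] (x : ℤ) (n : ℕ) :
    ‖(x : ℤ_[p])‖ ≤ (p : ℝ) ^ (-(n : ℤ)) ↔ ((p ^ n : ℕ) : ℤ) ∣ x := by
  rw [PadicInt.norm_int_le_pow_iff_dvd]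
  push_cast
  rfl

theorem HSQ_nle (p : ℕ) [hp : Fact p.Prime] (x y : ℤ_[p]) (h : ‖x - y‖ < ‖y‖) : ‖x‖ = ‖y‖ := by
  apply le_antisymm
  · have h1 := PadicInt.nonarchimedean (x - y) y
    rw [sub_add_cancel] at h1
    exact h1.trans (max_le h.le le_rfl)
  · by_contra hc
    push Not at hc
    have h1 := PadicInt.nonarchimedean (-(x - y)) x
    have h2 : -(x - y) + x = y := by ring
    rw [h2, norm_neg] at h1
    exact absurd h1 (not_le.2 (max_lt h hc))

theorem HSQ_ptcast {k : ℕ} (p : ℕ) [hp : Fact p.Prime] (A : Fin (k + 2) → Fin (k + 2) → ℤ)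
    (z : Fin (k + 2) → ℤ) (v : Fin (k + 2)) :
    ((pt A z v : ℤ) : ℤ_[p]) = pt A (fun l => (z l : ℤ_[p])) v := by
  unfold pt
  push_cast
  simp

theorem p_HSQ (hPTI : Stmt_PTI) (hCNG : Pool.GE.Stmt_CNG) (hHNR : Pool.GR.Stmt_HNR) :
    Stmt_HSQ := by
  intro k c κ p s e f v₁ hp hok hs he hf hfs hv1 hv2
  obtain ⟨E, hE⟩ := hHNR (Fin (k + 2)) Unit (Fin 2) (fun _ => ()) (fun _ => 2) p e f ⟨0⟩ he hf
  refine ⟨p ^ (k * E + 2 * v₁), max E f, Nat.one_le_pow _ _ hp.out.pos, ?_⟩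
  intro w a M τ hw hM hM0 hτ hsing
  have hwE : E ≤ w := (le_max_left _ _).trans hw
  have hwf : f ≤ w := (le_max_right _ _).trans hw
  obtain ⟨⟨vM, hvM⟩, hMc, hMa⟩ := hM
  have h1 := hE (v₁ + w) ![c, a] M (by omega) ⟨fun i => ⟨vM, rfl, hvM⟩, by
    intro i
    fin_cases i
    · exact hMc
    · exact hMa⟩ hsing
  have hcard : Fintype.card (Fin (k + 2)) - Fintype.card (Fin 2) = k := by simp
  rw [hcard] at h1
  classical
  set P : ℕ := p ^ (v₁ + w) with hP
  have hPm : p ^ v₁ * p ^ w = P := by rw [hP, pow_add]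
  have hPpos : 0 < P := pow_pos hp.out.pos _
  have hPZ : (0 : ℤ) < (P : ℤ) := by exact_mod_cast hPpos
  have hp1 : (1 : ℝ) < p := by exact_mod_cast hp.out.one_lt
  set Z := (cs P (Fin (k + 2))).filter fun z => (∀ i, ((P : ℕ) : ℤ) ∣ FF ((![c, a] : Fin 2 → IQ k → ℤ) i) z) ∧
        ∀ l, ‖(z l : ℤ_[p]) - M l‖ ≤ (p : ℝ) ^ (-(f : ℤ)) with hZ
  have key : Z.card ≤ (Gc κ s (p ^ v₁) (p ^ w) (p ^ f) τ a).card * p ^ v₁ := by
    have hn : ∀ z ∈ Z, ∃ n : ℤ, (0 ≤ n ∧ n < (P : ℤ)) ∧ IsCoprime n (P : ℤ) ∧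
        (P : ℤ) ∣ s * n - pt κ.I z 0 := by
      intro z hz
      rw [hZ, mem_filter] at hz
      apply HSQ_n p s (v₁ + w) _ hs
      intro n
      have h2 : ‖((pt κ.I z 0 : ℤ) : ℤ_[p])‖ = ‖((s : ℤ) : ℤ_[p])‖ := by
        have h3 : ‖((pt κ.I z 0 : ℤ) : ℤ_[p]) - pt κ.I M 0‖ ≤ (p : ℝ) ^ (-(f : ℤ)) := by
          rw [HSQ_ptcast, PadicInt.norm_le_pow_iff_mem_span_pow, Ideal.mem_span_singleton]
          apply HSQ_pt_dvd
          intro i
          rw [← Ideal.mem_span_singleton, ← PadicInt.norm_le_pow_iff_mem_span_pow]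
          exact hz.2.2 i
        have h4 : (p : ℝ) ^ (-(f : ℤ)) < ‖((s : ℤ) : ℤ_[p])‖ := by
          by_contra hcon
          push Not at hcon
          rw [HSQ_norm] at hcon
          exact hfs (by exact_mod_cast hcon)
        have h5 : ‖pt κ.I M 0‖ = ‖((s : ℤ) : ℤ_[p])‖ := by rw [hM0]; push_cast; rfl
        rw [← h5]
        apply HSQ_nle
        rw [h5]
        exact lt_of_le_of_lt h3 h4
      rw [← HSQ_norm, h2, HSQ_norm]
      exact_mod_cast Iff.rfl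
    choose! n hn1 hn2 hn3 using hn
    have hcoords : ∀ z ∈ Z, ∀ i : Fin (k + 2), (P : ℤ) ∣
        tt ((s : ℤ) * n z) (pt κ.I z 1) (fun j => zc (pt κ.I z) j % (P : ℤ)) i - pt κ.I z i := by
      intro z hz i
      refine Fin.cases ?_ (fun i => ?_) i
      · exact hn3 z hz
      · refine Fin.cases ?_ (fun i => ?_) i
        · show (P : ℤ) ∣ pt κ.I z 1 - pt κ.I z 1
          simp
        · show (P : ℤ) ∣ zc (pt κ.I z) i % (P : ℤ) - zc (pt κ.I z) i
          rw [Int.emod_def]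
          exact ⟨-(zc (pt κ.I z) i / P), by ring⟩
    have hback : ∀ z ∈ Z, ∀ i : Fin (k + 2), (P : ℤ) ∣
        pt κ.M (tt ((s : ℤ) * n z) (pt κ.I z 1) (fun j => zc (pt κ.I z) j % (P : ℤ))) i - z i := by
      intro z hz i
      have h2 := HSQ_pt_dvd κ.M (P : ℤ) _ _ (hcoords z hz) i
      rwa [(hPTI k c κ hok ℤ z).1] at h2
    have hFc : ∀ z ∈ Z, (P : ℤ) ∣ FF c
        (pt κ.M (tt ((s : ℤ) * n z) (pt κ.I z 1) (fun j => zc (pt κ.I z) j % (P : ℤ)))) := by
      intro z hz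
      have h2 := (hCNG ℤ (Fin (k + 2)) Unit (fun _ => ()) (fun _ => 2) c c _ z (P : ℤ)
        (fun s => by simp) (hback z hz)).1
      have h3 : (P : ℤ) ∣ FF c z := by
        rw [hZ, mem_filter] at hz
        exact hz.2.1 0
      exact (dvd_iff_dvd_of_dvd_sub h2).2 h3
    have hFa : ∀ z ∈ Z, (P : ℤ) ∣ FF a
        (pt κ.M (tt ((s : ℤ) * n z) (pt κ.I z 1) (fun j => zc (pt κ.I z) j % (P : ℤ)))) := by
      intro z hz
      have h2 := (hCNG ℤ (Fin (k + 2)) Unit (fun _ => ()) (fun _ => 2) a a _ z (P : ℤ)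
        (fun s => by simp) (hback z hz)).1
      have h3 : (P : ℤ) ∣ FF a z := by
        rw [hZ, mem_filter] at hz
        exact hz.2.1 1
      exact (dvd_iff_dvd_of_dvd_sub h2).2 h3
    have hform : ∀ z ∈ Z, (P : ℤ) ∣ κ.D * (s * n z * pt κ.I z 1) +
        TT κ ((s : ℤ) * n z) (fun j => zc (pt κ.I z) j % (P : ℤ)) := by
      intro z hz
      have h2 := hok.form ℤ (tt ((s : ℤ) * n z) (pt κ.I z 1) (fun j => zc (pt κ.I z) j % (P : ℤ)))
      have h3 := hFc z hz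
      simp only [Int.cast_id] at h2
      exact (congrArg (fun y => (P : ℤ) ∣ y) h2).mp h3
    have hpf : ((p ^ f : ℕ) : ℤ) ∣ (P : ℤ) := by
      rw [hP]
      exact_mod_cast pow_dvd_pow p (by omega)
    have hpw : ((p ^ w : ℕ) : ℤ) ∣ (P : ℤ) := by
      rw [hP]
      exact_mod_cast pow_dvd_pow p (by omega)
    have hmem : ∀ z ∈ Z, (n z, fun j => zc (pt κ.I z) j % (P : ℤ)) ∈
        Gc κ s (p ^ v₁) (p ^ w) (p ^ f) τ a := by
      intro z hz
      have hz' := hz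
      rw [hZ, mem_filter] at hz'
      unfold Gc
      rw [mem_filter, mem_product, hPm]
      refine ⟨⟨?_, ?_⟩, hn2 z hz, ?_⟩
      · rw [mem_Ico]
        exact hn1 z hz
      · unfold cs
        rw [Fintype.mem_piFinset]
        intro j
        rw [mem_Ico]
        exact ⟨Int.emod_nonneg _ hPZ.ne', Int.emod_lt_of_pos _ hPZ⟩
      · refine ⟨pt κ.I z 1, ?_, ?_, ?_, ?_⟩
        · rw [hPm]
          exact hform z hz
        · exact hpw.trans (hFa z hz)
        · intro v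
          have h2 : ((p ^ f : ℕ) : ℤ) ∣ z v - τ v := by
            rw [← HSQ_norm]
            push_cast
            have h3 := PadicInt.nonarchimedean ((z v : ℤ_[p]) - M v) (-((τ v : ℤ_[p]) - M v))
            have h4 : (z v : ℤ_[p]) - M v + -((τ v : ℤ_[p]) - M v) = (z v : ℤ_[p]) - τ v := by ring
            rw [h4, norm_neg] at h3
            exact h3.trans (max_le (hz'.2.2 v) (hτ v))
          have h5 := hpf.trans (hback z hz v)
          have h6 := dvd_add h5 h2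
          rw [sub_add_sub_cancel] at h6
          exact h6
        · intro q hq hqw
          have hqp : q = p := (Nat.prime_dvd_prime_iff_eq hq hp.out).1 (hq.dvd_of_dvd_pow hqw)
          subst hqp
          refine ⟨vM, fun hd => ?_⟩
          have h2 : (q : ℤ) ∣ z vM := by
            have h3 : (q : ℤ) ∣ (P : ℤ) := by
              refine dvd_trans ?_ hpf
              exact_mod_cast dvd_pow_self q (by omega)
            have h4 := h3.trans (hback z hz vM)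
            exact (dvd_iff_dvd_of_dvd_sub h4).1 hd
          have h5 : ‖((z vM : ℤ) : ℤ_[q])‖ < 1 := by
            rw [PadicInt.norm_int_lt_one_iff_dvd]
            exact h2
          have h6 : ‖(z vM : ℤ_[q]) - M vM‖ < 1 := by
            refine lt_of_le_of_lt (hz'.2.2 vM) ?_
            rw [zpow_neg, zpow_natCast]
            exact inv_lt_one_of_one_lt₀ (one_lt_pow₀ hp1 (by omega))
          have h7 := PadicInt.nonarchimedean (-((z vM : ℤ_[q]) - M vM)) (z vM : ℤ_[q])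
          have h8 : -((z vM : ℤ_[q]) - M vM) + (z vM : ℤ_[q]) = M vM := by ring
          rw [h8, norm_neg, hvM] at h7
          exact absurd h7 (not_le.2 (max_lt h6 h5))
    have hc2 : ((Gc κ s (p ^ v₁) (p ^ w) (p ^ f) τ a) ×ˢ
        (Finset.Ico (0 : ℤ) ((p ^ v₁ : ℕ) : ℤ))).card =
        (Gc κ s (p ^ v₁) (p ^ w) (p ^ f) τ a).card * p ^ v₁ := by
      rw [card_product, Int.card_Ico, sub_zero, Int.toNat_natCast]
    rw [← hc2]
    have hpwpos : (0 : ℤ) < ((p ^ w : ℕ) : ℤ) := by exact_mod_cast pow_pos hp.out.pos w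
    apply Finset.card_le_card_of_injOn (fun z => ((n z, fun j => zc (pt κ.I z) j % (P : ℤ)),
      (pt κ.I z 1 % (P : ℤ)) / ((p ^ w : ℕ) : ℤ)))
    · intro z hz
      rw [mem_coe] at hz
      rw [mem_coe, mem_product]
      refine ⟨hmem z hz, ?_⟩
      rw [mem_Ico]
      refine ⟨Int.ediv_nonneg (Int.emod_nonneg _ hPZ.ne') hpwpos.le, ?_⟩
      rw [Int.ediv_lt_iff_lt_mul hpwpos]
      have h2 := Int.emod_lt_of_pos (pt κ.I z 1) hPZ
      refine lt_of_lt_of_eq h2 ?_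
      rw [← hPm]
      push_cast
      rfl
    · intro z hz z' hz' heq
      rw [mem_coe] at hz hz'
      simp only [Prod.mk.injEq] at heq
      obtain ⟨⟨heq1, heq2⟩, heq3⟩ := heq
      have e1 := hform z hz
      have e2 := hform z' hz'
      rw [← heq1, ← heq2] at e2
      have e3 := dvd_sub e1 e2
      have e4 : (κ.D : ℤ) * (s * n z * pt κ.I z 1) +
          TT κ ((s : ℤ) * n z) (fun j => zc (pt κ.I z) j % (P : ℤ)) -
          (κ.D * (s * n z * pt κ.I z' 1) +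
          TT κ ((s : ℤ) * n z) (fun j => zc (pt κ.I z) j % (P : ℤ))) =
          n z * (((κ.D * s : ℕ) : ℤ) * (pt κ.I z 1 - pt κ.I z' 1)) := by
        push_cast
        ring
      rw [e4] at e3
      have e5 : (P : ℤ) ∣ ((κ.D * s : ℕ) : ℤ) * (pt κ.I z 1 - pt κ.I z' 1) :=
        (hn2 z hz).symm.dvd_of_dvd_mul_left e3
      obtain ⟨m, hm⟩ := hv1
      have hpm : ¬ (p : ℤ) ∣ (m : ℤ) := by
        intro hd
        apply hv2
        rw [hm, pow_succ]
        exact mul_dvd_mul_left _ (by exact_mod_cast hd)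
      have e6 : ((p ^ w : ℕ) : ℤ) ∣ pt κ.I z 1 - pt κ.I z' 1 := by
        rw [hm, ← hPm] at e5
        push_cast at e5
        rw [mul_assoc] at e5
        have hpv : (p : ℤ) ^ v₁ ≠ 0 := pow_ne_zero _ (by exact_mod_cast hp.out.ne_zero)
        have e7 := (mul_dvd_mul_iff_left hpv).1 e5
        have hcop : IsCoprime ((p : ℤ) ^ w) (m : ℤ) := by
          apply IsCoprime.pow_left
          exact (Prime.coprime_iff_not_dvd (Nat.prime_iff_prime_int.1 hp.out)).2 hpm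
        push_cast
        exact hcop.dvd_of_dvd_mul_left e7
      have e8 : pt κ.I z 1 % (P : ℤ) = pt κ.I z' 1 % (P : ℤ) := by
        have e9 : (pt κ.I z 1 % (P : ℤ)) % ((p ^ w : ℕ) : ℤ) =
            (pt κ.I z' 1 % (P : ℤ)) % ((p ^ w : ℕ) : ℤ) := by
          rw [Int.emod_emod_of_dvd _ hpw, Int.emod_emod_of_dvd _ hpw]
          exact (Int.modEq_iff_dvd.2 e6).symm
        rw [← Int.emod_add_mul_ediv (pt κ.I z 1 % (P : ℤ)) ((p ^ w : ℕ) : ℤ),
          ← Int.emod_add_mul_ediv (pt κ.I z' 1 % (P : ℤ)) ((p ^ w : ℕ) : ℤ), e9, heq3]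
      have e10 : ∀ i, (P : ℤ) ∣ pt κ.I z i - pt κ.I z' i := by
        intro i
        have e11 := hcoords z hz i
        have e12 := hcoords z' hz' i
        have e13 : (P : ℤ) ∣ pt κ.I z 1 - pt κ.I z' 1 :=
          Int.ModEq.dvd (show pt κ.I z' 1 ≡ pt κ.I z 1 [ZMOD (P : ℤ)] from e8.symm)
        have e14 : (P : ℤ) ∣ tt ((s : ℤ) * n z) (pt κ.I z 1)
            (fun j => zc (pt κ.I z) j % (P : ℤ)) i -
            tt ((s : ℤ) * n z) (pt κ.I z' 1) (fun j => zc (pt κ.I z) j % (P : ℤ)) i := by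
          refine Fin.cases ?_ (fun i => ?_) i
          · show (P : ℤ) ∣ (s : ℤ) * n z - s * n z
            simp
          · refine Fin.cases ?_ (fun i => ?_) i
            · exact e13
            · show (P : ℤ) ∣ zc (pt κ.I z) i % (P : ℤ) - zc (pt κ.I z) i % (P : ℤ)
              simp
        rw [← heq1, ← heq2] at e12
        have e15 := dvd_sub (dvd_add e14 e12) e11
        refine (congrArg (fun y => (P : ℤ) ∣ y) ?_).mp e15
        ring
      funext i
      have e18 := HSQ_pt_dvd κ.M (P : ℤ) _ _ e10 i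
      rw [(hPTI k c κ hok ℤ z).1, (hPTI k c κ hok ℤ z').1] at e18
      rw [hZ, mem_filter] at hz hz'
      have e19 := hz.1
      have e20 := hz'.1
      unfold cs at e19 e20
      rw [Fintype.mem_piFinset] at e19 e20
      have e21 := e19 i
      have e22 := e20 i
      rw [mem_Ico] at e21 e22
      have e23 := Int.ModEq.symm ((Int.modEq_iff_dvd).2 e18)
      have e24 : z i % (P : ℤ) = z' i % (P : ℤ) := e23
      rwa [Int.emod_eq_of_lt e21.1 e21.2, Int.emod_eq_of_lt e22.1 e22.2] at e24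
  have h9 : p ^ (k * (v₁ + w - E)) ≤ (Gc κ s (p ^ v₁) (p ^ w) (p ^ f) τ a).card * p ^ v₁ :=
    le_trans (le_of_le_of_eq h1 (by rw [hZ]; congr)) key
  have h10 : (p ^ (v₁ + w)) ^ (k + 1) =
      p ^ (k * (v₁ + w - E)) * (p ^ (k * E + v₁) * p ^ w) := by
    rw [← pow_mul, ← pow_add, ← pow_add]
    congr 1
    obtain ⟨r, hr⟩ := Nat.exists_eq_add_of_le hwE
    have h11 : v₁ + w - E = v₁ + r := by omega
    rw [h11, hr]
    ring
  rw [h10]
  calc p ^ (k * (v₁ + w - E)) * (p ^ (k * E + v₁) * p ^ w)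
      ≤ ((Gc κ s (p ^ v₁) (p ^ w) (p ^ f) τ a).card * p ^ v₁) *
        (p ^ (k * E + v₁) * p ^ w) := Nat.mul_le_mul_right _ h9
    _ = p ^ (k * E + 2 * v₁) * p ^ w * (Gc κ s (p ^ v₁) (p ^ w) (p ^ f) τ a).card := by
        rw [two_mul, ← add_assoc, pow_add (a := p) (m := k * E + v₁) (n := v₁)]
        ring

end Pool.FQ
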