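import Pool.Agent.Work.MP_9fb703_fq.Interface1

set_option autoImplicit false

namespace Pool.FQ

open Finset

/-- the geometric sum over an interval of integers -/
theorem INC_geom (ω : ℂ) (hω : ω ≠ 0) (u : ℤ) (L : ℕ) :
    (∑ z ∈ Finset.Ico u (u + L), ω ^ z) * (ω - 1) = ω ^ (u + L) - ω ^ u := by
  have h1 : ∑ z ∈ Finset.Ico u (u + L), ω ^ z = ∑ k ∈ Finset.range L, ω ^ (u + k) := by
    refine Finset.sum_nbij' (fun z => (z - u).toNat) (fun k => u + k) ?_ ?_ ?_ ?_ ?_
    · intro z hz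
      rw [Finset.mem_Ico] at hz
      rw [Finset.mem_range]
      omega
    · intro k hk
      rw [Finset.mem_range] at hk
      rw [Finset.mem_Ico]
      omega
    · intro z hz
      rw [Finset.mem_Ico] at hz
      show u + ((z - u).toNat : ℤ) = z
      omega
    · intro k _
      show (u + (k : ℤ) - u).toNat = k
      omega
    · intro z hz
      rw [Finset.mem_Ico] at hz
      show ω ^ z = ω ^ (u + ((z - u).toNat : ℤ))
      congr 1
      omega
  rw [h1]
  have h2 : ∀ k : ℕ, ω ^ (u + (k : ℤ)) = ω ^ u * ω ^ k := by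
    intro k
    rw [zpow_add₀ hω, zpow_natCast]
  simp_rw [h2]
  rw [← Finset.mul_sum, mul_assoc, geom_sum_mul]
  ring

/-- lower bound for the sine -/
theorem INC_sin (n k : ℕ) (hk : 1 ≤ k) (hkn : k < n) :
    (2 : ℝ) / n * min (k : ℝ) (n - k) ≤ Real.sin (Real.pi * k / n) := by
  have hn : (0 : ℝ) < n := by
    have : 0 < n := by omega
    exact_mod_cast this
  have hπ := Real.pi_pos
  have hk0 : (0 : ℝ) ≤ k := by positivity
  have hkn' : (k : ℝ) ≤ n := by exact_mod_cast hkn.le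
  by_cases h : 2 * k ≤ n
  · have h' : 2 * (k : ℝ) ≤ n := by exact_mod_cast h
    have h1 : Real.pi * k / n ≤ Real.pi / 2 := by
      rw [div_le_div_iff₀ hn (by norm_num)]
      nlinarith
    have h2 := Real.mul_le_sin (x := Real.pi * k / n) (by positivity) h1
    have h3 : 2 / Real.pi * (Real.pi * k / n) = 2 / n * k := by
      field_simp
    rw [h3] at h2
    refine le_trans (mul_le_mul_of_nonneg_left (min_le_left _ _) (by positivity)) h2
  · have h' : (n : ℝ) ≤ 2 * k := by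
      have : n ≤ 2 * k := by omega
      exact_mod_cast this
    have h0 : Real.sin (Real.pi * k / n) = Real.sin (Real.pi * (n - k) / n) := by
      rw [← Real.sin_pi_sub]
      congr 1
      field_simp
    have h1 : Real.pi * (n - k) / n ≤ Real.pi / 2 := by
      rw [div_le_div_iff₀ hn (by norm_num)]
      nlinarith
    have h4 : (0 : ℝ) ≤ n - k := by linarith
    have h2 := Real.mul_le_sin (x := Real.pi * (n - k) / n) (by positivity) h1
    have h3 : 2 / Real.pi * (Real.pi * (n - k) / n) = 2 / n * (n - k) := by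
      field_simp
    rw [h3] at h2
    rw [h0]
    refine le_trans (mul_le_mul_of_nonneg_left (min_le_right _ _) (by positivity)) h2

/-- the bound for one character -/
theorem INC_one (n : ℕ) [NeZero n] (u : ℤ) (L : ℕ) (h : ZMod n) (hh : h ≠ 0) :
    ‖∑ z ∈ Finset.Ico u (u + L), (ZMod.stdAddChar (h * (z : ZMod n)) : ℂ)‖ ≤
      n / 2 * (1 / (h.val : ℝ) + 1 / ((n : ℝ) - h.val)) := by
  set ω : ℂ := ZMod.stdAddChar h with hω
  have hn0 : n ≠ 0 := NeZero.ne n
  have hn : (0 : ℝ) < n := by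
    have : 0 < n := Nat.pos_of_ne_zero hn0
    exact_mod_cast this
  have hnorm : ‖ω‖ = 1 := by
    rw [hω, ZMod.stdAddChar_apply]
    exact Circle.norm_coe _
  have hω0 : ω ≠ 0 := by
    intro h0
    rw [h0, norm_zero] at hnorm
    exact zero_ne_one hnorm
  have hterm : ∀ z : ℤ, (ZMod.stdAddChar (h * (z : ZMod n)) : ℂ) = ω ^ z := by
    intro z
    rw [mul_comm, ← zsmul_eq_mul, AddChar.map_zsmul_eq_zpow]
  simp_rw [hterm]
  have hg := INC_geom ω hω0 u L
  have hg2 : ‖∑ z ∈ Finset.Ico u (u + L), ω ^ z‖ * ‖ω - 1‖ ≤ 2 := by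
    rw [← norm_mul, hg]
    refine (norm_sub_le _ _).trans ?_
    rw [norm_zpow, norm_zpow, hnorm, one_zpow, one_zpow]
    norm_num
  set k := h.val with hk
  have hk1 : 1 ≤ k := by
    rw [Nat.one_le_iff_ne_zero]
    intro h0
    exact hh ((ZMod.val_eq_zero h).1 h0)
  have hkn : k < n := ZMod.val_lt h
  have hk1' : (1 : ℝ) ≤ k := by exact_mod_cast hk1
  have hkn' : (k : ℝ) < n := by exact_mod_cast hkn
  have hsin := INC_sin n k hk1 hkn
  have hm : (0 : ℝ) < min (k : ℝ) (n - k) := lt_min (by linarith) (by linarith)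
  have hω1 : ‖ω - 1‖ = 2 * Real.sin (Real.pi * k / n) := by
    have h1 : ω = Complex.exp (Complex.I * ((2 * Real.pi * k / n : ℝ) : ℂ)) := by
      rw [hω, ZMod.stdAddChar_apply, ZMod.toCircle_apply]
      congr 1
      push_cast
      ring
    rw [h1, Complex.norm_exp_I_mul_ofReal_sub_one]
    have h2 : 2 * Real.pi * k / n / 2 = Real.pi * k / n := by ring
    rw [h2, Real.norm_eq_abs, abs_of_nonneg]
    have h3 : 0 ≤ Real.sin (Real.pi * k / n) := le_trans (by positivity) hsin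
    linarith
  have hlow : 4 / n * min (k : ℝ) (n - k) ≤ ‖ω - 1‖ := by
    rw [hω1]
    have : 4 / n * min (k : ℝ) (n - k) = 2 * (2 / n * min (k : ℝ) (n - k)) := by ring
    rw [this]
    linarith
  have hpos : 0 < 4 / n * min (k : ℝ) (n - k) := by positivity
  have hb : ‖∑ z ∈ Finset.Ico u (u + L), ω ^ z‖ ≤ n / 2 * (1 / min (k : ℝ) (n - k)) := by
    have h1 : ‖∑ z ∈ Finset.Ico u (u + L), ω ^ z‖ * (4 / n * min (k : ℝ) (n - k)) ≤ 2 :=
      (mul_le_mul_of_nonneg_left hlow (norm_nonneg _)).trans hg2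
    have h2 : n / 2 * (1 / min (k : ℝ) (n - k)) = 2 / (4 / n * min (k : ℝ) (n - k)) := by
      field_simp
      norm_num
    rw [h2, le_div_iff₀ hpos]
    exact h1
  refine hb.trans (mul_le_mul_of_nonneg_left ?_ (by positivity))
  have h5 : (0 : ℝ) < n - k := by linarith
  have h6 : (0 : ℝ) < k := by linarith
  rcases min_choice (k : ℝ) ((n : ℝ) - k) with h7 | h7 <;> rw [h7]
  · have : 0 < 1 / ((n : ℝ) - k) := by positivity
    linarith
  · have : 0 < 1 / (k : ℝ) := by positivity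
    linarith

/-- the harmonic sum -/
theorem INC_harm (m : ℕ) :
    ∑ k ∈ Finset.range m, (1 / ((k + 1 : ℕ) : ℝ) + 1 / (((m + 1 : ℕ) : ℝ) - ((k + 1 : ℕ) : ℝ))) ≤
      2 * (1 + Real.log ((m + 1 : ℕ) : ℝ)) := by
  have h0 : ∑ k ∈ Finset.range m, 1 / ((k + 1 : ℕ) : ℝ) ≤ 1 + Real.log ((m + 1 : ℕ) : ℝ) := by
    have h1 := harmonic_le_one_add_log m
    have h2 : ((harmonic m : ℚ) : ℝ) = ∑ k ∈ Finset.range m, 1 / ((k + 1 : ℕ) : ℝ) := by
      unfold harmonic
      push_cast
      exact Finset.sum_congr rfl fun k _ => by rw [one_div]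
    rw [h2] at h1
    refine h1.trans ?_
    have h3 : Real.log (m : ℝ) ≤ Real.log ((m + 1 : ℕ) : ℝ) := by
      rcases Nat.eq_zero_or_pos m with hm | hm
      · subst hm
        simp
      · exact Real.log_le_log (by exact_mod_cast hm) (by push_cast; linarith)
    linarith
  have h4 : ∑ k ∈ Finset.range m, 1 / (((m + 1 : ℕ) : ℝ) - ((k + 1 : ℕ) : ℝ)) =
      ∑ k ∈ Finset.range m, 1 / ((k + 1 : ℕ) : ℝ) := by
    rw [← Finset.sum_range_reflect]
    refine Finset.sum_congr rfl fun k hk => ?_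
    rw [Finset.mem_range] at hk
    congr 1
    have h5 : ((m - 1 - k + 1 : ℕ) : ℝ) = (m : ℝ) - k := by
      have h6 : m - 1 - k + 1 = m - k := by omega
      rw [h6, Nat.cast_sub hk.le]
    rw [h5]
    push_cast
    ring
  rw [Finset.sum_add_distrib, h4]
  linarith

theorem INC_range (n : ℕ) (hn : n ≠ 0) :
    ∑ k ∈ Finset.range n, (if k = 0 then (n : ℝ) else
      (n : ℝ) / 2 * (1 / (k : ℝ) + 1 / ((n : ℝ) - k))) ≤ n * (2 + Real.log n) := by
  obtain ⟨m, rfl⟩ : ∃ m, n = m + 1 := ⟨n - 1, by omega⟩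
  rw [Finset.sum_range_succ']
  simp only [if_true, Nat.add_eq_zero_iff, one_ne_zero, and_false, if_false]
  rw [← Finset.mul_sum]
  have h1 := INC_harm m
  have h2 : (0 : ℝ) ≤ ((m + 1 : ℕ) : ℝ) / 2 := by positivity
  have h3 := mul_le_mul_of_nonneg_left h1 h2
  have h4 : ((m + 1 : ℕ) : ℝ) * (2 + Real.log ((m + 1 : ℕ) : ℝ)) =
      ((m + 1 : ℕ) : ℝ) / 2 * (2 * (1 + Real.log ((m + 1 : ℕ) : ℝ))) + ((m + 1 : ℕ) : ℝ) := by
    ring
  rw [h4]
  linarith

theorem p_INC : Stmt_INC := by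
  intro n _ u L hL
  have hn0 : n ≠ 0 := NeZero.ne n
  let F : ℕ → ℝ := fun k => if k = 0 then (n : ℝ) else
      (n : ℝ) / 2 * (1 / (k : ℝ) + 1 / ((n : ℝ) - k))
  have hF : ∀ h : ZMod n,
      ‖∑ z ∈ Finset.Ico u (u + L), (ZMod.stdAddChar (h * (z : ZMod n)) : ℂ)‖ ≤ F h.val := by
    intro h
    by_cases hh : h = 0
    · subst hh
      simp only [F, zero_mul, ZMod.val_zero, if_true]
      rw [AddChar.map_zero_eq_one]
      rw [Finset.sum_const, Int.card_Ico]
      have : (u + (L : ℤ) - u).toNat = L := by omega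
      rw [this, nsmul_eq_mul, mul_one, Complex.norm_natCast]
      exact_mod_cast hL
    · have h1 : h.val ≠ 0 := fun h0 => hh ((ZMod.val_eq_zero h).1 h0)
      simp only [F, if_neg h1]
      exact INC_one n u L h hh
  refine (Finset.sum_le_sum fun h _ => hF h).trans ?_
  have hsum : ∑ h : ZMod n, F h.val = ∑ k ∈ Finset.range n, F k := by
    refine Finset.sum_nbij' (fun h => h.val) (fun k => (k : ZMod n)) ?_ ?_ ?_ ?_ ?_
    · intro h _
      exact Finset.mem_range.2 (ZMod.val_lt h)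
    · intro k _
      exact Finset.mem_univ _
    · intro h _
      exact ZMod.natCast_zmod_val h
    · intro k hk
      exact ZMod.val_cast_of_lt (Finset.mem_range.1 hk)
    · intro h _
      rfl
  rw [hsum]
  exact INC_range n hn0

end Pool.FQ
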