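import Pool.Agent.Work.MP_9fb703_fq.Interface1

/-! # Block ISO (helper37): isotropic vectors are not in a finite union of hyperplanes -/

set_option autoImplicit false

namespace Pool.FQ

open Finset
open Pool.HPQ (Fw Lam Kw fl rd cs Ww)
open Pool.CB (VV Sol PSN PH lin dl)
open Pool.GE
open Pool.GR (SingPr)

theorem ISO_cont {τ : Type} [Fintype τ] (y : τ → ℤ) (hy : y ≠ 0) :
    ∃ (g : ℤ) (e : τ → ℤ), g ≠ 0 ∧ Prm e ∧ ∀ v, y v = g * e v := by
  obtain ⟨g, hg⟩ := (IsPrincipalIdealRing.principal (Ideal.span (Set.range y))).principal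
  have h1 : ∀ v, ∃ e : ℤ, y v = g * e := by
    intro v
    have h2 : y v ∈ Ideal.span (Set.range y) := Ideal.subset_span ⟨v, rfl⟩
    rw [hg] at h2
    obtain ⟨a, ha⟩ := Submodule.mem_span_singleton.1 h2
    exact ⟨a, by rw [← ha, smul_eq_mul, mul_comm]⟩
  choose e he using h1
  have h3 : g ∈ Ideal.span (Set.range y) := by
    rw [hg]
    exact Submodule.mem_span_singleton_self g
  obtain ⟨c, hc⟩ := Ideal.mem_span_range_iff_exists_fun.1 h3
  have hg0 : g ≠ 0 := by
    intro h0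
    apply hy
    funext v
    rw [he v, h0, zero_mul]
    rfl
  refine ⟨g, e, hg0, ⟨c, ?_⟩, he⟩
  have h4 : g * ∑ v, c v * e v = g * 1 := by
    rw [mul_one]
    calc g * ∑ v, c v * e v = ∑ v, c v * y v := by
          rw [Finset.mul_sum]
          refine Finset.sum_congr rfl fun v _ => ?_
          rw [he v]
          ring
      _ = g := hc
  exact mul_left_cancel₀ hg0 h4

theorem ISO_FF_cast {R : Type} [CommRing R] {k : ℕ} (c : IQ k → ℤ) (x : Fin (k + 2) → ℤ) :
    FF (fun s => (c s : R)) (fun v => (x v : R)) = ((FF c x : ℤ) : R) := by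
  unfold FF mv
  push_cast
  rfl

theorem ISO_clear {n : ℕ} (x : Fin n → ℚ) (hx : x ≠ 0) :
    ∃ (N : ℚ) (y : Fin n → ℤ), N ≠ 0 ∧ y ≠ 0 ∧ ∀ v, (y v : ℚ) = N * x v := by
  have h1 : ∀ v, ∃ a : ℕ, (∏ w, (x w).den) = (x v).den * a := fun v =>
    Finset.dvd_prod_of_mem (fun w => (x w).den) (mem_univ v)
  choose a ha using h1
  have hN : ((∏ w, (x w).den : ℕ) : ℚ) ≠ 0 := by
    rw [Nat.cast_ne_zero]
    exact Finset.prod_ne_zero_iff.2 fun v _ => (x v).den_nz
  have hy : ∀ v, (((a v : ℤ) * (x v).num : ℤ) : ℚ) = ((∏ w, (x w).den : ℕ) : ℚ) * x v := by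
    intro v
    rw [ha v]
    push_cast
    have h2 : (x v) = (x v).num / (x v).den := (Rat.num_div_den (x v)).symm
    have h3 : ((x v).den : ℚ) ≠ 0 := Nat.cast_ne_zero.2 (x v).den_nz
    have h4 : ((x v).den : ℚ) * x v = (x v).num := by
      rw [mul_comm]
      exact Rat.mul_den_eq_num (x v)
    rw [mul_assoc, mul_comm (a v : ℚ) (x v), ← mul_assoc, h4, mul_comm]
  refine ⟨_, fun v => (a v : ℤ) * (x v).num, hN, ?_, hy⟩
  intro h0
  apply hx
  funext v
  have h5 := hy v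
  have h6 : (a v : ℤ) * (x v).num = 0 := congrFun h0 v
  rw [h6, Int.cast_zero] at h5
  rcases mul_eq_zero.1 h5.symm with h7 | h7
  · exact absurd h7 hN
  · exact h7

theorem ISO_ex (hQ : Stmt_QAD) {k : ℕ} (c : IQ k → ℤ) (h : Isq c) :
    ∃ e : Fin (k + 2) → ℤ, Prm e ∧ FF c e = 0 := by
  obtain ⟨x, hx, hF⟩ := h
  obtain ⟨N, y, hN, hy, hyN⟩ := ISO_clear x hx
  obtain ⟨g, e, hg, he, hge⟩ := ISO_cont y hy
  refine ⟨e, he, ?_⟩
  have h1 : FF (fun s => (c s : ℚ)) (fun v => (y v : ℚ)) = 0 := by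
    have h2 : (fun v => (y v : ℚ)) = fun v => N * x v := funext hyN
    rw [h2, (hQ ℚ k (fun s => (c s : ℚ)) x x N).2.1, hF, mul_zero]
  rw [ISO_FF_cast] at h1
  have h3 : FF c y = 0 := by exact_mod_cast h1
  have h4 : y = fun v => g * e v := funext hge
  rw [h4, (hQ ℤ k c e e g).2.1] at h3
  rcases mul_eq_zero.1 h3 with h5 | h5
  · exact absurd (pow_eq_zero_iff (two_ne_zero)|>.1 h5) hg
  · exact h5

theorem ISO_sum {R : Type} [CommRing R] {k : ℕ} (f : Fin (k + 2) → R) :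
    ∑ i, f i = f 0 + (f 1 + ∑ j : Fin k, f j.succ.succ) := by
  rw [Fin.sum_univ_succ, Fin.sum_univ_succ]
  rfl

/-- The polynomial. -/
noncomputable def ISO_P {k : ℕ} (κ : Crd k) (l' : Fin (k + 2) → ℤ) : MvPolynomial (Fin k) ℤ :=
  MvPolynomial.C (l' 0 * κ.D) +
    (MvPolynomial.C (l' 1) * (-(∑ i, ∑ j, MvPolynomial.C (κ.g i j) *
        (MvPolynomial.X i * MvPolynomial.X j) +
      ∑ j, MvPolynomial.C (κ.ll j) * MvPolynomial.X j + MvPolynomial.C κ.c0)) +
    ∑ j : Fin k, MvPolynomial.C (l' j.succ.succ) * (MvPolynomial.C (κ.D : ℤ) *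
      MvPolynomial.X j))

theorem ISO_eval {k : ℕ} (κ : Crd k) (l' : Fin (k + 2) → ℤ) (z : Fin k → ℤ) :
    MvPolynomial.eval z (ISO_P κ l') = l' 0 * κ.D +
      (l' 1 * (-(qd κ.g z + ∑ j, κ.ll j * z j + κ.c0)) +
        ∑ j : Fin k, l' j.succ.succ * (κ.D * z j)) := by
  unfold ISO_P qd
  simp only [map_add, map_mul, map_neg, map_sum, MvPolynomial.eval_C, MvPolynomial.eval_X,
    Int.cast_id]

theorem ISO_single_sum {k : ℕ} (f : Fin k → ℤ) (j : Fin k) (s : ℤ) :
    ∑ i, f i * (Pi.single j s : Fin k → ℤ) i = f j * s := by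
  rw [Finset.sum_eq_single j]
  · rw [Pi.single_eq_same]
  · intro i _ hi
    rw [Pi.single_eq_of_ne hi, mul_zero]
  · intro h
    exact absurd (mem_univ j) h

theorem ISO_qd_single {k : ℕ} (g : Fin k → Fin k → ℤ) (j : Fin k) (s : ℤ) :
    qd g (Pi.single j s : Fin k → ℤ) = g j j * s ^ 2 := by
  unfold qd
  simp only [Int.cast_id]
  rw [Finset.sum_eq_single j]
  · rw [Finset.sum_eq_single j]
    · rw [Pi.single_eq_same]
      ring
    · intro i _ hi
      rw [Pi.single_eq_of_ne hi, mul_zero, mul_zero]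
    · intro h
      exact absurd (mem_univ j) h
  · intro i _ hi
    apply Finset.sum_eq_zero
    intro i' _
    rw [Pi.single_eq_of_ne hi, zero_mul, mul_zero]
  · intro h
    exact absurd (mem_univ j) h

theorem ISO_P_ne {k : ℕ} {c : IQ k → ℤ} (κ : Crd k) (hκ : Ok c κ) (l' : Fin (k + 2) → ℤ)
    (hl : l' ≠ 0) : ISO_P κ l' ≠ 0 := by
  intro h0
  have hD : (κ.D : ℤ) ≠ 0 := by
    have := hκ.Dpos
    omega
  have hev : ∀ z, l' 0 * κ.D + (l' 1 * (-(qd κ.g z + ∑ j, κ.ll j * z j + κ.c0)) +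
      ∑ j : Fin k, l' j.succ.succ * (κ.D * z j)) = 0 := by
    intro z
    rw [← ISO_eval, h0, map_zero]
  have hs : ∀ (j : Fin k) (s : ℤ), l' 0 * κ.D + (l' 1 * (-(κ.g j j * s ^ 2 + κ.ll j * s + κ.c0)) +
      l' j.succ.succ * (κ.D * s)) = 0 := by
    intro j s
    have h1 := hev (Pi.single j s)
    rw [ISO_qd_single, ISO_single_sum] at h1
    have h2 : ∑ i : Fin k, l' i.succ.succ * (κ.D * (Pi.single j s : Fin k → ℤ) i) =
        l' j.succ.succ * (κ.D * s) := by
      have h3 := ISO_single_sum (fun i : Fin k => l' i.succ.succ * κ.D) j s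
      simp only [mul_assoc] at h3
      exact h3
    rw [h2] at h1
    exact h1
  obtain ⟨j₀, hj₀⟩ := hκ.last
  have e0 := hs j₀ 0
  have e1 := hs j₀ 1
  have e2 := hs j₀ (-1)
  have hl1 : l' 1 = 0 := by
    have h4 : l' 1 * κ.g j₀ j₀ = 0 := by
      have h5 : 2 * (l' 1 * κ.g j₀ j₀) = 0 := by linear_combination 2 * e0 - e1 - e2
      omega
    rcases mul_eq_zero.1 h4 with h6 | h6
    · exact h6
    · exact absurd h6 hj₀
  have hl0 : l' 0 = 0 := by
    rw [hl1] at e0
    have h7 : l' 0 * κ.D = 0 := by linear_combination e0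
    rcases mul_eq_zero.1 h7 with h8 | h8
    · exact h8
    · exact absurd h8 hD
  apply hl
  funext i
  refine Fin.cases hl0 (fun i => ?_) i
  refine Fin.cases hl1 (fun j => ?_) i
  have e3 := hs j 1
  rw [hl1, hl0] at e3
  have h9 : l' j.succ.succ * κ.D = 0 := by linear_combination e3
  rcases mul_eq_zero.1 h9 with h8 | h8
  · exact h8
  · exact absurd h8 hD

theorem p_ISO (hQ : Stmt_QAD) (hP : Stmt_PTI) (hC : Stmt_CRD) : Stmt_ISO := by
  intro k c hk hN hI S hS
  classical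
  obtain ⟨e₀, he₀, hF₀⟩ := ISO_ex hQ c hI
  obtain ⟨P₁, hP₁⟩ := hC k c hk hN
  obtain ⟨κ, hκ, -, -⟩ := hP₁ e₀ he₀ hF₀
  have hD : (κ.D : ℤ) ≠ 0 := by
    have := hκ.Dpos
    omega
  let L : (Fin (k + 2) → ℤ) → Fin (k + 2) → ℤ := fun l i => ∑ v, l v * κ.M v i
  have hL : ∀ l, l ≠ 0 → L l ≠ 0 := by
    intro l hl h0
    apply hl
    funext w
    have h1 : ∀ i, ∑ v, l v * κ.M v i = 0 := fun i => congrFun h0 i
    calc l w = ∑ v, l v * (if v = w then 1 else 0) := by simp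
      _ = ∑ v, l v * ∑ i, κ.M v i * κ.I i w := by
          refine Finset.sum_congr rfl fun v _ => ?_
          rw [hκ.inv2]
      _ = ∑ i, (∑ v, l v * κ.M v i) * κ.I i w := by
          simp only [Finset.mul_sum, Finset.sum_mul]
          rw [Finset.sum_comm]
          refine Finset.sum_congr rfl fun i _ => Finset.sum_congr rfl fun v _ => ?_
          ring
      _ = 0 := by
          apply Finset.sum_eq_zero
          intro i _
          rw [h1 i, zero_mul]
  have hprod : ∏ l ∈ S, ISO_P κ (L l) ≠ 0 :=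
    Finset.prod_ne_zero_iff.2 fun l hl => ISO_P_ne κ hκ (L l) (hL l (hS l hl))
  obtain ⟨z, hz⟩ : ∃ z, MvPolynomial.eval z (∏ l ∈ S, ISO_P κ (L l)) ≠ 0 := by
    by_contra hcon
    push Not at hcon
    apply hprod
    apply MvPolynomial.funext
    intro z
    rw [hcon z, map_zero]
  rw [map_prod, Finset.prod_ne_zero_iff] at hz
  let t : Fin (k + 2) → ℤ := tt (κ.D : ℤ) (-(qd κ.g z + ∑ j, κ.ll j * z j + κ.c0))
    fun j => κ.D * z j
  have ht0 : t 0 = κ.D := rfl
  have ht1 : t 1 = -(qd κ.g z + ∑ j, κ.ll j * z j + κ.c0) := rfl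
  have htj : ∀ j : Fin k, t j.succ.succ = κ.D * z j := fun j => rfl
  have hztz : zc t = fun j => κ.D * z j := rfl
  have hform := hκ.form ℤ t
  simp only [Int.cast_id] at hform
  have hqd : qd κ.g (fun j => (κ.D : ℤ) * z j) = (κ.D : ℤ) ^ 2 * qd κ.g z := by
    unfold qd
    rw [Finset.mul_sum]
    refine Finset.sum_congr rfl fun i _ => ?_
    rw [Finset.mul_sum]
    refine Finset.sum_congr rfl fun j _ => ?_
    ring
  have hll : ∑ j, κ.ll j * ((κ.D : ℤ) * z j) = κ.D * ∑ j, κ.ll j * z j := by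
    rw [Finset.mul_sum]
    refine Finset.sum_congr rfl fun j _ => ?_
    ring
  have hF : FF c (pt κ.M t) = 0 := by
    rw [hform, hztz, ht0, ht1]
    unfold TT
    simp only [Int.cast_id]
    rw [hqd, hll]
    ring
  have hne : pt κ.M t ≠ 0 := by
    intro h0
    have h1 := (hP k c κ hκ ℤ t).2.1
    rw [h0] at h1
    have h2 := congrFun h1 0
    rw [ht0] at h2
    apply hD
    rw [← h2]
    unfold pt
    simp
  obtain ⟨g, e, hg, he, hge⟩ := ISO_cont (pt κ.M t) hne
  have hfun : pt κ.M t = fun v => g * e v := funext hge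
  refine ⟨e, he, ?_, ?_⟩
  · rw [hfun, (hQ ℤ k c e e g).2.1] at hF
    rcases mul_eq_zero.1 hF with h5 | h5
    · exact absurd ((pow_eq_zero_iff two_ne_zero).1 h5) hg
    · exact h5
  · intro l hl h0
    apply hz l hl
    rw [ISO_eval]
    have h1 : ∑ v, l v * pt κ.M t v = 0 := by
      have h2 : ∑ v, l v * pt κ.M t v = g * ∑ v, l v * e v := by
        rw [Finset.mul_sum]
        refine Finset.sum_congr rfl fun v _ => ?_
        rw [hge v]
        ring
      rw [h2, h0, mul_zero]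
    have h3 : ∑ v, l v * pt κ.M t v = ∑ i, L l i * t i := by
      show ∑ v, l v * pt κ.M t v = ∑ i, (∑ v, l v * κ.M v i) * t i
      unfold pt
      simp only [Int.cast_id, Finset.mul_sum, Finset.sum_mul]
      rw [Finset.sum_comm]
      refine Finset.sum_congr rfl fun i _ => Finset.sum_congr rfl fun v _ => ?_
      ring
    rw [h3, ISO_sum, ht0, ht1] at h1
    simp only [htj] at h1
    exact h1

end Pool.FQ
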