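import Pool.Agent.Work.MP_9fb703_fq.Interface1
import Pool.Agent.Work.MP_a19274_ge.B_DEL

set_option autoImplicit false

/-! # THEOREM FQ, block LPT: points of a plane in a cube -/

namespace Pool.FQ

open Finset
open Pool.HPQ (Fw Lam Kw fl rd cs Ww)
open Pool.CB (VV Sol PSN PH lin dl)
open Pool.GE
open Pool.GR (SingPr)

/-- the number of integers in a real interval -/
theorem LPT_cnt (c r : ℝ) (hr : 0 ≤ r) : ((Finset.Icc ⌈c - r⌉ ⌊c + r⌋).card : ℝ) ≤ 2 * r + 1 := by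
  rw [Int.card_Icc]
  have h1 : (((⌊c + r⌋ + 1 - ⌈c - r⌉).toNat : ℕ) : ℤ) = max (⌊c + r⌋ + 1 - ⌈c - r⌉) 0 :=
    Int.toNat_eq_max _
  have h2 : (((⌊c + r⌋ + 1 - ⌈c - r⌉).toNat : ℕ) : ℝ) =
      ((max (⌊c + r⌋ + 1 - ⌈c - r⌉) 0 : ℤ) : ℝ) := by exact_mod_cast congrArg (Int.cast : ℤ → ℝ) h1
  rw [h2]
  have h3 := Int.floor_le (c + r)
  have h4 := Int.le_ceil (c - r)
  push_cast
  exact max_le (by linarith) (by linarith)

theorem LPT_mem (c r : ℝ) (z : ℤ) (h : |(z : ℝ) - c| ≤ r) : z ∈ Finset.Icc ⌈c - r⌉ ⌊c + r⌋ := by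
  rw [abs_le] at h
  rw [Finset.mem_Icc]
  exact ⟨Int.ceil_le.2 (by linarith [h.1]), Int.le_floor.2 (by linarith [h.2])⟩

theorem p_LPT : Stmt_LPT := by
  intro τ _ _ x w X hs hD S hS
  have hsR : (0 : ℝ) < (sn x : ℝ) := by exact_mod_cast hs
  have hDR : (0 : ℝ) < (De x w : ℝ) := by exact_mod_cast hD
  have hne : Nonempty τ := by
    by_contra hn
    rw [not_nonempty_iff] at hn
    have : sn x = 0 := by
      unfold sn
      rw [Finset.univ_eq_empty, Finset.sup_empty]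
      rfl
    omega
  obtain ⟨v₀, hv₀⟩ := snb_exists x
  obtain ⟨q, -, hq⟩ := Finset.exists_mem_eq_sup (Finset.univ : Finset (τ × τ))
    Finset.univ_nonempty (fun q => (om x w q.1 q.2).natAbs)
  have hq' : |om x w q.1 q.2| = (De x w : ℤ) := by
    rw [Int.abs_eq_natAbs]
    unfold De
    rw [hq]
  have hx0 : (x v₀ : ℝ) ≠ 0 := by
    intro h
    have h1 : x v₀ = 0 := by exact_mod_cast h
    rw [h1, abs_zero] at hv₀
    omega
  have habs : |(x v₀ : ℝ)| = (sn x : ℝ) := by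
    have h1 : ((|x v₀| : ℤ) : ℝ) = ((sn x : ℤ) : ℝ) := by rw [hv₀]
    push_cast at h1
    exact h1
  obtain ⟨B, hB⟩ : ∃ B : ℝ, B = 2 * sn x * X / De x w := ⟨_, rfl⟩
  have hB0 : 0 ≤ B := by
    rw [hB]
    positivity
  obtain ⟨r, hr⟩ : ∃ r : ℝ, r = X / sn x := ⟨_, rfl⟩
  have hr0 : 0 ≤ r := by
    rw [hr]
    positivity
  set I : ℤ → Finset ℤ := fun β =>
    Finset.Icc ⌈-(β : ℝ) * w v₀ / x v₀ - r⌉ ⌊-(β : ℝ) * w v₀ / x v₀ + r⌋ with hI
  have hsub : S ⊆ (Finset.Icc ⌈(0 : ℝ) - B⌉ ⌊(0 : ℝ) + B⌋).biUnion fun β =>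
      (I β).image fun α => fun v => α * x v + β * w v := by
    intro y hy
    obtain ⟨h1, α, β, h2⟩ := hS y hy
    rw [Finset.mem_biUnion]
    refine ⟨β, ?_, ?_⟩
    · apply LPT_mem
      rw [sub_zero, hB, le_div_iff₀ hDR]
      have h3 : om x y q.1 q.2 = β * om x w q.1 q.2 := by
        unfold om
        rw [h2, h2]
        ring
      have h4 : |om x y q.1 q.2| = |β| * (De x w : ℤ) := by rw [h3, abs_mul, hq']
      have h5 : |om x y q.1 q.2| ≤ 2 * ((sn x : ℤ) * X) := by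
        have a1 := snb_le x q.1
        have a2 := snb_le x q.2
        have a3 := snb_le y q.1
        have a4 := snb_le y q.2
        have hX : (sn y : ℤ) ≤ X := by exact_mod_cast h1
        have b1 : |x q.1 * y q.2| ≤ (sn x : ℤ) * X := by
          rw [abs_mul]
          exact mul_le_mul a1 (a4.trans hX) (abs_nonneg _) (by positivity)
        have b2 : |x q.2 * y q.1| ≤ (sn x : ℤ) * X := by
          rw [abs_mul]
          exact mul_le_mul a2 (a3.trans hX) (abs_nonneg _) (by positivity)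
        unfold om
        have := abs_sub (x q.1 * y q.2) (x q.2 * y q.1)
        linarith
      rw [h4] at h5
      have h6 : |(β : ℝ)| * (De x w : ℝ) ≤ 2 * ((sn x : ℝ) * X) := by exact_mod_cast h5
      linarith
    · rw [Finset.mem_image]
      refine ⟨α, ?_, (funext h2).symm⟩
      rw [hI]
      apply LPT_mem
      have h3 : (α : ℝ) - -(β : ℝ) * w v₀ / x v₀ = (y v₀ : ℝ) / x v₀ := by
        rw [h2]
        push_cast
        field_simp
        ring
      rw [h3, abs_div, habs, hr]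
      apply div_le_div_of_nonneg_right _ hsR.le
      have h4 := snb_le y v₀
      have hX : (sn y : ℤ) ≤ X := by exact_mod_cast h1
      have h5 := h4.trans hX
      exact_mod_cast h5
  calc (S.card : ℝ) ≤ (((Finset.Icc ⌈(0 : ℝ) - B⌉ ⌊(0 : ℝ) + B⌋).biUnion fun β =>
      (I β).image fun α => fun v => α * x v + β * w v).card : ℝ) := by
        exact_mod_cast Finset.card_le_card hsub
    _ ≤ ∑ β ∈ Finset.Icc ⌈(0 : ℝ) - B⌉ ⌊(0 : ℝ) + B⌋,
        (((I β).image fun α => fun v => α * x v + β * w v).card : ℝ) := by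
        exact_mod_cast Finset.card_biUnion_le
    _ ≤ ∑ β ∈ Finset.Icc ⌈(0 : ℝ) - B⌉ ⌊(0 : ℝ) + B⌋, (2 * r + 1) := by
        refine Finset.sum_le_sum fun β _ => ?_
        refine le_trans ?_ (LPT_cnt (-(β : ℝ) * w v₀ / x v₀) r hr0)
        exact Nat.cast_le.2 Finset.card_image_le
    _ = ((Finset.Icc ⌈(0 : ℝ) - B⌉ ⌊(0 : ℝ) + B⌋).card : ℝ) * (2 * r + 1) := by
        rw [Finset.sum_const, nsmul_eq_mul]
    _ ≤ (2 * B + 1) * (2 * r + 1) :=
        mul_le_mul_of_nonneg_right (LPT_cnt 0 B hB0) (by positivity)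
    _ = (4 * sn x * X / De x w + 1) * (2 * X / sn x + 1) := by
        rw [hB, hr]
        ring

end Pool.FQ
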