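import Pool.Agent.Work.MP_9fb703_fq.Interface1

set_option autoImplicit false

namespace Pool.FQ

open Finset
open Pool.HPQ (Fw Lam Kw fl rd cs Ww)
open Pool.CB (VV Sol PSN PH lin dl)
open Pool.GE
open Pool.GR (SingPr)

/-- a proper subspace spanned by few vectors is killed by an integral linear form -/
theorem LS1_form {m : ℕ} (E : ℕ → Fin m → ℤ) (T : Finset ℕ) (hT : T.card < m) :
    ∃ l : Fin m → ℤ, l ≠ 0 ∧ ∀ i ∈ T, ∑ v, l v * E i v = 0 := by
  classical
  set w : ℕ → Fin m → ℚ := fun i v => (E i v : ℚ) with hw
  have hlt : Submodule.span ℚ ((T.image w : Finset (Fin m → ℚ)) : Set (Fin m → ℚ)) < ⊤ := by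
    rw [lt_top_iff_ne_top]
    intro h
    have h1 := finrank_span_finset_le_card (R := ℚ) (T.image w)
    rw [Set.finrank, h, finrank_top, Module.finrank_fin_fun] at h1
    have h2 : (T.image w).card ≤ T.card := Finset.card_image_le
    omega
  obtain ⟨f, hf0, hf⟩ := Submodule.exists_le_ker_of_lt_top _ hlt
  have hfx : ∀ x : Fin m → ℚ, f x = ∑ v, f (Pi.single v 1) * x v := by
    intro x
    conv_lhs => rw [← Finset.univ_sum_single x]
    rw [map_sum]
    refine Finset.sum_congr rfl fun v _ => ?_
    have e : (Pi.single v (x v) : Fin m → ℚ) = x v • (Pi.single v (1 : ℚ) : Fin m → ℚ) := by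
      ext j
      by_cases hj : j = v
      · subst hj; simp
      · simp [hj]
    rw [e, map_smul, smul_eq_mul, mul_comm]
  set D : ℕ := ∏ v, (f (Pi.single v 1)).den with hD
  have hD0 : D ≠ 0 := Finset.prod_ne_zero_iff.2 fun v _ => Rat.den_nz _
  have hz : ∀ v, ∃ z : ℤ, (D : ℚ) * f (Pi.single v 1) = z := by
    intro v
    obtain ⟨a, ha⟩ : (f (Pi.single v 1)).den ∣ D := Finset.dvd_prod_of_mem _ (Finset.mem_univ v)
    refine ⟨a * (f (Pi.single v 1)).num, ?_⟩
    have h1 : (f (Pi.single v 1) : ℚ) * ((f (Pi.single v 1)).den : ℚ) =
        ((f (Pi.single v 1)).num : ℚ) := Rat.mul_den_eq_num _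
    rw [ha]
    push_cast
    rw [← h1]
    ring
  choose l hl using hz
  refine ⟨l, ?_, ?_⟩
  · intro h0
    apply hf0
    ext v
    have h1 := hl v
    rw [h0] at h1
    simp only [Pi.zero_apply, Int.cast_zero, mul_eq_zero, Nat.cast_eq_zero] at h1
    rcases h1 with h1 | h1
    · exact absurd h1 hD0
    · simpa using h1
  · intro i hi
    have h1 : f (w i) = 0 := by
      have : w i ∈ LinearMap.ker f := hf (Submodule.subset_span (by
        rw [Finset.coe_image]
        exact ⟨i, hi, rfl⟩))
      exact this
    rw [hfx] at h1
    have h2 : ((∑ v, l v * E i v : ℤ) : ℚ) = (D : ℚ) * ∑ v, f (Pi.single v 1) * w i v := by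
      push_cast
      rw [Finset.mul_sum]
      refine Finset.sum_congr rfl fun v _ => ?_
      rw [← hl v, hw]
      ring
    rw [h1, mul_zero] at h2
    exact_mod_cast h2

theorem p_LS1 (hISO : Stmt_ISO) : Stmt_LS1 := by
  intro k c hk hN hI
  classical
  have key : ∀ n : ℕ, ∃ E : ℕ → Fin (k + 2) → ℤ, (∀ i < n, Prm (E i) ∧ FF c (E i) = 0) ∧
      ∀ T : Finset ℕ, T ⊆ range n → T.card ≤ k + 2 →
        LinearIndepOn ℚ (fun i v => (E i v : ℚ)) (T : Set ℕ) := by
    intro n
    induction n with
    | zero =>
      refine ⟨fun _ _ => 0, fun i hi => absurd hi (Nat.not_lt_zero i), fun T hT _ => ?_⟩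
      have h0 : T = ∅ := by
        rw [Finset.range_zero] at hT
        exact Finset.subset_empty.1 hT
      rw [h0, Finset.coe_empty]
      exact linearIndepOn_empty _ _
    | succ n ih =>
      obtain ⟨E, hE, hT⟩ := ih
      have hex : ∀ T : Finset ℕ, ∃ l : Fin (k + 2) → ℤ, l ≠ 0 ∧
          (T.card ≤ k + 1 → ∀ i ∈ T, ∑ v, l v * E i v = 0) := by
        intro T
        by_cases h : T.card ≤ k + 1
        · obtain ⟨l, h1, h2⟩ := LS1_form E T (by omega)
          exact ⟨l, h1, fun _ => h2⟩
        · exact ⟨1, one_ne_zero, fun h' => absurd h' h⟩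
      choose L hL0 hL using hex
      obtain ⟨e, heP, heF, heS⟩ := hISO k c hk hN hI ((range n).powerset.image L) (by
        intro l hl
        obtain ⟨T, -, rfl⟩ := Finset.mem_image.1 hl
        exact hL0 T)
      refine ⟨Function.update E n e, ?_, ?_⟩
      · intro i hi
        by_cases hin : i = n
        · subst hin
          rw [Function.update_self]
          exact ⟨heP, heF⟩
        · rw [Function.update_of_ne hin]
          exact hE i (by omega)
      · intro T hTs hTc
        have hcongr : ∀ T0 : Finset ℕ, T0 ⊆ range n → Set.EqOn (fun i v => (E i v : ℚ))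
            (fun i v => ((Function.update E n e) i v : ℚ)) (T0 : Set ℕ) := by
          intro T0 hT0 i hi
          have : i ≠ n := by
            have := Finset.mem_range.1 (hT0 hi)
            omega
          simp only [Function.update_of_ne this]
        by_cases hn : n ∈ T
        · have hT0 : T.erase n ⊆ range n := by
            intro i hi
            rw [Finset.mem_erase] at hi
            have := Finset.mem_range.1 (hTs hi.2)
            rw [Finset.mem_range]
            omega
          have hc0 : (T.erase n).card ≤ k + 1 := by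
            rw [Finset.card_erase_of_mem hn]
            omega
          have h1 := (hT (T.erase n) hT0 (by omega)).congr (hcongr _ hT0)
          have h2 : (fun i v => ((Function.update E n e) i v : ℚ)) n ∉
              Submodule.span ℚ ((fun i v => ((Function.update E n e) i v : ℚ)) ''
                ((T.erase n : Finset ℕ) : Set ℕ)) := by
            intro hmem
            set l := L (T.erase n) with hl
            let φ : (Fin (k + 2) → ℚ) →ₗ[ℚ] ℚ :=
              ∑ v, (l v : ℚ) • LinearMap.proj v
            have hφ : ∀ x : Fin (k + 2) → ℚ, φ x = ∑ v, (l v : ℚ) * x v := by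
              intro x
              simp [φ, LinearMap.sum_apply]
            have hle : Submodule.span ℚ ((fun i v => ((Function.update E n e) i v : ℚ)) ''
                ((T.erase n : Finset ℕ) : Set ℕ)) ≤ LinearMap.ker φ := by
              rw [Submodule.span_le]
              rintro _ ⟨i, hi, rfl⟩
              have hne : i ≠ n := by
                have := Finset.mem_range.1 (hT0 hi)
                omega
              show φ _ = 0
              rw [hφ]
              simp only [Function.update_of_ne hne]
              have := hL (T.erase n) hc0 i hi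
              exact_mod_cast this
            have h3 := hle hmem
            have h4 : φ (fun v => ((Function.update E n e) n v : ℚ)) = 0 := h3
            rw [hφ] at h4
            simp only [Function.update_self] at h4
            apply heS l (Finset.mem_image.2 ⟨T.erase n, Finset.mem_powerset.2 hT0, rfl⟩)
            exact_mod_cast h4
          have h5 := LinearIndepOn.insert h1 h2
          have h6 : (T : Set ℕ) = insert n ((T.erase n : Finset ℕ) : Set ℕ) := by
            rw [← Finset.coe_insert, Finset.insert_erase hn]
          rw [h6]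
          exact h5
        · have hT0 : T ⊆ range n := by
            intro i hi
            have h1 := Finset.mem_range.1 (hTs hi)
            have h2 : i ≠ n := fun h => hn (h ▸ hi)
            rw [Finset.mem_range]
            omega
          exact (hT T hT0 hTc).congr (hcongr _ hT0)
  intro n
  obtain ⟨E, hE, hT⟩ := key n
  refine ⟨fun i => E i, fun i => hE i i.2, ?_⟩
  intro f hf hdet
  set g : Fin (k + 2) → ℕ := fun i => (f i : ℕ) with hg
  have hgi : Function.Injective g := fun a b h => hf (Fin.ext h)
  have hsub : Finset.univ.image g ⊆ range n := by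
    intro i hi
    obtain ⟨j, -, rfl⟩ := Finset.mem_image.1 hi
    exact Finset.mem_range.2 (f j).2
  have hcard : (Finset.univ.image g).card ≤ k + 2 := by
    refine le_trans Finset.card_image_le ?_
    rw [Finset.card_univ, Fintype.card_fin]
  have hli := hT _ hsub hcard
  have hli2 : LinearIndependent ℚ (fun i : Fin (k + 2) => fun v => (E (g i) v : ℚ)) := by
    have h1 : LinearIndependent ℚ (fun x : ((Finset.univ.image g : Finset ℕ) : Set ℕ) =>
        fun v => (E x v : ℚ)) := hli
    have h2 := h1.comp (fun i : Fin (k + 2) =>
      (⟨g i, by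
        rw [Finset.coe_image]
        exact ⟨i, by simp, rfl⟩⟩ : ((Finset.univ.image g : Finset ℕ) : Set ℕ)))
      (by
        intro a b h
        exact hgi (congrArg Subtype.val h))
    exact h2
  have hu : IsUnit (Matrix.of fun (i v : Fin (k + 2)) => (E (g i) v : ℚ)) := by
    rw [← Matrix.linearIndependent_rows_iff_isUnit]
    exact hli2
  rw [Matrix.isUnit_iff_isUnit_det, isUnit_iff_ne_zero] at hu
  apply hu
  have h3 : (Matrix.of fun (i v : Fin (k + 2)) => (E (g i) v : ℚ)) =
      (Int.castRingHom ℚ).mapMatrix (Matrix.of fun (i v : Fin (k + 2)) => E (f i) v) := by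
    ext i v
    rfl
  rw [h3, ← RingHom.map_det]
  have h4 : Matrix.det (Matrix.of fun (i v : Fin (k + 2)) => E (f i) v) = 0 := hdet
  rw [h4, map_zero]

end Pool.FQ
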