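import Pool.Agent.Work.MP_9fb703_fq.B_CRA

/-! # Intersections of a fixed quadric with almost all quadrics: block LST -/

set_option autoImplicit false

namespace Pool.FQ

open Finset
open Pool.GE

theorem LST_inj {n m : ℕ} (T : Finset (Fin n)) (h : m ≤ T.card) :
    ∃ f : Fin m → Fin n, Function.Injective f ∧ ∀ i, f i ∈ T :=
  ⟨fun i => T.orderEmbOfFin rfl (Fin.castLE h i),
    fun _ _ hij => Fin.castLE_injective h ((T.orderEmbOfFin rfl).injective hij),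
    fun _ => T.orderEmbOfFin_mem rfl _⟩

theorem LST_adj {m : ℕ} (N : Matrix (Fin m) (Fin m) ℤ) (R : Type) [CommRing R] (y : Fin m → R)
    (v : Fin m) :
    (N.det : R) * y v = ∑ i, (N.adjugate v i : R) * ∑ w, (N i w : R) * y w := by
  have h : ∀ w, ∑ i, N.adjugate v i * N i w = if v = w then N.det else 0 := by
    intro w
    have := congrFun (congrFun (Matrix.adjugate_mul N) v) w
    simpa [Matrix.mul_apply, Matrix.one_apply] using this
  have h2 : ∀ w, ∑ i, (N.adjugate v i : R) * (N i w : R) =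
      if v = w then (N.det : R) else 0 := by
    intro w
    have := congrArg (Int.cast : ℤ → R) (h w)
    rw [Int.cast_sum] at this
    simp only [Int.cast_mul] at this
    rw [this]
    split_ifs <;> simp
  symm
  calc ∑ i, (N.adjugate v i : R) * ∑ w, (N i w : R) * y w
      = ∑ w, (∑ i, (N.adjugate v i : R) * (N i w : R)) * y w := by
        simp_rw [Finset.mul_sum, Finset.sum_mul]
        rw [Finset.sum_comm]
        exact Finset.sum_congr rfl fun w _ => Finset.sum_congr rfl fun i _ =>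
          (mul_assoc _ _ _).symm
    _ = (N.det : R) * y v := by
        simp_rw [h2, ite_mul, zero_mul]
        rw [Finset.sum_ite_eq]
        simp

theorem LST_real {m : ℕ} (N : Matrix (Fin m) (Fin m) ℤ) (hN : N.det ≠ 0) (y : Fin m → ℝ)
    (v : Fin m) (hv : |y v| = 1) (C : ℝ) (hC : ∑ v, ∑ i, |(N.adjugate v i : ℝ)| < C) :
    ∃ i, 1 / C ≤ |∑ w, (N i w : ℝ) * y w| := by
  by_contra hcon
  push Not at hcon
  have hS : ∑ i, |(N.adjugate v i : ℝ)| ≤ ∑ v, ∑ i, |(N.adjugate v i : ℝ)| :=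
    Finset.single_le_sum (f := fun v => ∑ i, |(N.adjugate v i : ℝ)|)
      (fun v _ => Finset.sum_nonneg fun i _ => abs_nonneg _) (Finset.mem_univ v)
  have h0 : 0 ≤ ∑ i, |(N.adjugate v i : ℝ)| := Finset.sum_nonneg fun i _ => abs_nonneg _
  have hC0 : 0 < C := lt_of_le_of_lt (h0.trans hS) hC
  have h1 : (1 : ℝ) ≤ |(N.det : ℝ)| := by
    have := Int.one_le_abs hN
    exact_mod_cast this
  have h2 := LST_adj N ℝ y v
  have h3 : |(N.det : ℝ) * y v| ≤ (∑ i, |(N.adjugate v i : ℝ)|) * (1 / C) := by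
    rw [h2, Finset.sum_mul]
    refine (Finset.abs_sum_le_sum_abs _ _).trans (Finset.sum_le_sum fun i _ => ?_)
    rw [abs_mul]
    exact mul_le_mul_of_nonneg_left (hcon i).le (abs_nonneg _)
  rw [abs_mul, hv, mul_one] at h3
  have h4 : (∑ i, |(N.adjugate v i : ℝ)|) * (1 / C) < 1 := by
    rw [mul_one_div, div_lt_one hC0]
    exact lt_of_le_of_lt hS hC
  linarith

theorem LST_padic {m : ℕ} (N : Matrix (Fin m) (Fin m) ℤ) (hN : N.det ≠ 0) (p : ℕ)
    [hp : Fact p.Prime] (y : Fin m → ℤ_[p]) (v : Fin m) (hv : ‖y v‖ = 1) (V : ℕ)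
    (hV : N.det.natAbs ≤ V) :
    ∃ i, (p : ℝ) ^ (-(V : ℤ)) ≤ ‖∑ w, (N i w : ℤ_[p]) * y w‖ := by
  by_contra hcon
  push Not at hcon
  have h1 : ∀ i, ∑ w, (N i w : ℤ_[p]) * y w ∈ Ideal.span {(p : ℤ_[p]) ^ V} := fun i =>
    (PadicInt.norm_le_pow_iff_mem_span_pow _ _).1 (hcon i).le
  have h2 : (N.det : ℤ_[p]) * y v ∈ Ideal.span {(p : ℤ_[p]) ^ V} := by
    rw [LST_adj N ℤ_[p] y v]
    exact Ideal.sum_mem _ fun i _ => Ideal.mul_mem_left _ _ (h1 i)
  have h3 := (PadicInt.norm_le_pow_iff_mem_span_pow _ _).2 h2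
  rw [norm_mul, hv, mul_one] at h3
  have h4 : ((p ^ V : ℕ) : ℤ) ∣ N.det := by
    have := PadicInt.norm_int_le_pow_iff_dvd.1 h3
    exact_mod_cast this
  have h5 : p ^ V ∣ N.det.natAbs := Int.natCast_dvd.1 h4
  have h6 : p ^ V ≤ N.det.natAbs := Nat.le_of_dvd (Int.natAbs_pos.2 hN) h5
  have h7 : V < p ^ V := Nat.lt_pow_self hp.out.one_lt
  omega

theorem LST_det (hQAD : Stmt_QAD) {k : ℕ} (c : IQ k → ℤ) (hN : Nsg c)
    (E : Fin (k + 2) → Fin (k + 2) → ℤ) (hE : Matrix.det (Matrix.of fun i v => E i v) ≠ 0) :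
    Matrix.det (Matrix.of fun i v => DD c (E i) v) ≠ 0 := by
  intro h
  obtain ⟨w, hw0, hw⟩ := Matrix.exists_mulVec_eq_zero_iff.2 h
  have h1 : ∀ i, CRA_B c w (E i) = 0 := by
    intro i
    rw [CRA_comm c hQAD]
    have h := congrFun hw i
    refine Eq.trans ?_ h
    show ∑ v, w v * DD c (E i) v = ∑ v, DD c (E i) v * w v
    exact Finset.sum_congr rfl fun v _ => mul_comm _ _
  have h2 : Matrix.mulVec (Matrix.of fun i v => E i v) (fun v => DD c w v) = 0 := by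
    funext i
    exact h1 i
  have h3 := Matrix.eq_zero_of_mulVec_eq_zero hE h2
  have h4 := hN (fun v => (w v : ℚ)) (fun v => by
    have h5 := CNG_DD (Int.castRingHom ℚ) c w v
    have h6 : DD c w v = 0 := congrFun h3 v
    rw [h6, map_zero] at h5
    exact h5.symm)
  apply hw0
  funext v
  have h5 : (w v : ℚ) = 0 := congrFun h4 v
  show w v = 0
  exact_mod_cast h5

theorem p_LST (hQAD : Stmt_QAD) (hCRD : Stmt_CRD) (hLS1 : Stmt_LS1) : Stmt_LST := by
  classical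
  intro k c hk hN hI
  obtain ⟨P₁, hP₁⟩ := hCRD k c hk hN
  refine ⟨P₁, fun P => ?_⟩
  obtain ⟨n, hn⟩ : ∃ n, n = (k + 1) * (P + 2) + 1 := ⟨_, rfl⟩
  obtain ⟨E, hE, hEd⟩ := hLS1 k c hk hN hI n
  choose κ hκ1 hκ2 hκ3 using fun i => hP₁ (E i) (hE i).1 (hE i).2
  let Nf : (Fin (k + 2) → Fin n) → Matrix (Fin (k + 2)) (Fin (k + 2)) ℤ :=
    fun f => Matrix.of fun i v => DD c (E (f i)) v
  have hdet : ∀ f, Function.Injective f → (Nf f).det ≠ 0 := fun f hf =>
    LST_det hQAD c hN (fun i => E (f i)) (hEd f hf)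
  obtain ⟨C, hC⟩ : ∃ C : ℝ, C = 1 + ∑ f : Fin (k + 2) → Fin n,
    ∑ v, ∑ i, |((Nf f).adjugate v i : ℝ)| := ⟨_, rfl⟩
  obtain ⟨V, hV⟩ : ∃ V : ℕ, V = ∑ f : Fin (k + 2) → Fin n, (Nf f).det.natAbs := ⟨_, rfl⟩
  obtain ⟨Dm, hDm⟩ : ∃ Dm : ℝ, Dm = 1 + ∑ i, ((κ i).D : ℝ) := ⟨_, rfl⟩
  have hCf : ∀ f, ∑ v, ∑ i, |((Nf f).adjugate v i : ℝ)| < C := by
    intro f
    have h := Finset.single_le_sum (f := fun f : Fin (k + 2) → Fin n =>
      ∑ v, ∑ i, |((Nf f).adjugate v i : ℝ)|)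
      (fun f _ => Finset.sum_nonneg fun v _ => Finset.sum_nonneg fun i _ => abs_nonneg _)
      (Finset.mem_univ f)
    rw [hC]
    exact lt_of_le_of_lt h (lt_one_add _)
  have hC0 : 0 < C := by
    rw [hC]
    have : 0 ≤ ∑ f : Fin (k + 2) → Fin n, ∑ v, ∑ i, |((Nf f).adjugate v i : ℝ)| :=
      Finset.sum_nonneg fun f _ => Finset.sum_nonneg fun v _ => Finset.sum_nonneg fun i _ =>
        abs_nonneg _
    linarith
  have hVf : ∀ f, (Nf f).det.natAbs ≤ V := by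
    intro f
    rw [hV]
    exact Finset.single_le_sum (f := fun f : Fin (k + 2) → Fin n => (Nf f).det.natAbs)
      (fun f _ => Nat.zero_le _) (Finset.mem_univ f)
  have hDi : ∀ i, ((κ i).D : ℝ) ≤ Dm := by
    intro i
    have h := Finset.single_le_sum (f := fun i => ((κ i).D : ℝ))
      (fun i _ => Nat.cast_nonneg _) (Finset.mem_univ i)
    rw [hDm]
    exact le_trans h (le_add_of_nonneg_left zero_le_one)
  have hD0 : 0 < Dm := by
    rw [hDm]
    have : 0 ≤ ∑ i, ((κ i).D : ℝ) := Finset.sum_nonneg fun i _ => Nat.cast_nonneg _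
    linarith
  have hB : ∀ (i : Fin n) (R : Type) [CommRing R] (y : Fin (k + 2) → R),
      ∑ w, ((DD c (E i) w : ℤ) : R) * y w = ((κ i).D : R) * pt (κ i).I y 0 := by
    intro i R _ y
    unfold pt
    rw [Finset.mul_sum]
    refine Finset.sum_congr rfl fun w _ => ?_
    rw [← hκ2 i w]
    push_cast
    ring
  refine ⟨n, κ, 1 / C / Dm, V, ?_, by positivity, hκ1, fun i p hp hd => hκ3 i p hp hd, ?_⟩
  · rw [hn]
    nlinarith
  intro y hy1 hy2 M hM
  obtain ⟨v₀, hv₀⟩ := hy2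
  let B0 : Finset (Fin n) := univ.filter fun i =>
    |∑ w, ((DD c (E i) w : ℤ) : ℝ) * y w| < 1 / C
  let Bp : ℕ → Finset (Fin n) := fun p => univ.filter fun i =>
    ∃ _ : Fact p.Prime, ‖∑ w, ((DD c (E i) w : ℤ) : ℤ_[p]) * M p w‖ < (p : ℝ) ^ (-(V : ℤ))
  have hB0 : B0.card ≤ k + 1 := by
    by_contra hcon
    obtain ⟨f, hf, hfm⟩ := LST_inj (m := k + 2) B0 (by omega)
    obtain ⟨i, hi⟩ := LST_real (Nf f) (hdet f hf) y v₀ hv₀ C (hCf f)
    have := (Finset.mem_filter.1 (hfm i)).2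
    exact absurd this (not_lt.2 hi)
  have hBp : ∀ p ∈ range (P + 1), (Bp p).card ≤ k + 1 := by
    intro p hpr
    by_contra hcon
    obtain ⟨f, hf, hfm⟩ := LST_inj (m := k + 2) (Bp p) (by omega)
    obtain ⟨hp, -⟩ := (Finset.mem_filter.1 (hfm 0)).2
    obtain ⟨v₁, hv₁⟩ := hM p (Nat.lt_succ_iff.1 (Finset.mem_range.1 hpr))
    obtain ⟨i, hi⟩ := LST_padic (Nf f) (hdet f hf) p (M p) v₁ hv₁ V (hVf f)
    obtain ⟨hp', h'⟩ := (Finset.mem_filter.1 (hfm i)).2
    exact absurd h' (not_lt.2 hi)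
  have hcard : (B0 ∪ (range (P + 1)).biUnion Bp).card < (univ : Finset (Fin n)).card := by
    rw [Finset.card_univ, Fintype.card_fin]
    have h1 := Finset.card_union_le B0 ((range (P + 1)).biUnion Bp)
    have h2 : ((range (P + 1)).biUnion Bp).card ≤ ∑ p ∈ range (P + 1), (Bp p).card :=
      Finset.card_biUnion_le
    have h3 : ∑ p ∈ range (P + 1), (Bp p).card ≤ (P + 1) * (k + 1) := by
      have := Finset.sum_le_card_nsmul (range (P + 1)) (fun p => (Bp p).card) (k + 1) hBp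
      simpa using this
    refine lt_of_lt_of_eq ?_ hn.symm
    nlinarith
  obtain ⟨i, -, hi⟩ := Finset.exists_mem_notMem_of_card_lt_card hcard
  rw [Finset.mem_union, not_or, Finset.mem_biUnion] at hi
  obtain ⟨hi0, hip⟩ := hi
  refine ⟨i, ?_, ?_⟩
  · have h1 : 1 / C ≤ |∑ w, ((DD c (E i) w : ℤ) : ℝ) * y w| := by
      by_contra hcon
      exact hi0 (Finset.mem_filter.2 ⟨Finset.mem_univ _, not_le.1 hcon⟩)
    rw [hB i ℝ y, abs_mul, Nat.abs_cast] at h1
    rw [div_le_iff₀ hD0]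
    calc 1 / C ≤ ((κ i).D : ℝ) * |pt (κ i).I y 0| := h1
      _ ≤ Dm * |pt (κ i).I y 0| := mul_le_mul_of_nonneg_right (hDi i) (abs_nonneg _)
      _ = |pt (κ i).I y 0| * Dm := mul_comm _ _
  · intro p hp hpP
    have h1 : (p : ℝ) ^ (-(V : ℤ)) ≤ ‖∑ w, ((DD c (E i) w : ℤ) : ℤ_[p]) * M p w‖ := by
      by_contra hcon
      exact hip ⟨p, Finset.mem_range.2 (Nat.lt_succ_of_le hpP),
        Finset.mem_filter.2 ⟨Finset.mem_univ _, hp, not_le.1 hcon⟩⟩
    rw [hB i ℤ_[p] (M p), norm_mul] at h1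
    refine h1.trans ?_
    exact mul_le_of_le_one_left (norm_nonneg _) (PadicInt.norm_le_one _)

end Pool.FQ
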