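import Pool.Agent.Work.MP_9fb703_fq.Interface1

set_option autoImplicit false

/-! # Block TUB: sizes and minors in the new coordinates -/

namespace Pool.FQ

open Finset
open Pool.GE

theorem TUB_om {k : ℕ} (κ : Crd k) (x y : Fin (k + 2) → ℤ) (i j : Fin (k + 2)) :
    om (pt κ.I x) (pt κ.I y) i j = ∑ v, ∑ w, κ.I i v * κ.I j w * om x y v w := by
  have h1 : ∀ (z : Fin (k + 2) → ℤ) (i : Fin (k + 2)), pt κ.I z i = ∑ v, κ.I i v * z v := by
    intro z i
    unfold pt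
    simp only [Int.cast_id]
  unfold om
  rw [h1 x i, h1 y j, h1 x j, h1 y i, Finset.sum_mul_sum, mul_comm (∑ v, κ.I j v * x v),
    Finset.sum_mul_sum, ← Finset.sum_sub_distrib]
  refine Finset.sum_congr rfl fun v _ => ?_
  rw [← Finset.sum_sub_distrib]
  exact Finset.sum_congr rfl fun w _ => by ring

theorem TUB_sn {n : ℕ} (x : Fin n → ℤ) (v : Fin n) : |(x v : ℝ)| ≤ (sn x : ℝ) := by
  have h : (x v).natAbs ≤ sn x := Finset.le_sup (f := fun v => (x v).natAbs) (Finset.mem_univ v)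
  have h2 : |(x v : ℝ)| = (((x v).natAbs : ℕ) : ℝ) := by
    rw [Nat.cast_natAbs, Int.cast_abs]
  rw [h2]
  exact_mod_cast h

theorem TUB_De {n : ℕ} (x y : Fin n → ℤ) (v w : Fin n) :
    |((om x y v w : ℤ) : ℝ)| ≤ (De x y : ℝ) := by
  have h : (om x y v w).natAbs ≤ De x y :=
    Finset.le_sup (f := fun q : Fin n × Fin n => (om x y q.1 q.2).natAbs)
      (Finset.mem_univ (v, w))
  have h2 : |((om x y v w : ℤ) : ℝ)| = (((om x y v w).natAbs : ℕ) : ℝ) := by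
    rw [Nat.cast_natAbs, Int.cast_abs]
  rw [h2]
  exact_mod_cast h

theorem p_TUB : Stmt_TUB := by
  intro k κ
  set S : ℝ := ∑ i, ∑ v, |((κ.I i v : ℤ) : ℝ)| with hS
  have hS0 : 0 ≤ S := Finset.sum_nonneg fun i _ => Finset.sum_nonneg fun v _ => abs_nonneg _
  have hrow : ∀ i, ∑ v, |((κ.I i v : ℤ) : ℝ)| ≤ S := by
    intro i
    exact Finset.single_le_sum
      (f := fun i => ∑ v, |((κ.I i v : ℤ) : ℝ)|)
      (fun i _ => Finset.sum_nonneg fun v _ => abs_nonneg _) (Finset.mem_univ i)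
  have hrow0 : ∀ i, 0 ≤ ∑ v, |((κ.I i v : ℤ) : ℝ)| :=
    fun i => Finset.sum_nonneg fun v _ => abs_nonneg _
  refine ⟨1 + S + S ^ 2, by nlinarith, ?_⟩
  intro x y
  refine ⟨?_, ?_, ?_⟩
  · intro i
    have h1 : ((pt κ.I x i : ℤ) : ℝ) = ∑ v, ((κ.I i v : ℤ) : ℝ) * (x v : ℝ) := by
      unfold pt
      push_cast
      rfl
    rw [h1]
    have hsn : (0 : ℝ) ≤ sn x := Nat.cast_nonneg _
    calc |∑ v, ((κ.I i v : ℤ) : ℝ) * (x v : ℝ)|
        ≤ ∑ v, |((κ.I i v : ℤ) : ℝ) * (x v : ℝ)| := Finset.abs_sum_le_sum_abs _ _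
      _ ≤ ∑ v, |((κ.I i v : ℤ) : ℝ)| * (sn x : ℝ) := by
          refine Finset.sum_le_sum fun v _ => ?_
          rw [abs_mul]
          exact mul_le_mul_of_nonneg_left (TUB_sn x v) (abs_nonneg _)
      _ = (∑ v, |((κ.I i v : ℤ) : ℝ)|) * (sn x : ℝ) := by rw [Finset.sum_mul]
      _ ≤ (1 + S + S ^ 2) * (sn x : ℝ) := by
          apply mul_le_mul_of_nonneg_right _ hsn
          nlinarith [hrow i]
  · intro i j
    rw [TUB_om]
    have hDe : (0 : ℝ) ≤ De x y := Nat.cast_nonneg _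
    push_cast
    calc |∑ v, ∑ w, ((κ.I i v : ℤ) : ℝ) * ((κ.I j w : ℤ) : ℝ) * ((om x y v w : ℤ) : ℝ)|
        ≤ ∑ v, |∑ w, ((κ.I i v : ℤ) : ℝ) * ((κ.I j w : ℤ) : ℝ) * ((om x y v w : ℤ) : ℝ)| :=
          Finset.abs_sum_le_sum_abs _ _
      _ ≤ ∑ v, ∑ w, |((κ.I i v : ℤ) : ℝ)| * |((κ.I j w : ℤ) : ℝ)| * (De x y : ℝ) := by
          refine Finset.sum_le_sum fun v _ => ?_
          refine le_trans (Finset.abs_sum_le_sum_abs _ _) ?_
          refine Finset.sum_le_sum fun w _ => ?_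
          rw [abs_mul, abs_mul]
          exact mul_le_mul_of_nonneg_left (TUB_De x y v w)
            (mul_nonneg (abs_nonneg _) (abs_nonneg _))
      _ = (∑ v, |((κ.I i v : ℤ) : ℝ)|) * (∑ w, |((κ.I j w : ℤ) : ℝ)|) * (De x y : ℝ) := by
          rw [Finset.sum_mul_sum, Finset.sum_mul]
          exact Finset.sum_congr rfl fun v _ => by rw [Finset.sum_mul]
      _ ≤ (1 + S + S ^ 2) * (De x y : ℝ) := by
          apply mul_le_mul_of_nonneg_right _ hDe
          have h2 := mul_le_mul (hrow i) (hrow j) (hrow0 j) hS0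
          nlinarith
  · intro g hg i j
    rw [TUB_om]
    exact Finset.dvd_sum fun v _ => Finset.dvd_sum fun w _ => Dvd.dvd.mul_left (hg v w) _

end Pool.FQ
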