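import Pool.Agent.Work.MP_9fb703_fq.Interface2
import Pool.Agent.Work.MP_9fb703_fq.B_QAD
import Pool.Agent.Work.MP_9fb703_fq.B_TUB
import Pool.Agent.Work.MP_a19274_ge.B_CNG
import Pool.Agent.Work.MP_a19274_ge.B_PRM

/-! # THEOREM FQ, block LWQ: the lower bound (typed by helper4) -/

set_option autoImplicit false

namespace Pool.FQ

open Finset
open Pool.HPQ (Fw Lam Kw fl rd cs Ww)
open Pool.CB (VV Sol PSN PH lin dl)
open Pool.GE
open Pool.GR (SingPr)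

/-! ### Elementary lemmas -/

theorem LWQ_TT_smul {R : Type} [CommRing R] {k : ℕ} (κ : Crd k) (r x0 : R) (z : Fin k → R) :
    TT κ (r * x0) (fun j => r * z j) = r ^ 2 * TT κ x0 z := by
  have h1 : qd κ.g (fun j => r * z j) = r ^ 2 * qd κ.g z := by
    unfold qd
    rw [Finset.mul_sum]
    refine Finset.sum_congr rfl fun i _ => ?_
    rw [Finset.mul_sum]
    refine Finset.sum_congr rfl fun j _ => ?_
    ring
  have h2 : ∑ j, (κ.ll j : R) * (r * z j) = r * ∑ j, (κ.ll j : R) * z j := by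
    rw [Finset.mul_sum]
    exact Finset.sum_congr rfl fun j _ => by ring
  unfold TT
  rw [h1, h2]
  ring

theorem LWQ_TT_cast {k : ℕ} (κ : Crd k) (x0 : ℤ) (z : Fin k → ℤ) :
    ((TT κ x0 z : ℤ) : ℝ) = TT κ (x0 : ℝ) (fun j => (z j : ℝ)) := by
  simp [TT, qd]

theorem LWQ_pt_cast {k : ℕ} (M : Fin (k + 2) → Fin (k + 2) → ℤ) (t : Fin (k + 2) → ℤ)
    (v : Fin (k + 2)) : ((pt M t v : ℤ) : ℝ) = pt M (fun i => (t i : ℝ)) v := by
  simp [pt]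

theorem LWQ_pt_smul {R : Type} [CommRing R] {k : ℕ} (M : Fin (k + 2) → Fin (k + 2) → ℤ) (r : R)
    (t : Fin (k + 2) → R) (v : Fin (k + 2)) : pt M (fun i => r * t i) v = r * pt M t v := by
  unfold pt
  rw [Finset.mul_sum]
  exact Finset.sum_congr rfl fun j _ => by ring

theorem LWQ_tt_map {R S : Type} {k : ℕ} (f : R → S) (x0 x1 : R) (z : Fin k → R) :
    (fun i => f (tt x0 x1 z i)) = tt (f x0) (f x1) (fun j => f (z j)) := by
  funext i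
  refine Fin.cases rfl (fun i => ?_) i
  refine Fin.cases rfl (fun i => rfl) i

theorem LWQ_FF_cast {k : ℕ} (a : IQ k → ℤ) (x : Fin (k + 2) → ℤ) :
    FF (fun s => (a s : ℝ)) (fun v => (x v : ℝ)) = ((FF a x : ℤ) : ℝ) := by
  simp [FF, mv]

theorem LWQ_PX {k : ℕ} (κ : Crd k) (X s n : ℕ) (hD : 0 < κ.D) (hX : 0 < X) (hs : 0 < s)
    (hn : 0 < n) (z : Fin k → ℤ) (x1 : ℤ)
    (h : (κ.D : ℤ) * ((s : ℤ) * (n : ℤ) * x1) = - TT κ ((s : ℤ) * (n : ℤ)) z) :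
    PX κ (Fin.cons (2 * (s : ℝ) * n / X) (fun j => 2 * (z j : ℝ) / X)) =
      fun v => (2 / (X : ℝ)) * ((pt κ.M (tt ((s : ℤ) * (n : ℤ)) x1 z) v : ℤ) : ℝ) := by
  have hX' : (X : ℝ) ≠ 0 := by positivity
  have hD' : (κ.D : ℝ) ≠ 0 := by positivity
  have hs' : (s : ℝ) ≠ 0 := by positivity
  have hn' : (n : ℝ) ≠ 0 := by positivity
  have hT : TT κ ((s : ℝ) * n) (fun j => (z j : ℝ)) = -((κ.D : ℝ) * (s * n * x1)) := by
    have h1 := congrArg (fun t : ℤ => (t : ℝ)) h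
    simp only [Int.cast_neg] at h1
    rw [LWQ_TT_cast] at h1
    push_cast at h1
    linarith
  have h0 : (Fin.cons (2 * (s : ℝ) * n / X) (fun j => 2 * (z j : ℝ) / X) :
      Fin (k + 1) → ℝ) 0 = (2 / (X : ℝ)) * ((s : ℝ) * n) := by
    rw [Fin.cons_zero]; field_simp
  have hj : (fun j : Fin k => (Fin.cons (2 * (s : ℝ) * n / X) (fun j => 2 * (z j : ℝ) / X) :
      Fin (k + 1) → ℝ) j.succ) = fun j => (2 / (X : ℝ)) * (z j : ℝ) := by
    funext j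
    rw [Fin.cons_succ]; field_simp
  have h1 : -TT κ ((2 / (X : ℝ)) * ((s : ℝ) * n)) (fun j => (2 / (X : ℝ)) * (z j : ℝ)) /
      (κ.D * ((2 / (X : ℝ)) * ((s : ℝ) * n))) = (2 / (X : ℝ)) * (x1 : ℝ) := by
    rw [LWQ_TT_smul, hT]
    field_simp
  funext v
  unfold PX
  rw [hj, h0, h1]
  have h2 : (tt ((2 / (X : ℝ)) * ((s : ℝ) * n)) ((2 / (X : ℝ)) * (x1 : ℝ))
      fun j => (2 / (X : ℝ)) * (z j : ℝ)) =
      fun i => (2 / (X : ℝ)) * ((tt ((s : ℤ) * (n : ℤ)) x1 z i : ℤ) : ℝ) := by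
    have h3 := LWQ_tt_map (fun t : ℤ => (2 / (X : ℝ)) * (t : ℝ)) ((s : ℤ) * (n : ℤ)) x1 z
    rw [h3]
    push_cast
    rfl
  rw [h2, LWQ_pt_smul, LWQ_pt_cast]

/-- the coordinate `x₁` -/
noncomputable def LWQ_x1 {k : ℕ} (κ : Crd k) (s n : ℕ) (z : Fin k → ℤ) : ℤ :=
  (-TT κ ((s : ℤ) * (n : ℤ)) z) / ((κ.D : ℤ) * ((s : ℤ) * (n : ℤ)))

/-- the point -/
noncomputable def LWQ_x {k : ℕ} (κ : Crd k) (s n : ℕ) (z : Fin k → ℤ) : Fin (k + 2) → ℤ :=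
  pt κ.M (tt ((s : ℤ) * (n : ℤ)) (LWQ_x1 κ s n z) z)

theorem LWQ_div {k : ℕ} (κ : Crd k) (s n W Cf : ℕ) (z : Fin k → ℤ) (τ : Fin (k + 2) → ℤ)
    (a : IQ k → ℤ) (hD : 0 < κ.D) (hs : 0 < s) (hn : n.Prime) (hnD : κ.D * s < n)
    (hqd : (n : ℤ) ∣ qd κ.g z) (hG : GdC κ s (κ.D * s) W Cf τ a n z) :
    (κ.D : ℤ) * ((s : ℤ) * (n : ℤ) * LWQ_x1 κ s n z) = - TT κ ((s : ℤ) * (n : ℤ)) z := by
  obtain ⟨x', h1, -⟩ := hG
  have hDs : ((κ.D * s : ℕ) : ℤ) ∣ TT κ ((s : ℤ) * (n : ℤ)) z := by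
    have h2 : ((κ.D * s : ℕ) : ℤ) ∣ (κ.D : ℤ) * (s * n * x') + TT κ ((s : ℤ) * (n : ℤ)) z :=
      (Int.natCast_dvd_natCast.2 (Dvd.intro _ rfl)).trans h1
    have h3 : ((κ.D * s : ℕ) : ℤ) ∣ (κ.D : ℤ) * (s * n * x') :=
      ⟨n * x', by push_cast; ring⟩
    exact (dvd_add_right h3).1 h2
  have hnT : (n : ℤ) ∣ TT κ ((s : ℤ) * (n : ℤ)) z := by
    unfold TT
    refine dvd_add (dvd_add hqd ?_) ?_
    · exact Dvd.dvd.mul_right (Dvd.intro_left _ rfl) _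
    · exact Dvd.dvd.mul_left (dvd_pow (Dvd.intro_left _ rfl) two_ne_zero) _
  have hcop : IsCoprime ((κ.D * s : ℕ) : ℤ) (n : ℤ) := by
    rw [Nat.isCoprime_iff_coprime]
    apply Nat.Coprime.symm
    rw [Nat.Prime.coprime_iff_not_dvd hn]
    intro h
    exact absurd (Nat.le_of_dvd (by positivity) h) (by omega)
  have hall : (κ.D : ℤ) * ((s : ℤ) * (n : ℤ)) ∣ TT κ ((s : ℤ) * (n : ℤ)) z := by
    have h4 := hcop.mul_dvd hDs hnT
    have h5 : ((κ.D * s : ℕ) : ℤ) * (n : ℤ) = (κ.D : ℤ) * ((s : ℤ) * (n : ℤ)) := by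
      push_cast; ring
    rwa [h5] at h4
  have h6 := Int.mul_ediv_cancel' (dvd_neg.2 hall)
  rw [← h6]
  unfold LWQ_x1
  ring

theorem LWQ_cong {k : ℕ} (κ : Crd k) (s n W Cf : ℕ) (z : Fin k → ℤ) (τ : Fin (k + 2) → ℤ)
    (a : IQ k → ℤ) (hD : 0 < κ.D) (hs : 0 < s) (hn : n.Prime) (hnD : κ.D * s < n)
    (hCf : Cf ∣ W) (hqd : (n : ℤ) ∣ qd κ.g z) (hcop : IsCoprime (n : ℤ) (W : ℤ))
    (hG : GdC κ s (κ.D * s) W Cf τ a n z) :
    (W : ℤ) ∣ FF a (LWQ_x κ s n z) ∧ (∀ v, (Cf : ℤ) ∣ LWQ_x κ s n z v - τ v) ∧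
    ∀ p : ℕ, p.Prime → p ∣ W → ∃ v, ¬ (p : ℤ) ∣ LWQ_x κ s n z v := by
  have hx1 := LWQ_div κ s n W Cf z τ a hD hs hn hnD hqd hG
  obtain ⟨x', h1, h2, h3, h4⟩ := hG
  have hDs0 : (κ.D : ℤ) * s ≠ 0 := by positivity
  have hW : (W : ℤ) ∣ x' - LWQ_x1 κ s n z := by
    have h5 : (κ.D : ℤ) * (s * n * x') + TT κ ((s : ℤ) * (n : ℤ)) z =
        ((κ.D : ℤ) * s) * (n * (x' - LWQ_x1 κ s n z)) := by
      have h6 : TT κ ((s : ℤ) * (n : ℤ)) z =
          - ((κ.D : ℤ) * ((s : ℤ) * (n : ℤ) * LWQ_x1 κ s n z)) := by rw [hx1]; ring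
      rw [h6]; ring
    rw [h5] at h1
    have h7 : ((κ.D * s * W : ℕ) : ℤ) = ((κ.D : ℤ) * s) * W := by push_cast; ring
    rw [h7] at h1
    have h8 := (mul_dvd_mul_iff_left hDs0).1 h1
    exact hcop.symm.dvd_of_dvd_mul_left h8
  have hxx : ∀ v, (W : ℤ) ∣ pt κ.M (tt ((s : ℤ) * (n : ℤ)) x' z) v - LWQ_x κ s n z v := by
    intro v
    unfold LWQ_x pt
    rw [← Finset.sum_sub_distrib]
    apply Finset.dvd_sum
    intro i _
    rw [← mul_sub]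
    apply Dvd.dvd.mul_left
    refine Fin.cases ?_ (fun i => ?_) i
    · exact ⟨0, by simp [tt]⟩
    · refine Fin.cases ?_ (fun i => ?_) i
      · exact hW
      · exact ⟨0, by simp [tt]⟩
  refine ⟨?_, ?_, ?_⟩
  · have h9 := (p_CNG ℤ (Fin (k + 2)) Unit (fun _ => ()) (fun _ => 2) a a
      (pt κ.M (tt ((s : ℤ) * (n : ℤ)) x' z)) (LWQ_x κ s n z) (W : ℤ)
      (fun s => by rw [sub_self]; exact dvd_zero _) hxx).1
    exact (dvd_sub_right h2).1 h9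
  · intro v
    have h10 := (Int.natCast_dvd_natCast.2 hCf).trans (hxx v)
    have h11 := dvd_sub (h3 v) h10
    have h12 : pt κ.M (tt ((s : ℤ) * (n : ℤ)) x' z) v - τ v -
        (pt κ.M (tt ((s : ℤ) * (n : ℤ)) x' z) v - LWQ_x κ s n z v) =
        LWQ_x κ s n z v - τ v := by ring
    rwa [h12] at h11
  · intro p hp hpW
    obtain ⟨v, hv⟩ := h4 p hp hpW
    refine ⟨v, fun h => hv ?_⟩
    have h13 := (Int.natCast_dvd_natCast.2 hpW).trans (hxx v)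
    exact (dvd_sub_left h).1 h13

theorem LWQ_I {k : ℕ} (hPTI : Stmt_PTI) (c : IQ k → ℤ) (κ : Crd k) (hok : Ok c κ) (s n : ℕ)
    (z : Fin k → ℤ) : pt κ.I (LWQ_x κ s n z) = tt ((s : ℤ) * (n : ℤ)) (LWQ_x1 κ s n z) z :=
  (hPTI k c κ hok ℤ _).2.1

theorem LWQ_Fc {k : ℕ} (c : IQ k → ℤ) (κ : Crd k) (hok : Ok c κ) (s n : ℕ)
    (z : Fin k → ℤ)
    (h : (κ.D : ℤ) * ((s : ℤ) * (n : ℤ) * LWQ_x1 κ s n z) = - TT κ ((s : ℤ) * (n : ℤ)) z) :
    FF c (LWQ_x κ s n z) = 0 := by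
  have h1 := hok.form ℤ (tt ((s : ℤ) * (n : ℤ)) (LWQ_x1 κ s n z) z)
  have h2 : (fun s => (Int.cast (c s) : ℤ)) = c := funext fun s => Int.cast_id
  rw [h2] at h1
  unfold LWQ_x
  rw [h1]
  show (κ.D : ℤ) * ((s : ℤ) * (n : ℤ) * LWQ_x1 κ s n z) + TT κ ((s : ℤ) * (n : ℤ)) z = 0
  rw [h]; ring

theorem LWQ_nogen {k : ℕ} (hPTI : Stmt_PTI) (hk : 1 ≤ k) (c : IQ k → ℤ) (κ : Crd k)
    (hok : Ok c κ) (s n c₁ X : ℕ) (z : Fin k → ℤ) (Ct : ℝ) (hs : 0 < s) (hn : 0 < n)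
    (hCt : 0 ≤ Ct)
    (hT : ∀ i, |((pt κ.I (LWQ_x κ s n z) i : ℤ) : ℝ)| ≤ Ct * sn (LWQ_x κ s n z))
    (hsn : sn (LWQ_x κ s n z) ≤ X) (hXn : X ≤ c₁ * n)
    (hlog : (Ct * c₁ + s) * (∑ i, ∑ v, |(κ.I i v : ℝ)|) ≤ Real.log X)
    (hdiv : ∀ v, (n : ℤ) ∣ LWQ_x κ s n z v) : ¬ Gen X (LWQ_x κ s n z) := by
  intro hgen
  set x := LWQ_x κ s n z with hx
  set i2 : Fin (k + 2) := (⟨0, hk⟩ : Fin k).succ.succ with hi2
  have hI := LWQ_I hPTI c κ hok s n z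
  rw [← hx] at hI
  have hI0 : pt κ.I x 0 = (s : ℤ) * n := by rw [hI]; rfl
  have hI2 : pt κ.I x i2 = z ⟨0, hk⟩ := by rw [hI]; rfl
  have hn' : (0 : ℝ) < n := by exact_mod_cast hn
  obtain ⟨t, ht⟩ : (n : ℤ) ∣ pt κ.I x i2 := by
    unfold pt
    exact Finset.dvd_sum fun v _ => Dvd.dvd.mul_left (hdiv v) _
  have htb : |(t : ℝ)| ≤ Ct * c₁ := by
    have h1 := hT i2
    rw [ht] at h1
    push_cast at h1
    rw [abs_mul, abs_of_pos hn'] at h1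
    have h2 : (sn x : ℝ) ≤ c₁ * n := by exact_mod_cast hsn.trans hXn
    have h3 : (n : ℝ) * |(t : ℝ)| ≤ n * (Ct * c₁) := by
      calc (n : ℝ) * |(t : ℝ)| ≤ Ct * sn x := h1
        _ ≤ Ct * (c₁ * n) := mul_le_mul_of_nonneg_left h2 hCt
        _ = n * (Ct * c₁) := by ring
    exact le_of_mul_le_mul_left h3 hn'
  have hM : ∀ i v, |(κ.I i v : ℝ)| ≤ ∑ i, ∑ v, |(κ.I i v : ℝ)| := by
    intro i v
    calc |(κ.I i v : ℝ)| ≤ ∑ v, |(κ.I i v : ℝ)| :=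
          Finset.single_le_sum (f := fun v => |(κ.I i v : ℝ)|) (fun _ _ => abs_nonneg _)
            (Finset.mem_univ v)
      _ ≤ ∑ i, ∑ v, |(κ.I i v : ℝ)| :=
          Finset.single_le_sum (f := fun i => ∑ v, |(κ.I i v : ℝ)|)
            (fun _ _ => Finset.sum_nonneg fun _ _ => abs_nonneg _) (Finset.mem_univ i)
  refine hgen (fun v => t * κ.I 0 v - s * κ.I i2 v) ?_ ?_ ?_
  · intro h0
    have h1 : ∑ v, (t * κ.I 0 v - s * κ.I i2 v) * κ.M v i2 = -(s : ℤ) := by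
      have h2 := hok.inv1 0 i2
      have h3 := hok.inv1 i2 i2
      rw [if_neg (by rw [hi2]; exact (Fin.succ_ne_zero _).symm)] at h2
      rw [if_pos rfl] at h3
      calc ∑ v, (t * κ.I 0 v - s * κ.I i2 v) * κ.M v i2
          = t * ∑ v, κ.I 0 v * κ.M v i2 - s * ∑ v, κ.I i2 v * κ.M v i2 := by
            rw [Finset.mul_sum, Finset.mul_sum, ← Finset.sum_sub_distrib]
            exact Finset.sum_congr rfl fun v _ => by ring
        _ = -(s : ℤ) := by rw [h2, h3]; ring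
    have h4 : ∑ v, (t * κ.I 0 v - s * κ.I i2 v) * κ.M v i2 = 0 := by
      apply Finset.sum_eq_zero
      intro v _
      have h5 := congrFun h0 v
      simp only [Pi.zero_apply] at h5
      rw [h5, zero_mul]
    rw [h1] at h4
    have : (s : ℤ) = 0 := by linarith
    have : s = 0 := by exact_mod_cast this
    omega
  · unfold sn
    apply Finset.sup_le
    intro v _
    have h1 : |((t * κ.I 0 v - s * κ.I i2 v : ℤ) : ℝ)| ≤ Real.log X := by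
      push_cast
      calc |(t : ℝ) * κ.I 0 v - s * κ.I i2 v| ≤ |(t : ℝ) * κ.I 0 v| + |(s : ℝ) * κ.I i2 v| :=
            abs_sub _ _
        _ = |(t : ℝ)| * |(κ.I 0 v : ℝ)| + s * |(κ.I i2 v : ℝ)| := by
            rw [abs_mul, abs_mul, abs_of_nonneg (by positivity : (0 : ℝ) ≤ s)]
        _ ≤ Ct * c₁ * (∑ i, ∑ v, |(κ.I i v : ℝ)|) + s * (∑ i, ∑ v, |(κ.I i v : ℝ)|) := by
            apply add_le_add
            · exact mul_le_mul htb (hM _ _) (abs_nonneg _) (by positivity)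
            · exact mul_le_mul_of_nonneg_left (hM _ _) (by positivity)
        _ = (Ct * c₁ + s) * (∑ i, ∑ v, |(κ.I i v : ℝ)|) := by ring
        _ ≤ Real.log X := hlog
    have h2 : (((t * κ.I 0 v - s * κ.I i2 v).natAbs : ℕ) : ℝ) ≤ (⌈Real.log X⌉₊ : ℝ) := by
      rw [Nat.cast_natAbs, Int.cast_abs]
      exact h1.trans (Nat.le_ceil _)
    exact_mod_cast h2
  · have h1 : ∑ v, (t * κ.I 0 v - s * κ.I i2 v) * x v =
        t * pt κ.I x 0 - s * pt κ.I x i2 := by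
      unfold pt
      rw [Finset.mul_sum, Finset.mul_sum, ← Finset.sum_sub_distrib]
      refine Finset.sum_congr rfl fun v _ => ?_
      simp only [Int.cast_id]
      ring
    rw [h1, hI0, ht]
    ring

open Classical in
theorem LWQ_pt {k : ℕ} (hPTI : Stmt_PTI) (hk : 1 ≤ k) (c : IQ k → ℤ) (κ : Crd k)
    (hok : Ok c κ) (s n c₁ N A X W Cf : ℕ) (z : Fin k → ℤ) (Ct c₀ h : ℝ) (a : IQ k → ℤ)
    (y : Fin (k + 2) → ℝ) (τ : Fin (k + 2) → ℤ) (hs : 0 < s) (hN : 1 ≤ N) (hX : 0 < X)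
    (hn : n.Prime) (hCt : 0 ≤ Ct) (hc₀ : 0 < c₀) (hc₁ : (4 * s : ℝ) ≤ c₁ * c₀) (hh : 0 ≤ h)
    (hT : ∀ x : Fin (k + 2) → ℤ, ∀ i, |((pt κ.I x i : ℤ) : ℝ)| ≤ Ct * sn x)
    (hlog : (Ct * c₁ + s) * (∑ i, ∑ v, |(κ.I i v : ℝ)|) ≤ Real.log X)
    (hsW : ∀ p : ℕ, p.Prime → p ∣ s → p ∣ W) (hCf : Cf ∣ W) (hy : RZ2 c a y)
    (hnD : κ.D * s < n)
    (hqd : (n : ℤ) ∣ qd κ.g z) (hcop : IsCoprime (n : ℤ) (W : ℤ))
    (hG : GdC κ s (κ.D * s) W Cf τ a n z)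
    (hu : c₀ / 2 ≤ 2 * (s : ℝ) * n / X)
    (hF : |FF (fun s => (a s : ℝ)) (PX κ (Fin.cons (2 * (s : ℝ) * n / X)
      (fun j => 2 * (z j : ℝ) / X)))| ≤ h * A)
    (hnr : ∀ v, |PX κ (Fin.cons (2 * (s : ℝ) * n / X) (fun j => 2 * (z j : ℝ) / X)) v - y v| ≤
      1 / (4 * N)) :
    LWQ_x κ s n z ∈ Xg c κ s c₁ X ∧ (Gen X (LWQ_x κ s n z) → LWQ_x κ s n z ∈
      ((Xr c κ s c₁ X).filter fun x => (W : ℤ) ∣ FF a x ∧
        |((FF a x : ℤ) : ℝ)| ≤ h * A * (X : ℝ) ^ 2 ∧ (∀ v, (Cf : ℤ) ∣ x v - τ v) ∧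
        ∀ v, |2 * (x v : ℝ) / X - y v| ≤ 1 / (4 * N))) := by
  have hD := hok.Dpos
  have hX' : (0 : ℝ) < X := by exact_mod_cast hX
  have hN' : (1 : ℝ) ≤ N := by exact_mod_cast hN
  have hx1 := LWQ_div κ s n W Cf z τ a hD hs hn hnD hqd hG
  obtain ⟨g1, g2, g3⟩ := LWQ_cong κ s n W Cf z τ a hD hs hn hnD hCf hqd hcop hG
  have hPX := LWQ_PX κ X s n hD hX hs hn.pos z _ hx1
  have hFc := LWQ_Fc c κ hok s n z hx1
  have hI := LWQ_I hPTI c κ hok s n z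
  rw [hPX] at hF hnr
  have hPXe : (fun v => (2 / (X : ℝ)) * ((pt κ.M (tt ((s : ℤ) * (n : ℤ)) (LWQ_x1 κ s n z) z) v : ℤ)
      : ℝ)) = fun v => (2 / (X : ℝ)) * ((LWQ_x κ s n z v : ℤ) : ℝ) := rfl
  rw [hPXe] at hF hnr
  set x := LWQ_x κ s n z with hx
  -- closeness
  have hnear : ∀ v, |2 * (x v : ℝ) / X - y v| ≤ 1 / (4 * N) := by
    intro v
    have h1 := hnr v
    beta_reduce at h1
    rwa [show (2 / (X : ℝ)) * ((x v : ℤ) : ℝ) = 2 * (x v : ℝ) / X from by ring] at h1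
  have hsmall : (1 : ℝ) / (4 * N) ≤ 1 / 4 := by
    apply one_div_le_one_div_of_le (by norm_num)
    linarith
  have hbox : ∀ v, |(x v : ℝ)| ≤ X := by
    intro v
    have h1 := (hnear v).trans hsmall
    have h2 := hy.1 v
    have h3 : |2 * (x v : ℝ) / X| ≤ 5 / 4 := by
      calc |2 * (x v : ℝ) / X| = |(2 * (x v : ℝ) / X - y v) + y v| := by ring_nf
        _ ≤ |2 * (x v : ℝ) / X - y v| + |y v| := abs_add_le _ _
        _ ≤ 1 / 4 + 1 := add_le_add h1 h2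
        _ = 5 / 4 := by norm_num
    rw [abs_div, abs_of_pos hX', div_le_iff₀ hX', abs_mul, abs_of_pos (by norm_num : (0 : ℝ) < 2)]
      at h3
    linarith
  have hbox' : ∀ v, x v ∈ Finset.Icc (-(X : ℤ)) X := by
    intro v
    have h1 : |x v| ≤ (X : ℤ) := by exact_mod_cast hbox v
    rw [Finset.mem_Icc]
    exact abs_le.1 h1
  have hsnX : sn x ≤ X := by
    unfold sn
    apply Finset.sup_le
    intro v _
    have h1 : |x v| ≤ (X : ℤ) := by exact_mod_cast hbox v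
    have h2 := abs_le.1 h1
    omega
  have hXn : X ≤ c₁ * n := by
    have h1 : c₀ / 2 * X ≤ 2 * (s : ℝ) * n := by
      rwa [le_div_iff₀ hX'] at hu
    have h2 : c₀ * X ≤ c₀ * (c₁ * n) := by
      have h3 : (4 * s : ℝ) * n ≤ c₁ * c₀ * n := mul_le_mul_of_nonneg_right hc₁ (by positivity)
      nlinarith
    have h3 : (X : ℝ) ≤ c₁ * n := le_of_mul_le_mul_left h2 hc₀
    exact_mod_cast h3
  have hXg : x ∈ Xg c κ s c₁ X := by
    unfold Xg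
    rw [Finset.mem_filter, Fintype.mem_piFinset]
    refine ⟨hbox', hFc, n, hn, hXn, ?_⟩
    rw [hI]; rfl
  refine ⟨hXg, fun hgen => ?_⟩
  rw [Finset.mem_filter]
  refine ⟨?_, g1, ?_, g2, hnear⟩
  · unfold Xr Xf
    rw [Finset.mem_filter, Finset.mem_filter]
    refine ⟨⟨hXg, ?_, ?_⟩, hgen⟩
    · apply p_PRM.1
      intro p hp
      by_contra hcon
      push Not at hcon
      have hI0 : pt κ.I x 0 = (s : ℤ) * n := by rw [hI]; rfl
      have h1 : (p : ℤ) ∣ (s : ℤ) * n := by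
        rw [← hI0]
        unfold pt
        exact Finset.dvd_sum fun v _ => Dvd.dvd.mul_left (hcon v) _
      have h2 : p ∣ s * n := by exact_mod_cast h1
      rcases (Nat.Prime.dvd_mul hp).1 h2 with h3 | h3
      · obtain ⟨v, hv⟩ := g3 p hp (hsW p hp h3)
        exact hv (hcon v)
      · have h4 : p = n := (Nat.prime_dvd_prime_iff_eq hp hn).1 h3
        subst h4
        exact LWQ_nogen hPTI hk c κ hok s p c₁ X z Ct hs hn.pos hCt (hT _) hsnX hXn hlog hcon hgen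
    · obtain ⟨v, hv⟩ := hy.2.1
      have h1 := (hnear v).trans hsmall
      have h2 : 3 / 4 ≤ |2 * (x v : ℝ) / X| := by
        have h3 : |y v| ≤ |2 * (x v : ℝ) / X| + |2 * (x v : ℝ) / X - y v| := by
          calc |y v| = |2 * (x v : ℝ) / X - (2 * (x v : ℝ) / X - y v)| := by ring_nf
            _ ≤ |2 * (x v : ℝ) / X| + |2 * (x v : ℝ) / X - y v| := abs_sub _ _
        rw [hv] at h3
        linarith
      rw [abs_div, abs_of_pos hX', le_div_iff₀ hX', abs_mul,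
        abs_of_pos (by norm_num : (0 : ℝ) < 2)] at h2
      have h5 := TUB_sn x v
      have h6 : (X : ℝ) ≤ ((4 * sn x : ℕ) : ℝ) := by
        push_cast
        linarith
      exact_mod_cast h6
  · have h1 := (p_QAD ℝ k (fun s => (a s : ℝ)) (fun v => ((x v : ℤ) : ℝ)) (fun v => ((x v : ℤ) : ℝ))
      (2 / (X : ℝ))).2.1
    rw [h1, LWQ_FF_cast, abs_mul, abs_of_pos (by positivity : (0 : ℝ) < (2 / (X : ℝ)) ^ 2)] at hF
    have h2 : |((FF a x : ℤ) : ℝ)| ≤ h * A * ((X : ℝ) ^ 2 / 4) := by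
      have h3 : |((FF a x : ℤ) : ℝ)| = (2 / (X : ℝ)) ^ 2 * |((FF a x : ℤ) : ℝ)| *
          ((X : ℝ) ^ 2 / 4) := by
        field_simp
        ring
      rw [h3]
      exact mul_le_mul_of_nonneg_right hF (by positivity)
    refine h2.trans ?_
    have h4 : 0 ≤ h * A := by positivity
    nlinarith [sq_nonneg (X : ℝ)]

/-- the box of a cube -/
theorem LWQ_u {k : ℕ} (κ : Crd k) (hPTI : Stmt_PTI) (c : IQ k → ℤ) (hok : Ok c κ)
    (u : Fin (k + 1) → ℝ) (y : Fin (k + 2) → ℝ) (hy : ∀ v, |y v| ≤ 1)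
    (h : ∀ v, |PX κ u v - y v| ≤ 1) (i : Fin (k + 1)) :
    |u i| ≤ 2 * (∑ i, ∑ v, |(κ.I i v : ℝ)|) := by
  have hI := (hPTI k c κ hok ℝ (tt (u 0) (-TT κ (u 0) (fun j => u j.succ) / (κ.D * u 0))
    fun j => u j.succ)).2.1
  have hP : ∀ v, |PX κ u v| ≤ 2 := by
    intro v
    calc |PX κ u v| = |(PX κ u v - y v) + y v| := by ring_nf
      _ ≤ |PX κ u v - y v| + |y v| := abs_add_le _ _
      _ ≤ 1 + 1 := add_le_add (h v) (hy v)
      _ = 2 := by norm_num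
  have hb : ∀ i : Fin (k + 2), |pt κ.I (PX κ u) i| ≤ 2 * (∑ i, ∑ v, |(κ.I i v : ℝ)|) := by
    intro i
    calc |pt κ.I (PX κ u) i| ≤ ∑ v, |(κ.I i v : ℝ) * PX κ u v| := by
          unfold pt
          exact Finset.abs_sum_le_sum_abs _ _
      _ ≤ ∑ v, 2 * |(κ.I i v : ℝ)| := by
          apply Finset.sum_le_sum
          intro v _
          rw [abs_mul, mul_comm]
          exact mul_le_mul_of_nonneg_right (hP v) (abs_nonneg _)
      _ = 2 * ∑ v, |(κ.I i v : ℝ)| := by rw [Finset.mul_sum]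
      _ ≤ 2 * (∑ i, ∑ v, |(κ.I i v : ℝ)|) := by
          apply mul_le_mul_of_nonneg_left _ (by norm_num)
          exact Finset.single_le_sum (f := fun i => ∑ v, |(κ.I i v : ℝ)|)
            (fun _ _ => Finset.sum_nonneg fun _ _ => abs_nonneg _) (Finset.mem_univ i)
  have hI' : pt κ.I (PX κ u) = tt (u 0) (-TT κ (u 0) (fun j => u j.succ) / (κ.D * u 0))
    fun j => u j.succ := hI
  refine Fin.cases ?_ (fun i => ?_) i
  · have h1 := hb 0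
    rw [hI'] at h1
    exact h1
  · have h1 := hb i.succ.succ
    rw [hI'] at h1
    exact h1

theorem LWQ_Xn (s n c₁ X : ℕ) (c₀ : ℝ) (hX : 0 < X) (hc₀ : 0 < c₀)
    (hc₁ : (4 * s : ℝ) ≤ c₁ * c₀) (hu : c₀ / 2 ≤ 2 * (s : ℝ) * n / X) : X ≤ c₁ * n := by
  have hX' : (0 : ℝ) < X := by exact_mod_cast hX
  have h1 : c₀ / 2 * X ≤ 2 * (s : ℝ) * n := by
    rwa [le_div_iff₀ hX'] at hu
  have h2 : c₀ * X ≤ c₀ * (c₁ * n) := by
    have h3 : (4 * s : ℝ) * n ≤ c₁ * c₀ * n := mul_le_mul_of_nonneg_right hc₁ (by positivity)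
    nlinarith
  have h3 : (X : ℝ) ≤ c₁ * n := le_of_mul_le_mul_left h2 hc₀
  exact_mod_cast h3

theorem LWQ_mod (M n a b : ℤ) (ha : 0 ≤ a) (ha' : a < M) (hb : 0 ≤ b) (hb' : b < M)
    (h1 : M ∣ n - a) (h2 : M ∣ n - b) : a = b := by
  have h3 : M ∣ a - b := by
    have h4 := dvd_sub h2 h1
    rwa [show n - b - (n - a) = a - b from by ring] at h4
  have h5 := Int.eq_zero_of_abs_lt_dvd h3 (by rw [abs_lt]; constructor <;> linarith)
  linarith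

theorem LWQ_fl (lam t : ℝ) (a b : ℤ) (hl : 0 < lam) (h1 : lam * a ≤ t) (h2 : t < lam * (a + 1))
    (h3 : lam * b ≤ t) (h4 : t < lam * (b + 1)) : a = b := by
  have h5 : (a : ℝ) < b + 1 := lt_of_mul_lt_mul_left (h1.trans_lt h4) hl.le
  have h6 : (b : ℝ) < a + 1 := lt_of_mul_lt_mul_left (h3.trans_lt h2) hl.le
  have h7 : a < b + 1 := by exact_mod_cast h5
  have h8 : b < a + 1 := by exact_mod_cast h6
  omega

theorem LWQ_fin (c₂ c₃ θ h Cg M L Xk lk g J F B : ℝ) (hc₂ : 0 < c₂) (hc₃ : 0 < c₃) (hθ : 0 < θ)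
    (hh : 0 < h) (hM : 0 < M) (hL : 0 < L) (hXk : 0 < Xk) (hlk : 0 < lk) (hg : g = 0 ∨ 1 ≤ g)
    (hF : 0 ≤ F) (hJ : c₂ / lk ≤ J) (h1 : J * g * (c₃ * (lk * (θ * h)) * Xk / (M * L)) ≤ F + B)
    (hB : B ≤ Cg * Xk / L ^ 2) (hLog : 2 * Cg * M / (c₂ * c₃ * θ * h) ≤ L) :
    c₂ * c₃ * θ / 2 * h * g * Xk / (M * L) ≤ F := by
  rcases hg with hg | hg
  · rw [hg]; simpa using hF
  · have hg0 : 0 < g := by linarith
    set U : ℝ := c₂ * c₃ * θ / 2 * h * Xk / (M * L) with hU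
    have hU0 : 0 < U := by positivity
    have h2 : 2 * U * g ≤ J * g * (c₃ * (lk * (θ * h)) * Xk / (M * L)) := by
      have h3 : 2 * U * g = c₂ / lk * g * (c₃ * (lk * (θ * h)) * Xk / (M * L)) := by
        rw [hU]; field_simp
      rw [h3]
      gcongr
    have h4 : Cg * Xk / L ^ 2 ≤ U := by
      rw [div_le_iff₀ (by positivity)] at hLog
      rw [hU, div_le_div_iff₀ (by positivity) (by positivity)]
      have h5 : Cg * M ≤ L * (c₂ * c₃ * θ * h) / 2 := by linarith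
      calc Cg * Xk * (M * L) = (Cg * M) * (Xk * L) := by ring
        _ ≤ (L * (c₂ * c₃ * θ * h) / 2) * (Xk * L) :=
            mul_le_mul_of_nonneg_right h5 (by positivity)
        _ = c₂ * c₃ * θ / 2 * h * Xk * L ^ 2 := by ring
    have h6 : c₂ * c₃ * θ / 2 * h * g * Xk / (M * L) = g * U := by rw [hU]; ring
    rw [h6]
    nlinarith

theorem p_LWQ (hPTI : Stmt_PTI) (hTUB : Stmt_TUB) (hGNB : Stmt_GNB) (hGIN : Stmt_GIN)
    (hRCQ : Stmt_RCQ) (hCBQ : Stmt_CBQ) : Stmt_LWQ := by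
  classical
  intro k c κ s c₁ N c₀ δ hk hok hs hN hc₀ hδ hc₁
  have hD := hok.Dpos
  set Im : ℝ := ∑ i, ∑ v, |(κ.I i v : ℝ)| with hIm
  have hIm0 : 0 ≤ Im := Finset.sum_nonneg fun _ _ => Finset.sum_nonneg fun _ _ => abs_nonneg _
  have hs' : (1 : ℝ) ≤ s := by exact_mod_cast hs
  have hN' : (1 : ℝ) ≤ N := by exact_mod_cast hN
  have hc₁1 : 1 ≤ c₁ := by
    by_contra h
    have h0 : c₁ = 0 := by omega
    rw [h0, Nat.cast_zero, zero_mul] at hc₁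
    linarith
  obtain ⟨c₃, hc₃, hCB⟩ := hCBQ k s κ.g c₀ (2 * Im + 1) (by omega) hok.nons hs hc₀ (by linarith)
  obtain ⟨θ, c₂, hθ, hθ0, hc₂, hRC⟩ := hRCQ k c κ c₀ δ (1 / (4 * N)) (c₀ / (2 * s)) hok hc₀ hδ
    (by positivity) (by positivity)
  obtain ⟨Cg, Xg0, hCg1, hXg3, hGN⟩ := hGNB k c κ s c₁ (by omega) hok hs hc₁1
  obtain ⟨Ct, hCt1, hTU⟩ := hTUB k κ
  refine ⟨c₂ * c₃ * θ / 2, by positivity, ?_⟩
  intro W Cf h hW hCf hsW hh hh1
  have hM0 : 1 ≤ κ.D * s * W := Nat.succ_le_of_lt (by positivity)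
  have hlam0 : 0 < θ * h := by positivity
  have hlam : θ * h ≤ c₀ / (2 * s) := by
    calc θ * h ≤ θ * 1 := mul_le_mul_of_nonneg_left hh1 hθ.le
      _ = θ := mul_one _
      _ ≤ _ := hθ0
  obtain ⟨Xc0, hXc3, hCB'⟩ := hCB (κ.D * s * W) (θ * h) hM0 hlam0 hlam
  set MM : ℝ := ((κ.D * s * W : ℕ) : ℝ) ^ k * Nat.totient (κ.D * s * W) with hMM
  set L1 : ℝ := 2 * Cg * MM / (c₂ * c₃ * θ * h) with hL1
  set L2 : ℝ := (Ct * c₁ + s) * Im with hL2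
  refine ⟨max (max Xc0 Xg0) (max (c₁ * (κ.D * s) + 1) ⌈Real.exp (max L1 L2)⌉₊),
    hXc3.trans ((le_max_left _ _).trans (le_max_left _ _)), ?_⟩
  intro A X a y τ hA hX ha hy hy0 hRS
  have hX1 : Xc0 ≤ X := ((le_max_left _ _).trans (le_max_left _ _)).trans hX
  have hX2 : Xg0 ≤ X := ((le_max_right _ _).trans (le_max_left _ _)).trans hX
  have hX3 : c₁ * (κ.D * s) + 1 ≤ X := ((le_max_left _ _).trans (le_max_right _ _)).trans hX
  have hX4 : ⌈Real.exp (max L1 L2)⌉₊ ≤ X := ((le_max_right _ _).trans (le_max_right _ _)).trans hX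
  have hX0 : 0 < X := by omega
  have hX0' : (0 : ℝ) < X := by exact_mod_cast hX0
  have hlogX : max L1 L2 ≤ Real.log X := by
    rw [Real.le_log_iff_exp_le hX0']
    exact (Nat.le_ceil _).trans (by exact_mod_cast hX4)
  have hlog1 : 0 < Real.log X := Real.log_pos (by
    have : 3 ≤ X := hXc3.trans hX1
    have : (3 : ℝ) ≤ X := by exact_mod_cast this
    linarith)
  obtain ⟨J, hJc, hJ⟩ := hRC h A a y hh hh1 hA ha hy hy0 (by
    intro μ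
    by_contra hcon
    push Not at hcon
    exact hRS ⟨y, μ, hy, fun v => (hcon v).le⟩)
  have hsmall : (1 : ℝ) / (4 * N) ≤ 1 := by
    rw [div_le_one (by positivity)]
    linarith
  set G := Gc κ s (κ.D * s) W Cf τ a with hG
  have hS : ∀ j ∈ J, ∀ g ∈ G, ∃ S : Finset (ℕ × (Fin k → ℤ)),
      c₃ * (θ * h) ^ (k + 1) * (X : ℝ) ^ k / (((κ.D * s * W : ℕ) : ℝ) ^ k *
        Nat.totient (κ.D * s * W) * Real.log X) ≤ (S.card : ℝ) ∧
      ∀ q ∈ S, q.1.Prime ∧ ((κ.D * s * W : ℕ) : ℤ) ∣ (q.1 : ℤ) - g.1 ∧ (q.1 : ℤ) ∣ qd κ.g q.2 ∧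
        (∀ i, ((κ.D * s * W : ℕ) : ℤ) ∣ q.2 i - g.2 i) ∧
        θ * h * j 0 ≤ 2 * s * q.1 / X ∧ (2 * s * q.1 / X : ℝ) < θ * h * (j 0 + 1) ∧
        ∀ i : Fin k, θ * h * j i.succ ≤ 2 * (q.2 i : ℝ) / X ∧
          (2 * (q.2 i : ℝ) / X : ℝ) < θ * h * (j i.succ + 1) := by
    intro j hj g hg
    rw [hG] at hg
    unfold Gc at hg
    rw [Finset.mem_filter] at hg
    have hJ1 := hJ j hj (fun i => θ * h * j i) (fun i => ⟨le_rfl, by
      have : θ * h * (j i : ℝ) ≤ θ * h * (j i + 1) :=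
        mul_le_mul_of_nonneg_left (by linarith) hlam0.le
      exact this⟩)
    refine hCB' X hX1 j g.1 g.2 hJ1.1 (fun i => ?_) hg.2.1
    have h1 := LWQ_u κ hPTI c hok (fun i => θ * h * j i) y hy.1
      (fun v => (hJ1.2.2 v).trans hsmall) i
    linarith
  choose! S hScard hSmem using hS
  set P := (J ×ˢ G).biUnion (fun p => S p.1 p.2) with hP
  have hPcard : (P.card : ℝ) = ∑ p ∈ J ×ˢ G, ((S p.1 p.2).card : ℝ) := by
    rw [hP, Finset.card_biUnion]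
    · push_cast; rfl
    · intro p hp p' hp' hne
      rw [Function.onFun, Finset.disjoint_left]
      intro q hq hq'
      apply hne
      rw [Finset.mem_coe, Finset.mem_product] at hp hp'
      obtain ⟨-, a2, -, a4, a5, a6, a7⟩ := hSmem p.1 hp.1 p.2 hp.2 q hq
      obtain ⟨-, b2, -, b4, b5, b6, b7⟩ := hSmem p'.1 hp'.1 p'.2 hp'.2 q hq'
      have hg := hp.2
      have hg' := hp'.2
      rw [hG] at hg hg'
      unfold Gc at hg hg'
      rw [Finset.mem_filter, Finset.mem_product, Finset.mem_Ico] at hg hg'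
      have hz := hg.1.2
      have hz' := hg'.1.2
      unfold cs at hz hz'
      rw [Fintype.mem_piFinset] at hz hz'
      refine Prod.ext ?_ (Prod.ext ?_ ?_)
      · funext i
        refine Fin.cases ?_ (fun i => ?_) i
        · exact LWQ_fl (θ * h) _ _ _ hlam0 a5 a6 b5 b6
        · exact LWQ_fl (θ * h) _ _ _ hlam0 (a7 i).1 (a7 i).2 (b7 i).1 (b7 i).2
      · exact LWQ_mod _ _ _ _ hg.1.1.1 hg.1.1.2 hg'.1.1.1 hg'.1.1.2 a2 b2
      · funext i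
        have h1 := Finset.mem_Ico.1 (hz i)
        have h2 := Finset.mem_Ico.1 (hz' i)
        exact LWQ_mod _ _ _ _ h1.1 h1.2 h2.1 h2.2 (a4 i) (b4 i)
  have hpt : ∀ q ∈ P, LWQ_x κ s q.1 q.2 ∈ Xg c κ s c₁ X ∧ (Gen X (LWQ_x κ s q.1 q.2) →
      LWQ_x κ s q.1 q.2 ∈ ((Xr c κ s c₁ X).filter fun x => (W : ℤ) ∣ FF a x ∧
        |((FF a x : ℤ) : ℝ)| ≤ h * A * (X : ℝ) ^ 2 ∧ (∀ v, (Cf : ℤ) ∣ x v - τ v) ∧
        ∀ v, |2 * (x v : ℝ) / X - y v| ≤ 1 / (4 * N))) := by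
    intro q hq
    rw [hP, Finset.mem_biUnion] at hq
    obtain ⟨p, hp, hq⟩ := hq
    rw [Finset.mem_product] at hp
    obtain ⟨a1, a2, a3, a4, a5, a6, a7⟩ := hSmem p.1 hp.1 p.2 hp.2 q hq
    have hg := hp.2
    rw [hG] at hg
    unfold Gc at hg
    rw [Finset.mem_filter] at hg
    have hu := hJ p.1 hp.1 (Fin.cons (2 * (s : ℝ) * q.1 / X) (fun j => 2 * (q.2 j : ℝ) / X)) (by
      intro i
      refine Fin.cases ?_ (fun i => ?_) i
      · rw [Fin.cons_zero]; exact ⟨a5, a6.le⟩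
      · rw [Fin.cons_succ]; exact ⟨(a7 i).1, (a7 i).2.le⟩)
    rw [Fin.cons_zero] at hu
    have hXn := LWQ_Xn s q.1 c₁ X c₀ hX0 hc₀ hc₁ hu.1
    have hnD : κ.D * s < q.1 := by
      by_contra hcon
      push Not at hcon
      have := Nat.mul_le_mul_left c₁ hcon
      omega
    have hcop : IsCoprime (q.1 : ℤ) (W : ℤ) := by
      obtain ⟨t, ht⟩ := a2
      have h1 : (q.1 : ℤ) = p.2.1 + ((κ.D * s * W : ℕ) : ℤ) * t := by linarith
      rw [h1]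
      exact (hg.2.1.add_mul_left_left t).of_isCoprime_of_dvd_right
        (Int.natCast_dvd_natCast.2 (Dvd.intro_left _ rfl))
    have hGd : GdC κ s (κ.D * s) W Cf τ a (q.1 : ℤ) q.2 := by
      refine hGIN k κ s (κ.D * s) W Cf τ a a p.2.1 q.1 p.2.2 q.2 hCf
        (fun i => by rw [sub_self]; exact dvd_zero _) ?_ ?_ hg.2.2
      · rw [← neg_sub]; exact (dvd_neg.2 a2)
      · intro j; rw [← neg_sub]; exact (dvd_neg.2 (a4 j))
    exact LWQ_pt hPTI (by omega) c κ hok s q.1 c₁ N A X W Cf q.2 Ct c₀ h a y τ hs hN hX0 a1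
      (by linarith) hc₀ hc₁ hh.le (fun x => (hTU x x).1) ((le_max_right _ _).trans hlogX)
      hsW hCf hy hnD a3 hcop hGd hu.1 hu.2.1 hu.2.2
  have hinj : Set.InjOn (fun q : ℕ × (Fin k → ℤ) => LWQ_x κ s q.1 q.2) P := by
    intro q hq q' hq' heq
    have h1 : tt ((s : ℤ) * (q.1 : ℤ)) (LWQ_x1 κ s q.1 q.2) q.2 =
        tt ((s : ℤ) * (q'.1 : ℤ)) (LWQ_x1 κ s q'.1 q'.2) q'.2 := by
      rw [← LWQ_I hPTI c κ hok s q.1 q.2, ← LWQ_I hPTI c κ hok s q'.1 q'.2]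
      exact congrArg (pt κ.I) heq
    refine Prod.ext ?_ ?_
    · have h2 : (s : ℤ) * (q.1 : ℤ) = (s : ℤ) * (q'.1 : ℤ) := congrFun h1 0
      have h3 : (s : ℤ) ≠ 0 := by positivity
      have h4 := mul_left_cancel₀ h3 h2
      exact_mod_cast h4
    · funext j
      exact congrFun h1 j.succ.succ
  have hcount : (P.card : ℝ) ≤
      ((((Xr c κ s c₁ X).filter fun x => (W : ℤ) ∣ FF a x ∧
        |((FF a x : ℤ) : ℝ)| ≤ h * A * (X : ℝ) ^ 2 ∧ (∀ v, (Cf : ℤ) ∣ x v - τ v) ∧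
        ∀ v, |2 * (x v : ℝ) / X - y v| ≤ 1 / (4 * N)).card : ℝ)) +
      (((Xg c κ s c₁ X).filter fun x => ¬ Gen X x).card : ℝ) := by
    rw [← Finset.card_image_of_injOn hinj, ← Nat.cast_add, Nat.cast_le]
    refine (Finset.card_le_card ?_).trans (Finset.card_union_le _ _)
    intro x hx
    rw [Finset.mem_image] at hx
    obtain ⟨q, hq, rfl⟩ := hx
    rw [Finset.mem_union]
    by_cases hgen : Gen X (LWQ_x κ s q.1 q.2)
    · exact Or.inl ((hpt q hq).2 hgen)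
    · exact Or.inr (Finset.mem_filter.2 ⟨(hpt q hq).1, hgen⟩)
  have hlow : (J.card : ℝ) * G.card * (c₃ * ((θ * h) ^ k * (θ * h)) * (X : ℝ) ^ k /
      (MM * Real.log X)) ≤ P.card := by
    rw [hPcard]
    calc (J.card : ℝ) * G.card * (c₃ * ((θ * h) ^ k * (θ * h)) * (X : ℝ) ^ k /
      (MM * Real.log X)) = ∑ p ∈ J ×ˢ G, (c₃ * (θ * h) ^ (k + 1) * (X : ℝ) ^ k /
        (((κ.D * s * W : ℕ) : ℝ) ^ k * Nat.totient (κ.D * s * W) * Real.log X)) := by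
          have hJG : ((J.card * G.card : ℕ) : ℝ) = (J.card : ℝ) * G.card := Nat.cast_mul _ _
          rw [Finset.sum_const, Finset.card_product, nsmul_eq_mul, pow_succ, hMM, hJG]
      _ ≤ ∑ p ∈ J ×ˢ G, ((S p.1 p.2).card : ℝ) := by
          apply Finset.sum_le_sum
          intro p hp
          rw [Finset.mem_product] at hp
          exact hScard p.1 hp.1 p.2 hp.2
  have hgc : (G.card : ℝ) = 0 ∨ (1 : ℝ) ≤ G.card := by
    rcases Nat.eq_zero_or_pos G.card with h0 | h0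
    · left; rw [h0]; exact Nat.cast_zero
    · right; exact_mod_cast h0
  have hMM0 : 0 < MM := by
    have h1 : 0 < Nat.totient (κ.D * s * W) := Nat.totient_pos.2 hM0
    have h2 : (0 : ℝ) < ((κ.D * s * W : ℕ) : ℝ) := by exact_mod_cast hM0
    have h3 : (0 : ℝ) < (Nat.totient (κ.D * s * W) : ℝ) := by exact_mod_cast h1
    rw [hMM]
    exact mul_pos (pow_pos h2 k) h3
  exact LWQ_fin c₂ c₃ θ h Cg MM (Real.log X) ((X : ℝ) ^ k) ((θ * h) ^ k) G.card J.card _ _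
    hc₂ hc₃ hθ hh hMM0 hlog1 (by positivity) (by positivity) hgc (by positivity) hJc
    (hlow.trans hcount) (hGN X hX2) ((le_max_left _ _).trans hlogX)

end Pool.FQ
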