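import Pool.Agent.Work.MP_9fb703_fq.Interface2
import Pool.Agent.Work.MP_a19274_ge.B_CNG

/-! # Block MLQ: multiplicativity of the number of good classes -/

set_option autoImplicit false

namespace Pool.FQ

open Finset
open Pool.HPQ (Fw Lam Kw fl rd cs Ww)
open Pool.CB (VV Sol PSN PH lin dl)
open Pool.GE
open Pool.GR (SingPr)

theorem MLQ_pt {k : ℕ} (κ : Crd k) (x0 x1 x1' : ℤ) (z : Fin k → ℤ) (W : ℤ) (h : W ∣ x1 - x1')
    (v : Fin (k + 2)) : W ∣ pt κ.M (tt x0 x1 z) v - pt κ.M (tt x0 x1' z) v := by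
  unfold pt
  rw [← Finset.sum_sub_distrib]
  refine Finset.dvd_sum fun i _ => ?_
  rw [← mul_sub]
  refine Dvd.dvd.mul_left ?_ _
  refine Fin.cases ?_ (fun i => ?_) i
  · unfold tt
    simp
  · refine Fin.cases ?_ (fun j => ?_) i
    · unfold tt
      simpa using h
    · unfold tt
      simp

/-- the condition on the class, with the coordinate `x₁` -/
def MLQ_P {k : ℕ} (κ : Crd k) (s m₁ W Cf : ℕ) (τ : Fin (k + 2) → ℤ) (a : IQ k → ℤ) (n : ℤ)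
    (z : Fin k → ℤ) (x₁ : ℤ) : Prop :=
  ((m₁ * W : ℕ) : ℤ) ∣ κ.D * (s * n * x₁) + TT κ (s * n) z ∧
    (W : ℤ) ∣ FF a (pt κ.M (tt (s * n) x₁ z)) ∧
    (∀ v, (Cf : ℤ) ∣ pt κ.M (tt (s * n) x₁ z) v - τ v) ∧
    ∀ p : ℕ, p.Prime → p ∣ W → ∃ v, ¬ (p : ℤ) ∣ pt κ.M (tt (s * n) x₁ z) v

theorem MLQ_iff {k : ℕ} (κ : Crd k) (s m₁ W Cf : ℕ) (τ : Fin (k + 2) → ℤ) (a : IQ k → ℤ) (n : ℤ)
    (z : Fin k → ℤ) : GdC κ s m₁ W Cf τ a n z ↔ ∃ x₁, MLQ_P κ s m₁ W Cf τ a n z x₁ := Iff.rfl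

theorem MLQ_shift {k : ℕ} {κ : Crd k} {s m₁ W Cf : ℕ} {τ : Fin (k + 2) → ℤ} {a : IQ k → ℤ}
    {n : ℤ} {z : Fin k → ℤ} {x x' : ℤ} (hm : m₁ ∣ κ.D * s) (hCf : Cf ∣ W)
    (hx : (W : ℤ) ∣ x - x') (h : MLQ_P κ s m₁ W Cf τ a n z x) :
    MLQ_P κ s m₁ W Cf τ a n z x' := by
  obtain ⟨h1, h2, h3, h4⟩ := h
  have hpt := MLQ_pt κ (s * n) x x' z (W : ℤ) hx
  refine ⟨?_, ?_, ?_, ?_⟩
  · have e : κ.D * (s * n * x') + TT κ (s * n) z =
        (κ.D * (s * n * x) + TT κ (s * n) z) - (κ.D * s) * (x - x') * n := by ring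
    rw [e]
    refine dvd_sub h1 (Dvd.dvd.mul_right ?_ _)
    rw [Nat.cast_mul]
    refine mul_dvd_mul ?_ hx
    have := Int.natCast_dvd_natCast.2 hm
    rwa [Nat.cast_mul] at this
  · exact (dvd_iff_dvd_of_dvd_sub
      (p_CNG ℤ _ _ _ _ a a _ _ (W : ℤ) (fun s => by simp) hpt).1).1 h2
  · intro v
    have hv : (Cf : ℤ) ∣ pt κ.M (tt (s * n) x z) v - pt κ.M (tt (s * n) x' z) v :=
      (Int.natCast_dvd_natCast.2 hCf).trans (hpt v)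
    have h5 := dvd_sub (h3 v) hv
    have e : pt κ.M (tt (s * n) x z) v - τ v -
        (pt κ.M (tt (s * n) x z) v - pt κ.M (tt (s * n) x' z) v) =
        pt κ.M (tt (s * n) x' z) v - τ v := by ring
    rwa [e] at h5
  · intro p hp hpW
    obtain ⟨v, hv⟩ := h4 p hp hpW
    refine ⟨v, fun hd => hv ?_⟩
    have h5 : (p : ℤ) ∣ pt κ.M (tt (s * n) x z) v - pt κ.M (tt (s * n) x' z) v :=
      (Int.natCast_dvd_natCast.2 hpW).trans (hpt v)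
    have h6 := dvd_add h5 hd
    rwa [sub_add_cancel] at h6

theorem MLQ_crt (N N' : ℤ) (hN : 0 < N) (hN' : 0 < N') (hco : IsCoprime N N') :
    ∃ f : ℤ → ℤ → ℤ, ∀ y z, 0 ≤ f y z ∧ f y z < N * N' ∧ N ∣ f y z - y ∧ N' ∣ f y z - z := by
  obtain ⟨c, e, hcd⟩ := hco
  have hmn : 0 < N * N' := mul_pos hN hN'
  refine ⟨fun y z => (y * (e * N') + z * (c * N)) % (N * N'), fun y z =>
    ⟨Int.emod_nonneg _ hmn.ne', Int.emod_lt_of_pos _ hmn, ?_, ?_⟩⟩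
  · have h0 : N * N' ∣ (y * (e * N') + z * (c * N)) - (y * (e * N') + z * (c * N)) % (N * N') :=
      Int.dvd_self_sub_emod
    have h2 := (dvd_mul_right N N').trans h0
    have h3 : N ∣ (y * (e * N') + z * (c * N)) - y := by
      refine ⟨z * c - y * c, ?_⟩
      have : e * N' = 1 - c * N := by linarith
      rw [this]
      ring
    have h4 := dvd_sub h3 h2
    rwa [sub_sub_sub_cancel_left] at h4
  · have h0 : N * N' ∣ (y * (e * N') + z * (c * N)) - (y * (e * N') + z * (c * N)) % (N * N') :=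
      Int.dvd_self_sub_emod
    have h2 := (dvd_mul_left N' N).trans h0
    have h3 : N' ∣ (y * (e * N') + z * (c * N)) - z := by
      refine ⟨y * e - z * e, ?_⟩
      have : c * N = 1 - e * N' := by linarith
      rw [this]
      ring
    have h4 := dvd_sub h3 h2
    rwa [sub_sub_sub_cancel_left] at h4

theorem MLQ_eq (N N' : ℤ) (hco : IsCoprime N N') (x y : ℤ) (hx : 0 ≤ x ∧ x < N * N')
    (hy : 0 ≤ y ∧ y < N * N') (h1 : x % N = y % N) (h2 : x % N' = y % N') : x = y := by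
  have h3 : N ∣ x - y := Int.ModEq.dvd (show y ≡ x [ZMOD N] from h1.symm)
  have h4 : N' ∣ x - y := Int.ModEq.dvd (show y ≡ x [ZMOD N'] from h2.symm)
  have h5 : N * N' ∣ x - y := hco.mul_dvd h3 h4
  have h8 : |x - y| < N * N' := by
    rw [abs_lt]
    constructor
    · linarith [hx.1, hy.2]
    · linarith [hx.2, hy.1]
  have h9 := Int.eq_zero_of_abs_lt_dvd h5 h8
  linarith

theorem MLQ_cop {N x y : ℤ} (h : N ∣ x - y) : IsCoprime x N ↔ IsCoprime y N := by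
  obtain ⟨t, ht⟩ := h
  have e : x = y + N * t := by linarith
  rw [e]
  exact IsCoprime.add_mul_left_left_iff

theorem MLQ_mem {k : ℕ} {κ : Crd k} {s m₁ W Cf : ℕ} {τ : Fin (k + 2) → ℤ} {a : IQ k → ℤ}
    {q : ℤ × (Fin k → ℤ)} : q ∈ Gc κ s m₁ W Cf τ a ↔
      ((0 ≤ q.1 ∧ q.1 < ((m₁ * W : ℕ) : ℤ)) ∧ ∀ j, 0 ≤ q.2 j ∧ q.2 j < ((m₁ * W : ℕ) : ℤ)) ∧
      IsCoprime q.1 ((m₁ * W : ℕ) : ℤ) ∧ GdC κ s m₁ W Cf τ a q.1 q.2 := by
  simp only [Gc, cs, Finset.mem_filter, Finset.mem_product, Fintype.mem_piFinset, Finset.mem_Ico]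

/-- the condition for the product -/
theorem MLQ_split {k : ℕ} {κ : Crd k} {s m₁ W Cf m₁' W' Cf' : ℕ} {τ : Fin (k + 2) → ℤ}
    {a : IQ k → ℤ} {n : ℤ} {z : Fin k → ℤ} (hW : 0 < W) (hW' : 0 < W')
    (hco : Nat.Coprime (m₁ * W) (m₁' * W')) (hm : m₁ * m₁' ∣ κ.D * s) (hCf : Cf ∣ W)
    (hCf' : Cf' ∣ W') :
    GdC κ s (m₁ * m₁') (W * W') (Cf * Cf') τ a n z ↔
      GdC κ s m₁ W Cf τ a n z ∧ GdC κ s m₁' W' Cf' τ a n z := by
  have hcoZ : IsCoprime ((m₁ * W : ℕ) : ℤ) ((m₁' * W' : ℕ) : ℤ) :=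
    Nat.isCoprime_iff_coprime.mpr hco
  have hcoW : IsCoprime (W : ℤ) (W' : ℤ) := by
    apply Nat.isCoprime_iff_coprime.mpr
    exact (hco.coprime_dvd_left (Dvd.intro_left _ rfl)).coprime_dvd_right (Dvd.intro_left _ rfl)
  have hcoC : IsCoprime (Cf : ℤ) (Cf' : ℤ) :=
    (hcoW.of_isCoprime_of_dvd_left (Int.natCast_dvd_natCast.2 hCf)).of_isCoprime_of_dvd_right
      (Int.natCast_dvd_natCast.2 hCf')
  rw [MLQ_iff, MLQ_iff, MLQ_iff]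
  constructor
  · rintro ⟨x, h1, h2, h3, h4⟩
    push_cast at h1 h2 h3
    refine ⟨⟨x, ?_, ?_, ?_, ?_⟩, ⟨x, ?_, ?_, ?_, ?_⟩⟩
    · push_cast
      exact (Dvd.intro ((m₁' : ℤ) * W') (by ring)).trans h1
    · exact (dvd_mul_right _ _).trans h2
    · exact fun v => (dvd_mul_right _ _).trans (h3 v)
    · exact fun p hp hpW => h4 p hp (hpW.mul_right _)
    · push_cast
      exact (Dvd.intro ((m₁ : ℤ) * W) (by ring)).trans h1
    · exact (dvd_mul_left _ _).trans h2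
    · exact fun v => (dvd_mul_left _ _).trans (h3 v)
    · exact fun p hp hpW => h4 p hp (hpW.mul_left _)
  · rintro ⟨⟨x, hx⟩, ⟨x', hx'⟩⟩
    obtain ⟨f, hf⟩ := MLQ_crt (W : ℤ) (W' : ℤ) (by exact_mod_cast hW) (by exact_mod_cast hW') hcoW
    obtain ⟨-, -, f1, f2⟩ := hf x x'
    have hm1 : m₁ ∣ κ.D * s := (dvd_mul_right _ _).trans hm
    have hm2 : m₁' ∣ κ.D * s := (dvd_mul_left _ _).trans hm
    have g1 : (W : ℤ) ∣ x - f x x' := by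
      rw [← neg_sub]
      exact (dvd_neg).2 f1
    have g2 : (W' : ℤ) ∣ x' - f x x' := by
      rw [← neg_sub]
      exact (dvd_neg).2 f2
    obtain ⟨h1, h2, h3, h4⟩ := MLQ_shift hm1 hCf g1 hx
    obtain ⟨k1, k2, k3, k4⟩ := MLQ_shift hm2 hCf' g2 hx'
    refine ⟨f x x', ?_, ?_, ?_, ?_⟩
    · have e : ((m₁ * m₁' * (W * W') : ℕ) : ℤ) = ((m₁ * W : ℕ) : ℤ) * ((m₁' * W' : ℕ) : ℤ) := by
        push_cast
        ring
      rw [e]
      exact hcoZ.mul_dvd h1 k1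
    · push_cast
      exact hcoW.mul_dvd h2 k2
    · intro v
      push_cast
      exact hcoC.mul_dvd (h3 v) (k3 v)
    · intro p hp hpW
      rcases (Nat.Prime.dvd_mul hp).1 hpW with h | h
      · exact h4 p hp h
      · exact k4 p hp h

theorem p_MLQ (hGIN : Stmt_GIN) : Stmt_MLQ := by
  intro k κ s m₁ W Cf m₁' W' Cf' τ a hm₁ hW hm₁' hW' hco hm hCf hCf'
  classical
  rw [← Finset.card_product]
  obtain ⟨N, hNd⟩ : ∃ N : ℤ, N = ((m₁ * W : ℕ) : ℤ) := ⟨_, rfl⟩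
  obtain ⟨N', hNd'⟩ : ∃ N' : ℤ, N' = ((m₁' * W' : ℕ) : ℤ) := ⟨_, rfl⟩
  have hN : 0 < N := by
    rw [hNd]
    exact_mod_cast Nat.mul_pos hm₁ hW
  have hN' : 0 < N' := by
    rw [hNd']
    exact_mod_cast Nat.mul_pos hm₁' hW'
  have hcoZ : IsCoprime N N' := by
    rw [hNd, hNd']
    exact Nat.isCoprime_iff_coprime.mpr hco
  have hNN : ((m₁ * m₁' * (W * W') : ℕ) : ℤ) = N * N' := by
    rw [hNd, hNd']
    push_cast
    ring
  have hinv : ∀ (n n' : ℤ) (z z' : Fin k → ℤ), N ∣ n - n' → (∀ j, N ∣ z j - z' j) →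
      (GdC κ s m₁ W Cf τ a n z ↔ GdC κ s m₁ W Cf τ a n' z') := by
    intro n n' z z' h1 h2
    rw [hNd] at h1 h2
    constructor
    · exact hGIN k κ s m₁ W Cf τ a a n n' z z' hCf (fun i => by simp) h1 h2
    · refine hGIN k κ s m₁ W Cf τ a a n' n z' z hCf (fun i => by simp) ?_ fun j => ?_
      · rw [← neg_sub]
        exact (dvd_neg).2 h1
      · rw [← neg_sub]
        exact (dvd_neg).2 (h2 j)
  have hinv' : ∀ (n n' : ℤ) (z z' : Fin k → ℤ), N' ∣ n - n' → (∀ j, N' ∣ z j - z' j) →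
      (GdC κ s m₁' W' Cf' τ a n z ↔ GdC κ s m₁' W' Cf' τ a n' z') := by
    intro n n' z z' h1 h2
    rw [hNd'] at h1 h2
    constructor
    · exact hGIN k κ s m₁' W' Cf' τ a a n n' z z' hCf' (fun i => by simp) h1 h2
    · refine hGIN k κ s m₁' W' Cf' τ a a n' n z' z hCf' (fun i => by simp) ?_ fun j => ?_
      · rw [← neg_sub]
        exact (dvd_neg).2 h1
      · rw [← neg_sub]
        exact (dvd_neg).2 (h2 j)
  -- the key equivalence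
  have key : ∀ (n n1 n2 : ℤ) (z z1 z2 : Fin k → ℤ), N ∣ n - n1 → N' ∣ n - n2 →
      (∀ j, N ∣ z j - z1 j) → (∀ j, N' ∣ z j - z2 j) →
      ((IsCoprime n (N * N') ∧ GdC κ s (m₁ * m₁') (W * W') (Cf * Cf') τ a n z) ↔
        (IsCoprime n1 N ∧ GdC κ s m₁ W Cf τ a n1 z1) ∧
        (IsCoprime n2 N' ∧ GdC κ s m₁' W' Cf' τ a n2 z2)) := by
    intro n n1 n2 z z1 z2 h1 h2 h3 h4
    rw [IsCoprime.mul_right_iff, MLQ_cop h1, MLQ_cop h2, MLQ_split hW hW' hco hm hCf hCf',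
      hinv n n1 z z1 h1 h3, hinv' n n2 z z2 h2 h4]
    tauto
  refine Finset.card_bij (fun q _ => ((q.1 % N, fun j => q.2 j % N),
    (q.1 % N', fun j => q.2 j % N'))) ?_ ?_ ?_
  · intro q hq
    rw [MLQ_mem, hNN] at hq
    rw [Finset.mem_product, MLQ_mem, MLQ_mem, ← hNd, ← hNd']
    have h3 := (key q.1 (q.1 % N) (q.1 % N') q.2 (fun j => q.2 j % N) (fun j => q.2 j % N')
      Int.dvd_self_sub_emod Int.dvd_self_sub_emod (fun j => Int.dvd_self_sub_emod)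
      (fun j => Int.dvd_self_sub_emod)).1 hq.2
    exact ⟨⟨⟨⟨Int.emod_nonneg _ hN.ne', Int.emod_lt_of_pos _ hN⟩,
      fun j => ⟨Int.emod_nonneg _ hN.ne', Int.emod_lt_of_pos _ hN⟩⟩, h3.1⟩,
      ⟨⟨⟨Int.emod_nonneg _ hN'.ne', Int.emod_lt_of_pos _ hN'⟩,
      fun j => ⟨Int.emod_nonneg _ hN'.ne', Int.emod_lt_of_pos _ hN'⟩⟩, h3.2⟩⟩
  · intro q hq q' hq' hqq
    rw [MLQ_mem, hNN] at hq hq'
    rw [Prod.mk.injEq, Prod.mk.injEq, Prod.mk.injEq] at hqq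
    obtain ⟨⟨e1, e2⟩, ⟨e3, e4⟩⟩ := hqq
    refine Prod.ext ?_ ?_
    · exact MLQ_eq N N' hcoZ q.1 q'.1 hq.1.1 hq'.1.1 e1 e3
    · funext j
      exact MLQ_eq N N' hcoZ (q.2 j) (q'.2 j) (hq.1.2 j) (hq'.1.2 j) (congrFun e2 j)
        (congrFun e4 j)
  · rintro ⟨⟨n1, z1⟩, ⟨n2, z2⟩⟩ hq
    rw [Finset.mem_product, MLQ_mem, MLQ_mem, ← hNd, ← hNd'] at hq
    obtain ⟨⟨⟨a1, a2⟩, a3⟩, ⟨⟨b1, b2⟩, b3⟩⟩ := hq
    simp only at a1 a2 a3 b1 b2 b3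
    obtain ⟨f, hf⟩ := MLQ_crt N N' hN hN' hcoZ
    refine ⟨(f n1 n2, fun j => f (z1 j) (z2 j)), ?_, ?_⟩
    · rw [MLQ_mem, hNN]
      refine ⟨⟨⟨(hf n1 n2).1, (hf n1 n2).2.1⟩, fun j => ⟨(hf _ _).1, (hf _ _).2.1⟩⟩, ?_⟩
      exact (key (f n1 n2) n1 n2 (fun j => f (z1 j) (z2 j)) z1 z2 (hf n1 n2).2.2.1
        (hf n1 n2).2.2.2 (fun j => (hf _ _).2.2.1) (fun j => (hf _ _).2.2.2)).2 ⟨a3, b3⟩
    · have hmod : ∀ (x y M : ℤ), M ∣ x - y → 0 ≤ y → y < M → x % M = y := by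
        intro x y M h1 h2 h3
        have h4 : y ≡ x [ZMOD M] := Int.modEq_iff_dvd.2 h1
        rw [← h4.eq, Int.emod_eq_of_lt h2 h3]
      refine Prod.ext (Prod.ext ?_ ?_) (Prod.ext ?_ ?_)
      · exact hmod _ _ _ (hf n1 n2).2.2.1 a1.1 a1.2
      · funext j
        exact hmod _ _ _ (hf _ _).2.2.1 (a2 j).1 (a2 j).2
      · exact hmod _ _ _ (hf n1 n2).2.2.2 b1.1 b1.2
      · funext j
        exact hmod _ _ _ (hf _ _).2.2.2 (b2 j).1 (b2 j).2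

end Pool.FQ
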