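import Pool.Agent.Work.MP_9fb703_fq.Interface2

/-! # THEOREM FQ, block MNQ: one coordinate system (helper89) -/

set_option autoImplicit false

namespace Pool.FQ

open Finset
open Pool.HPQ (Fw Lam Kw fl rd cs Ww)
open Pool.CB (VV Sol PSN PH lin dl)
open Pool.GE
open Pool.GR (SingPr)

theorem MNQ_lb {ι : Type*} (S : Finset ι) (g : ι → ℝ) (h : ∀ i ∈ S, 0 < g i) :
    ∃ c : ℝ, 0 < c ∧ ∀ i ∈ S, c ≤ g i := by
  classical
  induction S using Finset.induction_on with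
  | empty => exact ⟨1, one_pos, by simp⟩
  | insert a S ha ih =>
    obtain ⟨c, hc, h1⟩ := ih fun i hi => h i (mem_insert_of_mem hi)
    refine ⟨min c (g a), lt_min hc (h a (mem_insert_self _ _)), fun i hi => ?_⟩
    rcases mem_insert.1 hi with rfl | hi
    · exact min_le_right _ _
    · exact (min_le_left _ _).trans (h1 i hi)

theorem MNQ_val {p : ℕ} [Fact p.Prime] (x : ℤ_[p]) (V : ℕ) (h : (p : ℝ) ^ (-(V : ℤ)) ≤ ‖x‖) :
    ∃ e : ℕ, e ≤ V ∧ ‖x‖ = (p : ℝ) ^ (-(e : ℤ)) := by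
  have hp : (1 : ℝ) < p := by exact_mod_cast (Fact.out : p.Prime).one_lt
  have hx : x ≠ 0 := by
    rintro rfl
    rw [norm_zero] at h
    have h1 : (0 : ℝ) < (p : ℝ) ^ (-(V : ℤ)) := zpow_pos (by linarith) _
    linarith
  refine ⟨x.valuation, ?_, PadicInt.norm_eq_zpow_neg_valuation hx⟩
  rw [PadicInt.norm_eq_zpow_neg_valuation hx] at h
  have h2 := (zpow_le_zpow_iff_right₀ hp).1 h
  omega

theorem MNQ_norm {p : ℕ} [Fact p.Prime] (T : Finset ℕ) (hT : ∀ q ∈ T, q.Prime) (hp : p ∈ T)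
    (e : ℕ → ℕ) :
    ‖((∏ q ∈ T, q ^ e q : ℕ) : ℤ_[p])‖ = (p : ℝ) ^ (-(e p : ℤ)) := by
  have hpp : p.Prime := Fact.out
  rw [← Finset.mul_prod_erase T (fun q => q ^ e q) hp, Nat.cast_mul, norm_mul, Nat.cast_pow,
    PadicInt.norm_p_pow]
  have h1 : ‖((∏ q ∈ T.erase p, q ^ e q : ℕ) : ℤ_[p])‖ = 1 := by
    refine le_antisymm (PadicInt.norm_le_one _) (not_lt.1 fun hlt => ?_)
    have h2 : (p : ℤ) ∣ ((∏ q ∈ T.erase p, q ^ e q : ℕ) : ℤ) := by
      rw [← PadicInt.norm_int_lt_one_iff_dvd]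
      rwa [Int.cast_natCast]
    have h3 : p ∣ ∏ q ∈ T.erase p, q ^ e q := by exact_mod_cast h2
    obtain ⟨q, hq, h4⟩ := (Prime.dvd_finsetProd_iff hpp.prime _).1 h3
    have h5 := hpp.dvd_of_dvd_pow h4
    have h6 := (Nat.prime_dvd_prime_iff_eq hpp (hT q (mem_of_mem_erase hq))).1 h5
    exact ne_of_mem_erase hq h6.symm
  rw [h1, mul_one]

theorem MNQ_conc {k : ℕ} {c a : IQ k → ℤ} {N P f A : ℕ} {cst cst' : ℝ}
    {y : Fin (k + 2) → ℝ} {M : (p : ℕ) → [Fact p.Prime] → Fin (k + 2) → ℤ_[p]}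
    (h : cst ≤ cst') (H : Conc c a N P f A cst' y M) : Conc c a N P f A cst y M := by
  obtain ⟨S, hS, h1⟩ := H
  exact ⟨S, (mul_le_mul_of_nonneg_right h (Real.log_natCast_nonneg A)).trans hS, h1⟩

theorem MNQ_card {α σ : Type*} [DecidableEq α] [Fintype σ] (B : Finset α)
    (p q r : α → Prop) (u : σ → α → Prop) [DecidablePred p] [DecidablePred q] [DecidablePred r]
    [∀ s, DecidablePred (u s)] (h : ∀ a ∈ B, p a → q a ∨ r a ∨ ∃ s, u s a) :
    (B.filter p).card ≤ (B.filter q).card + (B.filter r).card +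
      ∑ s, (B.filter (u s)).card := by
  have h1 : B.filter p ⊆ (B.filter q ∪ B.filter r) ∪ univ.biUnion fun s => B.filter (u s) := by
    intro a ha
    rw [mem_filter] at ha
    rcases h a ha.1 ha.2 with h2 | h2 | ⟨s, h2⟩
    · exact mem_union_left _ (mem_union_left _ (mem_filter.2 ⟨ha.1, h2⟩))
    · exact mem_union_left _ (mem_union_right _ (mem_filter.2 ⟨ha.1, h2⟩))
    · exact mem_union_right _ (mem_biUnion.2 ⟨s, mem_univ _, mem_filter.2 ⟨ha.1, h2⟩⟩)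
  refine (card_le_card h1).trans ((card_union_le _ _).trans ?_)
  exact Nat.add_le_add (card_union_le _ _) card_biUnion_le

open Classical in
theorem p_MNQ (hRSQ : Stmt_RSQ) (hPAQ : Stmt_PAQ) (hMN1 : Stmt_MN1) : Stmt_MNQ := by
  intro k hk
  obtain ⟨C, hC, hP⟩ := hPAQ k hk
  refine ⟨C, hC, ?_⟩
  intro c κ P V f N c₀ ε hN hO hP1 hVf hN1 hD hc₀ hε
  obtain ⟨δ, A₁, hδ, hδ1, hRS⟩ := hRSQ k c (ε / 3) hN (by positivity)
  obtain ⟨c₂, w₁, hc₂, hPA⟩ := hP c κ P V f (ε / 3) hN hO hP1 hVf hD (by positivity)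
  have hPw : Pw P V ≠ 0 := by
    unfold Pw
    refine Finset.prod_ne_zero_iff.2 fun q hq => ?_
    exact pow_ne_zero _ (mem_filter.1 hq).2.ne_zero
  set S : Finset ℕ := (Pw P V).divisors with hS
  have hSpos : 0 < S.card := Finset.card_pos.2 ⟨1, Nat.mem_divisors.2 ⟨one_dvd _, hPw⟩⟩
  have hSpos' : (0 : ℝ) < S.card := by exact_mod_cast hSpos
  have hM := fun s : {x // x ∈ S} => hMN1 k c κ s.1 P f N c₀ δ c₂ (ε / (3 * S.card)) hk hO
    (Nat.pos_of_mem_divisors s.2) hN1 (by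
      intro p hp hps
      have h1 : p ∣ Pw P V := hps.trans (Nat.dvd_of_mem_divisors s.2)
      obtain ⟨q, hq, h4⟩ := (Prime.dvd_finsetProd_iff hp.prime _).1 h1
      have h5 := hp.dvd_of_dvd_pow h4
      rw [mem_filter, mem_range] at hq
      have h6 := (Nat.prime_dvd_prime_iff_eq hp hq.2).1 h5
      omega) hc₀ hδ hc₂ (by positivity)
  choose cst w₀ hcst _ _ hA using hM
  set w : ℕ := max w₁ (univ.sup w₀) with hw
  have hww : ∀ s, w₀ s ≤ w := fun s =>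
    (Finset.le_sup (f := w₀) (mem_univ s)).trans (le_max_right _ _)
  obtain ⟨A₂, hA₂⟩ := hPA w (le_max_left _ _)
  choose A₃ hA₃ using fun s => hA s w (hww s)
  obtain ⟨cs0, hcs0, hcs⟩ := MNQ_lb univ cst fun s _ => hcst s
  refine ⟨cs0, max A₁ (max A₂ (univ.sup A₃)), hcs0, fun A hAA => ?_⟩
  have hR := hRS A ((le_max_left _ _).trans hAA)
  have hQ := hA₂ A (((le_max_left _ _).trans (le_max_right _ _)).trans hAA)
  have hT := fun s => hA₃ s A ((((Finset.le_sup (f := A₃) (mem_univ s)).trans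
    (le_max_right _ _)).trans (le_max_right _ _)).trans hAA)
  have hcard := MNQ_card (Bx (IQ k) A) (fun a => ¬ WSk c κ N P V f c₀ A cs0 a)
    (fun a => RS2 δ A c a) (fun a => ∃ s : ℕ, s ∣ Pw P V ∧
      ∃ τ ∈ cs (Pw P f) (Fin (k + 2)), LTq c κ s P f τ a ∧
      (Ww w : ℝ) * (Gc κ s (κ.D * s) (Ww w) (Pw P f) τ a).card <
        c₂ * (Nat.totient (κ.D * s * Ww w) : ℝ) * ((κ.D * s * Ww w : ℕ) : ℝ) ^ k)
    (fun s : {x // x ∈ S} => fun a => ¬ RS2 δ A c a ∧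
      (∀ τ ∈ cs (Pw P f) (Fin (k + 2)), LTq c κ s.1 P f τ a →
        c₂ * (Nat.totient (κ.D * s.1 * Ww w) : ℝ) * ((κ.D * s.1 * Ww w : ℕ) : ℝ) ^ k ≤
          (Ww w : ℝ) * (Gc κ s.1 (κ.D * s.1) (Ww w) (Pw P f) τ a).card) ∧
      ¬ WSs c κ s.1 N P f c₀ A (cst s) a) (by
    intro a _ hno
    by_cases h1 : RS2 δ A c a
    · exact Or.inl h1
    refine Or.inr ?_
    by_cases h2 : ∃ s : ℕ, s ∣ Pw P V ∧
      ∃ τ ∈ cs (Pw P f) (Fin (k + 2)), LTq c κ s P f τ a ∧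
      (Ww w : ℝ) * (Gc κ s (κ.D * s) (Ww w) (Pw P f) τ a).card <
        c₂ * (Nat.totient (κ.D * s * Ww w) : ℝ) * ((κ.D * s * Ww w : ℕ) : ℝ) ^ k
    · exact Or.inl h2
    refine Or.inr ?_
    by_contra hcon
    apply hno
    intro y hy hy0 M hM
    have hex : ∀ p : ℕ, ∃ e : ℕ, e ≤ V ∧ ∀ [Fact p.Prime], p ≤ P →
        ‖pt κ.I (M p) 0‖ = (p : ℝ) ^ (-(e : ℤ)) := by
      intro p
      by_cases hp : p.Prime ∧ p ≤ P
      · have : Fact p.Prime := ⟨hp.1⟩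
        obtain ⟨e, he, h⟩ := MNQ_val (pt κ.I (M p) 0) V (hM p hp.2).2
        exact ⟨e, he, fun _ => h⟩
      · exact ⟨0, Nat.zero_le _, fun {hF} h => absurd ⟨hF.out, h⟩ hp⟩
    choose e he hnorm using hex
    set s : ℕ := ∏ q ∈ (range (P + 1)).filter Nat.Prime, q ^ e q with hs
    have hsd : s ∣ Pw P V := Finset.prod_dvd_prod_of_dvd _ _ fun q _ => pow_dvd_pow q (he q)
    have hsS : s ∈ S := Nat.mem_divisors.2 ⟨hsd, hPw⟩
    have hW : WSs c κ s N P f c₀ A (cst ⟨s, hsS⟩) a := by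
      by_contra hWW
      exact hcon ⟨⟨s, hsS⟩, h1, fun τ hτ hL => not_lt.1 fun hlt =>
        h2 ⟨s, hsd, τ, hτ, hL, hlt⟩, hWW⟩
    refine MNQ_conc (hcs ⟨s, hsS⟩ (mem_univ _)) (hW y hy hy0 M fun p _ hp => ⟨(hM p hp).1, ?_⟩)
    rw [hnorm p hp, hs, MNQ_norm _ (fun q hq => (mem_filter.1 hq).2)
      (mem_filter.2 ⟨mem_range.2 (by omega), Fact.out⟩) e])
  have hcard' := (Nat.cast_le (α := ℝ)).2 hcard
  rw [Nat.cast_add, Nat.cast_add, Nat.cast_sum] at hcard'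
  have hsum := Finset.sum_le_sum fun s (_ : s ∈ (univ : Finset {x // x ∈ S})) => hT s
  rw [Finset.sum_const, Finset.card_univ, Fintype.card_coe, nsmul_eq_mul] at hsum
  have h3 : (S.card : ℝ) * (ε / (3 * S.card) * (2 * (A : ℝ) + 1) ^ Fintype.card (IQ k)) =
      ε / 3 * (2 * (A : ℝ) + 1) ^ Fintype.card (IQ k) := by
    generalize (2 * (A : ℝ) + 1) ^ Fintype.card (IQ k) = Y
    generalize (S.card : ℝ) = t at hSpos' ⊢
    rw [← mul_assoc]
    congr 1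
    field_simp
  rw [h3] at hsum
  refine hcard'.trans ((add_le_add (add_le_add hR hQ) hsum).trans (le_of_eq ?_))
  generalize (2 * (A : ℝ) + 1) ^ Fintype.card (IQ k) = Y
  ring

end Pool.FQ
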