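import Pool.Agent.Work.MP_9fb703_fq.Interface1
import Pool.Agent.Work.MP_b29d7f_nt.Primes

/-!
# Block PAP (MP_9fb703, THEOREM FQ): primes in an arithmetic progression in a short range (helper88)
-/

set_option autoImplicit false

namespace Pool.FQ

open Filter Topology
open Pool.Agent.Work.MP_b29d7f_nt (primesIn mem_primesIn theta_class_tendsto)

theorem PAP_unit {m : ℕ} {ν : ℤ} (h : IsCoprime ν (m : ℤ)) : IsUnit ((ν : ℤ) : ZMod m) := by
  obtain ⟨a, b, hab⟩ := h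
  have h1 : ((a : ℤ) : ZMod m) * ((ν : ℤ) : ZMod m) = 1 := by
    have h2 := congrArg (fun z : ℤ => (z : ZMod m)) hab
    simpa using h2
  exact IsUnit.of_mul_eq_one _ (by rw [mul_comm]; exact h1)

theorem p_PAP : Stmt_PAP := by
  classical
  intro m ν hm hν α β hα hαβ
  haveI : NeZero m := ⟨by omega⟩
  have hu := PAP_unit hν
  obtain ⟨a, ha⟩ : ∃ a : ZMod m, a = ((ν : ℤ) : ZMod m) := ⟨_, rfl⟩
  rw [← ha] at hu
  have ht := theta_class_tendsto hu
  obtain ⟨θ, hθ⟩ : ∃ θ : ℕ → ℝ, θ = fun n => ∑ p ∈ primesIn a n, Real.log p := ⟨_, rfl⟩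
  have hφ : (0 : ℝ) < (m.totient : ℝ) := by
    exact_mod_cast Nat.totient_pos.2 (by omega : 0 < m)
  have hφ1 : (1 : ℝ) ≤ (m.totient : ℝ) := by
    exact_mod_cast Nat.totient_pos.2 (by omega : 0 < m)
  obtain ⟨L, hL⟩ : ∃ L : ℝ, L = ((m.totient : ℝ))⁻¹ := ⟨_, rfl⟩
  have hL0 : 0 < L := by rw [hL]; positivity
  have hL1 : L ≤ 1 := by rw [hL]; exact inv_le_one_of_one_le₀ hφ1
  have hLφ : L * (m.totient : ℝ) = 1 := by rw [hL]; exact inv_mul_cancel₀ hφ.ne'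
  have hβ : 0 < β := hα.trans hαβ
  have hba : 0 < β - α := sub_pos.2 hαβ
  obtain ⟨ε, hε⟩ : ∃ ε : ℝ, ε = L * (β - α) / (8 * (α + β)) := ⟨_, rfl⟩
  have hε0 : 0 < ε := by rw [hε]; positivity
  have hεL : ε ≤ L := by
    rw [hε, div_le_iff₀ (by positivity)]
    nlinarith
  have hεs : ε * (α + β) = L * (β - α) / 8 := by
    rw [hε]; field_simp
  obtain ⟨N0, hN0⟩ := Metric.tendsto_atTop.1 ht ε hε0
  have hb : ∀ n : ℕ, N0 + 1 ≤ n → (L - ε) * n ≤ θ n ∧ θ n ≤ (L + ε) * n := by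
    intro n hn
    have hnpos : (0 : ℝ) < n := by
      have : 0 < n := by omega
      exact_mod_cast this
    have h1 := hN0 n (by omega)
    rw [Real.dist_eq, ← hL] at h1
    have h2 := abs_lt.1 h1
    rw [hθ]
    constructor
    · have h3 : L - ε ≤ (∑ p ∈ primesIn a n, Real.log p) / n := by linarith [h2.1]
      rwa [le_div_iff₀ hnpos] at h3
    · have h3 : (∑ p ∈ primesIn a n, Real.log p) / n ≤ L + ε := by linarith [h2.2]
      rwa [div_le_iff₀ hnpos] at h3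
  have hcast : Tendsto (fun X : ℕ => (X : ℝ)) atTop atTop := tendsto_natCast_atTop_atTop
  have e1 : ∀ᶠ X : ℕ in atTop, ((N0 : ℝ) + 2) ≤ α * X :=
    (hcast.const_mul_atTop hα).eventually_ge_atTop _
  have e2 : ∀ᶠ X : ℕ in atTop, (1 : ℝ) ≤ L * (β - α) / 8 * X :=
    (hcast.const_mul_atTop (by positivity)).eventually_ge_atTop _
  have e3 : ∀ᶠ X : ℕ in atTop, 2 * |Real.log β| ≤ Real.log X :=
    (Real.tendsto_log_atTop.comp hcast).eventually_ge_atTop _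
  obtain ⟨X1, hX1⟩ := eventually_atTop.1 ((e1.and e2).and e3)
  refine ⟨max X1 2, le_max_right _ _, fun X hX => ?_⟩
  obtain ⟨⟨f1, f2⟩, f3⟩ := hX1 X ((le_max_left _ _).trans hX)
  have hX2 : 2 ≤ X := (le_max_right _ _).trans hX
  have hXR : (2 : ℝ) ≤ X := by exact_mod_cast hX2
  have hlog : 0 < Real.log X := Real.log_pos (by linarith)
  -- the end points
  have key : ∀ t : ℝ, (N0 : ℝ) + 2 ≤ t → ∃ n : ℕ, N0 + 1 ≤ n ∧ (n : ℝ) < t ∧ t ≤ n + 1 := by
    intro t ht'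
    have h0 : 0 < ⌈t⌉₊ := Nat.ceil_pos.2 (by
      have : (0 : ℝ) ≤ N0 := Nat.cast_nonneg _
      linarith)
    refine ⟨⌈t⌉₊ - 1, ?_, ?_, ?_⟩
    · have h1 : ((N0 + 2 : ℕ) : ℝ) ≤ (⌈t⌉₊ : ℝ) := by
        push_cast
        exact ht'.trans (Nat.le_ceil t)
      have h2 : N0 + 2 ≤ ⌈t⌉₊ := by exact_mod_cast h1
      omega
    · exact Nat.lt_ceil.1 (by omega)
    · have h1 := Nat.le_ceil t
      have h2 : ((⌈t⌉₊ - 1 : ℕ) : ℝ) + 1 = (⌈t⌉₊ : ℝ) := by
        have h3 : (⌈t⌉₊ - 1) + 1 = ⌈t⌉₊ := by omega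
        exact_mod_cast h3
      rw [h2]
      exact h1
  obtain ⟨n1, g1, g2, g3⟩ := key (α * X) f1
  have hle : α * X ≤ β * X := mul_le_mul_of_nonneg_right hαβ.le (by linarith)
  obtain ⟨n2, k1, k2, k3⟩ := key (β * X) (f1.trans hle)
  have h12 : n1 ≤ n2 := by
    have h1 : (n1 : ℝ) < n2 + 1 := by linarith
    have h2 : n1 < n2 + 1 := by exact_mod_cast h1
    omega
  have hsub : primesIn a n1 ⊆ primesIn a n2 := by
    intro p hp
    rw [mem_primesIn] at hp ⊢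
    exact ⟨⟨hp.1.1.trans h12, hp.1.2⟩, hp.2⟩
  obtain ⟨S, hS⟩ : ∃ S : Finset ℕ, S = primesIn a n2 \ primesIn a n1 := ⟨_, rfl⟩
  have hmem : ∀ p ∈ S, p.Prime ∧ (p : ZMod m) = a ∧ p ≤ n2 ∧ n1 < p := by
    intro p hp
    rw [hS, Finset.mem_sdiff, mem_primesIn, mem_primesIn] at hp
    obtain ⟨⟨⟨h1, h2⟩, h3⟩, h4⟩ := hp
    refine ⟨h2, h3, h1, ?_⟩
    by_contra h5
    exact h4 ⟨⟨not_lt.1 h5, h2⟩, h3⟩
  have hsum : ∑ p ∈ S, Real.log p = θ n2 - θ n1 := by
    rw [hS, hθ]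
    have h1 := Finset.sum_sdiff (f := fun p : ℕ => Real.log p) hsub
    simp only at h1 ⊢
    linarith
  have hlow : 3 / 4 * (L * (β - α) * X) ≤ θ n2 - θ n1 := by
    have h1 := (hb n2 k1).1
    have h2 := (hb n1 g1).2
    have h3 : (L - ε) * (β * X - 1) ≤ (L - ε) * n2 :=
      mul_le_mul_of_nonneg_left (by linarith) (by linarith)
    have h4 : (L + ε) * n1 ≤ (L + ε) * (α * X) :=
      mul_le_mul_of_nonneg_left g2.le (by linarith)
    have h5 : ε * (α + β) * X = L * (β - α) / 8 * X := by rw [hεs]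
    nlinarith
  have hupp : ∑ p ∈ S, Real.log p ≤ S.card * (3 / 2 * Real.log X) := by
    have h1 : ∀ p ∈ S, Real.log p ≤ 3 / 2 * Real.log X := by
      intro p hp
      obtain ⟨h2, -, h3, -⟩ := hmem p hp
      have h4 : (p : ℝ) ≤ β * X := by
        have h5 : (p : ℝ) ≤ n2 := by exact_mod_cast h3
        linarith
      have h6 : Real.log p ≤ Real.log (β * X) :=
        Real.log_le_log (by exact_mod_cast h2.pos) h4
      rw [Real.log_mul hβ.ne' (by linarith)] at h6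
      have h7 := le_abs_self (Real.log β)
      linarith
    have h2 := Finset.sum_le_card_nsmul S (fun p : ℕ => Real.log p) _ h1
    rwa [nsmul_eq_mul] at h2
  refine ⟨S, ?_, ?_⟩
  · rw [div_le_iff₀ (by positivity)]
    have h1 : 3 / 4 * (L * (β - α) * X) ≤ S.card * (3 / 2 * Real.log X) := by
      rw [← hsum] at hlow
      exact hlow.trans hupp
    have h2 : 3 / 4 * (L * (β - α) * X) * (m.totient : ℝ) ≤
        S.card * (3 / 2 * Real.log X) * (m.totient : ℝ) := mul_le_mul_of_nonneg_right h1 hφ.le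
    have h3 : 3 / 4 * (L * (β - α) * X) * (m.totient : ℝ) =
        3 / 4 * ((β - α) * X) * (L * (m.totient : ℝ)) := by ring
    rw [h3, hLφ, mul_one] at h2
    nlinarith
  · intro p hp
    obtain ⟨h2, h3, h4, h5⟩ := hmem p hp
    refine ⟨h2, ?_, ?_, ?_⟩
    · rw [← ZMod.intCast_eq_intCast_iff_dvd_sub, ← ha, ← h3]
      simp
    · have h6 : (n1 : ℝ) + 1 ≤ p := by exact_mod_cast h5
      linarith
    · have h6 : (p : ℝ) ≤ n2 := by exact_mod_cast h4
      linarith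

end Pool.FQ
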