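import Pool.Agent.Work.MP_9fb703_fq.Interface2
import Pool.Agent.Work.MP_a19274_cb.B_BOXM

/-! # Block PAQ (helper21): the finite places -/

set_option autoImplicit false

namespace Pool.FQ

open Finset
open Pool.HPQ (Fw Lam Kw fl rd cs Ww)
open Pool.CB (VV Sol PSN PH lin dl)
open Pool.GE
open Pool.GR (SingPr)

/-- reduction modulo `N` -/
def PAQ_md (N : ℕ) {k : ℕ} (a : IQ k → ℤ) : IQ k → ℤ := fun q => a q % (N : ℤ)

theorem PAQ_md_mem (N : ℕ) (hN : 0 < N) {k : ℕ} (a : IQ k → ℤ) :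
    PAQ_md N a ∈ cs N (IQ k) := by
  unfold cs
  rw [Fintype.mem_piFinset]
  intro q
  rw [mem_Ico]
  have h : (0 : ℤ) < N := by exact_mod_cast hN
  exact ⟨Int.emod_nonneg _ h.ne', Int.emod_lt_of_pos _ h⟩

theorem PAQ_md_dvd (N : ℕ) {k : ℕ} (a : IQ k → ℤ) (q : IQ k) :
    (N : ℤ) ∣ a q - PAQ_md N a q := by
  unfold PAQ_md
  rw [Int.emod_def]
  exact ⟨a q / N, by ring⟩

theorem PAQ_sing_md (h : Pool.GE.Stmt_CNG) (p e k : ℕ) (c a : IQ k → ℤ)
    (hs : SingPr p e (![c, a] : Fin 2 → IQ k → ℤ)) :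
    SingPr p e (![c, PAQ_md (p ^ e) a] : Fin 2 → IQ k → ℤ) := by
  obtain ⟨x, l, h1, h0, h2, h3⟩ := hs
  have hc := h ℤ (Fin (k + 2)) Unit (fun _ => ()) (fun _ => 2) a (PAQ_md (p ^ e) a) x x
    ((p ^ e : ℕ) : ℤ) (PAQ_md_dvd _ a) (fun v => by simp)
  refine ⟨x, l, h1, h0, ?_, ?_⟩
  · intro i
    fin_cases i
    · exact h2 0
    · exact (dvd_sub_right (h2 1)).1 hc.1
  · intro v
    have h4 := h3 v
    rw [Fin.sum_univ_two] at h4 ⊢
    have h4' : ((p ^ e : ℕ) : ℤ) ∣ l 0 * DD c x v + l 1 * DD a x v := h4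
    have h5 := (hc.2 v).mul_left (l 1)
    have h6 : ((p ^ e : ℕ) : ℤ) ∣ l 0 * DD c x v + l 1 * DD (PAQ_md (p ^ e) a) x v := by
      have h7 := dvd_sub h4' h5
      have h8 : l 0 * DD c x v + l 1 * DD a x v -
          l 1 * (DD a x v - DD (PAQ_md (p ^ e) a) x v) =
          l 0 * DD c x v + l 1 * DD (PAQ_md (p ^ e) a) x v := by ring
      rw [h8] at h7
      exact h7
    exact h6

theorem PAQ_boxm (k N A : ℕ) (S T : Finset (IQ k → ℤ)) (hN : 1 ≤ N)
    (hA : Fintype.card (IQ k) * N ≤ A) (hS : S ⊆ cs N (IQ k)) (hT : T ⊆ Bx (IQ k) A)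
    (hTS : ∀ z ∈ T, PAQ_md N z ∈ S) :
    (T.card : ℝ) * (N : ℝ) ^ Fintype.card (IQ k) ≤
      3 * S.card * (2 * (A : ℝ) + 1) ^ Fintype.card (IQ k) := by
  classical
  have h1 := Pool.CB.p_BOXM (IQ k) N A S hN hA hS
  refine le_trans (mul_le_mul_of_nonneg_right (Nat.cast_le.2 (Finset.card_le_card ?_))
    (by positivity)) h1
  intro z hz
  rw [mem_filter]
  exact ⟨hT hz, hTS z hz⟩

theorem PAQ_Gc (h : Stmt_GIN) (k : ℕ) (κ : Crd k) (n : ℕ) (a a' : IQ k → ℤ)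
    (ha : ∀ i, (n : ℤ) ∣ a i - a' i) : Gc κ 1 1 n 1 0 a = Gc κ 1 1 n 1 0 a' := by
  classical
  unfold Gc
  apply Finset.filter_congr
  intro q _
  have key : ∀ b b' : IQ k → ℤ, (∀ i, (n : ℤ) ∣ b i - b' i) →
      GdC κ 1 1 n 1 0 b q.1 q.2 → GdC κ 1 1 n 1 0 b' q.1 q.2 := by
    intro b b' hb
    exact h k κ 1 1 n 1 0 b b' q.1 q.1 q.2 q.2 (one_dvd _) hb (by simp) (by simp)
  constructor
  · rintro ⟨h1, h2⟩
    exact ⟨h1, key a a' ha h2⟩
  · rintro ⟨h1, h2⟩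
    refine ⟨h1, key a' a (fun i => ?_) h2⟩
    rw [dvd_sub_comm]
    exact ha i

theorem PAQ_prime_Pw {P V p : ℕ} (hp : p.Prime) (h : p ∣ Pw P V) : p ≤ P := by
  unfold Pw at h
  obtain ⟨q, hq, hpq⟩ := (Prime.dvd_finsetProd_iff hp.prime _).1 h
  have h7 := hp.dvd_of_dvd_pow hpq
  rw [(Nat.prime_dvd_prime_iff_eq hp (mem_filter.1 hq).2).1 h7]
  have := mem_range.1 (mem_filter.1 hq).1
  omega

theorem PAQ_pow_Pw {P V f p : ℕ} (hp : p.Prime) (hpP : p ≤ P) (hf : V < f) :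
    ¬ p ^ f ∣ Pw P V := by
  intro h
  unfold Pw at h
  have hmem : p ∈ (range (P + 1)).filter Nat.Prime :=
    mem_filter.2 ⟨mem_range.2 (by omega), hp⟩
  rw [← Finset.mul_prod_erase _ _ hmem] at h
  have hcop : Nat.Coprime (p ^ f)
      (∏ q ∈ ((range (P + 1)).filter Nat.Prime).erase p, q ^ V) := by
    apply Nat.Coprime.prod_right
    intro q hq
    rw [mem_erase] at hq
    exact Nat.Coprime.pow _ _ ((Nat.coprime_primes hp (mem_filter.1 hq.2).2).2 (Ne.symm hq.1))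
  have h1 := hcop.dvd_of_dvd_mul_right h
  have h2 := (Nat.pow_dvd_pow_iff_le_right hp.one_lt).1 h1
  omega

theorem PAQ_Pw_pos (P w : ℕ) : 0 < Pw P w :=
  Finset.prod_pos fun _ hp => pow_pos (mem_filter.1 hp).2.pos _

/-- the modulus of the large primes -/
def PAQ_n (P w : ℕ) : ℕ := ∏ p ∈ ((range (w + 1)).filter Nat.Prime).filter fun p => P < p, p ^ w

theorem PAQ_n_pos (P w : ℕ) : 0 < PAQ_n P w :=
  Finset.prod_pos fun _ hp => pow_pos (mem_filter.1 (mem_filter.1 hp).1).2.pos _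

theorem PAQ_n_prime {P w p : ℕ} (hp : p.Prime) (h : p ∣ PAQ_n P w) : P < p := by
  unfold PAQ_n at h
  obtain ⟨q, hq, hpq⟩ := (Prime.dvd_finsetProd_iff hp.prime _).1 h
  have h7 := hp.dvd_of_dvd_pow hpq
  rw [(Nat.prime_dvd_prime_iff_eq hp (mem_filter.1 (mem_filter.1 hq).1).2).1 h7]
  exact (mem_filter.1 hq).2

theorem PAQ_split (P w : ℕ) (h : P ≤ w) : Ww w = Pw P w * PAQ_n P w := by
  unfold Ww Pw PAQ_n
  rw [← Finset.prod_filter_not_mul_prod_filter _ (fun p => P < p)]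
  congr 1
  apply Finset.prod_congr _ fun _ _ => rfl
  ext p
  simp only [mem_filter, mem_range, not_lt]
  constructor
  · rintro ⟨⟨h7, h8⟩, h9⟩
    exact ⟨by omega, h8⟩
  · rintro ⟨h7, h8⟩
    exact ⟨⟨by omega, h8⟩, by omega⟩

theorem PAQ_arith (k M W₀ n G G' Q : ℕ) (hcop : Nat.Coprime (M * W₀) n)
    (hPD : (M * W₀) ^ (k + 1) ≤ Q * W₀ * G) (hSI : Nat.totient n * n ^ k ≤ 2 * n * G') :
    Nat.totient (M * (W₀ * n)) * (M * (W₀ * n)) ^ k ≤ 2 * Q * ((W₀ * n) * (G * G')) := by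
  have h1 : M * (W₀ * n) = (M * W₀) * n := by ring
  rw [h1, Nat.totient_mul hcop]
  calc Nat.totient (M * W₀) * Nat.totient n * (M * W₀ * n) ^ k
      ≤ (M * W₀) * Nat.totient n * (M * W₀ * n) ^ k :=
        Nat.mul_le_mul_right _ (Nat.mul_le_mul_right _ (Nat.totient_le _))
    _ = (M * W₀) ^ (k + 1) * (Nat.totient n * n ^ k) := by
        rw [mul_pow (M * W₀) n k, pow_succ]
        ring
    _ ≤ (Q * W₀ * G) * (2 * n * G') := Nat.mul_le_mul hPD hSI
    _ = 2 * Q * ((W₀ * n) * (G * G')) := by ring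

theorem p_PAQ (h1 : Stmt_GIN) (h2 : Stmt_MLQ) (h3 : Stmt_SBI) (h4 : Stmt_SGQ) (h5 : Stmt_PDQ)
    (h6 : Stmt_SIQ) (h7 : Pool.GE.Stmt_CNG) : Stmt_PAQ := by
  classical
  intro k hk
  obtain ⟨C₀, hC₀, h6⟩ := h6 k hk
  refine ⟨3 * C₀, by linarith, ?_⟩
  intro c κ P V f ε hNs hOk hP hVf hD hε
  have hs := h4 k c hNs
  choose! Cp hCp using hs
  set PP := (range (P + 1)).filter Nat.Prime with hPP
  have hPPpr : ∀ p ∈ PP, p.Prime := fun p hp => (mem_filter.1 hp).2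
  have hPPle : ∀ p ∈ PP, p ≤ P := fun p hp => by
    have := mem_range.1 (mem_filter.1 hp).1
    omega
  set S : ℝ := ∑ p ∈ PP, Cp p with hS
  have hS0 : 0 ≤ S := Finset.sum_nonneg fun p hp => by
    have := (hCp p (hPPpr p hp)).1
    linarith
  obtain ⟨e, he⟩ := exists_nat_gt (3 * S / ε + 1)
  have hepos : 0 < (e : ℝ) := lt_trans (by positivity) he
  have he1 : 1 ≤ e := by exact_mod_cast hepos
  have hf1 : 1 ≤ f := by omega
  have hpd : ∀ s, s ∣ Pw P V → ∃ Q₀ k₀ : ℕ, 1 ≤ Q₀ ∧ ∀ (w : ℕ) (a : IQ k → ℤ)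
      (τ : Fin (k + 2) → ℤ), k₀ ≤ w →
      (∀ p : ℕ, p.Prime → p ≤ P → ¬ SingPr p e (![c, a] : Fin 2 → IQ k → ℤ)) →
      LTq c κ s P f τ a → (κ.D * s * Pw P w) ^ (k + 1) ≤
        Q₀ * Pw P w * (Gc κ s (κ.D * s) (Pw P w) (Pw P f) τ a).card := by
    intro s hs
    refine h5 k c κ P s e f hOk (Nat.pos_of_dvd_of_pos hs (PAQ_Pw_pos P V)) he1 hf1 ?_ ?_
    · intro p hp hd
      rcases (Nat.Prime.dvd_mul hp).1 hd with h | h
      · exact hD p hp h
      · exact PAQ_prime_Pw hp (h.trans hs)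
    · intro p hp hpP hd
      exact PAQ_pow_Pw hp hpP hVf (hd.trans hs)
  choose! Q₀ k₀ hQ using hpd
  set DV := Nat.divisors (Pw P V) with hDV
  have hmemDV : ∀ s, s ∣ Pw P V → s ∈ DV := fun s hs =>
    Nat.mem_divisors.2 ⟨hs, (PAQ_Pw_pos P V).ne'⟩
  set Q := ∑ s ∈ DV, Q₀ s with hQdef
  set K := ∑ s ∈ DV, k₀ s with hKdef
  have hQle : ∀ s, s ∣ Pw P V → Q₀ s ≤ Q := fun s hs =>
    Finset.single_le_sum (f := Q₀) (fun _ _ => Nat.zero_le _) (hmemDV s hs)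
  have hKle : ∀ s, s ∣ Pw P V → k₀ s ≤ K := fun s hs =>
    Finset.single_le_sum (f := k₀) (fun _ _ => Nat.zero_le _) (hmemDV s hs)
  have hQ1 : 1 ≤ Q := (hQ 1 (one_dvd _)).1.trans (hQle 1 (one_dvd _))
  have hQr : (0 : ℝ) < Q := by exact_mod_cast hQ1
  refine ⟨1 / (2 * Q), max P (max f (max e K)), by positivity, ?_⟩
  intro w hw
  have hwP : P ≤ w := le_trans (le_max_left _ _) hw
  have hwf : f ≤ w := le_trans ((le_max_left _ _).trans (le_max_right _ _)) hw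
  have hwe : e ≤ w := le_trans ((le_max_left _ _).trans ((le_max_right _ _).trans
    (le_max_right _ _))) hw
  have hwK : K ≤ w := le_trans ((le_max_right _ _).trans ((le_max_right _ _).trans
    (le_max_right _ _))) hw
  set W₀ := Pw P w with hW₀
  set n := PAQ_n P w with hn
  have hW : Ww w = W₀ * n := PAQ_split P w hwP
  have hW₀pos : 0 < W₀ := PAQ_Pw_pos P w
  have hnpos : 0 < n := PAQ_n_pos P w
  refine ⟨Fintype.card (IQ k) * Ww w, ?_⟩
  intro A hA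
  set X := (2 * (A : ℝ) + 1) ^ Fintype.card (IQ k) with hX
  have hX0 : 0 ≤ X := by positivity
  set SS : ℕ → Finset (IQ k → ℤ) := fun p =>
    (Bx (IQ k) A).filter fun a => SingPr p e (![c, a] : Fin 2 → IQ k → ℤ) with hSS
  set SR : Finset (IQ k → ℤ) := (cs n (IQ k)).filter fun a =>
    2 * n * (Gc κ 1 1 n 1 0 a).card < Nat.totient n * n ^ k with hSR
  set TT' : Finset (IQ k → ℤ) := (Bx (IQ k) A).filter fun z => PAQ_md n z ∈ SR with hTT
  have hcopD : Nat.Coprime κ.D n := by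
    apply Nat.coprime_of_dvd
    intro p hp hpD hpn
    have h8 := hD p hp hpD
    have h9 := PAQ_n_prime hp hpn
    omega
  have hsub : ((Bx (IQ k) A).filter fun a => ∃ s : ℕ, s ∣ Pw P V ∧
      ∃ τ ∈ cs (Pw P f) (Fin (k + 2)), LTq c κ s P f τ a ∧
      (Ww w : ℝ) * (Gc κ s (κ.D * s) (Ww w) (Pw P f) τ a).card <
        1 / (2 * Q) * (Nat.totient (κ.D * s * Ww w) : ℝ) * ((κ.D * s * Ww w : ℕ) : ℝ) ^ k) ⊆
      (PP.biUnion SS) ∪ TT' := by
    intro z hz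
    obtain ⟨hz1, s, hs, τ, hτ, hLT, hlt⟩ := mem_filter.1 hz
    by_cases hsing : ∃ p ∈ PP, SingPr p e (![c, z] : Fin 2 → IQ k → ℤ)
    · obtain ⟨p, hp, hps⟩ := hsing
      exact mem_union_left _ (mem_biUnion.2 ⟨p, hp, mem_filter.2 ⟨hz1, hps⟩⟩)
    · apply mem_union_right
      refine mem_filter.2 ⟨hz1, ?_⟩
      rw [hSR, mem_filter]
      refine ⟨PAQ_md_mem _ hnpos _, ?_⟩
      rw [← PAQ_Gc h1 k κ n z (PAQ_md n z) (PAQ_md_dvd _ _)]
      by_contra hcon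
      push Not at hcon
      have hspos : 0 < s := Nat.pos_of_dvd_of_pos hs (PAQ_Pw_pos P V)
      have hMpos : 0 < κ.D * s := Nat.mul_pos hOk.Dpos hspos
      have hPD := (hQ s hs).2 w z τ ((hKle s hs).trans hwK) (by
        intro p hp hpP hsg
        exact hsing ⟨p, mem_filter.2 ⟨mem_range.2 (by omega), hp⟩, hsg⟩) hLT
      have hPD' : (κ.D * s * W₀) ^ (k + 1) ≤
          Q * W₀ * (Gc κ s (κ.D * s) W₀ (Pw P f) τ z).card :=
        hPD.trans (Nat.mul_le_mul_right _ (Nat.mul_le_mul_right _ (hQle s hs)))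
      have hcop : Nat.Coprime (κ.D * s * W₀) n := by
        apply Nat.coprime_of_dvd
        intro p hp hpM hpn
        have h9 := PAQ_n_prime hp hpn
        rcases (Nat.Prime.dvd_mul hp).1 hpM with h | h
        · rcases (Nat.Prime.dvd_mul hp).1 h with h' | h'
          · have h10 := hD p hp h'
            omega
          · have h10 := PAQ_prime_Pw hp (h'.trans hs)
            omega
        · have h10 := PAQ_prime_Pw hp h
          omega
      have hcops : Nat.Coprime s n := by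
        apply Nat.coprime_of_dvd
        intro p hp hpM hpn
        have h9 := PAQ_n_prime hp hpn
        have h10 := PAQ_prime_Pw hp (hpM.trans hs)
        omega
      have hdvd : Pw P f ∣ W₀ :=
        Finset.prod_dvd_prod_of_dvd _ _ fun p _ => pow_dvd_pow p hwf
      have hmul := h2 k κ s (κ.D * s) W₀ (Pw P f) 1 n 1 τ z hMpos hW₀pos Nat.one_pos hnpos
        (by rw [one_mul]; exact hcop) (by rw [mul_one]) hdvd (one_dvd _)
      rw [mul_one, mul_one, h3 k κ s n τ z hnpos hcops] at hmul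
      have har := PAQ_arith k (κ.D * s) W₀ n (Gc κ s (κ.D * s) W₀ (Pw P f) τ z).card
        (Gc κ 1 1 n 1 0 z).card Q hcop hPD' hcon
      rw [hW, hmul] at hlt
      have har' : ((Nat.totient (κ.D * s * (W₀ * n)) : ℕ) : ℝ) *
          ((κ.D * s * (W₀ * n) : ℕ) : ℝ) ^ k ≤
          2 * Q * (((W₀ * n : ℕ) : ℝ) * (((Gc κ s (κ.D * s) W₀ (Pw P f) τ z).card *
            (Gc κ 1 1 n 1 0 z).card : ℕ) : ℝ)) := by exact_mod_cast har
      have h8 : 1 / (2 * (Q : ℝ)) * ((Nat.totient (κ.D * s * (W₀ * n)) : ℕ) : ℝ) *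
          ((κ.D * s * (W₀ * n) : ℕ) : ℝ) ^ k ≤
          ((W₀ * n : ℕ) : ℝ) * (((Gc κ s (κ.D * s) W₀ (Pw P f) τ z).card *
            (Gc κ 1 1 n 1 0 z).card : ℕ) : ℝ) := by
        rw [mul_assoc, one_div, inv_mul_le_iff₀ (by positivity)]
        exact har'
      exact absurd hlt (not_lt.2 h8)
  -- the count
  have hple : ∀ p ∈ PP, p ^ e ≤ Ww w := by
    intro p hp
    rw [hW]
    apply Nat.le_of_dvd (Nat.mul_pos hW₀pos hnpos)
    apply dvd_mul_of_dvd_left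
    refine dvd_trans (pow_dvd_pow p hwe) ?_
    exact Finset.dvd_prod_of_mem (fun p => p ^ w) hp
  have hSScard : ∀ p ∈ PP, ((SS p).card : ℝ) ≤ 3 * Cp p / (2 : ℝ) ^ e * X := by
    intro p hp
    have hpp := hPPpr p hp
    have hp0 : 0 < (p : ℝ) := by exact_mod_cast hpp.pos
    have hN : 1 ≤ p ^ e := Nat.one_le_pow _ _ hpp.pos
    have h8 := PAQ_boxm k (p ^ e) A
      ((cs (p ^ e) (IQ k)).filter fun a => SingPr p e (![c, a] : Fin 2 → IQ k → ℤ)) (SS p) hN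
      ((Nat.mul_le_mul_left _ (hple p hp)).trans hA) (Finset.filter_subset _ _)
      (Finset.filter_subset _ _) (by
        intro z hz
        rw [mem_filter] at hz ⊢
        exact ⟨PAQ_md_mem _ hN _, PAQ_sing_md h7 p e k c z hz.2⟩)
    have h9 := (hCp p hpp).2 e he1
    have hC1 := (hCp p hpp).1
    have h10 : ((p ^ e : ℕ) : ℝ) = (p : ℝ) ^ e := by push_cast; rfl
    rw [h10] at h8
    have hq : 0 < ((p : ℝ) ^ e) ^ Fintype.card (IQ k) := by positivity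
    have h11 : ((SS p).card : ℝ) * ((p : ℝ) ^ e) ^ Fintype.card (IQ k) ≤
        (3 * Cp p / (p : ℝ) ^ e * X) * ((p : ℝ) ^ e) ^ Fintype.card (IQ k) := by
      refine h8.trans ?_
      calc 3 * (((cs (p ^ e) (IQ k)).filter fun a =>
            SingPr p e (![c, a] : Fin 2 → IQ k → ℤ)).card : ℝ) * X
          ≤ 3 * (Cp p / (p : ℝ) ^ e * ((p : ℝ) ^ e) ^ Fintype.card (IQ k)) * X := by
            apply mul_le_mul_of_nonneg_right _ hX0
            exact mul_le_mul_of_nonneg_left h9 (by norm_num)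
        _ = (3 * Cp p / (p : ℝ) ^ e * X) * ((p : ℝ) ^ e) ^ Fintype.card (IQ k) := by ring
    refine (le_of_mul_le_mul_right h11 hq).trans ?_
    apply mul_le_mul_of_nonneg_right _ hX0
    apply div_le_div_of_nonneg_left (by linarith) (by positivity)
    exact pow_le_pow_left₀ (by norm_num) (by exact_mod_cast hpp.two_le) e
  have hTTcard : (TT'.card : ℝ) ≤ 3 * C₀ / (P : ℝ) ^ 2 * X := by
    have hle : n ≤ Ww w := by
      rw [hW]
      exact Nat.le_mul_of_pos_left _ hW₀pos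
    have h8 := PAQ_boxm k n A SR TT' hnpos ((Nat.mul_le_mul_left _ hle).trans hA)
      (Finset.filter_subset _ _) (Finset.filter_subset _ _) (fun z hz => (mem_filter.1 hz).2)
    have h9 := h6 c κ P n hOk hP hnpos (fun p hp hpn => PAQ_n_prime hp hpn) hcopD
    have hWr : (0 : ℝ) < (n : ℝ) ^ Fintype.card (IQ k) := by
      have : (0 : ℝ) < (n : ℝ) := by exact_mod_cast hnpos
      positivity
    have h10 : (TT'.card : ℝ) * (n : ℝ) ^ Fintype.card (IQ k) ≤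
        (3 * C₀ / (P : ℝ) ^ 2 * X) * (n : ℝ) ^ Fintype.card (IQ k) := by
      refine h8.trans ?_
      calc 3 * (SR.card : ℝ) * X ≤ 3 * (C₀ / (P : ℝ) ^ 2 * (n : ℝ) ^ Fintype.card (IQ k)) * X := by
            apply mul_le_mul_of_nonneg_right _ hX0
            exact mul_le_mul_of_nonneg_left h9 (by norm_num)
        _ = (3 * C₀ / (P : ℝ) ^ 2 * X) * (n : ℝ) ^ Fintype.card (IQ k) := by ring
    exact le_of_mul_le_mul_right h10 hWr
  have htot : ((((Bx (IQ k) A).filter fun a => ∃ s : ℕ, s ∣ Pw P V ∧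
      ∃ τ ∈ cs (Pw P f) (Fin (k + 2)), LTq c κ s P f τ a ∧
      (Ww w : ℝ) * (Gc κ s (κ.D * s) (Ww w) (Pw P f) τ a).card <
        1 / (2 * Q) * (Nat.totient (κ.D * s * Ww w) : ℝ) *
          ((κ.D * s * Ww w : ℕ) : ℝ) ^ k).card : ℕ) : ℝ) ≤
      ∑ p ∈ PP, ((SS p).card : ℝ) + (TT'.card : ℝ) := by
    have h8 := (Finset.card_le_card hsub).trans (Finset.card_union_le _ _)
    have h9 := Finset.card_biUnion_le (s := PP) (t := SS)
    exact_mod_cast h8.trans (add_le_add h9 le_rfl)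
  refine le_trans htot ?_
  have hs1 : ∑ p ∈ PP, ((SS p).card : ℝ) ≤ ε * X := by
    calc ∑ p ∈ PP, ((SS p).card : ℝ) ≤ ∑ p ∈ PP, 3 * Cp p / (2 : ℝ) ^ e * X :=
          Finset.sum_le_sum hSScard
      _ = (3 * S / (2 : ℝ) ^ e) * X := by
          rw [hS, ← Finset.sum_mul, Finset.mul_sum, Finset.sum_div]
      _ ≤ ε * X := by
        apply mul_le_mul_of_nonneg_right _ hX0
        rw [div_le_iff₀ (by positivity)]
        have h8 : (e : ℝ) ≤ (2 : ℝ) ^ e := by exact_mod_cast (Nat.lt_two_pow_self (n := e)).le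
        have he' : 3 * S / ε < e := by linarith
        rw [div_lt_iff₀ hε] at he'
        nlinarith
  rw [add_mul]
  exact add_le_add hs1 hTTcard

end Pool.FQ

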