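import Pool.Agent.Work.MP_9fb703_fq.Interface2

/-!
# Block PDQ: all small primes
-/

set_option autoImplicit false

namespace Pool.FQ

open Finset
open Pool.HPQ (Fw Lam Kw fl rd cs Ww)
open Pool.CB (VV Sol PSN PH lin dl)
open Pool.GE
open Pool.GR (SingPr)

theorem PDQ_base {k : ℕ} (κ : Crd k) (s : ℕ) (τ : Fin (k + 2) → ℤ) (a : IQ k → ℤ) :
    1 ≤ (Gc κ s 1 1 1 τ a).card := by
  classical
  rw [Nat.one_le_iff_ne_zero, ← Nat.pos_iff_ne_zero, Finset.card_pos]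
  refine ⟨(0, fun _ => 0), ?_⟩
  unfold Gc
  rw [Finset.mem_filter, Finset.mem_product]
  refine ⟨⟨by simp, ?_⟩, ?_, ?_⟩
  · unfold cs
    rw [Fintype.mem_piFinset]
    intro i
    simp
  · simpa using isCoprime_one_right
  · refine ⟨0, by simp, by simp, by simp, ?_⟩
    intro p hp hd
    exact absurd (Nat.dvd_one.mp hd) hp.one_lt.ne'

theorem p_PDQ (hMLQ : Stmt_MLQ) (hHSQ : Stmt_HSQ) : Stmt_PDQ := by
  classical
  intro k c κ P s e f hok hs he hf hDs hfs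
  have hn0 : κ.D * s ≠ 0 := Nat.mul_ne_zero hok.Dpos.ne' (by omega)
  let v₁ : ℕ → ℕ := fun p => (κ.D * s).factorization p
  have h : ∀ p : ℕ, p.Prime ∧ p ≤ P → ∃ Q₀ k₀ : ℕ, 1 ≤ Q₀ ∧ ∀ (w : ℕ) (a : IQ k → ℤ)
      (τ : Fin (k + 2) → ℤ), k₀ ≤ w → ¬ SingPr p e (![c, a] : Fin 2 → IQ k → ℤ) →
      LTq c κ s P f τ a → (p ^ (v₁ p + w)) ^ (k + 1) ≤
        Q₀ * p ^ w * (Gc κ s (p ^ v₁ p) (p ^ w) (p ^ f) τ a).card := by
    rintro p ⟨hp, hpP⟩
    have : Fact p.Prime := ⟨hp⟩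
    obtain ⟨Q₀, k₀, hQ, hmain⟩ := hHSQ k c κ p s e f (v₁ p) hok hs he hf (hfs p hp hpP)
      (Nat.ordProj_dvd _ _) (Nat.pow_succ_factorization_not_dvd hn0 hp)
    refine ⟨Q₀, k₀, hQ, fun w a τ hw hns hlt => ?_⟩
    obtain ⟨M, hM1, hM2, hM3⟩ := hlt p hpP
    exact hmain w a M τ hw hM1 hM2 hM3 hns
  choose! Q₀ k₀ hQ using h
  let S₀ : Finset ℕ := (Finset.range (P + 1)).filter Nat.Prime
  have hS₀ : ∀ p ∈ S₀, p.Prime ∧ p ≤ P := by
    intro p hp
    obtain ⟨h1, h2⟩ := Finset.mem_filter.mp hp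
    exact ⟨h2, by have := Finset.mem_range.mp h1; omega⟩
  have hprod : ∏ p ∈ S₀, p ^ v₁ p = κ.D * s := by
    have h1 : (κ.D * s).factorization.prod (· ^ ·) = κ.D * s :=
      Nat.prod_factorization_pow_eq_self hn0
    rw [Finsupp.prod_of_support_subset (s := S₀)] at h1
    · exact h1
    · intro p hp
      rw [Nat.support_factorization] at hp
      have hp1 := Nat.prime_of_mem_primeFactors hp
      have hp2 := hDs p hp1 (Nat.dvd_of_mem_primeFactors hp)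
      exact Finset.mem_filter.mpr ⟨Finset.mem_range.mpr (by omega), hp1⟩
    · intro i _
      simp
  refine ⟨∏ p ∈ S₀, Q₀ p, f + ∑ p ∈ S₀, k₀ p, ?_, ?_⟩
  · exact Finset.one_le_prod' fun p hp => (hQ p (hS₀ p hp)).1
  intro w a τ hw hns hlt
  have hfw : f ≤ w := by omega
  have hkw : ∀ p ∈ S₀, k₀ p ≤ w := by
    intro p hp
    have := Finset.single_le_sum (f := k₀) (fun i _ => Nat.zero_le _) hp
    omega
  have hind : ∀ S : Finset ℕ, S ⊆ S₀ →
      ((∏ p ∈ S, p ^ v₁ p) * (∏ p ∈ S, p ^ w)) ^ (k + 1) ≤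
      (∏ p ∈ S, Q₀ p) * (∏ p ∈ S, p ^ w) *
        (Gc κ s (∏ p ∈ S, p ^ v₁ p) (∏ p ∈ S, p ^ w) (∏ p ∈ S, p ^ f) τ a).card := by
    intro S
    induction S using Finset.induction_on with
    | empty =>
      intro _
      have := PDQ_base κ s τ a
      simpa using this
    | insert p S hpS ih =>
      intro hsub
      have hp0 : p ∈ S₀ := hsub (Finset.mem_insert_self p S)
      have hSsub : S ⊆ S₀ := fun q hq => hsub (Finset.mem_insert_of_mem hq)
      obtain ⟨hpp, hpP⟩ := hS₀ p hp0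
      have ih' := ih hSsub
      have hmain := (hQ p ⟨hpp, hpP⟩).2 w a τ (hkw p hp0) (hns p hpp hpP) hlt
      have hcop : ∀ g : ℕ → ℕ, ∀ m : ℕ, Nat.Coprime (p ^ m) (∏ q ∈ S, q ^ g q) := by
        intro g m
        refine Nat.Coprime.prod_right fun q hq => ?_
        have hq' := hS₀ q (hSsub hq)
        refine Nat.Coprime.pow _ _ ((Nat.coprime_primes hpp hq'.1).mpr ?_)
        rintro rfl
        exact hpS hq
      have hpos : ∀ g : ℕ → ℕ, 0 < ∏ q ∈ S, q ^ g q := by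
        intro g
        exact Finset.prod_pos fun q hq => pow_pos (hS₀ q (hSsub hq)).1.pos _
      have hdv : (∏ q ∈ insert p S, q ^ v₁ q) ∣ κ.D * s := by
        rw [← hprod]
        exact Finset.prod_dvd_prod_of_subset _ _ _ hsub
      rw [Finset.prod_insert hpS] at hdv
      have hML := hMLQ k κ s (p ^ v₁ p) (p ^ w) (p ^ f) (∏ q ∈ S, q ^ v₁ q) (∏ q ∈ S, q ^ w)
        (∏ q ∈ S, q ^ f) τ a (pow_pos hpp.pos _) (pow_pos hpp.pos _) (hpos v₁)
        (hpos fun _ => w)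
        (Nat.Coprime.mul_left
          (Nat.Coprime.mul_right (hcop v₁ _) (hcop (fun _ => w) _))
          (Nat.Coprime.mul_right (hcop v₁ _) (hcop (fun _ => w) _)))
        hdv (pow_dvd_pow p hfw)
        (Finset.prod_dvd_prod_of_dvd _ _ fun q _ => pow_dvd_pow q hfw)
      simp only [Finset.prod_insert hpS]
      rw [hML]
      have hmul := Nat.mul_le_mul hmain ih'
      rw [← mul_pow, pow_add p (v₁ p) w] at hmul
      calc (p ^ v₁ p * (∏ q ∈ S, q ^ v₁ q) * (p ^ w * ∏ q ∈ S, q ^ w)) ^ (k + 1)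
          = (p ^ v₁ p * p ^ w * ((∏ q ∈ S, q ^ v₁ q) * ∏ q ∈ S, q ^ w)) ^ (k + 1) := by
            congr 1
            ring
        _ ≤ Q₀ p * p ^ w * (Gc κ s (p ^ v₁ p) (p ^ w) (p ^ f) τ a).card *
            ((∏ q ∈ S, Q₀ q) * (∏ q ∈ S, q ^ w) *
              (Gc κ s (∏ q ∈ S, q ^ v₁ q) (∏ q ∈ S, q ^ w) (∏ q ∈ S, q ^ f) τ a).card) := hmul
        _ = _ := by ring
  have hfin := hind S₀ (Finset.Subset.refl _)
  rw [hprod] at hfin
  have hPw : ∀ w, Pw P w = ∏ p ∈ S₀, p ^ w := by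
    intro w
    unfold Pw
    refine Finset.prod_congr ?_ fun _ _ => rfl
    ext q
    simp only [S₀, Finset.mem_filter]
  rw [hPw w, hPw f]
  exact hfin

end Pool.FQ
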