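import Pool.Agent.Work.MP_9fb703_fq.Interface1
import Pool.Agent.Work.MP_a19274_ge.B_DEL

set_option autoImplicit false

/-! # THEOREM FQ, block PLW: the plane of two vectors -/

namespace Pool.FQ

open Finset
open Pool.HPQ (Fw Lam Kw fl rd cs Ww)
open Pool.CB (VV Sol PSN PH lin dl)
open Pool.GE
open Pool.GR (SingPr)

theorem PLW_De {τ : Type} [Fintype τ] (x y w : τ → ℤ) (g : ℕ)
    (h : ∀ v u, om x y v u = g * om x w v u) : De x y = g * De x w := by
  apply le_antisymm
  · have h1 := DEL_bound x y ((g : ℤ) * De x w) (by positivity) (fun v u => by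
      rw [h, abs_mul]
      have h2 := DEL_le x w v u
      have h3 : |(g : ℤ)| = g := abs_of_nonneg (by positivity)
      rw [h3]
      exact mul_le_mul_of_nonneg_left h2 (by positivity))
    exact_mod_cast h1
  · rcases Nat.eq_zero_or_pos g with hg | hg
    · subst hg
      simp
    · have h1 := DEL_bound x w ((De x y / g : ℕ) : ℤ) (by positivity) (fun v u => by
        have h2 := DEL_le x y v u
        rw [h, abs_mul, abs_of_nonneg (show (0 : ℤ) ≤ g by positivity)] at h2
        have h3 : |om x w v u| = ((om x w v u).natAbs : ℤ) := Int.abs_eq_natAbs _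
        rw [h3] at h2 ⊢
        have h4 : g * (om x w v u).natAbs ≤ De x y := by exact_mod_cast h2
        have h5 : (om x w v u).natAbs ≤ De x y / g := by
          rw [Nat.le_div_iff_mul_le hg, mul_comm]
          exact h4
        exact_mod_cast h5)
      have h2 : De x w ≤ De x y / g := by exact_mod_cast h1
      rw [Nat.le_div_iff_mul_le hg, mul_comm] at h2
      exact h2

theorem p_PLW (hDEL : Pool.GE.Stmt_DEL) : Stmt_PLW := by
  intro τ _ _ x y v₀ hx hxy hv₀
  obtain ⟨d1, d2, d3, d4, d5, d6⟩ := hDEL τ x y hx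
  have hD : Dv (ct x y) x y := (d3 _).2 dvd_rfl
  have hg : 0 < ct x y := by
    rcases Nat.eq_zero_or_pos (ct x y) with h | h
    · exfalso
      apply hxy
      intro v w
      have h1 := hD v w
      rw [h] at h1
      exact zero_dvd_iff.1 (by exact_mod_cast h1)
    · exact h
  obtain ⟨α₀, hα₀⟩ := d5 _ hD
  choose w₀ hw₀ using hα₀
  have hs : 0 < sn x := snb_pos hx
  have hm : x v₀ ≠ 0 := by
    intro h
    rw [h, abs_zero] at hv₀
    omega
  obtain ⟨k, hk⟩ : ∃ k, k = w₀ v₀ / x v₀ := ⟨_, rfl⟩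
  have e1 : w₀ v₀ - k * x v₀ = w₀ v₀ % x v₀ := by
    rw [hk]
    have := Int.emod_add_mul_ediv (w₀ v₀) (x v₀)
    linarith
  have hom : ∀ v u, om x y v u = (ct x y : ℕ) * om x (fun v => w₀ v - k * x v) v u := by
    intro v u
    have h1 := hw₀ v
    have h2 := hw₀ u
    unfold om
    linear_combination x v * h2 - x u * h1
  have hDe := PLW_De x y (fun v => w₀ v - k * x v) (ct x y) hom
  refine ⟨α₀ + ct x y * k, fun v => w₀ v - k * x v, ?_, ?_, ?_, hDe, ?_, hg⟩
  · intro v
    have h1 := hw₀ v
    linear_combination h1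
  · show 0 ≤ w₀ v₀ - k * x v₀
    rw [e1]
    exact Int.emod_nonneg _ hm
  · show w₀ v₀ - k * x v₀ < sn x
    rw [e1, ← hv₀]
    exact Int.emod_lt_abs _ hm
  · rcases Nat.eq_zero_or_pos (De x (fun v => w₀ v - k * x v)) with h | h
    · exfalso
      apply hxy
      rw [h, mul_zero] at hDe
      exact d1.1 hDe
    · exact h

end Pool.FQ
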