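import Pool.Agent.Work.MP_9fb703_fq.Interface1
import Pool.Agent.Work.MP_a19274_ge.B_VTOT

set_option autoImplicit false

/-! # THEOREM FQ, block PSQ: the correlation of two vectors -/

namespace Pool.FQ

open Finset
open Pool.HPQ (Fw Lam Kw fl rd cs Ww)
open Pool.CB (VV Sol PSN PH lin dl)
open Pool.GE
open Pool.GR (SingPr)

theorem PSQ_mem {k : ℕ} (s : Fin (k + 2) → ℕ) (hs : ∑ v, s v = 2) :
    s ∈ Mon (fun _ : Fin (k + 2) => ()) (fun _ : Unit => 2) := by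
  unfold Mon
  rw [Finset.mem_filter, Fintype.mem_piFinset]
  refine ⟨fun v => ?_, fun i => ?_⟩
  · rw [Finset.mem_range]
    have h1 : s v ≤ ∑ v, s v := Finset.single_le_sum (fun _ _ => Nat.zero_le _) (Finset.mem_univ v)
    show s v < 2 + 1
    omega
  · have h1 : bk (fun _ : Fin (k + 2) => ()) i = Finset.univ := by
      unfold bk
      exact Finset.filter_true_of_mem fun _ _ => Subsingleton.elim _ _
    rw [h1, hs]

open Classical in
theorem PSQ_sub {ι ι' : Type} (R T : ℕ) (ν ν' : ι → ℤ) (μ μ' : ι' → ℤ)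
    (h : ∀ c, ∃ c', μ c = ν c' ∧ μ' c = ν' c') : Sol R T ν ν' ⊆ Sol R T μ μ' := by
  intro s hs
  unfold Sol at hs ⊢
  obtain ⟨hs1, hs2⟩ := Finset.mem_filter.1 hs
  refine Finset.mem_filter.2 ⟨hs1, fun c => ?_⟩
  obtain ⟨c', e1, e2⟩ := h c
  obtain ⟨n, hn⟩ := hs2 c'
  refine ⟨n, ?_⟩
  rw [e1, e2]
  exact hn

theorem PSQ_sol {k : ℕ} (R T : ℕ) (x y : Fin (k + 2) → ℤ) :
    Sol R T (nq x) (nq y) ⊆ Sol R T (nv 2 (fun _ : Unit => (1 : ℤ)) x)
      (nv 2 (fun _ : Unit => (1 : ℤ)) y) := by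
  refine PSQ_sub R T _ _ _ _ fun c => ⟨⟨c.2.1, PSQ_mem c.2.1 c.2.2⟩, ?_, ?_⟩
  · unfold nv nq nu
    rw [one_mul]
  · unfold nv nq nu
    rw [one_mul]

open Classical in
theorem PSQ_mono (S : Finset ℕ) (W : ℕ) {C C' D E : ℝ} (h0 : 0 ≤ C) (h : C ≤ C') (hD : 0 ≤ D)
    (hE : 0 ≤ E) :
    C / D * ∑ g ∈ S, (g : ℝ) * (if g ∣ W then min 1 (C * E) else 1) ≤
      C' / D * ∑ g ∈ S, (g : ℝ) * (if g ∣ W then min 1 (C' * E) else 1) := by
  apply mul_le_mul
  · exact div_le_div_of_nonneg_right h hD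
  · refine Finset.sum_le_sum fun g _ => ?_
    apply mul_le_mul_of_nonneg_left _ (by positivity)
    split_ifs
    · exact min_le_min_left _ (mul_le_mul_of_nonneg_right h hE)
    · exact le_rfl
  · refine Finset.sum_nonneg fun g _ => ?_
    apply mul_nonneg (by positivity)
    split_ifs
    · exact le_min zero_le_one (mul_nonneg h0 hE)
    · exact zero_le_one
  · exact div_nonneg (h0.trans h) hD

open Classical in
theorem p_PSQ (h1 : Pool.GR.Stmt_SAMG) (h2 : Pool.GE.Stmt_DIAP) (_h3 : Pool.GE.Stmt_GLU)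
    (h4 : Pool.GE.Stmt_PAR) : Stmt_PSQ := by
  intro k _
  obtain ⟨C₁, hC₁, H1⟩ := h1 (k + 2) 2 1
  obtain ⟨C₂, hC₂, H2⟩ := h2 (k + 2) 2 1
  refine ⟨max C₁ C₂, hC₁.trans (le_max_left _ _), ?_⟩
  intro R T H W A X K m₀ _ h hPa x hx y hy
  have hT : 0 < T := by
    have h1 := hPa.T1
    have h2 : 0 < 100 * (1 * X ^ 2) ^ 4 := by
      have := hPa.X1
      positivity
    omega
  have hA1 := hPa.A1
  have hTR : T ≤ R := by
    rw [hPa.hR]
    nlinarith
  have hH : 0 < H := hPa.H1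
  have hW : 0 < W := hPa.W1
  obtain ⟨v, hv⟩ : ∃ v : Unit → ℤ, v = fun _ => 1 := ⟨_, rfl⟩
  have hsol : Sol R T (nq x) (nq y) ⊆ Sol R T (nv 2 v x) (nv 2 v y) := by
    rw [hv]
    exact PSQ_sol R T x y
  have hV := Pool.CB.p_VARN (IQ k) R T H W hT hTR hH hW hPa.WR hPa.HW (nq x) (nq y)
  have hP := VTOT_psn R T H W hH hW hPa.WR hPa.HW (nq x) (nq y) (nv 2 v x) (nv 2 v y) hsol
  have hPrm : Prm v := ⟨fun _ => 1, by rw [hv]; simp⟩
  have hsn : sn v ≤ 1 := by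
    refine Finset.sup_le fun s _ => ?_
    rw [hv]
    norm_num
  have hsn' : 1 ≤ 1 * sn v := by
    rw [one_mul]
    unfold sn
    have h5 := Finset.le_sup (f := fun u : Unit => (v u).natAbs) (Finset.mem_univ ())
    rw [hv] at h5 ⊢
    simpa using h5
  have hcard : Fintype.card (Fin (k + 2)) = k + 2 := Fintype.card_fin _
  constructor
  · intro hxy
    have h5 := H1 R T H W A 1 X K m₀ h Unit (Fin (k + 2)) v v x y hPa hcard hPrm hsn hsn'
      (Or.inl rfl) hx hy hxy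
    refine (hV.1.trans (hP.1.trans h5)).trans ?_
    have e1 : (A : ℝ) ^ 2 * ((1 : ℕ) : ℝ) ^ 2 * (X : ℝ) ^ (2 * 2 - 2) * De x y =
        (A : ℝ) ^ 2 * (X : ℝ) ^ 2 * De x y := by
      norm_num
    rw [e1]
    have h6 := PSQ_mono (Nat.divisors (ct x y)) W (C := C₁) (C' := max C₁ C₂)
      (D := (A : ℝ) ^ 2 * (X : ℝ) ^ 2 * De x y) (E := h * (X : ℝ) ^ 2 / De x y)
      (by linarith) (le_max_left _ _) (by positivity)
      (by have := hPa.h0; positivity)
    have e2 : ∀ c : ℝ, c * h * (X : ℝ) ^ 2 / De x y = c * (h * (X : ℝ) ^ 2 / De x y) := by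
      intro c
      ring
    rw [e2, e2]
    exact h6
  · intro hxy
    have hxP : Prm x := by
      unfold Yf at hx
      exact (Finset.mem_filter.1 hx).2.1
    have hyP : Prm y := by
      unfold Yf at hy
      exact (Finset.mem_filter.1 hy).2.1
    have h5 := H2 R T H W A 1 X K m₀ h Unit (Fin (k + 2)) v v x y hPa hcard hPrm hsn hsn'
      (Or.inl rfl) hx ((h4 (Fin (k + 2)) x y hxP hyP).1 hxy)
    refine (hV.1.trans (hP.1.trans (hP.2.2.1.trans h5))).trans ?_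
    have e1 : (A : ℝ) * ((1 : ℕ) : ℝ) * (X : ℝ) ^ 2 = A * (X : ℝ) ^ 2 := by
      norm_num
    rw [e1]
    exact div_le_div_of_nonneg_right (le_max_right _ _) (by positivity)

end Pool.FQ
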