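import Pool.Agent.Work.MP_9fb703_fq.B_RG1

/-! # Block PSX: the sum over the pairs with `g X ≤ De` -/

set_option autoImplicit false

namespace Pool.FQ

open Finset
open Pool.HPQ (Fw Lam Kw fl rd cs Ww)
open Pool.CB (VV Sol PSN PH lin dl)
open Pool.GE
open Pool.GR (SingPr)

theorem PSX_dyr2 (hDYR : Pool.GR.Stmt_DYR) (k : ℕ) (hk : 4 ≤ k) : ∃ C : ℝ, 1 ≤ C ∧
    ∀ (α : Type) (S : Finset α) (D : α → ℝ) (X g : ℕ) (C₂ Q : ℝ), 1 ≤ X → 1 ≤ g → 0 ≤ C₂ →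
    0 ≤ Q → (∀ y ∈ S, (g : ℝ) * X ≤ D y ∧ D y ≤ Q) →
    (∀ Z : ℝ, (g : ℝ) * X ≤ Z → ((S.filter fun y => D y ≤ Z).card : ℝ) ≤
      C₂ * X * (Z / (X * g)) ^ (k - 1)) →
    (g : ℝ) * ∑ y ∈ S, 1 / D y ≤ C * C₂ * (Q / (X * g)) ^ (k - 2) := by
  obtain ⟨C, hC1, hC⟩ := hDYR (k - 1) 1 (le_refl _) (by omega)
  refine ⟨C, hC1, ?_⟩
  intro α S D X g C₂ Q hX hg hC₂ hQ hb hc
  have hXr : (1 : ℝ) ≤ X := by exact_mod_cast hX
  have hgr : (1 : ℝ) ≤ g := by exact_mod_cast hg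
  have h1 := (hC α S D (C₂ * X / (X * g) ^ (k - 1)) Q 1 (g * X) (by positivity) hQ
    (by positivity) one_pos hb (by
      intro Z hZ
      refine (hc Z hZ).trans (le_of_eq ?_)
      rw [div_pow]
      ring)).1
  simp only [pow_one] at h1
  obtain ⟨m, hm⟩ : ∃ m, k = m + 2 := ⟨k - 2, by omega⟩
  subst hm
  have e1 : m + 2 - 1 - 1 = m := by omega
  have e2 : m + 2 - 1 = m + 1 := by omega
  have e3 : m + 2 - 2 = m := by omega
  rw [e1, e2] at h1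
  rw [e3]
  have hX0 : (X : ℝ) ≠ 0 := by linarith
  have hg0 : (g : ℝ) ≠ 0 := by linarith
  calc (g : ℝ) * ∑ y ∈ S, 1 / D y ≤ g * (C * (C₂ * X / (X * g) ^ (m + 1)) * Q ^ m) :=
      mul_le_mul_of_nonneg_left h1 (by linarith)
    _ = C * C₂ * (Q / (X * g)) ^ m := by
      rw [pow_succ, div_pow]
      field_simp

theorem PSX_dyr1 (hDYR : Pool.GR.Stmt_DYR) (k : ℕ) (hk : 4 ≤ k) : ∃ C : ℝ, 1 ≤ C ∧
    ∀ (α : Type) (S : Finset α) (D : α → ℝ) (X G g : ℕ) (C₁ κ₀ : ℝ), 3 ≤ X → 1 ≤ G → 1 ≤ g →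
    0 ≤ C₁ → 0 < κ₀ → (∀ y ∈ S, (X : ℝ) ^ 2 / G ≤ D y ∧ D y ≤ 2 * (X : ℝ) ^ 2) →
    (∀ Z : ℝ, (X : ℝ) ^ 2 ≤ G * Z → ((S.filter fun y => D y ≤ Z).card : ℝ) ≤
      C₁ * (Z / (X * g)) ^ k / Real.log X) →
    (g : ℝ) * ∑ y ∈ S, 1 / D y ≤ C * C₁ * (X : ℝ) ^ (k - 2) / ((g : ℝ) ^ (k - 1) * Real.log X) ∧
    (g : ℝ) * ∑ y ∈ S, min 1 (κ₀ * (X : ℝ) ^ 2 / D y) / D y ≤
      C * C₁ * √κ₀ * (X : ℝ) ^ (k - 2) / ((g : ℝ) ^ (k - 1) * Real.log X) := by
  obtain ⟨C, hC1, hC⟩ := hDYR k 1 (le_refl _) (by omega)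
  refine ⟨C * 2 ^ (k - 1), ?_, ?_⟩
  · have : (1 : ℝ) ≤ 2 ^ (k - 1) := one_le_pow₀ (by norm_num)
    nlinarith
  intro α S D X G g C₁ κ₀ hX hG hg hC₁ hκ hb hc
  have hXr : (3 : ℝ) ≤ X := by exact_mod_cast hX
  have hgr : (1 : ℝ) ≤ g := by exact_mod_cast hg
  have hGr : (1 : ℝ) ≤ G := by exact_mod_cast hG
  have hlog : 0 < Real.log X := Real.log_pos (by linarith)
  have h1 := hC α S D (C₁ / ((X * g) ^ k * Real.log X)) (2 * (X : ℝ) ^ 2) (κ₀ * (X : ℝ) ^ 2)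
    ((X : ℝ) ^ 2 / G) (by positivity) (by positivity) (by positivity) (by positivity) hb (by
      intro Z hZ
      rw [div_le_iff₀ (by linarith)] at hZ
      refine (hc Z (by linarith)).trans (le_of_eq ?_)
      rw [div_pow]
      field_simp)
  simp only [pow_one] at h1
  obtain ⟨m, hm⟩ : ∃ m, k = m + 2 := ⟨k - 2, by omega⟩
  subst hm
  have e1 : m + 2 - 1 - 1 = m := by omega
  have e2 : m + 2 - 1 = m + 1 := by omega
  have e3 : m + 2 - 2 = m := by omega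
  rw [e1, e2] at h1
  rw [e2, e3]
  have hX0 : (X : ℝ) ≠ 0 := by linarith
  have hg0 : (g : ℝ) ≠ 0 := by linarith
  have e4 : (g : ℝ) * (C * (C₁ / ((X * g) ^ (m + 2) * Real.log X)) * (2 * (X : ℝ) ^ 2) ^ (m + 1)) =
      C * 2 ^ (m + 1) * C₁ * (X : ℝ) ^ m / ((g : ℝ) ^ (m + 1) * Real.log X) := by
    rw [mul_pow, mul_pow, ← pow_mul]
    have e5 : (X : ℝ) ^ (2 * (m + 1)) = X ^ m * X ^ (m + 2) := by
      rw [← pow_add]
      congr 1
      ring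
    have e6 : (g : ℝ) ^ (m + 2) = g ^ (m + 1) * g := pow_succ _ _
    rw [e5, e6]
    field_simp
  constructor
  · calc (g : ℝ) * ∑ y ∈ S, 1 / D y ≤
        g * (C * (C₁ / ((X * g) ^ (m + 2) * Real.log X)) * (2 * (X : ℝ) ^ 2) ^ (m + 1)) :=
        mul_le_mul_of_nonneg_left h1.1 (by linarith)
      _ = _ := e4
  · have h2 : √(κ₀ * (X : ℝ) ^ 2) = √κ₀ * X := by
      rw [Real.sqrt_mul hκ.le, Real.sqrt_sq (by linarith)]
    have h3 : √(2 * (X : ℝ) ^ 2) ≤ 2 * X := by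
      rw [Real.sqrt_le_left (by linarith)]
      nlinarith
    have h4 : C * (C₁ / ((X * g) ^ (m + 2) * Real.log X)) * √(κ₀ * (X : ℝ) ^ 2) *
        (2 * (X : ℝ) ^ 2) ^ m * √(2 * (X : ℝ) ^ 2) ≤
        √κ₀ * (C * (C₁ / ((X * g) ^ (m + 2) * Real.log X)) * (2 * (X : ℝ) ^ 2) ^ (m + 1)) := by
      rw [h2]
      calc C * (C₁ / ((X * g) ^ (m + 2) * Real.log X)) * (√κ₀ * X) *
          (2 * (X : ℝ) ^ 2) ^ m * √(2 * (X : ℝ) ^ 2) ≤
          C * (C₁ / ((X * g) ^ (m + 2) * Real.log X)) * (√κ₀ * X) *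
          (2 * (X : ℝ) ^ 2) ^ m * (2 * X) := mul_le_mul_of_nonneg_left h3 (by positivity)
        _ = _ := by ring
    calc (g : ℝ) * ∑ y ∈ S, min 1 (κ₀ * (X : ℝ) ^ 2 / D y) / D y ≤
        g * (√κ₀ * (C * (C₁ / ((X * g) ^ (m + 2) * Real.log X)) *
          (2 * (X : ℝ) ^ 2) ^ (m + 1))) :=
        mul_le_mul_of_nonneg_left (h1.2.trans h4) (by linarith)
      _ = √κ₀ * (g * (C * (C₁ / ((X * g) ^ (m + 2) * Real.log X)) *
          (2 * (X : ℝ) ^ 2) ^ (m + 1))) := by ring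
      _ = _ := by
        rw [e4]
        ring

theorem PSX_sum1 (n : ℕ) (hn : 1 ≤ n) : ∑ g ∈ Finset.Icc 1 n, 1 / (g : ℝ) ^ 2 ≤ 2 := by
  have h1 : Finset.Icc 1 n = insert 1 (Finset.Ioc 1 n) := by
    ext i
    rw [Finset.mem_insert, Finset.mem_Icc, Finset.mem_Ioc]
    omega
  have h2 := sum_Ioc_inv_sq_le_sub (α := ℝ) (k := 1) (n := n) one_ne_zero hn
  rw [h1, Finset.sum_insert (by simp)]
  have h3 : ∑ i ∈ Finset.Ioc 1 n, 1 / (i : ℝ) ^ 2 = ∑ i ∈ Finset.Ioc 1 n, ((i : ℝ) ^ 2)⁻¹ :=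
    Finset.sum_congr rfl fun i _ => one_div _
  rw [h3]
  have h4 : (0 : ℝ) ≤ (n : ℝ)⁻¹ := by positivity
  norm_num at h2 ⊢
  linarith

theorem PSX_sum2 (G n : ℕ) (hG : 1 ≤ G) (hn : G ≤ n) :
    ∑ g ∈ Finset.Icc 1 n, (if G < g then 1 / (g : ℝ) ^ 2 else 0) ≤ 1 / (G : ℝ) := by
  have h1 : (Finset.Icc 1 n).filter (fun g => G < g) = Finset.Ioc G n := by
    ext i
    rw [Finset.mem_filter, Finset.mem_Icc, Finset.mem_Ioc]
    omega
  have h2 := sum_Ioc_inv_sq_le_sub (α := ℝ) (k := G) (n := n) (by omega) hn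
  rw [← Finset.sum_filter, h1]
  have h3 : ∑ i ∈ Finset.Ioc G n, 1 / (i : ℝ) ^ 2 = ∑ i ∈ Finset.Ioc G n, ((i : ℝ) ^ 2)⁻¹ :=
    Finset.sum_congr rfl fun i _ => one_div _
  rw [h3, one_div]
  have h4 : (0 : ℝ) ≤ (n : ℝ)⁻¹ := by positivity
  linarith

open Classical in
theorem p_PSX (hRG1 : Stmt_RG1) (hRG2 : Stmt_RG2) (hDEL : Pool.GE.Stmt_DEL)
    (hDYR : Pool.GR.Stmt_DYR) : Stmt_PSX := by
  intro k c κ s c₁ hk hOk hs hc₁
  obtain ⟨C₁, X₁, hC₁, hX₁, hr1⟩ := hRG1 k c κ s c₁ hk hOk hs hc₁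
  obtain ⟨C₂, X₂, hC₂, hr2⟩ := hRG2 k c κ s c₁ (by omega) hOk hs hc₁
  obtain ⟨D₁, hD₁, hd1⟩ := PSX_dyr1 hDYR k hk
  obtain ⟨D₂, hD₂, hd2⟩ := PSX_dyr2 hDYR k hk
  refine ⟨2 * (D₁ * C₁) + (2 + 2 ^ (k - 2)) * (D₂ * C₂), X₁ + X₂, ?_, by omega, ?_⟩
  · have h1 : 1 ≤ D₁ * C₁ := by nlinarith
    have h2 : 0 ≤ (2 + 2 ^ (k - 2)) * (D₂ * C₂) := by positivity
    linarith
  intro X G W w κ₀ hX hG1 hG16 hw hwW hκ x hx
  have hX3 : 3 ≤ X := by omega
  have hXr : (3 : ℝ) ≤ X := by exact_mod_cast hX3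
  have hGr : (1 : ℝ) ≤ G := by exact_mod_cast hG1
  have hwr : (1 : ℝ) ≤ w := by exact_mod_cast hw
  have hlog : 0 < Real.log X := Real.log_pos (by linarith)
  have hGX : G ≤ X := (Nat.le_self_pow (by norm_num) G).trans hG16
  obtain ⟨-, hxP, hxX, -, -⟩ := RG1_mem x hx
  have hDeQ : ∀ y ∈ Xf c κ s c₁ X, (De x y : ℝ) ≤ 2 * (X : ℝ) ^ 2 := by
    intro y hy
    obtain ⟨-, -, hyX, -, -⟩ := RG1_mem y hy
    have h2 := (hDEL (Fin (k + 2)) x y hxP).2.1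
    have h3 : De x y ≤ 2 * (X * X) :=
      h2.trans (Nat.mul_le_mul_left _ (Nat.mul_le_mul hxX hyX))
    have h4 : (De x y : ℝ) ≤ 2 * (X * X) := by exact_mod_cast h3
    linarith [h4, sq (X : ℝ)]
  -- exchange of the sums
  have hex : ∑ y ∈ (Xf c κ s c₁ X).filter (fun y => ¬ Par x y ∧ ¬ Ex κ c₁ X x y),
      ∑ g ∈ (Finset.Icc 1 (2 * X)).filter (fun g : ℕ => Dv g x y ∧ g * X ≤ De x y),
        (g : ℝ) * (if g ∣ W then min 1 (κ₀ * (X : ℝ) ^ 2 / De x y) else 1) / De x y =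
      ∑ g ∈ Finset.Icc 1 (2 * X), (g : ℝ) *
        ∑ y ∈ ((Xf c κ s c₁ X).filter (fun y => ¬ Par x y ∧ ¬ Ex κ c₁ X x y)).filter
          (fun y => Dv g x y ∧ g * X ≤ De x y),
        (if g ∣ W then min 1 (κ₀ * (X : ℝ) ^ 2 / De x y) else 1) / De x y := by
    rw [Finset.sum_comm' (s' := fun g => ((Xf c κ s c₁ X).filter
      (fun y => ¬ Par x y ∧ ¬ Ex κ c₁ X x y)).filter (fun y => Dv g x y ∧ g * X ≤ De x y))
      (t' := Finset.Icc 1 (2 * X))]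
    · refine Finset.sum_congr rfl fun g _ => ?_
      rw [Finset.mul_sum]
      refine Finset.sum_congr rfl fun y _ => ?_
      rw [mul_div_assoc]
    · intro y g
      simp only [Finset.mem_filter]
      tauto
  rw [hex]
  obtain ⟨M₁, hM₁⟩ : ∃ M₁ : ℝ, M₁ = D₁ * C₁ * (X : ℝ) ^ (k - 2) * (√κ₀ + 1 / w) / Real.log X +
    D₂ * C₂ * (X : ℝ) ^ (k - 2) / G := ⟨_, rfl⟩
  obtain ⟨M₂, hM₂⟩ : ∃ M₂ : ℝ, M₂ = D₂ * C₂ * 2 ^ (k - 2) * (X : ℝ) ^ (k - 2) := ⟨_, rfl⟩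
  have hone : ∀ g ∈ Finset.Icc 1 (2 * X), (g : ℝ) *
        ∑ y ∈ ((Xf c κ s c₁ X).filter (fun y => ¬ Par x y ∧ ¬ Ex κ c₁ X x y)).filter
          (fun y => Dv g x y ∧ g * X ≤ De x y),
        (if g ∣ W then min 1 (κ₀ * (X : ℝ) ^ 2 / De x y) else 1) / De x y ≤
      M₁ * (1 / (g : ℝ) ^ 2) + M₂ * (if G < g then 1 / (g : ℝ) ^ 2 else 0) := by
    intro g hg
    rw [Finset.mem_Icc] at hg
    have hgr : (1 : ℝ) ≤ g := by exact_mod_cast hg.1
    obtain ⟨A, hA⟩ : ∃ A : Finset (Fin (k + 2) → ℤ), A = ((Xf c κ s c₁ X).filter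
      (fun y => ¬ Par x y ∧ ¬ Ex κ c₁ X x y)).filter (fun y => Dv g x y ∧ g * X ≤ De x y) :=
      ⟨_, rfl⟩
    rw [← hA]
    have hmA : ∀ y ∈ A, y ∈ Xf c κ s c₁ X ∧ ¬ Ex κ c₁ X x y ∧ Dv g x y ∧
        (g : ℝ) * X ≤ De x y := by
      intro y hy
      rw [hA, Finset.mem_filter, Finset.mem_filter] at hy
      refine ⟨hy.1.1, hy.1.2.2, hy.2.1, ?_⟩
      exact_mod_cast hy.2.2
    have hh : ∀ y ∈ A, (if g ∣ W then min 1 (κ₀ * (X : ℝ) ^ 2 / De x y) else 1) / (De x y : ℝ) ≤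
        1 / De x y := by
      intro y _
      apply div_le_div_of_nonneg_right _ (Nat.cast_nonneg _)
      split_ifs
      · exact min_le_left _ _
      · exact le_refl _
    have hXpos : (0 : ℝ) < (X : ℝ) ^ (k - 2) := by positivity
    -- the bound by RG2
    have hb2 : ∀ S ⊆ A, ∀ Q : ℝ, 0 ≤ Q → (∀ y ∈ S, (De x y : ℝ) ≤ Q) → (g : ℝ) * ∑ y ∈ S,
        (if g ∣ W then min 1 (κ₀ * (X : ℝ) ^ 2 / De x y) else 1) / (De x y : ℝ) ≤
        D₂ * C₂ * (Q / (X * g)) ^ (k - 2) := by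
      intro S hS Q hQ hSQ
      have h1 := hd2 (Fin (k + 2) → ℤ) S (fun y => (De x y : ℝ)) X g C₂ Q (by omega) hg.1
        (by linarith) hQ (fun y hy => ⟨(hmA y (hS hy)).2.2.2, hSQ y hy⟩) (by
          intro Z hZ
          refine le_trans ?_ (hr2 X g (by omega) hg.1 Z hZ x hx)
          have : (S.filter fun y => (De x y : ℝ) ≤ Z) ⊆ (Xf c κ s c₁ X).filter fun y =>
              ¬ Ex κ c₁ X x y ∧ Dv g x y ∧ (De x y : ℝ) ≤ Z := by
            intro y hy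
            rw [Finset.mem_filter] at hy ⊢
            obtain ⟨h3, h4, h5, -⟩ := hmA y (hS hy.1)
            exact ⟨h3, h4, h5, hy.2⟩
          exact_mod_cast Finset.card_le_card this)
      refine le_trans ?_ h1
      apply mul_le_mul_of_nonneg_left _ (by linarith)
      exact Finset.sum_le_sum fun y hy => hh y (hS hy)
    rcases Nat.lt_or_ge G g with hGg | hGg
    · -- `g > G`
      rw [if_pos hGg]
      have h1 := hb2 A (Finset.Subset.refl _) (2 * (X : ℝ) ^ 2) (by positivity)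
        (fun y hy => hDeQ y (hmA y hy).1)
      refine h1.trans ?_
      have h2 : (2 * (X : ℝ) ^ 2 / (X * g)) ^ (k - 2) = 2 ^ (k - 2) * (X : ℝ) ^ (k - 2) *
          (1 / (g : ℝ) ^ (k - 2)) := by
        have : 2 * (X : ℝ) ^ 2 / (X * g) = 2 * X * (1 / g) := by
          field_simp
        rw [this, mul_pow, mul_pow, one_div, one_div, inv_pow]
      have h3 : 1 / (g : ℝ) ^ (k - 2) ≤ 1 / (g : ℝ) ^ 2 := by
        apply one_div_le_one_div_of_le (by positivity)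
        exact pow_le_pow_right₀ hgr (by omega)
      have hM₁0 : 0 ≤ M₁ * (1 / (g : ℝ) ^ 2) := by
        rw [hM₁]
        positivity
      rw [h2]
      have h4 : D₂ * C₂ * (2 ^ (k - 2) * (X : ℝ) ^ (k - 2) * (1 / (g : ℝ) ^ (k - 2))) ≤
          M₂ * (1 / (g : ℝ) ^ 2) := by
        rw [hM₂]
        calc D₂ * C₂ * (2 ^ (k - 2) * (X : ℝ) ^ (k - 2) * (1 / (g : ℝ) ^ (k - 2))) =
            D₂ * C₂ * 2 ^ (k - 2) * (X : ℝ) ^ (k - 2) * (1 / (g : ℝ) ^ (k - 2)) := by ring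
          _ ≤ _ := mul_le_mul_of_nonneg_left h3 (by positivity)
      linarith
    · -- `g ≤ G`
      rw [if_neg (by omega), mul_zero, add_zero]
      have hgGr : (g : ℝ) ≤ G := by exact_mod_cast hGg
      rw [← Finset.sum_filter_add_sum_filter_not A (fun y => (X : ℝ) ^ 2 ≤ G * De x y), mul_add,
        hM₁, add_mul]
      apply add_le_add
      · obtain ⟨A₁, hA₁⟩ : ∃ A₁ : Finset (Fin (k + 2) → ℤ),
          A₁ = A.filter (fun y => (X : ℝ) ^ 2 ≤ G * De x y) := ⟨_, rfl⟩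
        rw [← hA₁]
        have hm₁ : ∀ y ∈ A₁, y ∈ A ∧ (X : ℝ) ^ 2 ≤ G * De x y := by
          intro y hy
          rw [hA₁, Finset.mem_filter] at hy
          exact hy
        have h1 := hd1 (Fin (k + 2) → ℤ) A₁ (fun y => (De x y : ℝ)) X G g C₁ κ₀ hX3 hG1 hg.1
          (by linarith) hκ (fun y hy => ⟨by
            rw [div_le_iff₀ (by linarith)]
            linarith [(hm₁ y hy).2], hDeQ y (hmA y (hm₁ y hy).1).1⟩) (by
          intro Z hZ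
          refine le_trans ?_ (hr1 X G g (by omega) hg.1 hGg hG16 Z hZ x hx)
          have : (A₁.filter fun y => (De x y : ℝ) ≤ Z) ⊆ (Xf c κ s c₁ X).filter fun y =>
              ¬ Ex κ c₁ X x y ∧ Dv g x y ∧ (De x y : ℝ) ≤ Z := by
            intro y hy
            rw [Finset.mem_filter] at hy ⊢
            obtain ⟨h3, h4, h5, -⟩ := hmA y (hm₁ y hy.1).1
            exact ⟨h3, h4, h5, hy.2⟩
          exact_mod_cast Finset.card_le_card this)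
        rcases Nat.lt_or_ge w g with hwg | hwg
        · -- `g > w`
          have h2 : (g : ℝ) * ∑ y ∈ A₁, (if g ∣ W then min 1 (κ₀ * (X : ℝ) ^ 2 / De x y) else 1) /
              (De x y : ℝ) ≤ g * ∑ y ∈ A₁, 1 / (De x y : ℝ) := by
            apply mul_le_mul_of_nonneg_left _ (by linarith)
            exact Finset.sum_le_sum fun y hy => hh y (hm₁ y hy).1
          refine h2.trans (h1.1.trans ?_)
          have h3 : 1 / (g : ℝ) ^ (k - 1) ≤ (1 / w) * (1 / (g : ℝ) ^ 2) := by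
            rw [one_div_mul_one_div]
            apply one_div_le_one_div_of_le (by positivity)
            have h4 : (g : ℝ) ^ 3 ≤ (g : ℝ) ^ (k - 1) := pow_le_pow_right₀ hgr (by omega)
            have h5 : (w : ℝ) ≤ g := by exact_mod_cast hwg.le
            calc (w : ℝ) * (g : ℝ) ^ 2 ≤ g * (g : ℝ) ^ 2 :=
                mul_le_mul_of_nonneg_right h5 (by positivity)
              _ = (g : ℝ) ^ 3 := by ring
              _ ≤ _ := h4
          have h4 : (1 / (w : ℝ)) * (1 / (g : ℝ) ^ 2) ≤ (√κ₀ + 1 / w) * (1 / (g : ℝ) ^ 2) := by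
            apply mul_le_mul_of_nonneg_right _ (by positivity)
            linarith [Real.sqrt_nonneg κ₀]
          calc D₁ * C₁ * (X : ℝ) ^ (k - 2) / ((g : ℝ) ^ (k - 1) * Real.log X) =
              D₁ * C₁ * (X : ℝ) ^ (k - 2) / Real.log X * (1 / (g : ℝ) ^ (k - 1)) := by
                field_simp
            _ ≤ D₁ * C₁ * (X : ℝ) ^ (k - 2) / Real.log X *
                ((√κ₀ + 1 / w) * (1 / (g : ℝ) ^ 2)) :=
                mul_le_mul_of_nonneg_left (h3.trans h4) (by positivity)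
            _ = _ := by ring
        · -- `g ≤ w`
          have hgW := hwW g hg.1 hwg
          have h2 : ∑ y ∈ A₁, (if g ∣ W then min 1 (κ₀ * (X : ℝ) ^ 2 / De x y) else 1) /
              (De x y : ℝ) = ∑ y ∈ A₁, min 1 (κ₀ * (X : ℝ) ^ 2 / De x y) / (De x y : ℝ) := by
            refine Finset.sum_congr rfl fun y _ => ?_
            rw [if_pos hgW]
          rw [h2]
          refine h1.2.trans ?_
          have h3 : 1 / (g : ℝ) ^ (k - 1) ≤ 1 / (g : ℝ) ^ 2 := by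
            apply one_div_le_one_div_of_le (by positivity)
            exact pow_le_pow_right₀ hgr (by omega)
          have h4 : √κ₀ ≤ √κ₀ + 1 / w := by
            have : (0 : ℝ) ≤ 1 / w := by positivity
            linarith
          have h5 : √κ₀ * (1 / (g : ℝ) ^ (k - 1)) ≤ (√κ₀ + 1 / w) * (1 / (g : ℝ) ^ 2) :=
            mul_le_mul h4 h3 (by positivity) (by positivity)
          calc D₁ * C₁ * √κ₀ * (X : ℝ) ^ (k - 2) / ((g : ℝ) ^ (k - 1) * Real.log X) =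
              D₁ * C₁ * (X : ℝ) ^ (k - 2) / Real.log X * (√κ₀ * (1 / (g : ℝ) ^ (k - 1))) := by
                field_simp
            _ ≤ D₁ * C₁ * (X : ℝ) ^ (k - 2) / Real.log X *
                ((√κ₀ + 1 / w) * (1 / (g : ℝ) ^ 2)) :=
                mul_le_mul_of_nonneg_left h5 (by positivity)
            _ = _ := by ring
      · have h1 := hb2 (A.filter (fun y => ¬ (X : ℝ) ^ 2 ≤ G * De x y))
          (Finset.filter_subset _ _) ((X : ℝ) ^ 2 / G) (by positivity) (by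
            intro y hy
            rw [Finset.mem_filter] at hy
            rw [le_div_iff₀ (by linarith)]
            linarith [not_le.1 hy.2])
        refine h1.trans ?_
        have h2 : ((X : ℝ) ^ 2 / G / (X * g)) ^ (k - 2) = (X : ℝ) ^ (k - 2) *
            (1 / (G * g : ℝ) ^ (k - 2)) := by
          have : (X : ℝ) ^ 2 / G / (X * g) = X * (1 / (G * g)) := by
            field_simp
          rw [this, mul_pow, one_div, one_div, inv_pow]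
        have h3 : 1 / (G * g : ℝ) ^ (k - 2) ≤ 1 / G * (1 / (g : ℝ) ^ 2) := by
          rw [one_div_mul_one_div]
          apply one_div_le_one_div_of_le (by positivity)
          have hGg1 : (1 : ℝ) ≤ G * g := by nlinarith
          have h4 : (G * g : ℝ) ^ 2 ≤ (G * g : ℝ) ^ (k - 2) := pow_le_pow_right₀ hGg1 (by omega)
          have h5 : (G : ℝ) * (g : ℝ) ^ 2 ≤ (G * g : ℝ) ^ 2 := by
            rw [mul_pow]
            apply mul_le_mul_of_nonneg_right _ (by positivity)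
            nlinarith
          exact h5.trans h4
        rw [h2]
        calc D₂ * C₂ * ((X : ℝ) ^ (k - 2) * (1 / (G * g : ℝ) ^ (k - 2))) =
            D₂ * C₂ * (X : ℝ) ^ (k - 2) * (1 / (G * g : ℝ) ^ (k - 2)) := by ring
          _ ≤ D₂ * C₂ * (X : ℝ) ^ (k - 2) * (1 / G * (1 / (g : ℝ) ^ 2)) :=
            mul_le_mul_of_nonneg_left h3 (by positivity)
          _ = _ := by ring
  refine (Finset.sum_le_sum hone).trans ?_
  rw [Finset.sum_add_distrib, ← Finset.mul_sum, ← Finset.mul_sum]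
  have hs1 := PSX_sum1 (2 * X) (by omega)
  have hs2 := PSX_sum2 G (2 * X) hG1 (by omega)
  have hM₁0 : 0 ≤ M₁ := by
    rw [hM₁]
    positivity
  have hM₂0 : 0 ≤ M₂ := by
    rw [hM₂]
    positivity
  have h1 := mul_le_mul_of_nonneg_left hs1 hM₁0
  have h2 := mul_le_mul_of_nonneg_left hs2 hM₂0
  refine (add_le_add h1 h2).trans ?_
  have e1 : M₁ * 2 + M₂ * (1 / G) = 2 * (D₁ * C₁) * (X : ℝ) ^ (k - 2) *
      ((√κ₀ + 1 / w) / Real.log X) + (2 + 2 ^ (k - 2)) * (D₂ * C₂) * (X : ℝ) ^ (k - 2) *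
      (1 / G) := by
    rw [hM₁, hM₂]
    ring
  rw [e1]
  have h3 : 0 ≤ (2 + 2 ^ (k - 2)) * (D₂ * C₂) * (X : ℝ) ^ (k - 2) *
      ((√κ₀ + 1 / w) / Real.log X) := by positivity
  have h4 : 0 ≤ 2 * (D₁ * C₁) * (X : ℝ) ^ (k - 2) * (1 / G) := by positivity
  have e2 : (2 * (D₁ * C₁) + (2 + 2 ^ (k - 2)) * (D₂ * C₂)) * (X : ℝ) ^ (k - 2) *
      ((√κ₀ + 1 / w) / Real.log X + 1 / G) = 2 * (D₁ * C₁) * (X : ℝ) ^ (k - 2) *
      ((√κ₀ + 1 / w) / Real.log X) + (2 + 2 ^ (k - 2)) * (D₂ * C₂) * (X : ℝ) ^ (k - 2) *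
      (1 / G) + (2 + 2 ^ (k - 2)) * (D₂ * C₂) * (X : ℝ) ^ (k - 2) *
      ((√κ₀ + 1 / w) / Real.log X) + 2 * (D₁ * C₁) * (X : ℝ) ^ (k - 2) * (1 / G) := by
    ring
  rw [e2]
  linarith

end Pool.FQ
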