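import Pool.Agent.Work.MP_9fb703_fq.Interface1

/-! # THEOREM FQ, block PTI: the coordinates are inverse to each other -/

set_option autoImplicit false

namespace Pool.FQ

open Finset
open Pool.GE

theorem PTI_inv {k : ℕ} {R : Type} [CommRing R] (A B : Fin (k + 2) → Fin (k + 2) → ℤ)
    (h : ∀ v w, ∑ i, A v i * B i w = if v = w then 1 else 0) (x : Fin (k + 2) → R) :
    pt A (pt B x) = x := by
  funext v
  unfold pt
  have h1 : ∀ w, ∑ i, (A v i : R) * (B i w : R) = if v = w then 1 else 0 := by
    intro w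
    have h2 := congrArg (fun n : ℤ => (n : R)) (h v w)
    simp only [Int.cast_sum, Int.cast_mul] at h2
    rw [h2]
    split_ifs <;> simp
  calc ∑ i, (A v i : R) * ∑ w, (B i w : R) * x w
      = ∑ w, (∑ i, (A v i : R) * (B i w : R)) * x w := by
        simp only [Finset.mul_sum, Finset.sum_mul]
        rw [Finset.sum_comm]
        refine Finset.sum_congr rfl fun w _ => Finset.sum_congr rfl fun i _ => ?_
        ring
    _ = x v := by
        simp only [h1]
        simp

theorem p_PTI : Stmt_PTI := by
  intro k c κ hκ R _ x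
  have h1 : pt κ.M (pt κ.I x) = x := PTI_inv κ.M κ.I hκ.inv2 x
  refine ⟨h1, PTI_inv κ.I κ.M hκ.inv1 x, ?_⟩
  have h2 := hκ.form R (pt κ.I x)
  rwa [h1] at h2

end Pool.FQ
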