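import Pool.Agent.Work.MP_9fb703_fq.Interface2

/-! # Intersections of a fixed quadric with almost all quadrics: block PXQ -/

set_option autoImplicit false

namespace Pool.FQ

open Filter

theorem PXQ_root (B : ℝ) (d : ℕ) (hd : d ≠ 0) (hB : 1 ≤ B) :
    ∃ X : ℕ, 1 ≤ X ∧ (X : ℝ) ^ d ≤ B ∧ B ≤ (2 * (X : ℝ)) ^ d ∧
      (∀ Y : ℕ, (Y : ℝ) ^ d ≤ B → Y ≤ X) ∧ B ^ ((d : ℝ)⁻¹) ≤ 2 * X := by
  have hB0 : 0 ≤ B := zero_le_one.trans hB
  have hx0 : 0 ≤ B ^ ((d : ℝ)⁻¹) := Real.rpow_nonneg hB0 _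
  have hxd : (B ^ ((d : ℝ)⁻¹)) ^ d = B := Real.rpow_inv_natCast_pow hB0 hd
  have hY : ∀ Y : ℕ, (Y : ℝ) ^ d ≤ B → Y ≤ ⌊B ^ ((d : ℝ)⁻¹)⌋₊ := by
    intro Y hY
    apply Nat.le_floor
    rw [← hxd] at hY
    exact (pow_le_pow_iff_left₀ (Nat.cast_nonneg _) hx0 hd).1 hY
  have h1 : 1 ≤ ⌊B ^ ((d : ℝ)⁻¹)⌋₊ := hY 1 (by simpa using hB)
  have h2 : B ^ ((d : ℝ)⁻¹) ≤ 2 * (⌊B ^ ((d : ℝ)⁻¹)⌋₊ : ℝ) := by
    have h3 := Nat.lt_floor_add_one (B ^ ((d : ℝ)⁻¹))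
    have h4 : (1 : ℝ) ≤ (⌊B ^ ((d : ℝ)⁻¹)⌋₊ : ℝ) := by exact_mod_cast h1
    linarith
  refine ⟨_, h1, ?_, ?_, hY, h2⟩
  · exact (pow_le_pow_left₀ (Nat.cast_nonneg _) (Nat.floor_le hx0) _).trans hxd.le
  · exact hxd.symm.le.trans (pow_le_pow_left₀ hx0 h2 _)

theorem PXQ_log3 (η : ℝ) (hη : 0 < η) : ∃ X₁ : ℕ, ∀ X : ℕ, X₁ ≤ X → 1 ≤ X →
    Real.log X ^ 3 ≤ η / 2 * (X : ℝ) ^ (((16 : ℕ) : ℝ)⁻¹) := by
  have e := (isLittleO_log_rpow_rpow_atTop 3 (show (0 : ℝ) < ((16 : ℕ) : ℝ)⁻¹ by norm_num)).bound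
    (show 0 < η / 2 by positivity)
  obtain ⟨X₁, hX₁⟩ := eventually_atTop.1 ((tendsto_natCast_atTop_atTop (R := ℝ)).eventually e)
  refine ⟨X₁, fun X hX h1 => ?_⟩
  have h := hX₁ X hX
  have h0 : 0 ≤ Real.log X := Real.log_natCast_nonneg _
  rw [Real.norm_of_nonneg (Real.rpow_nonneg h0 _),
    Real.norm_of_nonneg (Real.rpow_nonneg (Nat.cast_nonneg _) _)] at h
  have h3 : Real.log (X : ℝ) ^ (3 : ℝ) = Real.log X ^ 3 := by
    rw [← Real.rpow_natCast]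
    norm_num
  rwa [h3] at h

theorem PXQ_A (c1 c2 c3 : ℝ) (h2 : 0 < c2) : ∃ A₁ : ℕ, ∀ A : ℕ, A₁ ≤ A →
    c1 ≤ Real.log A ∧ (Real.log A + 1) * c2 ≤ Real.sqrt A ∧ c3 ≤ A := by
  have e1 := (Real.tendsto_log_atTop.comp (tendsto_natCast_atTop_atTop (R := ℝ))).eventually_ge_atTop
    (max c1 1)
  have e2 := (tendsto_natCast_atTop_atTop (R := ℝ)).eventually
    ((isLittleO_log_rpow_atTop (show (0 : ℝ) < 1 / 2 by norm_num)).bound
      (show 0 < 1 / (2 * c2) by positivity))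
  have e3 := (tendsto_natCast_atTop_atTop (R := ℝ)).eventually_ge_atTop c3
  obtain ⟨A₁, hA₁⟩ := eventually_atTop.1 (e1.and (e2.and e3))
  refine ⟨A₁, fun A hA => ?_⟩
  obtain ⟨g1, g2, g3⟩ := hA₁ A hA
  have g4 : c1 ≤ Real.log A := (le_max_left _ _).trans g1
  have g5 : 1 ≤ Real.log A := (le_max_right _ _).trans g1
  refine ⟨g4, ?_, g3⟩
  rw [Real.norm_of_nonneg (zero_le_one.trans g5),
    Real.norm_of_nonneg (Real.rpow_nonneg (Nat.cast_nonneg _) _), ← Real.sqrt_eq_rpow] at g2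
  have g6 : Real.log A * (2 * c2) ≤ Real.sqrt A := by
    have h := mul_le_mul_of_nonneg_right g2 (show 0 ≤ 2 * c2 by positivity)
    refine h.trans (le_of_eq ?_)
    field_simp
  nlinarith

theorem p_PXQ : Stmt_PXQ := by
  intro k C₀ η X₀ hk hC hη
  obtain ⟨d, rfl⟩ : ∃ d, k = d + 2 := ⟨k - 2, by omega⟩
  have hd : 2 ≤ d := by omega
  have hd0 : d ≠ 0 := by omega
  have hdR : (2 : ℝ) ≤ d := by exact_mod_cast hd
  obtain ⟨X₁, hX₁⟩ := PXQ_log3 η hη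
  obtain ⟨X₂, hX₂⟩ : ∃ X₂ : ℕ, X₂ = max X₀ (max X₁ (max 3 ⌈Real.exp (C₀ + 1)⌉₊)) := ⟨_, rfl⟩
  obtain ⟨q, hq⟩ : ∃ q : ℝ, q = d + 4 := ⟨_, rfl⟩
  have hq0 : 0 < q := by rw [hq]; positivity
  obtain ⟨A₁, hA₁⟩ := PXQ_A (1 + (d + 1) * d * Real.log 2 + 2 * q * C₀ * (d + 1) ^ (d + 2))
    (2 * q) ((X₂ : ℝ) ^ d + 4) (by positivity)
  refine ⟨A₁, fun A hA => ?_⟩
  obtain ⟨a1, a2, a3⟩ := hA₁ A hA
  have hlog2 : 0 < Real.log 2 := Real.log_pos one_lt_two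
  have hp1 : 0 ≤ (d + 1) * d * Real.log 2 := by positivity
  have hp2 : 0 ≤ 2 * q * C₀ * (d + 1) ^ (d + 2) := by
    have : 0 ≤ C₀ := by linarith
    positivity
  have hX20 : 0 ≤ (X₂ : ℝ) ^ d := by positivity
  have hA4 : (4 : ℝ) ≤ A := by linarith
  have hA0 : (0 : ℝ) < A := by linarith
  obtain ⟨L, hL⟩ : ∃ L, L = Real.log A := ⟨_, rfl⟩
  obtain ⟨s, hs⟩ : ∃ s, s = Real.sqrt A := ⟨_, rfl⟩
  rw [← hL] at a1 a2
  rw [← hs] at a2
  have hL1 : 1 ≤ L := by linarith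
  have hs0 : 0 ≤ s := by rw [hs]; exact Real.sqrt_nonneg _
  have hss : s ^ 2 = A := by rw [hs]; exact Real.sq_sqrt hA0.le
  have hLs : L ≤ s := by
    have : (L + 1) * 1 ≤ (L + 1) * (2 * q) :=
      mul_le_mul_of_nonneg_left (by rw [hq]; linarith) (by linarith)
    linarith
  have hq4 : 4 ≤ q := by rw [hq]; linarith
  have hsq : 2 * q ≤ s := by
    have : 0 ≤ L * (2 * q) := by positivity
    linarith
  have hs1 : 1 ≤ s := by linarith
  -- the size of X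
  have hB1 : 1 ≤ (A : ℝ) * L ^ 2 := by
    have : 1 ≤ L ^ 2 := one_le_pow₀ hL1
    nlinarith
  have hAB : (A : ℝ) ≤ A * L ^ 2 := by
    have : 1 ≤ L ^ 2 := one_le_pow₀ hL1
    nlinarith
  obtain ⟨X, hX1, hXB, hBX, hXm, -⟩ := PXQ_root ((A : ℝ) * L ^ 2) d hd0 hB1
  have hX2X : X₂ ≤ X := hXm X₂ (by linarith)
  have hXX0 : X₀ ≤ X := ((le_max_left _ _).trans hX₂.symm.le).trans hX2X
  have hXX1 : X₁ ≤ X :=
    (((le_max_left _ _).trans (le_max_right _ _)).trans hX₂.symm.le).trans hX2X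
  have hX3 : 3 ≤ X :=
    (((le_max_left 3 _).trans ((le_max_right _ _).trans (le_max_right _ _))).trans
      hX₂.symm.le).trans hX2X
  have hXe : ⌈Real.exp (C₀ + 1)⌉₊ ≤ X :=
    (((le_max_right 3 _).trans ((le_max_right _ _).trans (le_max_right _ _))).trans
      hX₂.symm.le).trans hX2X
  have hXR : (3 : ℝ) ≤ X := by exact_mod_cast hX3
  have hXR0 : (0 : ℝ) < X := by linarith
  have hXsL : (X : ℝ) ≤ s * L := by
    have h1 : (X : ℝ) ^ 2 ≤ (s * L) ^ 2 := by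
      calc (X : ℝ) ^ 2 ≤ (X : ℝ) ^ d := pow_le_pow_right₀ (by linarith) hd
        _ ≤ A * L ^ 2 := hXB
        _ = (s * L) ^ 2 := by rw [mul_pow, hss]
    exact (pow_le_pow_iff_left₀ hXR0.le (by positivity) two_ne_zero).1 h1
  have hXA : (X : ℝ) ≤ A := by
    have : s * L ≤ s * s := mul_le_mul_of_nonneg_left hLs hs0
    rw [← hss, sq]
    linarith
  obtain ⟨ℓ, hℓ⟩ : ∃ ℓ, ℓ = Real.log X := ⟨_, rfl⟩
  have hℓC : C₀ + 1 ≤ ℓ := by
    rw [hℓ, Real.le_log_iff_exp_le hXR0]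
    exact (Nat.le_ceil _).trans (by exact_mod_cast hXe)
  have hℓ0 : 0 < ℓ := by linarith
  have hℓL : ℓ ≤ L := by
    rw [hℓ, hL]
    exact Real.log_le_log hXR0 hXA
  have hlow : L ≤ (d + 1) * ℓ := by
    have h1 : L ≤ d * (Real.log 2 + ℓ) := by
      rw [hL, hℓ, ← Real.log_mul two_ne_zero hXR0.ne', ← Real.log_pow]
      exact Real.log_le_log hA0 (hAB.trans hBX)
    have h2 : (d + 1) * (d * Real.log 2) ≤ L := by
      have : ((d : ℝ) + 1) * (d * Real.log 2) = (d + 1) * d * Real.log 2 := by ring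
      linarith
    have hdp : (0 : ℝ) < d := by linarith
    have h3 : d * L ≤ d * ((d + 1) * ℓ) := by nlinarith
    exact le_of_mul_le_mul_left h3 hdp
  -- G
  obtain ⟨G, hG1, hGX, -, -, hG2⟩ := PXQ_root (X : ℝ) 16 (by norm_num) (by linarith)
  have hG3 : Real.log X ^ 3 ≤ η * G := by
    have h := hX₁ X hXX1 hX1
    have h' : η / 2 * (X : ℝ) ^ (((16 : ℕ) : ℝ)⁻¹) ≤ η / 2 * (2 * G) :=
      mul_le_mul_of_nonneg_left hG2 (by positivity)
    linarith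
  -- K
  have hsq0 : 1 ≤ s / q := by
    rw [le_div_iff₀ hq0]
    linarith
  obtain ⟨K₀, hK₀⟩ : ∃ K₀ : ℕ, K₀ = ⌊s / q⌋₊ := ⟨_, rfl⟩
  have hK01 : 1 ≤ K₀ := by
    rw [hK₀]
    exact Nat.le_floor (by simpa using hsq0)
  have hK0u : (K₀ : ℝ) ≤ s / q := by
    rw [hK₀]
    exact Nat.floor_le (by positivity)
  have hK0l : s / (2 * q) ≤ K₀ := by
    have h1 := Nat.lt_floor_add_one (s / q)
    rw [← hK₀] at h1
    have h2 : (1 : ℝ) ≤ K₀ := by exact_mod_cast hK01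
    have h3 : s / (2 * q) = s / q / 2 := by field_simp
    rw [h3]
    linarith
  have hKs : (min X K₀ : ℕ) * q ≤ s := by
    have h1 : ((min X K₀ : ℕ) : ℝ) ≤ K₀ := by exact_mod_cast min_le_right _ _
    calc ((min X K₀ : ℕ) : ℝ) * q ≤ s / q * q := mul_le_mul_of_nonneg_right (h1.trans hK0u) hq0.le
      _ = s := by field_simp
  have hceil : ⌈Real.log X⌉₊ ≤ min X K₀ := by
    rw [Nat.ceil_le, ← hℓ]
    rw [Nat.cast_min, le_min_iff]
    constructor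
    · rw [hℓ]
      exact (Real.log_le_sub_one_of_pos hXR0).trans (by linarith)
    · refine le_trans ?_ hK0l
      rw [le_div_iff₀ (by positivity)]
      have : ℓ * (2 * q) ≤ L * (2 * q) := mul_le_mul_of_nonneg_right hℓL (by positivity)
      have h2 : 0 ≤ 2 * q := by positivity
      linarith
  have hce0 : (ℓ : ℝ) ≤ (⌈Real.log X⌉₊ : ℝ) := by
    rw [hℓ]
    exact Nat.le_ceil _
  refine ⟨X, min X K₀, G, hXX0, hX3, ?_, ?_, hG1, by exact_mod_cast hGX, hG3, le_min hX1 hK01,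
    min_le_left _ _, by exact_mod_cast hA4, ?_, ?_, ?_, hceil, ?_⟩
  · rw [← hL]
    exact hXB
  · rw [← hL]
    unfold Lq
    rw [← hℓ, Nat.add_sub_cancel, ← mul_div_assoc, le_div_iff₀ (by positivity)]
    have h1 : (2 * (X : ℝ)) ^ d ≤ 2 ^ (d + 2) * (X : ℝ) ^ d := by
      rw [mul_pow]
      exact mul_le_mul_of_nonneg_right (pow_le_pow_right₀ (by norm_num) (by omega))
        (by positivity)
    calc L * (A * ℓ) ≤ L * (A * L) := by gcongr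
      _ = A * L ^ 2 := by ring
      _ ≤ (2 * (X : ℝ)) ^ d := hBX
      _ ≤ _ := h1
  · have h : (((d + 2 + 2) * min X K₀ : ℕ) : ℝ) ≤ A := by
      push_cast [hq] at hKs ⊢
      rw [← hss]
      nlinarith
    exact_mod_cast h
  · have h : (((d + 2 + 2) ^ 2 * min X K₀ ^ 2 : ℕ) : ℝ) ≤ A := by
      have h1 : (((min X K₀ : ℕ) : ℝ) * q) ^ 2 ≤ s ^ 2 :=
        pow_le_pow_left₀ (by positivity) hKs 2
      rw [hss] at h1
      refine le_trans (le_of_eq ?_) h1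
      rw [hq]
      push_cast
      ring
    exact_mod_cast h
  · exact Nat.one_le_ceil_iff.2 (by rw [← hℓ]; exact hℓ0)
  · have hce1 : 1 ≤ (⌈Real.log X⌉₊ : ℝ) := by
      have : (1 : ℝ) ≤ ℓ := by linarith
      linarith
    rcases le_total X K₀ with hc | hc
    · rw [min_eq_left hc, mul_comm]
      refine mul_lt_mul_of_pos_left ?_ hXR0
      calc C₀ < ℓ := by linarith
        _ ≤ (⌈Real.log X⌉₊ : ℝ) := hce0
        _ ≤ (⌈Real.log X⌉₊ : ℝ) ^ (d + 2) := le_self_pow₀ hce1 (by omega)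
    · rw [min_eq_right hc]
      have hd1 : (0 : ℝ) < (d + 1) ^ (d + 2) := by positivity
      have h1 : L ^ (d + 2) ≤ (d + 1) ^ (d + 2) * (⌈Real.log X⌉₊ : ℝ) ^ (d + 2) := by
        rw [← mul_pow]
        refine pow_le_pow_left₀ (by linarith) (hlow.trans ?_) _
        exact mul_le_mul_of_nonneg_left hce0 (by positivity)
      have h2 : L ^ 2 ≤ L ^ (d + 2) := pow_le_pow_right₀ hL1 (by omega)
      have h3 : 2 * q * C₀ * (d + 1) ^ (d + 2) < L := by linarith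
      have h4 : C₀ * (s * L) < s / (2 * q) * (⌈Real.log X⌉₊ : ℝ) ^ (d + 2) := by
        have h5 : 2 * q * C₀ * (d + 1) ^ (d + 2) * L <
            (d + 1) ^ (d + 2) * (⌈Real.log X⌉₊ : ℝ) ^ (d + 2) := by
          calc 2 * q * C₀ * (d + 1) ^ (d + 2) * L < L * L :=
                mul_lt_mul_of_pos_right h3 (by linarith)
            _ = L ^ 2 := by ring
            _ ≤ _ := h2.trans h1
        have h6 : 2 * q * C₀ * L < (⌈Real.log X⌉₊ : ℝ) ^ (d + 2) := by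
          refine lt_of_mul_lt_mul_left (a := ((d : ℝ) + 1) ^ (d + 2)) ?_ hd1.le
          refine lt_of_eq_of_lt ?_ h5
          ring
        calc C₀ * (s * L) = s / (2 * q) * (2 * q * C₀ * L) := by field_simp
          _ < _ := mul_lt_mul_of_pos_left h6 (by positivity)
      calc C₀ * (X : ℝ) ≤ C₀ * (s * L) := mul_le_mul_of_nonneg_left hXsL (by linarith)
        _ < _ := h4
        _ ≤ _ := mul_le_mul_of_nonneg_right hK0l (by positivity)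

end Pool.FQ
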