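import Pool.Agent.Work.MP_9fb703_fq.Interface1

/-!
# Block R3C: planes of small height, all pairs
-/

set_option autoImplicit false

namespace Pool.FQ

open Finset
open Pool.GE

/-- the number of vectors in a face of the boundary of a cube -/
theorem R3C_face (k : ℕ) (v₀ : Fin (k + 2)) (j : ℕ) (S : Finset (Fin (k + 2) → ℤ))
    (hS : ∀ z ∈ S, |z v₀| = j ∧ sn z ≤ j) : S.card ≤ 2 * (2 * j + 1) ^ (k + 1) := by
  classical
  let f : Fin (k + 2) → Finset ℤ := fun v =>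
    if v = v₀ then {(j : ℤ), -(j : ℤ)} else Finset.Icc (-(j : ℤ)) j
  have hsub : S ⊆ Fintype.piFinset f := by
    intro z hz
    obtain ⟨h1, h2⟩ := hS z hz
    rw [Fintype.mem_piFinset]
    intro v
    by_cases hv : v = v₀
    · subst hv
      simp only [f, if_true, Finset.mem_insert, Finset.mem_singleton]
      rcases abs_choice (z v) with h | h <;> omega
    · have h3 : (z v).natAbs ≤ j := le_trans
        (Finset.le_sup (f := fun v => (z v).natAbs) (Finset.mem_univ v)) h2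
      simp only [f, if_neg hv, Finset.mem_Icc]
      omega
  refine (Finset.card_le_card hsub).trans ?_
  rw [Fintype.card_piFinset, ← Finset.mul_prod_erase Finset.univ _ (Finset.mem_univ v₀)]
  have h1 : (f v₀).card ≤ 2 := by
    simp only [f, if_true]
    exact Finset.card_le_two
  have h2 : ∏ v ∈ Finset.univ.erase v₀, (f v).card = (2 * j + 1) ^ (k + 1) := by
    have h3 : ∀ v ∈ Finset.univ.erase v₀, (f v).card = 2 * j + 1 := by
      intro v hv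
      have hv' : v ≠ v₀ := (Finset.mem_erase.mp hv).1
      simp only [f, if_neg hv', Int.card_Icc]
      omega
    rw [Finset.prod_congr rfl h3, Finset.prod_const, Finset.card_erase_of_mem (Finset.mem_univ v₀)]
    simp
  rw [h2]
  exact Nat.mul_le_mul_right _ h1

/-- the sum over the boundary faces of the cubes -/
theorem R3C_shell (k M : ℕ) (B : Finset (Fin (k + 2) × (Fin (k + 2) → ℤ)))
    (hB : ∀ b ∈ B, 1 ≤ sn b.2 ∧ |b.2 b.1| = sn b.2 ∧ sn b.2 ≤ M) :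
    ∑ b ∈ B, 1 / (sn b.2 : ℝ) ^ k ≤ (((k : ℝ) + 2) * M) * (2 * 3 ^ (k + 1) * M) := by
  classical
  have hmap : ∀ b ∈ B, (b.1, sn b.2) ∈
      ((Finset.univ : Finset (Fin (k + 2))) ×ˢ Finset.Icc 1 M) := by
    intro b hb
    obtain ⟨h1, -, h3⟩ := hB b hb
    simp only [Finset.mem_product, Finset.mem_univ, Finset.mem_Icc, true_and]
    exact ⟨h1, h3⟩
  rw [← Finset.sum_fiberwise_of_maps_to hmap]
  have hin : ∀ q ∈ ((Finset.univ : Finset (Fin (k + 2))) ×ˢ Finset.Icc 1 M),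
      ∑ b ∈ B.filter (fun b => (b.1, sn b.2) = q), 1 / (sn b.2 : ℝ) ^ k ≤
        2 * 3 ^ (k + 1) * (M : ℝ) := by
    rintro ⟨v, j⟩ hq
    simp only [Finset.mem_product, Finset.mem_univ, Finset.mem_Icc, true_and] at hq
    obtain ⟨hj1, hjM⟩ := hq
    have hterm : ∀ b ∈ B.filter (fun b => (b.1, sn b.2) = (v, j)),
        1 / (sn b.2 : ℝ) ^ k = 1 / (j : ℝ) ^ k := by
      intro b hb
      have h := (Finset.mem_filter.mp hb).2
      rw [Prod.mk.injEq] at h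
      rw [h.2]
    rw [Finset.sum_congr rfl hterm, Finset.sum_const, nsmul_eq_mul]
    have hcard : (B.filter (fun b => (b.1, sn b.2) = (v, j))).card ≤
        2 * (2 * j + 1) ^ (k + 1) := by
      have himg : (B.filter (fun b => (b.1, sn b.2) = (v, j))).card =
          ((B.filter (fun b => (b.1, sn b.2) = (v, j))).image Prod.snd).card := by
        rw [Finset.card_image_of_injOn]
        rintro ⟨a, x⟩ ha ⟨b, y⟩ hb hxy
        have h1 := (Finset.mem_filter.mp (Finset.mem_coe.mp ha)).2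
        have h2 := (Finset.mem_filter.mp (Finset.mem_coe.mp hb)).2
        simp only [Prod.mk.injEq] at h1 h2 hxy ⊢
        exact ⟨h1.1.trans h2.1.symm, hxy⟩
      rw [himg]
      refine R3C_face k v j _ fun z hz => ?_
      obtain ⟨b, hb, rfl⟩ := Finset.mem_image.mp hz
      obtain ⟨hb1, hb2⟩ := Finset.mem_filter.mp hb
      rw [Prod.mk.injEq] at hb2
      obtain ⟨-, h2, -⟩ := hB b hb1
      rw [hb2.1, hb2.2] at h2
      exact ⟨h2, hb2.2.le⟩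
    have hj : (1 : ℝ) ≤ j := by exact_mod_cast hj1
    have hjM' : (j : ℝ) ≤ M := by exact_mod_cast hjM
    have hjk : (0 : ℝ) < (j : ℝ) ^ k := by positivity
    have hcard' : (((B.filter (fun b => (b.1, sn b.2) = (v, j))).card : ℕ) : ℝ) ≤
        2 * (3 * (j : ℝ)) ^ (k + 1) := by
      have h1 : (((B.filter (fun b => (b.1, sn b.2) = (v, j))).card : ℕ) : ℝ) ≤
          ((2 * (2 * j + 1) ^ (k + 1) : ℕ) : ℝ) := by exact_mod_cast hcard
      refine h1.trans ?_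
      push_cast
      have h2 : (2 * (j : ℝ) + 1) ^ (k + 1) ≤ (3 * (j : ℝ)) ^ (k + 1) :=
        pow_le_pow_left₀ (by positivity) (by linarith) _
      linarith
    rw [mul_one_div, div_le_iff₀ hjk]
    refine hcard'.trans ?_
    rw [mul_pow, pow_succ (j : ℝ) k]
    have h3 : (0 : ℝ) < 3 ^ (k + 1) := by positivity
    have h4 : (3 : ℝ) ^ (k + 1) * ((j : ℝ) ^ k * j) ≤ 3 ^ (k + 1) * ((j : ℝ) ^ k * M) := by gcongr
    nlinarith [h4]
  refine (Finset.sum_le_sum hin).trans (le_of_eq ?_)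
  rw [Finset.sum_const, Finset.card_product, Finset.card_univ, Fintype.card_fin, Nat.card_Icc,
    nsmul_eq_mul]
  push_cast
  simp

/-- a minor is at most the largest minor -/
theorem R3C_om (k : ℕ) (z w : Fin (k + 2) → ℤ) (u v : Fin (k + 2)) :
    |((om z w u v : ℤ) : ℝ)| ≤ De z w := by
  have h : (om z w u v).natAbs ≤ De z w :=
    Finset.le_sup (f := fun q : Fin (k + 2) × Fin (k + 2) => (om z w q.1 q.2).natAbs)
      (Finset.mem_univ (u, v))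
  rw [← Int.cast_abs, Int.abs_eq_natAbs]
  exact_mod_cast h

/-- the sum over the vectors `w` for given `z`, `v₀` -/
theorem R3C_inner (hTBW : Stmt_TBW) (k : ℕ) (CD : ℝ)
    (hD : ∀ (α : Type) (S : Finset α) (D : α → ℝ) (c Q κ Z₀ : ℝ),
      0 < Z₀ → 0 ≤ Q → 0 ≤ c → 0 < κ → (∀ y ∈ S, Z₀ ≤ D y ∧ D y ≤ Q) →
      (∀ Z : ℝ, Z₀ ≤ Z → ((S.filter fun y => D y ≤ Z).card : ℝ) ≤ c * Z ^ (k + 1)) →
      ∑ y ∈ S, 1 / D y ^ 3 ≤ CD * c * Q ^ (k + 1 - 3))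
    (D₁ : ℝ) (hD1 : 1 ≤ D₁) (z : Fin (k + 2) → ℤ) (v₀ : Fin (k + 2)) (hz1 : 1 ≤ sn z)
    (hz2 : |z v₀| = sn z) (S : Finset (Fin (k + 2) → ℤ))
    (hS : ∀ w ∈ S, 0 ≤ w v₀ ∧ w v₀ < sn z ∧ sn z ^ 2 ≤ 2 * De z w ∧ (De z w : ℝ) < D₁) :
    ∑ w ∈ S, 1 / (De z w : ℝ) ^ 3 ≤
      CD * (4 ^ (k + 1) / (sn z : ℝ) ^ k) * D₁ ^ (k + 1 - 3) := by
  classical
  have hs : (1 : ℝ) ≤ sn z := by exact_mod_cast hz1
  have hs0 : (0 : ℝ) < sn z := by linarith
  refine hD _ S (fun w => (De z w : ℝ)) _ D₁ 1 ((sn z : ℝ) ^ 2 / 2) (by positivity)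
    (by linarith) (by positivity) one_pos ?_ ?_
  · intro w hw
    obtain ⟨-, -, h3, h4⟩ := hS w hw
    have h5 : ((sn z : ℝ)) ^ 2 ≤ 2 * De z w := by exact_mod_cast h3
    exact ⟨by linarith, h4.le⟩
  · intro Z hZ
    have hZ0 : 0 ≤ Z := le_trans (by positivity) hZ
    have h := hTBW (Fin (k + 2)) z v₀ Z hz2 hz1 hZ0 (S.filter fun y => (De z y : ℝ) ≤ Z)
      (fun w hw => by
        obtain ⟨hw1, hw2⟩ := Finset.mem_filter.mp hw
        obtain ⟨h1, h2, -, -⟩ := hS w hw1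
        exact ⟨h1, h2, fun v => (R3C_om k z w v₀ v).trans hw2⟩)
    rw [Fintype.card_fin] at h
    refine h.trans ?_
    have h1 : 2 * Z / sn z + 1 ≤ 4 * Z / sn z := by
      rw [div_add_one hs0.ne', div_le_div_iff_of_pos_right hs0]
      nlinarith
    have h2 : (2 * Z / sn z + 1) ^ (k + 1) ≤ (4 * Z / sn z) ^ (k + 1) :=
      pow_le_pow_left₀ (by positivity) h1 _
    have h3 : (sn z : ℝ) * (4 * Z / sn z) ^ (k + 1) = 4 ^ (k + 1) / (sn z : ℝ) ^ k * Z ^ (k + 1) := by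
      rw [div_pow, mul_pow, pow_succ (sn z : ℝ) k]
      field_simp
    calc (sn z : ℝ) * (2 * Z / sn z + 1) ^ (k + 2 - 1) ≤ (sn z : ℝ) * (4 * Z / sn z) ^ (k + 1) :=
          mul_le_mul_of_nonneg_left h2 hs0.le
      _ = _ := h3

theorem p_R3C (hSHV : Stmt_SHV) (hTBW : Stmt_TBW) (hLPT : Stmt_LPT)
    (hDYR : Pool.GR.Stmt_DYR) : Stmt_R3C := by
  classical
  intro k hk
  obtain ⟨CD, hCD1, hD⟩ := hDYR (k + 1) 3 (by norm_num) (by omega)
  have hC4 : (1 : ℝ) ≤ 4 ^ (k + 1) := one_le_pow₀ (by norm_num)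
  have hC3 : (1 : ℝ) ≤ 3 ^ (k + 1) := one_le_pow₀ (by norm_num)
  have hk0 : (0 : ℝ) ≤ k := Nat.cast_nonneg k
  refine ⟨225 * (CD * 4 ^ (k + 1)) * (((k : ℝ) + 2) * (2 * 3 ^ (k + 1)) * 2), ?_, ?_⟩
  · have h1 : (1 : ℝ) ≤ CD * 4 ^ (k + 1) := one_le_mul_of_one_le_of_one_le hCD1 hC4
    have h2 : (1 : ℝ) ≤ ((k : ℝ) + 2) * (2 * 3 ^ (k + 1)) :=
      one_le_mul_of_one_le_of_one_le (by linarith) (by linarith)
    nlinarith [one_le_mul_of_one_le_of_one_le h1 h2]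
  intro X D₁ hX hD1 hDX
  have hX1 : (1 : ℝ) ≤ X := by exact_mod_cast hX
  have hS : ∀ x y : Fin (k + 2) → ℤ, Prm x ∧ ¬ Par x y →
    ∃ (z w : Fin (k + 2) → ℤ) (v₀ : Fin (k + 2)), 1 ≤ sn z ∧ |z v₀| = sn z ∧ 0 ≤ w v₀ ∧
      w v₀ < sn z ∧ sn z ^ 2 ≤ 2 * De z w ∧ De x y = ct x y * De z w ∧ 0 < ct x y ∧
      (∃ α β : ℤ, ∀ v, x v = α * z v + β * w v) ∧ ∃ α β : ℤ, ∀ v, y v = α * z v + β * w v :=
    fun x y h => hSHV (Fin (k + 2)) x y h.1 h.2
  choose! fz fw fv hf using hS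
  let P : Finset ((Fin (k + 2) → ℤ) × (Fin (k + 2) → ℤ)) :=
    ((Pf k X) ×ˢ (Pf k X)).filter
      fun p => ¬ Par p.1 p.2 ∧ (De p.1 p.2 : ℝ) < D₁ * ct p.1 p.2
  let F : (Fin (k + 2) → ℤ) × (Fin (k + 2) → ℤ) →
      Fin (k + 2) × (Fin (k + 2) → ℤ) × (Fin (k + 2) → ℤ) :=
    fun p => (fv p.1 p.2, fz p.1 p.2, fw p.1 p.2)
  -- the facts
  have hPf : ∀ x ∈ Pf k X, Prm x ∧ sn x ≤ X := by
    intro x hx
    obtain ⟨h1, h2, -⟩ := Finset.mem_filter.mp hx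
    refine ⟨h2, Finset.sup_le fun v _ => ?_⟩
    have h3 := (Finset.mem_Icc.mp ((Fintype.mem_piFinset.mp h1) v))
    omega
  have hP : ∀ p ∈ P, p.1 ∈ Pf k X ∧ p.2 ∈ Pf k X ∧ ¬ Par p.1 p.2 ∧
      (De p.1 p.2 : ℝ) < D₁ * ct p.1 p.2 := by
    intro p hp
    obtain ⟨h1, h2, h3⟩ := Finset.mem_filter.mp hp
    obtain ⟨h4, h5⟩ := Finset.mem_product.mp h1
    exact ⟨h4, h5, h2, h3⟩
  have hgood : ∀ t ∈ P.image F, 1 ≤ sn t.2.1 ∧ |t.2.1 t.1| = sn t.2.1 ∧ 0 ≤ t.2.2 t.1 ∧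
      t.2.2 t.1 < sn t.2.1 ∧ sn t.2.1 ^ 2 ≤ 2 * De t.2.1 t.2.2 ∧
      (De t.2.1 t.2.2 : ℝ) < D₁ := by
    intro t ht
    obtain ⟨p, hp, rfl⟩ := Finset.mem_image.mp ht
    obtain ⟨h1, h2, h3, h4⟩ := hP p hp
    obtain ⟨g1, g2, g3, g4, g5, g6, g7, -, -⟩ := hf p.1 p.2 ⟨(hPf _ h1).1, h3⟩
    refine ⟨g1, g2, g3, g4, g5, ?_⟩
    have g7' : (0 : ℝ) < ct p.1 p.2 := by exact_mod_cast g7
    rw [g6] at h4
    push_cast at h4
    change (De (fz p.1 p.2) (fw p.1 p.2) : ℝ) < D₁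
    nlinarith
  have hDpos : ∀ t ∈ P.image F, (0 : ℝ) < De t.2.1 t.2.2 ∧ (sn t.2.1 : ℝ) ^ 2 ≤ 2 * D₁ := by
    intro t ht
    obtain ⟨g1, -, -, -, g5, g6⟩ := hgood t ht
    have h1 : 0 < De t.2.1 t.2.2 := by
      have : 1 ≤ sn t.2.1 ^ 2 := Nat.one_le_pow _ _ g1
      omega
    have h2 : ((sn t.2.1 : ℝ)) ^ 2 ≤ 2 * De t.2.1 t.2.2 := by exact_mod_cast g5
    exact ⟨by exact_mod_cast h1, by linarith⟩
  -- step 0: the sum over the pairs
  have h0 : ∑ x ∈ Pf k X, ∑ y ∈ (Pf k X).filter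
      (fun y => ¬ Par x y ∧ (De x y : ℝ) < D₁ * ct x y), (ct x y : ℝ) / De x y =
      ∑ p ∈ P, 1 / (De (F p).2.1 (F p).2.2 : ℝ) := by
    have h1 : ∑ x ∈ Pf k X, ∑ y ∈ (Pf k X).filter
        (fun y => ¬ Par x y ∧ (De x y : ℝ) < D₁ * ct x y), (ct x y : ℝ) / De x y =
        ∑ p ∈ P, (ct p.1 p.2 : ℝ) / De p.1 p.2 := by
      simp only [P]
      rw [Finset.sum_filter, Finset.sum_product]
      refine Finset.sum_congr rfl fun x _ => ?_
      rw [Finset.sum_filter]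
    rw [h1]
    refine Finset.sum_congr rfl fun p hp => ?_
    obtain ⟨h1, h2, h3, h4⟩ := hP p hp
    obtain ⟨g1, g2, g3, g4, g5, g6, g7, -, -⟩ := hf p.1 p.2 ⟨(hPf _ h1).1, h3⟩
    have g7' : (ct p.1 p.2 : ℝ) ≠ 0 := by
      have : (0 : ℝ) < ct p.1 p.2 := by exact_mod_cast g7
      exact this.ne'
    change (ct p.1 p.2 : ℝ) / De p.1 p.2 = 1 / (De (fz p.1 p.2) (fw p.1 p.2) : ℝ)
    rw [g6]
    push_cast
    rw [← div_div, div_self g7']
  -- step 1: the number of pairs for given z, w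
  have h1 : ∑ p ∈ P, 1 / (De (F p).2.1 (F p).2.2 : ℝ) ≤
      ∑ t ∈ P.image F, 225 * (X : ℝ) ^ 4 * (1 / (De t.2.1 t.2.2 : ℝ) ^ 3) := by
    rw [← Finset.sum_fiberwise_of_maps_to (t := P.image F) (g := F)
      (fun p hp => Finset.mem_image_of_mem F hp)]
    refine Finset.sum_le_sum fun t ht => ?_
    obtain ⟨hd0, hs2⟩ := hDpos t ht
    obtain ⟨g1, -, -, -, g5, g6⟩ := hgood t ht
    have hterm : ∀ p ∈ P.filter (fun p => F p = t),
        1 / (De (F p).2.1 (F p).2.2 : ℝ) = 1 / (De t.2.1 t.2.2 : ℝ) := by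
      intro p hp
      rw [(Finset.mem_filter.mp hp).2]
    rw [Finset.sum_congr rfl hterm, Finset.sum_const, nsmul_eq_mul]
    let S : Finset (Fin (k + 2) → ℤ) :=
      (Pf k X).filter fun x => ∃ α β : ℤ, ∀ v, x v = α * t.2.1 v + β * t.2.2 v
    have hsub : P.filter (fun p => F p = t) ⊆ S ×ˢ S := by
      intro p hp
      obtain ⟨hp1, hp2⟩ := Finset.mem_filter.mp hp
      obtain ⟨h1, h2, h3, h4⟩ := hP p hp1
      obtain ⟨-, -, -, -, -, -, -, g8, g9⟩ := hf p.1 p.2 ⟨(hPf _ h1).1, h3⟩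
      refine Finset.mem_product.mpr ⟨?_, ?_⟩
      · refine Finset.mem_filter.mpr ⟨h1, ?_⟩
        rw [← hp2]
        exact g8
      · refine Finset.mem_filter.mpr ⟨h2, ?_⟩
        rw [← hp2]
        exact g9
    have hs : (1 : ℝ) ≤ sn t.2.1 := by exact_mod_cast g1
    have hs0 : (0 : ℝ) < sn t.2.1 := by linarith
    have hScard : (S.card : ℝ) ≤ 15 * (X : ℝ) ^ 2 / De t.2.1 t.2.2 := by
      have h := hLPT (Fin (k + 2)) t.2.1 t.2.2 X g1 (by exact_mod_cast hd0) S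
        (fun y hy => by
          obtain ⟨hy1, hy2⟩ := Finset.mem_filter.mp hy
          exact ⟨(hPf y hy1).2, hy2⟩)
      refine h.trans ?_
      have hsX : (sn t.2.1 : ℝ) ≤ X := by
        by_contra hlt
        push Not at hlt
        have : (X : ℕ) < sn t.2.1 := by exact_mod_cast hlt
        have h2 : (2 : ℝ) ≤ sn t.2.1 := by
          have : 2 ≤ sn t.2.1 := by omega
          exact_mod_cast this
        have h3 : ((sn t.2.1 : ℝ)) ^ 2 ≤ 2 * De t.2.1 t.2.2 := by exact_mod_cast g5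
        nlinarith
      have h2 : 4 * (sn t.2.1 : ℝ) * X / De t.2.1 t.2.2 + 1 ≤
          5 * sn t.2.1 * X / De t.2.1 t.2.2 := by
        rw [div_add_one hd0.ne', div_le_div_iff_of_pos_right hd0]
        nlinarith
      have h3 : 2 * (X : ℝ) / sn t.2.1 + 1 ≤ 3 * X / sn t.2.1 := by
        rw [div_add_one hs0.ne', div_le_div_iff_of_pos_right hs0]
        linarith
      calc (4 * (sn t.2.1 : ℝ) * X / De t.2.1 t.2.2 + 1) * (2 * X / sn t.2.1 + 1)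
          ≤ (5 * sn t.2.1 * X / De t.2.1 t.2.2) * (3 * X / sn t.2.1) :=
            mul_le_mul h2 h3 (by positivity) (by positivity)
        _ = 15 * (X : ℝ) ^ 2 / De t.2.1 t.2.2 := by
            field_simp
            ring
    have hcard : (((P.filter (fun p => F p = t)).card : ℕ) : ℝ) ≤
        (15 * (X : ℝ) ^ 2 / De t.2.1 t.2.2) ^ 2 := by
      have h1 : (P.filter (fun p => F p = t)).card ≤ S.card * S.card := by
        rw [← Finset.card_product]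
        exact Finset.card_le_card hsub
      have h2 : (((P.filter (fun p => F p = t)).card : ℕ) : ℝ) ≤ (S.card : ℝ) * S.card := by
        exact_mod_cast h1
      rw [sq]
      exact h2.trans (mul_le_mul hScard hScard (Nat.cast_nonneg _) (by positivity))
    calc (((P.filter (fun p => F p = t)).card : ℕ) : ℝ) * (1 / (De t.2.1 t.2.2 : ℝ))
        ≤ (15 * (X : ℝ) ^ 2 / De t.2.1 t.2.2) ^ 2 * (1 / (De t.2.1 t.2.2 : ℝ)) :=
          mul_le_mul_of_nonneg_right hcard (by positivity)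
      _ = 225 * (X : ℝ) ^ 4 * (1 / (De t.2.1 t.2.2 : ℝ) ^ 3) := by
          field_simp
          ring
  -- step 2: the sum over w
  let H : Fin (k + 2) × (Fin (k + 2) → ℤ) × (Fin (k + 2) → ℤ) →
      Fin (k + 2) × (Fin (k + 2) → ℤ) := fun t => (t.1, t.2.1)
  have h2 : ∑ t ∈ P.image F, 1 / (De t.2.1 t.2.2 : ℝ) ^ 3 ≤
      ∑ b ∈ (P.image F).image H, CD * (4 ^ (k + 1) / (sn b.2 : ℝ) ^ k) * D₁ ^ (k + 1 - 3) := by
    rw [← Finset.sum_fiberwise_of_maps_to (t := (P.image F).image H) (g := H)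
      (fun t ht => Finset.mem_image_of_mem H ht)]
    refine Finset.sum_le_sum fun b hb => ?_
    obtain ⟨t₀, ht₀, hbt⟩ := Finset.mem_image.mp hb
    obtain ⟨g1, g2, -, -, -, -⟩ := hgood t₀ ht₀
    have hb1 : t₀.1 = b.1 := by rw [← hbt]
    have hb2 : t₀.2.1 = b.2 := by rw [← hbt]
    rw [hb1, hb2] at g2
    rw [hb2] at g1
    have himg : ∑ t ∈ (P.image F).filter (fun t => H t = b), 1 / (De t.2.1 t.2.2 : ℝ) ^ 3 =
        ∑ w ∈ ((P.image F).filter (fun t => H t = b)).image (fun t => t.2.2),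
          1 / (De b.2 w : ℝ) ^ 3 := by
      rw [Finset.sum_image]
      · refine Finset.sum_congr rfl fun t ht => ?_
        have h := (Finset.mem_filter.mp ht).2
        have h' : t.2.1 = b.2 := by rw [← h]
        rw [h']
      · rintro ⟨a, x, y⟩ ha ⟨a', x', y'⟩ ha' hyy
        have e1 := (Finset.mem_filter.mp (Finset.mem_coe.mp ha)).2
        have e2 := (Finset.mem_filter.mp (Finset.mem_coe.mp ha')).2
        have e3 := e1.trans e2.symm
        simp only [H, Prod.mk.injEq] at e3 hyy ⊢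
        exact ⟨e3.1, e3.2, hyy⟩
    rw [himg]
    refine R3C_inner hTBW k CD (fun α S D c Q κ Z₀ a1 a2 a3 a4 a5 a6 =>
      (hD α S D c Q κ Z₀ a1 a2 a3 a4 a5 a6).1) D₁ hD1 b.2 b.1 g1 g2 _ fun w hw => ?_
    obtain ⟨t, ht, rfl⟩ := Finset.mem_image.mp hw
    obtain ⟨ht1, ht2⟩ := Finset.mem_filter.mp ht
    obtain ⟨-, -, e3, e4, e5, e6⟩ := hgood t ht1
    rw [← ht2]
    exact ⟨e3, e4, e5, e6⟩
  -- step 3: the sum over z
  let M : ℕ := ⌊√(2 * D₁)⌋₊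
  have h3 : ∑ b ∈ (P.image F).image H, 1 / (sn b.2 : ℝ) ^ k ≤
      (((k : ℝ) + 2) * M) * (2 * 3 ^ (k + 1) * M) := by
    refine R3C_shell k M _ fun b hb => ?_
    obtain ⟨t, ht, rfl⟩ := Finset.mem_image.mp hb
    obtain ⟨g1, g2, -, -, -, -⟩ := hgood t ht
    refine ⟨g1, g2, ?_⟩
    refine Nat.le_floor ?_
    exact Real.le_sqrt_of_sq_le (hDpos t ht).2
  have hM : (M : ℝ) * M ≤ 2 * D₁ := by
    have h4 : (M : ℝ) ≤ √(2 * D₁) := Nat.floor_le (Real.sqrt_nonneg _)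
    calc (M : ℝ) * M ≤ √(2 * D₁) * √(2 * D₁) :=
          mul_le_mul h4 h4 (Nat.cast_nonneg _) (Real.sqrt_nonneg _)
      _ = 2 * D₁ := Real.mul_self_sqrt (by linarith)
  have hDD : D₁ ^ (k - 1) = D₁ ^ (k + 1 - 3) * D₁ := by
    rw [← pow_succ]
    congr 1
    omega
  rw [h0]
  refine h1.trans ?_
  rw [← Finset.mul_sum]
  have h4 : ∑ b ∈ (P.image F).image H, CD * (4 ^ (k + 1) / (sn b.2 : ℝ) ^ k) * D₁ ^ (k + 1 - 3)
      = CD * 4 ^ (k + 1) * D₁ ^ (k + 1 - 3) *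
        ∑ b ∈ (P.image F).image H, 1 / (sn b.2 : ℝ) ^ k := by
    rw [Finset.mul_sum]
    refine Finset.sum_congr rfl fun b _ => ?_
    ring
  rw [h4] at h2
  have hCD0 : 0 ≤ CD * 4 ^ (k + 1) * D₁ ^ (k + 1 - 3) := by positivity
  have h5 : (((k : ℝ) + 2) * M) * (2 * 3 ^ (k + 1) * M) ≤
      ((k : ℝ) + 2) * (2 * 3 ^ (k + 1)) * (2 * D₁) := by
    calc (((k : ℝ) + 2) * M) * (2 * 3 ^ (k + 1) * M)
        = ((k : ℝ) + 2) * (2 * 3 ^ (k + 1)) * ((M : ℝ) * M) := by ring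
      _ ≤ _ := mul_le_mul_of_nonneg_left hM (by positivity)
  calc 225 * (X : ℝ) ^ 4 * ∑ t ∈ P.image F, 1 / (De t.2.1 t.2.2 : ℝ) ^ 3
      ≤ 225 * (X : ℝ) ^ 4 * (CD * 4 ^ (k + 1) * D₁ ^ (k + 1 - 3) *
        (((k : ℝ) + 2) * (2 * 3 ^ (k + 1)) * (2 * D₁))) := by
        refine mul_le_mul_of_nonneg_left (h2.trans ?_) (by positivity)
        exact mul_le_mul_of_nonneg_left (h3.trans h5) hCD0
    _ = _ := by
        rw [hDD]
        ring

end Pool.FQ
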