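import Pool.Agent.Work.MP_9fb703_fq.Interface2

/-! # RCQ: cubes near a nonsingular real zero (MP_9fb703, THEOREM FQ) -/

set_option autoImplicit false

namespace Pool.FQ

open Finset
open Pool.HPQ (Fw Lam Kw fl rd cs Ww)
open Pool.CB (VV Sol PSN PH lin dl)
open Pool.GE
open Pool.GR (SingPr)

/-- Bounded and Lipschitz on a set. -/
private def RCQ_LB {n : ℕ} (R : Set (Fin n → ℝ)) (f : (Fin n → ℝ) → ℝ) : Prop :=
  ∃ C : ℝ, 0 ≤ C ∧ ∀ u ∈ R, ∀ u' ∈ R, ∀ r : ℝ, 0 ≤ r → (∀ m, |u m - u' m| ≤ r) →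
    |f u| ≤ C ∧ |f u - f u'| ≤ C * r

private theorem RCQ_const {n : ℕ} (R : Set (Fin n → ℝ)) (a : ℝ) : RCQ_LB R (fun _ => a) :=
  ⟨|a|, abs_nonneg _, fun _ _ _ _ r hr _ => ⟨le_rfl, by
    rw [sub_self, abs_zero]; positivity⟩⟩

private theorem RCQ_add {n : ℕ} {R : Set (Fin n → ℝ)} {f g : (Fin n → ℝ) → ℝ}
    (hf : RCQ_LB R f) (hg : RCQ_LB R g) : RCQ_LB R (fun u => f u + g u) := by
  obtain ⟨C, hC, h1⟩ := hf
  obtain ⟨D, hD, h2⟩ := hg
  refine ⟨C + D, by positivity, fun u hu u' hu' r hr h => ?_⟩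
  obtain ⟨a1, a2⟩ := h1 u hu u' hu' r hr h
  obtain ⟨b1, b2⟩ := h2 u hu u' hu' r hr h
  constructor
  · exact (abs_add_le _ _).trans (add_le_add a1 b1)
  · have e : f u + g u - (f u' + g u') = (f u - f u') + (g u - g u') := by ring
    rw [e]
    refine (abs_add_le _ _).trans ?_
    rw [add_mul]
    exact add_le_add a2 b2

private theorem RCQ_mul {n : ℕ} {R : Set (Fin n → ℝ)} {f g : (Fin n → ℝ) → ℝ}
    (hf : RCQ_LB R f) (hg : RCQ_LB R g) : RCQ_LB R (fun u => f u * g u) := by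
  obtain ⟨C, hC, h1⟩ := hf
  obtain ⟨D, hD, h2⟩ := hg
  refine ⟨C * D + C * D, by positivity, fun u hu u' hu' r hr h => ?_⟩
  obtain ⟨a1, a2⟩ := h1 u hu u' hu' r hr h
  obtain ⟨b1, b2⟩ := h2 u hu u' hu' r hr h
  obtain ⟨b3, -⟩ := h2 u' hu' u' hu' 0 le_rfl (fun m => by simp)
  have hCD : 0 ≤ C * D := mul_nonneg hC hD
  constructor
  · rw [abs_mul]
    have : |f u| * |g u| ≤ C * D := mul_le_mul a1 b1 (abs_nonneg _) hC
    linarith
  · have e : f u * g u - f u' * g u' = f u * (g u - g u') + (f u - f u') * g u' := by ring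
    rw [e]
    refine (abs_add_le _ _).trans ?_
    rw [abs_mul, abs_mul]
    have q1 : |f u| * |g u - g u'| ≤ C * (D * r) := mul_le_mul a1 b2 (abs_nonneg _) hC
    have q2 : |f u - f u'| * |g u'| ≤ (C * r) * D :=
      mul_le_mul a2 b3 (abs_nonneg _) (mul_nonneg hC hr)
    nlinarith

private theorem RCQ_sum {n : ℕ} {R : Set (Fin n → ℝ)} {ι : Type} (s : Finset ι)
    (f : ι → (Fin n → ℝ) → ℝ) (h : ∀ i, RCQ_LB R (f i)) :
    RCQ_LB R (fun u => ∑ i ∈ s, f i u) := by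
  classical
  induction s using Finset.induction_on with
  | empty => simpa using RCQ_const R 0
  | insert i s hi ih =>
      have := RCQ_add (h i) ih
      simpa [Finset.sum_insert hi] using this

private theorem RCQ_inv {n : ℕ} {R : Set (Fin (n + 1) → ℝ)} {c : ℝ} (hc : 0 < c)
    (h : ∀ u ∈ R, c ≤ u 0) : RCQ_LB R (fun u => (u 0)⁻¹) := by
  refine ⟨c⁻¹ + c⁻¹ * c⁻¹, by positivity, fun u hu u' hu' r hr hd => ?_⟩
  have p1 : 0 < u 0 := hc.trans_le (h u hu)
  have p2 : 0 < u' 0 := hc.trans_le (h u' hu')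
  have q1 : (u 0)⁻¹ ≤ c⁻¹ := inv_anti₀ hc (h u hu)
  have q2 : (u' 0)⁻¹ ≤ c⁻¹ := inv_anti₀ hc (h u' hu')
  have i1 : 0 < (u 0)⁻¹ := inv_pos.2 p1
  have i2 : 0 < (u' 0)⁻¹ := inv_pos.2 p2
  have i3 : 0 < c⁻¹ := inv_pos.2 hc
  constructor
  · rw [abs_of_pos i1]
    have : 0 < c⁻¹ * c⁻¹ := mul_pos i3 i3
    linarith
  · have e : (u 0)⁻¹ - (u' 0)⁻¹ = (u' 0 - u 0) * ((u 0)⁻¹ * (u' 0)⁻¹) := by
      field_simp
    rw [e, abs_mul, abs_of_pos (mul_pos i1 i2), abs_sub_comm]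
    have h0 := hd 0
    have h1 : (u 0)⁻¹ * (u' 0)⁻¹ ≤ c⁻¹ * c⁻¹ := mul_le_mul q1 q2 i2.le i3.le
    have h2 : |u 0 - u' 0| * ((u 0)⁻¹ * (u' 0)⁻¹) ≤ r * (c⁻¹ * c⁻¹) :=
      mul_le_mul h0 h1 (mul_pos i1 i2).le hr
    have h3 : 0 ≤ c⁻¹ * r := by positivity
    nlinarith

/-- The parametrisation is Lipschitz away from `u 0 = 0`. -/
private theorem RCQ_PX {k : ℕ} (κ : Crd k) (R : Set (Fin (k + 1) → ℝ)) (B c : ℝ)
    (hB : 0 ≤ B) (hc : 0 < c) (h0 : ∀ u ∈ R, c ≤ u 0) (hb : ∀ u ∈ R, ∀ m, |u m| ≤ B)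
    (v : Fin (k + 2)) : RCQ_LB R (fun u => PX κ u v) := by
  have hco : ∀ m, RCQ_LB R (fun u => u m) := fun m =>
    ⟨B + 1, by positivity, fun u hu u' _ r hr hd => ⟨by linarith [hb u hu m], by
      nlinarith [hd m]⟩⟩
  have hinv := RCQ_inv hc h0
  have hT : RCQ_LB R (fun u => TT κ (u 0) (fun j : Fin k => u j.succ)) := by
    unfold TT qd
    refine RCQ_add (RCQ_add (RCQ_sum _ _ fun i => RCQ_sum _ _ fun j =>
      RCQ_mul (RCQ_const _ _) (RCQ_mul (hco _) (hco _))) (RCQ_mul (hco 0)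
        (RCQ_sum _ _ fun j => RCQ_mul (RCQ_const _ _) (hco _)))) (RCQ_mul (RCQ_const _ _) ?_)
    simpa only [sq] using RCQ_mul (hco 0) (hco 0)
  have h1 : RCQ_LB R (fun u => -TT κ (u 0) (fun j : Fin k => u j.succ) / (κ.D * u 0)) := by
    have h2 := RCQ_mul (RCQ_mul (RCQ_const R (-(κ.D : ℝ)⁻¹)) hT) hinv
    have e : (fun u : Fin (k + 1) → ℝ => -TT κ (u 0) (fun j : Fin k => u j.succ) /
        ((κ.D : ℝ) * u 0)) = fun u => -(κ.D : ℝ)⁻¹ * TT κ (u 0) (fun j : Fin k => u j.succ) *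
        (u 0)⁻¹ := by
      funext u
      rw [div_eq_mul_inv, mul_inv]
      ring
    rw [e]
    exact h2
  have hI : ∀ i, RCQ_LB R (fun u => tt (u 0) (-TT κ (u 0) (fun j : Fin k => u j.succ) /
      (κ.D * u 0)) (fun j : Fin k => u j.succ) i) := by
    intro i
    refine Fin.cases ?_ (fun i => Fin.cases ?_ (fun j => ?_) i) i
    · exact hco 0
    · exact h1
    · exact hco j.succ
  unfold PX pt
  exact RCQ_sum _ _ fun i => RCQ_mul (RCQ_const _ _) (hI i)

/-- The derivative of the fixed form in the direction of the isotropic vector. -/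
private theorem RCQ_H1 (hQ : Stmt_QAD) {k : ℕ} {c : IQ k → ℤ} {κ : Crd k} (h : Ok c κ)
    (t : Fin (k + 2) → ℝ) :
    ∑ v, (κ.M v 1 : ℝ) * DD (fun s => (c s : ℝ)) (pt κ.M t) v = κ.D * t 0 := by
  have f1 := h.form ℝ t
  have f2 := h.form ℝ (fun i => t i + (if i = 1 then (1 : ℝ) else 0))
  have f3 := h.form ℝ (fun i => (if i = 1 then (1 : ℝ) else 0))
  have e0 : ∀ v, pt κ.M (fun i => (if i = 1 then (1 : ℝ) else 0)) v = (κ.M v 1 : ℝ) := by
    intro v
    unfold pt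
    simp
  have e1 : pt κ.M (fun i => t i + (if i = 1 then (1 : ℝ) else 0)) =
      fun v => pt κ.M t v + (κ.M v 1 : ℝ) := by
    funext v
    rw [← e0 v]
    unfold pt
    rw [← Finset.sum_add_distrib]
    exact Finset.sum_congr rfl fun i _ => by ring
  have e2 : pt κ.M (fun i => (if i = 1 then (1 : ℝ) else 0)) =
      fun v => (κ.M v 1 : ℝ) := funext e0
  have q := (hQ ℝ k (fun s => (c s : ℝ)) (pt κ.M t) (fun v => (κ.M v 1 : ℝ)) 1).1
  have n1 : ∀ j : Fin k, (j.succ.succ : Fin (k + 2)) ≠ 1 := by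
    intro j hj
    have := congrArg Fin.val hj
    simp at this
  have z2 : zc (fun i : Fin (k + 2) => t i + (if i = 1 then (1 : ℝ) else 0)) = zc t := by
    funext j
    simp [zc, n1 j]
  have z3 : zc (fun i : Fin (k + 2) => (if i = 1 then (1 : ℝ) else 0)) = fun _ => (0 : ℝ) := by
    funext j
    simp [zc, n1 j]
  rw [e1, z2] at f2
  rw [e2, z3] at f3
  have t0 : TT κ (0 : ℝ) (fun _ : Fin k => (0 : ℝ)) = 0 := by simp [TT, qd]
  simp only [zero_ne_one, if_false, if_true, t0, add_zero, zero_mul, mul_zero] at f2 f3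
  rw [q, f1, f3] at f2
  linarith

/-- Scaled version of LIP. -/
private theorem RCQ_lip (hL : Pool.GE.Stmt_LIP) (k : ℕ) : ∃ C : ℝ, 1 ≤ C ∧
    ∀ (α : IQ k → ℝ) (S : ℝ) (z z' : Fin (k + 2) → ℝ) (η : ℝ), 0 < S → 0 ≤ η →
    (∀ s, |α s| ≤ S) → (∀ l, |z l| ≤ 2) → (∀ l, |z' l| ≤ 2) → (∀ l, |z' l - z l| ≤ η) →
    |FF α z' - FF α z| ≤ C * S * η ∧ (∀ i, |DD α z i| ≤ C * S) ∧
      |FF α z' - FF α z - ∑ i, DD α z i * (z' i - z i)| ≤ C * S * η ^ 2 := by
  obtain ⟨C, hC, h⟩ := hL (Fin (k + 2)) Unit (fun _ => ()) (fun _ => 2)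
  refine ⟨C, hC, fun α S z z' η hS hη ha hz hz' hd => ?_⟩
  obtain ⟨h1, h2, -, h4⟩ := h (fun s => α s / S) z z' η hη (fun s => by
    rw [abs_div, abs_of_pos hS, div_le_one hS]; exact ha s) hz hz' hd
  have eF : ∀ w : Fin (k + 2) → ℝ, FF (b := fun _ : Fin (k + 2) => ()) (d := fun _ : Unit => 2)
      (fun s => α s / S) w = FF α w / S := by
    intro w
    unfold FF
    rw [Finset.sum_div]
    exact Finset.sum_congr rfl fun s _ => by ring
  have eD : ∀ (w : Fin (k + 2) → ℝ) i, DD (b := fun _ : Fin (k + 2) => ())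
      (d := fun _ : Unit => 2) (fun s => α s / S) w i = DD α w i / S := by
    intro w i
    unfold DD
    rw [Finset.sum_div]
    exact Finset.sum_congr rfl fun s _ => by ring
  rw [eF, eF] at h1 h4
  refine ⟨?_, fun i => ?_, ?_⟩
  · rw [← sub_div, abs_div, abs_of_pos hS, div_le_iff₀ hS] at h1
    linarith
  · have := h2 i
    rw [eD, abs_div, abs_of_pos hS, div_le_iff₀ hS] at this
    exact this
  · have e : FF α z' / S - FF α z / S - ∑ i, DD (b := fun _ : Fin (k + 2) => ())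
        (d := fun _ : Unit => 2) (fun s => α s / S) z i * (z' i - z i) =
        (FF α z' - FF α z - ∑ i, DD α z i * (z' i - z i)) / S := by
      rw [sub_div, sub_div, Finset.sum_div]
      congr 1
      exact Finset.sum_congr rfl fun i _ => by rw [eD]; ring
    rw [e, abs_div, abs_of_pos hS, div_le_iff₀ hS] at h4
    linarith

/-- The value of the fixed form on the parametrisation. -/
private theorem RCQ_zero {k : ℕ} {c : IQ k → ℤ} {κ : Crd k} (h : Ok c κ)
    (u : Fin (k + 1) → ℝ) (hu : u 0 ≠ 0) : FF (fun s => (c s : ℝ)) (PX κ u) = 0 := by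
  unfold PX
  rw [h.form]
  have hD : (κ.D : ℝ) ≠ 0 := by exact_mod_cast h.Dpos.ne'
  have e0 : tt (u 0) (-TT κ (u 0) (fun j : Fin k => u j.succ) / (κ.D * u 0))
      (fun j : Fin k => u j.succ) 0 = u 0 := rfl
  have e1 : tt (u 0) (-TT κ (u 0) (fun j : Fin k => u j.succ) / (κ.D * u 0))
      (fun j : Fin k => u j.succ) 1 =
      -TT κ (u 0) (fun j : Fin k => u j.succ) / (κ.D * u 0) := rfl
  have e2 : zc (tt (u 0) (-TT κ (u 0) (fun j : Fin k => u j.succ) / (κ.D * u 0))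
      (fun j : Fin k => u j.succ)) = fun j : Fin k => u j.succ := rfl
  rw [e0, e1, e2]
  field_simp
  ring

/-- The real point as a value of the parametrisation. -/
private theorem RCQ_base (hP : Stmt_PTI) {k : ℕ} {c : IQ k → ℤ} {κ : Crd k} (h : Ok c κ)
    (y : Fin (k + 2) → ℝ) (hy : FF (fun s => (c s : ℝ)) y = 0) (h0 : pt κ.I y 0 ≠ 0) :
    PX κ (Fin.cons (pt κ.I y 0) (fun j : Fin k => pt κ.I y j.succ.succ)) = y := by
  obtain ⟨h1, -, h3⟩ := hP k c κ h ℝ y
  rw [hy] at h3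
  have hD : (κ.D : ℝ) ≠ 0 := by exact_mod_cast h.Dpos.ne'
  have e : tt (pt κ.I y 0) (-TT κ (pt κ.I y 0) (fun j : Fin k => pt κ.I y j.succ.succ) /
      (κ.D * pt κ.I y 0)) (fun j : Fin k => pt κ.I y j.succ.succ) = pt κ.I y := by
    have hz : (fun j : Fin k => pt κ.I y j.succ.succ) = zc (pt κ.I y) := rfl
    have e1 : -TT κ (pt κ.I y 0) (fun j : Fin k => pt κ.I y j.succ.succ) /
        (κ.D * pt κ.I y 0) = pt κ.I y 1 := by
      rw [hz, div_eq_iff (mul_ne_zero hD h0)]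
      linarith
    rw [e1]
    funext i
    refine Fin.cases rfl (fun i => Fin.cases rfl (fun j => rfl) i) i
  unfold PX
  have e2 : (Fin.cons (pt κ.I y 0) (fun j : Fin k => pt κ.I y j.succ.succ) :
      Fin (k + 1) → ℝ) 0 = pt κ.I y 0 := rfl
  have e3 : (fun j : Fin k => (Fin.cons (pt κ.I y 0) (fun j : Fin k => pt κ.I y j.succ.succ) :
      Fin (k + 1) → ℝ) j.succ) = fun j : Fin k => pt κ.I y j.succ.succ := rfl
  rw [e2, e3, e, h1]

/-- The local expansion. -/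
private theorem RCQ_loc (hQ : Stmt_QAD) (hP : Stmt_PTI) (hL : Pool.GE.Stmt_LIP) (k : ℕ)
    (c : IQ k → ℤ) (κ : Crd k) (c₀ : ℝ) (hok : Ok c κ) (hc0 : 0 < c₀) :
    ∃ K : ℝ, 1 ≤ K ∧ ∀ (A : ℕ) (a : IQ k → ℤ) (y : Fin (k + 2) → ℝ) (δ : ℝ), 1 ≤ A → 0 < δ →
    a ∈ Bx (IQ k) A → RZ2 c a y → c₀ ≤ pt κ.I y 0 →
    (∀ μ : ℝ, ∃ v, δ * A ≤ |DD (fun s => (a s : ℝ)) y v - μ * DD (fun s => (c s : ℝ)) y v|) →
    ∃ (w L : Fin (k + 1) → ℝ), (∀ m, |L m| ≤ K * A) ∧ (∃ m₀, δ * A ≤ K * |L m₀|) ∧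
      (∀ (u : Fin (k + 1) → ℝ) (r : ℝ), 0 ≤ r → r ≤ 1 / K → (∀ m, |u m - w m| ≤ r) →
        c₀ / 2 ≤ u 0 ∧ (∀ v, |PX κ u v - y v| ≤ K * r) ∧
        |FF (fun s => (a s : ℝ)) (PX κ u) - ∑ m, L m * (u m - w m)| ≤ K * A * r ^ 2) ∧
      ∀ (u u' : Fin (k + 1) → ℝ) (r : ℝ), 0 ≤ r → (∀ m, |u m - w m| ≤ 1 / K) →
        (∀ m, |u' m - w m| ≤ 1 / K) → (∀ m, |u m - u' m| ≤ r) →
        |FF (fun s => (a s : ℝ)) (PX κ u) - FF (fun s => (a s : ℝ)) (PX κ u')| ≤
          K * A * r := by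
  classical
  obtain ⟨C₁, hC1, lip⟩ := RCQ_lip hL k
  set SM : ℝ := 1 + ∑ i, ∑ v, |(κ.M v i : ℝ)| with hSM
  set SI : ℝ := 1 + ∑ v, ∑ i, |(κ.I i v : ℝ)| with hSI
  set Sc : ℝ := 1 + ∑ s, |(c s : ℝ)| with hSc
  have SM1 : 1 ≤ SM := by
    rw [hSM]; exact le_add_of_nonneg_right (Finset.sum_nonneg fun i _ =>
      Finset.sum_nonneg fun v _ => abs_nonneg _)
  have SI1 : 1 ≤ SI := by
    rw [hSI]; exact le_add_of_nonneg_right (Finset.sum_nonneg fun i _ =>
      Finset.sum_nonneg fun v _ => abs_nonneg _)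
  have Sc1 : 1 ≤ Sc := by
    rw [hSc]; exact le_add_of_nonneg_right (Finset.sum_nonneg fun i _ => abs_nonneg _)
  have bM : ∀ i, ∑ v, |(κ.M v i : ℝ)| ≤ SM - 1 := by
    intro i
    rw [hSM, add_sub_cancel_left]
    exact Finset.single_le_sum (f := fun i => ∑ v, |(κ.M v i : ℝ)|)
      (fun i _ => Finset.sum_nonneg fun v _ => abs_nonneg _) (Finset.mem_univ i)
  have bI : ∀ v, ∑ i, |(κ.I i v : ℝ)| ≤ SI - 1 := by
    intro v
    rw [hSI, add_sub_cancel_left]
    exact Finset.single_le_sum (f := fun v => ∑ i, |(κ.I i v : ℝ)|)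
      (fun i _ => Finset.sum_nonneg fun v _ => abs_nonneg _) (Finset.mem_univ v)
  have bI' : ∀ i, ∑ v, |(κ.I i v : ℝ)| ≤ SI - 1 := by
    intro i
    rw [hSI, add_sub_cancel_left, Finset.sum_comm]
    exact Finset.single_le_sum (f := fun i => ∑ v, |(κ.I i v : ℝ)|)
      (fun i _ => Finset.sum_nonneg fun v _ => abs_nonneg _) (Finset.mem_univ i)
  have bc : ∀ s, |(c s : ℝ)| ≤ Sc := by
    intro s
    have := Finset.single_le_sum (f := fun s => |(c s : ℝ)|) (fun i _ => abs_nonneg _)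
      (Finset.mem_univ s)
    rw [hSc]
    linarith
  set R : Set (Fin (k + 1) → ℝ) := {u | c₀ / 2 ≤ u 0 ∧ ∀ m, |u m| ≤ SI + 1} with hR
  have hPX : ∃ C₂ : ℝ, 1 ≤ C₂ ∧ ∀ u ∈ R, ∀ u' ∈ R, ∀ r : ℝ, 0 ≤ r →
      (∀ m, |u m - u' m| ≤ r) → ∀ v, |PX κ u v - PX κ u' v| ≤ C₂ * r := by
    have h := fun v => RCQ_PX κ R (SI + 1) (c₀ / 2) (by linarith) (by linarith)
      (fun u hu => hu.1) (fun u hu => hu.2) v
    choose D hD h using h
    refine ⟨1 + ∑ v, D v, le_add_of_nonneg_right (Finset.sum_nonneg fun v _ => hD v),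
      fun u hu u' hu' r hr hd v => ?_⟩
    refine ((h v u hu u' hu' r hr hd).2).trans (mul_le_mul_of_nonneg_right ?_ hr)
    have := Finset.single_le_sum (f := D) (fun i _ => hD i) (Finset.mem_univ v)
    linarith
  obtain ⟨C₂, hC2, hlip⟩ := hPX
  set KR : ℝ := C₁ + SM * C₁ / c₀ * (C₁ * Sc) with hKR
  have KR0 : 0 < KR := by
    have : 0 ≤ SM * C₁ / c₀ * (C₁ * Sc) := by positivity
    linarith
  set K : ℝ := 1 + 2 / c₀ + C₂ + SM * KR + SI + KR * C₂ ^ 2 + C₁ * C₂ with hK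
  have p1 : 0 < 2 / c₀ := by positivity
  have p2 : 0 < SM * KR := by positivity
  have p3 : 0 < KR * C₂ ^ 2 := by positivity
  have p4 : 0 < C₁ * C₂ := by positivity
  have K1 : 1 ≤ K := by linarith
  have Kpos : 0 < K := by linarith
  refine ⟨K, K1, fun A a y δ hA hδ ha hz hx0 hns => ?_⟩
  have hA0 : (0 : ℝ) < A := by exact_mod_cast hA
  have hAA : ∀ s, |(a s : ℝ)| ≤ A := by
    intro s
    have h := Fintype.mem_piFinset.1 ha s
    rw [Finset.mem_Icc] at h
    rw [abs_le]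
    exact ⟨by exact_mod_cast h.1, by exact_mod_cast h.2⟩
  obtain ⟨hy1, -, hyc, hya⟩ := hz
  have hy2 : ∀ l, |y l| ≤ 2 := fun l => (hy1 l).trans (by norm_num)
  have hSc0 : 0 < Sc := by linarith
  set t := pt κ.I y with ht
  have ht0 : 0 < t 0 := by linarith
  set w : Fin (k + 1) → ℝ := Fin.cons (t 0) (fun j : Fin k => t j.succ.succ) with hw
  have hw0 : w 0 = t 0 := rfl
  have htb : ∀ i, |t i| ≤ SI := by
    intro i
    have h1 : |t i| ≤ ∑ v, |(κ.I i v : ℝ)| := by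
      rw [ht]
      unfold pt
      refine (Finset.abs_sum_le_sum_abs _ _).trans (Finset.sum_le_sum fun v _ => ?_)
      rw [abs_mul]
      exact mul_le_of_le_one_right (abs_nonneg _) (hy1 v)
    linarith [bI' i]
  have hwb : ∀ m, |w m| ≤ SI := by
    intro m
    refine Fin.cases ?_ (fun j => ?_) m
    · exact htb 0
    · exact htb j.succ.succ
  have hwy : PX κ w = y := RCQ_base hP hok y hyc ht0.ne'
  -- the region
  have hreg : ∀ (u : Fin (k + 1) → ℝ) (r : ℝ), r ≤ 1 / K → (∀ m, |u m - w m| ≤ r) →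
      u ∈ R := by
    intro u r hr hu
    have hr1 : r ≤ 1 := hr.trans ((div_le_one Kpos).2 K1)
    have hr2 : r ≤ c₀ / 2 := by
      refine hr.trans ?_
      rw [div_le_div_iff₀ Kpos (by norm_num)]
      have : 2 / c₀ ≤ K := by linarith
      rw [div_le_iff₀ hc0] at this
      linarith
    refine ⟨?_, fun m => ?_⟩
    · have := abs_le.1 (hu 0)
      rw [hw0] at this
      linarith
    · have h1 : |u m| ≤ |u m - w m| + |w m| := by
        have := abs_add_le (u m - w m) (w m)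
        simpa using this
      linarith [hu m, hwb m]
  have hwR : w ∈ R := by
    refine hreg w 0 (by positivity) fun m => by simp
  have hyb : ∀ (u : Fin (k + 1) → ℝ) (r : ℝ), 0 ≤ r → r ≤ 1 / K → (∀ m, |u m - w m| ≤ r) →
      (∀ v, |PX κ u v - y v| ≤ C₂ * r) ∧ ∀ v, |PX κ u v| ≤ 2 := by
    intro u r hr0 hr hu
    have h1 : ∀ v, |PX κ u v - y v| ≤ C₂ * r := by
      intro v
      have := hlip u (hreg u r hr hu) w hwR r hr0 hu v
      rwa [hwy] at this
    refine ⟨h1, fun v => ?_⟩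
    have h2 : C₂ * r ≤ 1 := by
      have h3 : C₂ * r ≤ C₂ * (1 / K) := mul_le_mul_of_nonneg_left hr (by linarith)
      have h4 : C₂ * (1 / K) ≤ 1 := by
        rw [mul_one_div, div_le_one Kpos]
        linarith
      linarith
    have h3 : |PX κ u v| ≤ |PX κ u v - y v| + |y v| := by
      have := abs_add_le (PX κ u v - y v) (y v)
      simpa using this
    linarith [h1 v, hy1 v]
  -- the derivatives
  set Ga : ℝ := ∑ v, (κ.M v 1 : ℝ) * DD (fun s => (a s : ℝ)) y v with hGa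
  have hH : ∑ v, (κ.M v 1 : ℝ) * DD (fun s => (c s : ℝ)) y v = κ.D * t 0 := by
    have h1 := RCQ_H1 hQ hok t
    rwa [(hP k c κ hok ℝ y).1] at h1
  have hD1 : (1 : ℝ) ≤ κ.D := by exact_mod_cast hok.Dpos
  set H : ℝ := κ.D * t 0 with hHd
  have hHc : c₀ ≤ H := by
    rw [hHd]
    nlinarith
  have hH0 : 0 < H := by linarith
  set μ : ℝ := Ga / H with hμ
  obtain ⟨-, hda, -⟩ := lip (fun s => (a s : ℝ)) A y y 0 hA0 le_rfl hAA hy2 hy2
    (fun l => by simp)
  obtain ⟨-, hdc, -⟩ := lip (fun s => (c s : ℝ)) Sc y y 0 hSc0 le_rfl bc hy2 hy2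
    (fun l => by simp)
  have hGab : |Ga| ≤ SM * (C₁ * A) := by
    have h1 : |Ga| ≤ ∑ v, |(κ.M v 1 : ℝ)| * (C₁ * A) := by
      rw [hGa]
      refine (Finset.abs_sum_le_sum_abs _ _).trans (Finset.sum_le_sum fun v _ => ?_)
      rw [abs_mul]
      exact mul_le_mul_of_nonneg_left (hda v) (abs_nonneg _)
    rw [← Finset.sum_mul] at h1
    have h2 := bM 1
    have h3 : 0 < C₁ * (A : ℝ) := by positivity
    nlinarith
  have hμb : |μ| ≤ SM * C₁ / c₀ * A := by
    rw [hμ, abs_div, abs_of_pos hH0, div_le_iff₀ hH0]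
    have h1 : SM * (C₁ * A) ≤ SM * C₁ / c₀ * A * H := by
      have e : SM * (C₁ * A) = SM * C₁ / c₀ * A * c₀ := by field_simp
      rw [e]
      exact mul_le_mul_of_nonneg_left hHc (by positivity)
    linarith
  set V : Fin (k + 2) → ℝ := fun v =>
    DD (fun s => (a s : ℝ)) y v - μ * DD (fun s => (c s : ℝ)) y v with hV
  have hVb : ∀ v, |V v| ≤ KR * A := by
    intro v
    have h1 : |V v| ≤ |DD (fun s => (a s : ℝ)) y v| + |μ * DD (fun s => (c s : ℝ)) y v| :=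
      abs_sub _ _
    rw [abs_mul] at h1
    have h2 : |μ| * |DD (fun s => (c s : ℝ)) y v| ≤ SM * C₁ / c₀ * A * (C₁ * Sc) :=
      mul_le_mul hμb (hdc v) (abs_nonneg _) (by positivity)
    have h3 := hda v
    have e : KR * A = C₁ * A + SM * C₁ / c₀ * A * (C₁ * Sc) := by rw [hKR]; ring
    rw [e]
    linarith
  set Lf : Fin (k + 2) → ℝ := fun i => ∑ v, (κ.M v i : ℝ) * V v with hLf
  have hL1 : Lf 1 = 0 := by
    have e : Lf 1 = Ga - μ * H := by
      rw [hLf, hGa, ← hH, Finset.mul_sum, ← Finset.sum_sub_distrib]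
      refine Finset.sum_congr rfl fun v _ => ?_
      rw [hV]
      ring
    rw [e, hμ, div_mul_cancel₀ _ hH0.ne', sub_self]
  have hLb : ∀ i, |Lf i| ≤ SM * KR * A := by
    intro i
    have h1 : |Lf i| ≤ ∑ v, |(κ.M v i : ℝ)| * (KR * A) := by
      rw [hLf]
      refine (Finset.abs_sum_le_sum_abs _ _).trans (Finset.sum_le_sum fun v _ => ?_)
      rw [abs_mul]
      exact mul_le_mul_of_nonneg_left (hVb v) (abs_nonneg _)
    rw [← Finset.sum_mul] at h1
    have h2 := bM i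
    have h3 : 0 < KR * (A : ℝ) := by positivity
    nlinarith
  have hVL : ∀ v, V v = ∑ i, (κ.I i v : ℝ) * Lf i := by
    intro v
    have e : ∑ i, (κ.I i v : ℝ) * Lf i = ∑ w, (∑ i, (κ.M w i : ℝ) * (κ.I i v : ℝ)) * V w := by
      simp only [hLf, Finset.mul_sum, Finset.sum_mul]
      rw [Finset.sum_comm]
      exact Finset.sum_congr rfl fun w _ => Finset.sum_congr rfl fun i _ => by ring
    rw [e]
    have e2 : ∀ w, ∑ i, (κ.M w i : ℝ) * (κ.I i v : ℝ) = if w = v then 1 else 0 := by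
      intro w
      have := hok.inv2 w v
      have h2 := congrArg (fun x : ℤ => (x : ℝ)) this
      simp only [Int.cast_sum, Int.cast_mul] at h2
      rw [h2]
      split_ifs <;> simp
    simp [e2]
  set L : Fin (k + 1) → ℝ := Fin.cons (Lf 0) (fun j : Fin k => Lf j.succ.succ) with hLd
  have hKL : SM * KR ≤ K := by linarith
  refine ⟨w, L, fun m => ?_, ?_, fun u r hr0 hr hu => ?_, fun u u' r hr0 hu hu' hd => ?_⟩
  · have hg : ∀ i, |Lf i| ≤ K * A := fun i =>
      (hLb i).trans (mul_le_mul_of_nonneg_right hKL hA0.le)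
    refine Fin.cases ?_ (fun j => ?_) m
    · exact hg 0
    · exact hg j.succ.succ
  · by_contra hcon
    push Not at hcon
    have hall : ∀ i, |Lf i| ≤ δ * A / K := by
      intro i
      rw [le_div_iff₀ Kpos]
      refine Fin.cases ?_ (fun i => Fin.cases ?_ (fun j => ?_) i) i
      · have := hcon 0
        have e : L 0 = Lf 0 := rfl
        rw [e] at this
        linarith
      · have e : Lf (Fin.succ 0) = 0 := hL1
        rw [e, abs_zero, zero_mul]
        positivity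
      · have := hcon j.succ
        have e : L j.succ = Lf j.succ.succ := rfl
        rw [e] at this
        linarith
    obtain ⟨v, hv⟩ := hns μ
    have h1 : |V v| ≤ ∑ i, |(κ.I i v : ℝ)| * (δ * A / K) := by
      rw [hVL v]
      refine (Finset.abs_sum_le_sum_abs _ _).trans (Finset.sum_le_sum fun i _ => ?_)
      rw [abs_mul]
      exact mul_le_mul_of_nonneg_left (hall i) (abs_nonneg _)
    rw [← Finset.sum_mul] at h1
    have h2 := bI v
    have h3 : 0 < δ * A / K := by positivity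
    have h4 : (∑ i, |(κ.I i v : ℝ)|) * (δ * A / K) ≤ (SI - 1) * (δ * A / K) :=
      mul_le_mul_of_nonneg_right h2 h3.le
    have h5 : (SI - 1) * (δ * A / K) < δ * A := by
      rw [mul_div_assoc', div_lt_iff₀ Kpos, mul_comm]
      exact mul_lt_mul_of_pos_left (by linarith) (by positivity)
    have h6 : δ * A ≤ |V v| := hv
    linarith
  · have hR1 := hreg u r hr hu
    obtain ⟨hb1, hb2⟩ := hyb u r hr0 hr hu
    have hu0 : 0 < u 0 := by
      have := hR1.1
      linarith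
    refine ⟨hR1.1, fun v => (hb1 v).trans (mul_le_mul_of_nonneg_right (by linarith) hr0), ?_⟩
    have hzc := RCQ_zero hok u hu0.ne'
    have hη : 0 ≤ C₂ * r := by positivity
    obtain ⟨-, -, ta⟩ := lip (fun s => (a s : ℝ)) A y (PX κ u) (C₂ * r) hA0 hη hAA hy2 hb2 hb1
    obtain ⟨-, -, tc⟩ := lip (fun s => (c s : ℝ)) Sc y (PX κ u) (C₂ * r) hSc0 hη bc hy2 hb2 hb1
    rw [hya, sub_zero] at ta
    rw [hyc, hzc, sub_zero, zero_sub, abs_neg] at tc
    -- the linear part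
    have hlin : ∑ m, L m * (u m - w m) = ∑ v, V v * (PX κ u v - y v) := by
      set T : Fin (k + 2) → ℝ := tt (u 0) (-TT κ (u 0) (fun j : Fin k => u j.succ) /
        (κ.D * u 0)) (fun j : Fin k => u j.succ) with hT
      have e1 : ∀ v, PX κ u v - y v = ∑ i, (κ.M v i : ℝ) * (T i - t i) := by
        intro v
        have h1 : PX κ u v = ∑ i, (κ.M v i : ℝ) * T i := rfl
        have h2 : y v = ∑ i, (κ.M v i : ℝ) * t i := by
          have := congrFun (hP k c κ hok ℝ y).1 v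
          rw [← this]
          rfl
        rw [h1, h2, ← Finset.sum_sub_distrib]
        exact Finset.sum_congr rfl fun i _ => by ring
      have e2 : ∑ v, V v * (PX κ u v - y v) = ∑ i, Lf i * (T i - t i) := by
        simp only [e1, hLf, Finset.mul_sum, Finset.sum_mul]
        rw [Finset.sum_comm]
        exact Finset.sum_congr rfl fun w _ => Finset.sum_congr rfl fun i _ => by ring
      rw [e2, Fin.sum_univ_succ, Fin.sum_univ_succ, Fin.sum_univ_succ]
      have e3 : Lf (Fin.succ 0) = 0 := hL1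
      rw [e3, zero_mul, zero_add]
      rfl
    have hsum : ∑ v, V v * (PX κ u v - y v) =
        ∑ v, DD (fun s => (a s : ℝ)) y v * (PX κ u v - y v) -
        μ * ∑ v, DD (fun s => (c s : ℝ)) y v * (PX κ u v - y v) := by
      rw [Finset.mul_sum, ← Finset.sum_sub_distrib]
      refine Finset.sum_congr rfl fun v _ => ?_
      rw [hV]
      ring
    rw [hlin, hsum]
    have h1 : |μ * ∑ v, DD (fun s => (c s : ℝ)) y v * (PX κ u v - y v)| ≤
        SM * C₁ / c₀ * A * (C₁ * Sc * (C₂ * r) ^ 2) := by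
      rw [abs_mul]
      exact mul_le_mul hμb tc (abs_nonneg _) (by positivity)
    have e : FF (fun s => (a s : ℝ)) (PX κ u) -
        (∑ v, DD (fun s => (a s : ℝ)) y v * (PX κ u v - y v) -
        μ * ∑ v, DD (fun s => (c s : ℝ)) y v * (PX κ u v - y v)) =
        (FF (fun s => (a s : ℝ)) (PX κ u) -
          ∑ v, DD (fun s => (a s : ℝ)) y v * (PX κ u v - y v)) +
        μ * ∑ v, DD (fun s => (c s : ℝ)) y v * (PX κ u v - y v) := by ring
    rw [e]
    refine (abs_add_le _ _).trans ((add_le_add ta h1).trans ?_)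
    have e2 : C₁ * A * (C₂ * r) ^ 2 + SM * C₁ / c₀ * A * (C₁ * Sc * (C₂ * r) ^ 2) =
        KR * C₂ ^ 2 * (A * r ^ 2) := by rw [hKR]; ring
    rw [e2, mul_assoc K]
    exact mul_le_mul_of_nonneg_right (by linarith) (by positivity)
  · have hK0 : (0 : ℝ) ≤ 1 / K := by positivity
    have r1 := hreg u (1 / K) le_rfl hu
    have r2 := hreg u' (1 / K) le_rfl hu'
    obtain ⟨-, b1⟩ := hyb u (1 / K) hK0 le_rfl hu
    obtain ⟨-, b2⟩ := hyb u' (1 / K) hK0 le_rfl hu'
    have hη : 0 ≤ C₂ * r := by positivity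
    obtain ⟨h1, -, -⟩ := lip (fun s => (a s : ℝ)) A (PX κ u') (PX κ u) (C₂ * r) hA0 hη hAA b2 b1
      (hlip u r1 u' r2 r hr0 hd)
    refine h1.trans ?_
    have e : C₁ * A * (C₂ * r) = C₁ * C₂ * (A * r) := by ring
    rw [e, mul_assoc K]
    exact mul_le_mul_of_nonneg_right (by linarith) (by positivity)

/-- The grid argument. -/
private theorem RCQ_grid (k : ℕ) (K δ ρ θ₀ : ℝ) (hK : 1 ≤ K) (hδ : 0 < δ) (hρ : 0 < ρ)
    (hρK : ρ ≤ 1 / K) (hθ₀ : 0 < θ₀) : ∃ θ c₂ : ℝ, 0 < θ ∧ θ ≤ θ₀ ∧ 0 < c₂ ∧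
    ∀ (A h : ℝ) (f : (Fin (k + 1) → ℝ) → ℝ) (w L : Fin (k + 1) → ℝ), 0 < A → 0 < h → h ≤ 1 →
    (∀ m, |L m| ≤ K * A) → (∃ m₀, δ * A ≤ K * |L m₀|) →
    (∀ (u : Fin (k + 1) → ℝ) (r : ℝ), 0 ≤ r → r ≤ 1 / K → (∀ m, |u m - w m| ≤ r) →
      |f u - ∑ m, L m * (u m - w m)| ≤ K * A * r ^ 2) →
    (∀ (u u' : Fin (k + 1) → ℝ) (r : ℝ), 0 ≤ r → (∀ m, |u m - w m| ≤ 1 / K) →
      (∀ m, |u' m - w m| ≤ 1 / K) → (∀ m, |u m - u' m| ≤ r) → |f u - f u'| ≤ K * A * r) →
    ∃ J : Finset (Fin (k + 1) → ℤ), c₂ / (θ * h) ^ k ≤ (J.card : ℝ) ∧ ∀ j ∈ J,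
      ∀ u : Fin (k + 1) → ℝ, (∀ i, θ * h * j i ≤ u i ∧ u i ≤ θ * h * (j i + 1)) →
      (∀ m, |u m - w m| ≤ ρ) ∧ |f u| ≤ h * A := by
  classical
  have hK0 : 0 < K := by linarith
  set r₀ : ℝ := min (ρ / 2) (δ / (2 * K ^ 2)) with hr₀
  have r₀pos : 0 < r₀ := lt_min (by positivity) (by positivity)
  have r₀1 : r₀ ≤ ρ / 2 := min_le_left _ _
  have r₀2 : r₀ ≤ δ / (2 * K ^ 2) := min_le_right _ _
  set r₁ : ℝ := min r₀ (δ * r₀ / (2 * K ^ 2 * (k + 1))) with hr₁
  have r₁pos : 0 < r₁ := lt_min r₀pos (by positivity)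
  have r₁1 : r₁ ≤ r₀ := min_le_left _ _
  have r₁2 : r₁ ≤ δ * r₀ / (2 * K ^ 2 * (k + 1)) := min_le_right _ _
  set θ : ℝ := min θ₀ (min r₁ (1 / K)) with hθ
  have θpos : 0 < θ := lt_min hθ₀ (lt_min r₁pos (by positivity))
  have θ1 : θ ≤ θ₀ := min_le_left _ _
  have θ2 : θ ≤ r₁ := (min_le_right _ _).trans (min_le_left _ _)
  have θ3 : θ ≤ 1 / K := (min_le_right _ _).trans (min_le_right _ _)
  refine ⟨θ, (r₁ / 2) ^ k, θpos, θ1, by positivity, ?_⟩
  intro A h f w L hA hh hh1 hL ⟨m₀, hm₀⟩ hexp hlip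
  set lam : ℝ := θ * h with hlam
  have lpos : 0 < lam := mul_pos θpos hh
  have l1 : lam ≤ θ := mul_le_of_le_one_right θpos.le hh1
  have l2 : lam ≤ r₁ := l1.trans θ2
  set N : ℕ := ⌊r₁ / lam⌋₊ with hN
  have hN1 : (N : ℝ) * lam ≤ r₁ := by
    rw [← le_div_iff₀ lpos]
    exact Nat.floor_le (by positivity)
  have hN2 : r₁ / (2 * lam) ≤ N := by
    have h1 : r₁ / lam < N + 1 := Nat.lt_floor_add_one _
    have h2 : 1 ≤ N := Nat.le_floor (by
      rw [Nat.cast_one, one_le_div lpos]; exact l2)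
    have h3 : (1 : ℝ) ≤ N := by exact_mod_cast h2
    have h4 : r₁ / (2 * lam) = r₁ / lam / 2 := by field_simp
    rw [h4]
    linarith
  -- the free coordinates
  set F : (Fin k → ℕ) → Fin k → ℤ := fun n q => ⌈w (m₀.succAbove q) / lam⌉ + n q with hF
  have hFb : ∀ n : Fin k → ℕ, (∀ q, n q < N) → ∀ q, |lam * F n q - w (m₀.succAbove q)| ≤ r₁ := by
    intro n hn q
    have h1 : w (m₀.succAbove q) / lam ≤ ⌈w (m₀.succAbove q) / lam⌉ := Int.le_ceil _
    have h2 : (⌈w (m₀.succAbove q) / lam⌉ : ℝ) < w (m₀.succAbove q) / lam + 1 :=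
      Int.ceil_lt_add_one _
    rw [div_le_iff₀ lpos] at h1
    have h3 : (⌈w (m₀.succAbove q) / lam⌉ : ℝ) * lam < w (m₀.succAbove q) + lam := by
      have := mul_lt_mul_of_pos_right h2 lpos
      rwa [add_mul, div_mul_cancel₀ _ lpos.ne', one_mul] at this
    have h4 : (n q : ℝ) + 1 ≤ N := by exact_mod_cast hn q
    have h5 : ((n q : ℝ) + 1) * lam ≤ N * lam := mul_le_mul_of_nonneg_right h4 lpos.le
    have h6 : 0 ≤ (n q : ℝ) * lam := by positivity
    have e : lam * (F n q : ℝ) = (⌈w (m₀.succAbove q) / lam⌉ : ℝ) * lam + n q * lam := by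
      rw [hF]
      push_cast
      ring
    rw [e, abs_le]
    constructor <;> nlinarith
  have hLp : 0 < |L m₀| := by
    by_contra hc
    push Not at hc
    have : 0 < δ * A := mul_pos hδ hA
    nlinarith
  -- the zero
  have hzero : ∀ n : Fin k → ℕ, (∀ q, n q < N) → ∃ s : ℝ, |s - w m₀| ≤ r₀ ∧
      f (m₀.insertNth s fun q => lam * (F n q : ℝ)) = 0 := by
    intro n hn
    set g : ℝ → ℝ := fun s => f (m₀.insertNth s fun q => lam * (F n q : ℝ)) with hg
    have hU : ∀ s, |s - w m₀| ≤ r₀ → ∀ m,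
        |(m₀.insertNth s fun q => lam * (F n q : ℝ) : Fin (k + 1) → ℝ) m - w m| ≤ r₀ := by
      intro s hs m
      rcases Fin.eq_self_or_eq_succAbove m₀ m with rfl | ⟨q, rfl⟩
      · rw [Fin.insertNth_apply_same]
        exact hs
      · rw [Fin.insertNth_apply_succAbove]
        exact (hFb n hn q).trans r₁1
    have hr₀K : r₀ ≤ 1 / K := by linarith
    have hval : ∀ s, |s - w m₀| ≤ r₀ → |g s - L m₀ * (s - w m₀)| ≤ |L m₀| * r₀ := by
      intro s hs
      have h1 := hexp _ r₀ r₀pos.le hr₀K (hU s hs)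
      rw [Fin.sum_univ_succAbove _ m₀, Fin.insertNth_apply_same] at h1
      simp only [Fin.insertNth_apply_succAbove] at h1
      have h2 : |∑ q, L (m₀.succAbove q) * (lam * (F n q : ℝ) - w (m₀.succAbove q))| ≤
          (k + 1) * (K * A * r₁) := by
        refine (Finset.abs_sum_le_sum_abs _ _).trans ?_
        have h3 : ∀ q ∈ (Finset.univ : Finset (Fin k)),
            |L (m₀.succAbove q) * (lam * (F n q : ℝ) - w (m₀.succAbove q))| ≤ K * A * r₁ := by
          intro q _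
          rw [abs_mul]
          exact mul_le_mul (hL _) (hFb n hn q) (abs_nonneg _) (by positivity)
        refine (Finset.sum_le_card_nsmul _ _ _ h3).trans ?_
        rw [Finset.card_univ, Fintype.card_fin, nsmul_eq_mul]
        have : 0 < K * A * r₁ := by positivity
        nlinarith
      have h4 : (k + 1) * (K * A * r₁) ≤ |L m₀| * r₀ / 2 := by
        have h5 : r₁ * (2 * K ^ 2 * (k + 1)) ≤ δ * r₀ := by
          rwa [le_div_iff₀ (by positivity)] at r₁2
        have h6 : δ * A * r₀ ≤ K * |L m₀| * r₀ := mul_le_mul_of_nonneg_right hm₀ r₀pos.le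
        have h7 : r₁ * (2 * K ^ 2 * (k + 1)) * A ≤ δ * r₀ * A :=
          mul_le_mul_of_nonneg_right h5 hA.le
        have h8 : K * ((k + 1) * (K * A * r₁)) ≤ K * (|L m₀| * r₀ / 2) := by nlinarith
        exact le_of_mul_le_mul_left h8 hK0
      have h9 : K * A * r₀ ^ 2 ≤ |L m₀| * r₀ / 2 := by
        have h5 : r₀ * (2 * K ^ 2) ≤ δ := by
          rwa [le_div_iff₀ (by positivity)] at r₀2
        have h6 : δ * A * r₀ ≤ K * |L m₀| * r₀ := mul_le_mul_of_nonneg_right hm₀ r₀pos.le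
        have h7 : r₀ * (2 * K ^ 2) * (A * r₀) ≤ δ * (A * r₀) :=
          mul_le_mul_of_nonneg_right h5 (by positivity)
        have h8 : K * (K * A * r₀ ^ 2) ≤ K * (|L m₀| * r₀ / 2) := by nlinarith
        exact le_of_mul_le_mul_left h8 hK0
      have e : g s - L m₀ * (s - w m₀) = (g s - (L m₀ * (s - w m₀) +
          ∑ q, L (m₀.succAbove q) * (lam * (F n q : ℝ) - w (m₀.succAbove q)))) +
          ∑ q, L (m₀.succAbove q) * (lam * (F n q : ℝ) - w (m₀.succAbove q)) := by ring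
      rw [e]
      refine (abs_add_le _ _).trans ?_
      linarith [h1]
    have hcont : ContinuousOn g (Set.Icc (w m₀ - r₀) (w m₀ + r₀)) := by
      have hl : LipschitzOnWith (Real.toNNReal (K * A)) g (Set.Icc (w m₀ - r₀) (w m₀ + r₀)) := by
        refine LipschitzOnWith.of_dist_le_mul fun x hx y hy => ?_
        rw [Real.dist_eq, Real.dist_eq, Real.coe_toNNReal _ (by positivity)]
        have hx' : |x - w m₀| ≤ r₀ := by
          rw [abs_le]
          exact ⟨by linarith [hx.1], by linarith [hx.2]⟩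
        have hy' : |y - w m₀| ≤ r₀ := by
          rw [abs_le]
          exact ⟨by linarith [hy.1], by linarith [hy.2]⟩
        refine hlip _ _ _ (abs_nonneg _) (fun m => (hU x hx' m).trans hr₀K)
          (fun m => (hU y hy' m).trans hr₀K) fun m => ?_
        rcases Fin.eq_self_or_eq_succAbove m₀ m with rfl | ⟨q, rfl⟩
        · rw [Fin.insertNth_apply_same, Fin.insertNth_apply_same]
        · rw [Fin.insertNth_apply_succAbove, Fin.insertNth_apply_succAbove, sub_self, abs_zero]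
          exact abs_nonneg _
      exact hl.continuousOn
    have v1 := hval (w m₀ + r₀) (by rw [add_sub_cancel_left, abs_of_pos r₀pos])
    have v2 := hval (w m₀ - r₀) (by
      rw [sub_sub_cancel_left, abs_neg, abs_of_pos r₀pos])
    rw [add_sub_cancel_left] at v1
    rw [sub_sub_cancel_left] at v2
    have w1 := abs_le.1 v1
    have w2 := abs_le.1 v2
    have hab : w m₀ - r₀ ≤ w m₀ + r₀ := by linarith
    have key : ∃ s ∈ Set.Icc (w m₀ - r₀) (w m₀ + r₀), g s = 0 := by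
      rcases le_or_gt 0 (L m₀) with hs | hs
      · rw [abs_of_nonneg hs] at w1 w2
        have := intermediate_value_Icc hab hcont
        exact this ⟨by linarith [w2.2], by linarith [w1.1]⟩
      · rw [abs_of_neg hs] at w1 w2
        have := intermediate_value_Icc' hab hcont
        exact this ⟨by linarith [w1.2], by linarith [w2.1]⟩
    obtain ⟨s, hs, hs0⟩ := key
    exact ⟨s, by rw [abs_le]; exact ⟨by linarith [hs.1], by linarith [hs.2]⟩, hs0⟩
  choose! Z hZ1 hZ2 using hzero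
  set G : (Fin k → ℕ) → Fin (k + 1) → ℤ := fun n =>
    m₀.insertNth ⌊Z n / lam⌋ (F n) with hG
  set D : Finset (Fin k → ℕ) := Fintype.piFinset fun _ => Finset.range N with hD
  have hGinj : Set.InjOn G D := by
    intro n _ n' _ hnn
    funext q
    have h1 := congrFun hnn (m₀.succAbove q)
    rw [hG] at h1
    simp only [Fin.insertNth_apply_succAbove] at h1
    rw [hF] at h1
    simp only [add_right_inj] at h1
    exact_mod_cast h1
  refine ⟨D.image G, ?_, ?_⟩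
  · rw [Finset.card_image_of_injOn hGinj, hD, Fintype.card_piFinset]
    simp only [Finset.card_range, Finset.prod_const, Finset.card_univ, Fintype.card_fin]
    push_cast
    rw [← div_pow]
    have e : r₁ / 2 / lam = r₁ / (2 * lam) := by field_simp
    rw [e]
    exact pow_le_pow_left₀ (by positivity) hN2 k
  · intro j hj u hu
    obtain ⟨n, hnD, rfl⟩ := Finset.mem_image.1 hj
    have hn : ∀ q, n q < N := fun q => Finset.mem_range.1 (Fintype.mem_piFinset.1 hnD q)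
    have hz1 := hZ1 n hn
    have hz2 := hZ2 n hn
    set U : Fin (k + 1) → ℝ := m₀.insertNth (Z n) fun q => lam * (F n q : ℝ) with hUd
    have hUu : ∀ m, |u m - U m| ≤ lam := by
      intro m
      have h1 := hu m
      rcases Fin.eq_self_or_eq_succAbove m₀ m with rfl | ⟨q, rfl⟩
      · rw [hG] at h1
        simp only [Fin.insertNth_apply_same] at h1
        rw [hUd, Fin.insertNth_apply_same]
        have f1 : (⌊Z n / lam⌋ : ℝ) ≤ Z n / lam := Int.floor_le _
        have f2 : Z n / lam < ⌊Z n / lam⌋ + 1 := Int.lt_floor_add_one _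
        rw [le_div_iff₀ lpos] at f1
        rw [div_lt_iff₀ lpos] at f2
        rw [abs_le]
        constructor <;> nlinarith [h1.1, h1.2]
      · rw [hG] at h1
        simp only [Fin.insertNth_apply_succAbove] at h1
        rw [hUd, Fin.insertNth_apply_succAbove, abs_le]
        constructor <;> nlinarith [h1.1, h1.2]
    have hUw : ∀ m, |U m - w m| ≤ r₀ := by
      intro m
      rcases Fin.eq_self_or_eq_succAbove m₀ m with rfl | ⟨q, rfl⟩
      · rw [hUd, Fin.insertNth_apply_same]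
        exact hz1
      · rw [hUd, Fin.insertNth_apply_succAbove]
        exact (hFb n hn q).trans r₁1
    have huw : ∀ m, |u m - w m| ≤ ρ := by
      intro m
      have h1 : |u m - w m| ≤ |u m - U m| + |U m - w m| := by
        have := abs_add_le (u m - U m) (U m - w m)
        simpa using this
      linarith [hUu m, hUw m]
    refine ⟨huw, ?_⟩
    have h1 := hlip u U lam lpos.le (fun m => (huw m).trans hρK)
      (fun m => (hUw m).trans (by linarith)) hUu
    rw [hz2, sub_zero] at h1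
    refine h1.trans ?_
    have h2 : K * θ ≤ 1 := by
      have := mul_le_mul_of_nonneg_left θ3 hK0.le
      rwa [mul_one_div_cancel hK0.ne'] at this
    have e : K * A * lam = K * θ * (h * A) := by rw [hlam]; ring
    rw [e]
    exact mul_le_of_le_one_left (by positivity) h2

theorem p_RCQ (hQ : Stmt_QAD) (hP : Stmt_PTI) (hL : Pool.GE.Stmt_LIP) : Stmt_RCQ := by
  intro k c κ c₀ δ ρ θ₀ hok hc0 hδ hρ hθ₀
  obtain ⟨K, hK, hloc⟩ := RCQ_loc hQ hP hL k c κ c₀ hok hc0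
  have hK0 : 0 < K := by linarith
  set ρ' : ℝ := min (1 / K) (ρ / K) with hρ'
  have ρpos : 0 < ρ' := lt_min (by positivity) (by positivity)
  have ρ1 : ρ' ≤ 1 / K := min_le_left _ _
  have ρ2 : ρ' ≤ ρ / K := min_le_right _ _
  obtain ⟨θ, c₂, hθ, hθ1, hc2, hgrid⟩ := RCQ_grid k K δ ρ' θ₀ hK hδ ρpos ρ1 hθ₀
  refine ⟨θ, c₂, hθ, hθ1, hc2, fun h A a y hh hh1 hA ha hz hx0 hns => ?_⟩
  obtain ⟨w, L, hL1, hL2, hexp, hlip⟩ := hloc A a y δ hA hδ ha hz hx0 hns
  obtain ⟨J, hJ1, hJ2⟩ := hgrid A h (fun u => FF (fun s => (a s : ℝ)) (PX κ u)) w L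
    (by exact_mod_cast hA) hh hh1 hL1 hL2 (fun u r hr hr1 hu => (hexp u r hr hr1 hu).2.2) hlip
  refine ⟨J, hJ1, fun j hj u hu => ?_⟩
  obtain ⟨h1, h2⟩ := hJ2 j hj u hu
  obtain ⟨e1, e2, -⟩ := hexp u ρ' ρpos.le ρ1 h1
  refine ⟨e1, h2, fun v => (e2 v).trans ?_⟩
  rwa [le_div_iff₀ hK0, mul_comm] at ρ2

end Pool.FQ
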