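import Pool.Agent.Work.MP_9fb703_fq.B_RGN

/-! # Block RG1: pairs in general position -/

set_option autoImplicit false

namespace Pool.FQ

open Finset
open Pool.HPQ (Fw Lam Kw fl rd cs Ww)
open Pool.CB (VV Sol PSN PH lin dl)
open Pool.GE
open Pool.GR (SingPr)

theorem RG1_inj (hPTI : Stmt_PTI) {k : ℕ} {c : IQ k → ℤ} {κ : Crd k} (hOk : Ok c κ)
    (y y' : Fin (k + 2) → ℤ) (hF : FF c y = 0) (hF' : FF c y' = 0)
    (h0 : pt κ.I y 0 = pt κ.I y' 0) (hne : pt κ.I y 0 ≠ 0)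
    (hz : zc (pt κ.I y) = zc (pt κ.I y')) : y = y' := by
  have h1 := RGN_eq hPTI hOk y hF
  have h2 := RGN_eq hPTI hOk y' hF'
  rw [hz, h0] at h1
  rw [h0] at hne
  have hD0 : (κ.D : ℤ) ≠ 0 := by
    have := hOk.Dpos
    exact_mod_cast this.ne'
  have e5 : pt κ.I y 1 = pt κ.I y' 1 := by
    have h3 : (κ.D : ℤ) * (pt κ.I y' 0 * pt κ.I y 1) =
        (κ.D : ℤ) * (pt κ.I y' 0 * pt κ.I y' 1) := by linarith
    exact mul_left_cancel₀ hne (mul_left_cancel₀ hD0 h3)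
  have e6 : pt κ.I y = pt κ.I y' := by
    funext i
    refine Fin.cases h0 (fun i => ?_) i
    refine Fin.cases e5 (fun l => ?_) i
    exact congrFun hz l
  rw [← (hPTI k c κ hOk ℤ y).1, ← (hPTI k c κ hOk ℤ y').1, e6]

open Classical in
theorem RG1_mem {k : ℕ} {c : IQ k → ℤ} {κ : Crd k} {s c₁ X : ℕ} (y : Fin (k + 2) → ℤ)
    (hy : y ∈ Xf c κ s c₁ X) : FF c y = 0 ∧ Prm y ∧ sn y ≤ X ∧ X ≤ 4 * sn y ∧
      ∃ n : ℕ, n.Prime ∧ X ≤ c₁ * n ∧ pt κ.I y 0 = s * n := by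
  unfold Xf Xg at hy
  rw [Finset.mem_filter, Finset.mem_filter, Fintype.mem_piFinset] at hy
  obtain ⟨⟨hb, hF, hn⟩, hP, h4⟩ := hy
  refine ⟨hF, hP, ?_, h4, hn⟩
  unfold sn
  apply Finset.sup_le
  intro v _
  have h3 := Finset.mem_Icc.1 (hb v)
  omega

theorem RG1_dvd (hPTI : Stmt_PTI) {k : ℕ} {c : IQ k → ℤ} {κ : Crd k} (hOk : Ok c κ)
    (y : Fin (k + 2) → ℤ) (hF : FF c y = 0) (n : ℤ) (h0 : n ∣ pt κ.I y 0) :
    n ∣ qd κ.g (zc (pt κ.I y)) := by
  have h1 := RGN_eq hPTI hOk y hF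
  unfold TT at h1
  have h2 : qd κ.g (zc (pt κ.I y)) = - (pt κ.I y 0 * ((κ.D : ℤ) * pt κ.I y 1 +
      ∑ j, ((κ.ll j : ℤ) : ℤ) * zc (pt κ.I y) j + ((κ.c0 : ℤ) : ℤ) * pt κ.I y 0)) := by
    linear_combination h1
  rw [h2]
  exact (Dvd.dvd.mul_right h0 _).neg_right

theorem RG1_cls (g : ℕ) (x0 a b w y0 : ℤ) (h1 : (g : ℤ) ∣ x0 * a - w * y0)
    (h2 : (g : ℤ) ∣ x0 * b - w * y0) (hg : 1 ≤ g) :
    ((g / Nat.gcd g x0.natAbs : ℕ) : ℤ) ∣ a - b := by
  have h3 : (g : ℤ) ∣ x0 * (a - b) := by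
    have := dvd_sub h1 h2
    have e : x0 * a - w * y0 - (x0 * b - w * y0) = x0 * (a - b) := by ring
    rwa [e] at this
  have h4 : g ∣ x0.natAbs * (a - b).natAbs := by
    rw [← Int.natAbs_mul]
    exact Int.natCast_dvd.1 h3
  have hd : 0 < Nat.gcd g x0.natAbs := Nat.gcd_pos_of_pos_left _ hg
  have h5 : g / Nat.gcd g x0.natAbs ∣ (x0.natAbs / Nat.gcd g x0.natAbs) * (a - b).natAbs := by
    have h6 : Nat.gcd g x0.natAbs * (g / Nat.gcd g x0.natAbs) ∣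
        Nat.gcd g x0.natAbs * ((x0.natAbs / Nat.gcd g x0.natAbs) * (a - b).natAbs) := by
      rw [Nat.mul_div_cancel' (Nat.gcd_dvd_left _ _), ← mul_assoc,
        Nat.mul_div_cancel' (Nat.gcd_dvd_right _ _)]
      exact h4
    exact Nat.dvd_of_mul_dvd_mul_left hd h6
  have h6 : Nat.Coprime (g / Nat.gcd g x0.natAbs) (x0.natAbs / Nat.gcd g x0.natAbs) :=
    Nat.coprime_div_gcd_div_gcd hd
  have h7 := h6.dvd_of_dvd_mul_left h5
  exact Int.natCast_dvd.2 h7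

theorem RG1_ev (A B : ℝ) : ∃ X₁ : ℕ, ∀ X : ℕ, X₁ ≤ X →
    A * (B + Real.log X) ≤ (X : ℝ) ^ (1 / 8 : ℝ) := by
  have h1 : (fun x : ℝ => A * (B + Real.log x)) =o[Filter.atTop] fun x : ℝ => x ^ (1 / 8 : ℝ) := by
    refine Asymptotics.IsLittleO.const_mul_left ?_ A
    refine Asymptotics.IsLittleO.add ?_ (isLittleO_log_rpow_atTop (by norm_num))
    refine Asymptotics.isLittleO_const_left.2 (Or.inr ?_)
    exact tendsto_norm_atTop_atTop.comp (tendsto_rpow_atTop (by norm_num))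
  have h2 := h1.bound (show (0 : ℝ) < 1 by norm_num)
  have h3 := (tendsto_natCast_atTop_atTop (R := ℝ)).eventually h2
  obtain ⟨X₁, hX₁⟩ := Filter.eventually_atTop.1 h3
  refine ⟨X₁, fun X hX => ?_⟩
  have h4 := hX₁ X hX
  rw [one_mul, Real.norm_eq_abs, Real.norm_eq_abs,
    abs_of_nonneg (Real.rpow_nonneg (Nat.cast_nonneg X) _)] at h4
  exact (le_abs_self _).trans h4

open Classical in
theorem RG1_one (hPTI : Stmt_PTI) {k : ℕ} {c : IQ k → ℤ} {κ : Crd k} (hOk : Ok c κ) (s c₁ : ℕ)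
    (hs : 1 ≤ s) (hc₁ : 1 ≤ c₁) (Ct : ℝ) (hCt : 1 ≤ Ct)
    (hT : ∀ x y : Fin (k + 2) → ℤ,
      (∀ i, |((pt κ.I x i : ℤ) : ℝ)| ≤ Ct * sn x) ∧
      (∀ i j, |((om (pt κ.I x) (pt κ.I y) i j : ℤ) : ℝ)| ≤ Ct * De x y) ∧
      ∀ g : ℕ, Dv g x y → ∀ i j, (g : ℤ) ∣ om (pt κ.I x) (pt κ.I y) i j)
    (CB : ℝ) (hCB : 1 ≤ CB)
    (hBX : ∀ (g : Fin k → Fin k → ℤ) (n : ℕ)
      [Fact n.Prime], ¬ (n : ℤ) ∣ dg g → ∀ (g' : ℕ) (ζ : Fin k → ℤ) (u : Fin k → ℝ) (r : ℝ),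
      1 ≤ g' → ¬ n ∣ g' → (g' : ℝ) ≤ (2 * Ct * c₁ ^ 2) * r → r ≤ (2 * Ct * c₁ ^ 2) * n →
      ∀ S : Finset (Fin k → ℤ),
      (∀ z ∈ S, (∀ j, |(z j : ℝ) - u j| ≤ r ∧ (g' : ℤ) ∣ z j - ζ j) ∧ (n : ℤ) ∣ qd g z) →
      (S.card : ℝ) ≤ CB * ((r / g') ^ k / n + (√(n : ℝ)) ^ k * (2 + Real.log n) ^ k))
    (X G g : ℕ) (hX1 : 1 ≤ X) (hg1 : 1 ≤ g) (hgG : g ≤ G) (hG16 : G ^ 16 ≤ X)
    (hGn : ∀ m : ℕ, X ≤ c₁ * m → G < m) (Z : ℝ) (hZ1 : (X : ℝ) ^ 2 ≤ G * Z)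
    (hZ2 : Z ≤ 2 * (X : ℝ) ^ 2) (x : Fin (k + 2) → ℤ) (hx : x ∈ Xf c κ s c₁ X)
    (n : ℕ) (hn : n.Prime) (hXn : X ≤ c₁ * n) (hdg : ¬ (n : ℤ) ∣ dg κ.g) :
    (((Xf c κ s c₁ X).filter fun y => (Dv g x y ∧ (De x y : ℝ) ≤ Z) ∧
      pt κ.I y 0 = s * n).card : ℝ) ≤
      CB * ((Ct * c₁ * s * (Z / (X * g))) ^ k * (c₁ / X) +
        (√(n : ℝ)) ^ k * (2 + Real.log n) ^ k) := by
  have : Fact n.Prime := ⟨hn⟩
  have hXr : (1 : ℝ) ≤ X := by exact_mod_cast hX1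
  have hc₁r : (1 : ℝ) ≤ c₁ := by exact_mod_cast hc₁
  have hsr : (1 : ℝ) ≤ s := by exact_mod_cast hs
  have hgr : (1 : ℝ) ≤ g := by exact_mod_cast hg1
  have hnr : (1 : ℝ) ≤ n := by exact_mod_cast hn.one_lt.le
  have hG1 : 1 ≤ G := hg1.trans hgG
  have hGr : (1 : ℝ) ≤ G := by exact_mod_cast hG1
  have hXnr : (X : ℝ) ≤ c₁ * n := by exact_mod_cast hXn
  have hZ0 : 0 < Z := by
    by_contra hcon
    push Not at hcon
    nlinarith
  have hlogn : 0 ≤ Real.log n := Real.log_nonneg hnr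
  obtain ⟨hxF, hxP, hxX, -, nx, hnx, hXnx, hx0⟩ := RG1_mem x hx
  have hnxr : (X : ℝ) ≤ c₁ * nx := by exact_mod_cast hXnx
  have hnx1 : (1 : ℝ) ≤ nx := by exact_mod_cast hnx.one_lt.le
  set S := (Xf c κ s c₁ X).filter fun y => (Dv g x y ∧ (De x y : ℝ) ≤ Z) ∧
      pt κ.I y 0 = s * n with hS
  have hinj : Set.InjOn (fun y => zc (pt κ.I y)) (S : Set (Fin (k + 2) → ℤ)) := by
    intro y hy y' hy' hyy
    rw [Finset.mem_coe, hS, Finset.mem_filter] at hy hy'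
    obtain ⟨hF, -⟩ := RG1_mem y hy.1
    obtain ⟨hF', -⟩ := RG1_mem y' hy'.1
    refine RG1_inj hPTI hOk y y' hF hF' ?_ ?_ hyy
    · rw [hy.2.2, hy'.2.2]
    · rw [hy.2.2]
      have : 0 < s * n := Nat.mul_pos hs hn.pos
      exact_mod_cast this.ne'
  rw [← Finset.card_image_of_injOn hinj]
  have hrhs : 0 ≤ CB * ((Ct * c₁ * s * (Z / (X * g))) ^ k * (c₁ / X) +
        (√(n : ℝ)) ^ k * (2 + Real.log n) ^ k) := by positivity
  rcases S.eq_empty_or_nonempty with hemp | ⟨y₁, hy₁⟩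
  · rw [hemp, Finset.image_empty, Finset.card_empty, Nat.cast_zero]
    exact hrhs
  -- the parameters
  set d : ℕ := Nat.gcd g (pt κ.I x 0).natAbs with hd
  have hd1 : 0 < d := Nat.gcd_pos_of_pos_left _ hg1
  have hdg' : d ∣ g := Nat.gcd_dvd_left _ _
  have hds : d ≤ s := by
    have h1 : (pt κ.I x 0).natAbs = s * nx := by
      rw [hx0]
      exact_mod_cast Int.natAbs_natCast (s * nx)
    have h2 : Nat.Coprime g nx := by
      rw [Nat.coprime_comm]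
      refine (Nat.Prime.coprime_iff_not_dvd hnx).2 fun hdv => ?_
      have h3 := Nat.le_of_dvd hg1 hdv
      have h4 := hGn nx hXnx
      omega
    rw [hd, h1, Nat.Coprime.gcd_mul_right_cancel_right s h2.symm]
    exact Nat.gcd_le_right _ hs
  obtain ⟨g₁, hg₁⟩ : ∃ g₁ : ℕ, g₁ = g / d := ⟨_, rfl⟩
  have hg₁1 : 1 ≤ g₁ := by
    rw [hg₁]
    exact Nat.div_pos (Nat.le_of_dvd hg1 hdg') hd1
  have hgd : g₁ * d = g := by
    rw [hg₁]
    exact Nat.div_mul_cancel hdg'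
  have hg₁g : g₁ ≤ g := by
    rw [hg₁]
    exact Nat.div_le_self _ _
  have hg₁r : (1 : ℝ) ≤ g₁ := by exact_mod_cast hg₁1
  set r : ℝ := Ct * c₁ * Z / X with hr
  have hx0pos : (X : ℝ) / c₁ ≤ ((pt κ.I x 0 : ℤ) : ℝ) := by
    rw [hx0]
    push_cast
    rw [div_le_iff₀ (by linarith)]
    nlinarith [mul_nonneg (sub_nonneg.2 hsr) (sub_nonneg.2 hnx1)]
  have hx0p : (0 : ℝ) < ((pt κ.I x 0 : ℤ) : ℝ) := lt_of_lt_of_le (by positivity) hx0pos
  have hmain := hBX κ.g n hdg g₁ (fun j => zc (pt κ.I y₁) j)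
    (fun j => ((s * n : ℕ) : ℝ) / ((pt κ.I x 0 : ℤ) : ℝ) * ((zc (pt κ.I x) j : ℤ) : ℝ)) r hg₁1
    (by
      intro hdv
      have h3 := Nat.le_of_dvd hg₁1 hdv
      have h4 := hGn n hXn
      omega)
    (by
      -- g₁ ≤ B r
      have h1 : (g₁ : ℝ) ≤ G := by exact_mod_cast hg₁g.trans hgG
      have h2 : (G : ℝ) ^ 16 ≤ X := by exact_mod_cast hG16
      have h3 : (G : ℝ) ^ 2 ≤ (G : ℝ) ^ 16 := pow_le_pow_right₀ hGr (by norm_num)
      have h4 : (G : ℝ) * X ≤ Z := by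
        have h5 : (G : ℝ) * (G * X) ≤ G * Z := by nlinarith
        exact le_of_mul_le_mul_left h5 (by linarith)
      have h5 : (G : ℝ) ≤ Z / X := by
        rw [le_div_iff₀ (by linarith)]
        exact h4
      have h6 : Z / X ≤ r := by
        rw [hr]
        have h7 : Z ≤ Ct * c₁ * Z := by
          have : (1 : ℝ) ≤ Ct * c₁ := by nlinarith
          nlinarith
        exact div_le_div_of_nonneg_right h7 (by linarith)
      have h7 : (1 : ℝ) ≤ 2 * Ct * c₁ ^ 2 := by nlinarith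
      have h8 : 0 ≤ r := by positivity
      nlinarith)
    (by
      -- r ≤ B n
      rw [hr, div_le_iff₀ (by linarith)]
      have h1 : Ct * c₁ * Z ≤ Ct * c₁ * (2 * (X : ℝ) ^ 2) :=
        mul_le_mul_of_nonneg_left hZ2 (by positivity)
      have h2 : Ct * c₁ * (2 * (X : ℝ) ^ 2) = 2 * Ct * c₁ * X * X := by ring
      have h3 : 2 * Ct * c₁ * X * X ≤ 2 * Ct * c₁ * (c₁ * n) * X := by
        apply mul_le_mul_of_nonneg_right _ (by linarith)
        exact mul_le_mul_of_nonneg_left hXnr (by positivity)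
      calc Ct * c₁ * Z ≤ 2 * Ct * c₁ * (c₁ * n) * X := by linarith
        _ = 2 * Ct * c₁ ^ 2 * n * X := by ring)
    (S.image fun y => zc (pt κ.I y)) (by
      intro z hz
      obtain ⟨y, hy, rfl⟩ := Finset.mem_image.1 hz
      rw [hS, Finset.mem_filter] at hy hy₁
      obtain ⟨hF, -⟩ := RG1_mem y hy.1
      refine ⟨fun j => ⟨?_, ?_⟩, ?_⟩
      · have h1 := (hT x y).2.1 0 j.succ.succ
        have h2 : Ct * (De x y : ℝ) ≤ Ct * Z :=
          mul_le_mul_of_nonneg_left hy.2.1.2 (by linarith)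
        have h3 : ((om (pt κ.I x) (pt κ.I y) 0 j.succ.succ : ℤ) : ℝ) =
            ((pt κ.I x 0 : ℤ) : ℝ) * (((zc (pt κ.I y) j : ℤ) : ℝ) -
            ((s * n : ℕ) : ℝ) / ((pt κ.I x 0 : ℤ) : ℝ) * ((zc (pt κ.I x) j : ℤ) : ℝ)) := by
          unfold om
          rw [hy.2.2]
          push_cast
          have : ((pt κ.I x 0 : ℤ) : ℝ) ≠ 0 := hx0p.ne'
          field_simp
          unfold zc
          ring
        rw [h3, abs_mul, abs_of_pos hx0p] at h1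
        have h4 : (X : ℝ) / c₁ * |((zc (pt κ.I y) j : ℤ) : ℝ) -
            ((s * n : ℕ) : ℝ) / ((pt κ.I x 0 : ℤ) : ℝ) * ((zc (pt κ.I x) j : ℤ) : ℝ)| ≤
            Ct * Z := by
          refine le_trans ?_ (h1.trans h2)
          exact mul_le_mul_of_nonneg_right hx0pos (abs_nonneg _)
        rw [hr, le_div_iff₀ (by linarith)]
        rw [div_mul_eq_mul_div, div_le_iff₀ (by linarith)] at h4
        linarith
      · have h1 := (hT x y).2.2 g hy.2.1.1 0 j.succ.succ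
        have h2 := (hT x y₁).2.2 g hy₁.2.1.1 0 j.succ.succ
        unfold om at h1 h2
        rw [hy.2.2] at h1
        rw [hy₁.2.2] at h2
        have h3 := RG1_cls g (pt κ.I x 0) (pt κ.I y j.succ.succ) (pt κ.I y₁ j.succ.succ) _ _
          h1 h2 hg1
        rw [hg₁, hd]
        exact h3
      · refine RG1_dvd hPTI hOk y hF n ?_
        rw [hy.2.2]
        exact Dvd.intro_left _ rfl)
  refine hmain.trans (mul_le_mul_of_nonneg_left ?_ (by linarith))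
  refine add_le_add ?_ (le_refl _)
  have h1 : r / g₁ ≤ Ct * c₁ * s * (Z / (X * g)) := by
    rw [div_le_iff₀ (by linarith), hr]
    have h2 : (g : ℝ) ≤ s * g₁ := by
      rw [← hgd]
      push_cast
      have : (d : ℝ) ≤ s := by exact_mod_cast hds
      nlinarith
    have h3 : Ct * c₁ * s * (Z / (X * g)) * g₁ = (Ct * c₁ * Z / X) * ((s * g₁) / g) := by
      field_simp
    rw [h3]
    have h4 : (1 : ℝ) ≤ (s * g₁) / g := by
      rw [le_div_iff₀ (by linarith)]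
      linarith
    have h5 : 0 ≤ Ct * c₁ * Z / X := by positivity
    nlinarith
  have h2 : 0 ≤ r / g₁ := by positivity
  have h3 : (r / g₁) ^ k ≤ (Ct * c₁ * s * (Z / (X * g))) ^ k := pow_le_pow_left₀ h2 h1 k
  have h4 : (1 : ℝ) / n ≤ c₁ / X := by
    rw [div_le_div_iff₀ (by linarith) (by linarith)]
    linarith
  rw [div_eq_mul_one_div]
  exact mul_le_mul h3 h4 (by positivity) (by positivity)

theorem RG1_root (X : ℕ) (hX : 1 ≤ X) : ∃ t : ℝ, 1 ≤ t ∧ t ^ 8 = X ∧ t = (X : ℝ) ^ (1 / 8 : ℝ) ∧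
    √(X : ℝ) = t ^ 4 := by
  have hXr : (1 : ℝ) ≤ X := by exact_mod_cast hX
  refine ⟨(X : ℝ) ^ (1 / 8 : ℝ), Real.one_le_rpow hXr (by norm_num), ?_, rfl, ?_⟩
  · rw [← Real.rpow_natCast, ← Real.rpow_mul (by linarith)]
    norm_num
  · have h8 : ((X : ℝ) ^ (1 / 8 : ℝ)) ^ 8 = X := by
      rw [← Real.rpow_natCast, ← Real.rpow_mul (by linarith)]
      norm_num
    have h4 : (0 : ℝ) ≤ ((X : ℝ) ^ (1 / 8 : ℝ)) ^ 4 := by positivity
    rw [← Real.sqrt_sq h4]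
    congr 1
    rw [← pow_mul, h8]

open Classical in
theorem p_RG1 (hPTI : Stmt_PTI) (hTUB : Stmt_TUB) (hCHU : Stmt_CHU) (hBXU : Stmt_BXU)
    (hDEL : Pool.GE.Stmt_DEL) : Stmt_RG1 := by
  intro k c κ s c₁ hk hOk hs hc₁
  obtain ⟨Ct, hCt, hT⟩ := hTUB k κ
  have hc₁r : (1 : ℝ) ≤ c₁ := by exact_mod_cast hc₁
  have hsr : (1 : ℝ) ≤ s := by exact_mod_cast hs
  obtain ⟨CB, hCB, hBX⟩ := hBXU k (2 * Ct * c₁ ^ 2) (by nlinarith)
  obtain ⟨Cc, hCc, hCH⟩ := hCHU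
  obtain ⟨K, hK⟩ : ∃ K : ℕ, K = ⌈Ct⌉₊ := ⟨_, rfl⟩
  have hCtK : Ct ≤ K := by
    rw [hK]
    exact Nat.le_ceil Ct
  have hKr : (1 : ℝ) ≤ K := hCt.trans hCtK
  have hK1 : 1 ≤ K := by exact_mod_cast hKr
  obtain ⟨X₁, hX₁⟩ := RG1_ev (√(K : ℝ)) (2 + Real.log K)
  obtain ⟨E, hE⟩ : ∃ E : ℝ, E = (Ct * c₁ * s) ^ k * c₁ + 1 := ⟨_, rfl⟩
  have hE1 : 1 ≤ E := by
    rw [hE]
    have : 0 ≤ (Ct * c₁ * s) ^ k * c₁ := by positivity
    linarith
  refine ⟨Cc * K * (CB * E), X₁ + c₁ ^ 2 + c₁ * (dg κ.g).natAbs + 3, ?_, by omega, ?_⟩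
  · have h1 : 1 ≤ Cc * K := by nlinarith
    have h2 : 1 ≤ CB * E := by nlinarith
    nlinarith
  intro X G g hX hg1 hgG hG16 Z₀ hZ₀ x hx
  have hX3 : 3 ≤ X := by omega
  have hX1 : 1 ≤ X := by omega
  have hXr : (3 : ℝ) ≤ X := by exact_mod_cast hX3
  have hG1 : 1 ≤ G := hg1.trans hgG
  have hGr : (1 : ℝ) ≤ G := by exact_mod_cast hG1
  have hgr : (1 : ℝ) ≤ g := by exact_mod_cast hg1
  have hgGr : (g : ℝ) ≤ G := by exact_mod_cast hgG
  have hlogX : 0 < Real.log X := Real.log_pos (by linarith)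
  obtain ⟨t, ht1, ht8, ht, hsq⟩ := RG1_root X hX1
  have hGn : ∀ m : ℕ, X ≤ c₁ * m → G < m := by
    intro m hm
    by_contra hcon
    push Not at hcon
    have h1 : X ≤ c₁ * G := hm.trans (Nat.mul_le_mul_left _ hcon)
    have h2 : G ^ 2 ≤ X := (Nat.pow_le_pow_right hG1 (by norm_num)).trans hG16
    have h3 : X * X ≤ c₁ ^ 2 * X := by
      calc X * X ≤ (c₁ * G) * (c₁ * G) := Nat.mul_le_mul h1 h1
        _ = c₁ ^ 2 * G ^ 2 := by ring
        _ ≤ c₁ ^ 2 * X := Nat.mul_le_mul_left _ h2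
    have h4 := Nat.le_of_mul_le_mul_right h3 (by omega)
    omega
  have hdgn : ∀ n : ℕ, X ≤ c₁ * n → ¬ (n : ℤ) ∣ dg κ.g := by
    intro n hn hdv
    have h1 : n ∣ (dg κ.g).natAbs := Int.natCast_dvd.1 hdv
    have h2 : 0 < (dg κ.g).natAbs := Int.natAbs_pos.2 hOk.nons
    have h3 := Nat.le_of_dvd h2 h1
    have h4 := Nat.mul_le_mul_left c₁ h3
    omega
  -- the case `Z ≤ 2 X ^ 2`
  have key : ∀ Z : ℝ, (X : ℝ) ^ 2 ≤ G * Z → Z ≤ 2 * (X : ℝ) ^ 2 →
      (((Xf c κ s c₁ X).filter fun y => Dv g x y ∧ (De x y : ℝ) ≤ Z).card : ℝ) ≤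
      Cc * K * (CB * E) * (Z / (X * g)) ^ k / Real.log X := by
    intro Z hZ1 hZ2
    have hZ0 : 0 < Z := by
      by_contra hcon
      push Not at hcon
      nlinarith
    obtain ⟨q, hq⟩ : ∃ q : ℝ, q = Z / (X * g) := ⟨_, rfl⟩
    have hq7 : t ^ 7 ≤ q := by
      have h1 : (G : ℝ) ^ 2 ≤ t := by
        have h2 : ((G : ℝ) ^ 2) ^ 8 ≤ t ^ 8 := by
          rw [ht8, ← pow_mul]
          exact_mod_cast hG16
        exact le_of_pow_le_pow_left₀ (by norm_num) (by linarith) h2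
      rw [hq, le_div_iff₀ (by positivity)]
      have h2 : (G : ℝ) * (t ^ 7 * (X * g)) ≤ G * Z := by
        have h3 : (G : ℝ) * (t ^ 7 * (X * g)) ≤ t ^ 8 * X := by
          have h4 : (G : ℝ) * g ≤ t := by nlinarith
          calc (G : ℝ) * (t ^ 7 * (X * g)) = (G * g) * (t ^ 7 * X) := by ring
            _ ≤ t * (t ^ 7 * X) := mul_le_mul_of_nonneg_right h4 (by positivity)
            _ = t ^ 8 * X := by ring
        rw [ht8] at h3
        nlinarith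
      exact le_of_mul_le_mul_left h2 (by linarith)
    have hq0 : 0 < q := lt_of_lt_of_le (by positivity) hq7
    set P := ((range (K * X + 1)).filter Nat.Prime).filter fun n => X ≤ c₁ * n with hP
    have hsub : ((Xf c κ s c₁ X).filter fun y => Dv g x y ∧ (De x y : ℝ) ≤ Z) ⊆
        P.biUnion fun n => (Xf c κ s c₁ X).filter fun y => (Dv g x y ∧ (De x y : ℝ) ≤ Z) ∧
          pt κ.I y 0 = s * n := by
      intro y hy
      rw [Finset.mem_filter] at hy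
      obtain ⟨-, -, hyX, -, n, hn, hXn, hy0⟩ := RG1_mem y hy.1
      rw [Finset.mem_biUnion]
      refine ⟨n, ?_, Finset.mem_filter.2 ⟨hy.1, hy.2, hy0⟩⟩
      rw [hP, Finset.mem_filter, Finset.mem_filter, Finset.mem_range]
      refine ⟨⟨?_, hn⟩, hXn⟩
      have h1 := (hT y y).1 0
      rw [hy0] at h1
      push_cast at h1
      have hnr : (0 : ℝ) ≤ n := Nat.cast_nonneg _
      rw [abs_of_nonneg (by positivity)] at h1
      have h2 : (n : ℝ) ≤ s * n := by nlinarith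
      have h3 : (sn y : ℝ) ≤ X := by exact_mod_cast hyX
      have h4 : Ct * (sn y : ℝ) ≤ K * X :=
        mul_le_mul hCtK h3 (Nat.cast_nonneg _) (by linarith)
      have h5 : (n : ℝ) ≤ K * X := h2.trans (h1.trans h4)
      have h6 : n ≤ K * X := by exact_mod_cast h5
      omega
    have hone : ∀ n ∈ P, (((Xf c κ s c₁ X).filter fun y => (Dv g x y ∧ (De x y : ℝ) ≤ Z) ∧
          pt κ.I y 0 = s * n).card : ℝ) ≤ CB * E * q ^ k / X := by
      intro n hn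
      rw [hP, Finset.mem_filter, Finset.mem_filter, Finset.mem_range] at hn
      obtain ⟨⟨hnK, hnp⟩, hXn⟩ := hn
      have h1 := RG1_one hPTI hOk s c₁ hs hc₁ Ct hCt hT CB hCB hBX X G g hX1 hg1 hgG hG16 hGn Z
        hZ1 hZ2 x hx n hnp hXn (hdgn n hXn)
      refine h1.trans ?_
      have hn1 : (1 : ℝ) ≤ n := by exact_mod_cast hnp.one_lt.le
      have hnKr : (n : ℝ) ≤ K * X := by
        have : n ≤ K * X := by omega
        exact_mod_cast this
      have hlogn : 0 ≤ Real.log n := Real.log_nonneg hn1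
      have h2 : √(n : ℝ) ≤ √(K : ℝ) * t ^ 4 := by
        rw [← hsq, ← Real.sqrt_mul (by linarith)]
        exact Real.sqrt_le_sqrt hnKr
      have h3 : Real.log n ≤ Real.log K + Real.log X := by
        rw [← Real.log_mul (by linarith) (by linarith)]
        exact Real.log_le_log (by linarith) hnKr
      have h4 : √(n : ℝ) * (2 + Real.log n) ≤ t ^ 5 := by
        have h5 := hX₁ X (by omega)
        rw [← ht] at h5
        have h6 : √(n : ℝ) * (2 + Real.log n) ≤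
            (√(K : ℝ) * t ^ 4) * (2 + Real.log K + Real.log X) :=
          mul_le_mul h2 (by linarith) (by linarith) (by positivity)
        calc √(n : ℝ) * (2 + Real.log n) ≤
            (√(K : ℝ) * t ^ 4) * (2 + Real.log K + Real.log X) := h6
          _ = t ^ 4 * (√(K : ℝ) * (2 + Real.log K + Real.log X)) := by ring
          _ ≤ t ^ 4 * t := mul_le_mul_of_nonneg_left h5 (by positivity)
          _ = t ^ 5 := by ring
      have h5 : (√(n : ℝ)) ^ k * (2 + Real.log n) ^ k ≤ q ^ k / X := by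
        rw [← mul_pow, le_div_iff₀ (by linarith), ← ht8]
        have h6 : (√(n : ℝ) * (2 + Real.log n)) ^ k ≤ (t ^ 5) ^ k :=
          pow_le_pow_left₀ (by positivity) h4 k
        have h7 : t ^ 8 ≤ (t ^ 2) ^ k := by
          rw [← pow_mul]
          exact pow_le_pow_right₀ ht1 (by omega)
        calc (√(n : ℝ) * (2 + Real.log n)) ^ k * t ^ 8 ≤ (t ^ 5) ^ k * (t ^ 2) ^ k :=
            mul_le_mul h6 h7 (by positivity) (by positivity)
          _ = (t ^ 7) ^ k := by rw [← mul_pow]; congr 1; ring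
          _ ≤ q ^ k := pow_le_pow_left₀ (by positivity) hq7 k
      have h6 : (Ct * c₁ * s * (Z / (X * g))) ^ k * (c₁ / X) =
          (Ct * c₁ * s) ^ k * c₁ * (q ^ k / X) := by
        rw [← hq, mul_pow]
        ring
      rw [h6]
      calc CB * ((Ct * c₁ * s) ^ k * c₁ * (q ^ k / X) + √(n : ℝ) ^ k * (2 + Real.log n) ^ k) ≤
          CB * ((Ct * c₁ * s) ^ k * c₁ * (q ^ k / X) + q ^ k / X) := by
            apply mul_le_mul_of_nonneg_left _ (by linarith)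
            linarith
        _ = CB * E * q ^ k / X := by
            rw [hE]
            ring
    have h1 : (((Xf c κ s c₁ X).filter fun y => Dv g x y ∧ (De x y : ℝ) ≤ Z).card : ℝ) ≤
        ∑ n ∈ P, (((Xf c κ s c₁ X).filter fun y => (Dv g x y ∧ (De x y : ℝ) ≤ Z) ∧
          pt κ.I y 0 = s * n).card : ℝ) := by
      have := (Finset.card_le_card hsub).trans Finset.card_biUnion_le
      exact_mod_cast this
    have h2 : ∑ n ∈ P, (((Xf c κ s c₁ X).filter fun y => (Dv g x y ∧ (De x y : ℝ) ≤ Z) ∧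
          pt κ.I y 0 = s * n).card : ℝ) ≤ P.card * (CB * E * q ^ k / X) := by
      have := Finset.sum_le_card_nsmul P _ _ hone
      rwa [nsmul_eq_mul] at this
    have h3 : (P.card : ℝ) ≤ Cc * K * X / Real.log X := by
      have h4 : P.card ≤ ((range (K * X + 1)).filter Nat.Prime).card :=
        Finset.card_le_card (Finset.filter_subset _ _)
      have h5 : (P.card : ℝ) ≤ (((range (K * X + 1)).filter Nat.Prime).card : ℝ) := by
        exact_mod_cast h4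
      have h6 := hCH (K * X) (by nlinarith)
      refine h5.trans (h6.trans ?_)
      push_cast
      have h7 : Real.log X ≤ Real.log (K * X) := by
        apply Real.log_le_log (by linarith)
        nlinarith
      have h8 : Cc * (K * X : ℝ) = Cc * K * X := by ring
      rw [h8]
      exact div_le_div_of_nonneg_left (by positivity) hlogX h7
    have h4 : 0 ≤ CB * E * q ^ k / X := by positivity
    rw [← hq]
    calc (((Xf c κ s c₁ X).filter fun y => Dv g x y ∧ (De x y : ℝ) ≤ Z).card : ℝ) ≤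
        P.card * (CB * E * q ^ k / X) := h1.trans h2
      _ ≤ (Cc * K * X / Real.log X) * (CB * E * q ^ k / X) :=
          mul_le_mul_of_nonneg_right h3 h4
      _ = Cc * K * (CB * E) * q ^ k / Real.log X := by
          field_simp
  have hfin : ∀ Z : ℝ, (((Xf c κ s c₁ X).filter fun y => ¬ Ex κ c₁ X x y ∧ Dv g x y ∧
      (De x y : ℝ) ≤ Z).card : ℝ) ≤
      (((Xf c κ s c₁ X).filter fun y => Dv g x y ∧ (De x y : ℝ) ≤ Z).card : ℝ) := by
    intro Z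
    have : ((Xf c κ s c₁ X).filter fun y => ¬ Ex κ c₁ X x y ∧ Dv g x y ∧
      (De x y : ℝ) ≤ Z) ⊆ (Xf c κ s c₁ X).filter fun y => Dv g x y ∧ (De x y : ℝ) ≤ Z := by
      intro y hy
      rw [Finset.mem_filter] at hy ⊢
      exact ⟨hy.1, hy.2.2⟩
    exact_mod_cast Finset.card_le_card this
  rcases le_or_gt Z₀ (2 * (X : ℝ) ^ 2) with hZ2 | hZ2
  · exact (hfin Z₀).trans (key Z₀ hZ₀ hZ2)
  · have h1 : ((Xf c κ s c₁ X).filter fun y => Dv g x y ∧ (De x y : ℝ) ≤ Z₀) ⊆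
        (Xf c κ s c₁ X).filter fun y => Dv g x y ∧ (De x y : ℝ) ≤ 2 * (X : ℝ) ^ 2 := by
      intro y hy
      rw [Finset.mem_filter] at hy ⊢
      refine ⟨hy.1, hy.2.1, ?_⟩
      obtain ⟨-, hxP, hxX, -, -⟩ := RG1_mem x hx
      obtain ⟨-, -, hyX, -, -⟩ := RG1_mem y hy.1
      have h2 := (hDEL (Fin (k + 2)) x y hxP).2.1
      have h3 : De x y ≤ 2 * (X * X) :=
        h2.trans (Nat.mul_le_mul_left _ (Nat.mul_le_mul hxX hyX))
      have h4 : (De x y : ℝ) ≤ 2 * (X * X) := by exact_mod_cast h3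
      linarith [h4, sq (X : ℝ)]
    have h2 : (((Xf c κ s c₁ X).filter fun y => Dv g x y ∧ (De x y : ℝ) ≤ Z₀).card : ℝ) ≤
        (((Xf c κ s c₁ X).filter fun y => Dv g x y ∧
          (De x y : ℝ) ≤ 2 * (X : ℝ) ^ 2).card : ℝ) := by
      exact_mod_cast Finset.card_le_card h1
    have h3 := key (2 * (X : ℝ) ^ 2) (by nlinarith) (le_refl _)
    refine (hfin Z₀).trans (h2.trans (h3.trans ?_))
    apply div_le_div_of_nonneg_right _ hlogX.le
    apply mul_le_mul_of_nonneg_left _ (by positivity)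
    apply pow_le_pow_left₀ (by positivity)
    exact div_le_div_of_nonneg_right hZ2.le (by positivity)

end Pool.FQ
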