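import Pool.Agent.Work.MP_9fb703_fq.Interface1

/-! # Block RGN: pairs for which the prime of the first vector divides the content -/

set_option autoImplicit false

namespace Pool.FQ

open Finset
open Pool.HPQ (Fw Lam Kw fl rd cs Ww)
open Pool.CB (VV Sol PSN PH lin dl)
open Pool.GE
open Pool.GR (SingPr)

theorem RGN_div {k : ℕ} (M : Fin (k + 2) → Fin (k + 2) → ℤ) (t : Fin (k + 2) → ℤ) (n : ℤ)
    (h : ∀ i, n ∣ t i) (v : Fin (k + 2)) : n ∣ pt M t v := by
  unfold pt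
  exact Finset.dvd_sum fun i _ => Dvd.dvd.mul_left (h i) _

theorem RGN_TT {k : ℕ} (κ : Crd k) (n x0 : ℤ) (z : Fin k → ℤ) (h0 : n ∣ x0)
    (hz : ∀ j, n ∣ z j) : n * n ∣ TT κ x0 z := by
  unfold TT qd
  refine dvd_add (dvd_add ?_ ?_) ?_
  · exact Finset.dvd_sum fun i _ => Finset.dvd_sum fun j _ =>
      Dvd.dvd.mul_left (mul_dvd_mul (hz i) (hz j)) _
  · exact mul_dvd_mul h0 (Finset.dvd_sum fun j _ => Dvd.dvd.mul_left (hz j) _)
  · rw [pow_two]
    exact Dvd.dvd.mul_left (mul_dvd_mul h0 h0) _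

theorem RGN_eq (hPTI : Stmt_PTI) {k : ℕ} {c : IQ k → ℤ} {κ : Crd k} (hOk : Ok c κ)
    (x : Fin (k + 2) → ℤ) (hF : FF c x = 0) :
    (κ.D : ℤ) * (pt κ.I x 0 * pt κ.I x 1) + TT κ (pt κ.I x 0) (zc (pt κ.I x)) = 0 := by
  have h := (hPTI k c κ hOk ℤ x).2.2
  have e : (fun s => (Int.cast (c s) : ℤ)) = c := by
    funext s
    exact Int.cast_id
  rw [e, hF] at h
  exact h.symm

theorem RGN_A (hPTI : Stmt_PTI) {k : ℕ} {c : IQ k → ℤ} {κ : Crd k} (hOk : Ok c κ)
    (x : Fin (k + 2) → ℤ) (hF : FF c x = 0) (hP : Prm x) (s n : ℕ) (hn : n.Prime) (hs : 1 ≤ s)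
    (hsn : s < n) (hD : κ.D < n) (h0 : pt κ.I x 0 = s * n) :
    ∃ j : Fin k, ¬ (n : ℤ) ∣ zc (pt κ.I x) j := by
  by_contra hcon
  push Not at hcon
  have hpr : Prime (n : ℤ) := Nat.prime_iff_prime_int.1 hn
  have hx0 : (n : ℤ) ∣ pt κ.I x 0 := by
    rw [h0]
    exact Dvd.intro_left _ rfl
  have h1 := RGN_eq hPTI hOk x hF
  have h2 := RGN_TT κ (n : ℤ) _ _ hx0 hcon
  have h3 : (n : ℤ) * n ∣ (κ.D : ℤ) * (pt κ.I x 0 * pt κ.I x 1) := by
    have h4 : (n : ℤ) * n ∣ (κ.D : ℤ) * (pt κ.I x 0 * pt κ.I x 1) +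
        TT κ (pt κ.I x 0) (zc (pt κ.I x)) := by
      rw [h1]
      exact dvd_zero _
    exact (dvd_add_left h2).1 h4
  have hn0 : (n : ℤ) ≠ 0 := hpr.ne_zero
  have h4 : (n : ℤ) ∣ (κ.D : ℤ) * (s * pt κ.I x 1) := by
    rw [h0] at h3
    have e : (κ.D : ℤ) * ((s : ℤ) * n * pt κ.I x 1) = n * ((κ.D : ℤ) * (s * pt κ.I x 1)) := by
      ring
    rw [e] at h3
    exact (mul_dvd_mul_iff_left hn0).1 h3
  have hnd : ∀ m : ℕ, 1 ≤ m → m < n → ¬ (n : ℤ) ∣ (m : ℤ) := by
    intro m hm hmn hdv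
    have := Nat.le_of_dvd hm (Int.natCast_dvd_natCast.1 hdv)
    omega
  have hx1 : (n : ℤ) ∣ pt κ.I x 1 := by
    rcases hpr.dvd_or_dvd h4 with h | h
    · exact absurd h (hnd _ hOk.Dpos hD)
    · rcases hpr.dvd_or_dvd h with h | h
      · exact absurd h (hnd _ hs hsn)
      · exact h
  have hall : ∀ i, (n : ℤ) ∣ pt κ.I x i := by
    intro i
    refine Fin.cases hx0 (fun i => ?_) i
    refine Fin.cases hx1 (fun j => ?_) i
    exact hcon j
  obtain ⟨d, hd⟩ := hP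
  have h5 : ∀ v, (n : ℤ) ∣ x v := by
    intro v
    have h6 := RGN_div κ.M _ _ hall v
    rw [(hPTI k c κ hOk ℤ x).1] at h6
    exact h6
  have h6 : (n : ℤ) ∣ 1 := by
    rw [← hd]
    exact Finset.dvd_sum fun v _ => Dvd.dvd.mul_left (h5 v) _
  exact hpr.not_dvd_one h6

open Classical in
theorem p_RGN (hPTI : Stmt_PTI) (hTUB : Stmt_TUB) : Stmt_RGN := by
  intro k c κ s c₁ hk hOk hs hc₁
  obtain ⟨C, hC1, hC⟩ := hTUB k κ
  obtain ⟨K, hK⟩ : ∃ K : ℕ, K = ⌈C⌉₊ := ⟨_, rfl⟩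
  refine ⟨(2 * K + 1) * (2 * (K * c₁) + 1) ^ k, c₁ * (s + κ.D) + 1, ?_, ?_⟩
  · have h1 : (1 : ℝ) ≤ 2 * K + 1 := by
      have : (0 : ℝ) ≤ K := Nat.cast_nonneg _
      linarith
    have h2 : (1 : ℝ) ≤ (2 * (K * c₁) + 1) ^ k := by
      apply one_le_pow₀
      have : (0 : ℝ) ≤ (K : ℝ) * c₁ := by positivity
      linarith
    nlinarith
  intro X hX x hx
  have hX1 : 1 ≤ X := by omega
  have hbig : ∀ n : ℕ, X ≤ c₁ * n → s + κ.D < n := by
    intro n hn
    by_contra hcon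
    push Not at hcon
    have := Nat.mul_le_mul_left c₁ hcon
    omega
  -- unpack a member of the family
  have hunp : ∀ y ∈ Xf c κ s c₁ X, FF c y = 0 ∧ Prm y ∧ (∀ i, |pt κ.I y i| ≤ (K * X : ℕ)) ∧
      ∃ n : ℕ, n.Prime ∧ X ≤ c₁ * n ∧ pt κ.I y 0 = s * n := by
    intro y hy
    unfold Xf Xg at hy
    rw [Finset.mem_filter, Finset.mem_filter, Fintype.mem_piFinset] at hy
    obtain ⟨⟨hb, hF, hn⟩, hP, -⟩ := hy
    refine ⟨hF, hP, fun i => ?_, hn⟩
    have h1 := (hC y y).1 i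
    have h2 : sn y ≤ X := by
      unfold sn
      apply Finset.sup_le
      intro v _
      have h3 := Finset.mem_Icc.1 (hb v)
      omega
    have h3 : C ≤ K := by
      rw [hK]
      exact Nat.le_ceil C
    have h4 : |((pt κ.I y i : ℤ) : ℝ)| ≤ ((K * X : ℕ) : ℝ) := by
      refine h1.trans ?_
      rw [Nat.cast_mul]
      have h5 : ((sn y : ℕ) : ℝ) ≤ X := by exact_mod_cast h2
      exact mul_le_mul h3 h5 (Nat.cast_nonneg _) (Nat.cast_nonneg _)
    exact_mod_cast h4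
  obtain ⟨hxF, hxP, hxb, n, hn, hXn, hx0⟩ := hunp x hx
  have hsn := hbig n hXn
  have hpr : Prime (n : ℤ) := Nat.prime_iff_prime_int.1 hn
  have hn1 : 1 ≤ n := hn.one_lt.le
  have hnd : ¬ (n : ℤ) ∣ (s : ℤ) := by
    intro hdv
    have := Nat.le_of_dvd hs (Int.natCast_dvd_natCast.1 hdv)
    omega
  obtain ⟨j, hj⟩ := RGN_A hPTI hOk x hxF hxP s n hn hs (by omega) (by omega) hx0
  have hxn : (n : ℤ) ∣ pt κ.I x 0 := by
    rw [hx0]
    exact Dvd.intro_left _ rfl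
  -- consequences for a pair
  have hpair : ∀ y ∈ Xf c κ s c₁ X, Ex κ c₁ X x y → pt κ.I y 0 = s * n ∧
      ∀ i : Fin k, (n : ℤ) ∣ zc (pt κ.I x) j * zc (pt κ.I y) i -
        zc (pt κ.I x) i * zc (pt κ.I y) j := by
    intro y hy hE
    obtain ⟨n', hn', hXn', hdv, hDv⟩ := hE
    have hn'big := hbig n' hXn'
    have hpr' : Prime (n' : ℤ) := Nat.prime_iff_prime_int.1 hn'
    have hnn : n' = n := by
      rw [hx0] at hdv
      rcases hpr'.dvd_or_dvd hdv with h | h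
      · have := Nat.le_of_dvd hs (Int.natCast_dvd_natCast.1 h)
        omega
      · exact (Nat.prime_dvd_prime_iff_eq hn' hn).1 (Int.natCast_dvd_natCast.1 h)
    subst hnn
    have hom := (hC x y).2.2 n' hDv
    obtain ⟨-, -, -, m, hm, hXm, hy0⟩ := hunp y hy
    refine ⟨?_, fun i => ?_⟩
    · have h1 := hom 0 j.succ.succ
      unfold om at h1
      have h2 : (n' : ℤ) ∣ pt κ.I x j.succ.succ * pt κ.I y 0 :=
        (dvd_sub_right (Dvd.dvd.mul_right hxn _)).1 h1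
      rcases hpr.dvd_or_dvd h2 with h | h
      · exact absurd h hj
      · rw [hy0] at h ⊢
        rcases hpr.dvd_or_dvd h with h | h
        · exact absurd h hnd
        · rw [(Nat.prime_dvd_prime_iff_eq hn hm).1 (Int.natCast_dvd_natCast.1 h)]
    · exact hom j.succ.succ i.succ.succ
  -- the injection
  let Φ : (Fin (k + 2) → ℤ) → ℤ × (Fin k → ℤ) := fun y =>
    (zc (pt κ.I y) j, fun i => zc (pt κ.I y) i / n)
  have hcard : ((Xf c κ s c₁ X).filter fun y => Ex κ c₁ X x y).card ≤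
      (Finset.Icc (-((K * X : ℕ) : ℤ)) ((K * X : ℕ) : ℤ) ×ˢ Fintype.piFinset fun _ : Fin k =>
        Finset.Icc (-((K * c₁ : ℕ) : ℤ)) ((K * c₁ : ℕ) : ℤ)).card := by
    apply Finset.card_le_card_of_injOn Φ
    · intro y hy
      rw [Finset.mem_coe, Finset.mem_filter] at hy
      obtain ⟨-, -, hb, -⟩ := hunp y hy.1
      rw [Finset.mem_coe, Finset.mem_product, Fintype.mem_piFinset]
      refine ⟨Finset.mem_Icc.2 (abs_le.1 (hb _)), fun i => Finset.mem_Icc.2 ?_⟩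
      have h1 := abs_le.1 (hb i.succ.succ)
      have h2 : ((K * X : ℕ) : ℤ) ≤ ((K * c₁ : ℕ) : ℤ) * n := by
        have : K * X ≤ K * c₁ * n := by
          rw [mul_assoc]
          exact Nat.mul_le_mul_left K hXn
        exact_mod_cast this
      have hnpos : (0 : ℤ) < n := by exact_mod_cast hn1
      constructor
      · change -((K * c₁ : ℕ) : ℤ) ≤ pt κ.I y i.succ.succ / n
        rw [Int.le_ediv_iff_mul_le hnpos]
        linarith [h1.1]
      · change pt κ.I y i.succ.succ / n ≤ ((K * c₁ : ℕ) : ℤ)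
        apply Int.ediv_le_of_le_mul hnpos
        linarith [h1.2]
    · intro y hy y' hy' hyy
      rw [Finset.mem_coe, Finset.mem_filter] at hy hy'
      obtain ⟨hF, -, -, -⟩ := hunp y hy.1
      obtain ⟨hF', -, -, -⟩ := hunp y' hy'.1
      obtain ⟨h0, hz⟩ := hpair y hy.1 hy.2
      obtain ⟨h0', hz'⟩ := hpair y' hy'.1 hy'.2
      have e1 : zc (pt κ.I y) j = zc (pt κ.I y') j := congrArg Prod.fst hyy
      have e2 : ∀ i, zc (pt κ.I y) i / n = zc (pt κ.I y') i / n := fun i =>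
        congrFun (congrArg Prod.snd hyy) i
      have e3 : ∀ i, zc (pt κ.I y) i = zc (pt κ.I y') i := by
        intro i
        have h1 : (n : ℤ) ∣ zc (pt κ.I x) j * (zc (pt κ.I y) i - zc (pt κ.I y') i) := by
          have h2 := dvd_sub (hz i) (hz' i)
          rw [e1] at h2
          have e : zc (pt κ.I x) j * zc (pt κ.I y) i - zc (pt κ.I x) i * zc (pt κ.I y') j -
              (zc (pt κ.I x) j * zc (pt κ.I y') i - zc (pt κ.I x) i * zc (pt κ.I y') j) =
              zc (pt κ.I x) j * (zc (pt κ.I y) i - zc (pt κ.I y') i) := by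
            ring
          rwa [e] at h2
        have h3 : (n : ℤ) ∣ zc (pt κ.I y) i - zc (pt κ.I y') i := by
          rcases hpr.dvd_or_dvd h1 with h | h
          · exact absurd h hj
          · exact h
        have h4 : zc (pt κ.I y) i % n = zc (pt κ.I y') i % n :=
          Int.emod_eq_emod_iff_emod_sub_eq_zero.2 (Int.emod_eq_zero_of_dvd h3)
        rw [← Int.mul_ediv_add_emod (zc (pt κ.I y) i) n,
          ← Int.mul_ediv_add_emod (zc (pt κ.I y') i) n, e2 i, h4]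
      have e4 : zc (pt κ.I y) = zc (pt κ.I y') := funext e3
      have e5 : pt κ.I y 1 = pt κ.I y' 1 := by
        have h1 := RGN_eq hPTI hOk y hF
        have h2 := RGN_eq hPTI hOk y' hF'
        rw [h0, e4] at h1
        rw [h0'] at h2
        have h3 : (κ.D : ℤ) * ((s : ℤ) * n * pt κ.I y 1) = (κ.D : ℤ) * ((s : ℤ) * n *
            pt κ.I y' 1) := by linarith
        have hD0 : (κ.D : ℤ) ≠ 0 := by
          have := hOk.Dpos
          exact_mod_cast this.ne'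
        have hs0 : ((s : ℤ) * n) ≠ 0 := by
          have h4 : 0 < s * n := Nat.mul_pos hs hn1
          exact_mod_cast h4.ne'
        exact mul_left_cancel₀ hs0 (mul_left_cancel₀ hD0 h3)
      have e6 : pt κ.I y = pt κ.I y' := by
        funext i
        refine Fin.cases ?_ (fun i => ?_) i
        · rw [h0, h0']
        · refine Fin.cases ?_ (fun l => ?_) i
          · exact e5
          · exact e3 l
      rw [← (hPTI k c κ hOk ℤ y).1, ← (hPTI k c κ hOk ℤ y').1, e6]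
  have hc2 : (Finset.Icc (-((K * X : ℕ) : ℤ)) ((K * X : ℕ) : ℤ) ×ˢ Fintype.piFinset
      fun _ : Fin k => Finset.Icc (-((K * c₁ : ℕ) : ℤ)) ((K * c₁ : ℕ) : ℤ)).card =
      (2 * (K * X) + 1) * (2 * (K * c₁) + 1) ^ k := by
    rw [Finset.card_product, Fintype.card_piFinset, Finset.prod_const, Finset.card_univ,
      Fintype.card_fin, Int.card_Icc, Int.card_Icc]
    congr 1
    · omega
    · congr 1
      omega
  rw [hc2] at hcard
  have h1 : (2 * (K * X) + 1) * (2 * (K * c₁) + 1) ^ k ≤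
      (2 * K + 1) * (2 * (K * c₁) + 1) ^ k * X := by
    have h2 : 2 * (K * X) + 1 ≤ (2 * K + 1) * X := by nlinarith
    calc (2 * (K * X) + 1) * (2 * (K * c₁) + 1) ^ k ≤
        ((2 * K + 1) * X) * (2 * (K * c₁) + 1) ^ k := Nat.mul_le_mul_right _ h2
      _ = _ := by ring
  have h2 := hcard.trans h1
  have h3 : (((Xf c κ s c₁ X).filter fun y => Ex κ c₁ X x y).card : ℝ) ≤
      (((2 * K + 1) * (2 * (K * c₁) + 1) ^ k * X : ℕ) : ℝ) := by exact_mod_cast h2
  refine h3.trans (le_of_eq ?_)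
  push_cast
  ring

end Pool.FQ
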