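import Pool.Agent.Work.MP_9fb703_fq.Interface2

/-! # THEOREM FQ, block RNQ: a net of the real cone -/

set_option autoImplicit false

namespace Pool.FQ

open Finset
open Pool.GE

/-! ### The Gram matrix and the gradient -/

/-- The Gram matrix. -/
def RNQ_G {R : Type} [CommRing R] {k : ℕ} (c : IQ k → R) :
    Matrix (Fin (k + 2)) (Fin (k + 2)) R := fun v w => DD c (Pi.single v 1) w

theorem RNQ_lin (hQ : Stmt_QAD) {R : Type} [CommRing R] {k : ℕ} (c : IQ k → R)
    (x : Fin (k + 2) → R) (v : Fin (k + 2)) : DD c x v = (RNQ_G c).mulVec x v := by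
  have h := (hQ R k c x (Pi.single v 1) 1).2.2.2.2.1
  have h1 : ∑ w, (Pi.single v 1 : Fin (k + 2) → R) w * DD c x w = DD c x v := by
    rw [Finset.sum_eq_single_of_mem v (mem_univ v)]
    · rw [Pi.single_eq_same, one_mul]
    · intro w _ hw
      rw [Pi.single_eq_of_ne hw, zero_mul]
  rw [h1] at h
  rw [h]
  unfold Matrix.mulVec dotProduct RNQ_G
  refine Finset.sum_congr rfl fun w _ => ?_
  rw [mul_comm]

theorem RNQ_cast {R : Type} [CommRing R] {k : ℕ} (c : IQ k → ℤ) (v w : Fin (k + 2)) :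
    RNQ_G (fun s => (c s : R)) v w = ((RNQ_G c v w : ℤ) : R) := by
  unfold RNQ_G DD dm mv
  push_cast
  refine Finset.sum_congr rfl fun s _ => ?_
  congr 2
  refine Finset.prod_congr rfl fun u _ => ?_
  congr 1
  by_cases hu : u = v
  · subst hu
    rw [Pi.single_eq_same, Pi.single_eq_same, Int.cast_one]
  · rw [Pi.single_eq_of_ne hu, Pi.single_eq_of_ne hu, Int.cast_zero]

theorem RNQ_det (hQ : Stmt_QAD) {k : ℕ} (c : IQ k → ℤ) (hc : Nsg c) :
    Matrix.det (RNQ_G c) ≠ 0 := by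
  intro h0
  have h1 : Matrix.det (RNQ_G (fun s => (c s : ℚ))) = 0 := by
    have h2 : RNQ_G (fun s => (c s : ℚ)) = (RNQ_G c).map (Int.castRingHom ℚ) := by
      ext v w
      rw [RNQ_cast]
      rfl
    rw [h2]
    have h3 := (RingHom.map_det (Int.castRingHom ℚ) (RNQ_G c)).symm
    rw [h0, map_zero] at h3
    exact h3
  obtain ⟨x, hx, hGx⟩ := Matrix.exists_mulVec_eq_zero_iff.2 h1
  refine hx (hc x fun v => ?_)
  rw [RNQ_lin hQ, hGx]
  rfl

/-- The gradient is bounded from below at the vectors of size at least one. -/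
theorem RNQ_grad (hQ : Stmt_QAD) {k : ℕ} (c : IQ k → ℤ) (hc : Nsg c) :
    ∃ η : ℝ, 0 < η ∧ ∀ (y : Fin (k + 2) → ℝ) (i : Fin (k + 2)), |y i| = 1 →
      ∃ w, η ≤ |DD (fun s => (c s : ℝ)) y w| := by
  have hdet := RNQ_det hQ c hc
  set G := RNQ_G c with hG
  set A : ℝ := 1 + ∑ v, ∑ i, |(G.adjugate v i : ℝ)| with hA
  have hA0 : 0 ≤ ∑ v, ∑ i, |(G.adjugate v i : ℝ)| :=
    Finset.sum_nonneg fun _ _ => Finset.sum_nonneg fun _ _ => abs_nonneg _
  have hA1 : 0 < A := by linarith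
  refine ⟨1 / A, by positivity, fun y i hi => ?_⟩
  by_contra hcon
  push Not at hcon
  have hlin : ∀ w, DD (fun s => (c s : ℝ)) y w = ∑ u, (G w u : ℝ) * y u := by
    intro w
    rw [RNQ_lin hQ]
    unfold Matrix.mulVec dotProduct
    exact Finset.sum_congr rfl fun u _ => congrArg (· * y u) (RNQ_cast c w u)
  have hadj : (G.det : ℝ) * y i = ∑ w, (G.adjugate i w : ℝ) * DD (fun s => (c s : ℝ)) y w := by
    have h : ∀ u, ∑ w, (G.adjugate i w : ℝ) * (G w u : ℝ) = if i = u then (G.det : ℝ) else 0 := by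
      intro u
      have h1 := congrFun (congrFun (Matrix.adjugate_mul G) i) u
      simp only [Matrix.mul_apply, Matrix.smul_apply, Matrix.one_apply, smul_eq_mul] at h1
      have h2 := congrArg (Int.cast : ℤ → ℝ) h1
      rw [Int.cast_sum] at h2
      simp only [Int.cast_mul] at h2
      rw [h2]
      split_ifs
      · rw [Int.cast_one, mul_one]
      · rw [Int.cast_zero, mul_zero]
    simp_rw [hlin, Finset.mul_sum]
    rw [Finset.sum_comm]
    have h3 : ∀ u, ∑ w, (G.adjugate i w : ℝ) * ((G w u : ℝ) * y u) =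
        if i = u then (G.det : ℝ) * y u else 0 := by
      intro u
      have h4 : ∑ w, (G.adjugate i w : ℝ) * ((G w u : ℝ) * y u) =
          (∑ w, (G.adjugate i w : ℝ) * (G w u : ℝ)) * y u := by
        rw [Finset.sum_mul]
        exact Finset.sum_congr rfl fun w _ => by ring
      rw [h4, h u]
      split_ifs <;> simp
    simp_rw [h3]
    rw [Finset.sum_ite_eq]
    simp
  have h1 : (1 : ℝ) ≤ |(G.det : ℝ)| := by
    have := Int.one_le_abs hdet
    exact_mod_cast this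
  have h2 : |(G.det : ℝ) * y i| ≤ (∑ w, |(G.adjugate i w : ℝ)|) * (1 / A) := by
    rw [hadj, Finset.sum_mul]
    refine (Finset.abs_sum_le_sum_abs _ _).trans (Finset.sum_le_sum fun w _ => ?_)
    rw [abs_mul]
    exact mul_le_mul_of_nonneg_left (hcon w).le (abs_nonneg _)
  rw [abs_mul, hi, mul_one] at h2
  have h3 : ∑ w, |(G.adjugate i w : ℝ)| ≤ ∑ v, ∑ w, |(G.adjugate v w : ℝ)| :=
    Finset.single_le_sum (f := fun v => ∑ w, |(G.adjugate v w : ℝ)|)
      (fun v _ => Finset.sum_nonneg fun w _ => abs_nonneg _) (Finset.mem_univ i)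
  have h4 : (∑ w, |(G.adjugate i w : ℝ)|) * (1 / A) < 1 := by
    rw [mul_one_div, div_lt_one hA1]
    linarith
  linarith

/-- A coordinate different from `i` with a large derivative. -/
theorem RNQ_dir (hQ : Stmt_QAD) {k : ℕ} (a : IQ k → ℝ) {η : ℝ} (hη : 0 < η)
    (y : Fin (k + 2) → ℝ) (i : Fin (k + 2)) (hy : ∀ v, |y v| ≤ 1) (hi : |y i| = 1)
    (h0 : FF a y = 0) (w : Fin (k + 2)) (hw : η ≤ |DD a y w|) :
    ∃ l, l ≠ i ∧ η / (k + 2) ≤ |DD a y l| := by
  have hk : (0 : ℝ) < (k : ℝ) + 2 := by positivity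
  by_cases hwi : w = i
  · by_contra hcon
    push Not at hcon
    have h1 := (hQ ℝ k a y y 1).2.2.2.2.2
    rw [h0, mul_zero, ← Finset.add_sum_erase univ _ (mem_univ i)] at h1
    have h2 : |y i * DD a y i| = |∑ v ∈ univ.erase i, y v * DD a y v| := by
      have : y i * DD a y i = -∑ v ∈ univ.erase i, y v * DD a y v := by linarith
      rw [this, abs_neg]
    have h3 : |∑ v ∈ univ.erase i, y v * DD a y v| ≤ ((k : ℝ) + 1) * (η / (k + 2)) := by
      have h4 : |∑ v ∈ univ.erase i, y v * DD a y v| ≤ ∑ v ∈ univ.erase i, η / (k + 2) := by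
        refine (Finset.abs_sum_le_sum_abs _ _).trans (Finset.sum_le_sum fun v hv => ?_)
        rw [abs_mul]
        calc |y v| * |DD a y v| ≤ 1 * |DD a y v| :=
              mul_le_mul_of_nonneg_right (hy v) (abs_nonneg _)
          _ = |DD a y v| := one_mul _
          _ ≤ η / (k + 2) := (hcon v (Finset.ne_of_mem_erase hv)).le
      rw [Finset.sum_const, Finset.card_erase_of_mem (mem_univ i), Finset.card_univ,
        Fintype.card_fin, nsmul_eq_mul] at h4
      have h5 : ((k + 2 - 1 : ℕ) : ℝ) = (k : ℝ) + 1 := by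
        rw [show k + 2 - 1 = k + 1 by omega]
        push_cast
        ring
      rwa [h5] at h4
    rw [abs_mul, hi, one_mul] at h2
    rw [hwi] at hw
    have h6 : ((k : ℝ) + 1) * (η / (k + 2)) < η := by
      rw [mul_div_assoc', div_lt_iff₀ hk]
      nlinarith
    rw [h2] at hw
    linarith
  · refine ⟨w, hwi, le_trans ?_ hw⟩
    rw [div_le_iff₀ hk]
    nlinarith

/-! ### Two points in the same cell -/

theorem RNQ_line (hQ : Stmt_QAD) {k : ℕ} (a : IQ k → ℝ) (z : Fin (k + 2) → ℝ)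
    (l : Fin (k + 2)) (u : ℝ) : FF a (fun v => z v + u * (Pi.single l 1 : Fin (k + 2) → ℝ) v) =
      FF a z + u ^ 2 * FF a (Pi.single l 1) + u * DD a z l := by
  have h1 := (hQ ℝ k a z (fun v => u * (Pi.single l 1 : Fin (k + 2) → ℝ) v) 1).1
  rw [h1, (hQ ℝ k a (Pi.single l 1) z u).2.1]
  have h2 : ∑ v, u * (Pi.single l 1 : Fin (k + 2) → ℝ) v * DD a z v = u * DD a z l := by
    rw [Finset.sum_eq_single_of_mem l (mem_univ l)]
    · rw [Pi.single_eq_same, mul_one]
    · intro w _ hw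
      rw [Pi.single_eq_of_ne hw, mul_zero, zero_mul]
  rw [h2]

theorem RNQ_close (hQ : Stmt_QAD) {k : ℕ} (a : IQ k → ℝ) {CL δ η : ℝ} (hCL : 1 ≤ CL)
    (hη : 0 < η) (hδ : 0 < δ) (_hδ1 : δ ≤ 1)
    (hL : ∀ (z z' : Fin (k + 2) → ℝ), (∀ l, |z l| ≤ 2) → (∀ l, |z' l| ≤ 2) →
      (∀ l, |z' l - z l| ≤ δ) → |FF a z' - FF a z| ≤ CL * δ ∧
        ∀ i, |DD a z' i - DD a z i| ≤ CL * δ)
    (y y' : Fin (k + 2) → ℝ) (hy : ∀ v, |y v| ≤ 1) (hy' : ∀ v, |y' v| ≤ 1) (h0 : FF a y = 0)
    (h0' : FF a y' = 0) (l : Fin (k + 2)) (hd : ∀ v, v ≠ l → |y v - y' v| ≤ δ) (s : ℝ)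
    (hs : s = 1 ∨ s = -1) (h1 : η ≤ s * DD a y l) (h1' : η ≤ s * DD a y' l) :
    |y l - y' l| ≤ 2 * CL / η * δ := by
  have hCd : 0 < CL * δ := by positivity
  set u := y l - y' l with hu
  obtain ⟨y'', hy''⟩ : ∃ y'' : Fin (k + 2) → ℝ, y'' = Function.update y' l (y l) := ⟨_, rfl⟩
  have hyl : y'' l = y l := by rw [hy'', Function.update_self]
  have hyv : ∀ v, v ≠ l → y'' v = y' v := fun v hv => by rw [hy'', Function.update_of_ne hv]
  have hb : ∀ v, |y'' v| ≤ 2 := by
    intro v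
    by_cases hv : v = l
    · rw [hv, hyl]; linarith [hy l]
    · rw [hyv v hv]; linarith [hy' v]
  have hdd : ∀ v, |y'' v - y v| ≤ δ := by
    intro v
    by_cases hv : v = l
    · rw [hv, hyl, sub_self, abs_zero]; exact hδ.le
    · rw [hyv v hv, abs_sub_comm]; exact hd v hv
  obtain ⟨hF, hD⟩ := hL y y'' (fun v => by linarith [hy v]) hb hdd
  have e1 : y'' = fun v => y' v + u * (Pi.single l 1 : Fin (k + 2) → ℝ) v := by
    funext v
    by_cases hv : v = l
    · subst hv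
      rw [hyl, Pi.single_eq_same, hu]
      ring
    · rw [hyv v hv, Pi.single_eq_of_ne hv]
      ring
  have e2 : y' = fun v => y'' v + (-u) * (Pi.single l 1 : Fin (k + 2) → ℝ) v := by
    funext v
    by_cases hv : v = l
    · subst hv
      rw [hyl, Pi.single_eq_same, hu]
      ring
    · rw [hyv v hv, Pi.single_eq_of_ne hv]
      ring
  have e3 : FF a y'' = FF a y' + u ^ 2 * FF a (Pi.single l 1) + u * DD a y' l := by
    conv_lhs => rw [e1]
    exact RNQ_line hQ a y' l u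
  have e4 : FF a y' = FF a y'' + (-u) ^ 2 * FF a (Pi.single l 1) + (-u) * DD a y'' l := by
    conv_lhs => rw [e2]
    exact RNQ_line hQ a y'' l (-u)
  have e5 : 2 * FF a y'' = u * (DD a y' l + DD a y'' l) := by
    rw [h0'] at e3 e4
    rw [neg_sq] at e4
    linarith
  rw [h0, sub_zero] at hF
  have hDl := hD l
  have hu2 : |u| ≤ 2 := by
    have := abs_sub (y l) (y' l)
    have h2 := hy l
    have h3 := hy' l
    calc |u| = |y l - y' l| := rfl
      _ ≤ |y l| + |y' l| := abs_sub (y l) (y' l)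
      _ ≤ 2 := by linarith
  by_cases hc : CL * δ ≤ η
  · have h2 : η ≤ |DD a y' l + DD a y'' l| := by
      have h3 : |s * (DD a y' l + DD a y'' l)| = |DD a y' l + DD a y'' l| := by
        rcases hs with rfl | rfl
        · rw [one_mul]
        · rw [neg_one_mul, abs_neg]
      rw [← h3]
      refine le_trans ?_ (le_abs_self _)
      have h4 := abs_le.1 hDl
      rcases hs with rfl | rfl
      · linarith [h4.1, h4.2]
      · linarith [h4.1, h4.2]
    have h5 : |u| * η ≤ 2 * (CL * δ) := by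
      calc |u| * η ≤ |u| * |DD a y' l + DD a y'' l| :=
            mul_le_mul_of_nonneg_left h2 (abs_nonneg _)
        _ = |2 * FF a y''| := by rw [e5, abs_mul]
        _ = 2 * |FF a y''| := by rw [abs_mul, abs_two]
        _ ≤ 2 * (CL * δ) := by linarith
    rw [div_mul_eq_mul_div, le_div_iff₀ hη]
    linarith
  · push Not at hc
    refine hu2.trans ?_
    rw [div_mul_eq_mul_div, le_div_iff₀ hη]
    linarith

/-! ### Scaling of the coefficients -/

theorem RNQ_FFd {k : ℕ} (a : IQ k → ℝ) (H : ℝ) (x : Fin (k + 2) → ℝ) :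
    FF (fun s => a s / H) x = FF a x / H := by
  unfold FF
  rw [Finset.sum_div]
  exact Finset.sum_congr rfl fun s _ => by ring

theorem RNQ_DDd {k : ℕ} (a : IQ k → ℝ) (H : ℝ) (x : Fin (k + 2) → ℝ) (v : Fin (k + 2)) :
    DD (fun s => a s / H) x v = DD a x v / H := by
  unfold DD
  rw [Finset.sum_div]
  exact Finset.sum_congr rfl fun s _ => by ring

/-! ### The net -/

/-- The points of a class. -/
def RNQ_Y {k : ℕ} (a : IQ k → ℝ) (η δ : ℝ) (i l : Fin (k + 2)) (ε s : Bool)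
    (m : Fin (k + 2) → ℤ) : Set (Fin (k + 2) → ℝ) :=
  {y | (∀ v, |y v| ≤ 1) ∧ FF a y = 0 ∧ y i = (if ε then 1 else -1) ∧
    η ≤ (if s then 1 else -1 : ℝ) * DD a y l ∧ ∀ v, v ≠ i → v ≠ l → ⌊y v / δ⌋ = m v}

open Classical in
/-- A base point of the class. -/
noncomputable def RNQ_b {k : ℕ} (a : IQ k → ℝ) (η δ : ℝ) (i l : Fin (k + 2)) (ε s : Bool)
    (m : Fin (k + 2) → ℤ) : Fin (k + 2) → ℝ :=
  if h : (RNQ_Y a η δ i l ε s m).Nonempty then h.choose else 0

/-- The points of the net. -/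
noncomputable def RNQ_z {k : ℕ} (a : IQ k → ℝ) (η δ : ℝ) (i l : Fin (k + 2))
    (q : (Bool × Bool) × (Fin (k + 2) → ℤ) × ℤ) : Fin (k + 2) → ℝ :=
  fun v => if v = l then
    max (-1) (min 1 (RNQ_b a η δ i l q.1.1 q.1.2 q.2.1 l + δ * (q.2.2 : ℝ)))
  else RNQ_b a η δ i l q.1.1 q.1.2 q.2.1 v

theorem RNQ_card {k : ℕ} (n : ℕ) (i l : Fin (k + 2)) (hil : i ≠ l) :
    (Fintype.piFinset fun v : Fin (k + 2) => if v = i ∨ v = l then ({0} : Finset ℤ) else
      Finset.Icc (-(n : ℤ)) n).card = (2 * n + 1) ^ k := by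
  rw [Fintype.card_piFinset]
  have h1 : ∀ v : Fin (k + 2), (if v = i ∨ v = l then ({0} : Finset ℤ) else
      Finset.Icc (-(n : ℤ)) n).card = if v = i ∨ v = l then 1 else 2 * n + 1 := by
    intro v
    split_ifs
    · rfl
    · rw [Int.card_Icc]; omega
  simp_rw [h1]
  rw [Finset.prod_ite, Finset.prod_const_one, one_mul, Finset.prod_const]
  congr 1
  have h2 : (univ.filter fun v : Fin (k + 2) => ¬ (v = i ∨ v = l)) = (univ.erase i).erase l := by
    ext v
    simp only [Finset.mem_filter, Finset.mem_univ, true_and, Finset.mem_erase, not_or, and_true]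
    exact and_comm
  rw [h2, Finset.card_erase_of_mem (Finset.mem_erase.2 ⟨hil.symm, mem_univ l⟩),
    Finset.card_erase_of_mem (mem_univ i), Finset.card_univ, Fintype.card_fin]
  omega

theorem RNQ_clip {x y : ℝ} (hy : |y| ≤ 1) : |y - max (-1) (min 1 x)| ≤ |y - x| := by
  rw [abs_le] at hy
  rcases le_total x 1 with h1 | h1
  · rw [min_eq_right h1]
    rcases le_total (-1) x with h2 | h2
    · rw [max_eq_right h2]
    · rw [max_eq_left h2]
      rw [abs_of_nonneg (by linarith), abs_of_nonneg (by linarith)]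
      linarith
  · rw [min_eq_left h1, max_eq_right (by norm_num)]
    rw [abs_of_nonpos (by linarith), abs_of_nonpos (by linarith)]
    linarith

theorem RNQ_clip1 (x : ℝ) : |max (-1) (min 1 x)| ≤ 1 := by
  rw [abs_le]
  exact ⟨le_max_left _ _, max_le (by norm_num) (min_le_left _ _)⟩

theorem p_RNQ (hQ : Stmt_QAD) (hLIP : Stmt_LIP) : Stmt_RNQ := by
  intro k c hc
  obtain ⟨η₀, hη₀, hgrad⟩ := RNQ_grad hQ c hc
  obtain ⟨CL, hCL, hLip⟩ := hLIP (Fin (k + 2)) Unit (fun _ => ()) (fun _ => 2)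
  obtain ⟨H, hH1, hHc⟩ : ∃ H : ℝ, 1 ≤ H ∧ ∀ s, |(c s : ℝ)| ≤ H := by
    refine ⟨1 + ∑ s, |(c s : ℝ)|, ?_, fun s => ?_⟩
    · linarith [Finset.sum_nonneg fun (s : IQ k) (_ : s ∈ univ) => abs_nonneg (c s : ℝ)]
    · have := Finset.single_le_sum (f := fun s : IQ k => |(c s : ℝ)|)
        (fun s _ => abs_nonneg _) (Finset.mem_univ s)
      linarith
  have hH0 : 0 < H := by linarith
  obtain ⟨a, ha⟩ : ∃ a : IQ k → ℝ, a = fun s => (c s : ℝ) / H := ⟨_, rfl⟩
  have ha1 : ∀ s, |a s| ≤ 1 := by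
    intro s
    rw [ha]
    show |(c s : ℝ) / H| ≤ 1
    rw [abs_div, abs_of_pos hH0, div_le_one hH0]
    exact hHc s
  have hFa : ∀ y : Fin (k + 2) → ℝ, FF (fun s => (c s : ℝ)) y = 0 → FF a y = 0 := by
    intro y hy
    rw [ha, RNQ_FFd, hy, zero_div]
  have hDa : ∀ (y : Fin (k + 2) → ℝ) (v : Fin (k + 2)),
      |DD a y v| = |DD (fun s => (c s : ℝ)) y v| / H := by
    intro y v
    rw [ha, RNQ_DDd, abs_div, abs_of_pos hH0]
  have hk : (0 : ℝ) < (k : ℝ) + 2 := by positivity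
  obtain ⟨η, hη⟩ : ∃ η : ℝ, η = η₀ / H / (k + 2) := ⟨_, rfl⟩
  have hη0 : 0 < η := by rw [hη]; positivity
  obtain ⟨C', hC'⟩ : ∃ C' : ℝ, C' = 2 * CL / η := ⟨_, rfl⟩
  have hC'0 : 0 < C' := by rw [hC']; positivity
  obtain ⟨J, hJ⟩ : ∃ J : ℕ, J = ⌈C'⌉₊ + 1 := ⟨_, rfl⟩
  have hJC : C' + 1 ≤ J := by
    rw [hJ]
    push_cast
    linarith [Nat.le_ceil C']
  refine ⟨(k + 2) ^ 2 * (4 * 5 ^ k * (2 * J + 1)), ?_, ?_⟩
  · have h1 : (1 : ℝ) ≤ (k + 2) ^ 2 := one_le_pow₀ (by linarith [Nat.cast_nonneg (α := ℝ) k])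
    have h2 : (1 : ℝ) ≤ 5 ^ k := one_le_pow₀ (by norm_num)
    have h3 : (1 : ℝ) ≤ 2 * J + 1 := by linarith [Nat.cast_nonneg (α := ℝ) J]
    have h4 : (1 : ℝ) ≤ 4 * 5 ^ k := by linarith
    calc (1 : ℝ) = 1 * (1 * 1) := by ring
      _ ≤ (k + 2) ^ 2 * (4 * 5 ^ k * (2 * J + 1)) := by
        apply mul_le_mul h1 (mul_le_mul h4 h3 zero_le_one (by positivity)) (by norm_num)
          (by positivity)
  intro δ hδ hδ1
  obtain ⟨n, hn⟩ : ∃ n : ℕ, n = ⌈1 / δ⌉₊ := ⟨_, rfl⟩
  have hn1 : 1 / δ ≤ n := by rw [hn]; exact Nat.le_ceil _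
  have hn2 : (n : ℝ) < 1 / δ + 1 := by rw [hn]; exact Nat.ceil_lt_add_one (by positivity)
  -- the index sets
  let I : Fin (k + 2) → Fin (k + 2) → Finset ((Bool × Bool) × (Fin (k + 2) → ℤ) × ℤ) :=
    fun i l => univ ×ˢ ((Fintype.piFinset fun v : Fin (k + 2) => if v = i ∨ v = l then
      ({0} : Finset ℤ) else Finset.Icc (-(n : ℤ)) n) ×ˢ Finset.Icc (-(J : ℤ)) J)
  have hI : ∀ i l, i ≠ l → (I i l).card = 4 * ((2 * n + 1) ^ k * (2 * J + 1)) := by
    intro i l hil
    rw [Finset.card_product, Finset.card_product, RNQ_card n i l hil, Int.card_Icc]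
    have h1 : (univ : Finset (Bool × Bool)).card = 4 := rfl
    rw [h1]
    congr 2
    omega
  classical
  refine ⟨(univ.filter fun q : Fin (k + 2) × Fin (k + 2) => q.1 ≠ q.2).biUnion fun q =>
    (I q.1 q.2).image (RNQ_z a η δ q.1 q.2), ?_, ?_, ?_⟩
  · -- the number of points
    have h1 : (((univ.filter fun q : Fin (k + 2) × Fin (k + 2) => q.1 ≠ q.2).biUnion fun q =>
        (I q.1 q.2).image (RNQ_z a η δ q.1 q.2)).card) ≤
        (k + 2) ^ 2 * (4 * ((2 * n + 1) ^ k * (2 * J + 1))) := by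
      refine Finset.card_biUnion_le.trans ?_
      calc ∑ q ∈ univ.filter (fun q : Fin (k + 2) × Fin (k + 2) => q.1 ≠ q.2),
            ((I q.1 q.2).image (RNQ_z a η δ q.1 q.2)).card
          ≤ ∑ q ∈ univ.filter (fun q : Fin (k + 2) × Fin (k + 2) => q.1 ≠ q.2),
            4 * ((2 * n + 1) ^ k * (2 * J + 1)) :=
            Finset.sum_le_sum fun q hq => Finset.card_image_le.trans
              (hI q.1 q.2 (Finset.mem_filter.1 hq).2).le
        _ ≤ (k + 2) ^ 2 * (4 * ((2 * n + 1) ^ k * (2 * J + 1))) := by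
            rw [Finset.sum_const, smul_eq_mul]
            refine Nat.mul_le_mul_right _ ((Finset.card_filter_le _ _).trans ?_)
            rw [Finset.card_univ, Fintype.card_prod, Fintype.card_fin, sq]
    have h2 : ((2 * n + 1 : ℕ) : ℝ) ≤ 5 / δ := by
      push_cast
      have h3 : (1 : ℝ) ≤ 1 / δ := by rw [le_div_iff₀ hδ]; linarith
      have h4 : 5 / δ = 5 * (1 / δ) := by ring
      rw [h4]
      linarith
    have h5 : (((2 * n + 1) ^ k : ℕ) : ℝ) ≤ 5 ^ k / δ ^ k := by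
      rw [Nat.cast_pow, ← div_pow]
      exact pow_le_pow_left₀ (Nat.cast_nonneg _) h2 k
    calc _ ≤ (((k + 2) ^ 2 * (4 * ((2 * n + 1) ^ k * (2 * J + 1))) : ℕ) : ℝ) := by
          exact_mod_cast h1
      _ = ((k : ℝ) + 2) ^ 2 * (4 * ((((2 * n + 1) ^ k : ℕ) : ℝ) * (2 * J + 1))) := by
          push_cast
          ring
      _ ≤ ((k : ℝ) + 2) ^ 2 * (4 * (5 ^ k / δ ^ k * (2 * J + 1))) := by
          refine mul_le_mul_of_nonneg_left ?_ (by positivity)
          refine mul_le_mul_of_nonneg_left ?_ (by norm_num)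
          exact mul_le_mul_of_nonneg_right h5 (by positivity)
      _ = ((k : ℝ) + 2) ^ 2 * (4 * 5 ^ k * (2 * J + 1)) / δ ^ k := by ring
  · -- the size of the points
    intro z hz v
    rw [Finset.mem_biUnion] at hz
    obtain ⟨q, -, hz⟩ := hz
    rw [Finset.mem_image] at hz
    obtain ⟨r, -, rfl⟩ := hz
    unfold RNQ_z
    split_ifs with hv
    · exact RNQ_clip1 _
    · unfold RNQ_b
      split_ifs with hne
      · exact hne.choose_spec.1 v
      · simp
  · -- the covering property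
    intro y hy h0 i hi
    obtain ⟨w, hw⟩ := hgrad y i hi
    have h0a := hFa y h0
    have hwa : η₀ / H ≤ |DD a y w| := by
      rw [hDa]
      exact div_le_div_of_nonneg_right hw hH0.le
    obtain ⟨l, hli, hl⟩ := RNQ_dir hQ a (by positivity) y i hy hi h0a w hwa
    rw [← hη] at hl
    obtain ⟨ε, hε⟩ : ∃ ε : Bool, y i = (if ε then 1 else -1) := by
      rcases (abs_eq zero_le_one).1 hi with h | h
      · exact ⟨true, by rw [h]; rfl⟩
      · exact ⟨false, by rw [h]; rfl⟩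
    obtain ⟨s, hs⟩ : ∃ s : Bool, η ≤ (if s then 1 else -1 : ℝ) * DD a y l := by
      rcases le_total 0 (DD a y l) with h | h
      · exact ⟨true, by rw [abs_of_nonneg h] at hl; simpa using hl⟩
      · exact ⟨false, by rw [abs_of_nonpos h] at hl; simpa using hl⟩
    obtain ⟨m, hm⟩ : ∃ m : Fin (k + 2) → ℤ, m = fun v => if v = i ∨ v = l then 0 else
      ⌊y v / δ⌋ := ⟨_, rfl⟩
    have hyY : y ∈ RNQ_Y a η δ i l ε s m := by
      refine ⟨hy, h0a, hε, hs, fun v hvi hvl => ?_⟩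
      rw [hm]
      simp [hvi, hvl]
    have hne : (RNQ_Y a η δ i l ε s m).Nonempty := ⟨y, hyY⟩
    obtain ⟨b, hb⟩ : ∃ b : Fin (k + 2) → ℝ, b = RNQ_b a η δ i l ε s m := ⟨_, rfl⟩
    have hbY : b ∈ RNQ_Y a η δ i l ε s m := by
      rw [hb]
      unfold RNQ_b
      rw [dif_pos hne]
      exact hne.choose_spec
    have hcell : ∀ v, v ≠ l → |y v - b v| ≤ δ := by
      intro v hvl
      by_cases hvi : v = i
      · rw [hvi, hyY.2.2.1, hbY.2.2.1, sub_self, abs_zero]
        exact hδ.le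
      · have h1 : ⌊y v / δ⌋ = ⌊b v / δ⌋ := by
          rw [hyY.2.2.2.2 v hvi hvl, hbY.2.2.2.2 v hvi hvl]
        have h2 := Int.abs_sub_lt_one_of_floor_eq_floor h1
        rw [← sub_div, abs_div, abs_of_pos hδ, div_lt_one hδ] at h2
        exact h2.le
    have hclose : |y l - b l| ≤ C' * δ := by
      rw [hC']
      refine RNQ_close hQ a hCL hη0 hδ hδ1 ?_ y b hy hbY.1 h0a hbY.2.1 l hcell
        (if s then 1 else -1) ?_ hs hbY.2.2.2.1
      · intro z z' hz hz' hzz
        obtain ⟨g1, -, g3, -⟩ := hLip a z z' δ hδ.le ha1 hz hz' hzz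
        exact ⟨g1, g3⟩
      · cases s
        · right; rfl
        · left; rfl
    obtain ⟨j, hj⟩ : ∃ j : ℤ, j = round ((y l - b l) / δ) := ⟨_, rfl⟩
    have hj1 : |(y l - b l) / δ - j| ≤ 1 / 2 := by rw [hj]; exact abs_sub_round _
    have hj2 : |(y l - b l) / δ| ≤ C' := by
      rw [abs_div, abs_of_pos hδ, div_le_iff₀ hδ]
      exact hclose
    have hj3 : |(j : ℝ)| ≤ J := by
      have h1 := abs_sub_abs_le_abs_sub (j : ℝ) ((y l - b l) / δ)
      rw [abs_sub_comm] at h1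
      linarith
    have hj4 : j ∈ Finset.Icc (-(J : ℤ)) J := by
      rw [Finset.mem_Icc, ← abs_le]
      have : ((|j| : ℤ) : ℝ) ≤ ((J : ℤ) : ℝ) := by
        rw [Int.cast_abs, Int.cast_natCast]
        exact hj3
      exact_mod_cast this
    refine ⟨RNQ_z a η δ i l ((ε, s), m, j), ?_, ?_, ?_⟩
    · rw [Finset.mem_biUnion]
      refine ⟨(i, l), Finset.mem_filter.2 ⟨mem_univ _, fun h => hli h.symm⟩, ?_⟩
      refine Finset.mem_image_of_mem _ ?_
      refine Finset.mem_product.2 ⟨mem_univ _, Finset.mem_product.2 ⟨?_, hj4⟩⟩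
      rw [Fintype.mem_piFinset]
      intro v
      rw [hm]
      show (if v = i ∨ v = l then (0 : ℤ) else ⌊y v / δ⌋) ∈
        (if v = i ∨ v = l then ({0} : Finset ℤ) else Finset.Icc (-(n : ℤ)) n)
      split_ifs with hv
      · exact Finset.mem_singleton_self 0
      · have h1 : |y v / δ| ≤ n := by
          rw [abs_div, abs_of_pos hδ]
          refine le_trans ?_ hn1
          exact div_le_div_of_nonneg_right (hy v) hδ.le
        rw [abs_le] at h1
        rw [Finset.mem_Icc]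
        constructor
        · rw [Int.le_floor]
          push_cast
          exact h1.1
        · have h2 : (⌊y v / δ⌋ : ℝ) ≤ n := (Int.floor_le _).trans h1.2
          exact_mod_cast h2
    · show (if i = l then _ else RNQ_b a η δ i l ε s m i) = y i
      rw [if_neg (fun h => hli h.symm), ← hb, hbY.2.2.1, hε]
    · intro v
      by_cases hv : v = l
      · have h1 : RNQ_z a η δ i l ((ε, s), m, j) v = max (-1) (min 1 (b l + δ * (j : ℝ))) := by
          unfold RNQ_z
          rw [if_pos hv, hb]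
        rw [h1, hv]
        refine (RNQ_clip (hy l)).trans ?_
        have h2 : y l - (b l + δ * (j : ℝ)) = δ * ((y l - b l) / δ - j) := by
          field_simp
          ring
        rw [h2, abs_mul, abs_of_pos hδ]
        nlinarith
      · have h1 : RNQ_z a η δ i l ((ε, s), m, j) v = b v := by
          unfold RNQ_z
          rw [if_neg hv, hb]
        rw [h1]
        exact hcell v hv

end Pool.FQ
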