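import Pool.Agent.Work.MP_9fb703_fq.Interface2
import Pool.Agent.Work.MP_9fb703_fq.B_QAD
import Pool.Agent.Work.MP_a19274_ge.B_RSN

/-! # THEOREM FQ, block RSQ: few forms `a` for which the pair is nearly singular -/

set_option autoImplicit false

namespace Pool.FQ

open Finset
open Pool.HPQ (Fw Lam Kw fl rd cs Ww)
open Pool.CB (VV Sol PSN PH lin dl RSNG_L RSNG_floor)
open Pool.GE
open Pool.GR (SingPr)

/-! ### The Gram matrix -/

/-- the Gram matrix -/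
def RSQ_G {k : ℕ} (c : IQ k → ℤ) : Matrix (Fin (k + 2)) (Fin (k + 2)) ℤ :=
  Matrix.of fun v w => DD c (Pi.single w 1) v

theorem RSQ_G_DD {k : ℕ} {R : Type} [CommRing R] (c : IQ k → ℤ) (x : Fin (k + 2) → R)
    (v : Fin (k + 2)) :
    DD (fun s => (c s : R)) x v = ∑ w, ((RSQ_G c v w : ℤ) : R) * x w := by
  have h1 : ∀ w, ((RSQ_G c v w : ℤ) : R) * x w =
      ∑ s, (c s : R) * (((dm s.1 (Pi.single w 1 : Fin (k + 2) → ℤ) v : ℤ) : R) * x w) := by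
    intro w
    have h2 : RSQ_G c v w = ∑ s, c s * dm s.1 (Pi.single w 1 : Fin (k + 2) → ℤ) v := rfl
    rw [h2]
    push_cast
    rw [Finset.sum_mul]
    exact Finset.sum_congr rfl fun s _ => by ring
  rw [Finset.sum_congr rfl fun w _ => h1 w, Finset.sum_comm]
  unfold DD
  refine Finset.sum_congr rfl fun s _ => ?_
  rw [← Finset.mul_sum]
  congr 1
  obtain ⟨i, j, -, h2⟩ := QAD_key s
  rw [h2]
  simp only [h2, Pi.single_apply]
  push_cast
  simp only [add_mul, Finset.sum_add_distrib]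
  congr 1 <;> split_ifs <;> simp

theorem RSQ_det {k : ℕ} (c : IQ k → ℤ) (hc : Nsg c) : (RSQ_G c).det ≠ 0 := by
  intro h0
  have h1 : ((RSQ_G c).map (Int.cast : ℤ → ℚ)).det = 0 := by
    have h2 := (Int.castRingHom ℚ).map_det (RSQ_G c)
    rw [h0, map_zero] at h2
    exact h2.symm
  obtain ⟨x, hx0, hx⟩ := Matrix.exists_mulVec_eq_zero_iff.2 h1
  refine hx0 (hc x fun v => ?_)
  rw [RSQ_G_DD]
  exact congrFun hx v

/-- the derivatives bound the point from above -/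
theorem RSQ_low {k : ℕ} (c : IQ k → ℤ) (hc : Nsg c) : ∃ E : ℝ, 1 ≤ E ∧
    ∀ (y : Fin (k + 2) → ℝ) (M : ℝ), (∀ v, |DD (fun s => (c s : ℝ)) y v| ≤ M) →
      ∀ w, |y w| ≤ E * M := by
  obtain ⟨E, hE⟩ : ∃ E : ℝ, E = 1 + ∑ w, ∑ v, |(((RSQ_G c).adjugate w v : ℤ) : ℝ)| := ⟨_, rfl⟩
  have hEs : ∀ w, ∑ v, |(((RSQ_G c).adjugate w v : ℤ) : ℝ)| ≤ E := by
    intro w
    have h1 := Finset.single_le_sum
      (f := fun w => ∑ v, |(((RSQ_G c).adjugate w v : ℤ) : ℝ)|)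
      (fun w _ => Finset.sum_nonneg fun v _ => abs_nonneg _) (Finset.mem_univ w)
    rw [hE]
    exact h1.trans (by linarith)
  refine ⟨E, ?_, ?_⟩
  · rw [hE]
    have h1 : 0 ≤ ∑ w, ∑ v, |(((RSQ_G c).adjugate w v : ℤ) : ℝ)| :=
      Finset.sum_nonneg fun w _ => Finset.sum_nonneg fun v _ => abs_nonneg _
    linarith
  · intro y M hM w
    have hM0 : 0 ≤ M := (abs_nonneg _).trans (hM w)
    have hdet : (1 : ℝ) ≤ |((RSQ_G c).det : ℝ)| := by
      have h1 : 1 ≤ |(RSQ_G c).det| := Int.one_le_abs (RSQ_det c hc)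
      have h2 : ((1 : ℤ) : ℝ) ≤ ((|(RSQ_G c).det| : ℤ) : ℝ) := by exact_mod_cast h1
      rw [Int.cast_abs] at h2
      simpa using h2
    have hadj := Matrix.adjugate_mul (RSQ_G c)
    have key : ((RSQ_G c).det : ℝ) * y w =
        ∑ v, (((RSQ_G c).adjugate w v : ℤ) : ℝ) * DD (fun s => (c s : ℝ)) y v := by
      have h1 : ∀ v, (((RSQ_G c).adjugate w v : ℤ) : ℝ) * DD (fun s => (c s : ℝ)) y v =
          ∑ u, ((((RSQ_G c).adjugate w v * RSQ_G c v u : ℤ)) : ℝ) * y u := by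
        intro v
        rw [RSQ_G_DD, Finset.mul_sum]
        refine Finset.sum_congr rfl fun u _ => ?_
        push_cast
        ring
      rw [Finset.sum_congr rfl fun v _ => h1 v, Finset.sum_comm]
      have h2 : ∀ u, ∑ v, ((((RSQ_G c).adjugate w v * RSQ_G c v u : ℤ)) : ℝ) * y u =
          (if w = u then ((RSQ_G c).det : ℝ) else 0) * y u := by
        intro u
        rw [← Finset.sum_mul]
        congr 1
        have h3 : ∑ v, (RSQ_G c).adjugate w v * RSQ_G c v u =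
            if w = u then (RSQ_G c).det else 0 := by
          have h4 := congrFun (congrFun hadj w) u
          rw [Matrix.mul_apply] at h4
          rw [h4, Matrix.smul_apply, Matrix.one_apply, smul_eq_mul]
          split_ifs <;> simp
        have h5 := congrArg (Int.cast : ℤ → ℝ) h3
        push_cast at h5
        push_cast
        rw [h5]
      rw [Finset.sum_congr rfl fun u _ => h2 u]
      simp
    calc |y w| = 1 * |y w| := (one_mul _).symm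
      _ ≤ |((RSQ_G c).det : ℝ)| * |y w| := mul_le_mul_of_nonneg_right hdet (abs_nonneg _)
      _ = |∑ v, (((RSQ_G c).adjugate w v : ℤ) : ℝ) * DD (fun s => (c s : ℝ)) y v| := by
          rw [← abs_mul, key]
      _ ≤ ∑ v, |(((RSQ_G c).adjugate w v : ℤ) : ℝ) * DD (fun s => (c s : ℝ)) y v| :=
          Finset.abs_sum_le_sum_abs _ _
      _ ≤ ∑ v, |(((RSQ_G c).adjugate w v : ℤ) : ℝ)| * M := by
          refine Finset.sum_le_sum fun v _ => ?_
          rw [abs_mul]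
          exact mul_le_mul_of_nonneg_left (hM v) (abs_nonneg _)
      _ = (∑ v, |(((RSQ_G c).adjugate w v : ℤ) : ℝ)|) * M := by rw [Finset.sum_mul]
      _ ≤ E * M := mul_le_mul_of_nonneg_right (hEs w) hM0

/-! ### The set attached to a point of the net -/

open Classical in
/-- the forms attached to the point `z` and the value `m / q` -/
noncomputable def RSQ_TT {k : ℕ} (c : IQ k → ℤ) (A q : ℕ) (C C₂ : ℝ) (z : Fin (k + 2) → ℝ)
    (m : ℤ) : Finset (IQ k → ℤ) :=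
  (Bx (IQ k) A).filter fun a =>
    |FF (fun s => (a s : ℝ)) z| ≤ C * (1 / q) * A ∧
    ∀ v, |DD (fun s => (a s : ℝ)) z v - (m : ℝ) / q * A * DD (fun s => (c s : ℝ)) z v| ≤
      C₂ * (1 / q) * A

theorem RSQ_bd {k : ℕ} (c : IQ k → ℤ) : ∃ N : ℝ, 1 ≤ N ∧ ∀ s, |(c s : ℝ)| ≤ N := by
  refine ⟨1 + ∑ s, |(c s : ℝ)|, ?_, fun s => ?_⟩
  · have h1 : 0 ≤ ∑ s, |(c s : ℝ)| := Finset.sum_nonneg fun s _ => abs_nonneg _
    linarith
  · have h1 : |(c s : ℝ)| ≤ ∑ s, |(c s : ℝ)| :=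
      Finset.single_le_sum (f := fun s => |(c s : ℝ)|) (fun s _ => abs_nonneg _)
        (Finset.mem_univ s)
    linarith

/-- the bounds of LIP for `a / N` -/
theorem RSQ_lip {k : ℕ} (C : ℝ)
    (hC : ∀ (α : IQ k → ℝ) (z z' : Fin (k + 2) → ℝ) (η : ℝ), 0 ≤ η → (∀ c, |α c| ≤ 1) →
      (∀ l, |z l| ≤ 2) → (∀ l, |z' l| ≤ 2) → (∀ l, |z' l - z l| ≤ η) →
      |FF α z' - FF α z| ≤ C * η ∧ (∀ i, |DD α z i| ≤ C) ∧
      (∀ i, |DD α z' i - DD α z i| ≤ C * η) ∧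
      |FF α z' - FF α z - ∑ i, DD α z i * (z' i - z i)| ≤ C * η ^ 2)
    (a : IQ k → ℤ) (N : ℝ) (hN : 0 < N) (ha : ∀ s, |(a s : ℝ)| ≤ N) (z z' : Fin (k + 2) → ℝ)
    (η : ℝ) (hη : 0 ≤ η) (h1 : ∀ l, |z l| ≤ 1) (h2 : ∀ l, |z' l| ≤ 1)
    (h3 : ∀ l, |z' l - z l| ≤ η) :
    |FF (fun s => (a s : ℝ)) z' - FF (fun s => (a s : ℝ)) z| ≤ C * η * N ∧
      (∀ v, |DD (fun s => (a s : ℝ)) z v| ≤ C * N) ∧
      ∀ v, |DD (fun s => (a s : ℝ)) z' v - DD (fun s => (a s : ℝ)) z v| ≤ C * η * N := by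
  have haN : ∀ s, |(a s : ℝ) / N| ≤ 1 := by
    intro s
    rw [abs_div, abs_of_pos hN, div_le_one hN]
    exact ha s
  obtain ⟨g1, g2, g3, -⟩ := hC (fun s => (a s : ℝ) / N) z z' η hη haN
    (fun v => (h1 v).trans (by norm_num)) (fun v => (h2 v).trans (by norm_num)) h3
  refine ⟨?_, fun v => ?_, fun v => ?_⟩
  · rw [(RSN_lin (fun c => (a c : ℝ)) N z').1, (RSN_lin (fun c => (a c : ℝ)) N z).1, ← sub_div,
      abs_div, abs_of_pos hN, div_le_iff₀ hN] at g1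
    exact g1
  · have g := g2 v
    rw [(RSN_lin (fun c => (a c : ℝ)) N z).2, abs_div, abs_of_pos hN, div_le_iff₀ hN] at g
    exact g
  · have g := g3 v
    rw [(RSN_lin (fun c => (a c : ℝ)) N z').2, (RSN_lin (fun c => (a c : ℝ)) N z).2, ← sub_div,
      abs_div, abs_of_pos hN, div_le_iff₀ hN] at g
    exact g

theorem RSQ_net {k : ℕ} (C : ℝ) (hC1 : 1 ≤ C)
    (hC : ∀ (α : IQ k → ℝ) (z z' : Fin (k + 2) → ℝ) (η : ℝ), 0 ≤ η → (∀ c, |α c| ≤ 1) →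
      (∀ l, |z l| ≤ 2) → (∀ l, |z' l| ≤ 2) → (∀ l, |z' l - z l| ≤ η) →
      |FF α z' - FF α z| ≤ C * η ∧ (∀ i, |DD α z i| ≤ C) ∧
      (∀ i, |DD α z' i - DD α z i| ≤ C * η) ∧
      |FF α z' - FF α z - ∑ i, DD α z i * (z' i - z i)| ≤ C * η ^ 2)
    (c : IQ k → ℤ) (E : ℝ)
    (hE : ∀ (y : Fin (k + 2) → ℝ) (M : ℝ), (∀ v, |DD (fun s => (c s : ℝ)) y v| ≤ M) →
      ∀ w, |y w| ≤ E * M) (N : ℝ) (hN1 : 1 ≤ N) (hN : ∀ s, |(c s : ℝ)| ≤ N)
    (K₂ : ℕ) (hK₂ : E * (C + 1) ≤ K₂) (q A : ℕ) (hq : 1 ≤ q) (hA : 1 ≤ A)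
    (S : Finset (Fin (k + 2) → ℝ)) (hS1 : ∀ z ∈ S, ∀ v, |z v| ≤ 1)
    (hS2 : ∀ y : Fin (k + 2) → ℝ, (∀ v, |y v| ≤ 1) → FF (fun s => (c s : ℝ)) y = 0 →
      ∀ i, |y i| = 1 → ∃ z ∈ S, z i = y i ∧ ∀ v, |y v - z v| ≤ 1 / q)
    (a : IQ k → ℤ) (ha : a ∈ Bx (IQ k) A) (hs : RS2 (1 / q) A c a) :
    ∃ z ∈ S, (∃ i, |z i| = 1) ∧ ∃ m ∈ Finset.Icc (-((q * K₂ : ℕ) : ℤ)) ((q * K₂ : ℕ) : ℤ),
      a ∈ RSQ_TT c A q C (C + 1 + K₂ * C * N + C * N) z m := by
  classical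
  obtain ⟨y, μ, ⟨hy1, ⟨i, hi⟩, hyc, hya⟩, hyD⟩ := hs
  obtain ⟨z, hz, hzi, hzy⟩ := hS2 y hy1 hyc i hi
  have hq0 : (0 : ℝ) < q := by exact_mod_cast hq
  have hq1 : (1 : ℝ) / q ≤ 1 := by
    rw [div_le_one hq0]
    exact_mod_cast hq
  have hqp : (0 : ℝ) < 1 / q := by positivity
  have hA1 : (1 : ℝ) ≤ A := by exact_mod_cast hA
  have hA0 : (0 : ℝ) < A := by linarith
  have hC0 : 0 < C := by linarith
  have hN0 : 0 < N := by linarith
  have haA : ∀ s, |(a s : ℝ)| ≤ A := by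
    intro s
    have h1 := Finset.mem_Icc.mp (Fintype.mem_piFinset.mp ha s)
    rw [abs_le]
    constructor
    · exact_mod_cast h1.1
    · exact_mod_cast h1.2
  have hzy' : ∀ l, |z l - y l| ≤ 1 / q := fun l => by rw [abs_sub_comm]; exact hzy l
  obtain ⟨a1, a2, a3⟩ := RSQ_lip C hC a A hA0 haA y z (1 / q) hqp.le hy1 (hS1 z hz) hzy'
  obtain ⟨-, c2, c3⟩ := RSQ_lip C hC c N hN0 hN z y (1 / q) hqp.le (hS1 z hz) hy1 hzy
  -- the multiplier
  have hμ : |μ| ≤ K₂ * A := by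
    by_contra hne
    push Not at hne
    have hμ0 : 0 < |μ| := lt_of_le_of_lt (by positivity) hne
    have h1 : ∀ v, |DD (fun s => (c s : ℝ)) y v| ≤ (C + 1) * A / |μ| := by
      intro v
      rw [le_div_iff₀ hμ0]
      have h2 : |μ * DD (fun s => (c s : ℝ)) y v| ≤ (C + 1) * A := by
        have h3 := hyD v
        have h4 := a2 v
        have h5 : μ * DD (fun s => (c s : ℝ)) y v = DD (fun s => (a s : ℝ)) y v -
            (DD (fun s => (a s : ℝ)) y v - μ * DD (fun s => (c s : ℝ)) y v) := by ring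
        rw [h5]
        refine (abs_sub _ _).trans ?_
        have h6 : (1 / q : ℝ) * A ≤ 1 * A := mul_le_mul_of_nonneg_right hq1 hA0.le
        calc _ ≤ C * A + 1 / q * A := add_le_add h4 h3
          _ ≤ _ := by linarith
      rw [abs_mul] at h2
      linarith
    have h2 := hE y _ h1 i
    rw [hi] at h2
    have h3 : E * ((C + 1) * A / |μ|) < 1 := by
      rw [← mul_div_assoc, div_lt_one hμ0]
      calc E * ((C + 1) * A) = E * (C + 1) * A := by ring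
        _ ≤ K₂ * A := mul_le_mul_of_nonneg_right hK₂ hA0.le
        _ < |μ| := hne
    linarith
  have hμA : |μ / A| ≤ K₂ := by
    rw [abs_div, abs_of_pos hA0, div_le_iff₀ hA0]
    exact hμ
  obtain ⟨μ1, μ2⟩ := abs_le.1 hμA
  have hfl1 : (⌊(q : ℝ) * (μ / A)⌋ : ℝ) ≤ q * (μ / A) := Int.floor_le _
  have hfl2 : (q : ℝ) * (μ / A) < ⌊(q : ℝ) * (μ / A)⌋ + 1 := Int.lt_floor_add_one _
  obtain ⟨m, hm⟩ : ∃ m : ℤ, m = ⌊(q : ℝ) * (μ / A)⌋ := ⟨_, rfl⟩
  rw [← hm] at hfl1 hfl2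
  have hmd : |μ / A - (m : ℝ) / q| ≤ 1 / q := by
    have h1 : μ / A - (m : ℝ) / q = (q * (μ / A) - m) / q := by
      field_simp
    rw [h1, abs_div, abs_of_pos hq0]
    refine div_le_div_of_nonneg_right ?_ hq0.le
    rw [abs_le]
    constructor <;> linarith
  refine ⟨z, hz, ⟨i, by rw [hzi]; exact hi⟩, m, ?_, ?_⟩
  · rw [Finset.mem_Icc]
    constructor
    · rw [hm, Int.le_floor]
      push_cast
      have h1 := mul_le_mul_of_nonneg_left μ1 hq0.le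
      linarith
    · have h1 := mul_le_mul_of_nonneg_left μ2 hq0.le
      have h2 : (m : ℝ) ≤ ((q * K₂ : ℕ) : ℝ) := by
        push_cast
        linarith
      exact_mod_cast h2
  · refine Finset.mem_filter.mpr ⟨ha, ?_, fun v => ?_⟩
    · rw [hya, sub_zero] at a1
      exact a1
    · have e1 : DD (fun s => (a s : ℝ)) z v - (m : ℝ) / q * A * DD (fun s => (c s : ℝ)) z v =
          (DD (fun s => (a s : ℝ)) z v - DD (fun s => (a s : ℝ)) y v) +
          (DD (fun s => (a s : ℝ)) y v - μ * DD (fun s => (c s : ℝ)) y v) +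
          μ * (DD (fun s => (c s : ℝ)) y v - DD (fun s => (c s : ℝ)) z v) +
          (μ / A - (m : ℝ) / q) * A * DD (fun s => (c s : ℝ)) z v := by
        have e2 : μ = μ / A * A := by field_simp
        have e3 : (μ / A - (m : ℝ) / q) * A = μ - (m : ℝ) / q * A := by
          rw [sub_mul, ← e2]
        rw [e3]
        ring
      rw [e1]
      refine (abs_add_le _ _).trans ?_
      have t1 := a3 v
      have t2 := hyD v
      have t3 : |μ * (DD (fun s => (c s : ℝ)) y v - DD (fun s => (c s : ℝ)) z v)| ≤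
          (K₂ * A) * (C * (1 / q) * N) := by
        rw [abs_mul]
        exact mul_le_mul hμ (c3 v) (abs_nonneg _) (by positivity)
      have t4 : |(μ / A - (m : ℝ) / q) * A * DD (fun s => (c s : ℝ)) z v| ≤
          (1 / q * A) * (C * N) := by
        rw [abs_mul, abs_mul, abs_of_pos hA0]
        exact mul_le_mul (mul_le_mul_of_nonneg_right hmd hA0.le) (c2 v) (abs_nonneg _)
          (by positivity)
      have t5 := (abs_add_le ((DD (fun s => (a s : ℝ)) z v - DD (fun s => (a s : ℝ)) y v) +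
          (DD (fun s => (a s : ℝ)) y v - μ * DD (fun s => (c s : ℝ)) y v))
          (μ * (DD (fun s => (c s : ℝ)) y v - DD (fun s => (c s : ℝ)) z v)))
      have t6 := (abs_add_le (DD (fun s => (a s : ℝ)) z v - DD (fun s => (a s : ℝ)) y v)
          (DD (fun s => (a s : ℝ)) y v - μ * DD (fun s => (c s : ℝ)) y v))
      have t7 : (C + 1 + K₂ * C * N + C * N) * (1 / q) * A = C * (1 / q) * A + 1 / q * A +
          (K₂ * A) * (C * (1 / q) * N) + (1 / q * A) * (C * N) := by ring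
      rw [t7]
      linarith

/-! ### The count -/

theorem RSQ_L {k : ℕ} (φ : IQ k → ℝ) (a a₀ : IQ k → ℤ) :
    RSNG_L φ (fun s => a s - a₀ s) = RSNG_L φ a - RSNG_L φ a₀ := by
  unfold RSNG_L
  rw [← Finset.sum_sub_distrib]
  refine Finset.sum_congr rfl fun s _ => ?_
  push_cast
  ring

theorem RSQ_TTcard (hQAD : Stmt_QAD) (hTRI : Pool.GE.Stmt_TRI) {k : ℕ} (c : IQ k → ℤ) (A q : ℕ)
    (hq : 1 ≤ q) (hA : q ≤ A) (C C₂ : ℝ) (hC1 : 0 ≤ C) (hC2 : 0 ≤ C₂) (z : Fin (k + 2) → ℝ)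
    (i : Fin (k + 2)) (hi : |z i| = 1) (m : ℤ) :
    ((RSQ_TT c A q C C₂ z m).card : ℝ) ≤
      (4 * (A : ℝ) + 1) ^ (Fintype.card (IQ k)) *
        ((4 * C₂ + 1) ^ (k + 1) * (4 * C + 1) * (1 / q) ^ (k + 2)) := by
  classical
  have hq0 : (0 : ℝ) < q := by exact_mod_cast hq
  have hqA : (q : ℝ) ≤ A := by exact_mod_cast hA
  have hq1 : (1 : ℝ) ≤ q := by exact_mod_cast hq
  have hA0 : (0 : ℝ) < A := by linarith
  set T := RSQ_TT c A q C C₂ z m with hT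
  rcases T.eq_empty_or_nonempty with h0 | ⟨a₀, ha₀⟩
  · rw [h0, Finset.card_empty, Nat.cast_zero]
    positivity
  have hmem : ∀ a ∈ T, a ∈ Bx (IQ k) A ∧
      |FF (fun s => (a s : ℝ)) z| ≤ C * (1 / q) * A ∧
      ∀ v, |DD (fun s => (a s : ℝ)) z v - (m : ℝ) / q * A * DD (fun s => (c s : ℝ)) z v| ≤
        C₂ * (1 / q) * A := fun a ha => Finset.mem_filter.mp ha
  -- the normalized point
  set y : Fin (k + 2) → ℝ := fun v => z i * z v with hy
  have hzz : z i * z i = 1 := by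
    have h1 := abs_mul_abs_self (z i)
    rw [hi] at h1
    linarith
  have hyi : y i = 1 := hzz
  have hFy : ∀ a : IQ k → ℤ, FF (fun s => (a s : ℝ)) y = FF (fun s => (a s : ℝ)) z := by
    intro a
    rw [hy, (hQAD ℝ k (fun s => (a s : ℝ)) z z (z i)).2.1, pow_two, hzz, one_mul]
  have hDy : ∀ (a : IQ k → ℤ) (v : Fin (k + 2)), DD (fun s => (a s : ℝ)) y v =
      z i * DD (fun s => (a s : ℝ)) z v := by
    intro a v
    rw [hy, (hQAD ℝ k (fun s => (a s : ℝ)) z z (z i)).2.2.2.1 v]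
  obtain ⟨s₀, s₁, -, -, htri⟩ := hTRI (Fin (k + 2)) Unit (fun _ => ()) (fun _ => 2)
    (fun _ => i) (fun _ => by norm_num) (fun _ => rfl)
  obtain ⟨g1, g2⟩ := htri ℝ y (fun _ => hyi)
  set W : Finset (Fin (k + 2)) := univ.filter fun w => w ≠ i with hW
  have hWc : W.card = k + 1 := by
    rw [hW, Finset.filter_ne', Finset.card_erase_of_mem (mem_univ _), Finset.card_univ,
      Fintype.card_fin]
    rfl
  have hWm : ∀ w ∈ W, w ≠ i := fun w hw => (mem_filter.1 hw).2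
  set S : Finset (IQ k → ℤ) := T.image (fun a s => a s - a₀ s) with hS
  have hScard : S.card = T.card := by
    rw [hS]
    refine Finset.card_image_of_injective _ fun a a' h => ?_
    funext s
    have h1 : a s - a₀ s = a' s - a₀ s := congrFun h s
    omega
  have hL0 : ∀ a : IQ k → ℤ, RSNG_L (fun s => mv s.1 y) a = FF (fun s => (a s : ℝ)) y :=
    fun _ => rfl
  have hL1 : ∀ (a : IQ k → ℤ) (w : Fin (k + 2)),
      RSNG_L (fun s => dm s.1 y w) a = DD (fun s => (a s : ℝ)) y w := fun _ _ => rfl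
  have hbx : ∀ a ∈ T, ∀ s, -(A : ℤ) ≤ a s ∧ a s ≤ A := fun a ha s =>
    Finset.mem_Icc.mp (Fintype.mem_piFinset.mp (hmem a ha).1 s)
  have hmain := RSN_count (2 * A) S
    (fun a ha s => by
      rw [hS, mem_image] at ha
      obtain ⟨a', ha', rfl⟩ := ha
      have h1 := hbx a' ha' s
      have h2 := hbx a₀ ha₀ s
      rw [Finset.mem_Icc]
      push_cast
      constructor <;> linarith [h1.1, h1.2, h2.1, h2.2])
    s₀ s₁ (fun s => mv s.1 y) (fun w s => dm s.1 y w) (2 * (C * (1 / q) * A))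
    (2 * (C₂ * (1 / q) * A)) (by positivity) (by positivity) W
    (by simp only [g1, abs_one])
    (fun w hw => by simp only [(g2 w (hWm w hw)).2.2 w (hWm w hw), if_true, abs_one])
    (fun w hw => (g2 w (hWm w hw)).1)
    (fun w hw w' hw' hne => by
      simp only [(g2 w' (hWm w' hw')).2.2 w (hWm w hw), if_neg hne])
    (fun a ha => by
      rw [hS, mem_image] at ha
      obtain ⟨a', ha', rfl⟩ := ha
      rw [RSQ_L, hL0, hL0, hFy, hFy]
      refine (abs_sub _ _).trans ?_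
      have h1 := (hmem a' ha').2.1
      have h2 := (hmem a₀ ha₀).2.1
      linarith)
    (fun a ha w _ => by
      rw [hS, mem_image] at ha
      obtain ⟨a', ha', rfl⟩ := ha
      rw [RSQ_L, hL1, hL1, hDy, hDy, ← mul_sub, abs_mul, hi, one_mul]
      have h1 := (hmem a' ha').2.2 w
      have h2 := (hmem a₀ ha₀).2.2 w
      have e : DD (fun s => (a' s : ℝ)) z w - DD (fun s => (a₀ s : ℝ)) z w =
          (DD (fun s => (a' s : ℝ)) z w -
            (m : ℝ) / q * A * DD (fun s => (c s : ℝ)) z w) -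
          (DD (fun s => (a₀ s : ℝ)) z w -
            (m : ℝ) / q * A * DD (fun s => (c s : ℝ)) z w) := by ring
      rw [e]
      refine (abs_sub _ _).trans ?_
      linarith)
  rw [hScard, hWc] at hmain
  push_cast at hmain
  -- comparing
  have e4 : 2 * (2 * (A : ℝ)) + 1 = 4 * A + 1 := by ring
  rw [e4] at hmain
  have u1 : 1 ≤ (1 / q : ℝ) * A := by
    rw [one_div, ← div_eq_inv_mul, one_le_div hq0]
    exact hqA
  have u3 : 2 * (2 * (C * (1 / q) * A)) + 1 ≤ (4 * C + 1) * ((1 / q : ℝ) * A) := by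
    nlinarith
  have u4 : 2 * (2 * (C₂ * (1 / q) * A)) + 1 ≤ (4 * C₂ + 1) * ((1 / q : ℝ) * A) := by
    nlinarith
  have u5 : (2 * (2 * (C₂ * (1 / q) * A)) + 1) ^ (k + 1) * (2 * (2 * (C * (1 / q) * A)) + 1) ≤
      (4 * C₂ + 1) ^ (k + 1) * (4 * C + 1) * (1 / q) ^ (k + 2) *
        (4 * (A : ℝ) + 1) ^ (k + 2) := by
    have v1 : (2 * (2 * (C₂ * (1 / q) * A)) + 1) ^ (k + 1) ≤
        ((4 * C₂ + 1) * ((1 / q : ℝ) * A)) ^ (k + 1) :=
      pow_le_pow_left₀ (by positivity) u4 _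
    have v2 : (A : ℝ) ^ (k + 2) ≤ (4 * (A : ℝ) + 1) ^ (k + 2) :=
      pow_le_pow_left₀ hA0.le (by linarith) _
    calc (2 * (2 * (C₂ * (1 / q) * A)) + 1) ^ (k + 1) * (2 * (2 * (C * (1 / q) * A)) + 1)
        ≤ ((4 * C₂ + 1) * ((1 / q : ℝ) * A)) ^ (k + 1) * ((4 * C + 1) * ((1 / q : ℝ) * A)) :=
          mul_le_mul v1 u3 (by positivity) (by positivity)
      _ = (4 * C₂ + 1) ^ (k + 1) * (4 * C + 1) * (1 / q) ^ (k + 2) * (A : ℝ) ^ (k + 2) := by
          rw [mul_pow, mul_pow, pow_succ (1 / q : ℝ) (k + 1), pow_succ (A : ℝ) (k + 1)]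
          ring
      _ ≤ _ := mul_le_mul_of_nonneg_left v2 (by positivity)
  have hP : (0 : ℝ) < (4 * (A : ℝ) + 1) ^ (k + 2) := by positivity
  refine le_of_mul_le_mul_right (a := (4 * (A : ℝ) + 1) ^ (k + 2)) ?_ hP
  refine hmain.trans ?_
  calc (4 * (A : ℝ) + 1) ^ (Fintype.card (IQ k)) *
        ((2 * (2 * (C₂ * (1 / q) * A)) + 1) ^ (k + 1) * (2 * (2 * (C * (1 / q) * A)) + 1))
      ≤ (4 * (A : ℝ) + 1) ^ (Fintype.card (IQ k)) *
        ((4 * C₂ + 1) ^ (k + 1) * (4 * C + 1) * (1 / q) ^ (k + 2) *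
          (4 * (A : ℝ) + 1) ^ (k + 2)) :=
        mul_le_mul_of_nonneg_left u5 (by positivity)
    _ = _ := by ring

theorem p_RSQ (hQAD : Stmt_QAD) (hRNQ : Stmt_RNQ) (hLIP : Pool.GE.Stmt_LIP)
    (hTRI : Pool.GE.Stmt_TRI) (_hHOM : Pool.GE.Stmt_HOM) : Stmt_RSQ := by
  classical
  intro k c ε hc hε
  obtain ⟨C, hC1, hC⟩ := hLIP (Fin (k + 2)) Unit (fun _ => ()) (fun _ => 2)
  obtain ⟨E, hE1, hE⟩ := RSQ_low c hc
  obtain ⟨N, hN1, hN⟩ := RSQ_bd c
  obtain ⟨Cn, hCn1, hCn⟩ := hRNQ k c hc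
  obtain ⟨K₂, hK₂⟩ := exists_nat_ge (E * (C + 1))
  have hC0 : 0 < C := by linarith
  have hK1 : (1 : ℝ) ≤ K₂ := by nlinarith
  obtain ⟨C₂, hC₂⟩ : ∃ C₂ : ℝ, C₂ = C + 1 + K₂ * C * N + C * N := ⟨_, rfl⟩
  have hC20 : 0 ≤ C₂ := by rw [hC₂]; positivity
  obtain ⟨n, hn⟩ : ∃ n : ℕ, n = Fintype.card (IQ k) := ⟨_, rfl⟩
  obtain ⟨K, hK⟩ : ∃ K : ℝ, K = Cn * (3 * K₂) * (2 ^ n * ((4 * C₂ + 1) ^ (k + 1) * (4 * C + 1))) :=
    ⟨_, rfl⟩
  have hK0 : 0 ≤ K := by rw [hK]; positivity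
  obtain ⟨q₀, hq₀⟩ := exists_nat_ge (K / ε)
  obtain ⟨q, hq⟩ : ∃ q : ℕ, q = q₀ + 1 := ⟨_, rfl⟩
  have hq1 : 1 ≤ q := by omega
  have hqR : (1 : ℝ) ≤ q := by exact_mod_cast hq1
  have hq0 : (0 : ℝ) < q := by linarith
  have hKq : K * (1 / q) ≤ ε := by
    have h1 : K / ε ≤ q := hq₀.trans (by rw [hq]; push_cast; linarith)
    rw [div_le_iff₀ hε] at h1
    calc K * (1 / q) ≤ (q * ε) * (1 / q) := mul_le_mul_of_nonneg_right h1 (by positivity)
      _ = ε := by field_simp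
  have hqd : (0 : ℝ) < 1 / q := by positivity
  have hqd1 : (1 : ℝ) / q ≤ 1 := by rw [div_le_one hq0]; exact hqR
  obtain ⟨S, hSc, hS1, hS2⟩ := hCn (1 / q) hqd hqd1
  refine ⟨1 / q, q, hqd, hqd1, fun A hA => ?_⟩
  have hA1 : 1 ≤ A := hq1.trans hA
  obtain ⟨S', hS'⟩ : ∃ S' : Finset (Fin (k + 2) → ℝ), S' = S.filter fun z => ∃ i, |z i| = 1 :=
    ⟨_, rfl⟩
  obtain ⟨I, hI⟩ : ∃ I : Finset ℤ, I = Finset.Icc (-((q * K₂ : ℕ) : ℤ)) ((q * K₂ : ℕ) : ℤ) :=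
    ⟨_, rfl⟩
  have hcov : ((Bx (IQ k) A).filter fun a => RS2 (1 / q) A c a) ⊆
      S'.biUnion fun z => I.biUnion fun m => RSQ_TT c A q C C₂ z m := by
    intro a ha
    obtain ⟨ha1, ha2⟩ := Finset.mem_filter.mp ha
    obtain ⟨z, hz, hzi, m, hm, h⟩ := RSQ_net C hC1 hC c E hE N hN1 hN K₂ hK₂ q A hq1 hA1 S hS1
      hS2 a ha1 ha2
    rw [Finset.mem_biUnion]
    refine ⟨z, by rw [hS']; exact mem_filter.2 ⟨hz, hzi⟩, ?_⟩
    rw [Finset.mem_biUnion]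
    exact ⟨m, by rw [hI]; exact hm, by rw [hC₂]; exact h⟩
  have h1 : (((Bx (IQ k) A).filter fun a => RS2 (1 / q) A c a).card : ℝ) ≤
      ∑ z ∈ S', ∑ m ∈ I, ((RSQ_TT c A q C C₂ z m).card : ℝ) := by
    have h2 : ((Bx (IQ k) A).filter fun a => RS2 (1 / q) A c a).card ≤
        ∑ z ∈ S', ∑ m ∈ I, (RSQ_TT c A q C C₂ z m).card := by
      refine (Finset.card_le_card hcov).trans (Finset.card_biUnion_le.trans ?_)
      exact Finset.sum_le_sum fun z _ => Finset.card_biUnion_le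
    exact_mod_cast h2
  obtain ⟨B, hB⟩ : ∃ B : ℝ, B = (4 * (A : ℝ) + 1) ^ n *
      ((4 * C₂ + 1) ^ (k + 1) * (4 * C + 1) * (1 / q) ^ (k + 2)) := ⟨_, rfl⟩
  have hB0 : 0 ≤ B := by rw [hB]; positivity
  have h2 : ∑ z ∈ S', ∑ m ∈ I, ((RSQ_TT c A q C C₂ z m).card : ℝ) ≤
      (S'.card : ℝ) * ((I.card : ℝ) * B) := by
    rw [← nsmul_eq_mul, ← nsmul_eq_mul, ← Finset.sum_const, ← Finset.sum_const]
    refine Finset.sum_le_sum fun z hz => Finset.sum_le_sum fun m _ => ?_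
    rw [hS'] at hz
    obtain ⟨-, i, hi⟩ := Finset.mem_filter.mp hz
    rw [hB, hn]
    exact RSQ_TTcard hQAD hTRI c A q hq1 hA C C₂ hC0.le hC20 z i hi m
  have h3 : (S'.card : ℝ) ≤ Cn * (q : ℝ) ^ k := by
    have h4 : (S'.card : ℝ) ≤ (S.card : ℝ) := by
      rw [hS']
      exact_mod_cast Finset.card_filter_le _ _
    refine h4.trans (hSc.trans (le_of_eq ?_))
    rw [one_div, inv_pow, div_inv_eq_mul]
  have h4 : (I.card : ℝ) ≤ 3 * K₂ * q := by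
    have h5 : (I.card : ℝ) = 2 * (q * K₂) + 1 := by
      rw [hI, Int.card_Icc]
      have h6 : (((q * K₂ : ℕ) : ℤ) + 1 - -((q * K₂ : ℕ) : ℤ)).toNat = 2 * (q * K₂) + 1 := by
        omega
      rw [h6]
      push_cast
      ring
    rw [h5]
    nlinarith
  have h5 : (4 * (A : ℝ) + 1) ^ n ≤ 2 ^ n * (2 * (A : ℝ) + 1) ^ n := by
    rw [← mul_pow]
    exact pow_le_pow_left₀ (by positivity) (by linarith) n
  have e0 : (q : ℝ) ^ k * (1 / q) ^ k = 1 := by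
    rw [← mul_pow, mul_one_div_cancel hq0.ne', one_pow]
  have e1 : (q : ℝ) * (1 / q) = 1 := mul_one_div_cancel hq0.ne'
  rw [← hn]
  calc (((Bx (IQ k) A).filter fun a => RS2 (1 / q) A c a).card : ℝ)
      ≤ (S'.card : ℝ) * ((I.card : ℝ) * B) := h1.trans h2
    _ ≤ (Cn * (q : ℝ) ^ k) * ((3 * K₂ * q) * ((2 ^ n * (2 * (A : ℝ) + 1) ^ n) *
        ((4 * C₂ + 1) ^ (k + 1) * (4 * C + 1) * (1 / q) ^ (k + 2)))) := by
        rw [hB]
        gcongr
    _ = K * (1 / q) * (2 * (A : ℝ) + 1) ^ n * ((q : ℝ) ^ k * (1 / q) ^ k) *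
          ((q : ℝ) * (1 / q)) := by
        rw [hK, pow_add (1 / q : ℝ) k 2]
        ring
    _ = K * (1 / q) * (2 * (A : ℝ) + 1) ^ n := by rw [e0, e1, mul_one, mul_one]
    _ ≤ ε * (2 * (A : ℝ) + 1) ^ n := mul_le_mul_of_nonneg_right hKq (by positivity)

end Pool.FQ
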