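import Pool.Agent.Work.MP_9fb703_fq.Interface2

set_option autoImplicit false

/-! # Block SBI (helper73): the classes with and without the factor `s`. -/

namespace Pool.FQ

open Finset
open Pool.HPQ (Fw Lam Kw fl rd cs Ww)

theorem SBI_iff {k : ℕ} (κ : Crd k) (s n : ℕ) (τ : Fin (k + 2) → ℤ) (a : IQ k → ℤ) (ν : ℤ)
    (z : Fin k → ℤ) : GdC κ s 1 n 1 τ a ν z ↔ GdC κ 1 1 n 1 0 a (s * ν) z := by
  unfold GdC
  simp only [Nat.cast_one, one_mul, one_dvd, implies_true, true_and]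

theorem SBI_cop {u n : ℤ} (h : IsCoprime u n) : IsCoprime (u % n) n := by
  have h1 : u % n + n * (u / n) = u := Int.emod_add_mul_ediv u n
  rw [← h1] at h
  exact IsCoprime.add_mul_left_left_iff.1 h

theorem SBI_dvd (u n : ℤ) : n ∣ u - u % n := by
  have h1 : u % n + n * (u / n) = u := Int.emod_add_mul_ediv u n
  exact ⟨u / n, by linarith⟩

theorem SBI_inv {s u v n x : ℤ} (h : u * s + v * n = 1) (h0 : 0 ≤ x) (h1 : x < n) :
    u * (s * x % n) % n = x := by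
  have h2 : u * (s * x % n) % n = x % n := by
    rw [Int.emod_eq_emod_iff_emod_sub_eq_zero]
    apply Int.emod_eq_zero_of_dvd
    have h3 : u * (s * x % n) - x = - (u * (s * x - s * x % n)) - x * v * n := by
      linear_combination x * h
    rw [h3]
    exact dvd_sub ((SBI_dvd _ _).mul_left u).neg_right (dvd_mul_left n _)
  rw [h2, Int.emod_eq_of_lt h0 h1]

theorem p_SBI (hG : Stmt_GIN) : Stmt_SBI := by
  intro k κ s n τ a hn hs
  have hn' : (0 : ℤ) < ((1 * n : ℕ) : ℤ) := by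
    rw [one_mul]
    exact_mod_cast hn
  obtain ⟨u, v, huv⟩ : IsCoprime (s : ℤ) ((1 * n : ℕ) : ℤ) := by
    rw [one_mul]
    exact Nat.isCoprime_iff_coprime.2 hs
  have hsc : IsCoprime (s : ℤ) ((1 * n : ℕ) : ℤ) := ⟨u, v, huv⟩
  have huc : IsCoprime u ((1 * n : ℕ) : ℤ) := ⟨s, v, by linarith⟩
  refine Finset.card_nbij' (fun q => ((s : ℤ) * q.1 % ((1 * n : ℕ) : ℤ), q.2))
    (fun q => (u * q.1 % ((1 * n : ℕ) : ℤ), q.2)) ?_ ?_ ?_ ?_
  · intro q hq
    simp only [Gc, Finset.coe_filter, Finset.mem_product, Finset.mem_Ico, Set.mem_ofPred_eq]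
      at hq ⊢
    obtain ⟨⟨hq1, hq2⟩, hq3, hq4⟩ := hq
    refine ⟨⟨⟨Int.emod_nonneg _ hn'.ne', Int.emod_lt_of_pos _ hn'⟩, hq2⟩,
      SBI_cop (hsc.mul_left hq3), ?_⟩
    rw [SBI_iff] at hq4
    refine hG k κ 1 1 n 1 0 a a (s * q.1) _ q.2 q.2 (one_dvd n) (fun i => by simp) ?_
      (fun j => by simp) hq4
    exact SBI_dvd _ _
  · intro q hq
    simp only [Gc, Finset.coe_filter, Finset.mem_product, Finset.mem_Ico, Set.mem_ofPred_eq]
      at hq ⊢
    obtain ⟨⟨hq1, hq2⟩, hq3, hq4⟩ := hq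
    refine ⟨⟨⟨Int.emod_nonneg _ hn'.ne', Int.emod_lt_of_pos _ hn'⟩, hq2⟩,
      SBI_cop (huc.mul_left hq3), ?_⟩
    rw [SBI_iff]
    refine hG k κ 1 1 n 1 0 a a q.1 _ q.2 q.2 (one_dvd n) (fun i => by simp) ?_
      (fun j => by simp) hq4
    have h3 : q.1 - s * (u * q.1 % ((1 * n : ℕ) : ℤ)) =
        s * (u * q.1 - u * q.1 % ((1 * n : ℕ) : ℤ)) + q.1 * v * ((1 * n : ℕ) : ℤ) := by
      linear_combination (-q.1) * huv
    rw [h3]
    exact dvd_add ((SBI_dvd _ _).mul_left _) (dvd_mul_left _ _)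
  · intro q hq
    simp only [Gc, Finset.coe_filter, Finset.mem_product, Finset.mem_Ico, Set.mem_ofPred_eq]
      at hq
    obtain ⟨⟨hq1, -⟩, -⟩ := hq
    exact Prod.ext (SBI_inv huv hq1.1 hq1.2) rfl
  · intro q hq
    simp only [Gc, Finset.coe_filter, Finset.mem_product, Finset.mem_Ico, Set.mem_ofPred_eq]
      at hq
    obtain ⟨⟨hq1, -⟩, -⟩ := hq
    exact Prod.ext (SBI_inv (v := v) (by linarith) hq1.1 hq1.2) rfl

end Pool.FQ
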