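import Pool.Agent.Work.MP_9fb703_fq.Interface2
import Pool.Agent.Work.MP_a19274_ge.B_SNG

/-! # THEOREM FQ, block SGQ: the forms `a` for which the pair `(c, a)` is singular (helper10) -/

set_option autoImplicit false

namespace Pool.FQ

open Finset
open Pool.HPQ (Fw Lam Kw fl rd cs Ww)
open Pool.CB (VV Sol PSN PH lin dl)
open Pool.GE
open Pool.GR (SingPr)

/-- The Gram matrix. -/
def SGQ_H {k : ℕ} (c : IQ k → ℤ) : Matrix (Fin (k + 2)) (Fin (k + 2)) ℤ :=
  Matrix.of fun v w => DD c (Pi.single v 1) w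

theorem SGQ_DD (hQAD : Stmt_QAD) {R : Type} [CommRing R] {k : ℕ} (a : IQ k → R)
    (x : Fin (k + 2) → R) (v : Fin (k + 2)) :
    DD a x v = ∑ w, x w * DD a (Pi.single v 1) w := by
  have h := (hQAD R k a x (Pi.single v 1) 0).2.2.2.2.1
  rw [← h, Finset.sum_eq_single v]
  · rw [Pi.single_eq_same, one_mul]
  · intro w _ hw
    rw [Pi.single_eq_of_ne hw, zero_mul]
  · intro h
    exact absurd (mem_univ _) h

theorem SGQ_det (hQAD : Stmt_QAD) {k : ℕ} {c : IQ k → ℤ} (hN : Nsg c) : (SGQ_H c).det ≠ 0 := by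
  intro h0
  have h1 : ((Int.castRingHom ℚ).mapMatrix (SGQ_H c)).det = 0 := by
    rw [← RingHom.map_det, h0, map_zero]
  obtain ⟨x, hx, hx'⟩ := Matrix.exists_mulVec_eq_zero_iff.2 h1
  apply hx
  apply hN x
  intro v
  rw [SGQ_DD hQAD]
  have h2 := congrFun hx' v
  rw [Pi.zero_apply] at h2
  rw [← h2]
  unfold Matrix.mulVec dotProduct
  refine Finset.sum_congr rfl fun w _ => ?_
  have h3 : (fun u => (((Pi.single v 1 : Fin (k + 2) → ℤ) u : ℤ) : ℚ)) =
      (Pi.single v 1 : Fin (k + 2) → ℚ) := by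
    funext u
    by_cases hu : u = v
    · subst hu
      simp
    · rw [Pi.single_eq_of_ne hu, Pi.single_eq_of_ne hu, Int.cast_zero]
  have h4 := SNG.map_DD (Int.castRingHom ℚ) c (Pi.single v 1) w
  simp only [eq_intCast] at h4
  rw [h3] at h4
  rw [← h4, mul_comm]
  rfl

theorem SGQ_adj (hQAD : Stmt_QAD) {k : ℕ} {c : IQ k → ℤ} {z : Fin (k + 2) → ℤ} {m : ℤ}
    (h : ∀ v, m ∣ DD c z v) (i : Fin (k + 2)) : m ∣ (SGQ_H c).det * z i := by
  have h1 : (SGQ_H c).adjugate.mulVec ((SGQ_H c).mulVec z) = (SGQ_H c).det • z := by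
    rw [Matrix.mulVec_mulVec, Matrix.adjugate_mul, Matrix.smul_mulVec, Matrix.one_mulVec]
  have h2 := congrFun h1 i
  rw [Pi.smul_apply, smul_eq_mul] at h2
  rw [← h2]
  have h3 : ∀ v, (SGQ_H c).mulVec z v = DD c z v := by
    intro v
    rw [SGQ_DD hQAD]
    unfold Matrix.mulVec dotProduct
    refine Finset.sum_congr rfl fun w _ => ?_
    rw [mul_comm]
    rfl
  have h4 : (SGQ_H c).adjugate.mulVec ((SGQ_H c).mulVec z) i =
      ∑ v, (SGQ_H c).adjugate i v * (SGQ_H c).mulVec z v := rfl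
  rw [h4]
  apply Finset.dvd_sum
  intro v _
  rw [h3 v]
  exact (h v).mul_left _

theorem SGQ_T {p : ℕ} (hp : p.Prime) {D : ℤ} (hD : D ≠ 0) : ∃ T : ℕ, ¬ (p : ℤ) ^ T ∣ D := by
  refine ⟨D.natAbs, fun h => ?_⟩
  have h1 : p ^ D.natAbs ∣ D.natAbs := by
    have := Int.natAbs_dvd_natAbs.2 h
    rwa [Int.natAbs_pow, Int.natAbs_natCast] at this
  have h2 := Nat.le_of_dvd (Int.natAbs_pos.2 hD) h1
  have h3 := Nat.lt_pow_self (n := D.natAbs) hp.one_lt
  omega

theorem SGQ_fac {p l : ℤ} : ∀ T : ℕ, ¬ p ^ T ∣ l → ∃ t, t < T ∧ ∃ m, l = p ^ t * m ∧ ¬ p ∣ m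
  | 0, h => absurd (by rw [pow_zero]; exact one_dvd _) h
  | T + 1, h => by
    by_cases h' : p ^ T ∣ l
    · obtain ⟨m, hm⟩ := h'
      refine ⟨T, Nat.lt_succ_self _, m, hm, ?_⟩
      rintro ⟨m', hm'⟩
      exact h ⟨m', by rw [hm, hm', pow_succ, mul_assoc]⟩
    · obtain ⟨t, ht, h2⟩ := SGQ_fac T h'
      exact ⟨t, ht.trans (Nat.lt_succ_self _), h2⟩

theorem SGQ_cop {p : ℕ} (hp : p.Prime) {x y : ℤ} {T : ℕ} (hx : ¬ (p : ℤ) ∣ x)
    (h : (p : ℤ) ^ T ∣ y * x) : (p : ℤ) ^ T ∣ y := by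
  have hc : IsCoprime ((p : ℤ) ^ T) x := by
    apply IsCoprime.pow_left
    exact (Nat.prime_iff_prime_int.1 hp).irreducible.coprime_iff_not_dvd.2 hx
  exact hc.dvd_of_dvd_mul_right h

theorem SGQ_ext {p e t : ℕ} (hp : 0 < p) (ht : t ≤ e) [NeZero (p ^ e)] {x y : ZMod (p ^ e)}
    (h : (p : ZMod (p ^ e)) ^ t * (x - y) = 0)
    (hv : x.val / p ^ (e - t) = y.val / p ^ (e - t)) : x = y := by
  have h1 : ((p ^ e : ℕ) : ℤ) ∣ (p : ℤ) ^ t * ((x.val : ℤ) - (y.val : ℤ)) := by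
    rw [← ZMod.intCast_zmod_eq_zero_iff_dvd]
    push_cast
    rw [ZMod.natCast_zmod_val, ZMod.natCast_zmod_val]
    exact h
  have h2 : ((p ^ (e - t) : ℕ) : ℤ) ∣ (y.val : ℤ) - (x.val : ℤ) := by
    have h3 : ((p ^ e : ℕ) : ℤ) = (p : ℤ) ^ t * ((p ^ (e - t) : ℕ) : ℤ) := by
      push_cast
      rw [← pow_add, Nat.add_sub_cancel' ht]
    rw [h3] at h1
    have h4 := Int.dvd_of_mul_dvd_mul_left (pow_ne_zero t (by exact_mod_cast hp.ne')) h1
    have h5 := (dvd_neg (α := ℤ)).2 h4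
    rwa [neg_sub] at h5
  have h3 : x.val ≡ y.val [MOD p ^ (e - t)] := (Nat.modEq_iff_dvd).2 h2
  apply ZMod.val_injective
  rw [← Nat.div_add_mod x.val (p ^ (e - t)), ← Nat.div_add_mod y.val (p ^ (e - t)), hv, h3]

section fib

variable {k : ℕ}

theorem SGQ_DDs {R : Type} [CommRing R] (i : Fin (k + 2)) (s₀ : IQ k) (s₁ : Fin (k + 2) → IQ k)
    (z : Fin (k + 2) → R)
    (h1 : ∀ w, w ≠ i → dm s₀.1 z w = 0 ∧ mv (s₁ w).1 z = z w ∧
        ∀ w', w' ≠ i → dm (s₁ w).1 z w' = if w' = w then 1 else 0)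
    (δ : IQ k → R) (hδ : ∀ s, ¬ SNG.Sp (fun _ : Unit => i) s₀ s₁ s → δ s = 0)
    (w : Fin (k + 2)) (hw : w ≠ i) : DD δ z w = δ (s₁ w) := by
  unfold DD
  rw [sum_eq_single (s₁ w)]
  · rw [(h1 w hw).2.2 w hw, if_pos rfl, mul_one]
  · intro s _ hs
    by_cases hS : SNG.Sp (fun _ : Unit => i) s₀ s₁ s
    · rcases hS with rfl | ⟨w', hw', rfl⟩
      · rw [(h1 w hw).1, mul_zero]
      · have hne : w ≠ w' := by
          rintro rfl
          exact hs rfl
        rw [(h1 w' hw').2.2 w hw, if_neg hne, mul_zero]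
    · rw [hδ s hS, zero_mul]
  · intro h
    exact absurd (mem_univ _) h

open Classical in
/-- The forms with given data. -/
noncomputable def SGQ_Fib {p e : ℕ} [NeZero (p ^ e)] (cb : IQ k → ZMod (p ^ e))
    (x : (Fin (k + 2) → ZMod (p ^ e)) × (ℕ × ZMod (p ^ e))) : Finset (IQ k → ZMod (p ^ e)) :=
  univ.filter fun a => FF a x.1 = 0 ∧
    ∀ v, (p : ZMod (p ^ e)) ^ x.2.1 * DD a x.1 v + x.2.2 * DD cb x.1 v = 0

open Classical in
theorem SGQ_fib {p e t : ℕ} [NeZero (p ^ e)] (hp : 0 < p) (ht : t ≤ e) (i : Fin (k + 2))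
    (s₀ : IQ k) (s₁ : Fin (k + 2) → IQ k) (z : Fin (k + 2) → ZMod (p ^ e))
    (h0 : mv s₀.1 z = 1)
    (h1 : ∀ w, w ≠ i → dm s₀.1 z w = 0 ∧ mv (s₁ w).1 z = z w ∧
        ∀ w', w' ≠ i → dm (s₁ w).1 z w' = if w' = w then 1 else 0)
    (cb : IQ k → ZMod (p ^ e)) (μ : ZMod (p ^ e)) :
    (SGQ_Fib cb (z, (t, μ))).card ≤
      (p ^ e) ^ Fintype.card {s : IQ k // ¬ SNG.Sp (fun _ : Unit => i) s₀ s₁ s} *
        (p ^ t) ^ (k + 1) := by
  have k2 : (SGQ_Fib cb (z, (t, μ))).card ≤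
      ((univ : Finset ({s : IQ k // ¬ SNG.Sp (fun _ : Unit => i) s₀ s₁ s} → ZMod (p ^ e))) ×ˢ
        (Fintype.piFinset fun _ : {w : Fin (k + 2) // w ≠ i} => range (p ^ t))).card := by
    apply card_le_card_of_injOn
      (fun a => (fun r => a r.1, fun w => (a (s₁ w.1)).val / p ^ (e - t)))
    · intro a _
      refine mem_coe.2 (mem_product.2 ⟨mem_univ _, ?_⟩)
      rw [Fintype.mem_piFinset]
      intro w
      rw [mem_range]
      apply Nat.div_lt_of_lt_mul
      rw [← pow_add, Nat.sub_add_cancel ht]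
      exact ZMod.val_lt _
    · intro a ha a' ha' h
      unfold SGQ_Fib at ha ha'
      have ha1 := (mem_filter.1 (mem_coe.1 ha)).2
      have ha1' := (mem_filter.1 (mem_coe.1 ha')).2
      have hfst := congrArg Prod.fst h
      have hsnd := congrArg Prod.snd h
      simp only at hfst hsnd ha1 ha1'
      have hns : ∀ s, ¬ SNG.Sp (fun _ : Unit => i) s₀ s₁ s → a s - a' s = 0 := by
        intro s hs
        have := congrFun hfst ⟨s, hs⟩
        simp only at this
        rw [this, sub_self]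
      have hs1 : ∀ w, w ≠ i → a (s₁ w) - a' (s₁ w) = 0 := by
        intro w hw
        have h2 := SGQ_DDs i s₀ s₁ z h1 (fun s => a s - a' s) hns w hw
        have h3 := SNG.DD_sub a a' z w
        have h4 : (p : ZMod (p ^ e)) ^ t * (a (s₁ w) - a' (s₁ w)) = 0 := by
          have h5 := ha1.2 w
          have h6 := ha1'.2 w
          rw [← h2, h3]
          linear_combination h5 - h6
        have h5 := congrFun hsnd ⟨w, hw⟩
        simp only at h5
        rw [SGQ_ext hp ht h4 h5, sub_self]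
      have hne : ∀ s, s ≠ s₀ → a s - a' s = 0 := by
        intro s hs
        by_cases hS : SNG.Sp (fun _ : Unit => i) s₀ s₁ s
        · rcases hS with h2 | ⟨w, hw, rfl⟩
          · exact absurd h2 hs
          · exact hs1 w hw
        · exact hns s hS
      have hs0 : a s₀ - a' s₀ = 0 := by
        have h2 := SNG.FF_sub a a' z
        rw [ha1.1, ha1'.1, sub_self] at h2
        unfold FF at h2
        rw [sum_eq_single s₀] at h2
        · rw [h0, mul_one] at h2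
          exact h2
        · intro s _ hs
          beta_reduce
          rw [hne s hs, zero_mul]
        · intro h3
          exact absurd (mem_univ _) h3
      funext s
      by_cases hs : s = s₀
      · rw [hs]
        exact sub_eq_zero.1 hs0
      · exact sub_eq_zero.1 (hne s hs)
  refine k2.trans ?_
  rw [card_product, card_univ, Fintype.card_fun, ZMod.card, Fintype.card_piFinset, prod_const,
    card_range, card_univ]
  apply Nat.mul_le_mul_left
  apply Nat.pow_le_pow_right (pow_pos hp t)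
  rw [Fintype.card_subtype_compl, Fintype.card_subtype_eq, Fintype.card_fin]
  omega

open Classical in
/-- The zeros of the fixed form in a chart. -/
noncomputable def SGQ_Z {p e : ℕ} [NeZero (p ^ e)] (cb : IQ k → ZMod (p ^ e))
    (i : Fin (k + 2)) : Finset (Fin (k + 2) → ZMod (p ^ e)) :=
  univ.filter fun z => z i = 1 ∧ FF cb z = 0

open Classical in
theorem SGQ_Zc {p e : ℕ} [NeZero (p ^ e)] (hq : 1 < p ^ e) (c : IQ k → ℤ) (i : Fin (k + 2)) :
    (SGQ_Z (fun s => ((c s : ℤ) : ZMod (p ^ e))) i).card ≤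
      ((cs (p ^ e) (Fin (k + 2))).filter fun z =>
        z i = 1 ∧ ((p ^ e : ℕ) : ℤ) ∣ FF c z).card := by
  apply card_le_card_of_injOn (fun z v => (((z v).val : ℕ) : ℤ))
  · intro z hz
    obtain ⟨-, h1, h2⟩ := mem_filter.1 (mem_coe.1 hz)
    refine mem_coe.2 (mem_filter.2 ⟨?_, ?_, ?_⟩)
    · unfold cs
      rw [Fintype.mem_piFinset]
      intro v
      rw [mem_Ico]
      constructor
      · exact Int.natCast_nonneg _
      · change (((z v).val : ℕ) : ℤ) < ((p ^ e : ℕ) : ℤ)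
        exact Int.ofNat_lt.2 (ZMod.val_lt (z v))
    · beta_reduce
      rw [h1, ZMod.val_one_eq_one_mod, Nat.mod_eq_of_lt hq]
      rfl
    · rw [← ZMod.intCast_zmod_eq_zero_iff_dvd]
      have h4 := SNG.map_FF (Int.castRingHom (ZMod (p ^ e))) c (fun v => (((z v).val : ℕ) : ℤ))
      simp only [eq_intCast, Int.cast_natCast, ZMod.natCast_zmod_val] at h4
      rw [h4]
      exact h2
  · intro z _ z' _ h
    funext v
    have := congrFun h v
    simp only at this
    exact ZMod.val_injective _ (by exact_mod_cast this)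

end fib

open Classical in
theorem SGQ_chart (hTRI : Pool.GE.Stmt_TRI) {k p e T C₀ : ℕ} [NeZero (p ^ e)] (hp : 0 < p)
    (hT : T ≤ e) (cb : IQ k → ZMod (p ^ e)) (i : Fin (k + 2))
    (hZ : (SGQ_Z cb i).card ≤ C₀ * p ^ (k * e)) :
    ((SGQ_Z cb i ×ˢ (range T ×ˢ (univ : Finset (ZMod (p ^ e))))).biUnion fun x =>
      SGQ_Fib cb x).card * p ^ e ≤
      C₀ * T * (p ^ T) ^ (k + 1) * (p ^ e) ^ Fintype.card (IQ k) := by
  obtain ⟨s₀, s₁, hi, h0, h1⟩ := hTRI (Fin (k + 2)) Unit (fun _ => ()) (fun _ => 2) (fun _ => i)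
    (fun _ => by norm_num) (fun _ => rfl)
  have hns := SNG.card_Sp (b := fun _ : Fin (k + 2) => ()) (d := fun _ : Unit => 2)
    (fun _ : Unit => i) s₀ s₁ hi h0
  have hcard : Fintype.card {w : Fin (k + 2) // w ≠ (fun _ : Unit => i) ((fun _ => ()) w)} =
      k + 1 := by
    have : Fintype.card {w : Fin (k + 2) // w ≠ i} = k + 1 := by
      rw [Fintype.card_subtype_compl, Fintype.card_subtype_eq, Fintype.card_fin]
      omega
    convert this
  rw [hcard] at hns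
  set ns := Fintype.card {s : IQ k // ¬ SNG.Sp (fun _ : Unit => i) s₀ s₁ s} with hnsdef
  have k1 : ∀ x ∈ SGQ_Z cb i ×ˢ (range T ×ˢ (univ : Finset (ZMod (p ^ e)))),
      (SGQ_Fib cb x).card ≤ (p ^ e) ^ ns * (p ^ T) ^ (k + 1) := by
    rintro ⟨z, t, μ⟩ hx
    simp only [mem_product, mem_range, mem_univ, and_true] at hx
    have hz : z i = 1 := by
      have := hx.1
      unfold SGQ_Z at this
      exact (mem_filter.1 this).2.1
    obtain ⟨e0, e1⟩ := h1 (ZMod (p ^ e)) z (fun _ => hz)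
    refine (SGQ_fib hp (hx.2.le.trans hT) i s₀ s₁ z e0 e1 cb μ).trans ?_
    apply Nat.mul_le_mul_left
    apply Nat.pow_le_pow_left
    exact Nat.pow_le_pow_right hp hx.2.le
  have k3 : ((SGQ_Z cb i ×ˢ (range T ×ˢ (univ : Finset (ZMod (p ^ e))))).biUnion fun x =>
      SGQ_Fib cb x).card ≤
      (SGQ_Z cb i ×ˢ (range T ×ˢ (univ : Finset (ZMod (p ^ e))))).card *
        ((p ^ e) ^ ns * (p ^ T) ^ (k + 1)) := by
    refine card_biUnion_le.trans ?_
    refine (sum_le_card_nsmul _ _ _ k1).trans ?_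
    rw [smul_eq_mul]
  have k4 : (SGQ_Z cb i ×ˢ (range T ×ˢ (univ : Finset (ZMod (p ^ e))))).card ≤
      C₀ * p ^ (k * e) * (T * p ^ e) := by
    rw [card_product, card_product, card_range, card_univ, ZMod.card]
    exact Nat.mul_le_mul_right _ hZ
  calc _ ≤ (C₀ * p ^ (k * e) * (T * p ^ e) * ((p ^ e) ^ ns * (p ^ T) ^ (k + 1))) * p ^ e :=
        Nat.mul_le_mul_right _ (k3.trans (Nat.mul_le_mul_right _ k4))
    _ = C₀ * T * (p ^ T) ^ (k + 1) * (p ^ e) ^ (ns + (k + 1 + 1)) := by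
        have h5 : p ^ (k * e) = (p ^ e) ^ k := by rw [← pow_mul, mul_comm]
        rw [h5]
        ring
    _ ≤ C₀ * T * (p ^ T) ^ (k + 1) * (p ^ e) ^ Fintype.card (IQ k) :=
        Nat.mul_le_mul_left _ (Nat.pow_le_pow_right (pow_pos hp e) hns)

/-- Block SGQ. -/
theorem p_SGQ (hQAD : Stmt_QAD) (hCNQ : Stmt_CNQ) (_hCNG : Pool.GE.Stmt_CNG)
    (_hHOM : Pool.GE.Stmt_HOM) (hTRI : Pool.GE.Stmt_TRI) : Stmt_SGQ := by
  classical
  intro k c hN p hp
  obtain ⟨C₀, hC₀⟩ := hCNQ k c hN p hp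
  obtain ⟨T, hT⟩ := SGQ_T hp (SGQ_det hQAD hN)
  have hT1 : 1 ≤ T := by
    rcases Nat.eq_zero_or_pos T with h | h
    · rw [h, pow_zero] at hT
      exact absurd (one_dvd _) hT
    · exact h
  have hp0 : (0 : ℝ) < p := by exact_mod_cast hp.pos
  have hp1 : (1 : ℝ) ≤ p := by exact_mod_cast hp.one_lt.le
  refine ⟨(p : ℝ) ^ T + (((k + 2) * (C₀ * T * (p ^ T) ^ (k + 1)) : ℕ) : ℝ), ?_, fun e he => ?_⟩
  · have h1 : (1 : ℝ) ≤ (p : ℝ) ^ T := one_le_pow₀ hp1
    have h2 : (0 : ℝ) ≤ (((k + 2) * (C₀ * T * (p ^ T) ^ (k + 1)) : ℕ) : ℝ) := Nat.cast_nonneg _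
    linarith
  have hq0 : 0 < p ^ e := pow_pos hp.pos e
  have hne : NeZero (p ^ e) := ⟨hq0.ne'⟩
  have hq1 : 1 < p ^ e := Nat.one_lt_pow (by omega) hp.one_lt
  have hqR : (0 : ℝ) < (p : ℝ) ^ e := by positivity
  have hqc : (0 : ℝ) ≤ ((p : ℝ) ^ e) ^ Fintype.card (IQ k) := by positivity
  rw [div_mul_eq_mul_div, le_div_iff₀ hqR]
  rcases Nat.lt_or_ge e T with hTe | hTe
  · -- the trivial bound
    have h1 : ((cs (p ^ e) (IQ k)).filter fun a =>
        SingPr p e (![c, a] : Fin 2 → IQ k → ℤ)).card ≤ (p ^ e) ^ Fintype.card (IQ k) := by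
      refine (card_filter_le _ _).trans ?_
      unfold cs
      rw [Fintype.card_piFinset, prod_const, Int.card_Ico, sub_zero, Int.toNat_natCast, card_univ]
    have h2 : (((cs (p ^ e) (IQ k)).filter fun a =>
        SingPr p e (![c, a] : Fin 2 → IQ k → ℤ)).card : ℝ) ≤
        ((p : ℝ) ^ e) ^ Fintype.card (IQ k) := by
      exact_mod_cast h1
    have h3 : (p : ℝ) ^ e ≤ (p : ℝ) ^ T := pow_le_pow_right₀ hp1 hTe.le
    have h4 : (0 : ℝ) ≤ (((k + 2) * (C₀ * T * (p ^ T) ^ (k + 1)) : ℕ) : ℝ) := Nat.cast_nonneg _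
    calc _ ≤ ((p : ℝ) ^ e) ^ Fintype.card (IQ k) * (p : ℝ) ^ T := by
          apply mul_le_mul h2 h3 hqR.le hqc
      _ ≤ _ := by
          rw [mul_comm]
          apply mul_le_mul_of_nonneg_right _ hqc
          linarith
  -- the main case
  set cb : IQ k → ZMod (p ^ e) := fun s => ((c s : ℤ) : ZMod (p ^ e)) with hcb
  have h1 : ((cs (p ^ e) (IQ k)).filter fun a =>
      SingPr p e (![c, a] : Fin 2 → IQ k → ℤ)).card ≤
      ((univ : Finset (Fin (k + 2))).biUnion fun i =>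
        (SGQ_Z cb i ×ˢ (range T ×ˢ (univ : Finset (ZMod (p ^ e))))).biUnion fun x =>
          SGQ_Fib cb x).card := by
    apply card_le_card_of_injOn (fun a s => ((a s : ℤ) : ZMod (p ^ e)))
    · intro a ha
      obtain ⟨-, z, l, hPm, hl, hF, hD⟩ := mem_filter.1 (mem_coe.1 ha)
      obtain ⟨i, -, hi⟩ := hPm ()
      have hFc : ((p ^ e : ℕ) : ℤ) ∣ FF c z := hF 0
      have hFa : ((p ^ e : ℕ) : ℤ) ∣ FF a z := hF 1
      have hDD : ∀ v, ((p ^ e : ℕ) : ℤ) ∣ l 0 * DD c z v + l 1 * DD a z v := by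
        intro v
        have := hD v
        rw [Fin.sum_univ_two] at this
        exact this
      have hl1 : ¬ (p : ℤ) ^ T ∣ l 1 := by
        intro h
        have h2 : (p : ℤ) ∣ l 1 := (dvd_pow_self _ (by omega)).trans h
        have h3 : ¬ (p : ℤ) ∣ l 0 := by
          obtain ⟨j, hj⟩ := hl
          fin_cases j
          · exact hj
          · exact absurd h2 hj
        have h4 : ∀ v, (p : ℤ) ^ T ∣ DD c z v := by
          intro v
          have h5 : (p : ℤ) ^ T ∣ ((p ^ e : ℕ) : ℤ) := by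
            push_cast
            exact pow_dvd_pow _ hTe
          have h6 := h5.trans (hDD v)
          have h7 : (p : ℤ) ^ T ∣ l 1 * DD a z v := h.mul_right _
          have h8 := (Int.dvd_add_left h7).1 h6
          rw [mul_comm] at h8
          exact SGQ_cop hp h3 h8
        exact hT (SGQ_cop hp hi (SGQ_adj hQAD h4 i))
      obtain ⟨t, ht, m, hm, hpm⟩ := SGQ_fac T hl1
      obtain ⟨u, hu⟩ := (SNG.unit_of_not_dvd (e := e) hp hi).exists_left_inv
      obtain ⟨ν, hν⟩ := (SNG.unit_of_not_dvd (e := e) hp hpm).exists_left_inv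
      have hFc' : FF cb (fun v => ((z v : ℤ) : ZMod (p ^ e))) = 0 := by
        have h4 := SNG.map_FF (Int.castRingHom (ZMod (p ^ e))) c z
        have h5 : Int.castRingHom (ZMod (p ^ e)) (FF c z) = 0 :=
          (ZMod.intCast_zmod_eq_zero_iff_dvd _ _).2 hFc
        rw [h5] at h4
        exact h4.symm
      have hFa' : FF (fun s => ((a s : ℤ) : ZMod (p ^ e)))
          (fun v => ((z v : ℤ) : ZMod (p ^ e))) = 0 := by
        have h4 := SNG.map_FF (Int.castRingHom (ZMod (p ^ e))) a z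
        have h5 : Int.castRingHom (ZMod (p ^ e)) (FF a z) = 0 :=
          (ZMod.intCast_zmod_eq_zero_iff_dvd _ _).2 hFa
        rw [h5] at h4
        exact h4.symm
      have hD' : ∀ v, ((l 0 : ℤ) : ZMod (p ^ e)) *
          DD cb (fun v => ((z v : ℤ) : ZMod (p ^ e))) v +
          ((l 1 : ℤ) : ZMod (p ^ e)) * DD (fun s => ((a s : ℤ) : ZMod (p ^ e)))
          (fun v => ((z v : ℤ) : ZMod (p ^ e))) v = 0 := by
        intro v
        have h4 : Int.castRingHom (ZMod (p ^ e)) (l 0 * DD c z v + l 1 * DD a z v) = 0 :=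
          (ZMod.intCast_zmod_eq_zero_iff_dvd _ _).2 (hDD v)
        rw [map_add, map_mul, map_mul, SNG.map_DD, SNG.map_DD] at h4
        exact h4
      rw [mem_coe, mem_biUnion]
      refine ⟨i, mem_univ _, ?_⟩
      rw [mem_biUnion]
      refine ⟨(fun v => u * ((z v : ℤ) : ZMod (p ^ e)),
        (t, ((l 0 : ℤ) : ZMod (p ^ e)) * ν)), ?_, ?_⟩
      · rw [mem_product, mem_product]
        refine ⟨?_, mem_range.2 ht, mem_univ _⟩
        unfold SGQ_Z
        rw [mem_filter]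
        refine ⟨mem_univ _, hu, ?_⟩
        simp only
        rw [(hQAD (ZMod (p ^ e)) k cb (fun v => ((z v : ℤ) : ZMod (p ^ e))) 0 u).2.1, hFc',
          mul_zero]
      · unfold SGQ_Fib
        rw [mem_filter]
        refine ⟨mem_univ _, ?_, fun v => ?_⟩
        · simp only
          rw [(hQAD (ZMod (p ^ e)) k (fun s => ((a s : ℤ) : ZMod (p ^ e)))
            (fun v => ((z v : ℤ) : ZMod (p ^ e))) 0 u).2.1, hFa', mul_zero]
        · simp only
          rw [(hQAD (ZMod (p ^ e)) k (fun s => ((a s : ℤ) : ZMod (p ^ e)))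
            (fun v => ((z v : ℤ) : ZMod (p ^ e))) 0 u).2.2.2.1 v,
            (hQAD (ZMod (p ^ e)) k cb (fun v => ((z v : ℤ) : ZMod (p ^ e))) 0 u).2.2.2.1 v]
          have h5 := hD' v
          rw [hm] at h5
          push_cast at h5
          have h6 : ν * ((m : ℤ) : ZMod (p ^ e)) = 1 := hν
          linear_combination (ν * u) * h5 - (p : ZMod (p ^ e)) ^ t * u *
            DD (fun s => ((a s : ℤ) : ZMod (p ^ e))) (fun v => ((z v : ℤ) : ZMod (p ^ e))) v * h6
    · intro a ha a' ha' h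
      have ha1 := (mem_filter.1 (mem_coe.1 ha)).1
      have ha1' := (mem_filter.1 (mem_coe.1 ha')).1
      simp only [cs, Fintype.mem_piFinset, mem_Ico] at ha1 ha1'
      funext s
      have h4 := congrFun h s
      simp only at h4
      rw [ZMod.intCast_eq_intCast_iff] at h4
      have h5 : a s % ((p ^ e : ℕ) : ℤ) = a' s % ((p ^ e : ℕ) : ℤ) := h4
      rwa [Int.emod_eq_of_lt (ha1 s).1 (ha1 s).2,
        Int.emod_eq_of_lt (ha1' s).1 (ha1' s).2] at h5
  have h2 : ((cs (p ^ e) (IQ k)).filter fun a =>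
      SingPr p e (![c, a] : Fin 2 → IQ k → ℤ)).card * p ^ e ≤
      (k + 2) * (C₀ * T * (p ^ T) ^ (k + 1)) * (p ^ e) ^ Fintype.card (IQ k) := by
    calc _ ≤ (∑ i : Fin (k + 2), ((SGQ_Z cb i ×ˢ
          (range T ×ˢ (univ : Finset (ZMod (p ^ e))))).biUnion fun x =>
          SGQ_Fib cb x).card) * p ^ e := Nat.mul_le_mul_right _ (h1.trans card_biUnion_le)
      _ = ∑ i : Fin (k + 2), ((SGQ_Z cb i ×ˢ
          (range T ×ˢ (univ : Finset (ZMod (p ^ e))))).biUnion fun x =>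
          SGQ_Fib cb x).card * p ^ e := by rw [sum_mul]
      _ ≤ (univ : Finset (Fin (k + 2))).card • (C₀ * T * (p ^ T) ^ (k + 1) *
          (p ^ e) ^ Fintype.card (IQ k)) :=
        sum_le_card_nsmul _ _ _ fun i _ =>
          SGQ_chart hTRI hp.pos hTe cb i ((SGQ_Zc hq1 c i).trans (hC₀ e i))
      _ = _ := by
        rw [card_univ, Fintype.card_fin, smul_eq_mul]
        ring
  have h3 : (((cs (p ^ e) (IQ k)).filter fun a =>
      SingPr p e (![c, a] : Fin 2 → IQ k → ℤ)).card : ℝ) * (p : ℝ) ^ e ≤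
      (((k + 2) * (C₀ * T * (p ^ T) ^ (k + 1)) : ℕ) : ℝ) *
        ((p : ℝ) ^ e) ^ Fintype.card (IQ k) := by
    exact_mod_cast h2
  refine h3.trans ?_
  apply mul_le_mul_of_nonneg_right _ hqc
  have h4 : (0 : ℝ) ≤ (p : ℝ) ^ T := by positivity
  linarith

end Pool.FQ
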