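import Pool.Agent.Work.MP_9fb703_fq.Interface1
import Pool.Agent.Work.MP_a19274_ge.B_MIN
import Pool.Agent.Work.MP_a19274_ge.B_DEL

set_option autoImplicit false

namespace Pool.FQ

open Finset
open Pool.GE

theorem SHV_add {τ : Type} [Fintype τ] (x y : τ → ℤ) (t : ℤ) :
    De x (fun v => y v + t * x v) = De x y := by
  unfold De
  refine sup_congr rfl fun q _ => ?_
  have h1 : om x (fun v => y v + t * x v) q.1 q.2 = om x y q.1 q.2 := by
    unfold om
    ring
  rw [h1]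

theorem SHV_pos {τ : Type} [Fintype τ] {x y : τ → ℤ} (h : 0 < De x y) : 1 ≤ sn x := by
  by_contra hc
  have h0 : sn x = 0 := by omega
  have h1 : ∀ v, x v = 0 := fun v => by
    have h2 := MIN_le x v
    rw [h0] at h2
    exact abs_eq_zero.1 (le_antisymm (by simpa using h2) (abs_nonneg _))
  have h3 := DEL_bound x y 0 le_rfl (fun v w => by
    unfold om
    rw [h1 v, h1 w]
    simp)
  have h4 : De x y ≤ 0 := by exact_mod_cast h3
  omega

/-- `(z, w)` is a basis of the lattice spanned by `(x, x')`. -/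
def SHV_P {τ : Type} [Fintype τ] (x x' z w : τ → ℤ) : Prop :=
  De z w = De x x' ∧ (∃ α β : ℤ, ∀ v, x v = α * z v + β * w v) ∧
    ∃ α β : ℤ, ∀ v, x' v = α * z v + β * w v

theorem SHV_swap {τ : Type} [Fintype τ] {x x' z w : τ → ℤ} (h : SHV_P x x' z w) :
    SHV_P x x' w z := by
  obtain ⟨h1, ⟨a, b, h2⟩, c, d, h3⟩ := h
  refine ⟨by rw [MIN_De]; exact h1, ⟨b, a, fun v => ?_⟩, d, c, fun v => ?_⟩
  · rw [h2 v]
    ring
  · rw [h3 v]
    ring

theorem SHV_shift {τ : Type} [Fintype τ] {x x' z w : τ → ℤ} (h : SHV_P x x' z w) (t : ℤ) :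
    SHV_P x x' z (fun v => w v + t * z v) := by
  obtain ⟨h1, ⟨a, b, h2⟩, c, d, h3⟩ := h
  refine ⟨by rw [SHV_add]; exact h1, ⟨a - b * t, b, fun v => ?_⟩, c - d * t, d, fun v => ?_⟩
  · rw [h2 v]
    ring
  · rw [h3 v]
    ring

/-- division with a small remainder -/
theorem SHV_div (a b : ℤ) (hb : b ≠ 0) : ∃ t : ℤ, 2 * |a + t * b| ≤ |b| := by
  have h1 := Int.emod_nonneg a hb
  have h2 := Int.emod_lt_abs a hb
  have h3 := Int.emod_add_mul_ediv a b
  by_cases h4 : 2 * (a % b) ≤ |b|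
  · refine ⟨-(a / b), ?_⟩
    have h5 : a + -(a / b) * b = a % b := by
      linear_combination -h3
    rw [h5, abs_of_nonneg h1]
    exact h4
  · rcases abs_choice b with hs | hs
    · refine ⟨-(a / b) - 1, ?_⟩
      have h5 : a + (-(a / b) - 1) * b = a % b - |b| := by
        rw [hs]
        linear_combination -h3
      rw [h5, abs_of_neg (by linarith)]
      linarith
    · refine ⟨-(a / b) + 1, ?_⟩
      have h5 : a + (-(a / b) + 1) * b = a % b - |b| := by
        rw [hs]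
        linear_combination -h3
      rw [h5, abs_of_neg (by linarith)]
      linarith

theorem p_SHV (hPLW : Stmt_PLW) : Stmt_SHV := by
  intro τ _ _ x y hx hpar
  haveI := MIN_ne hx
  obtain ⟨v₁, hv₁⟩ := MIN_at x
  obtain ⟨α₀, x', hy, -, -, hDe, hDpos, hct⟩ := hPLW τ x y v₁ hx hpar hv₁
  -- the minimal basis
  have hex : ∃ n : ℕ, ∃ z w : τ → ℤ, SHV_P x x' z w ∧ sn z = n :=
    ⟨sn x, x, x', ⟨rfl, ⟨1, 0, fun v => by ring⟩, 0, 1, fun v => by ring⟩, rfl⟩
  classical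
  obtain ⟨z, w, hP, hn⟩ := Nat.find_spec hex
  have hmin : ∀ z' w' : τ → ℤ, SHV_P x x' z' w' → sn z ≤ sn z' := by
    intro z' w' h'
    rw [hn]
    exact Nat.find_min' hex ⟨z', w', h', rfl⟩
  have hzpos : 1 ≤ sn z := by
    refine SHV_pos (y := w) ?_
    rw [hP.1]
    exact hDpos
  obtain ⟨v₀, hv₀⟩ := MIN_at z
  have hz0 : z v₀ ≠ 0 := by
    intro h0
    rw [h0] at hv₀
    have : (0 : ℤ) = (sn z : ℤ) := by simpa using hv₀
    omega
  -- the lower bound
  have hlow : sn z ^ 2 ≤ 2 * De x x' := by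
    obtain ⟨t, ht⟩ := SHV_div (w v₀) (z v₀) hz0
    have hP1 := SHV_shift hP t
    set w1 : τ → ℤ := fun v => w v + t * z v with hw1
    have h1 := hmin _ _ (SHV_swap hP1)
    obtain ⟨v, hv⟩ := MIN_at w1
    have h2 := DEL_le z w1 v₀ v
    have h3 : |z v₀| * |w1 v| - |z v| * |w1 v₀| ≤ |om z w1 v₀ v| := by
      have := abs_sub_abs_le_abs_sub (z v₀ * w1 v) (z v * w1 v₀)
      rw [abs_mul, abs_mul] at this
      exact this
    have h4 := MIN_le z v
    have h5 : 2 * |w1 v₀| ≤ sn z := by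
      rw [← hv₀]
      exact ht
    rw [hv₀, hv] at h3
    rw [hP1.1] at h2
    have h6 : (sn z : ℤ) ≤ sn w1 := by exact_mod_cast h1
    have h7 : (0 : ℤ) ≤ sn z := by positivity
    have h8 : (sn z : ℤ) ^ 2 ≤ 2 * (De x x' : ℤ) := by
      nlinarith [mul_le_mul_of_nonneg_left h6 h7,
        mul_le_mul h4 h5 (by positivity) h7]
    exact_mod_cast h8
  -- the final basis
  have hP2 := SHV_shift hP (-(w v₀ / z v₀))
  refine ⟨z, fun v => w v + -(w v₀ / z v₀) * z v, v₀, hzpos, hv₀, ?_, ?_, ?_, ?_, hct, hP2.2.1, ?_⟩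
  · have h3 := Int.emod_add_mul_ediv (w v₀) (z v₀)
    have h5 : w v₀ + -(w v₀ / z v₀) * z v₀ = w v₀ % z v₀ := by
      linear_combination -h3
    show 0 ≤ w v₀ + -(w v₀ / z v₀) * z v₀
    rw [h5]
    exact Int.emod_nonneg _ hz0
  · have h3 := Int.emod_add_mul_ediv (w v₀) (z v₀)
    have h5 : w v₀ + -(w v₀ / z v₀) * z v₀ = w v₀ % z v₀ := by
      linear_combination -h3
    show w v₀ + -(w v₀ / z v₀) * z v₀ < sn z
    rw [h5, ← hv₀]
    exact Int.emod_lt_abs _ hz0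
  · rw [hP2.1]
    exact hlow
  · rw [hP2.1]
    exact hDe
  · obtain ⟨a, b, h1⟩ := hP2.2.1
    obtain ⟨c, d, h2⟩ := hP2.2.2
    refine ⟨α₀ * a + ct x y * c, α₀ * b + ct x y * d, fun v => ?_⟩
    have h3 := h1 v
    have h4 := h2 v
    simp only at h3 h4
    rw [hy v, h3, h4]
    ring

end Pool.FQ
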