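import Pool.Agent.Work.MP_9fb703_fq.Interface2
import Pool.Agent.Work.MP_a19274_ge.B_SIG

/-! # THEOREM FQ, block SIQ: few forms have few solutions modulo `n` -/

set_option autoImplicit false
set_option linter.unusedSectionVars false

namespace Pool.FQ

open Finset
open Pool.HPQ (Fw Lam Kw fl rd cs Ww)
open Pool.CB (VV Sol PSN PH lin dl)
open Pool.GE
open Pool.GR (SingPr)

theorem SIQ_om {k : ℕ} (A : Fin (k + 2) → Fin (k + 2) → ℤ) (g : ℕ) (x y : Fin (k + 2) → ℤ)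
    (h : ∀ v w, (g : ℤ) ∣ om x y v w) (i j : Fin (k + 2)) :
    (g : ℤ) ∣ om (pt A x) (pt A y) i j := by
  have e : om (pt A x) (pt A y) i j = ∑ v, ∑ w, (A i v * A j w) * om x y v w := by
    unfold om pt
    simp only [Int.cast_id]
    rw [Finset.sum_mul_sum, Finset.sum_mul_sum]
    rw [Finset.sum_comm (f := fun a b => A j a * x a * (A i b * y b)), ← Finset.sum_sub_distrib]
    refine Finset.sum_congr rfl fun v _ => ?_
    rw [← Finset.sum_sub_distrib]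
    refine Finset.sum_congr rfl fun w _ => ?_
    ring
  rw [e]
  exact Finset.dvd_sum fun v _ => Finset.dvd_sum fun w _ => (h v w).mul_left _

/-- the point with the coordinates `ν, x₁, ζ` -/
def SIQ_X {k : ℕ} (κ : Crd k) (x1 : ℤ × (Fin k → ℤ) → ℤ) (q : ℤ × (Fin k → ℤ)) :
    Fin (k + 2) → ℤ := pt κ.M (tt q.1 (x1 q) q.2)

theorem SIQ_min {k : ℕ} (κ : Crd k) (hinv : ∀ t : Fin (k + 2) → ℤ, pt κ.I (pt κ.M t) = t)
    (x1 : ℤ × (Fin k → ℤ) → ℤ) (g : ℕ) (q q' : ℤ × (Fin k → ℤ))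
    (h : g ∣ SIG_ct (fun _ : Fin (k + 2) => ()) (SIQ_X κ x1 q) (SIQ_X κ x1 q')) (j : Fin k) :
    (g : ℤ) ∣ q.1 * q'.2 j - q.2 j * q'.1 := by
  have h1 : ∀ v w, (g : ℤ) ∣ om (SIQ_X κ x1 q) (SIQ_X κ x1 q') v w := by
    intro v w
    have h3 := Finset.gcd_dvd (s := (univ : Finset (Fin (k + 2) × Fin (k + 2))))
      (f := fun p => if (fun _ : Fin (k + 2) => ()) p.1 = (fun _ : Fin (k + 2) => ()) p.2 then
        (om (SIQ_X κ x1 q) (SIQ_X κ x1 q') p.1 p.2).natAbs else 0) (Finset.mem_univ (v, w))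
    have h4 := h.trans h3
    simp only [if_true] at h4
    exact Int.natCast_dvd.mpr h4
  have h2 := SIQ_om κ.I g _ _ h1 0 j.succ.succ
  unfold SIQ_X at h2
  rw [hinv, hinv] at h2
  have e : om (tt q.1 (x1 q) q.2) (tt q'.1 (x1 q') q'.2) 0 j.succ.succ =
      q.1 * q'.2 j - q.2 j * q'.1 := by
    simp [om, tt]
  rwa [e] at h2

open Classical in
theorem SIQ_count {k : ℕ} (κ : Crd k) (hinv : ∀ t : Fin (k + 2) → ℤ, pt κ.I (pt κ.M t) = t)
    (n g : ℕ) (hn : 1 ≤ n) (hg : g ∣ n) (U : Finset ℤ) (x1 : ℤ × (Fin k → ℤ) → ℤ)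
    (q : ℤ × (Fin k → ℤ)) (hq : IsCoprime q.1 (n : ℤ)) :
    ((U ×ˢ cs n (Fin k)).filter fun q' =>
      g ∣ SIG_ct (fun _ : Fin (k + 2) => ()) (SIQ_X κ x1 q) (SIQ_X κ x1 q')).card ≤
      U.card * (n / g) ^ k := by
  have hg0 : 0 < g := Nat.pos_of_dvd_of_pos hg hn
  have hgz : (0 : ℤ) < g := by exact_mod_cast hg0
  have hNc : (g : ℤ) * ((n / g : ℕ) : ℤ) = n := by exact_mod_cast Nat.mul_div_cancel' hg
  have hcop : IsCoprime (g : ℤ) q.1 :=
    (hq.of_isCoprime_of_dvd_right (Int.natCast_dvd_natCast.mpr hg)).symm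
  have hinj : ((U ×ˢ cs n (Fin k)).filter fun q' =>
      g ∣ SIG_ct (fun _ : Fin (k + 2) => ()) (SIQ_X κ x1 q) (SIQ_X κ x1 q')).card ≤
      (U ×ˢ Fintype.piFinset fun _ : Fin k => Finset.Ico (0 : ℤ) ((n / g : ℕ) : ℤ)).card := by
    refine Finset.card_le_card_of_injOn (fun y => (y.1, fun v => y.2 v / (g : ℤ))) ?_ ?_
    · intro y hy
      simp only [Finset.coe_filter, Set.mem_ofPred_eq, Finset.mem_product, cs,
        Fintype.mem_piFinset, Finset.mem_Ico] at hy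
      simp only [Finset.coe_product, Set.mem_prod, Finset.mem_coe, Finset.mem_Ico,
        Fintype.mem_piFinset]
      refine ⟨hy.1.1, fun i => ⟨?_, ?_⟩⟩
      · exact Int.ediv_nonneg (hy.1.2 i).1 hgz.le
      · rw [Int.ediv_lt_iff_lt_mul hgz, mul_comm, hNc]; exact (hy.1.2 i).2
    · intro y hy y' hy' he
      simp only [Finset.coe_filter, Set.mem_ofPred_eq] at hy hy'
      simp only [Prod.mk.injEq] at he
      refine Prod.ext he.1 (funext fun j => ?_)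
      have e1 := SIQ_min κ hinv x1 g q y hy.2 j
      have e2 := SIQ_min κ hinv x1 g q y' hy'.2 j
      have e3 : (g : ℤ) ∣ q.1 * (y.2 j - y'.2 j) := by
        have e4 : q.1 * (y.2 j - y'.2 j) = (q.1 * y.2 j - q.2 j * y.1) -
            (q.1 * y'.2 j - q.2 j * y'.1) := by
          rw [he.1]; ring
        rw [e4]; exact dvd_sub e1 e2
      have hd : (g : ℤ) ∣ y.2 j - y'.2 j := hcop.dvd_of_dvd_mul_left e3
      have h5 : y.2 j / (g : ℤ) = y'.2 j / (g : ℤ) := congrFun he.2 j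
      have h6 : y.2 j % (g : ℤ) = y'.2 j % (g : ℤ) :=
        Int.emod_eq_emod_iff_emod_sub_eq_zero.mpr (Int.emod_eq_zero_of_dvd hd)
      rw [← Int.mul_ediv_add_emod (y.2 j) (g : ℤ), ← Int.mul_ediv_add_emod (y'.2 j) (g : ℤ), h5, h6]
  refine hinj.trans (le_of_eq ?_)
  rw [Finset.card_product, Fintype.card_piFinset]
  simp only [Int.card_Ico, sub_zero, Int.toNat_natCast, Finset.prod_const, Finset.card_univ,
    Fintype.card_fin]

theorem SIQ_sum3 (P n : ℕ) (hP : 1 ≤ P) (S : Finset ℕ) (hS : ∀ c ∈ S, P < c ∧ c ≤ n) :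
    ∑ c ∈ S, 1 / (c : ℝ) ^ 3 ≤ 1 / (P : ℝ) ^ 2 := by
  have hPr : (0 : ℝ) < P := by exact_mod_cast hP
  have h1 := Pool.HPQ.SIG2_sum2 P n hP S hS
  calc ∑ c ∈ S, 1 / (c : ℝ) ^ 3 ≤ ∑ c ∈ S, 1 / (P : ℝ) * (1 / (c : ℝ) ^ 2) := by
        refine Finset.sum_le_sum fun c hc => ?_
        have hcP : (P : ℝ) < c := by exact_mod_cast (hS c hc).1
        have hc0 : (0 : ℝ) < c := by linarith
        rw [one_div_mul_one_div]
        refine one_div_le_one_div_of_le (by positivity) ?_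
        have : (c : ℝ) ^ 3 = c * c ^ 2 := by ring
        rw [this]
        exact mul_le_mul_of_nonneg_right hcP.le (by positivity)
    _ = 1 / (P : ℝ) * ∑ c ∈ S, 1 / (c : ℝ) ^ 2 := by rw [Finset.mul_sum]
    _ ≤ 1 / (P : ℝ) * (1 / (P : ℝ)) := mul_le_mul_of_nonneg_left h1 (by positivity)
    _ = 1 / (P : ℝ) ^ 2 := by rw [one_div_mul_one_div, sq]

theorem SIQ_sumc {k : ℕ} (hk : 4 ≤ k) (κ : Crd k)
    (hinv : ∀ t : Fin (k + 2) → ℤ, pt κ.I (pt κ.M t) = t) (P n : ℕ) (hP : 1 ≤ P) (hn : 1 ≤ n)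
    (hw : ∀ p : ℕ, p.Prime → p ∣ n → P < p) (U : Finset ℤ) (x1 : ℤ × (Fin k → ℤ) → ℤ)
    (q : ℤ × (Fin k → ℤ)) (hq : IsCoprime q.1 (n : ℤ)) :
    ∑ y ∈ U ×ˢ cs n (Fin k),
      (Nat.gcd (SIG_ct (fun _ : Fin (k + 2) => ()) (SIQ_X κ x1 q) (SIQ_X κ x1 y)) n : ℝ) ≤
      (U.card : ℝ) * (n : ℝ) ^ k * (1 + 1 / (P : ℝ) ^ 2) := by
  classical
  have hNr : (0 : ℝ) < n := by exact_mod_cast hn
  have h1 : ∀ y ∈ U ×ˢ cs n (Fin k),
      Nat.gcd (SIG_ct (fun _ : Fin (k + 2) => ()) (SIQ_X κ x1 q) (SIQ_X κ x1 y)) n ∈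
        n.divisors := fun y _ => by
    rw [Nat.mem_divisors]; exact ⟨Nat.gcd_dvd_right _ _, by omega⟩
  rw [← Finset.sum_fiberwise_of_maps_to h1]
  have h2 : ∀ c ∈ n.divisors, ∑ y ∈ (U ×ˢ cs n (Fin k)).filter (fun y =>
        Nat.gcd (SIG_ct (fun _ : Fin (k + 2) => ()) (SIQ_X κ x1 q) (SIQ_X κ x1 y)) n = c),
      (Nat.gcd (SIG_ct (fun _ : Fin (k + 2) => ()) (SIQ_X κ x1 q) (SIQ_X κ x1 y)) n : ℝ) ≤
        (U.card : ℝ) * (n : ℝ) ^ k * (1 / (c : ℝ) ^ 3) := by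
    intro c hc
    have hcd := Nat.dvd_of_mem_divisors hc
    have hc0 : 0 < c := Nat.pos_of_dvd_of_pos hcd hn
    have hcr : (c : ℝ) ≠ 0 := by exact_mod_cast hc0.ne'
    have hc1 : (1 : ℝ) ≤ c := by exact_mod_cast hc0
    have h3 : ∑ y ∈ (U ×ˢ cs n (Fin k)).filter (fun y =>
        Nat.gcd (SIG_ct (fun _ : Fin (k + 2) => ()) (SIQ_X κ x1 q) (SIQ_X κ x1 y)) n = c),
        (Nat.gcd (SIG_ct (fun _ : Fin (k + 2) => ()) (SIQ_X κ x1 q) (SIQ_X κ x1 y)) n : ℝ) =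
        (((U ×ˢ cs n (Fin k)).filter (fun y =>
          Nat.gcd (SIG_ct (fun _ : Fin (k + 2) => ()) (SIQ_X κ x1 q) (SIQ_X κ x1 y)) n = c)).card :
          ℝ) * (c : ℝ) := by
      rw [Finset.sum_congr rfl (fun y hy => by rw [(Finset.mem_filter.mp hy).2]), Finset.sum_const,
        nsmul_eq_mul]
    have h4 : ((U ×ˢ cs n (Fin k)).filter (fun y =>
        Nat.gcd (SIG_ct (fun _ : Fin (k + 2) => ()) (SIQ_X κ x1 q) (SIQ_X κ x1 y)) n = c)).card ≤
        U.card * (n / c) ^ k := by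
      refine le_trans (Finset.card_le_card ?_) (SIQ_count κ hinv n c hn hcd U x1 q hq)
      intro y hy
      rw [Finset.mem_filter] at hy ⊢
      exact ⟨hy.1, hy.2 ▸ Nat.gcd_dvd_left _ _⟩
    have h5 : (((U ×ˢ cs n (Fin k)).filter (fun y =>
        Nat.gcd (SIG_ct (fun _ : Fin (k + 2) => ()) (SIQ_X κ x1 q) (SIQ_X κ x1 y)) n = c)).card :
          ℝ) ≤ (U.card : ℝ) * ((n : ℝ) / c) ^ k := by
      have : (((U ×ˢ cs n (Fin k)).filter (fun y =>
        Nat.gcd (SIG_ct (fun _ : Fin (k + 2) => ()) (SIQ_X κ x1 q) (SIQ_X κ x1 y)) n = c)).card :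
          ℝ) ≤ ((U.card * (n / c) ^ k : ℕ) : ℝ) := by
        exact_mod_cast h4
      rwa [Nat.cast_mul, Nat.cast_pow, Nat.cast_div hcd hcr] at this
    rw [h3]
    calc _ ≤ (U.card : ℝ) * ((n : ℝ) / c) ^ k * (c : ℝ) :=
          mul_le_mul_of_nonneg_right h5 (by positivity)
      _ = (U.card : ℝ) * (n : ℝ) ^ k * ((c : ℝ) / (c : ℝ) ^ k) := by
          rw [div_pow]; ring
      _ ≤ _ := by
          refine mul_le_mul_of_nonneg_left ?_ (by positivity)
          rw [div_le_div_iff₀ (by positivity) (by positivity), one_mul, ← pow_succ']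
          exact pow_le_pow_right₀ hc1 (by omega)
  refine (Finset.sum_le_sum h2).trans ?_
  rw [← Finset.mul_sum]
  refine mul_le_mul_of_nonneg_left ?_ (by positivity)
  have h3 : (1 : ℕ) ∈ n.divisors := Nat.one_mem_divisors.mpr (by omega)
  rw [← Finset.add_sum_erase _ _ h3]
  have h5 : ∑ c ∈ n.divisors.erase 1, 1 / (c : ℝ) ^ 3 ≤ 1 / (P : ℝ) ^ 2 :=
    SIQ_sum3 P n hP _ fun c hc => Pool.HPQ.SIG2_divisor P n hn hw c
      (Nat.dvd_of_mem_divisors (Finset.mem_of_mem_erase hc)) (Finset.ne_of_mem_erase hc)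
  have h6 : (1 : ℝ) / ((1 : ℕ) : ℝ) ^ 3 = 1 := by norm_num
  rw [h6]
  linarith

open Classical in
theorem SIQ_U (n : ℕ) :
    ((Finset.Ico (0 : ℤ) n).filter fun ν => IsCoprime ν (n : ℤ)).card = Nat.totient n := by
  rw [Nat.totient_eq_card_coprime]
  symm
  refine Finset.card_bij (fun a _ => (a : ℤ)) ?_ ?_ ?_
  · intro a ha
    rw [Finset.mem_filter, Finset.mem_range] at ha
    rw [Finset.mem_filter, Finset.mem_Ico]
    refine ⟨⟨by positivity, by exact_mod_cast ha.1⟩, ?_⟩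
    exact Nat.isCoprime_iff_coprime.mpr ha.2.symm
  · intro a _ b _ h
    exact_mod_cast h
  · intro b hb
    rw [Finset.mem_filter, Finset.mem_Ico] at hb
    obtain ⟨a, rfl⟩ := Int.eq_ofNat_of_zero_le hb.1.1
    refine ⟨a, ?_, rfl⟩
    rw [Finset.mem_filter, Finset.mem_range]
    exact ⟨by exact_mod_cast hb.1.2, (Nat.isCoprime_iff_coprime.mp hb.2).symm⟩

theorem p_SIQ (hPTI : Stmt_PTI) (_hCNG : Pool.GE.Stmt_CNG) (hA : Pool.GE.Stmt_ANM)
    (hC : Pool.GE.Stmt_CTM) : Stmt_SIQ := by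
  classical
  intro k hk
  refine ⟨4, by norm_num, ?_⟩
  intro c κ P n hκ hP hn hw hcop
  have hinv : ∀ t : Fin (k + 2) → ℤ, pt κ.I (pt κ.M t) = t := fun t => (hPTI k c κ hκ ℤ t).2.1
  have hNr : (0 : ℝ) < n := by exact_mod_cast hn
  have hPr : (0 : ℝ) < P := by exact_mod_cast hP
  set b : Fin (k + 2) → Unit := fun _ => () with hb
  set d : Unit → ℕ := fun _ => 2 with hd
  set U : Finset ℤ := (Finset.Ico (0 : ℤ) n).filter fun ν => IsCoprime ν (n : ℤ) with hU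
  have hUc : U.card = Nat.totient n := SIQ_U n
  set T : Finset (ℤ × (Fin k → ℤ)) := U ×ˢ cs n (Fin k) with hT
  have hTcop : ∀ q ∈ T, IsCoprime q.1 (n : ℤ) := by
    intro q hq
    rw [hT, Finset.mem_product] at hq
    exact (Finset.mem_filter.mp hq.1).2
  have hex : ∀ q ∈ T, ∃ x₁ : ℤ, (n : ℤ) ∣ κ.D * (q.1 * x₁) + TT κ q.1 q.2 := by
    intro q hq
    have h1 : IsCoprime ((κ.D : ℤ) * q.1) (n : ℤ) :=
      IsCoprime.mul_left (Nat.isCoprime_iff_coprime.mpr hcop) (hTcop q hq)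
    obtain ⟨u, v, huv⟩ := h1
    refine ⟨-u * TT κ q.1 q.2, TT κ q.1 q.2 * v, ?_⟩
    linear_combination (-(TT κ q.1 q.2)) * huv
  choose! x1 hx1 using hex
  set X : ℤ × (Fin k → ℤ) → Fin (k + 2) → ℤ := SIQ_X κ x1 with hX
  have hprim : ∀ q ∈ T, ∀ p : ℕ, p.Prime → p ∣ n → ∃ v, ¬ (p : ℤ) ∣ X q v := by
    intro q hq p hp hpn
    by_contra hne
    push Not at hne
    have h1 : (p : ℤ) ∣ pt κ.I (X q) 0 := by
      unfold pt
      exact Finset.dvd_sum fun i _ => (hne i).mul_left _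
    have h2 : pt κ.I (X q) 0 = q.1 := by
      rw [hX]
      unfold SIQ_X
      rw [hinv]
      rfl
    rw [h2] at h1
    have h3 := (hTcop q hq).isUnit_of_dvd' h1 (Int.natCast_dvd_natCast.mpr hpn)
    rw [Int.isUnit_iff_natAbs_eq, Int.natAbs_natCast] at h3
    exact hp.ne_one h3
  have hL : ∀ q ∈ T, ∃ l, SIG_L n b (X q) l := by
    intro q hq
    refine SIG_lin n b (X q) ?_
    intro p hp hpn i
    obtain ⟨v, hv⟩ := hprim q hq p hp hpn
    exact ⟨v, rfl, hv⟩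
  choose! l hl using hL
  set D := Fintype.card (IQ k) with hD
  set A := cs n (IQ k) with hAdef
  have hAc : (A.card : ℝ) = (n : ℝ) ^ D := by
    have : A.card = n ^ D := by
      rw [hAdef, cs, Fintype.card_piFinset]
      simp only [Int.card_Ico, sub_zero, Int.toNat_natCast, Finset.prod_const, Finset.card_univ]
      rfl
    rw [this]; push_cast; rfl
  set g : (IQ k → ℤ) → ℝ := fun a => ∑ q ∈ T, SIG_J n a (X q) with hg
  have hgG : ∀ a : IQ k → ℤ, g a ≤ ((Gc κ 1 1 n 1 0 a).card : ℝ) := by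
    intro a
    have h1 : g a = ((T.filter fun q => (n : ℤ) ∣ FF a (X q)).card : ℝ) := by
      rw [Finset.card_filter]
      push_cast
      rfl
    rw [h1]
    refine Nat.cast_le.mpr (Finset.card_le_card ?_)
    intro q hq
    rw [Finset.mem_filter] at hq
    have hqT := hq.1
    rw [hT, Finset.mem_product] at hqT
    have hqU := Finset.mem_filter.mp hqT.1
    unfold Gc
    rw [Finset.mem_filter, Finset.mem_product]
    have e1 : (((1 * n : ℕ) : ℕ) : ℤ) = n := by push_cast; ring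
    refine ⟨⟨by rw [e1]; exact hqU.1, by rw [one_mul]; exact hqT.2⟩, by rw [e1]; exact hqU.2, ?_⟩
    refine ⟨x1 q, ?_, ?_, ?_, ?_⟩
    · rw [e1, Nat.cast_one, one_mul]
      exact hx1 q hq.1
    · rw [Nat.cast_one, one_mul]
      exact hq.2
    · intro v
      rw [Nat.cast_one]
      exact one_dvd _
    · intro p hp hpn
      rw [Nat.cast_one, one_mul]
      exact hprim q hq.1 p hp hpn
  have hTr : (T.card : ℝ) = (Nat.totient n : ℝ) * (n : ℝ) ^ k := by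
    rw [hT, Finset.card_product, hUc, cs, Fintype.card_piFinset]
    simp only [Int.card_Ico, sub_zero, Int.toNat_natCast, Finset.prod_const, Finset.card_univ,
      Fintype.card_fin]
    push_cast
    rfl
  have hT0 : (0 : ℝ) < T.card := by
    rw [hTr]
    have : 0 < Nat.totient n := Nat.totient_pos.mpr hn
    positivity
  -- first moment
  have hF : (∑ a ∈ A, g a) * (n : ℝ) = (n : ℝ) ^ D * (T.card : ℝ) := by
    calc (∑ a ∈ A, g a) * (n : ℝ) = ∑ q ∈ T, (∑ a ∈ A, SIG_J n a (X q)) * (n : ℝ) := by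
          rw [Finset.sum_comm, Finset.sum_mul]
      _ = ∑ q ∈ T, (n : ℝ) ^ D := Finset.sum_congr rfl fun q hq =>
          SIG_first hA n b d hn (fun _ => by norm_num [hd]) ⟨()⟩ (X q) (hl q hq)
      _ = _ := by rw [Finset.sum_const, nsmul_eq_mul, mul_comm]
  -- second moment
  have hS : (∑ a ∈ A, g a ^ 2) * (n : ℝ) ^ 2 ≤
      (n : ℝ) ^ D * ((T.card : ℝ) * (T.card : ℝ)) * (1 + 1 / (P : ℝ) ^ 2) := by
    calc (∑ a ∈ A, g a ^ 2) * (n : ℝ) ^ 2
        = (∑ a ∈ A, ∑ q ∈ T, ∑ q' ∈ T, SIG_J n a (X q) * SIG_J n a (X q')) * (n : ℝ) ^ 2 := by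
          congr 1
          refine Finset.sum_congr rfl fun a _ => ?_
          rw [sq, hg, Finset.sum_mul_sum]
      _ = ∑ q ∈ T, ∑ q' ∈ T,
            (∑ a ∈ A, SIG_J n a (X q) * SIG_J n a (X q')) * (n : ℝ) ^ 2 := by
          rw [Finset.sum_comm, Finset.sum_mul]
          refine Finset.sum_congr rfl fun z _ => ?_
          rw [Finset.sum_comm, Finset.sum_mul]
      _ ≤ ∑ q ∈ T, ∑ q' ∈ T,
            (n : ℝ) ^ D * (Nat.gcd (SIG_ct b (X q) (X q')) n : ℝ) := by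
          refine Finset.sum_le_sum fun z hz => Finset.sum_le_sum fun z' hz' => ?_
          exact SIG_second hA hC n b d (fun _ => by norm_num [hd]) hn (X z) (X z') (hl z hz)
            (hl z' hz')
      _ ≤ ∑ q ∈ T, (n : ℝ) ^ D * ((T.card : ℝ) * (1 + 1 / (P : ℝ) ^ 2)) := by
          refine Finset.sum_le_sum fun z hz => ?_
          rw [← Finset.mul_sum]
          refine mul_le_mul_of_nonneg_left ?_ (by positivity)
          have h1 := SIQ_sumc hk κ hinv P n hP hn hw U x1 z (hTcop z hz)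
          rw [hUc, ← hTr] at h1
          exact h1
      _ = _ := by rw [Finset.sum_const, nsmul_eq_mul]; ring
  -- Chebyshev
  have hCh : ((A.filter fun a =>
      2 * n * (Gc κ 1 1 n 1 0 a).card < Nat.totient n * n ^ k).card : ℝ) *
      ((T.card : ℝ) ^ 2 / 4) ≤ ∑ a ∈ A, ((T.card : ℝ) - n * g a) ^ 2 := by
    rw [← nsmul_eq_mul, ← Finset.sum_const]
    calc _ ≤ ∑ a ∈ A.filter (fun a =>
          2 * n * (Gc κ 1 1 n 1 0 a).card < Nat.totient n * n ^ k),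
            ((T.card : ℝ) - n * g a) ^ 2 := by
          refine Finset.sum_le_sum fun a ha => ?_
          have h1 := (Finset.mem_filter.mp ha).2
          have h2 : (2 * n * ((Gc κ 1 1 n 1 0 a).card : ℝ)) < (T.card : ℝ) := by
            rw [hTr]
            exact_mod_cast h1
          have h3 := mul_le_mul_of_nonneg_left (hgG a) (by positivity : (0 : ℝ) ≤ 2 * n)
          have h4 : (T.card : ℝ) / 2 ≤ (T.card : ℝ) - n * g a := by linarith
          calc (T.card : ℝ) ^ 2 / 4 = ((T.card : ℝ) / 2) ^ 2 := by ring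
            _ ≤ _ := pow_le_pow_left₀ (by positivity) h4 2
      _ ≤ _ := Finset.sum_le_sum_of_subset_of_nonneg (Finset.filter_subset _ _)
          fun _ _ _ => sq_nonneg _
  have hE : ∑ a ∈ A, ((T.card : ℝ) - n * g a) ^ 2 =
      (n : ℝ) ^ D * (T.card : ℝ) ^ 2 - 2 * (T.card : ℝ) * ((∑ a ∈ A, g a) * n) +
        (∑ a ∈ A, g a ^ 2) * (n : ℝ) ^ 2 := by
    have e1 : ∀ a, ((T.card : ℝ) - n * g a) ^ 2 =
        (T.card : ℝ) ^ 2 - 2 * (T.card : ℝ) * n * g a + (n : ℝ) ^ 2 * g a ^ 2 :=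
      fun a => by ring
    simp only [e1, Finset.sum_add_distrib, Finset.sum_sub_distrib, ← Finset.mul_sum, Finset.sum_const,
      nsmul_eq_mul, hAc]
    ring
  rw [hE, hF] at hCh
  have h8 : (0 : ℝ) < (T.card : ℝ) ^ 2 / 4 := by positivity
  refine le_of_mul_le_mul_right ?_ h8
  have h9 : (n : ℝ) ^ D * ((T.card : ℝ) * (T.card : ℝ)) * (1 + 1 / (P : ℝ) ^ 2) =
      (n : ℝ) ^ D * (T.card : ℝ) ^ 2 + 4 / (P : ℝ) ^ 2 * (n : ℝ) ^ D * ((T.card : ℝ) ^ 2 / 4) := by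
    ring
  rw [h9] at hS
  linarith

end Pool.FQ
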