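import Pool.Agent.Work.MP_9fb703_fq.Interface1

/-! Block SZQ (helper78). -/

set_option autoImplicit false

namespace Pool.FQ

open Finset
open Pool.GE

/-- expansion of a quadratic form along one coordinate -/
theorem SZQ_add {R : Type} [CommRing R] {k : ℕ} (g : Fin k → Fin k → ℤ) (z : Fin k → R) (s : R)
    (j : Fin k) :
    qd g (fun i => z i + s * (if i = j then 1 else 0)) =
      qd g z + s * (∑ i, ((g i j : R) * z i + (g j i : R) * z i)) + s ^ 2 * (g j j : R) := by
  have e : ∀ i l : Fin k, (g i l : R) * ((z i + s * (if i = j then 1 else 0)) *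
      (z l + s * (if l = j then 1 else 0))) =
      (g i l : R) * (z i * z l) + (if i = j then s * ((g i l : R) * z l) else 0) +
        (if l = j then s * ((g i l : R) * z i) else 0) +
        (if i = j then (if l = j then s ^ 2 * (g i l : R) else 0) else 0) := by
    intro i l
    by_cases hi : i = j <;> by_cases hl : l = j <;> simp [hi, hl] <;> ring
  simp only [qd, e, Finset.sum_add_distrib]
  have h1 : ∑ i, ∑ l, (if i = j then s * ((g i l : R) * z l) else 0) =
      s * ∑ i, (g j i : R) * z i := by
    rw [Finset.sum_comm]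
    simp only [Finset.sum_ite_eq', Finset.mem_univ, if_true]
    rw [Finset.mul_sum]
  have h2 : ∑ i, ∑ l, (if l = j then s * ((g i l : R) * z i) else 0) =
      s * ∑ i, (g i j : R) * z i := by
    simp only [Finset.sum_ite_eq', Finset.mem_univ, if_true]
    rw [Finset.mul_sum]
  have h3 : ∑ i, ∑ l, (if i = j then (if l = j then s ^ 2 * (g i l : R) else 0) else 0) =
      s ^ 2 * (g j j : R) := by
    have : ∀ i, ∑ l, (if i = j then (if l = j then s ^ 2 * (g i l : R) else 0) else 0) =
        if i = j then s ^ 2 * (g i j : R) else 0 := by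
      intro i
      by_cases hi : i = j
      · simp only [hi, if_true, Finset.sum_ite_eq', Finset.mem_univ]
      · simp only [hi, if_false, Finset.sum_const_zero]
    simp only [this, Finset.sum_ite_eq', Finset.mem_univ, if_true]
  rw [h1, h2, h3]
  ring

theorem SZQ_lin {R : Type} [CommRing R] {k : ℕ} (lam : Fin k → R) (z : Fin k → R) (s : R)
    (j : Fin k) :
    ∑ i, lam i * (z i + s * (if i = j then 1 else 0)) = ∑ i, lam i * z i + s * lam j := by
  have e : ∀ i, lam i * (z i + s * (if i = j then 1 else 0)) =
      lam i * z i + (if i = j then s * lam i else 0) := by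
    intro i
    by_cases hi : i = j <;> simp [hi]
    ring
  simp only [e, Finset.sum_add_distrib, Finset.sum_ite_eq', Finset.mem_univ, if_true]

theorem p_SZQ : Stmt_SZQ := by
  classical
  intro k p _ g α β lam hcase
  obtain ⟨j, hj⟩ : ∃ j : Fin k, (α ≠ 0 ∧ (g j j : ZMod p) ≠ 0) ∨ (α = 0 ∧ lam j ≠ 0) := by
    rcases hcase with ⟨h, j, hj⟩ | ⟨h, j, hj⟩
    · exact ⟨j, Or.inl ⟨h, hj⟩⟩
    · exact ⟨j, Or.inr ⟨h, hj⟩⟩
  obtain ⟨n, rfl⟩ : ∃ n, k = n + 1 := by
    have := j.pos
    exact ⟨k - 1, by omega⟩
  set S := (univ : Finset (Fin (n + 1) → ZMod p)).filter fun z =>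
    α * qd g z + ∑ j, lam j * z j + β = 0 with hS
  let f : (Fin (n + 1) → ZMod p) → (Fin n → ZMod p) := fun z i => z (j.succAbove i)
  have hfib : ∀ w ∈ S.image f, (S.filter fun x => f x = w).card ≤ 2 := by
    intro w _
    by_contra hcon
    push Not at hcon
    obtain ⟨x1, h1, x2, h2, x3, h3, h12, h13, h23⟩ := Finset.two_lt_card.1 hcon
    rw [Finset.mem_filter] at h1 h2 h3
    -- the points differ only in the coordinate `j`
    have hdiff : ∀ x y : Fin (n + 1) → ZMod p, f x = f y →
        y = fun i => x i + (y j - x j) * (if i = j then 1 else 0) := by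
      intro x y hxy
      funext i
      by_cases hi : i = j
      · subst hi
        simp
      · obtain ⟨l, hl⟩ := Fin.exists_succAbove_eq hi
        have := congrFun hxy l
        simp only [f] at this
        rw [hl] at this
        simp [hi, this]
    have hval : ∀ x y : Fin (n + 1) → ZMod p, x ∈ S → y ∈ S → f x = f y → x ≠ y →
        (α * (∑ i, ((g i j : ZMod p) * x i + (g j i : ZMod p) * x i)) + lam j) +
          (y j - x j) * (α * (g j j : ZMod p)) = 0 := by
      intro x y hx hy hxy hne
      have e := hdiff x y hxy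
      have hs : y j - x j ≠ 0 := by
        intro h0
        apply hne
        rw [e, h0]
        simp
      have hy' : α * qd g y + ∑ j, lam j * y j + β = 0 := (Finset.mem_filter.1 hy).2
      have hx' : α * qd g x + ∑ j, lam j * x j + β = 0 := (Finset.mem_filter.1 hx).2
      set s := y j - x j with hsdef
      rw [e, SZQ_add, SZQ_lin] at hy'
      have : s * ((α * (∑ i, ((g i j : ZMod p) * x i + (g j i : ZMod p) * x i)) + lam j) +
          s * (α * (g j j : ZMod p))) = 0 := by
        linear_combination hy' - hx'
      exact (mul_eq_zero.1 this).resolve_left hs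
    have e12 := hval x1 x2 h1.1 h2.1 (h1.2.trans h2.2.symm) h12
    have e13 := hval x1 x3 h1.1 h3.1 (h1.2.trans h3.2.symm) h13
    have h23j : x2 j - x3 j ≠ 0 := by
      intro h0
      apply h23
      have := hdiff x3 x2 (h3.2.trans h2.2.symm)
      rw [this, h0]
      simp
    have hA : α * (g j j : ZMod p) = 0 := by
      have : (x2 j - x3 j) * (α * (g j j : ZMod p)) = 0 := by
        linear_combination e12 - e13
      exact (mul_eq_zero.1 this).resolve_left h23j
    rcases hj with ⟨ha, hg⟩ | ⟨ha, hl⟩
    · exact (mul_ne_zero ha hg) hA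
    · rw [hA, ha] at e12
      apply hl
      linear_combination e12
  have hcard := Finset.card_le_mul_card_image (f := f) S 2 hfib
  refine hcard.trans ?_
  refine Nat.mul_le_mul_left 2 ?_
  refine (Finset.card_le_univ _).trans ?_
  rw [Fintype.card_fun, ZMod.card, Fintype.card_fin]
  simp

end Pool.FQ
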