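import Pool.Agent.Work.MP_9fb703_fq.Interface1

set_option autoImplicit false

/-! # THEOREM FQ, block TBW: vectors in a tube -/

namespace Pool.FQ

open Finset
open Pool.HPQ (Fw Lam Kw fl rd cs Ww)
open Pool.CB (VV Sol PSN PH lin dl)
open Pool.GE
open Pool.GR (SingPr)

/-- the number of integers in a real interval -/
theorem TBW_cnt (c r : ℝ) (hr : 0 ≤ r) : ((Finset.Icc ⌈c - r⌉ ⌊c + r⌋).card : ℝ) ≤ 2 * r + 1 := by
  rw [Int.card_Icc]
  have h1 : (((⌊c + r⌋ + 1 - ⌈c - r⌉).toNat : ℕ) : ℤ) = max (⌊c + r⌋ + 1 - ⌈c - r⌉) 0 :=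
    Int.toNat_eq_max _
  have h2 : (((⌊c + r⌋ + 1 - ⌈c - r⌉).toNat : ℕ) : ℝ) =
      ((max (⌊c + r⌋ + 1 - ⌈c - r⌉) 0 : ℤ) : ℝ) := by exact_mod_cast congrArg (Int.cast : ℤ → ℝ) h1
  rw [h2]
  have h3 := Int.floor_le (c + r)
  have h4 := Int.le_ceil (c - r)
  push_cast
  exact max_le (by linarith) (by linarith)

theorem TBW_mem (c r : ℝ) (z : ℤ) (h : |(z : ℝ) - c| ≤ r) : z ∈ Finset.Icc ⌈c - r⌉ ⌊c + r⌋ := by
  rw [abs_le] at h
  rw [Finset.mem_Icc]
  exact ⟨Int.ceil_le.2 (by linarith [h.1]), Int.le_floor.2 (by linarith [h.2])⟩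

theorem p_TBW : Stmt_TBW := by
  intro τ _ _ x v₀ Z hv₀ hs hZ S hS
  have hsR : (0 : ℝ) < (sn x : ℝ) := by exact_mod_cast hs
  have hx0 : (x v₀ : ℝ) ≠ 0 := by
    intro h
    have h1 : x v₀ = 0 := by exact_mod_cast h
    rw [h1, abs_zero] at hv₀
    omega
  have habs : |(x v₀ : ℝ)| = (sn x : ℝ) := by
    have h1 : ((|x v₀| : ℤ) : ℝ) = ((sn x : ℤ) : ℝ) := by rw [hv₀]
    push_cast at h1
    exact h1
  obtain ⟨r, hr⟩ : ∃ r : ℝ, r = Z / sn x := ⟨_, rfl⟩
  have hr0 : 0 ≤ r := by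
    rw [hr]
    positivity
  set I : ℤ → τ → Finset ℤ := fun a v =>
    if v = v₀ then {a} else Finset.Icc ⌈(x v : ℝ) * a / x v₀ - r⌉ ⌊(x v : ℝ) * a / x v₀ + r⌋ with hI
  have hsub : S ⊆ (Finset.Ico (0 : ℤ) (sn x)).biUnion fun a => Fintype.piFinset (I a) := by
    intro w hw
    obtain ⟨h1, h2, h3⟩ := hS w hw
    rw [Finset.mem_biUnion]
    refine ⟨w v₀, Finset.mem_Ico.2 ⟨h1, h2⟩, ?_⟩
    rw [Fintype.mem_piFinset]
    intro v
    rw [hI]
    dsimp only
    split_ifs with hv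
    · rw [hv, Finset.mem_singleton]
    · apply TBW_mem
      have h4 := h3 v
      unfold om at h4
      push_cast at h4
      have h5 : (w v : ℝ) - (x v : ℝ) * (w v₀ : ℝ) / x v₀ =
          ((x v₀ : ℝ) * w v - x v * w v₀) / x v₀ := by
        field_simp
      rw [h5, abs_div, habs, hr]
      exact div_le_div_of_nonneg_right h4 hsR.le
  have hcard : ∀ a : ℤ, ((Fintype.piFinset (I a)).card : ℝ) ≤
      (2 * Z / sn x + 1) ^ (Fintype.card τ - 1) := by
    intro a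
    rw [Fintype.card_piFinset]
    push_cast
    rw [← Finset.mul_prod_erase Finset.univ _ (Finset.mem_univ v₀)]
    have e1 : (((I a v₀).card : ℕ) : ℝ) = 1 := by
      rw [hI]
      simp
    rw [e1, one_mul]
    have e2 : (Fintype.card τ - 1) = (Finset.univ.erase v₀).card := by
      rw [Finset.card_erase_of_mem (Finset.mem_univ v₀), Finset.card_univ]
    rw [e2, ← Finset.prod_const]
    refine Finset.prod_le_prod (fun v _ => by positivity) fun v hv => ?_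
    have hv' : v ≠ v₀ := (Finset.mem_erase.1 hv).1
    rw [hI]
    dsimp only
    rw [if_neg hv']
    refine (TBW_cnt _ _ hr0).trans (le_of_eq ?_)
    rw [hr]
    ring
  calc (S.card : ℝ) ≤ (((Finset.Ico (0 : ℤ) (sn x)).biUnion fun a =>
        Fintype.piFinset (I a)).card : ℝ) := by exact_mod_cast Finset.card_le_card hsub
    _ ≤ ∑ a ∈ Finset.Ico (0 : ℤ) (sn x), ((Fintype.piFinset (I a)).card : ℝ) := by
        exact_mod_cast Finset.card_biUnion_le
    _ ≤ ∑ a ∈ Finset.Ico (0 : ℤ) (sn x), (2 * Z / sn x + 1) ^ (Fintype.card τ - 1) :=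
        Finset.sum_le_sum fun a _ => hcard a
    _ = sn x * (2 * Z / sn x + 1) ^ (Fintype.card τ - 1) := by
        rw [Finset.sum_const, Int.card_Ico, nsmul_eq_mul]
        simp

end Pool.FQ
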