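import Pool.Agent.Work.MP_9fb703_fq.Interface1

set_option autoImplicit false

/-! # Block UNI: a primitive vector is the first column of a unimodular matrix -/

namespace Pool.FQ

open Finset
open Pool.GE

/-- The linear form with the coefficients `c`. -/
def UNI_lin {n : ℕ} (c : Fin n → ℤ) : (Fin n → ℤ) →ₗ[ℤ] ℤ where
  toFun y := ∑ v, c v * y v
  map_add' y z := by
    rw [← Finset.sum_add_distrib]
    exact Finset.sum_congr rfl fun v _ => by rw [Pi.add_apply]; ring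
  map_smul' r y := by
    rw [RingHom.id_apply, smul_eq_mul, Finset.mul_sum]
    exact Finset.sum_congr rfl fun v _ => by rw [Pi.smul_apply, smul_eq_mul]; ring

theorem UNI_lin_apply {n : ℕ} (c y : Fin n → ℤ) : UNI_lin c y = ∑ v, c v * y v := rfl

/-- The matrix of a basis is invertible. -/
theorem UNI_mat {n : ℕ} (b : Module.Basis (Fin n) ℤ (Fin n → ℤ)) :
    ∃ U V : Matrix (Fin n) (Fin n) ℤ, U * V = 1 ∧ V * U = 1 ∧ ∀ v i, U v i = b i v := by
  refine ⟨(Pi.basisFun ℤ (Fin n)).toMatrix b, b.toMatrix (Pi.basisFun ℤ (Fin n)), ?_, ?_, ?_⟩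
  · exact Module.Basis.toMatrix_mul_toMatrix_flip _ _
  · exact Module.Basis.toMatrix_mul_toMatrix_flip _ _
  · intro v i
    rw [Module.Basis.toMatrix_apply, Pi.basisFun_repr]

theorem p_UNI : Stmt_UNI := by
  intro n x hx
  obtain ⟨c, hc⟩ := hx
  have hfx : UNI_lin c x = 1 := hc
  obtain ⟨m, ⟨b⟩⟩ := (LinearMap.ker (UNI_lin c)).nonempty_basis_of_pid (Pi.basisFun ℤ (Fin (n + 1)))
  have hli : ∀ (r : ℤ), ∀ y ∈ LinearMap.ker (UNI_lin c), r • x + y = 0 → r = 0 := by
    intro r y hy h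
    have h1 := congrArg (UNI_lin c) h
    rw [map_add, map_smul, hfx, LinearMap.mem_ker.1 hy, map_zero, smul_eq_mul] at h1
    linarith
  have hsp : ∀ z : Fin (n + 1) → ℤ, ∃ r : ℤ, z + r • x ∈ LinearMap.ker (UNI_lin c) := by
    intro z
    refine ⟨- UNI_lin c z, ?_⟩
    rw [LinearMap.mem_ker, map_add, map_smul, hfx, smul_eq_mul]
    ring
  have hcard : m + 1 = n + 1 :=
    Fin.equiv_iff_eq.1 ⟨(Module.Basis.mkFinCons x b hli hsp).indexEquiv (Pi.basisFun ℤ (Fin (n + 1)))⟩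
  obtain rfl : m = n := by omega
  obtain ⟨U, V, h1, h2, h3⟩ := UNI_mat (Module.Basis.mkFinCons x b hli hsp)
  refine ⟨U, V, h1, h2, ?_⟩
  intro v
  rw [h3, Module.Basis.coe_mkFinCons]
  rfl

end Pool.FQ
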