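import Pool.Agent.Work.MP_9fb703_fq.B_RG1

/-! # Block VTQ: the second moment -/

set_option autoImplicit false

namespace Pool.FQ

open Finset
open Pool.HPQ (Fw Lam Kw fl rd cs Ww)
open Pool.CB (VV Sol PSN PH lin dl)
open Pool.GE
open Pool.GR (SingPr)

theorem VTQ_sigma (n : ℕ) : ∑ g ∈ Nat.divisors n, (g : ℝ) ≤ n * (1 + Real.log n) := by
  rcases Nat.eq_zero_or_pos n with h0 | h0
  · subst h0
    simp
  have h1 : ∑ g ∈ Nat.divisors n, (g : ℝ) = ∑ d ∈ Nat.divisors n, ((n / d : ℕ) : ℝ) :=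
    (Nat.sum_div_divisors n (fun g => (g : ℝ))).symm
  have h2 : ∑ d ∈ Nat.divisors n, ((n / d : ℕ) : ℝ) ≤
      ∑ d ∈ Nat.divisors n, (n : ℝ) * ((d : ℝ))⁻¹ := by
    refine Finset.sum_le_sum fun d _ => ?_
    rw [← div_eq_mul_inv]
    exact Nat.cast_div_le
  have h3 : ∑ d ∈ Nat.divisors n, (n : ℝ) * ((d : ℝ))⁻¹ ≤
      ∑ d ∈ Finset.Icc 1 n, (n : ℝ) * ((d : ℝ))⁻¹ := by
    refine Finset.sum_le_sum_of_subset_of_nonneg (fun d hd => ?_) fun d _ _ => by positivity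
    rw [Finset.mem_Icc]
    exact ⟨Nat.pos_of_mem_divisors hd, Nat.divisor_le hd⟩
  have h4 : ∑ d ∈ Finset.Icc 1 n, (n : ℝ) * ((d : ℝ))⁻¹ = n * (harmonic n : ℝ) := by
    rw [← Finset.mul_sum, harmonic_eq_sum_Icc]
    push_cast
    rfl
  rw [h1]
  refine h2.trans (h3.trans ?_)
  rw [h4]
  exact mul_le_mul_of_nonneg_left (harmonic_le_one_add_log n) (Nat.cast_nonneg _)

theorem VTQ_ct (hDEL : Pool.GE.Stmt_DEL) {τ : Type} [Fintype τ] [DecidableEq τ] (x y : τ → ℤ)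
    (hx : Prm x) (hnp : ¬ Par x y) : 1 ≤ ct x y ∧ ct x y ≤ De x y := by
  obtain ⟨-, -, h3, h4, -, -⟩ := hDEL τ x y hx
  have h5 : Dv (ct x y) x y := (h3 _).2 (dvd_refl _)
  unfold Par at hnp
  push Not at hnp
  obtain ⟨v, w, hvw⟩ := hnp
  have h6 := h5 v w
  have h7 : 0 < ct x y := by
    rcases Nat.eq_zero_or_pos (ct x y) with h | h
    · rw [h] at h6
      exact absurd (zero_dvd_iff.1 (by simpa using h6)) hvw
    · exact h
  refine ⟨h7, ?_⟩
  have h8 : (ct x y : ℤ) ≤ |om x y v w| :=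
    Int.le_of_dvd (abs_pos.2 hvw) ((dvd_abs _ _).2 h6)
  have h9 := h8.trans (h4 v w)
  exact_mod_cast h9

open Classical in
theorem VTQ_pair (hDEL : Pool.GE.Stmt_DEL) {τ : Type} [Fintype τ] [DecidableEq τ]
    (X W : ℕ) (κ₀ : ℝ) (hκ : 0 < κ₀) (x y : τ → ℤ) (hx : Prm x) (hxX : sn x ≤ X) (hyX : sn y ≤ X)
    (hX : 3 ≤ X) (hnp : ¬ Par x y) (E : Prop) :
    ∑ g ∈ Nat.divisors (ct x y),
      (g : ℝ) * (if g ∣ W then min 1 (κ₀ * (X : ℝ) ^ 2 / De x y) else 1) / De x y ≤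
    (if E then 4 * Real.log X else
      ∑ g ∈ (Finset.Icc 1 (2 * X)).filter (fun g : ℕ => Dv g x y ∧ g * X ≤ De x y),
        (g : ℝ) * (if g ∣ W then min 1 (κ₀ * (X : ℝ) ^ 2 / De x y) else 1) / De x y) +
    (if De x y < ct x y * X then 4 * Real.log X * ((ct x y : ℝ) / De x y) else 0) := by
  obtain ⟨hc1, hcD⟩ := VTQ_ct hDEL x y hx hnp
  obtain ⟨-, h2, h3, -, -, -⟩ := hDEL τ x y hx
  have hD2 : De x y ≤ 2 * (X * X) :=
    h2.trans (Nat.mul_le_mul_left _ (Nat.mul_le_mul hxX hyX))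
  have hXr : (3 : ℝ) ≤ X := by exact_mod_cast hX
  have hlog1 : 1 ≤ Real.log X := by
    rw [Real.le_log_iff_exp_le (by linarith)]
    linarith [Real.exp_one_lt_d9]
  have hDpos : (0 : ℝ) < De x y := by
    have : 0 < De x y := by omega
    exact_mod_cast this
  have hcpos : (0 : ℝ) < ct x y := by exact_mod_cast hc1
  have hcDr : (ct x y : ℝ) ≤ De x y := by exact_mod_cast hcD
  have hf : ∀ g : ℕ, 0 ≤ (g : ℝ) * (if g ∣ W then min 1 (κ₀ * (X : ℝ) ^ 2 / De x y) else 1) /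
      De x y ∧ (g : ℝ) * (if g ∣ W then min 1 (κ₀ * (X : ℝ) ^ 2 / De x y) else 1) /
      De x y ≤ (g : ℝ) / De x y := by
    intro g
    have h4 : 0 ≤ (if g ∣ W then min 1 (κ₀ * (X : ℝ) ^ 2 / De x y) else 1) ∧
        (if g ∣ W then min 1 (κ₀ * (X : ℝ) ^ 2 / De x y) else 1) ≤ 1 := by
      split_ifs
      · exact ⟨le_min zero_le_one (by positivity), min_le_left _ _⟩
      · exact ⟨zero_le_one, le_refl _⟩
    refine ⟨div_nonneg (mul_nonneg (Nat.cast_nonneg _) h4.1) hDpos.le, ?_⟩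
    apply div_le_div_of_nonneg_right _ hDpos.le
    have h5 := mul_le_mul_of_nonneg_left h4.2 (Nat.cast_nonneg (α := ℝ) g)
    linarith
  have hlogc : 1 + Real.log (ct x y) ≤ 4 * Real.log X := by
    have h4 : (ct x y : ℝ) ≤ 2 * (X * X) := by exact_mod_cast hcD.trans hD2
    have h5 : Real.log (ct x y) ≤ Real.log (2 * (X * X)) := Real.log_le_log hcpos h4
    rw [Real.log_mul (by norm_num) (by positivity), Real.log_mul (by positivity)
      (by positivity)] at h5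
    have h6 : Real.log 2 ≤ 1 := by
      have := Real.log_two_lt_d9
      linarith
    linarith
  have hsig : ∑ g ∈ Nat.divisors (ct x y), (g : ℝ) / De x y ≤
      4 * Real.log X * ((ct x y : ℝ) / De x y) := by
    rw [← Finset.sum_div, mul_div_assoc']
    apply div_le_div_of_nonneg_right _ hDpos.le
    refine (VTQ_sigma (ct x y)).trans ?_
    rw [mul_comm]
    exact mul_le_mul_of_nonneg_right hlogc hcpos.le
  have hall : ∑ g ∈ Nat.divisors (ct x y),
      (g : ℝ) * (if g ∣ W then min 1 (κ₀ * (X : ℝ) ^ 2 / De x y) else 1) / De x y ≤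
      4 * Real.log X * ((ct x y : ℝ) / De x y) :=
    (Finset.sum_le_sum fun g _ => (hf g).2).trans hsig
  have hratio : (ct x y : ℝ) / De x y ≤ 1 := (div_le_one hDpos).2 hcDr
  have hsec : 0 ≤ (if De x y < ct x y * X then 4 * Real.log X * ((ct x y : ℝ) / De x y)
      else 0) := by
    split_ifs
    · positivity
    · exact le_refl _
  by_cases hE : E
  · rw [if_pos hE]
    have h4 : 4 * Real.log X * ((ct x y : ℝ) / De x y) ≤ 4 * Real.log X := by
      have : 0 ≤ 4 * Real.log X := by linarith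
      nlinarith
    linarith
  · rw [if_neg hE, ← Finset.sum_filter_add_sum_filter_not (Nat.divisors (ct x y))
      (fun g => g * X ≤ De x y)]
    apply add_le_add
    · refine Finset.sum_le_sum_of_subset_of_nonneg (fun g hg => ?_) fun g _ _ => (hf g).1
      rw [Finset.mem_filter] at hg ⊢
      have h4 : 1 ≤ g := Nat.pos_of_mem_divisors hg.1
      refine ⟨Finset.mem_Icc.2 ⟨h4, ?_⟩, (h3 g).2 (Nat.dvd_of_mem_divisors hg.1), hg.2⟩
      have h5 : g * X ≤ 2 * X * X := by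
        rw [mul_assoc]
        exact hg.2.trans hD2
      exact Nat.le_of_mul_le_mul_right h5 (by omega)
    · split_ifs with hlt
      · refine le_trans ?_ hall
        exact Finset.sum_le_sum_of_subset_of_nonneg (Finset.filter_subset _ _)
          fun g _ _ => (hf g).1
      · apply le_of_eq
        apply Finset.sum_eq_zero
        intro g hg
        rw [Finset.mem_filter] at hg
        exfalso
        apply hg.2
        have h4 : g ≤ ct x y := Nat.divisor_le hg.1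
        exact (Nat.mul_le_mul_right X h4).trans (by omega)

open Classical in
theorem VTQ_Pf {k : ℕ} {c : IQ k → ℤ} {κ : Crd k} {s c₁ X : ℕ} (y : Fin (k + 2) → ℤ)
    (hy : y ∈ Xf c κ s c₁ X) : y ∈ Pf k X := by
  unfold Xf Xg at hy
  rw [Finset.mem_filter, Finset.mem_filter] at hy
  unfold Pf
  rw [Finset.mem_filter]
  exact ⟨hy.1.1, hy.2⟩

open Classical in
theorem VTQ_row (hDEL : Pool.GE.Stmt_DEL) {k : ℕ} {c : IQ k → ℤ} {κ : Crd k} {s c₁ : ℕ}
    (X W : ℕ) (κ₀ D₁ : ℝ) (hκ : 0 < κ₀) (hX : 3 ≤ X) (x : Fin (k + 2) → ℤ)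
    (hx : x ∈ Xf c κ s c₁ X) :
    ∑ y ∈ (Xf c κ s c₁ X).filter (fun y => ¬ Par x y), ∑ g ∈ Nat.divisors (ct x y),
      (g : ℝ) * (if g ∣ W then min 1 (κ₀ * (X : ℝ) ^ 2 / De x y) else 1) / De x y ≤
    4 * Real.log X * (((Xf c κ s c₁ X).filter fun y => Ex κ c₁ X x y).card : ℝ) +
    ∑ y ∈ (Xf c κ s c₁ X).filter (fun y => ¬ Par x y ∧ ¬ Ex κ c₁ X x y),
      ∑ g ∈ (Finset.Icc 1 (2 * X)).filter (fun g : ℕ => Dv g x y ∧ g * X ≤ De x y),
        (g : ℝ) * (if g ∣ W then min 1 (κ₀ * (X : ℝ) ^ 2 / De x y) else 1) / De x y +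
    (4 * Real.log X * ∑ y ∈ (Pf k X).filter (fun y => ¬ Par x y ∧ D₁ * ct x y ≤ De x y ∧
      De x y < ct x y * X), (ct x y : ℝ) / De x y +
    4 * Real.log X * ∑ y ∈ (Pf k X).filter (fun y => ¬ Par x y ∧
      (De x y : ℝ) < D₁ * ct x y), (ct x y : ℝ) / De x y) := by
  obtain ⟨-, hxP, hxX, -, -⟩ := RG1_mem x hx
  have hXr : (3 : ℝ) ≤ X := by exact_mod_cast hX
  have hlog : 0 ≤ Real.log X := Real.log_nonneg (by linarith)
  have hrat : ∀ y : Fin (k + 2) → ℤ, 0 ≤ (ct x y : ℝ) / De x y := fun y => by positivity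
  have h1 : ∀ y ∈ (Xf c κ s c₁ X).filter (fun y => ¬ Par x y), ∑ g ∈ Nat.divisors (ct x y),
      (g : ℝ) * (if g ∣ W then min 1 (κ₀ * (X : ℝ) ^ 2 / De x y) else 1) / De x y ≤
      (if Ex κ c₁ X x y then 4 * Real.log X else
      ∑ g ∈ (Finset.Icc 1 (2 * X)).filter (fun g : ℕ => Dv g x y ∧ g * X ≤ De x y),
        (g : ℝ) * (if g ∣ W then min 1 (κ₀ * (X : ℝ) ^ 2 / De x y) else 1) / De x y) +
      (if De x y < ct x y * X then 4 * Real.log X * ((ct x y : ℝ) / De x y) else 0) := by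
    intro y hy
    rw [Finset.mem_filter] at hy
    obtain ⟨-, -, hyX, -, -⟩ := RG1_mem y hy.1
    exact VTQ_pair hDEL X W κ₀ hκ x y hxP hxX hyX hX hy.2 _
  refine (Finset.sum_le_sum h1).trans ?_
  rw [Finset.sum_add_distrib]
  apply add_le_add
  · rw [Finset.sum_ite, Finset.sum_const, nsmul_eq_mul, mul_comm]
    apply add_le_add
    · apply mul_le_mul_of_nonneg_left _ (by linarith)
      have : ((Xf c κ s c₁ X).filter (fun y => ¬ Par x y)).filter (fun y => Ex κ c₁ X x y) ⊆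
          (Xf c κ s c₁ X).filter fun y => Ex κ c₁ X x y :=
        Finset.filter_subset_filter _ (Finset.filter_subset _ _)
      exact_mod_cast Finset.card_le_card this
    · rw [Finset.filter_filter]
  · rw [← Finset.sum_filter, ← Finset.mul_sum, ← mul_add]
    apply mul_le_mul_of_nonneg_left _ (by linarith)
    rw [← Finset.sum_filter_add_sum_filter_not (((Xf c κ s c₁ X).filter
      (fun y => ¬ Par x y)).filter fun y => De x y < ct x y * X)
      (fun y => D₁ * ct x y ≤ De x y)]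
    apply add_le_add
    · refine Finset.sum_le_sum_of_subset_of_nonneg (fun y hy => ?_) fun y _ _ => hrat y
      rw [Finset.mem_filter, Finset.mem_filter, Finset.mem_filter] at hy
      rw [Finset.mem_filter]
      exact ⟨VTQ_Pf y hy.1.1.1, hy.1.1.2, hy.2, hy.1.2⟩
    · refine Finset.sum_le_sum_of_subset_of_nonneg (fun y hy => ?_) fun y _ _ => hrat y
      rw [Finset.mem_filter, Finset.mem_filter, Finset.mem_filter] at hy
      rw [Finset.mem_filter]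
      exact ⟨VTQ_Pf y hy.1.1.1, hy.1.1.2, not_le.1 hy.2⟩

theorem VTQ_alg (m : ℕ) (x l G A w N C₀ Cr Cp Cb Cc Cq h D₁ : ℝ) (hx : 3 ≤ x) (hl : 1 ≤ l)
    (hG : 1 ≤ G) (hGx : G ≤ x) (hA : 1 ≤ A) (hw : 1 ≤ w)
    (hN : N ≤ C₀ * x ^ (m + 4) / l) (hC₀ : 1 ≤ C₀) (hCr : 1 ≤ Cr) (hCp : 1 ≤ Cp) (hCb : 1 ≤ Cb)
    (hCc : 1 ≤ Cc) (hCq : 1 ≤ Cq) (h0 : 0 < h) (hD2 : D₁ ^ 2 = x * G ^ 2)
    (hD : x ^ 4 * D₁ ^ (m + 3) * G ≤ x ^ (2 * m + 6)) :
    N * (2 * (Cq / (A * x ^ 2)) + Cq / (A ^ 2 * x ^ 2) * (4 * l * (Cr * x) +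
      Cp * x ^ (m + 2) * ((√(Cq * h) + 1 / w) / l + 1 / G) + 4 * l * (Cb * x ^ 3 / D₁ ^ 2))) +
      Cq / (A ^ 2 * x ^ 2) * (4 * l * (Cc * x ^ 4 * D₁ ^ (m + 3))) ≤
    (2 * Cq * C₀ + Cq * (4 * C₀ * Cr + C₀ * Cp * Cq + 4 * C₀ * Cb + 4 * Cc)) *
      ((x ^ (m + 2) / (A * l)) ^ 2 * (√h + 1 / w + l ^ 3 / G) + x ^ (m + 2) / (A * l)) := by
  have hx0 : 0 < x := by linarith
  have hl0 : 0 < l := by linarith
  have hG0 : 0 < G := by linarith
  have hA0 : 0 < A := by linarith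
  have hw0 : 0 < w := by linarith
  obtain ⟨Y, hY⟩ : ∃ Y : ℝ, Y = x ^ (2 * m + 6) / l ^ 2 := ⟨_, rfl⟩
  obtain ⟨E, hE⟩ : ∃ E : ℝ, E = √h + 1 / w + l ^ 3 / G := ⟨_, rfl⟩
  have hY0 : 0 < Y := by
    rw [hY]
    positivity
  have hsh : 0 ≤ √h := Real.sqrt_nonneg h
  have hE0 : 0 < E := by
    rw [hE]
    positivity
  have hL1 : x ^ (2 * m + 6) * l / G ≤ Y * E := by
    have h1 : l ^ 3 / G ≤ E := by
      rw [hE]
      have : 0 ≤ 1 / w := by positivity
      linarith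
    have h2 : x ^ (2 * m + 6) * l / G = Y * (l ^ 3 / G) := by
      rw [hY]
      field_simp
    rw [h2]
    exact mul_le_mul_of_nonneg_left h1 hY0.le
  have hL2 : x ^ (2 * m + 6) / G ≤ Y * E := by
    refine le_trans ?_ hL1
    apply div_le_div_of_nonneg_right _ hG0.le
    have : 0 ≤ x ^ (2 * m + 6) := by positivity
    nlinarith
  have hb : Cq / (A ^ 2 * x ^ 2) * Y = Cq * (x ^ (m + 2) / (A * l)) ^ 2 := by
    rw [hY]
    have e : x ^ (2 * m + 6) = (x ^ (m + 2)) ^ 2 * x ^ 2 := by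
      rw [← pow_mul, ← pow_add]
      congr 1
      ring
    rw [e]
    field_simp
  have t0 : N * (2 * (Cq / (A * x ^ 2))) ≤ 2 * Cq * C₀ * (x ^ (m + 2) / (A * l)) := by
    have h1 : N * (2 * (Cq / (A * x ^ 2))) ≤ C₀ * x ^ (m + 4) / l * (2 * (Cq / (A * x ^ 2))) :=
      mul_le_mul_of_nonneg_right hN (by positivity)
    refine h1.trans (le_of_eq ?_)
    have e : x ^ (m + 4) = x ^ (m + 2) * x ^ 2 := by
      rw [← pow_add]
    rw [e]
    field_simp
  have t1 : N * (4 * l * (Cr * x)) ≤ 4 * C₀ * Cr * (Y * E) := by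
    have h1 : N * (4 * l * (Cr * x)) ≤ C₀ * x ^ (m + 4) / l * (4 * l * (Cr * x)) :=
      mul_le_mul_of_nonneg_right hN (by positivity)
    have h2 : C₀ * x ^ (m + 4) / l * (4 * l * (Cr * x)) = 4 * C₀ * Cr * x ^ (m + 5) := by
      have e : x ^ (m + 5) = x ^ (m + 4) * x := pow_succ _ _
      rw [e]
      field_simp
    have h3 : x ^ (m + 5) ≤ x ^ (2 * m + 6) / G := by
      rw [le_div_iff₀ hG0]
      calc x ^ (m + 5) * G ≤ x ^ (m + 5) * x := mul_le_mul_of_nonneg_left hGx (by positivity)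
        _ = x ^ (m + 6) := (pow_succ _ _).symm
        _ ≤ x ^ (2 * m + 6) := pow_le_pow_right₀ (by linarith) (by omega)
    rw [h2] at h1
    exact h1.trans (mul_le_mul_of_nonneg_left (h3.trans hL2) (by positivity))
  have t2 : N * (Cp * x ^ (m + 2) * ((√(Cq * h) + 1 / w) / l + 1 / G)) ≤
      C₀ * Cp * Cq * (Y * E) := by
    have h1 : N * (Cp * x ^ (m + 2) * ((√(Cq * h) + 1 / w) / l + 1 / G)) ≤
        C₀ * x ^ (m + 4) / l * (Cp * x ^ (m + 2) * ((√(Cq * h) + 1 / w) / l + 1 / G)) :=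
      mul_le_mul_of_nonneg_right hN (by positivity)
    have h2 : C₀ * x ^ (m + 4) / l * (Cp * x ^ (m + 2) * ((√(Cq * h) + 1 / w) / l + 1 / G)) =
        C₀ * Cp * (Y * (√(Cq * h) + 1 / w + l / G)) := by
      rw [hY]
      have e : x ^ (2 * m + 6) = x ^ (m + 4) * x ^ (m + 2) := by
        rw [← pow_add]
        congr 1
        ring
      rw [e]
      field_simp
    have h3 : √(Cq * h) ≤ Cq * √h := by
      rw [Real.sqrt_mul (by linarith)]
      apply mul_le_mul_of_nonneg_right _ hsh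
      rw [Real.sqrt_le_left (by linarith)]
      nlinarith
    have h4 : √(Cq * h) + 1 / w + l / G ≤ Cq * E := by
      have h5 : 1 / w ≤ Cq * (1 / w) := by
        have : 0 ≤ 1 / w := by positivity
        nlinarith
      have h6 : l / G ≤ Cq * (l ^ 3 / G) := by
        have h7 : l / G ≤ l ^ 3 / G := by
          apply div_le_div_of_nonneg_right _ hG0.le
          nlinarith [mul_nonneg hl0.le (sub_nonneg.2 (one_le_pow₀ hl (n := 2)))]
        have h8 : 0 ≤ l ^ 3 / G := by positivity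
        nlinarith
      rw [hE]
      linarith [mul_add Cq (√h + 1 / w) (l ^ 3 / G), mul_add Cq (√h) (1 / w)]
    rw [h2] at h1
    refine h1.trans ?_
    have h5 : Y * (√(Cq * h) + 1 / w + l / G) ≤ Y * (Cq * E) :=
      mul_le_mul_of_nonneg_left h4 hY0.le
    calc C₀ * Cp * (Y * (√(Cq * h) + 1 / w + l / G)) ≤ C₀ * Cp * (Y * (Cq * E)) :=
        mul_le_mul_of_nonneg_left h5 (by positivity)
      _ = _ := by ring
  have t3 : N * (4 * l * (Cb * x ^ 3 / D₁ ^ 2)) ≤ 4 * C₀ * Cb * (Y * E) := by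
    rw [hD2]
    have h1 : N * (4 * l * (Cb * x ^ 3 / (x * G ^ 2))) ≤
        C₀ * x ^ (m + 4) / l * (4 * l * (Cb * x ^ 3 / (x * G ^ 2))) :=
      mul_le_mul_of_nonneg_right hN (by positivity)
    have h2 : C₀ * x ^ (m + 4) / l * (4 * l * (Cb * x ^ 3 / (x * G ^ 2))) =
        4 * C₀ * Cb * (x ^ (m + 6) / G ^ 2) := by
      have e : x ^ (m + 6) = x ^ (m + 4) * x ^ 2 := by
        rw [← pow_add]
      rw [e]
      field_simp
    have h3 : x ^ (m + 6) / G ^ 2 ≤ x ^ (2 * m + 6) / G := by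
      apply div_le_div₀ (by positivity) _ hG0 _
      · exact pow_le_pow_right₀ (by linarith) (by omega)
      · nlinarith
    rw [h2] at h1
    exact h1.trans (mul_le_mul_of_nonneg_left (h3.trans hL2) (by positivity))
  have t4 : 4 * l * (Cc * x ^ 4 * D₁ ^ (m + 3)) ≤ 4 * Cc * (Y * E) := by
    have h1 : x ^ 4 * D₁ ^ (m + 3) ≤ x ^ (2 * m + 6) / G := by
      rw [le_div_iff₀ hG0]
      exact hD
    have h2 : l * (x ^ 4 * D₁ ^ (m + 3)) ≤ Y * E := by
      refine le_trans ?_ hL1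
      calc l * (x ^ 4 * D₁ ^ (m + 3)) ≤ l * (x ^ (2 * m + 6) / G) :=
          mul_le_mul_of_nonneg_left h1 hl0.le
        _ = x ^ (2 * m + 6) * l / G := by ring
    calc 4 * l * (Cc * x ^ 4 * D₁ ^ (m + 3)) = 4 * Cc * (l * (x ^ 4 * D₁ ^ (m + 3))) := by ring
      _ ≤ _ := mul_le_mul_of_nonneg_left h2 (by positivity)
  obtain ⟨b, hbdef⟩ : ∃ b : ℝ, b = Cq / (A ^ 2 * x ^ 2) := ⟨_, rfl⟩
  have hb0 : 0 ≤ b := by
    rw [hbdef]
    positivity
  rw [← hbdef] at hb ⊢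
  rw [← hE]
  obtain ⟨L, hL⟩ : ∃ L : ℝ, L = x ^ (m + 2) / (A * l) := ⟨_, rfl⟩
  rw [← hL] at hb t0 ⊢
  have hL0 : 0 < L := by
    rw [hL]
    positivity
  have hsum := mul_le_mul_of_nonneg_left (add_le_add (add_le_add (add_le_add t1 t2) t3) t4) hb0
  have e1 : b * (4 * C₀ * Cr * (Y * E) + C₀ * Cp * Cq * (Y * E) + 4 * C₀ * Cb * (Y * E) +
      4 * Cc * (Y * E)) = Cq * (4 * C₀ * Cr + C₀ * Cp * Cq + 4 * C₀ * Cb + 4 * Cc) *
      (L ^ 2 * E) := by
    calc b * (4 * C₀ * Cr * (Y * E) + C₀ * Cp * Cq * (Y * E) + 4 * C₀ * Cb * (Y * E) +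
      4 * Cc * (Y * E)) = (b * Y) * E * (4 * C₀ * Cr + C₀ * Cp * Cq + 4 * C₀ * Cb + 4 * Cc) := by
          ring
      _ = _ := by
        rw [hb]
        ring
  rw [e1] at hsum
  have h9 : 0 ≤ 2 * Cq * C₀ * (L ^ 2 * E) := by positivity
  have h10 : 0 ≤ Cq * (4 * C₀ * Cr + C₀ * Cp * Cq + 4 * C₀ * Cb + 4 * Cc) * L := by positivity
  linarith [hsum, t0, h9, h10]

theorem VTQ_pow (m X G : ℕ) (hX : 1 ≤ X) (hG16 : G ^ 16 ≤ X) :
    √(X : ℝ) * G ≤ X ∧
    (X : ℝ) ^ 4 * (√(X : ℝ) * G) ^ (m + 3) * G ≤ (X : ℝ) ^ (2 * m + 6) := by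
  have hXr : (1 : ℝ) ≤ X := by exact_mod_cast hX
  obtain ⟨u, hu⟩ : ∃ u : ℝ, u = (X : ℝ) ^ (1 / 16 : ℝ) := ⟨_, rfl⟩
  have hu1 : 1 ≤ u := by
    rw [hu]
    exact Real.one_le_rpow hXr (by norm_num)
  have hu16 : u ^ 16 = X := by
    rw [hu, ← Real.rpow_natCast, ← Real.rpow_mul (by linarith)]
    norm_num
  have hsq : √(X : ℝ) = u ^ 8 := by
    rw [← hu16, show u ^ 16 = (u ^ 8) ^ 2 by ring, Real.sqrt_sq (by positivity)]
  have hGu : (G : ℝ) ≤ u := by
    have h2 : (G : ℝ) ^ 16 ≤ u ^ 16 := by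
      rw [hu16]
      exact_mod_cast hG16
    exact le_of_pow_le_pow_left₀ (by norm_num) (by linarith) h2
  have hG0 : (0 : ℝ) ≤ G := Nat.cast_nonneg _
  rw [hsq, ← hu16]
  constructor
  · calc u ^ 8 * G ≤ u ^ 8 * u := mul_le_mul_of_nonneg_left hGu (by positivity)
      _ = u ^ 9 := by ring
      _ ≤ u ^ 16 := pow_le_pow_right₀ hu1 (by norm_num)
  · have h1 : (u ^ 8 * G) ^ (m + 3) ≤ (u ^ 9) ^ (m + 3) := by
      apply pow_le_pow_left₀ (by positivity)
      calc u ^ 8 * G ≤ u ^ 8 * u := mul_le_mul_of_nonneg_left hGu (by positivity)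
        _ = u ^ 9 := by ring
    calc (u ^ 16) ^ 4 * (u ^ 8 * G) ^ (m + 3) * G ≤ (u ^ 16) ^ 4 * (u ^ 9) ^ (m + 3) * u := by
          apply mul_le_mul _ hGu hG0 (by positivity)
          exact mul_le_mul_of_nonneg_left h1 (by positivity)
      _ = u ^ (9 * m + 92) := by
          rw [← pow_mul, ← pow_mul, ← pow_add, ← pow_succ]
          congr 1
          ring
      _ ≤ u ^ (16 * (2 * m + 6)) := pow_le_pow_right₀ hu1 (by omega)
      _ = (u ^ 16) ^ (2 * m + 6) := by rw [← pow_mul]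

open Classical in
theorem p_VTQ (hCN0 : Stmt_CN0) (hRGN : Stmt_RGN) (hPSX : Stmt_PSX) (hR3B : Stmt_R3B)
    (hR3C : Stmt_R3C) (hPSQ : Stmt_PSQ) (hDEL : Pool.GE.Stmt_DEL) (hPAR : Pool.GE.Stmt_PAR) :
    Stmt_VTQ := by
  intro k c κ s c₁ hk hOk hs hc₁
  obtain ⟨C₀, X₀, hC₀, hX₀, hcn⟩ := hCN0 k c κ s c₁ (by omega) hOk hs hc₁
  obtain ⟨Cr, Xr, hCr, hrg⟩ := hRGN k c κ s c₁ (by omega) hOk hs hc₁
  obtain ⟨Cp, Xp, hCp, hXp, hps⟩ := hPSX k c κ s c₁ hk hOk hs hc₁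
  obtain ⟨Cb, hCb, hbb⟩ := hR3B k
  obtain ⟨Cc, hCc, hcc⟩ := hR3C k (by omega)
  obtain ⟨Cq, hCq, hqq⟩ := hPSQ k (by omega)
  refine ⟨2 * Cq * C₀ + Cq * (4 * C₀ * Cr + C₀ * Cp * Cq + 4 * C₀ * Cb + 4 * Cc),
    X₀ + Xr + Xp, ?_, by omega, ?_⟩
  · have h1 : 1 ≤ Cq * C₀ := by nlinarith
    have h2 : 0 ≤ Cq * (4 * C₀ * Cr + C₀ * Cp * Cq + 4 * C₀ * Cb + 4 * Cc) := by positivity
    linarith
  intro R T H W A X K m₀ w G _ h hX hPa hG1 hG16 hw hwW Z hZ hRel
  have hX3 : 3 ≤ X := by omega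
  have hXr : (3 : ℝ) ≤ X := by exact_mod_cast hX3
  have hGr : (1 : ℝ) ≤ G := by exact_mod_cast hG1
  have hwr : (1 : ℝ) ≤ w := by exact_mod_cast hw
  have hAr : (1 : ℝ) ≤ A := by exact_mod_cast hPa.A1
  have hGX : (G : ℝ) ≤ X := by
    have : G ≤ X := (Nat.le_self_pow (by norm_num) G).trans hG16
    exact_mod_cast this
  have hl1 : 1 ≤ Real.log X := by
    rw [Real.le_log_iff_exp_le (by linarith)]
    linarith [Real.exp_one_lt_d9]
  have hl0 : 0 < Real.log X := by linarith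
  have hκ : 0 < Cq * h := mul_pos (by linarith) hPa.h0
  obtain ⟨m, hm⟩ : ∃ m, k = m + 4 := ⟨k - 4, by omega⟩
  obtain ⟨hD₁X, hDpow⟩ := VTQ_pow m X G (by omega) hG16
  obtain ⟨D₁, hD₁⟩ : ∃ D₁ : ℝ, D₁ = √(X : ℝ) * G := ⟨_, rfl⟩
  rw [← hD₁] at hD₁X hDpow
  have hsq1 : 1 ≤ √(X : ℝ) := Real.one_le_sqrt.2 (by linarith)
  have hD₁1 : 1 ≤ D₁ := by
    rw [hD₁]
    nlinarith
  have hD₁sq : D₁ ^ 2 = X * (G : ℝ) ^ 2 := by
    rw [hD₁, mul_pow, Real.sq_sqrt (by linarith)]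
  -- abbreviations
  obtain ⟨N, hN⟩ : ∃ N : ℝ, N = ((Xf c κ s c₁ X).card : ℝ) := ⟨_, rfl⟩
  have hNle : N ≤ C₀ * (X : ℝ) ^ k / Real.log X := by
    have h1 : (Xf c κ s c₁ X).card ≤ (Xg c κ s c₁ X).card :=
      Finset.card_le_card (by unfold Xf; exact Finset.filter_subset _ _)
    have h2 : N ≤ ((Xg c κ s c₁ X).card : ℝ) := by
      rw [hN]
      exact_mod_cast h1
    exact h2.trans (hcn X (by omega))
  have hZN : (Z.card : ℝ) ≤ N := by
    rw [hN]
    exact_mod_cast Finset.card_le_card hZ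
  obtain ⟨b, hb⟩ : ∃ b : ℝ, b = Cq / ((A : ℝ) ^ 2 * (X : ℝ) ^ 2) := ⟨_, rfl⟩
  have hb0 : 0 ≤ b := by
    rw [hb]
    positivity
  obtain ⟨Sc, hSc⟩ : ∃ Sc : (Fin (k + 2) → ℤ) → ℝ, Sc = fun x =>
      ∑ y ∈ (Pf k X).filter (fun y => ¬ Par x y ∧
      (De x y : ℝ) < D₁ * ct x y), (ct x y : ℝ) / De x y := ⟨_, rfl⟩
  have hSc0 : ∀ x, 0 ≤ Sc x := by
    intro x
    rw [hSc]
    exact Finset.sum_nonneg fun y _ => by positivity
  have hY : ∀ x ∈ Z, x ∈ Yf (Fin (k + 2)) X K := by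
    intro x hx
    have h1 := VTQ_Pf x (hZ hx)
    unfold Pf at h1
    rw [Finset.mem_filter] at h1
    unfold Yf
    rw [Finset.mem_filter]
    exact ⟨h1.1, h1.2.1, h1.2.2, hRel x hx⟩
  -- one row
  have hrow : ∀ x ∈ Z, ∑ y ∈ Z, VV R T H W (nq x) (nq y) ≤ 2 * (Cq / (A * (X : ℝ) ^ 2)) +
      b * (4 * Real.log X * (Cr * X) + Cp * (X : ℝ) ^ (k - 2) *
        ((√(Cq * h) + 1 / w) / Real.log X + 1 / G) +
        4 * Real.log X * (Cb * (X : ℝ) ^ 3 / D₁ ^ 2)) + b * (4 * Real.log X * Sc x) := by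
    intro x hx
    have hxX := hZ hx
    obtain ⟨-, hxP, -, -, -⟩ := RG1_mem x hxX
    rw [← Finset.sum_filter_add_sum_filter_not Z (fun y => Par x y), add_assoc]
    apply add_le_add
    · have h1 : ∀ y ∈ Z.filter (fun y => Par x y), VV R T H W (nq x) (nq y) ≤
          Cq / (A * (X : ℝ) ^ 2) := by
        intro y hy
        rw [Finset.mem_filter] at hy
        exact (hqq R T H W A X K m₀ h hPa x (hY x hx) y (hY y hy.1)).2 hy.2
      have h2 := Finset.sum_le_card_nsmul _ _ _ h1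
      rw [nsmul_eq_mul] at h2
      refine h2.trans ?_
      apply mul_le_mul_of_nonneg_right _ (by positivity)
      have h3 : Z.filter (fun y => Par x y) ⊆ {x, -x} := by
        intro y hy
        rw [Finset.mem_filter] at hy
        obtain ⟨-, hyP, -, -, -⟩ := RG1_mem y (hZ hy.1)
        have h4 := (hPAR (Fin (k + 2)) x y hxP hyP).1 hy.2
        rw [Finset.mem_insert, Finset.mem_singleton]
        exact h4
      have h4 : (Z.filter (fun y => Par x y)).card ≤ 2 :=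
        (Finset.card_le_card h3).trans Finset.card_le_two
      exact_mod_cast h4
    · have h1 : ∑ y ∈ Z.filter (fun y => ¬ Par x y), VV R T H W (nq x) (nq y) ≤
          ∑ y ∈ (Xf c κ s c₁ X).filter (fun y => ¬ Par x y),
            b * ∑ g ∈ Nat.divisors (ct x y), (g : ℝ) *
            (if g ∣ W then min 1 (Cq * h * (X : ℝ) ^ 2 / De x y) else 1) / De x y := by
        have h2 : ∀ y ∈ Z.filter (fun y => ¬ Par x y), VV R T H W (nq x) (nq y) ≤
            b * ∑ g ∈ Nat.divisors (ct x y), (g : ℝ) *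
            (if g ∣ W then min 1 (Cq * h * (X : ℝ) ^ 2 / De x y) else 1) / De x y := by
          intro y hy
          rw [Finset.mem_filter] at hy
          refine ((hqq R T H W A X K m₀ h hPa x (hY x hx) y (hY y hy.1)).1 hy.2).trans
            (le_of_eq ?_)
          rw [hb, ← Finset.sum_div, div_mul_div_comm]
          exact div_mul_eq_mul_div _ _ _
        refine (Finset.sum_le_sum h2).trans ?_
        apply Finset.sum_le_sum_of_subset_of_nonneg
        · exact Finset.filter_subset_filter _ hZ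
        · intro y _ _
          apply mul_nonneg hb0
          apply Finset.sum_nonneg
          intro g _
          apply div_nonneg _ (Nat.cast_nonneg _)
          apply mul_nonneg (Nat.cast_nonneg _)
          split_ifs
          · exact le_min zero_le_one (by positivity)
          · exact zero_le_one
      refine h1.trans ?_
      rw [← Finset.mul_sum, ← mul_add]
      apply mul_le_mul_of_nonneg_left _ hb0
      refine (VTQ_row hDEL X W (Cq * h) D₁ hκ hX3 x hxX).trans ?_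
      have h2 := hrg X (by omega) x hxX
      have h3 := hps X G W w (Cq * h) (by omega) hG1 hG16 hw hwW hκ x hxX
      have h4 := hbb X D₁ (by omega) (by linarith) x (VTQ_Pf x hxX)
      have h5 : 4 * Real.log X * (((Xf c κ s c₁ X).filter fun y => Ex κ c₁ X x y).card : ℝ) ≤
          4 * Real.log X * (Cr * X) := mul_le_mul_of_nonneg_left h2 (by linarith)
      have h6 : 4 * Real.log X * ∑ y ∈ (Pf k X).filter (fun y => ¬ Par x y ∧
          D₁ * ct x y ≤ De x y ∧ De x y < ct x y * X), (ct x y : ℝ) / De x y ≤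
          4 * Real.log X * (Cb * (X : ℝ) ^ 3 / D₁ ^ 2) :=
        mul_le_mul_of_nonneg_left h4 (by linarith)
      have h7 : Sc x = ∑ y ∈ (Pf k X).filter (fun y => ¬ Par x y ∧
          (De x y : ℝ) < D₁ * ct x y), (ct x y : ℝ) / De x y := by
        rw [hSc]
      rw [← h7]
      linarith
  have hsum := Finset.sum_le_sum hrow
  rw [Finset.sum_add_distrib, Finset.sum_const, nsmul_eq_mul, ← Finset.mul_sum,
    ← Finset.mul_sum] at hsum
  have hScs : ∑ x ∈ Z, Sc x ≤ Cc * (X : ℝ) ^ 4 * D₁ ^ (k - 1) := by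
    have h1 := hcc X D₁ (by omega) hD₁1 hD₁X
    refine le_trans ?_ h1
    have h2 : ∑ x ∈ Z, Sc x ≤ ∑ x ∈ Pf k X, Sc x :=
      Finset.sum_le_sum_of_subset_of_nonneg (fun x hx => VTQ_Pf x (hZ hx)) fun x _ _ => hSc0 x
    refine h2.trans (le_of_eq ?_)
    rw [hSc]
  have hnn : 0 ≤ 2 * (Cq / (A * (X : ℝ) ^ 2)) +
      b * (4 * Real.log X * (Cr * X) + Cp * (X : ℝ) ^ (k - 2) *
        ((√(Cq * h) + 1 / w) / Real.log X + 1 / G) +
        4 * Real.log X * (Cb * (X : ℝ) ^ 3 / D₁ ^ 2)) := by positivity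
  have h1 := mul_le_mul_of_nonneg_right hZN hnn
  have h2 : b * (4 * Real.log X * ∑ x ∈ Z, Sc x) ≤
      b * (4 * Real.log X * (Cc * (X : ℝ) ^ 4 * D₁ ^ (k - 1))) := by
    apply mul_le_mul_of_nonneg_left _ hb0
    exact mul_le_mul_of_nonneg_left hScs (by linarith)
  refine hsum.trans ((add_le_add h1 h2).trans ?_)
  unfold Lq
  subst hm
  have e1 : m + 4 - 2 = m + 2 := by omega
  have e2 : m + 4 - 1 = m + 3 := by omega
  rw [e1, e2, hb]
  exact VTQ_alg m X (Real.log X) G A w N C₀ Cr Cp Cb Cc Cq h D₁ hXr hl1 hGr hGX hAr hwr hNle hC₀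
    hCr hCp hCb hCc hCq hPa.h0 hD₁sq hDpow

end Pool.FQ
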