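import Pool.Agent.Work.MP_9fb703_fq.Interface2
import Pool.Agent.Work.MP_a19274_gr.Quad

/-! # From the statement FNQ to the theorem (MP_9fb703, THEOREM FQ, helper23) -/

set_option autoImplicit false

namespace Pool.FQ

open Finset
open Pool.GE
open Pool.GR (Pr Quad_equiv Quad_FF Quad_card Quad_bk)

/-- The form in `m` variables with coefficients indexed by the pairs `i ≤ j`. -/
def QF {m : ℕ} {R : Type*} [CommRing R] (a : Pr m → R) (x : Fin m → R) : R :=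
  ∑ q, a q * (x q.1.1 * x q.1.2)

/-- The coefficients in terms of monomials. -/
noncomputable def trq {k : ℕ} (a : Pr (k + 2) → ℤ) : IQ k → ℤ :=
  fun s => a ((Quad_equiv (k + 2)).symm s)

theorem trq_form {k : ℕ} {R : Type} [CommRing R] (a : Pr (k + 2) → ℤ) (x : Fin (k + 2) → R) :
    FF (fun s => ((trq a s : ℤ) : R)) x = ∑ q, (a q : R) * (x q.1.1 * x q.1.2) :=
  Quad_FF (fun q => ((a q : ℤ) : R)) x

theorem trq_form_int {k : ℕ} (a : Pr (k + 2) → ℤ) (x : Fin (k + 2) → ℤ) :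
    FF (trq a) x = ∑ q, a q * (x q.1.1 * x q.1.2) :=
  Quad_FF a x

theorem exists_norm {m : ℕ} (y : Fin m → ℝ) (hy : y ≠ 0) : ∃ i, |y i| = ‖y‖ := by
  have hne : (Finset.univ : Finset (Fin m)).Nonempty := by
    by_contra h
    rw [Finset.not_nonempty_iff_eq_empty, Finset.univ_eq_empty_iff] at h
    exact hy (Subsingleton.elim _ _)
  obtain ⟨i, -, hi⟩ := Finset.exists_mem_eq_sup' (s := (Finset.univ : Finset (Fin m)))
    hne (fun i => ‖y i‖₊)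
  refine ⟨i, ?_⟩
  have h : ‖y‖₊ = ‖y i‖₊ := by
    rw [Pi.nnnorm_def, ← Finset.sup'_eq_sup hne]
    exact hi
  rw [← Real.norm_eq_abs, ← coe_nnnorm, ← coe_nnnorm, h]

/-- The conclusion for `(q, a)`. -/
def Good {m : ℕ} (q a : Pr m → ℤ) (N P A : ℕ) (c : ℝ) : Prop :=
  ∀ (y : Fin m → ℝ) (M : (p : ℕ) → [Fact p.Prime] → Fin m → ℤ_[p]),
    (y ≠ 0 ∧ ∑ i, (q i : ℝ) * (y i.1.1 * y i.1.2) = 0 ∧
      ∑ i, (a i : ℝ) * (y i.1.1 * y i.1.2) = 0) →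
    (∀ (p : ℕ) [Fact p.Prime], p ≤ P → (∃ i, ‖M p i‖ = 1) ∧
      ∑ i, (q i : ℤ_[p]) * (M p i.1.1 * M p i.1.2) = 0 ∧
      ∑ i, (a i : ℤ_[p]) * (M p i.1.1 * M p i.1.2) = 0) →
    ∃ S : Finset (Fin m → ℤ), c * Real.log A ≤ (S.card : ℝ) ∧ ∀ x ∈ S,
      ∑ i, q i * (x i.1.1 * x i.1.2) = 0 ∧ ∑ i, a i * (x i.1.1 * x i.1.2) = 0 ∧
      (∀ i, |(x i : ℝ)| ^ (m - 4) ≤ A * Real.log A ^ 2) ∧
      (∀ d : ℤ, (∀ i, d ∣ x i) → IsUnit d) ∧
      (∃ μ : ℝ, 0 < μ ∧ ∀ i, |μ * x i - y i| ≤ 1 / N * ‖y‖) ∧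
      ∀ (p : ℕ) [Fact p.Prime], p ≤ N → ∀ i,
        ‖(x i : ℤ_[p]) - M p i‖ ≤ (p : ℝ) ^ (-(N : ℤ))

theorem good {k N P A : ℕ} {c : ℝ} {q a : Pr (k + 2) → ℤ} (h : WSq (trq q) N P A c (trq a)) :
    Good q a N P A c := by
  rintro y M ⟨hy, hy0, hy1⟩ hM
  have hpos : 0 < ‖y‖ := norm_pos_iff.2 hy
  have hsc : ∀ b : Pr (k + 2) → ℤ, ∑ i, (b i : ℝ) * (y i.1.1 * y i.1.2) = 0 →
      FF (fun s => ((trq b s : ℤ) : ℝ)) (fun v => ‖y‖⁻¹ * y v) = 0 := by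
    intro b hb
    rw [trq_form]
    have h1 : ∑ i, (b i : ℝ) * (‖y‖⁻¹ * y i.1.1 * (‖y‖⁻¹ * y i.1.2)) =
        ‖y‖⁻¹ ^ 2 * ∑ i, (b i : ℝ) * (y i.1.1 * y i.1.2) := by
      rw [Finset.mul_sum]
      refine Finset.sum_congr rfl fun i _ => ?_
      ring
    rw [h1, hb, mul_zero]
  have hz : RZ2 (trq q) (trq a) (fun v => ‖y‖⁻¹ * y v) := by
    refine ⟨?_, ?_, hsc q hy0, hsc a hy1⟩
    · intro v
      rw [abs_mul, abs_inv, abs_of_pos hpos, inv_mul_le_iff₀ hpos, mul_one, ← Real.norm_eq_abs]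
      exact norm_le_pi_norm y v
    · obtain ⟨v, hv⟩ := exists_norm y hy
      refine ⟨v, ?_⟩
      rw [abs_mul, abs_inv, abs_of_pos hpos, hv, inv_mul_cancel₀ hpos.ne']
  obtain ⟨S, hS1, hS2⟩ := h _ hz (fun p _ => M p) (fun p _ hp => by
    obtain ⟨⟨i, hi⟩, h2, h3⟩ := hM p hp
    refine ⟨⟨i, hi⟩, ?_, ?_⟩
    · rw [trq_form]
      exact h2
    · rw [trq_form]
      exact h3)
  refine ⟨S, hS1, fun x hx => ?_⟩
  obtain ⟨g1, g2, g3, g4, ⟨μ, hμ, g5⟩, g6⟩ := hS2 x hx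
  refine ⟨?_, ?_, ?_, ?_, ⟨μ * ‖y‖, by positivity, ?_⟩, g6⟩
  · rw [← trq_form_int]
    exact g2
  · rw [← trq_form_int]
    exact g3
  · intro i
    have h1 := g4 i
    have h2 : k + 2 - 4 = k - 2 := by omega
    rw [h2]
    exact h1
  · intro d hd
    obtain ⟨e, he⟩ := g1
    exact isUnit_of_dvd_one (by rw [← he]; exact Finset.dvd_sum fun v _ => (hd v).mul_left _)
  · intro i
    have h1 := g5 i
    have h2 : μ * ‖y‖ * (x i : ℝ) - y i = (μ * (x i : ℝ) - ‖y‖⁻¹ * y i) * ‖y‖ := by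
      field_simp
    rw [h2, abs_mul, abs_of_pos hpos]
    exact mul_le_mul_of_nonneg_right h1 hpos.le

open Classical in
/-- The theorem from FNQ. -/
theorem main (hQAD : Stmt_QAD) (hF : Stmt_FNQ) :
    ∀ (m N : ℕ) (ε : ℝ) (q : {q : Fin m × Fin m // q.1 ≤ q.2} → ℤ), 6 ≤ m → 1 ≤ N → 0 < ε →
      (∀ x : Fin m → ℚ, (∀ y : Fin m → ℚ,
        ∑ i, (q i : ℚ) * ((x i.1.1 + y i.1.1) * (x i.1.2 + y i.1.2)) =
          ∑ i, (q i : ℚ) * (x i.1.1 * x i.1.2) + ∑ i, (q i : ℚ) * (y i.1.1 * y i.1.2)) → x = 0) →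
      (∃ x : Fin m → ℚ, x ≠ 0 ∧ ∑ i, (q i : ℚ) * (x i.1.1 * x i.1.2) = 0) →
      ∃ (c : ℝ) (P A₀ : ℕ), 0 < c ∧ N ≤ P ∧ ∀ A : ℕ, A₀ ≤ A →
      (((Fintype.piFinset fun _ : {q : Fin m × Fin m // q.1 ≤ q.2} =>
            Finset.Icc (-(A : ℤ)) (A : ℤ)).filter fun a => ¬ Good q a N P A c).card : ℝ) ≤
        ε * (2 * (A : ℝ) + 1) ^ (m * (m + 1) / 2) := by
  intro m N ε q hm hN hε hns hiso
  obtain ⟨k, rfl⟩ : ∃ k, m = k + 2 := ⟨m - 2, by omega⟩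
  have h1 : Nsg (trq q) := by
    intro x hx
    refine hns x fun y => ?_
    obtain ⟨e1, -⟩ := hQAD ℚ k (fun s => ((trq q s : ℤ) : ℚ)) x y 1
    rw [trq_form, trq_form, trq_form] at e1
    have e2 : ∑ v, y v * DD (fun s => ((trq q s : ℤ) : ℚ)) x v = 0 :=
      Finset.sum_eq_zero fun v _ => by rw [hx v, mul_zero]
    rw [e1, e2, add_zero]
  have h2 : Isq (trq q) := by
    obtain ⟨x, hx, hx0⟩ := hiso
    exact ⟨x, hx, by rw [trq_form]; exact hx0⟩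
  obtain ⟨c, P, A₀, hc, hP, h⟩ := hF k (trq q) N ε (by omega) h1 h2 hN hε
  refine ⟨c, P, A₀, hc, hP, fun A hA => ?_⟩
  have h3 := h A hA
  have hcard : Fintype.card (IQ k) = (k + 2) * (k + 2 + 1) / 2 := by
    rw [← Fintype.card_congr (Quad_equiv (k + 2)), Quad_card]
  rw [hcard] at h3
  refine le_trans (Nat.cast_le.2 ?_) h3
  refine Finset.card_le_card_of_injOn trq ?_ ?_
  · intro a ha
    rw [Finset.mem_coe, Finset.mem_filter] at ha ⊢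
    refine ⟨?_, fun hW => ha.2 (good hW)⟩
    rw [Bx, Fintype.mem_piFinset]
    intro s
    exact Fintype.mem_piFinset.1 ha.1 ((Quad_equiv (k + 2)).symm s)
  · intro a _ a' _ haa
    funext i
    have h4 := congrFun haa (Quad_equiv (k + 2) i)
    unfold trq at h4
    rwa [Equiv.symm_apply_apply] at h4

end Pool.FQ
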