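import Pool.Agent.Work.MP_a19274_gr.Interface

/-! # Intersections of a fixed quadric with almost all quadrics: definitions
(MP_9fb703, THEOREM FQ, note 3139, helper23)

Everything is built on the library `Pool.GE`, `Pool.GR` of helper66.  The forms have `k + 2`
variables; `c` is the fixed form, `a` the other form.  `FF a x` is the value, `DD a x v` the partial
derivatives, `nu _ _ x` the vector of the monomials of degree two. -/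

set_option autoImplicit false

namespace Pool.FQ

open Finset
open Pool.HPQ (Fw Lam Kw fl rd cs Ww)
open Pool.CB (VV Sol PSN PH lin dl)
open Pool.GE
open Pool.GR (SingPr)

/-- The indices of the coefficients of a quadratic form in `k + 2` variables. -/
abbrev IQ (k : ℕ) : Type := Ix (fun _ : Fin (k + 2) => ()) (fun _ : Unit => 2)

/-- The vector of monomials. -/
def nq {k : ℕ} (x : Fin (k + 2) → ℤ) : IQ k → ℤ :=
  nu (fun _ : Fin (k + 2) => ()) (fun _ : Unit => 2) x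

/-- The form is nonsingular. -/
def Nsg {k : ℕ} (c : IQ k → ℤ) : Prop :=
  ∀ x : Fin (k + 2) → ℚ, (∀ v, DD (fun s => (c s : ℚ)) x v = 0) → x = 0

/-- The form has a nontrivial rational zero. -/
def Isq {k : ℕ} (c : IQ k → ℤ) : Prop :=
  ∃ x : Fin (k + 2) → ℚ, x ≠ 0 ∧ FF (fun s => (c s : ℚ)) x = 0

/-! ## Coordinates -/

/-- The image of `t` under an integral matrix. -/
def pt {R : Type} [CommRing R] {k : ℕ} (M : Fin (k + 2) → Fin (k + 2) → ℤ)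
    (t : Fin (k + 2) → R) : Fin (k + 2) → R :=
  fun v => ∑ i, (M v i : R) * t i

/-- The vector `(x₀, x₁, z)`. -/
def tt {R : Type} {k : ℕ} (x0 x1 : R) (z : Fin k → R) : Fin (k + 2) → R :=
  Fin.cons x0 (Fin.cons x1 z)

/-- The last `k` coordinates. -/
def zc {R : Type} {k : ℕ} (t : Fin (k + 2) → R) : Fin k → R := fun j => t j.succ.succ

/-- The quadratic form with the matrix `g`. -/
def qd {R : Type} [CommRing R] {k : ℕ} (g : Fin k → Fin k → ℤ) (z : Fin k → R) : R :=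
  ∑ i, ∑ j, (g i j : R) * (z i * z j)

/-- The determinant of the Gram matrix. -/
def dg {k : ℕ} (g : Fin k → Fin k → ℤ) : ℤ := Matrix.det (Matrix.of fun i j => g i j + g j i)

/-- Coordinates adapted to an isotropic vector. -/
structure Crd (k : ℕ) where
  M : Fin (k + 2) → Fin (k + 2) → ℤ
  I : Fin (k + 2) → Fin (k + 2) → ℤ
  D : ℕ
  c0 : ℤ
  ll : Fin k → ℤ
  g : Fin k → Fin k → ℤ

/-- The part of the form without the coordinate `x₁`. -/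
def TT {R : Type} [CommRing R] {k : ℕ} (κ : Crd k) (x0 : R) (z : Fin k → R) : R :=
  qd κ.g z + x0 * ∑ j, (κ.ll j : R) * z j + (κ.c0 : R) * x0 ^ 2

/-- `κ` are coordinates for the form `c`. -/
structure Ok {k : ℕ} (c : IQ k → ℤ) (κ : Crd k) : Prop where
  inv1 : ∀ i j, ∑ v, κ.I i v * κ.M v j = if i = j then 1 else 0
  inv2 : ∀ v w, ∑ i, κ.M v i * κ.I i w = if v = w then 1 else 0
  Dpos : 0 < κ.D
  form : ∀ (R : Type) [CommRing R] (t : Fin (k + 2) → R),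
    FF (fun s => (c s : R)) (pt κ.M t) = (κ.D : R) * (t 0 * t 1) + TT κ (t 0) (zc t)
  nons : dg κ.g ≠ 0
  last : ∃ j, κ.g j j ≠ 0

/-- The real point with the coordinates `u 0` and `u 1, ...` on the quadric. -/
noncomputable def PX {k : ℕ} (κ : Crd k) (u : Fin (k + 1) → ℝ) : Fin (k + 2) → ℝ :=
  pt κ.M (tt (u 0) (-TT κ (u 0) (fun j => u j.succ) / (κ.D * u 0)) fun j => u j.succ)

/-! ## The family of points -/

open Classical in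
/-- The primitive vectors of size between `X / 4` and `X`. -/
noncomputable def Pf (k X : ℕ) : Finset (Fin (k + 2) → ℤ) :=
  (Fintype.piFinset fun _ : Fin (k + 2) => Finset.Icc (-(X : ℤ)) X).filter fun x =>
    Prm x ∧ X ≤ 4 * sn x

open Classical in
/-- The integral zeros of `c` of size at most `X` (not necessarily primitive) with `x₀ = s n`,
`n` prime, `X ≤ c₁ n`. -/
noncomputable def Xg {k : ℕ} (c : IQ k → ℤ) (κ : Crd k) (s c₁ X : ℕ) :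
    Finset (Fin (k + 2) → ℤ) :=
  (Fintype.piFinset fun _ : Fin (k + 2) => Finset.Icc (-(X : ℤ)) X).filter fun x =>
    FF c x = 0 ∧ ∃ n : ℕ, n.Prime ∧ X ≤ c₁ * n ∧ pt κ.I x 0 = s * n

open Classical in
/-- The primitive vectors of `Xg` of size at least `X / 4`. -/
noncomputable def Xf {k : ℕ} (c : IQ k → ℤ) (κ : Crd k) (s c₁ X : ℕ) :
    Finset (Fin (k + 2) → ℤ) :=
  (Xg c κ s c₁ X).filter fun x => Prm x ∧ X ≤ 4 * sn x

/-- No linear relation of size at most `log X`. -/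
def Gen {k : ℕ} (X : ℕ) (x : Fin (k + 2) → ℤ) : Prop :=
  ∀ l : Fin (k + 2) → ℤ, l ≠ 0 → sn l ≤ ⌈Real.log X⌉₊ → ∑ v, l v * x v ≠ 0

open Classical in
/-- The vectors of `Xf` without small relation. -/
noncomputable def Xr {k : ℕ} (c : IQ k → ℤ) (κ : Crd k) (s c₁ X : ℕ) :
    Finset (Fin (k + 2) → ℤ) :=
  (Xf c κ s c₁ X).filter fun x => Gen X x

/-- The prime of `x` divides the content of `x ∧ y`. -/
def Ex {k : ℕ} (κ : Crd k) (c₁ X : ℕ) (x y : Fin (k + 2) → ℤ) : Prop :=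
  ∃ n : ℕ, n.Prime ∧ X ≤ c₁ * n ∧ (n : ℤ) ∣ pt κ.I x 0 ∧ Dv n x y

/-- The expected number of zeros. -/
noncomputable def Lq (k A X : ℕ) : ℝ := (X : ℝ) ^ (k - 2) / (A * Real.log X)

/-! ## Local conditions -/

/-- The modulus `∏_{p ≤ P} p ^ w`. -/
def Pw (P w : ℕ) : ℕ := ∏ p ∈ (range (P + 1)).filter Nat.Prime, p ^ w

/-- A normalized real zero of both forms. -/
def RZ2 {k : ℕ} (c a : IQ k → ℤ) (y : Fin (k + 2) → ℝ) : Prop :=
  (∀ v, |y v| ≤ 1) ∧ (∃ v, |y v| = 1) ∧ FF (fun s => (c s : ℝ)) y = 0 ∧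
    FF (fun s => (a s : ℝ)) y = 0

/-- A primitive `p`-adic zero of both forms. -/
def PZ2 (p : ℕ) [Fact p.Prime] {k : ℕ} (c a : IQ k → ℤ) (M : Fin (k + 2) → ℤ_[p]) : Prop :=
  (∃ v, ‖M v‖ = 1) ∧ FF (fun s => (c s : ℤ_[p])) M = 0 ∧ FF (fun s => (a s : ℤ_[p])) M = 0

/-- The pair is nearly singular at a real zero. -/
def RS2 {k : ℕ} (δ : ℝ) (A : ℕ) (c a : IQ k → ℤ) : Prop :=
  ∃ (y : Fin (k + 2) → ℝ) (μ : ℝ), RZ2 c a y ∧
    ∀ v, |DD (fun s => (a s : ℝ)) y v - μ * DD (fun s => (c s : ℝ)) y v| ≤ δ * A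

/-- `τ` is close to common `p`-adic zeros with `v_p(x₀) = v_p(s)`, `p ≤ P`. -/
def LTq {k : ℕ} (c : IQ k → ℤ) (κ : Crd k) (s P f : ℕ) (τ : Fin (k + 2) → ℤ) (a : IQ k → ℤ) :
    Prop :=
  ∀ (p : ℕ) [Fact p.Prime], p ≤ P → ∃ M : Fin (k + 2) → ℤ_[p], PZ2 p c a M ∧
    ‖pt κ.I M 0‖ = ‖(s : ℤ_[p])‖ ∧ ∀ l, ‖(τ l : ℤ_[p]) - M l‖ ≤ (p : ℝ) ^ (-(f : ℤ))

/-- The condition on the class of `(n, z)` modulo `m₁ W`. -/
def GdC {k : ℕ} (κ : Crd k) (s m₁ W Cf : ℕ) (τ : Fin (k + 2) → ℤ) (a : IQ k → ℤ) (n : ℤ)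
    (z : Fin k → ℤ) : Prop :=
  ∃ x₁ : ℤ, ((m₁ * W : ℕ) : ℤ) ∣ κ.D * (s * n * x₁) + TT κ (s * n) z ∧
    (W : ℤ) ∣ FF a (pt κ.M (tt (s * n) x₁ z)) ∧
    (∀ v, (Cf : ℤ) ∣ pt κ.M (tt (s * n) x₁ z) v - τ v) ∧
    ∀ p : ℕ, p.Prime → p ∣ W → ∃ v, ¬ (p : ℤ) ∣ pt κ.M (tt (s * n) x₁ z) v

open Classical in
/-- The good classes `(n, z)` modulo `m₁ W`. -/
noncomputable def Gc {k : ℕ} (κ : Crd k) (s m₁ W Cf : ℕ) (τ : Fin (k + 2) → ℤ)
    (a : IQ k → ℤ) : Finset (ℤ × (Fin k → ℤ)) :=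
  (Finset.Ico (0 : ℤ) ((m₁ * W : ℕ) : ℤ) ×ˢ cs (m₁ * W) (Fin k)).filter fun q =>
    IsCoprime q.1 ((m₁ * W : ℕ) : ℤ) ∧ GdC κ s m₁ W Cf τ a q.1 q.2

/-! ## The conclusions -/

/-- The conclusion for the real zero `y` and the `p`-adic zeros `M p`, `p ≤ P`: at least
`cst * log A` primitive common zeros of size at most `(A log² A) ^ (1 / (k - 2))`. -/
def Conc {k : ℕ} (c a : IQ k → ℤ) (N P f A : ℕ) (cst : ℝ) (y : Fin (k + 2) → ℝ)
    (M : (p : ℕ) → [Fact p.Prime] → Fin (k + 2) → ℤ_[p]) : Prop :=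
  ∃ S : Finset (Fin (k + 2) → ℤ), cst * Real.log A ≤ (S.card : ℝ) ∧
    ∀ x ∈ S, Prm x ∧ FF c x = 0 ∧ FF a x = 0 ∧
      (∀ v, |(x v : ℝ)| ^ (k - 2) ≤ A * Real.log A ^ 2) ∧
      (∃ μ : ℝ, 0 < μ ∧ ∀ v, |μ * (x v : ℝ) - y v| ≤ 1 / N) ∧
      ∀ (p : ℕ) [Fact p.Prime], p ≤ P → ∀ v,
        ‖(x v : ℤ_[p]) - M p v‖ ≤ (p : ℝ) ^ (-(f : ℤ))

/-- The conclusion for all adelic zeros with `x₀(y) ≥ c₀`, `v_p(x₀(M_p)) = v_p(s)`. -/
def WSs {k : ℕ} (c : IQ k → ℤ) (κ : Crd k) (s N P f : ℕ) (c₀ : ℝ) (A : ℕ) (cst : ℝ)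
    (a : IQ k → ℤ) : Prop :=
  ∀ y : Fin (k + 2) → ℝ, RZ2 c a y → c₀ ≤ pt κ.I y 0 →
    ∀ M : (p : ℕ) → [Fact p.Prime] → Fin (k + 2) → ℤ_[p],
    (∀ (p : ℕ) [Fact p.Prime], p ≤ P → PZ2 p c a (M p) ∧
      ‖pt κ.I (M p) 0‖ = ‖(s : ℤ_[p])‖) → Conc c a N P f A cst y M

/-- The conclusion for all adelic zeros with `x₀(y) ≥ c₀`, `v_p(x₀(M_p)) ≤ V`. -/
def WSk {k : ℕ} (c : IQ k → ℤ) (κ : Crd k) (N P V f : ℕ) (c₀ : ℝ) (A : ℕ) (cst : ℝ)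
    (a : IQ k → ℤ) : Prop :=
  ∀ y : Fin (k + 2) → ℝ, RZ2 c a y → c₀ ≤ pt κ.I y 0 →
    ∀ M : (p : ℕ) → [Fact p.Prime] → Fin (k + 2) → ℤ_[p],
    (∀ (p : ℕ) [Fact p.Prime], p ≤ P → PZ2 p c a (M p) ∧
      (p : ℝ) ^ (-(V : ℤ)) ≤ ‖pt κ.I (M p) 0‖) → Conc c a N P f A cst y M

/-- The conclusion for all adelic zeros. -/
def WSq {k : ℕ} (c : IQ k → ℤ) (N P A : ℕ) (cst : ℝ) (a : IQ k → ℤ) : Prop :=
  ∀ y : Fin (k + 2) → ℝ, RZ2 c a y →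
    ∀ M : (p : ℕ) → [Fact p.Prime] → Fin (k + 2) → ℤ_[p],
    (∀ (p : ℕ) [Fact p.Prime], p ≤ P → PZ2 p c a (M p)) → Conc c a N N N A cst y M

end Pool.FQ
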