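import Pool.Agent.Work.MP_a19274_gr.Final1
import Pool.Agent.Work.MP_9fb703_fq.Bridge
import Pool.Agent.Work.MP_9fb703_fq.B_BAS
import Pool.Agent.Work.MP_9fb703_fq.B_BOX
import Pool.Agent.Work.MP_9fb703_fq.B_BXL
import Pool.Agent.Work.MP_9fb703_fq.B_BXU
import Pool.Agent.Work.MP_9fb703_fq.B_CBQ
import Pool.Agent.Work.MP_9fb703_fq.B_CHU
import Pool.Agent.Work.MP_9fb703_fq.B_CN0
import Pool.Agent.Work.MP_9fb703_fq.B_CNQ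
import Pool.Agent.Work.MP_9fb703_fq.B_CRA
import Pool.Agent.Work.MP_9fb703_fq.B_CRD
import Pool.Agent.Work.MP_9fb703_fq.B_FNQ
import Pool.Agent.Work.MP_9fb703_fq.B_GAU
import Pool.Agent.Work.MP_9fb703_fq.B_GIN
import Pool.Agent.Work.MP_9fb703_fq.B_GNB
import Pool.Agent.Work.MP_9fb703_fq.B_HSQ
import Pool.Agent.Work.MP_9fb703_fq.B_INC
import Pool.Agent.Work.MP_9fb703_fq.B_ISO
import Pool.Agent.Work.MP_9fb703_fq.B_LPT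
import Pool.Agent.Work.MP_9fb703_fq.B_LS1
import Pool.Agent.Work.MP_9fb703_fq.B_LST
import Pool.Agent.Work.MP_9fb703_fq.B_LWQ
import Pool.Agent.Work.MP_9fb703_fq.B_MLQ
import Pool.Agent.Work.MP_9fb703_fq.B_MN1
import Pool.Agent.Work.MP_9fb703_fq.B_MNQ
import Pool.Agent.Work.MP_9fb703_fq.B_PAP
import Pool.Agent.Work.MP_9fb703_fq.B_PAQ
import Pool.Agent.Work.MP_9fb703_fq.B_PDQ
import Pool.Agent.Work.MP_9fb703_fq.B_PLW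
import Pool.Agent.Work.MP_9fb703_fq.B_PSQ
import Pool.Agent.Work.MP_9fb703_fq.B_PSX
import Pool.Agent.Work.MP_9fb703_fq.B_PTI
import Pool.Agent.Work.MP_9fb703_fq.B_PXQ
import Pool.Agent.Work.MP_9fb703_fq.B_QAD
import Pool.Agent.Work.MP_9fb703_fq.B_R3B
import Pool.Agent.Work.MP_9fb703_fq.B_R3C
import Pool.Agent.Work.MP_9fb703_fq.B_RCQ
import Pool.Agent.Work.MP_9fb703_fq.B_RG1
import Pool.Agent.Work.MP_9fb703_fq.B_RG2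
import Pool.Agent.Work.MP_9fb703_fq.B_RGN
import Pool.Agent.Work.MP_9fb703_fq.B_RNQ
import Pool.Agent.Work.MP_9fb703_fq.B_RSQ
import Pool.Agent.Work.MP_9fb703_fq.B_SBI
import Pool.Agent.Work.MP_9fb703_fq.B_SGQ
import Pool.Agent.Work.MP_9fb703_fq.B_SHV
import Pool.Agent.Work.MP_9fb703_fq.B_SIQ
import Pool.Agent.Work.MP_9fb703_fq.B_SZQ
import Pool.Agent.Work.MP_9fb703_fq.B_TBW
import Pool.Agent.Work.MP_9fb703_fq.B_TUB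
import Pool.Agent.Work.MP_9fb703_fq.B_UNI
import Pool.Agent.Work.MP_9fb703_fq.B_VTQ

/-! # Intersections of a fixed quadric with almost all quadrics: assembly of the blocks
(MP_9fb703, THEOREM FQ, helper23) -/

set_option autoImplicit false

namespace Pool.FQ

theorem f_UNI : Stmt_UNI := p_UNI

theorem f_BAS : Stmt_BAS := p_BAS f_UNI

theorem f_GAU : Stmt_GAU := p_GAU

theorem f_INC : Stmt_INC := p_INC

theorem f_BOX : Stmt_BOX := p_BOX f_GAU f_INC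

theorem f_BXL : Stmt_BXL := p_BXL f_BOX

theorem f_BXU : Stmt_BXU := p_BXU f_BOX

theorem f_PAP : Stmt_PAP := p_PAP

theorem f_CBQ : Stmt_CBQ := p_CBQ f_PAP f_BXL

theorem f_CHU : Stmt_CHU := p_CHU

theorem f_PTI : Stmt_PTI := p_PTI

theorem f_TUB : Stmt_TUB := p_TUB

theorem f_CN0 : Stmt_CN0 := p_CN0 f_PTI f_TUB f_CHU f_BXU

theorem f_QAD : Stmt_QAD := p_QAD

theorem f_CNQ : Stmt_CNQ := p_CNQ f_QAD

theorem f_CRA : Stmt_CRA := p_CRA f_QAD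

theorem f_CRD : Stmt_CRD := p_CRD f_QAD f_BAS f_CRA

theorem f_ISO : Stmt_ISO := p_ISO f_QAD f_PTI f_CRD

theorem f_LS1 : Stmt_LS1 := p_LS1 f_ISO

theorem f_LST : Stmt_LST := p_LST f_QAD f_CRD f_LS1

theorem f_RNQ : Stmt_RNQ := p_RNQ f_QAD Pool.GE.f_LIP

theorem f_RSQ : Stmt_RSQ := p_RSQ f_QAD f_RNQ Pool.GE.f_LIP Pool.GE.f_TRI Pool.GE.f_HOM

theorem f_GIN : Stmt_GIN := p_GIN Pool.GE.f_CNG

theorem f_MLQ : Stmt_MLQ := p_MLQ f_GIN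

theorem f_SBI : Stmt_SBI := p_SBI f_GIN

theorem f_SGQ : Stmt_SGQ := p_SGQ f_QAD f_CNQ Pool.GE.f_CNG Pool.GE.f_HOM Pool.GE.f_TRI

theorem f_HSQ : Stmt_HSQ := p_HSQ f_PTI Pool.GE.f_CNG Pool.GR.f_HNR

theorem f_PDQ : Stmt_PDQ := p_PDQ f_MLQ f_HSQ

theorem f_SIQ : Stmt_SIQ := p_SIQ f_PTI Pool.GE.f_CNG Pool.GE.f_ANM Pool.GE.f_CTM

theorem f_PAQ : Stmt_PAQ := p_PAQ f_GIN f_MLQ f_SBI f_SGQ f_PDQ f_SIQ Pool.GE.f_CNG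

theorem f_RGN : Stmt_RGN := p_RGN f_PTI f_TUB

theorem f_RG1 : Stmt_RG1 := p_RG1 f_PTI f_TUB f_CHU f_BXU Pool.GE.f_DEL

theorem f_RG2 : Stmt_RG2 := p_RG2 f_PTI f_TUB

theorem f_PSX : Stmt_PSX := p_PSX f_RG1 f_RG2 Pool.GE.f_DEL Pool.GR.f_DYR

theorem f_PLW : Stmt_PLW := p_PLW Pool.GE.f_DEL

theorem f_TBW : Stmt_TBW := p_TBW

theorem f_LPT : Stmt_LPT := p_LPT

theorem f_R3B : Stmt_R3B := p_R3B f_PLW f_TBW f_LPT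

theorem f_SHV : Stmt_SHV := p_SHV f_PLW

theorem f_R3C : Stmt_R3C := p_R3C f_SHV f_TBW f_LPT Pool.GR.f_DYR

theorem f_PSQ : Stmt_PSQ := p_PSQ Pool.GR.f_SAMG Pool.GE.f_DIAP Pool.GE.f_GLU Pool.GE.f_PAR

theorem f_VTQ : Stmt_VTQ := p_VTQ f_CN0 f_RGN f_PSX f_R3B f_R3C f_PSQ Pool.GE.f_DEL Pool.GE.f_PAR

theorem f_SZQ : Stmt_SZQ := p_SZQ

theorem f_GNB : Stmt_GNB := p_GNB f_PTI f_TUB f_CHU f_BXU f_SZQ

theorem f_RCQ : Stmt_RCQ := p_RCQ f_QAD f_PTI Pool.GE.f_LIP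

theorem f_LWQ : Stmt_LWQ := p_LWQ f_PTI f_TUB f_GNB f_GIN f_RCQ f_CBQ

theorem f_PXQ : Stmt_PXQ := p_PXQ

theorem f_MN1 : Stmt_MN1 := p_MN1 f_VTQ f_LWQ f_PXQ Pool.GE.f_RELK

theorem f_MNQ : Stmt_MNQ := p_MNQ f_RSQ f_PAQ f_MN1

theorem f_FNQ : Stmt_FNQ := p_FNQ f_LST f_MNQ

end Pool.FQ
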